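import Mathlib.Data.Set.Basic
import Mathlib.Data.Set.Lattice
import Mathlib.Tactic.Set

/-!
# The combinatorics of coding systems

A system `X` has a set `I X` of labels; the step with the label `j` has a support `dp X j` (a
subsystem), a guard `gd X j`, and it is either a tag step, or it codes the real `zn X j` at the tag
`tg X j` on the side `bit X j`. A rule is a pair `(D, O)` of a system `D` and a set `O` of tags of
`D`: the tags in `O` are open, the other tags of `D` are closed, the tags outside `D` are free.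
-/

namespace Pool.Agent.Sep

/-- The abstract data. -/
structure Api where
  /-- systems -/
  Sy : Type*
  /-- labels -/
  Lb : Type*
  /-- conditions -/
  Cn : Type*
  /-- names of reals -/
  Nm : Type*
  /-- the labels of a system -/
  I : Sy → Set Lb
  /-- the set of labels is a set of the model -/
  Int : Set Lb → Prop
  /-- subsystems -/
  Sub : Sy → Sy → Prop
  /-- unions of systems -/
  un : Sy → Sy → Sy
  /-- the support of a step -/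
  dp : Sy → Lb → Sy
  /-- tag steps -/
  Tag : Sy → Lb → Prop
  /-- the tag step is of the second kind -/
  PI : Sy → Lb → Prop
  /-- the tags which were open when the tag step was made -/
  op : Sy → Lb → Set Lb
  /-- the two parameters of a tag step -/
  pa : Sy → Lb → Nm
  pb : Sy → Lb → Nm
  /-- the tag of a code step -/
  tg : Sy → Lb → Lb
  /-- the side of a code step -/
  bit : Sy → Lb → Bool
  /-- the real coded by a code step -/
  zn : Sy → Lb → Nm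
  /-- the guard -/
  gd : Sy → Lb → Cn
  /-- the code step obeys the rule of its tag -/
  OK : Sy → Lb → Prop
  /-- the conditions over `X` -/
  P : Sy → Set Cn
  le : Cn → Cn → Prop
  /-- restriction -/
  rs : Sy → Cn → Cn
  /-- the names over `X` -/
  N : Sy → Set Nm
  /-- `FA X q a z`: over `X`, the condition `q` forces that `z` belongs to the set coded by `a` -/
  FA : Sy → Cn → Nm → Nm → Prop
  /-- over `X`, the condition `q` forces `z = z'` -/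
  FE : Sy → Cn → Nm → Nm → Prop

namespace Api

variable (A : Api)

/-- The label `j` of `X` is a code step with tag `t`. -/
def At (X : A.Sy) (t j : A.Lb) : Prop := j ∈ A.I X ∧ ¬ A.Tag X j ∧ A.tg X j = t

/-- No clash at the open tags of the second kind. -/
def Cons (B : A.Sy) (O : Set A.Lb) : Prop :=
  ∀ t ∈ O, A.PI B t → ∀ k l, A.At B t k → A.At B t l → A.bit B k ≠ A.bit B l →
    ∀ q ∈ A.P B, A.le q (A.gd B k) → A.le q (A.gd B l) → ¬ A.FE B q (A.zn B k) (A.zn B l)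

/-- `B` is a legal extension of `D` for the rule `(D, O)`. -/
def L (D : A.Sy) (O : Set A.Lb) (B : A.Sy) : Prop :=
  A.Sub D B ∧ (∀ k ∈ A.I B, k ∉ A.I D → ¬ A.Tag B k → A.tg B k ∈ A.I D →
    A.tg B k ∈ O ∧ A.OK B k) ∧ A.Cons B O

/-- `B` is legal for the rule stored in the tag `t` of `X`. -/
def LL (X : A.Sy) (t : A.Lb) (B : A.Sy) : Prop := A.L (A.dp X t) (A.op X t) B

/-- Every real of the model of `X` is coded at every tag of the second kind in `O`. -/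
def Good (X : A.Sy) (O : Set A.Lb) : Prop :=
  ∀ t ∈ O, A.PI X t → ∀ z ∈ A.N X, ∀ q ∈ A.P X, A.le q (A.gd X t) →
    ∃ r ∈ A.P X, A.le r q ∧ ∃ l, A.At X t l ∧ A.le r (A.gd X l) ∧ A.FE X r (A.zn X l) z

/-- No legal extension forces that the two sets of the tag `t` meet. -/
def NoKill (X : A.Sy) (t : A.Lb) : Prop :=
  ∀ Y, A.LL X t Y → ∀ q ∈ A.P Y, A.le q (A.gd X t) → ∀ z ∈ A.N Y,
    ¬ (A.FA Y q (A.pa X t) z ∧ A.FA Y q (A.pb X t) z)

/-- Every real can be put into the union of the two sets of the tag `t`, even if all new tags are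
closed. -/
def BB (X : A.Sy) (t : A.Lb) : Prop :=
  ∀ Y, A.LL X t Y → ∀ z ∈ A.N Y, ∀ q ∈ A.P Y, A.le q (A.gd X t) →
    ∃ Z, A.L Y (A.op X t) Z ∧ ∃ r ∈ A.P Z, A.le r q ∧
      (A.FA Z r (A.pa X t) z ∨ A.FA Z r (A.pb X t) z)

/-- Positions. -/
structure Pos (X : A.Sy) (O : Set A.Lb) : Prop where
  int : A.Int O
  sub : O ⊆ A.I X
  tag : ∀ t ∈ O, A.Tag X t
  op : ∀ t ∈ O, A.op X t = O ∩ A.I (A.dp X t)
  ll : ∀ t ∈ O, A.LL X t X
  ok : ∀ t ∈ O, ∀ k, A.At X t k → A.OK X k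
  cons : A.Cons X O
  sig : ∀ t ∈ O, ¬ A.PI X t → A.NoKill X t
  pi : ∀ t ∈ O, A.PI X t → A.BB X t

/-- Extensions of positions. -/
def PExt (X : A.Sy) (O : Set A.Lb) (Y : A.Sy) (O' : Set A.Lb) : Prop :=
  A.L X O Y ∧ O' ∩ A.I X = O

/-- The laws. -/
structure Laws : Prop where
  -- systems
  sub_refl : ∀ X, A.Sub X X
  sub_trans : ∀ {X Y Z}, A.Sub X Y → A.Sub Y Z → A.Sub X Z
  sub_I : ∀ {X Y}, A.Sub X Y → A.I X ⊆ A.I Y
  /-- subsystems of a system are ordered by their labels -/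
  sub_of : ∀ {X Y Z}, A.Sub X Z → A.Sub Y Z → A.I X ⊆ A.I Y → A.Sub X Y
  un_left : ∀ {X B C}, A.Sub X B → A.Sub X C → A.I B ∩ A.I C = A.I X → A.Sub B (A.un B C)
  un_right : ∀ {X B C}, A.Sub X B → A.Sub X C → A.I B ∩ A.I C = A.I X → A.Sub C (A.un B C)
  un_I : ∀ {X B C}, A.Sub X B → A.Sub X C → A.I B ∩ A.I C = A.I X →
    A.I (A.un B C) = A.I B ∪ A.I C
  dp_sub : ∀ {X j}, j ∈ A.I X → A.Sub (A.dp X j) X
  not_mem_dp : ∀ {X j}, j ∈ A.I X → j ∉ A.I (A.dp X j)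
  -- the data are local
  dp_eq : ∀ {X Y j}, A.Sub X Y → j ∈ A.I X → A.dp Y j = A.dp X j
  Tag_eq : ∀ {X Y j}, A.Sub X Y → j ∈ A.I X → (A.Tag Y j ↔ A.Tag X j)
  PI_eq : ∀ {X Y j}, A.Sub X Y → j ∈ A.I X → (A.PI Y j ↔ A.PI X j)
  op_eq : ∀ {X Y j}, A.Sub X Y → j ∈ A.I X → A.op Y j = A.op X j
  pa_eq : ∀ {X Y j}, A.Sub X Y → j ∈ A.I X → A.pa Y j = A.pa X j
  pb_eq : ∀ {X Y j}, A.Sub X Y → j ∈ A.I X → A.pb Y j = A.pb X j
  tg_eq : ∀ {X Y j}, A.Sub X Y → j ∈ A.I X → A.tg Y j = A.tg X j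
  bit_eq : ∀ {X Y j}, A.Sub X Y → j ∈ A.I X → A.bit Y j = A.bit X j
  zn_eq : ∀ {X Y j}, A.Sub X Y → j ∈ A.I X → A.zn Y j = A.zn X j
  gd_eq : ∀ {X Y j}, A.Sub X Y → j ∈ A.I X → A.gd Y j = A.gd X j
  OK_eq : ∀ {X Y j}, A.Sub X Y → j ∈ A.I X → ¬ A.Tag X j → (A.OK Y j ↔ A.OK X j)
  -- the data of a step
  op_sub : ∀ {X t}, t ∈ A.I X → A.Tag X t → A.op X t ⊆ A.I (A.dp X t)
  tg_mem : ∀ {X k}, k ∈ A.I X → ¬ A.Tag X k → A.tg X k ∈ A.I (A.dp X k)
  tg_tag : ∀ {X k}, k ∈ A.I X → ¬ A.Tag X k → A.Tag X (A.tg X k)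
  gd_tg : ∀ {X k}, k ∈ A.I X → ¬ A.Tag X k → A.le (A.gd X k) (A.gd X (A.tg X k))
  gd_mem : ∀ {X k}, k ∈ A.I X → A.gd X k ∈ A.P (A.dp X k)
  zn_mem : ∀ {X k}, k ∈ A.I X → ¬ A.Tag X k → A.zn X k ∈ A.N (A.dp X k)
  pa_mem : ∀ {X k}, k ∈ A.I X → A.Tag X k → A.pa X k ∈ A.N (A.dp X k)
  pb_mem : ∀ {X k}, k ∈ A.I X → A.Tag X k → A.pb X k ∈ A.N (A.dp X k)
  -- conditions
  le_refl : ∀ q, A.le q q
  le_trans : ∀ {p q r}, A.le p q → A.le q r → A.le p r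
  P_mono : ∀ {X Y}, A.Sub X Y → A.P X ⊆ A.P Y
  rs_mem : ∀ {X Y q}, A.Sub X Y → q ∈ A.P Y → A.rs X q ∈ A.P X
  le_rs : ∀ {X Y q}, A.Sub X Y → q ∈ A.P Y → A.le q (A.rs X q)
  rs_mono : ∀ {X Y q r}, A.Sub X Y → q ∈ A.P Y → r ∈ A.P Y → A.le r q →
    A.le (A.rs X r) (A.rs X q)
  rs_self : ∀ {X q}, q ∈ A.P X → A.rs X q = q
  /-- amalgamation over `X` inside the union -/
  amalg : ∀ {X B C q r}, A.Sub X B → A.Sub X C → A.I B ∩ A.I C = A.I X → q ∈ A.P B → r ∈ A.P C →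
    A.le r (A.rs X q) → ∃ s ∈ A.P (A.un B C), A.le s q ∧ A.le s r
  /-- amalgamation of a condition over `Y` and a condition over a subsystem -/
  amalg1 : ∀ {X Y q r}, A.Sub X Y → q ∈ A.P Y → r ∈ A.P X → A.le r (A.rs X q) →
    ∃ s ∈ A.P Y, A.le s q ∧ A.le s r
  -- names
  N_mono : ∀ {X Y}, A.Sub X Y → A.N X ⊆ A.N Y
  -- equality
  fe_symm : ∀ {X q z z'}, q ∈ A.P X → z ∈ A.N X → z' ∈ A.N X → A.FE X q z z' → A.FE X q z' z
  fe_trans : ∀ {X q z z' z''}, q ∈ A.P X → z ∈ A.N X → z' ∈ A.N X → z'' ∈ A.N X →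
    A.FE X q z z' → A.FE X q z' z'' → A.FE X q z z''
  fe_mono : ∀ {X q r z z'}, q ∈ A.P X → r ∈ A.P X → z ∈ A.N X → z' ∈ A.N X →
    A.FE X q z z' → A.le r q → A.FE X r z z'
  fe_up : ∀ {X Y q z z'}, A.Sub X Y → q ∈ A.P X → z ∈ A.N X → z' ∈ A.N X →
    A.FE X q z z' → A.FE Y q z z'
  fe_down : ∀ {X Y q z z'}, A.Sub X Y → q ∈ A.P Y → z ∈ A.N X → z' ∈ A.N X →
    A.FE Y q z z' → A.FE X (A.rs X q) z z'
  common : ∀ {X B C q z z'}, A.Sub X B → A.Sub X C → A.I B ∩ A.I C = A.I X →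
    q ∈ A.P (A.un B C) → z ∈ A.N B → z' ∈ A.N C → A.FE (A.un B C) q z z' →
    ∃ r ∈ A.P (A.un B C), A.le r q ∧ ∃ w ∈ A.N X, A.FE (A.un B C) r z w
  -- the forcing relation for `A_a(z)`
  fa_mono : ∀ {X q r a z}, q ∈ A.P X → r ∈ A.P X → a ∈ A.N X → z ∈ A.N X → A.FA X q a z →
    A.le r q → A.FA X r a z
  fa_up : ∀ {X Y q a z}, A.Sub X Y → q ∈ A.P X → a ∈ A.N X → z ∈ A.N X →
    A.FA X q a z → A.FA Y q a z
  fa_congr : ∀ {X q a z z'}, q ∈ A.P X → a ∈ A.N X → z ∈ A.N X → z' ∈ A.N X →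
    A.FE X q z z' → A.FA X q a z → A.FA X q a z'
  -- the rules
  ok_iff : ∀ {X k}, k ∈ A.I X → ¬ A.Tag X k → (A.OK X k ↔
    (A.PI X (A.tg X k) →
      (A.bit X k = false → A.FA (A.dp X k) (A.gd X k) (A.pa X (A.tg X k)) (A.zn X k)) ∧
      (A.bit X k = true → A.FA (A.dp X k) (A.gd X k) (A.pb X (A.tg X k)) (A.zn X k))) ∧
    (¬ A.PI X (A.tg X k) →
      (A.bit X k = false → ∀ Y, A.LL X (A.tg X k) Y → A.Sub (A.dp X k) Y → ∀ q ∈ A.P Y,
        A.le q (A.gd X k) → ∃ Z, A.LL X (A.tg X k) Z ∧ A.Sub Y Z ∧ ∃ r ∈ A.P Z, A.le r q ∧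
          A.FA Z r (A.pa X (A.tg X k)) (A.zn X k)) ∧
      (A.bit X k = true → ∀ Y, A.LL X (A.tg X k) Y → A.Sub (A.dp X k) Y → ∀ q ∈ A.P Y,
        A.le q (A.gd X k) → ¬ A.FA Y q (A.pa X (A.tg X k)) (A.zn X k))))
  -- copies
  copy : ∀ {X B E t r a z}, A.Sub X B → A.Sub X E → t ∈ A.I X → A.Tag X t → A.LL X t B →
    r ∈ A.P B → a ∈ A.N X → z ∈ A.N X → A.FA B r a z →
    ∃ B' r', A.Sub X B' ∧ A.I B' ∩ A.I E = A.I X ∧ A.LL X t B' ∧ r' ∈ A.P B' ∧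
      A.rs X r' = A.rs X r ∧ A.FA B' r' a z
  -- new steps
  int_insert : ∀ {O t}, A.Int O → A.Int (insert t O)
  add_tag : ∀ {X O g a b} (pi : Prop), A.Int O → O ⊆ A.I X → (∀ t ∈ O, A.Tag X t) → g ∈ A.P X →
    a ∈ A.N X → b ∈ A.N X → ∃ Y t, A.Sub X Y ∧ t ∉ A.I X ∧ A.I Y = insert t (A.I X) ∧
      A.Tag Y t ∧ (A.PI Y t ↔ pi) ∧ A.dp Y t = X ∧ A.op Y t = O ∧ A.gd Y t = g ∧
      A.pa Y t = a ∧ A.pb Y t = b
  add_code : ∀ {X t g z} (i : Bool), t ∈ A.I X → A.Tag X t → g ∈ A.P X → A.le g (A.gd X t) →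
    z ∈ A.N X → ∃ Y k, A.Sub X Y ∧ k ∉ A.I X ∧ A.I Y = insert k (A.I X) ∧ ¬ A.Tag Y k ∧
      A.dp Y k = X ∧ A.tg Y k = t ∧ A.bit Y k = i ∧ A.gd Y k = g ∧ A.FE X g (A.zn Y k) z

variable {A}

theorem Laws.at_mono (h : A.Laws) {X Y : A.Sy} (hXY : A.Sub X Y) {t k : A.Lb} (hk : A.At X t k) :
    A.At Y t k :=
  ⟨h.sub_I hXY hk.1, fun e => hk.2.1 ((h.Tag_eq hXY hk.1).1 e), by rw [h.tg_eq hXY hk.1, hk.2.2]⟩

theorem Laws.at_of (h : A.Laws) {X Y : A.Sy} (hXY : A.Sub X Y) {t k : A.Lb} (hkX : k ∈ A.I X)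
    (hk : A.At Y t k) : A.At X t k :=
  ⟨hkX, fun e => hk.2.1 ((h.Tag_eq hXY hkX).2 e), by rw [← h.tg_eq hXY hkX, hk.2.2]⟩

section

variable (h : A.Laws)

include h

theorem Laws.gd_mem' {X : A.Sy} {k : A.Lb} (hk : k ∈ A.I X) : A.gd X k ∈ A.P X :=
  h.P_mono (h.dp_sub hk) (h.gd_mem hk)

theorem Laws.zn_mem' {X : A.Sy} {t k : A.Lb} (hk : A.At X t k) : A.zn X k ∈ A.N X :=
  h.N_mono (h.dp_sub hk.1) (h.zn_mem hk.1 hk.2.1)

theorem Laws.gd_le {X : A.Sy} {t k : A.Lb} (hk : A.At X t k) : A.le (A.gd X k) (A.gd X t) := by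
  have := h.gd_tg hk.1 hk.2.1
  rwa [hk.2.2] at this

theorem Laws.tg_mem' {X : A.Sy} {t k : A.Lb} (hk : A.At X t k) : t ∈ A.I (A.dp X k) := by
  have := h.tg_mem hk.1 hk.2.1
  rwa [hk.2.2] at this

theorem Laws.tg_mem'' {X : A.Sy} {t k : A.Lb} (hk : A.At X t k) : t ∈ A.I X :=
  h.sub_I (h.dp_sub hk.1) (h.tg_mem' hk)

/-- The restriction of a condition below a guard is below the guard. -/
theorem Laws.rs_le_gd {X Y : A.Sy} (hXY : A.Sub X Y) {q : A.Cn} (hq : q ∈ A.P Y) {k : A.Lb}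
    (hk : k ∈ A.I X) (hle : A.le q (A.gd Y k)) : A.le (A.rs X q) (A.gd X k) := by
  rw [h.gd_eq hXY hk] at hle
  have h2 := h.rs_mono hXY (h.P_mono hXY (h.gd_mem' hk)) hq hle
  rwa [h.rs_self (h.gd_mem' hk)] at h2

/-- Conditions and names are restricted to a subsystem. -/
theorem Laws.rs_le {X Y : A.Sy} (hXY : A.Sub X Y) {q r : A.Cn} (hq : q ∈ A.P Y) (hr : r ∈ A.P X)
    (hle : A.le q r) : A.le (A.rs X q) r := by
  have h2 := h.rs_mono hXY (h.P_mono hXY hr) hq hle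
  rwa [h.rs_self hr] at h2

/-- A clash over `Y` of steps of the subsystem `X` is a clash over `X`. -/
theorem Laws.clash_rs {X Y : A.Sy} (hXY : A.Sub X Y) {q : A.Cn} (hq : q ∈ A.P Y) {t k l : A.Lb}
    (hk : A.At X t k) (hl : A.At X t l) (h1 : A.le q (A.gd Y k)) (h2 : A.le q (A.gd Y l))
    (he : A.FE Y q (A.zn Y k) (A.zn Y l)) :
    A.rs X q ∈ A.P X ∧ A.le (A.rs X q) (A.gd X k) ∧ A.le (A.rs X q) (A.gd X l) ∧
      A.FE X (A.rs X q) (A.zn X k) (A.zn X l) := by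
  refine ⟨h.rs_mem hXY hq, h.rs_le_gd hXY hq hk.1 h1, h.rs_le_gd hXY hq hl.1 h2, ?_⟩
  rw [h.zn_eq hXY hk.1, h.zn_eq hXY hl.1] at he
  exact h.fe_down hXY hq (h.zn_mem' hk) (h.zn_mem' hl) he

/-- If there is no clash over `X`, then there is no clash over `Y` between steps of `X`. -/
theorem Cons.up {X Y : A.Sy} {O : Set A.Lb} (hXY : A.Sub X Y) (hc : A.Cons X O) {t k l : A.Lb}
    (ht : t ∈ O) (hpi : A.PI Y t) (hk : A.At Y t k) (hl : A.At Y t l) (hkX : k ∈ A.I X)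
    (hlX : l ∈ A.I X) (hb : A.bit Y k ≠ A.bit Y l) {q : A.Cn} (hq : q ∈ A.P Y)
    (h1 : A.le q (A.gd Y k)) (h2 : A.le q (A.gd Y l)) : ¬ A.FE Y q (A.zn Y k) (A.zn Y l) := by
  intro he
  have hk' := h.at_of hXY hkX hk
  have hl' := h.at_of hXY hlX hl
  obtain ⟨c1, c2, c3, c4⟩ := h.clash_rs hXY hq hk' hl' h1 h2 he
  rw [h.bit_eq hXY hkX, h.bit_eq hXY hlX] at hb
  have hpi' : A.PI X t := by
    have htX : t ∈ A.I X := h.tg_mem'' hk'
    exact (h.PI_eq hXY htX).1 hpi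
  exact hc t ht hpi' k l hk' hl' hb _ c1 c2 c3 c4

/-- Composition of legal extensions. -/
theorem L.trans {D : A.Sy} {O : Set A.Lb} {B : A.Sy} {O' : Set A.Lb} {C : A.Sy}
    (h1 : A.L D O B) (h2 : A.L B O' C) (hO : O' ∩ A.I D = O) : A.L D O C := by
  have hBC := h2.1
  refine ⟨h.sub_trans h1.1 hBC, fun k hk hkD hkt htD => ?_, fun t ht => ?_⟩
  · by_cases hkB : k ∈ A.I B
    · have hkt' : ¬ A.Tag B k := fun e => hkt ((h.Tag_eq hBC hkB).2 e)
      rw [h.tg_eq hBC hkB] at htD ⊢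
      obtain ⟨h3, h4⟩ := h1.2.1 k hkB hkD hkt' htD
      exact ⟨h3, (h.OK_eq hBC hkB hkt').2 h4⟩
    · obtain ⟨h3, h4⟩ := h2.2.1 k hk hkB hkt (h.sub_I h1.1 htD)
      refine ⟨?_, h4⟩
      rw [← hO]
      exact ⟨h3, htD⟩
  · have ht' : t ∈ O' := by
      rw [← hO] at ht
      exact ht.1
    exact h2.2.2 t ht'

omit h in
theorem Cons.mono {X : A.Sy} {O O' : Set A.Lb} (hO : O ⊆ O') (hc : A.Cons X O') : A.Cons X O :=
  fun t ht => hc t (hO ht)

/-- The product of two legal extensions over a good system. -/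
theorem product {D X B C : A.Sy} {O : Set A.Lb} (hDX : A.Sub D X) (hOD : O ⊆ A.I D)
    (hg : A.Good X O) (hB : A.L D O B) (hC : A.L D O C) (hXB : A.Sub X B) (hXC : A.Sub X C)
    (hBC : A.I B ∩ A.I C = A.I X) : A.L D O (A.un B C) := by
  have sB := h.un_left hXB hXC hBC
  have sC := h.un_right hXB hXC hBC
  have hI := h.un_I hXB hXC hBC
  have sX := h.sub_trans hXB sB
  set U := A.un B C with hU
  -- a clash between a step of `B` and a step of `C`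
  have key : ∀ t ∈ O, A.PI U t → ∀ k l, A.At U t k → A.At U t l → k ∈ A.I B → l ∈ A.I C →
      A.bit U k ≠ A.bit U l → ∀ q ∈ A.P U, A.le q (A.gd U k) → A.le q (A.gd U l) →
      ¬ A.FE U q (A.zn U k) (A.zn U l) := by
    intro t ht hpi k l hk hl hkB hlC hb q hq hq1 hq2 he
    have hkB' := h.at_of sB hkB hk
    have hlC' := h.at_of sC hlC hl
    have htX : t ∈ A.I X := h.sub_I hDX (hOD ht)
    have he' := he
    rw [h.zn_eq sB hkB, h.zn_eq sC hlC] at he'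
    obtain ⟨r, hr, hrq, w, hw, hrw⟩ := h.common hXB hXC hBC hq (h.zn_mem' hkB') (h.zn_mem' hlC')
      he'
    rw [← h.zn_eq sB hkB] at hrw
    have hwU := h.N_mono sX hw
    have hgt : A.le r (A.gd U t) := h.le_trans hrq (h.le_trans hq1 (h.gd_le hk))
    obtain ⟨s, hs, hsr, m, hm, hgm, hem⟩ := hg t ht ((h.PI_eq sX htX).1 hpi) w hw _
      (h.rs_mem sX hr) (h.rs_le_gd sX hr htX hgt)
    obtain ⟨v, hv, hvr, hvs⟩ := h.amalg1 sX hr hs hsr
    have hmU := h.at_mono sX hm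
    have znk := h.zn_mem' hk
    have znl := h.zn_mem' hl
    have znm := h.zn_mem' hmU
    have sU := h.P_mono sX hs
    have em : A.FE U v (A.zn U m) w := by
      rw [h.zn_eq sX hm.1]
      exact h.fe_mono sU hv (h.N_mono sX (h.zn_mem' hm)) hwU
        (h.fe_up sX hs (h.zn_mem' hm) hw hem) hvs
    have ek : A.FE U v (A.zn U k) w := h.fe_mono hr hv znk hwU hrw hvr
    have e1 : A.FE U v (A.zn U k) (A.zn U m) :=
      h.fe_trans hv znk hwU znm ek (h.fe_symm hv znm hwU em)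
    have e0 : A.FE U v (A.zn U k) (A.zn U l) :=
      h.fe_mono hq hv znk znl he (h.le_trans hvr hrq)
    have e2 : A.FE U v (A.zn U l) (A.zn U m) :=
      h.fe_trans hv znl znk znm (h.fe_symm hv znk znl e0) e1
    have vm : A.le v (A.gd U m) := by
      rw [h.gd_eq sX hm.1]
      exact h.le_trans hvs hgm
    have vk : A.le v (A.gd U k) := h.le_trans hvr (h.le_trans hrq hq1)
    have vl : A.le v (A.gd U l) := h.le_trans hvr (h.le_trans hrq hq2)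
    by_cases hb' : A.bit U k = A.bit U m
    · refine Cons.up h sC hC.2.2 ht hpi hl hmU hlC (h.sub_I hXC hm.1) ?_ hv vl vm e2
      exact fun e => hb (hb'.trans e.symm)
    · exact Cons.up h sB hB.2.2 ht hpi hk hmU hkB (h.sub_I hXB hm.1) hb' hv vk vm e1
  refine ⟨h.sub_trans hDX sX, ?_, ?_⟩
  · intro k hk hkD hkt htD
    rw [hI] at hk
    rcases hk with hk | hk
    · have hkt' : ¬ A.Tag B k := fun e => hkt ((h.Tag_eq sB hk).2 e)
      rw [h.tg_eq sB hk] at htD ⊢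
      obtain ⟨h3, h4⟩ := hB.2.1 k hk hkD hkt' htD
      exact ⟨h3, (h.OK_eq sB hk hkt').2 h4⟩
    · have hkt' : ¬ A.Tag C k := fun e => hkt ((h.Tag_eq sC hk).2 e)
      rw [h.tg_eq sC hk] at htD ⊢
      obtain ⟨h3, h4⟩ := hC.2.1 k hk hkD hkt' htD
      exact ⟨h3, (h.OK_eq sC hk hkt').2 h4⟩
  · intro t ht hpi k l hk hl hb q hq hq1 hq2 he
    have hkU := hk.1
    have hlU := hl.1
    rw [hI] at hkU hlU
    rcases hkU with hkB | hkC
    · rcases hlU with hlB | hlC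
      · exact Cons.up h sB hB.2.2 ht hpi hk hl hkB hlB hb hq hq1 hq2 he
      · exact key t ht hpi k l hk hl hkB hlC hb q hq hq1 hq2 he
    · rcases hlU with hlB | hlC
      · exact key t ht hpi l k hl hk hlB hkC (Ne.symm hb) q hq hq2 hq1
          (h.fe_symm hq (h.zn_mem' hk) (h.zn_mem' hl) he)
      · exact Cons.up h sC hC.2.2 ht hpi hk hl hkC hlC hb hq hq1 hq2 he

/-! ### Locality of the notions which belong to a tag -/

theorem Laws.LL_eq {X Y : A.Sy} (hXY : A.Sub X Y) {t : A.Lb} (ht : t ∈ A.I X) (B : A.Sy) :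
    A.LL Y t B ↔ A.LL X t B := by
  unfold LL
  rw [h.dp_eq hXY ht, h.op_eq hXY ht]

theorem NoKill.up {X Y : A.Sy} (hXY : A.Sub X Y) {t : A.Lb} (ht : t ∈ A.I X)
    (hn : A.NoKill X t) : A.NoKill Y t := by
  intro B hB q hq hle z hz
  rw [h.LL_eq hXY ht] at hB
  rw [h.gd_eq hXY ht] at hle
  rw [h.pa_eq hXY ht, h.pb_eq hXY ht]
  exact hn B hB q hq hle z hz

theorem BB.up {X Y : A.Sy} (hXY : A.Sub X Y) {t : A.Lb} (ht : t ∈ A.I X)
    (hn : A.BB X t) : A.BB Y t := by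
  intro B hB z hz q hq hle
  rw [h.LL_eq hXY ht] at hB
  rw [h.gd_eq hXY ht] at hle
  rw [h.pa_eq hXY ht, h.pb_eq hXY ht, h.op_eq hXY ht]
  exact hn B hB z hz q hq hle

/-! ### Positions -/

/-- Positions are preserved by legal extensions with the same open tags. -/
theorem Pos.of_L {X Y : A.Sy} {O : Set A.Lb} (hP : A.Pos X O) (hE : A.L X O Y) : A.Pos Y O where
  int := hP.int
  sub := hP.sub.trans (h.sub_I hE.1)
  tag t ht := (h.Tag_eq hE.1 (hP.sub ht)).2 (hP.tag t ht)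
  op t ht := by rw [h.op_eq hE.1 (hP.sub ht), h.dp_eq hE.1 (hP.sub ht), hP.op t ht]
  ll t ht := by
    rw [h.LL_eq hE.1 (hP.sub ht)]
    exact L.trans h (hP.ll t ht) hE (hP.op t ht).symm
  ok t ht k hk := by
    by_cases hkX : k ∈ A.I X
    · exact (h.OK_eq hE.1 hkX (h.at_of hE.1 hkX hk).2.1).2 (hP.ok t ht k (h.at_of hE.1 hkX hk))
    · exact (hE.2.1 k hk.1 hkX hk.2.1 (by rw [hk.2.2]; exact hP.sub ht)).2
  cons := hE.2.2
  sig t ht hpi := NoKill.up h hE.1 (hP.sub ht)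
    (hP.sig t ht fun e => hpi ((h.PI_eq hE.1 (hP.sub ht)).2 e))
  pi t ht hpi := BB.up h hE.1 (hP.sub ht) (hP.pi t ht ((h.PI_eq hE.1 (hP.sub ht)).1 hpi))

theorem PExt.trans {X Y Z : A.Sy} {O O' O'' : Set A.Lb} (h1 : A.PExt X O Y O')
    (h2 : A.PExt Y O' Z O'') : A.PExt X O Z O'' := by
  refine ⟨L.trans h h1.1 h2.1 h1.2, ?_⟩
  rw [← h1.2, ← h2.2]
  ext u
  constructor
  · rintro ⟨h3, h4⟩
    exact ⟨⟨h3, h.sub_I h1.1.1 h4⟩, h4⟩
  · rintro ⟨⟨h3, -⟩, h4⟩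
    exact ⟨h3, h4⟩

theorem Pos.refl {X : A.Sy} {O : Set A.Lb} (hP : A.Pos X O) : A.PExt X O X O :=
  ⟨⟨h.sub_refl X, fun k hk hk' => (hk' hk).elim, hP.cons⟩,
    Set.inter_eq_self_of_subset_left hP.sub⟩

omit h in
theorem Pos.pext {X Y : A.Sy} {O : Set A.Lb} (hP : A.Pos X O) (hE : A.L X O Y) :
    A.PExt X O Y O := ⟨hE, Set.inter_eq_self_of_subset_left hP.sub⟩

/-- A new tag step can be added and opened. -/
theorem Pos.add {X Y : A.Sy} {O : Set A.Lb} (hP : A.Pos X O) {t : A.Lb} (hXY : A.Sub X Y)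
    (htX : t ∉ A.I X) (hI : A.I Y = insert t (A.I X)) (ht : A.Tag Y t) (hd : A.dp Y t = X)
    (ho : A.op Y t = O) (h1 : ¬ A.PI Y t → A.NoKill Y t) (h2 : A.PI Y t → A.BB Y t) :
    A.Pos Y (insert t O) ∧ A.PExt X O Y (insert t O) := by
  have hne : ∀ k, k ∈ A.I Y → ¬ A.Tag Y k → k ∈ A.I X := by
    intro k hk hkt
    rw [hI] at hk
    rcases hk with rfl | hk
    · exact (hkt ht).elim
    · exact hk
  have hcons : A.Cons Y O := by
    intro u hu hpi k l hk hl hb q hq hq1 hq2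
    exact Cons.up h hXY hP.cons hu hpi hk hl (hne k hk.1 hk.2.1) (hne l hl.1 hl.2.1) hb hq hq1 hq2
  have hE : A.L X O Y := ⟨hXY, fun k hk hkX hkt => (hkX (hne k hk hkt)).elim, hcons⟩
  have hQ := Pos.of_L h hP hE
  have hat : ∀ k, ¬ A.At Y t k := by
    intro k hk
    have hkX := hne k hk.1 hk.2.1
    exact htX (h.tg_mem'' (h.at_of hXY hkX hk))
  have hint : insert t O ∩ A.I X = O := by
    ext u
    constructor
    · rintro ⟨rfl | h3, h4⟩
      · exact (htX h4).elim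
      · exact h3
    · intro h3
      exact ⟨Or.inr h3, hP.sub h3⟩
  refine ⟨⟨h.int_insert hP.int, ?_, ?_, ?_, ?_, ?_, ?_, ?_, ?_⟩, hE, hint⟩
  · rintro u (rfl | hu)
    · rw [hI]
      exact Or.inl rfl
    · exact hQ.sub hu
  · rintro u (rfl | hu)
    · exact ht
    · exact hQ.tag u hu
  · rintro u (rfl | hu)
    · rw [ho, hd, hint]
    · rw [hQ.op u hu]
      ext v
      constructor
      · rintro ⟨h3, h4⟩
        exact ⟨Or.inr h3, h4⟩
      · rintro ⟨rfl | h3, h4⟩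
        · rw [h.dp_eq hXY (hP.sub hu)] at h4
          exact (htX (h.sub_I (h.dp_sub (hP.sub hu)) h4)).elim
        · exact ⟨h3, h4⟩
  · rintro u (rfl | hu)
    · unfold LL
      rw [hd, ho]
      exact hE
    · exact hQ.ll u hu
  · rintro u (rfl | hu) k hk
    · exact (hat k hk).elim
    · exact hQ.ok u hu k hk
  · rintro u (rfl | hu) hpi k l hk hl hb q hq hq1 hq2
    · exact (hat k hk).elim
    · exact hcons u hu hpi k l hk hl hb q hq hq1 hq2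
  · rintro u (rfl | hu) hpi
    · exact h1 hpi
    · exact hQ.sig u hu hpi
  · rintro u (rfl | hu) hpi
    · exact h2 hpi
    · exact hQ.pi u hu hpi

end

end Api

end Pool.Agent.Sep
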