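import Pool.Agent.Sep.RulA
import Pool.Agent.Sep.Rule

/-!
# The coding systems of a model as an instance of the abstract data

`Rest K` lists the laws which are proved in other files; `Rest.laws` derives all laws of
`Pool.Agent.Sep.Rule` for the instance `api K`.
-/

universe u

set_option linter.unusedSectionVars false

namespace Pool.Agent.Sep

open Pool.Agent.SigB Pool.Agent.Forc Pool.Agent.Frc

variable {M : Type u} [Membership M M] [IsZFC M]

/-- The type of the systems. -/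
abbrev SyT (K : Frm M) : Type u := {X : M // IsSys K.toCst X}

/-- The element `x` as a system, if it is one, and the system `X` otherwise. -/
noncomputable def mkS {K : Frm M} (X : SyT K) (x : M) : SyT K := by
  classical
  exact if h : IsSys K.toCst x then ⟨x, h⟩ else X

theorem mkS_eq {K : Frm M} {X : SyT K} {x : M} (h : IsSys K.toCst x) : mkS X x = ⟨x, h⟩ := by
  unfold mkS
  rw [dif_pos h]

theorem mkS_val {K : Frm M} {X : SyT K} {x : M} (h : IsSys K.toCst x) : (mkS X x).1 = x := by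
  rw [mkS_eq h]

/-- The guard of a step. -/
noncomputable def gdS (X j : M) : M := by
  classical
  exact if IsTag X j then tg X j else cg X j

theorem gdS_tag {X j : M} (h : IsTag X j) : gdS X j = tg X j := by
  unfold gdS
  rw [if_pos h]

theorem gdS_code {X j : M} (h : ¬ IsTag X j) : gdS X j = cg X j := by
  unfold gdS
  rw [if_neg h]

/-- The side of a code. -/
noncomputable def bitS (X j : M) : Bool := by
  classical
  exact decide (ci X j = sc (SigB.em : M))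

theorem bitS_true {X j : M} : bitS X j = true ↔ ci X j = sc (SigB.em : M) := by
  classical
  unfold bitS
  simp

theorem bitS_false {X j : M} : bitS X j = false ↔ ci X j ≠ sc (SigB.em : M) := by
  classical
  unfold bitS
  simp

/-- The instance. -/
@[reducible] noncomputable def api (K : Frm M) : Api where
  Sy := SyT K
  Lb := M
  Cn := M
  Nm := M
  I X := {j | j ∈ dm X.1}
  Sub X Y := Sb X.1 Y.1
  un X Y := mkS X (SigB.un X.1 Y.1)
  dp X j := mkS X (SigB.rs X.1 (fD X.1 j))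
  Tag X j := IsTag X.1 j
  PI X j := tk X.1 j = SigB.em
  op X j := {t | t ∈ tO X.1 j}
  pa X j := ta X.1 j
  pb X j := tb X.1 j
  tg X j := cx X.1 j
  bit X j := bitS X.1 j
  zn X j := cz X.1 j
  gd X j := gdS X.1 j
  OK X j := OK K X.1 j
  P X := {p | p ∈ PX K.toCst X.1}
  le := Lq K.toCst
  rs X q := SigB.rs q (dm X.1)
  N X := {z | NM K.toCst X.1 z}
  FA X q a z := K.F X.1 q a z
  FE X q z z' := FE K.toCst X.1 q z z'
  Int O := ∃ o : M, O = {t | t ∈ o}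

section

variable {K : Cst M}

theorem IsSys.step {X j : M} (h : IsSys K X) (hj : j ∈ dm X) : StOk K X j := h.2.2.2 j hj

theorem IsSys.dpSys {X j : M} (h : IsSys K X) (hj : j ∈ dm X) :
    IsSys K (SigB.rs X (fD X j)) := h.rs (h.cl hj)

theorem IsSys.dm_dp {X j : M} (h : IsSys K X) (hj : j ∈ dm X) :
    dm (SigB.rs X (fD X j)) = fD X j := dm_rs h.fn (h.cl hj).1

theorem IsSys.not_tag_iff {X j : M} (h : IsSys K X) (hj : j ∈ dm X) :
    ¬ IsTag X j ↔ IsCode X j := by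
  constructor
  · intro h1
    rcases h.tag_or_code hj with h2 | h2
    · exact absurd h2 h1
    · exact h2
  · exact fun h1 h2 => not_code_of_tag h2 h1

theorem IsSys.tag_of {X j : M} (h : IsSys K X) (hj : j ∈ dm X) (ht : IsTag X j) :
    TagOk K X j := h.tagOk hj ht

theorem IsSys.code_of {X j : M} (h : IsSys K X) (hj : j ∈ dm X) (ht : ¬ IsTag X j) :
    CodeOk K X j := h.codeOk hj ((h.not_tag_iff hj).1 ht)

theorem rs_dp_eq {X Y j : M} (hX : IsSys K X) (hY : IsSys K Y) (hs : Sb X Y) (hj : j ∈ dm X) :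
    SigB.rs Y (fD Y j) = SigB.rs X (fD X j) := by
  rw [fD_sub hX.fn hY.fn hs hj]
  exact rs_sub hX.fn hY.fn hs (hX.cl hj).1

theorem PX_mono {X Y : M} (hX : IsSys K X) (hY : IsSys K Y) (hs : Sb X Y) :
    Sb (PX K X) (PX K Y) := by
  intro p hp
  obtain ⟨h1, h2, h3⟩ := mem_PX.1 hp
  refine mem_PX.2 ⟨h1, fun z hz => dm_sub hs _ (h2 z hz), fun j a hj => ?_⟩
  have hjX : j ∈ dm X := by simpa using h2 _ hj
  rw [fW_sub hX.fn hY.fn hs hjX, fD_sub hX.fn hY.fn hs hjX]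
  exact h3 j a hj

theorem NM_mono {X Y : M} (hX : IsSys K X) (hY : IsSys K Y) (hs : Sb X Y) {z : M}
    (hz : NM K X z) : NM K Y z :=
  ⟨fun w hw => by
    obtain ⟨x, hx, p, hp, rfl⟩ := mem_pd.1 (hz.1 w hw)
    exact op_mem_pd.2 ⟨hx, PX_mono hX hY hs p hp⟩, hz.2⟩

theorem rs_dm_eq {X Y : M} (hX : IsSys K X) (hY : IsSys K Y) (hs : Sb X Y) :
    SigB.rs Y (dm X) = X := (sub_eq_rs hX.fn hY.fn hs).symm

theorem mem_dm_un {B C j : M} : j ∈ dm (SigB.un B C) ↔ j ∈ dm B ∨ j ∈ dm C := by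
  rw [mem_dm, mem_dm, mem_dm]
  constructor
  · rintro ⟨z, hz, rfl⟩
    rcases mem_un.1 hz with h | h
    · exact Or.inl ⟨z, h, rfl⟩
    · exact Or.inr ⟨z, h, rfl⟩
  · rintro (⟨z, hz, rfl⟩ | ⟨z, hz, rfl⟩)
    · exact ⟨z, mem_un.2 (Or.inl hz), rfl⟩
    · exact ⟨z, mem_un.2 (Or.inr hz), rfl⟩

end

/-! ### Dictionary -/

section dict

variable {K : Frm M}

theorem dp_val {X : SyT K} {j : M} (hj : j ∈ dm X.1) :
    ((api K).dp X j).1 = SigB.rs X.1 (fD X.1 j) := mkS_val (X.2.dpSys hj)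

theorem inter_iff {B C X : SyT K} (h : (api K).I B ∩ (api K).I C = (api K).I X) :
    ∀ j, j ∈ dm B.1 → j ∈ dm C.1 → j ∈ dm X.1 := fun j h1 h2 => by
  have : j ∈ (api K).I B ∩ (api K).I C := ⟨h1, h2⟩
  rw [h] at this
  exact this

theorem at_iff {X : SyT K} {t k : M} :
    (api K).At X t k ↔ k ∈ dm X.1 ∧ IsCode X.1 k ∧ cx X.1 k = t := by
  constructor
  · rintro ⟨h1, h2, h3⟩
    exact ⟨h1, (X.2.not_tag_iff h1).1 h2, h3⟩
  · rintro ⟨h1, h2, h3⟩
    exact ⟨h1, (X.2.not_tag_iff h1).2 h2, h3⟩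

theorem ci_cases {X : M} {k : M} (hX : IsSys K.toCst X) (hk : k ∈ dm X) (hc : IsCode X k) :
    ci X k = SigB.em ∨ ci X k = sc SigB.em := by
  rcases mem_sc.1 (hX.codeOk hk hc).2.2.2.1 with h | h
  · rcases mem_sc.1 h with h1 | h1
    · exact absurd h1 (not_mem_em _)
    · exact Or.inl h1
  · exact Or.inr h

theorem bit_false {X : M} {k : M} (hX : IsSys K.toCst X) (hk : k ∈ dm X) (hc : IsCode X k) :
    bitS X k = false ↔ ci X k = SigB.em := by
  rw [bitS_false]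
  rcases ci_cases hX hk hc with h | h
  · rw [h]
    simpa using (sc_ne_em (SigB.em : M)).symm
  · rw [h]
    simpa using sc_ne_em (SigB.em : M)

theorem bit_ne {X : M} {k l : M} (hX : IsSys K.toCst X) (hk : k ∈ dm X) (hc : IsCode X k)
    (hl : l ∈ dm X) (hc' : IsCode X l) : bitS X k ≠ bitS X l ↔ ci X k ≠ ci X l := by
  rcases ci_cases hX hk hc with h | h <;> rcases ci_cases hX hl hc' with h' | h'
  · rw [(bit_false hX hk hc).2 h, (bit_false hX hl hc').2 h', h, h']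
    simp
  · rw [(bit_false hX hk hc).2 h, bitS_true.2 h', h, h']
    simpa using (sc_ne_em (SigB.em : M)).symm
  · rw [bitS_true.2 h, (bit_false hX hl hc').2 h', h, h']
    simpa using sc_ne_em (SigB.em : M)
  · rw [bitS_true.2 h, bitS_true.2 h', h, h']
    simp

theorem tk_cases {X : M} {t : M} (hX : IsSys K.toCst X) (ht : t ∈ dm X) (hT : IsTag X t) :
    tk X t = SigB.em ∨ tk X t = sc SigB.em := by
  rcases mem_sc.1 (hX.tagOk ht hT).2.2.2.1 with h | h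
  · rcases mem_sc.1 h with h1 | h1
    · exact absurd h1 (not_mem_em _)
    · exact Or.inl h1
  · exact Or.inr h

theorem tk_ne {X : M} {t : M} (hX : IsSys K.toCst X) (ht : t ∈ dm X) (hT : IsTag X t) :
    ¬ tk X t = SigB.em ↔ tk X t = sc SigB.em := by
  rcases tk_cases hX ht hT with h | h
  · rw [h]
    simpa using (sc_ne_em (SigB.em : M)).symm
  · rw [h]
    simpa using sc_ne_em (SigB.em : M)

theorem cons_iff {B : SyT K} {o : M} : (api K).Cons B {t | t ∈ o} ↔ Cons K.toCst B.1 o := by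
  constructor
  · intro h l l' hl hl' hc hc' ho hx hk hi q hq h1 h2
    have e1 : (api K).gd B l = cg B.1 l := gdS_code ((B.2.not_tag_iff hl).2 hc)
    have e2 : (api K).gd B l' = cg B.1 l' := gdS_code ((B.2.not_tag_iff hl').2 hc')
    refine h (cx B.1 l) ho hk l l' (at_iff.2 ⟨hl, hc, rfl⟩) (at_iff.2 ⟨hl', hc', hx⟩)
      ((bit_ne B.2 hl hc hl' hc').2 hi) q hq ?_ ?_
    · rw [e1]; exact h1
    · rw [e2]; exact h2
  · intro h t ht hpi k l hk hl hb q hq h1 h2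
    obtain ⟨k1, k2, k3⟩ := at_iff.1 hk
    obtain ⟨l1, l2, l3⟩ := at_iff.1 hl
    have e1 : (api K).gd B k = cg B.1 k := gdS_code ((B.2.not_tag_iff k1).2 k2)
    have e2 : (api K).gd B l = cg B.1 l := gdS_code ((B.2.not_tag_iff l1).2 l2)
    rw [e1] at h1
    rw [e2] at h2
    refine h k l k1 l1 k2 l2 (by rw [k3]; exact ht) (by rw [l3, k3]) (by rw [k3]; exact hpi)
      ((bit_ne B.2 k1 k2 l1 l2).1 hb) q hq h1 h2

theorem L_iff {A B : SyT K} {o : M} : (api K).L A {t | t ∈ o} B ↔ LL K A.1 o B.1 := by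
  constructor
  · rintro ⟨h1, h2, h3⟩
    exact ⟨B.2, h1, fun l hl hlA hc hx => h2 l hl hlA ((B.2.not_tag_iff hl).2 hc) hx,
      cons_iff.1 h3⟩
  · rintro ⟨-, h1, h2, h3⟩
    exact ⟨h1, fun l hl hlA hc hx => h2 l hl hlA ((B.2.not_tag_iff hl).1 hc) hx,
      cons_iff.2 h3⟩

/-- A system which is legal for the rule stored in a tag. -/
theorem LL_iff {X B : SyT K} {t : M} (ht : t ∈ dm X.1) :
    (api K).LL X t B ↔ LL K (SigB.rs X.1 (fD X.1 t)) (tO X.1 t) B.1 := by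
  have h := L_iff (K := K) (A := (api K).dp X t) (o := tO X.1 t) (B := B)
  rw [dp_val ht] at h
  exact h

theorem LL.isSys {A o B : M} (h : LL K A o B) : IsSys K.toCst B := h.1

theorem good_iff {B : SyT K} {o : M} (ho : ∀ x, x ∈ o → x ∈ dm B.1 ∧ IsTag B.1 x)
    (hs : ∀ {X q z z' : M}, IsSys K.toCst X → q ∈ PX K.toCst X → NM K.toCst X z →
      NM K.toCst X z' → FE K.toCst X q z z' → FE K.toCst X q z' z)
    (hcz : ∀ k, k ∈ dm B.1 → IsCode B.1 k → NM K.toCst B.1 (cz B.1 k)) :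
    (api K).Good B {t | t ∈ o} ↔ Good K.toCst B.1 o := by
  constructor
  · intro h x hx hk z hz q hq hle
    have e : (api K).gd B x = tg B.1 x := gdS_tag (ho x hx).2
    obtain ⟨r, hr, hrq, l, hl, h1, h2⟩ := h x hx hk z hz q hq (by rw [e]; exact hle)
    obtain ⟨l1, l2, l3⟩ := at_iff.1 hl
    have e1 : (api K).gd B l = cg B.1 l := gdS_code ((B.2.not_tag_iff l1).2 l2)
    rw [e1] at h1
    exact ⟨r, hr, hrq, l, l1, l2, l3, h1, hs B.2 hr (hcz l l1 l2) hz h2⟩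
  · intro h x hx hk z hz q hq hle
    have e : (api K).gd B x = tg B.1 x := gdS_tag (ho x hx).2
    rw [e] at hle
    obtain ⟨r, hr, hrq, l, l1, l2, l3, h1, h2⟩ := h x hx hk z hz q hq hle
    have e1 : (api K).gd B l = cg B.1 l := gdS_code ((B.2.not_tag_iff l1).2 l2)
    refine ⟨r, hr, hrq, l, at_iff.2 ⟨l1, l2, l3⟩, ?_, hs B.2 hr hz (hcz l l1 l2) h2⟩
    rw [e1]
    exact h1

theorem bb_iff {B : SyT K} {t : M} (ht : t ∈ dm B.1) (hT : IsTag B.1 t) :
    (api K).BB B t ↔ Bb K (SigB.rs B.1 (fD B.1 t)) (tO B.1 t) (tg B.1 t) (ta B.1 t)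
      (tb B.1 t) := by
  have e : (api K).gd B t = tg B.1 t := gdS_tag hT
  constructor
  · intro h Y hY z hz q hq hle
    obtain ⟨Z, hZ, r, hr, hrq, hF⟩ := h ⟨Y, hY.1⟩ ((LL_iff ht).2 hY) z hz q hq
      (by rw [e]; exact hle)
    exact ⟨Z.1, L_iff.1 hZ, r, hr, hrq, hF⟩
  · intro h Y hY z hz q hq hle
    rw [e] at hle
    obtain ⟨Z, hZ, r, hr, hrq, hF⟩ := h Y.1 ((LL_iff ht).1 hY) z hz q hq hle
    exact ⟨⟨Z, hZ.1⟩, L_iff.2 hZ, r, hr, hrq, hF⟩

theorem nk_iff {B : SyT K} {t : M} (ht : t ∈ dm B.1) (hT : IsTag B.1 t) :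
    (api K).NoKill B t ↔ Nk K (SigB.rs B.1 (fD B.1 t)) (tO B.1 t) (tg B.1 t) (ta B.1 t)
      (tb B.1 t) := by
  have e : (api K).gd B t = tg B.1 t := gdS_tag hT
  constructor
  · intro h Y hY z hz q hq hle
    exact h ⟨Y, hY.1⟩ ((LL_iff ht).2 hY) q hq (by rw [e]; exact hle) z hz
  · intro h Y hY q hq hle z hz
    rw [e] at hle
    exact h Y.1 ((LL_iff ht).1 hY) z hz q hq hle

/-- The positions of the instance are the positions of the model. -/
theorem Pos_iff {B : SyT K} {o : M} : (api K).Pos B {t | t ∈ o} ↔ Pos K B.1 o := by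
  rw [pos_iff]
  constructor
  · rintro ⟨h0, h1, h2, h3, h4, h5, h6, h7, h8⟩
    refine ⟨B.2, fun x hx => h1 hx, fun x hx => h2 x hx, fun x hx => ?_, fun x hx => ?_,
      fun x hx l hl hc hx' => ?_, cons_iff.1 h6, fun x hx hk => ?_, fun x hx hk => ?_⟩
    · refine ext' fun z => ?_
      have h9 := Set.ext_iff.1 (h3 x hx) z
      rw [mem_it]
      refine h9.trans ?_
      show z ∈ o ∧ z ∈ dm ((api K).dp B x).1 ↔ _
      rw [dp_val (h1 hx), B.2.dm_dp (h1 hx)]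
    · exact (LL_iff (h1 hx)).1 (h4 x hx)
    · exact h5 x hx l (at_iff.2 ⟨hl, hc, hx'⟩)
    · refine (nk_iff (h1 hx) (h2 x hx)).1 (h7 x hx ?_)
      show ¬ tk B.1 x = _
      rw [hk]
      exact sc_ne_em _
    · exact (bb_iff (h1 hx) (h2 x hx)).1 (h8 x hx hk)
  · rintro ⟨-, h1, h2, h3, h4, h5, h6, h7, h8⟩
    refine ⟨⟨o, rfl⟩, fun x hx => h1 x hx, fun x hx => h2 x hx, fun x hx => ?_,
      fun x hx => ?_, fun x hx l hl => ?_, cons_iff.2 h6, fun x hx hk => ?_, fun x hx hk => ?_⟩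
    · have hx' : x ∈ dm B.1 := h1 x hx
      show {z | z ∈ tO B.1 x} = {z | z ∈ o} ∩ {z | z ∈ dm ((api K).dp B x).1}
      rw [dp_val hx', B.2.dm_dp hx', h3 x hx]
      ext z
      exact mem_it
    · exact (LL_iff (h1 x hx)).2 (h4 x hx)
    · obtain ⟨l1, l2, l3⟩ := at_iff.1 hl
      exact h5 x hx l l1 l2 l3
    · exact (nk_iff (h1 x hx) (h2 x hx)).2 (h7 x hx ((tk_ne B.2 (h1 x hx) (h2 x hx)).1 hk))
    · exact (bb_iff (h1 x hx) (h2 x hx)).2 (h8 x hx hk)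

theorem PExt_iff {B E : SyT K} {o o' : M} :
    (api K).PExt B {t | t ∈ o} E {t | t ∈ o'} ↔ Ple K B.1 o E.1 o' := by
  unfold Api.PExt Ple
  rw [L_iff]
  refine and_congr_right fun _ => ?_
  show {t | t ∈ o'} ∩ {t | t ∈ dm B.1} = {t | t ∈ o} ↔ _
  constructor
  · intro h
    refine ext' fun z => ?_
    rw [mem_it]
    exact Set.ext_iff.1 h z
  · intro h
    ext z
    rw [← h]
    exact mem_it.symm

end dict

/-! ### The laws which depend on other files -/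

/-- The laws which are proved in other files, for the instance. -/
structure Rest (K : Frm M) : Prop where
  lab : SigB.Ord K.lab
  /-- second components of the hereditarily finite pairs -/
  hf : ∀ x y : M, op x y ∈ K.hf → y ∈ K.hf
  un_sys : ∀ {X B C : M}, IsSys K.toCst X → IsSys K.toCst B → IsSys K.toCst C → Sb X B →
    Sb X C → (∀ j, j ∈ dm B → j ∈ dm C → j ∈ dm X) → IsSys K.toCst (SigB.un B C)
  rs_mem : ∀ {X Y q : M}, IsSys K.toCst X → IsSys K.toCst Y → Sb X Y → q ∈ PX K.toCst Y →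
    SigB.rs q (dm X) ∈ PX K.toCst X
  le_rs : ∀ {X Y q : M}, IsSys K.toCst X → IsSys K.toCst Y → Sb X Y → q ∈ PX K.toCst Y →
    Lq K.toCst q (SigB.rs q (dm X))
  rs_mono : ∀ {X Y q r : M}, IsSys K.toCst X → IsSys K.toCst Y → Sb X Y → q ∈ PX K.toCst Y →
    r ∈ PX K.toCst Y → Lq K.toCst r q → Lq K.toCst (SigB.rs r (dm X)) (SigB.rs q (dm X))
  rs_self : ∀ {X q : M}, IsSys K.toCst X → q ∈ PX K.toCst X → SigB.rs q (dm X) = q
  le_refl : ∀ q : M, Lq K.toCst q q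
  le_trans : ∀ {p q r : M}, Lq K.toCst p q → Lq K.toCst q r → Lq K.toCst p r
  amalg : ∀ {X B C q r : M}, IsSys K.toCst X → IsSys K.toCst B → IsSys K.toCst C → Sb X B →
    Sb X C → (∀ j, j ∈ dm B → j ∈ dm C → j ∈ dm X) → q ∈ PX K.toCst B → r ∈ PX K.toCst C →
    Lq K.toCst r (SigB.rs q (dm X)) →
    ∃ s, s ∈ PX K.toCst (SigB.un B C) ∧ Lq K.toCst s q ∧ Lq K.toCst s r
  amalg1 : ∀ {X Y q r : M}, IsSys K.toCst X → IsSys K.toCst Y → Sb X Y → q ∈ PX K.toCst Y →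
    r ∈ PX K.toCst X → Lq K.toCst r (SigB.rs q (dm X)) →
    ∃ s, s ∈ PX K.toCst Y ∧ Lq K.toCst s q ∧ Lq K.toCst s r
  fe_symm : ∀ {X q z z' : M}, IsSys K.toCst X → q ∈ PX K.toCst X → NM K.toCst X z →
    NM K.toCst X z' → FE K.toCst X q z z' → FE K.toCst X q z' z
  fe_trans : ∀ {X q z z' z'' : M}, IsSys K.toCst X → q ∈ PX K.toCst X → NM K.toCst X z →
    NM K.toCst X z' → NM K.toCst X z'' → FE K.toCst X q z z' → FE K.toCst X q z' z'' →
    FE K.toCst X q z z''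
  fe_mono : ∀ {X q r z z' : M}, IsSys K.toCst X → q ∈ PX K.toCst X → r ∈ PX K.toCst X →
    NM K.toCst X z → NM K.toCst X z' → FE K.toCst X q z z' → Lq K.toCst r q →
    FE K.toCst X r z z'
  fe_up : ∀ {X Y q z z' : M}, IsSys K.toCst X → IsSys K.toCst Y → Sb X Y → q ∈ PX K.toCst X →
    NM K.toCst X z → NM K.toCst X z' → FE K.toCst X q z z' → FE K.toCst Y q z z'
  fe_down : ∀ {X Y q z z' : M}, IsSys K.toCst X → IsSys K.toCst Y → Sb X Y →
    q ∈ PX K.toCst Y → NM K.toCst X z → NM K.toCst X z' → FE K.toCst Y q z z' →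
    FE K.toCst X (SigB.rs q (dm X)) z z'
  common : ∀ {X B C q z z' : M}, IsSys K.toCst X → IsSys K.toCst B → IsSys K.toCst C →
    Sb X B → Sb X C → (∀ j, j ∈ dm B → j ∈ dm C → j ∈ dm X) → q ∈ PX K.toCst (SigB.un B C) →
    NM K.toCst B z → NM K.toCst C z' → FE K.toCst (SigB.un B C) q z z' →
    ∃ r, r ∈ PX K.toCst (SigB.un B C) ∧ Lq K.toCst r q ∧ ∃ w, NM K.toCst X w ∧
      FE K.toCst (SigB.un B C) r z w
  fa_mono : ∀ {X q r a z : M}, IsSys K.toCst X → q ∈ PX K.toCst X → r ∈ PX K.toCst X →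
    NM K.toCst X a → NM K.toCst X z → K.F X q a z → Lq K.toCst r q → K.F X r a z
  fa_up : ∀ {X Y q a z : M}, IsSys K.toCst X → IsSys K.toCst Y → Sb X Y → q ∈ PX K.toCst X →
    NM K.toCst X a → NM K.toCst X z → K.F X q a z → K.F Y q a z
  fa_congr : ∀ {X q a z z' : M}, IsSys K.toCst X → q ∈ PX K.toCst X → NM K.toCst X a →
    NM K.toCst X z → NM K.toCst X z' → FE K.toCst X q z z' → K.F X q a z → K.F X q a z'
  copy : ∀ {X B E t r a z : M}, IsSys K.toCst X → IsSys K.toCst B → IsSys K.toCst E → Sb X B →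
    Sb X E → t ∈ dm X → IsTag X t → LL K (SigB.rs X (fD X t)) (tO X t) B → r ∈ PX K.toCst B →
    NM K.toCst X a → NM K.toCst X z → K.F B r a z →
    ∃ B' r', IsSys K.toCst B' ∧ Sb X B' ∧ (∀ j, j ∈ dm B' → j ∈ dm E → j ∈ dm X) ∧
      LL K (SigB.rs X (fD X t)) (tO X t) B' ∧ r' ∈ PX K.toCst B' ∧
      SigB.rs r' (dm X) = SigB.rs r (dm X) ∧ K.F B' r' a z
  add_tag : ∀ {X o g a b k : M}, IsSys K.toCst X → Sb o (dm X) → (∀ t, t ∈ o → IsTag X t) →
    g ∈ PX K.toCst X → NM K.toCst X a → NM K.toCst X b → k ∈ sc (sc (SigB.em : M)) →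
    ∃ Y t, IsSys K.toCst Y ∧ Sb X Y ∧ t ∉ dm X ∧ (∀ j, j ∈ dm Y ↔ j = t ∨ j ∈ dm X) ∧
      IsTag Y t ∧ tk Y t = k ∧ fD Y t = dm X ∧ tO Y t = o ∧ tg Y t = g ∧ ta Y t = a ∧
      tb Y t = b
  add_code : ∀ {X t g z i : M}, IsSys K.toCst X → t ∈ dm X → IsTag X t → g ∈ PX K.toCst X →
    Lq K.toCst g (tg X t) → NM K.toCst X z → i ∈ sc (sc (SigB.em : M)) →
    ∃ Y k, IsSys K.toCst Y ∧ Sb X Y ∧ k ∉ dm X ∧ (∀ j, j ∈ dm Y ↔ j = k ∨ j ∈ dm X) ∧
      IsCode Y k ∧ fD Y k = dm X ∧ cx Y k = t ∧ ci Y k = i ∧ cg Y k = g ∧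
      FE K.toCst X g (cz Y k) z

section laws

variable {K : Frm M}

theorem Rest.cz_mem (R : Rest K) {X k : M} (hX : IsSys K.toCst X) (hk : k ∈ dm X) :
    NM K.toCst (SigB.rs X (fD X k)) (cz X k) := by
  obtain ⟨h1, h2, -⟩ := (hX.step hk).2.2.2.1
  refine ⟨fun w hw => ?_, ?_⟩
  · unfold cz zn at hw
    rw [mem_im (by simp (maxDischargeDepth := 50))] at hw
    obtain ⟨v, hv, rfl⟩ := hw
    rw [mem_sp (by simp (maxDischargeDepth := 50))] at hv
    obtain ⟨hv1, x, b, rfl⟩ := hv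
    obtain ⟨y, e, b', hy, he, hb, h3⟩ := h2 _ hv1
    obtain ⟨h4, rfl⟩ := op_inj.1 h3
    obtain ⟨rfl, rfl⟩ := op_inj.1 h4
    simp only [fst_op, snd_op]
    exact op_mem_pd.2 ⟨R.hf _ _ hy, hb⟩
  · unfold cz zn
    refine Le.image om_ord ?_ (by simp (maxDischargeDepth := 50)) fun y hy =>
      (mem_im (by simp (maxDischargeDepth := 50))).1 hy
    exact h1.mono_left fun z hz => ((mem_sp (by simp (maxDischargeDepth := 50))).1 hz).1

theorem Rest.cz_mem' (R : Rest K) {X k : M} (hX : IsSys K.toCst X) (hk : k ∈ dm X) :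
    NM K.toCst X (cz X k) :=
  NM_mono (hX.dpSys hk) hX (rs_sb_self hX.fn (hX.cl hk).1) (R.cz_mem hX hk)

theorem Rest.good_iff (R : Rest K) {B : SyT K} {o : M}
    (ho : ∀ x, x ∈ o → x ∈ dm B.1 ∧ IsTag B.1 x) :
    (api K).Good B {t | t ∈ o} ↔ Good K.toCst B.1 o :=
  Sep.good_iff ho R.fe_symm fun _ hk _ => R.cz_mem' B.2 hk

theorem Rest.ok (R : Rest K) {X : SyT K} {k : M} (hk : k ∈ dm X.1) (hc : IsCode X.1 k) :
    OK K X.1 k ↔
    ((api K).PI X (cx X.1 k) →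
      ((api K).bit X k = false → K.F (SigB.rs X.1 (fD X.1 k)) (cg X.1 k)
        (ta X.1 (cx X.1 k)) (cz X.1 k)) ∧
      ((api K).bit X k = true → K.F (SigB.rs X.1 (fD X.1 k)) (cg X.1 k)
        (tb X.1 (cx X.1 k)) (cz X.1 k))) ∧
    (¬ (api K).PI X (cx X.1 k) →
      ((api K).bit X k = false → ∀ Y : SyT K, (api K).LL X (cx X.1 k) Y →
        Sb (SigB.rs X.1 (fD X.1 k)) Y.1 → ∀ q, q ∈ PX K.toCst Y.1 → Lq K.toCst q (cg X.1 k) →
          ∃ Z : SyT K, (api K).LL X (cx X.1 k) Z ∧ Sb Y.1 Z.1 ∧ ∃ r, r ∈ PX K.toCst Z.1 ∧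
            Lq K.toCst r q ∧ K.F Z.1 r (ta X.1 (cx X.1 k)) (cz X.1 k)) ∧
      ((api K).bit X k = true → ∀ Y : SyT K, (api K).LL X (cx X.1 k) Y →
        Sb (SigB.rs X.1 (fD X.1 k)) Y.1 → ∀ q, q ∈ PX K.toCst Y.1 → Lq K.toCst q (cg X.1 k) →
          ¬ K.F Y.1 q (ta X.1 (cx X.1 k)) (cz X.1 k))) := by
  have hcod := X.2.codeOk hk hc
  have hxX : cx X.1 k ∈ dm X.1 := (X.2.cl hk).1 _ hcod.2.1
  have hbf : (api K).bit X k = false ↔ ci X.1 k = SigB.em := bit_false X.2 hk hc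
  have hbt : (api K).bit X k = true ↔ ci X.1 k = sc SigB.em := bitS_true
  have hpi : (api K).PI X (cx X.1 k) ↔ tk X.1 (cx X.1 k) = SigB.em := Iff.rfl
  rw [OK_iff R.lab X.2 hk hc]
  unfold OKe
  rw [hbf, hbt, hpi, tk_ne X.2 hxX hcod.2.2.1]
  refine and_congr_right fun _ => imp_congr_right fun _ => ?_
  rw [and_comm]
  refine and_congr (imp_congr_right fun _ => ?_) (imp_congr_right fun _ => ?_)
  · constructor
    · intro h Y hY hs q hq hle
      obtain ⟨Z, hZ, h1, r, hr, hrq, hF⟩ := h Y.1 ((LL_iff hxX).1 hY) hs q hq hle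
      exact ⟨⟨Z, hZ.1⟩, (LL_iff hxX).2 hZ, h1, r, hr, hrq, hF⟩
    · intro h Y hY hs q hq hle
      obtain ⟨Z, hZ, h1, r, hr, hrq, hF⟩ := h ⟨Y, hY.1⟩ ((LL_iff hxX).2 hY) hs q hq hle
      exact ⟨Z.1, (LL_iff hxX).1 hZ, h1, r, hr, hrq, hF⟩
  · constructor
    · intro h Y hY hs q hq hle
      exact h Y.1 ((LL_iff hxX).1 hY) hs q hq hle
    · intro h Y hY hs q hq hle
      exact h ⟨Y, hY.1⟩ ((LL_iff hxX).2 hY) hs q hq hle

/-- **The laws** hold for the coding systems of a model. -/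
theorem Rest.laws (R : Rest K) : (api K).Laws where
  sub_refl X := Sb.refl _
  sub_trans h h' := Sb.trans h h'
  sub_I h := fun j hj => dm_sub h j hj
  sub_of {X Y Z} h h' hI := by
    intro z hz
    obtain ⟨x, hx, rfl⟩ := X.2.fn.mem_iff.1 hz
    have hxY : x ∈ dm Y.1 := hI hx
    rw [← ap_sub X.2.fn Z.2.fn h hx, ap_sub Y.2.fn Z.2.fn h' hxY]
    exact Y.2.fn.mem_iff.2 ⟨x, hxY, rfl⟩
  un_left {X B C} h h' hI := by
    show Sb B.1 (mkS B (SigB.un B.1 C.1)).1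
    rw [mkS_val (R.un_sys X.2 B.2 C.2 h h' (inter_iff hI))]
    exact fun z hz => mem_un.2 (Or.inl hz)
  un_right {X B C} h h' hI := by
    show Sb C.1 (mkS B (SigB.un B.1 C.1)).1
    rw [mkS_val (R.un_sys X.2 B.2 C.2 h h' (inter_iff hI))]
    exact fun z hz => mem_un.2 (Or.inr hz)
  un_I {X B C} h h' hI := by
    show {j | j ∈ dm (mkS B (SigB.un B.1 C.1)).1} = {j | j ∈ dm B.1} ∪ {j | j ∈ dm C.1}
    rw [mkS_val (R.un_sys X.2 B.2 C.2 h h' (inter_iff hI))]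
    ext j
    exact mem_dm_un
  dp_sub {X j} hj := by
    show Sb ((api K).dp X j).1 X.1
    rw [dp_val hj]
    exact rs_sb_self X.2.fn (X.2.cl hj).1
  not_mem_dp {X j} hj := by
    show ¬ j ∈ dm ((api K).dp X j).1
    rw [dp_val hj, X.2.dm_dp hj]
    exact (X.2.step hj).2.2.1
  dp_eq {X Y j} h hj := by
    refine Subtype.ext ?_
    rw [dp_val hj, dp_val (dm_sub h j hj)]
    exact rs_dp_eq X.2 Y.2 h hj
  Tag_eq {X Y j} h hj := isTag_sub X.2.fn Y.2.fn h hj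
  PI_eq {X Y j} h hj := by
    show tk Y.1 j = _ ↔ tk X.1 j = _
    rw [tk_sub X.2.fn Y.2.fn h hj]
  op_eq {X Y j} h hj := by
    show {t | t ∈ tO Y.1 j} = {t | t ∈ tO X.1 j}
    rw [tO_sub X.2.fn Y.2.fn h hj]
  pa_eq {X Y j} h hj := ta_sub X.2.fn Y.2.fn h hj
  pb_eq {X Y j} h hj := tb_sub X.2.fn Y.2.fn h hj
  tg_eq {X Y j} h hj := cx_sub X.2.fn Y.2.fn h hj
  bit_eq {X Y j} h hj := by
    show bitS Y.1 j = bitS X.1 j
    unfold bitS
    rw [ci_sub X.2.fn Y.2.fn h hj]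
  zn_eq {X Y j} h hj := cz_sub X.2.fn Y.2.fn h hj
  gd_eq {X Y j} h hj := by
    show gdS Y.1 j = gdS X.1 j
    by_cases ht : IsTag X.1 j
    · rw [gdS_tag ht, gdS_tag ((isTag_sub X.2.fn Y.2.fn h hj).2 ht), tg_sub X.2.fn Y.2.fn h hj]
    · rw [gdS_code ht, gdS_code (fun h' => ht ((isTag_sub X.2.fn Y.2.fn h hj).1 h')),
        cg_sub X.2.fn Y.2.fn h hj]
  OK_eq {X Y j} h hj ht := OK_sub X.2 Y.2 h hj ((X.2.not_tag_iff hj).1 ht)
  op_sub {X t} ht hT := by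
    show {s | s ∈ tO X.1 t} ⊆ {s | s ∈ dm ((api K).dp X t).1}
    rw [dp_val ht, X.2.dm_dp ht]
    exact fun s hs => ((X.2.tag_of ht hT).2.2.2.2.2.2.2 s hs).1
  tg_mem {X k} hk hT := by
    show cx X.1 k ∈ dm ((api K).dp X k).1
    rw [dp_val hk, X.2.dm_dp hk]
    exact (X.2.code_of hk hT).2.1
  tg_tag {X k} hk hT := (X.2.code_of hk hT).2.2.1
  gd_tg {X k} hk hT := by
    show Lq K.toCst (gdS X.1 k) (gdS X.1 (cx X.1 k))
    rw [gdS_code hT, gdS_tag (X.2.code_of hk hT).2.2.1]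
    exact (X.2.code_of hk hT).2.2.2.2.2.1
  gd_mem {X k} hk := by
    show gdS X.1 k ∈ PX K.toCst ((api K).dp X k).1
    rw [dp_val hk]
    by_cases hT : IsTag X.1 k
    · rw [gdS_tag hT]
      exact (X.2.tag_of hk hT).2.2.2.2.2.2.1
    · rw [gdS_code hT]
      exact (X.2.code_of hk hT).2.2.2.2.1
  zn_mem {X k} hk hT := by
    show NM K.toCst ((api K).dp X k).1 (cz X.1 k)
    rw [dp_val hk]
    exact R.cz_mem X.2 hk
  pa_mem {X k} hk hT := by
    show NM K.toCst ((api K).dp X k).1 (ta X.1 k)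
    rw [dp_val hk]
    exact (X.2.tag_of hk hT).2.2.2.2.1
  pb_mem {X k} hk hT := by
    show NM K.toCst ((api K).dp X k).1 (tb X.1 k)
    rw [dp_val hk]
    exact (X.2.tag_of hk hT).2.2.2.2.2.1
  le_refl q := R.le_refl q
  le_trans h h' := R.le_trans h h'
  P_mono {X Y} h := fun p hp => PX_mono X.2 Y.2 h p hp
  rs_mem {X Y q} h hq := R.rs_mem X.2 Y.2 h hq
  le_rs {X Y q} h hq := R.le_rs X.2 Y.2 h hq
  rs_mono {X Y q r} h hq hr hle := R.rs_mono X.2 Y.2 h hq hr hle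
  rs_self {X q} hq := R.rs_self X.2 hq
  amalg {X B C q r} h h' hI hq hr hle := by
    have hu := R.un_sys X.2 B.2 C.2 h h' (inter_iff hI)
    obtain ⟨s, hs, h1, h2⟩ := R.amalg X.2 B.2 C.2 h h' (inter_iff hI) hq hr hle
    refine ⟨s, ?_, h1, h2⟩
    show s ∈ PX K.toCst (mkS B (SigB.un B.1 C.1)).1
    rwa [mkS_val hu]
  amalg1 {X Y q r} h hq hr hle := by
    obtain ⟨s, hs, h1, h2⟩ := R.amalg1 X.2 Y.2 h hq hr hle
    exact ⟨s, hs, h1, h2⟩
  N_mono {X Y} h := fun z hz => NM_mono X.2 Y.2 h hz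
  fe_symm {X q z z'} hq hz hz' h := R.fe_symm X.2 hq hz hz' h
  fe_trans {X q z z' z''} hq hz hz' hz'' h h' := R.fe_trans X.2 hq hz hz' hz'' h h'
  fe_mono {X q r z z'} hq hr hz hz' h h' := R.fe_mono X.2 hq hr hz hz' h h'
  fe_up {X Y q z z'} h hq hz hz' h' := R.fe_up X.2 Y.2 h hq hz hz' h'
  fe_down {X Y q z z'} h hq hz hz' h' := R.fe_down X.2 Y.2 h hq hz hz' h'
  common {X B C q z z'} h h' hI hq hz hz' he := by
    have hu := R.un_sys X.2 B.2 C.2 h h' (inter_iff hI)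
    have hv : ((api K).un B C).1 = SigB.un B.1 C.1 := mkS_val hu
    have hq' : q ∈ PX K.toCst (SigB.un B.1 C.1) := by
      rw [← hv]
      exact hq
    have he' : FE K.toCst (SigB.un B.1 C.1) q z z' := by
      rw [← hv]
      exact he
    obtain ⟨r, hr, h1, w, hw, h2⟩ := R.common X.2 B.2 C.2 h h' (inter_iff hI) hq' hz hz' he'
    refine ⟨r, ?_, h1, w, hw, ?_⟩
    · show r ∈ PX K.toCst ((api K).un B C).1
      rwa [hv]
    · show FE K.toCst ((api K).un B C).1 r z w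
      rwa [hv]
  fa_mono {X q r a z} hq hr ha hz h h' := R.fa_mono X.2 hq hr ha hz h h'
  fa_up {X Y q a z} h hq ha hz h' := R.fa_up X.2 Y.2 h hq ha hz h'
  fa_congr {X q a z z'} hq ha hz hz' h h' := R.fa_congr X.2 hq ha hz hz' h h'
  ok_iff {X k} hk hT := by
    have hT' : ¬ IsTag X.1 k := hT
    have e1 : (api K).gd X k = cg X.1 k := gdS_code hT'
    have e2 : ((api K).dp X k).1 = SigB.rs X.1 (fD X.1 k) := dp_val hk
    refine (R.ok hk ((X.2.not_tag_iff hk).1 hT')).trans ?_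
    rw [e1, ← e2]
    rfl
  copy {X B E t r a z} h h' ht hT hL hr ha hz hF := by
    obtain ⟨B', r', h0, h1, h2, h3, h4, h5, h6⟩ := R.copy X.2 B.2 E.2 h h' ht hT
      ((LL_iff ht).1 hL) hr ha hz hF
    refine ⟨⟨B', h0⟩, r', h1, ?_, (LL_iff ht).2 h3, h4, h5, h6⟩
    ext j
    constructor
    · exact fun hj => h2 j hj.1 hj.2
    · exact fun hj => ⟨dm_sub h1 j hj, dm_sub h' j hj⟩
  int_insert := by
    rintro O t ⟨o, rfl⟩
    refine ⟨ins o t, ?_⟩
    ext j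
    show j = t ∨ j ∈ o ↔ j ∈ ins o t
    rw [mem_ins, or_comm]
  add_tag := by
    classical
    rintro X O g a b pi ⟨o, rfl⟩ ho hT hg ha hb
    obtain ⟨Y, t, hY, h1, h2, h3, h4, h5, h6, h7, h8, h9, h10⟩ := R.add_tag
      (k := if pi then (SigB.em : M) else sc SigB.em) X.2 (fun x hx => ho hx)
      (fun x hx => hT x hx) hg ha hb (by
        split_ifs
        · exact mem_sc.2 (Or.inl (mem_sc.2 (Or.inr rfl)))
        · exact mem_sc.2 (Or.inr rfl))
    have ht : t ∈ dm Y := (h3 t).2 (Or.inl rfl)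
    refine ⟨⟨Y, hY⟩, t, h1, h2, Set.ext fun j => h3 j, h4, ?_, ?_, ?_, ?_, h9, h10⟩
    · show tk Y t = (SigB.em : M) ↔ pi
      rw [h5]
      split_ifs with hp
      · simp [hp]
      · simpa [hp] using sc_ne_em (SigB.em : M)
    · refine Subtype.ext ?_
      rw [dp_val ht]
      show SigB.rs Y (fD Y t) = X.1
      rw [h6]
      exact rs_dm_eq X.2 hY h1
    · show {s | s ∈ tO Y t} = {s | s ∈ o}
      rw [h7]
    · show gdS Y t = g
      rw [gdS_tag h4, h8]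
  add_code {X t g z} i ht hT hg hle hz := by
    classical
    obtain ⟨Y, k, hY, h1, h2, h3, h4, h5, h6, h7, h8, h9⟩ := R.add_code (i := if i then
      sc (SigB.em : M) else SigB.em) X.2 ht hT hg (by
        have : (api K).gd X t = tg X.1 t := gdS_tag hT
        rw [← this]
        exact hle) hz (by
        split_ifs
        · exact mem_sc.2 (Or.inr rfl)
        · exact mem_sc.2 (Or.inl (mem_sc.2 (Or.inr rfl))))
    have hk : k ∈ dm Y := (h3 k).2 (Or.inl rfl)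
    have h4' : ¬ IsTag Y k := (hY.not_tag_iff hk).2 h4
    refine ⟨⟨Y, hY⟩, k, h1, h2, Set.ext fun j => h3 j, h4', ?_, h6, ?_, ?_, h9⟩
    · refine Subtype.ext ?_
      rw [dp_val hk]
      show SigB.rs Y (fD Y k) = X.1
      rw [h5]
      exact rs_dm_eq X.2 hY h1
    · show bitS Y k = i
      cases i
      · rw [bitS_false, h7]
        simpa using (sc_ne_em (SigB.em : M)).symm
      · rw [bitS_true, h7]
        simp
    · show gdS Y k = g
      rw [gdS_code h4', h8]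

end laws

end Pool.Agent.Sep
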