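import Pool.Agent.Sep.RuleT

/-!
# Complete positions
-/

namespace Pool.Agent.Sep

namespace Api

variable {A : Api}

/-- The pair `a, b` has been treated at tags of the first kind, below `q`. -/
def ASig (A : Api) (X : A.Sy) (O : Set A.Lb) (a b : A.Nm) (r : A.Cn) : Prop :=
  (∃ z ∈ A.N X, A.FA X r a z ∧ A.FA X r b z) ∨
    ∃ t ∈ O, ¬ A.PI X t ∧ A.pa X t = a ∧ A.pb X t = b ∧ A.le r (A.gd X t)

/-- The pair `a, b` has been treated at tags of the second kind, below `q`. -/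
def APi (A : Api) (X : A.Sy) (O : Set A.Lb) (a b : A.Nm) (r : A.Cn) : Prop :=
  (∃ z ∈ A.N X, A.Hopeless X O a b z r) ∨
    ∃ t ∈ O, A.PI X t ∧ A.pa X t = a ∧ A.pb X t = b ∧ A.le r (A.gd X t)

/-- The three kinds of tasks are fulfilled. -/
def DSig (A : Api) (X : A.Sy) (O : Set A.Lb) (a b : A.Nm) (q : A.Cn) : Prop :=
  ∃ r ∈ A.P X, A.le r q ∧ A.ASig X O a b r

def DPi (A : Api) (X : A.Sy) (O : Set A.Lb) (a b : A.Nm) (q : A.Cn) : Prop :=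
  ∃ r ∈ A.P X, A.le r q ∧ A.APi X O a b r

def DCode (A : Api) (X : A.Sy) (t : A.Lb) (z : A.Nm) (q : A.Cn) : Prop :=
  ∃ r ∈ A.P X, A.le r q ∧ A.Coded X t z r

/-- Complete positions. -/
structure Complete (A : Api) (X : A.Sy) (O : Set A.Lb) : Prop where
  pos : A.Pos X O
  sig : ∀ a ∈ A.N X, ∀ b ∈ A.N X, ∀ q ∈ A.P X, A.DSig X O a b q
  pi : ∀ a ∈ A.N X, ∀ b ∈ A.N X, ∀ q ∈ A.P X, A.DPi X O a b q
  code : ∀ t ∈ O, ∀ z ∈ A.N X, ∀ q ∈ A.P X, A.le q (A.gd X t) → A.DCode X t z q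

section

variable (h : A.Laws)

include h

omit h in
theorem PExt.sub_O {X Y : A.Sy} {O O' : Set A.Lb} (hE : A.PExt X O Y O') {t : A.Lb}
    (ht : t ∈ O) : t ∈ O' := by
  rw [← hE.2] at ht
  exact ht.1

theorem DSig.up {X Y : A.Sy} {O O' : Set A.Lb} (hP : A.Pos X O) (hE : A.PExt X O Y O')
    {a b : A.Nm} {q : A.Cn} (ha : a ∈ A.N X) (hb : b ∈ A.N X) (hd : A.DSig X O a b q) :
    A.DSig Y O' a b q := by
  have hs := hE.1.1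
  obtain ⟨r, hr, hrq, ⟨z, hz, h1, h2⟩ | ⟨t, ht, h1, h2, h3, h4⟩⟩ := hd
  · exact ⟨r, h.P_mono hs hr, hrq, Or.inl ⟨z, h.N_mono hs hz, h.fa_up hs hr ha hz h1,
      h.fa_up hs hr hb hz h2⟩⟩
  · have htX := hP.sub ht
    refine ⟨r, h.P_mono hs hr, hrq, Or.inr ⟨t, hE.sub_O ht, fun e => h1 ((h.PI_eq hs htX).1 e),
      ?_, ?_, ?_⟩⟩
    · rw [h.pa_eq hs htX, h2]
    · rw [h.pb_eq hs htX, h3]
    · rwa [h.gd_eq hs htX]

theorem DPi.up {X Y : A.Sy} {O O' : Set A.Lb} (hP : A.Pos X O) (hE : A.PExt X O Y O')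
    {a b : A.Nm} {q : A.Cn} (hd : A.DPi X O a b q) : A.DPi Y O' a b q := by
  have hs := hE.1.1
  obtain ⟨r, hr, hrq, ⟨z, hz, h1⟩ | ⟨t, ht, h1, h2, h3, h4⟩⟩ := hd
  · exact ⟨r, h.P_mono hs hr, hrq, Or.inl ⟨z, h.N_mono hs hz, Hopeless.up h hE (h.le_refl r) h1⟩⟩
  · have htX := hP.sub ht
    refine ⟨r, h.P_mono hs hr, hrq, Or.inr ⟨t, hE.sub_O ht, (h.PI_eq hs htX).2 h1,
      ?_, ?_, ?_⟩⟩
    · rw [h.pa_eq hs htX, h2]
    · rw [h.pb_eq hs htX, h3]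
    · rwa [h.gd_eq hs htX]

theorem DCode.up {X Y : A.Sy} (hs : A.Sub X Y) {t : A.Lb} {z : A.Nm} {q : A.Cn}
    (hz : z ∈ A.N X) (hd : A.DCode X t z q) : A.DCode Y t z q := by
  obtain ⟨r, hr, hrq, hc⟩ := hd
  exact ⟨r, h.P_mono hs hr, hrq, Coded.up h hs hz hr (h.P_mono hs hr) (h.le_refl r) hc⟩

/-! ### Existence of extensions fulfilling a task -/

theorem Pos.exists_sig {X : A.Sy} {O : Set A.Lb} (hP : A.Pos X O) {a b : A.Nm} {q : A.Cn}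
    (ha : a ∈ A.N X) (hb : b ∈ A.N X) (hq : q ∈ A.P X) :
    ∃ Y O', A.Pos Y O' ∧ A.PExt X O Y O' ∧ A.DSig Y O' a b q := by
  obtain ⟨Y, O', h1, h2, h3⟩ := Pos.task_sig h hP ha hb hq
  exact ⟨Y, O', h1, h2, h3⟩

theorem Pos.exists_pi {X : A.Sy} {O : Set A.Lb} (hP : A.Pos X O) {a b : A.Nm} {q : A.Cn}
    (ha : a ∈ A.N X) (hb : b ∈ A.N X) (hq : q ∈ A.P X) :
    ∃ Y O', A.Pos Y O' ∧ A.PExt X O Y O' ∧ A.DPi Y O' a b q := by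
  obtain ⟨Y, O', h1, h2, h3⟩ := Pos.task_pi h hP ha hb hq
  exact ⟨Y, O', h1, h2, h3⟩

/-- The tasks of the first use of the closing lemma. -/
theorem Pos.exists_code_pi {X : A.Sy} {O : Set A.Lb} (hP : A.Pos X O) {t : A.Lb} (ht : t ∈ O)
    (hpi : A.PI X t) {z : A.Nm} {q : A.Cn} (hz : z ∈ A.N X) (hq : q ∈ A.P X)
    (hqt : A.le q (A.gd X t)) :
    ∃ Y, A.Pos Y O ∧ A.L X O Y ∧ A.DCode Y t z q := by
  obtain ⟨Y, hY, r, hr, hrq, hc⟩ := Pos.task_code_pi h hP ht hpi hz hq hqt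
  exact ⟨Y, Pos.of_L h hP hY, hY, r, hr, hrq, hc⟩

/-- The union of the first use of the closing lemma is good. -/
theorem Good.union {ι : Type*} {X : ι → A.Sy} {O : Set A.Lb} {Y : A.Sy} [Nonempty ι]
    (hpos : ∀ i, A.Pos (X i) O) (hdir : ∀ i j, ∃ k, A.L (X i) O (X k) ∧ A.L (X j) O (X k))
    (hsub : ∀ i, A.Sub (X i) Y) (hI : ∀ k ∈ A.I Y, ∃ i, k ∈ A.I (X i))
    (hP : ∀ q ∈ A.P Y, ∃ i, q ∈ A.P (X i)) (hN : ∀ z ∈ A.N Y, ∃ i, z ∈ A.N (X i))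
    (hd : ∀ i, ∀ t ∈ O, A.PI (X i) t → ∀ z ∈ A.N (X i), ∀ q ∈ A.P (X i), A.le q (A.gd (X i) t) →
      ∃ j, A.L (X i) O (X j) ∧ A.DCode (X j) t z q) :
    A.Pos Y O ∧ (∀ i, A.L (X i) O Y) ∧ A.Good Y O := by
  have hO : (⋃ _ : ι, O) = O := Set.iUnion_const O
  obtain ⟨h1, h2⟩ := Pos.union h (X := X) (O := fun _ => O) (Y := Y) hpos
    (fun i j => by
      obtain ⟨k, hk1, hk2⟩ := hdir i j
      exact ⟨k, (hpos i).pext hk1, (hpos j).pext hk2⟩) hsub hI (by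
        rw [hO]
        exact (hpos (Classical.arbitrary ι)).int)
  rw [hO] at h1 h2
  refine ⟨h1, fun i => (h2 i).1, fun t ht hpi z hz q hq hqt => ?_⟩
  obtain ⟨i, hi⟩ := hN z hz
  obtain ⟨j, hj⟩ := hP q hq
  obtain ⟨k, hk1, hk2⟩ := hdir i j
  have htk := (hpos k).sub ht
  rw [h.gd_eq (hsub k) htk] at hqt
  have hzk := h.N_mono hk1.1 hi
  obtain ⟨m, hm, r, hr, hrq, l, hl, hg, he⟩ := hd k t ht ((h.PI_eq (hsub k) htk).1 hpi) z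
    hzk q (h.P_mono hk2.1 hj) hqt
  refine ⟨r, h.P_mono (hsub m) hr, hrq, l, h.at_mono (hsub m) hl, ?_, ?_⟩
  · rwa [h.gd_eq (hsub m) hl.1]
  · rw [h.zn_eq (hsub m) hl.1]
    exact h.fe_up (hsub m) hr (h.zn_mem' hl) (h.N_mono hm.1 hzk) he

/-- The tasks of the second use of the closing lemma, if good extensions exist. -/
theorem Pos.exists_code {X : A.Sy} {O : Set A.Lb} (hP : A.Pos X O)
    (hgood : ∀ X O, A.Pos X O → ∃ Y, A.L X O Y ∧ A.Good Y O) {t : A.Lb} (ht : t ∈ O)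
    {z : A.Nm} {q : A.Cn} (hz : z ∈ A.N X) (hq : q ∈ A.P X) (hqt : A.le q (A.gd X t)) :
    ∃ Y, A.Pos Y O ∧ A.L X O Y ∧ A.DCode Y t z q := by
  by_cases hpi : A.PI X t
  · exact Pos.exists_code_pi h hP ht hpi hz hq hqt
  obtain ⟨Z, hZ, hG⟩ := hgood X O hP
  have hPZ := Pos.of_L h hP hZ
  have htX := hP.sub ht
  obtain ⟨Y, hY, r, hr, hrq, hc⟩ := Pos.task_code_sig h hPZ hG ht
    (fun e => hpi ((h.PI_eq hZ.1 htX).1 e)) (h.N_mono hZ.1 hz) (h.P_mono hZ.1 hq)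
    (by rwa [h.gd_eq hZ.1 htX])
  exact ⟨Y, Pos.of_L h hPZ hY, L.trans h hZ hY (Set.inter_eq_self_of_subset_left hP.sub), r, hr,
    hrq, hc⟩

/-- The union of the second use of the closing lemma is complete. -/
theorem Complete.union {ι : Type*} {X : ι → A.Sy} {O : ι → Set A.Lb} {Y : A.Sy}
    (hpos : ∀ i, A.Pos (X i) (O i))
    (hdir : ∀ i j, ∃ k, A.PExt (X i) (O i) (X k) (O k) ∧ A.PExt (X j) (O j) (X k) (O k))
    (hsub : ∀ i, A.Sub (X i) Y) (hI : ∀ k ∈ A.I Y, ∃ i, k ∈ A.I (X i))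
    (hint : A.Int (⋃ i, O i))
    (hP : ∀ q ∈ A.P Y, ∃ i, q ∈ A.P (X i)) (hN : ∀ z ∈ A.N Y, ∃ i, z ∈ A.N (X i))
    (hs : ∀ i, ∀ a ∈ A.N (X i), ∀ b ∈ A.N (X i), ∀ q ∈ A.P (X i), ∃ j,
      A.PExt (X i) (O i) (X j) (O j) ∧ A.DSig (X j) (O j) a b q)
    (hp : ∀ i, ∀ a ∈ A.N (X i), ∀ b ∈ A.N (X i), ∀ q ∈ A.P (X i), ∃ j,
      A.PExt (X i) (O i) (X j) (O j) ∧ A.DPi (X j) (O j) a b q)
    (hc : ∀ i, ∀ t ∈ O i, ∀ z ∈ A.N (X i), ∀ q ∈ A.P (X i), A.le q (A.gd (X i) t) → ∃ j,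
      A.PExt (X i) (O i) (X j) (O j) ∧ A.DCode (X j) t z q) :
    A.Complete Y (⋃ i, O i) := by
  obtain ⟨h1, h2⟩ := Pos.union h hpos hdir hsub hI hint
  -- three objects over a common stage
  have three : ∀ a ∈ A.N Y, ∀ b ∈ A.N Y, ∀ q ∈ A.P Y, ∃ i, a ∈ A.N (X i) ∧ b ∈ A.N (X i) ∧
      q ∈ A.P (X i) := by
    intro a ha b hb q hq
    obtain ⟨i, hi⟩ := hN a ha
    obtain ⟨j, hj⟩ := hN b hb
    obtain ⟨k, hk⟩ := hP q hq
    obtain ⟨m, hm1, hm2⟩ := hdir i j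
    obtain ⟨n, hn1, hn2⟩ := hdir m k
    exact ⟨n, h.N_mono hn1.1.1 (h.N_mono hm1.1.1 hi), h.N_mono hn1.1.1 (h.N_mono hm2.1.1 hj),
      h.P_mono hn2.1.1 hk⟩
  refine ⟨h1, fun a ha b hb q hq => ?_, fun a ha b hb q hq => ?_, fun t ht z hz q hq hqt => ?_⟩
  · obtain ⟨i, hai, hbi, hqi⟩ := three a ha b hb q hq
    obtain ⟨j, hj, hd⟩ := hs i a hai b hbi q hqi
    exact DSig.up h (hpos j) (h2 j) (h.N_mono hj.1.1 hai) (h.N_mono hj.1.1 hbi) hd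
  · obtain ⟨i, hai, hbi, hqi⟩ := three a ha b hb q hq
    obtain ⟨j, hj, hd⟩ := hp i a hai b hbi q hqi
    exact DPi.up h (hpos j) (h2 j) hd
  · obtain ⟨i, hzi, -, hqi⟩ := three z hz z hz q hq
    obtain ⟨m, hm⟩ := Set.mem_iUnion.1 ht
    obtain ⟨k, hk1, hk2⟩ := hdir i m
    have htk : t ∈ O k := hk2.sub_O hm
    have htX := (hpos k).sub htk
    rw [h.gd_eq (hsub k) htX] at hqt
    have hzk := h.N_mono hk1.1.1 hzi
    obtain ⟨j, hj, hd⟩ := hc k t htk z hzk q (h.P_mono hk1.1.1 hqi) hqt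
    exact DCode.up h (hsub j) (h.N_mono hj.1.1 hzk) hd

end

/-! ### The generic filter over a complete position -/

/-- The real `z` is coded on the side `i` at the tag `t`, in the model given by the filter `G`. -/
def Cd (A : Api) (G : Set A.Cn) (X : A.Sy) (t : A.Lb) (z : A.Nm) (i : Bool) : Prop :=
  ∃ k, A.At X t k ∧ A.bit X k = i ∧ (∃ q ∈ G, A.le q (A.gd X k)) ∧ ∃ q ∈ G, A.FE X q (A.zn X k) z

/-- `A_a(z)` holds in the model given by the filter `G`. -/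
def Tru (A : Api) (G : Set A.Cn) (X : A.Sy) (a z : A.Nm) : Prop := ∃ q ∈ G, A.FA X q a z

/-- The filter `G` meets the dense sets which are needed. -/
structure Gen (A : Api) (X : A.Sy) (O : Set A.Lb) (G : Set A.Cn) : Prop where
  sub : G ⊆ A.P X
  dir : ∀ q ∈ G, ∀ r ∈ G, ∃ s ∈ G, A.le s q ∧ A.le s r
  sig : ∀ a ∈ A.N X, ∀ b ∈ A.N X, (∀ q ∈ A.P X, ∃ r ∈ A.P X, A.le r q ∧ A.ASig X O a b r) →
    ∃ r ∈ G, A.ASig X O a b r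
  pi : ∀ a ∈ A.N X, ∀ b ∈ A.N X, (∀ q ∈ A.P X, ∃ r ∈ A.P X, A.le r q ∧ A.APi X O a b r) →
    ∃ r ∈ G, A.APi X O a b r
  code : ∀ t ∈ O, ∀ z ∈ A.N X, (∀ q ∈ A.P X, ∃ r ∈ A.P X, A.le r q ∧
      (A.Coded X t z r ∨ ∀ s ∈ A.P X, A.le s r → ¬ A.le s (A.gd X t))) →
    ∃ r ∈ G, (A.Coded X t z r ∨ ∀ s ∈ A.P X, A.le s r → ¬ A.le s (A.gd X t))

section

variable (h : A.Laws) {X : A.Sy} {O : Set A.Lb} {G : Set A.Cn}

include h

/-- At an active open tag, every real is coded. -/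
theorem Complete.coded (hC : A.Complete X O) (hG : A.Gen X O G) {t : A.Lb} (ht : t ∈ O)
    (hg : ∃ q ∈ G, A.le q (A.gd X t)) {z : A.Nm} (hz : z ∈ A.N X) :
    A.Cd G X t z false ∨ A.Cd G X t z true := by
  obtain ⟨g, hgG, hgt⟩ := hg
  obtain ⟨r, hr, hc | hn⟩ := hG.code t ht z hz (fun q hq => by
    by_cases hs : ∃ s ∈ A.P X, A.le s q ∧ A.le s (A.gd X t)
    · obtain ⟨s, hs, hsq, hst⟩ := hs
      obtain ⟨r, hr, hrs, hc⟩ := hC.code t ht z hz s hs hst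
      exact ⟨r, hr, h.le_trans hrs hsq, Or.inl hc⟩
    · exact ⟨q, hq, h.le_refl q, Or.inr fun s h1 h2 h3 => hs ⟨s, h1, h2, h3⟩⟩)
  · obtain ⟨k, hk, h1, h2⟩ := hc
    cases hb : A.bit X k
    · exact Or.inl ⟨k, hk, hb, ⟨r, hr, h1⟩, r, hr, h2⟩
    · exact Or.inr ⟨k, hk, hb, ⟨r, hr, h1⟩, r, hr, h2⟩
  · obtain ⟨s, hs, hsr, hsg⟩ := hG.dir r hr g hgG
    exact (hn s (hG.sub hs) hsr (h.le_trans hsg hgt)).elim

/-- One condition of the filter for everything. -/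
theorem Cd.get (hG : A.Gen X O G) {t : A.Lb} {z : A.Nm} {i : Bool} (hz : z ∈ A.N X)
    (hc : A.Cd G X t z i) {u : A.Cn} (hu : u ∈ G) :
    ∃ k, A.At X t k ∧ A.bit X k = i ∧ ∃ q ∈ G, A.le q u ∧ A.le q (A.gd X k) ∧
      A.FE X q (A.zn X k) z := by
  obtain ⟨k, hk, hb, ⟨q, hq, h1⟩, r, hr, h2⟩ := hc
  obtain ⟨s, hs, hsq, hsr⟩ := hG.dir q hq r hr
  obtain ⟨v, hv, hvs, hvu⟩ := hG.dir s hs u hu
  exact ⟨k, hk, hb, v, hv, hvu, h.le_trans hvs (h.le_trans hsq h1),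
    h.fe_mono (hG.sub hr) (hG.sub hv) (h.zn_mem' hk) hz h2 (h.le_trans hvs hsr)⟩

theorem Complete.not_both (hC : A.Complete X O) (hG : A.Gen X O G) {t : A.Lb} (ht : t ∈ O)
    {z : A.Nm} (hz : z ∈ A.N X) : ¬ (A.Cd G X t z false ∧ A.Cd G X t z true) := by
  rintro ⟨h1, h2⟩
  have h1' := h1
  obtain ⟨-, -, -, ⟨u, hu, -⟩, -⟩ := h1'
  obtain ⟨k, hk, hbk, q, hq, -, hqk, hek⟩ := Cd.get h hG hz h1 hu
  obtain ⟨l, hl, hbl, r, hr, hrq, hrl, hel⟩ := Cd.get h hG hz h2 hq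
  have hrP := hG.sub hr
  refine Pos.one_side h hC.pos ht hk hl hbk hbl hrP (h.le_trans hrq hqk) hrl ?_
  exact h.fe_trans hrP (h.zn_mem' hk) hz (h.zn_mem' hl)
    (h.fe_mono (hG.sub hq) hrP (h.zn_mem' hk) hz hek hrq) (h.fe_symm hrP (h.zn_mem' hl) hz hel)

/-- Separation for the pairs of disjoint sets of the first kind. -/
theorem Complete.sep_sig (hC : A.Complete X O) (hG : A.Gen X O G) {a b : A.Nm} (ha : a ∈ A.N X)
    (hb : b ∈ A.N X) (hd : ∀ z ∈ A.N X, ¬ (A.Tru G X a z ∧ A.Tru G X b z)) :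
    ∃ t ∈ O, (∃ q ∈ G, A.le q (A.gd X t)) ∧ ∀ z ∈ A.N X,
      (A.Cd G X t z false ∨ A.Cd G X t z true) ∧
      ¬ (A.Cd G X t z false ∧ A.Cd G X t z true) ∧
      (A.Tru G X a z → A.Cd G X t z false) ∧ (A.Tru G X b z → A.Cd G X t z true) := by
  obtain ⟨r, hr, ⟨z, hz, h1, h2⟩ | ⟨t, ht, hpi, hpa, hpb, hg⟩⟩ :=
    hG.sig a ha b hb (hC.sig a ha b hb)
  · exact (hd z hz ⟨⟨r, hr, h1⟩, r, hr, h2⟩).elim
  refine ⟨t, ht, ⟨r, hr, hg⟩, fun z hz => ?_⟩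
  have hc := Complete.coded h hC hG ht ⟨r, hr, hg⟩ hz
  refine ⟨hc, Complete.not_both h hC hG ht hz, ?_, ?_⟩
  · rintro ⟨u, hu, hf⟩
    rcases hc with hc | hc
    · exact hc
    · obtain ⟨l, hl, hbl, q, hq, hqu, hql, he⟩ := Cd.get h hG hz hc hu
      refine (Pos.sig_true h hC.pos ht hpi hl hbl (hG.sub hq) hql ?_).elim
      rw [hpa]
      exact h.fa_congr (hG.sub hq) ha hz (h.zn_mem' hl) (h.fe_symm (hG.sub hq) (h.zn_mem' hl) hz he)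
        (h.fa_mono (hG.sub hu) (hG.sub hq) ha hz hf hqu)
  · rintro ⟨u, hu, hf⟩
    rcases hc with hc | hc
    · obtain ⟨l, hl, hbl, q, hq, hqu, hql, he⟩ := Cd.get h hG hz hc hu
      refine (Pos.sig_false h hC.pos ht hpi hl hbl (hG.sub hq) hql ?_).elim
      rw [hpb]
      exact h.fa_congr (hG.sub hq) hb hz (h.zn_mem' hl) (h.fe_symm (hG.sub hq) (h.zn_mem' hl) hz he)
        (h.fa_mono (hG.sub hu) (hG.sub hq) hb hz hf hqu)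
    · exact hc

/-- Separation for the pairs of sets of the first kind which cover all reals. -/
theorem Complete.sep_pi (hC : A.Complete X O) (hG : A.Gen X O G) {a b : A.Nm} (ha : a ∈ A.N X)
    (hb : b ∈ A.N X) (hd : ∀ z ∈ A.N X, A.Tru G X a z ∨ A.Tru G X b z) :
    ∃ t ∈ O, (∃ q ∈ G, A.le q (A.gd X t)) ∧ ∀ z ∈ A.N X,
      (A.Cd G X t z false ∨ A.Cd G X t z true) ∧
      ¬ (A.Cd G X t z false ∧ A.Cd G X t z true) ∧
      (A.Cd G X t z false → A.Tru G X a z) ∧ (A.Cd G X t z true → A.Tru G X b z) := by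
  obtain ⟨r, hr, ⟨z, hz, hh⟩ | ⟨t, ht, hpi, hpa, hpb, hg⟩⟩ :=
    hG.pi a ha b hb (hC.pi a ha b hb)
  · exfalso
    have hrefl := (Pos.refl h hC.pos).1
    rcases hd z hz with ⟨u, hu, hf⟩ | ⟨u, hu, hf⟩
    · obtain ⟨s, hs, hsu, hsr⟩ := hG.dir u hu r hr
      exact (hh X hrefl s (hG.sub hs) hsr).1 (h.fa_mono (hG.sub hu) (hG.sub hs) ha hz hf hsu)
    · obtain ⟨s, hs, hsu, hsr⟩ := hG.dir u hu r hr
      exact (hh X hrefl s (hG.sub hs) hsr).2 (h.fa_mono (hG.sub hu) (hG.sub hs) hb hz hf hsu)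
  refine ⟨t, ht, ⟨r, hr, hg⟩, fun z hz => ⟨Complete.coded h hC hG ht ⟨r, hr, hg⟩ hz,
    Complete.not_both h hC hG ht hz, fun hc => ?_, fun hc => ?_⟩⟩
  · obtain ⟨l, hl, hbl, q, hq, hqr, hql, he⟩ := Cd.get h hG hz hc hr
    have hf := Pos.pi_false h hC.pos ht hpi hl hbl (hG.sub hq) hql
    rw [hpa] at hf
    exact ⟨q, hq, h.fa_congr (hG.sub hq) ha (h.zn_mem' hl) hz he hf⟩
  · obtain ⟨l, hl, hbl, q, hq, hqr, hql, he⟩ := Cd.get h hG hz hc hr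
    have hf := Pos.pi_true h hC.pos ht hpi hl hbl (hG.sub hq) hql
    rw [hpb] at hf
    exact ⟨q, hq, h.fa_congr (hG.sub hq) hb (h.zn_mem' hl) hz he hf⟩

end

end Api

end Pool.Agent.Sep
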