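import Pool.Agent.Sep.GoodT
import Pool.Agent.Sep.Inst
import Pool.Agent.Sep.RuleC

/-!
# The tasks of the first use of the closing lemma can be done
-/

universe u

set_option linter.unusedSectionVars false

namespace Pool.Agent.Sep

open Pool.Agent.SigB Pool.Agent.Forc Pool.Agent.Frc

variable {M : Type u} [Membership M M] [IsZFC M] {K : Frm M}

/-- `Dc` in the form of the abstract data. -/
theorem Rest.dCode_iff (R : Rest K) {X : SyT K} {t z q : M} (hz : NM K.toCst X.1 z) :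
    (api K).DCode X t z q ↔ Dc K.toCst X.1 t z q := by
  constructor
  · rintro ⟨r, hr, hrq, l, hl, hg, he⟩
    obtain ⟨l1, l2, l3⟩ := at_iff.1 hl
    have e1 : (api K).gd X l = cg X.1 l := gdS_code ((X.2.not_tag_iff l1).2 l2)
    rw [e1] at hg
    exact ⟨r, hr, hrq, l, l1, l2, l3, hg, R.fe_symm X.2 hr (R.cz_mem' X.2 l1) hz he⟩
  · rintro ⟨r, hr, hrq, l, l1, l2, l3, hg, he⟩
    have e1 : (api K).gd X l = cg X.1 l := gdS_code ((X.2.not_tag_iff l1).2 l2)
    refine ⟨r, hr, hrq, l, at_iff.2 ⟨l1, l2, l3⟩, ?_, R.fe_symm X.2 hr hz (R.cz_mem' X.2 l1) he⟩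
    rw [e1]
    exact hg

theorem Rest.gh (R : Rest K) : GH K where
  fe_up hX hY h hq hz hz' he := R.fe_up hX hY h hq hz hz' he
  cz_mem hX hl _ := R.cz_mem' hX hl
  code := by
    intro X O x z q hP hx hk hz hq hqx
    have hT : IsTag X x := (hP.2.2 x hx).2.1
    have e : (api K).gd ⟨X, hP.1⟩ x = tg X x := gdS_tag hT
    obtain ⟨Y, h1, h2, h3⟩ := Api.Pos.exists_code_pi R.laws
      (X := (⟨X, hP.1⟩ : SyT K)) (O := {t | t ∈ O}) (Pos_iff.2 hP) (t := x) hx hk (z := z)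
      (q := q) hz hq (by rw [e]; exact hqx)
    exact ⟨Y.1, Pos_iff.1 h1, L_iff.1 h2, (R.dCode_iff (NM_mono hP.1 Y.2 h2.1 hz)).1 h3⟩

end Pool.Agent.Sep
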