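import Pool.Agent.Sep.ChainP
import Pool.Agent.Sep.GoodH

/-!
# Good extensions

The first use of the closing lemma: for a position with a set of open tags, there is a legal
extension where every real is coded at every open `Π`-tag.
-/

universe u

set_option linter.unusedSectionVars false

namespace Pool.Agent.Sep

open Pool.Agent.SigB Pool.Agent.Forc Pool.Agent.Frc
open Pool.Agent.FDia (W1)

variable {M : Type u} [Membership M M] [IsZFC M]

theorem tsk1 {K : Frm M} (R : Rest K) (hw : W1 K.ix) (hT : Forc.Le K.T K.ix)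
    (hCH : Forc.Le (pw (om : M)) K.ix) (hhf : Forc.Le K.hf K.ix) (O : M) :
    Tsk K.ix (fun X => Pos K X O) (fun X Y => LL K X O Y) U1 (tks K.toCst) (Dn1 K.toCst O) where
  toChn := chn1 R.laws hw O
  dtT := tks.dt K.toCst
  dfnD := dfn_Dn1 K.toCst (DT.const O) (DT.var 0) (DT.var 1)
  le X h := le_tks hw hT h.1.2.2.1 hCH hhf
  mono X Y hX _ h := LL.tks_mono hX.1 h
  keep X Y t hX _ h ht hd := Dn1.keep R.gh hX h ht hd
  able X t hX ht := Dn1.able R.gh hX ht
  small F hF hp he t ht := by
    have hinc : Inc K.ix (fun a => ap F a) := ⟨by simp (maxDischargeDepth := 50), hw.ord,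
      fun a ha => (hp a ha).1.fn, fun a b hb hab => (he a b hab hb).2.1⟩
    unfold U1 at ht
    rw [dm_of_fn hF] at ht
    exact hinc.tks hw ht

/-- Every position has a good extension. -/
theorem exists_good (hL : GL.AllL M) {K : Frm M} (R : Rest K) (hw : W1 K.ix)
    (hT : Forc.Le K.T K.ix) (hCH : Forc.Le (pw (om : M)) K.ix) (hhf : Forc.Le K.hf K.ix)
    {X O : M} (h : Pos K X O) : ∃ E, LL K X O E ∧ Good K.toCst E O := by
  obtain ⟨E, h1, h2, h3⟩ := (tsk1 R hw hT hCH hhf O).close hL h
  exact ⟨E, h2, good_of h1 h3⟩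

end Pool.Agent.Sep
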