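import Pool.Agent.Sep.Idx

/-!
# Rules, legal codes and positions

A rule is a pair `(A, O)` of a system and a set of tags of the system: the tags in `O` are open, the
other tags of `A` are closed and the tags outside `A` are free. Whether a code is legal for its tag is
defined by recursion on the rank of the tag.
-/

universe u

set_option linter.unusedSectionVars false

namespace Pool.Agent.Sep

open Pool.Agent.SigB Pool.Agent.Forc Pool.Agent.Frc

/-- The constants and the forcing relation `F X q a z`: the condition `q` of `PX X` forces that the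
value of the name `z` belongs to the `Σ¹₃` set with the code `a`. -/
structure Frm (M : Type u) [Membership M M] extends Cst M where
  F : M → M → M → M → Prop
  dfnF : Dfn (fun w : Fin 4 → M => F (w 0) (w 1) (w 2) (w 3))

variable {M : Type u} [Membership M M] [IsZFC M]

@[simp] theorem dfn_F (K : Frm M) {n : ℕ} {s t r q : (Fin n → M) → M} (hs : DT s) (ht : DT t)
    (hr : DT r) (hq : DT q) : Dfn (fun v => K.F (s v) (t v) (r v) (q v)) :=
  dfn4 K.dfnF hs ht hr hq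

/-! ### Fields of restrictions -/

theorem mem_dm {X j : M} : j ∈ dm X ↔ ∃ z, z ∈ X ∧ j = fst z := by
  unfold dm
  rw [mem_im (by simp (maxDischargeDepth := 50))]

theorem dm_of_fn {X D : M} (h : Fn X D) : dm X = D := by
  refine ext' fun j => ?_
  rw [mem_dm]
  constructor
  · rintro ⟨z, hz, rfl⟩
    obtain ⟨x, hx, rfl⟩ := h.mem_iff.1 hz
    rw [fst_op]
    exact hx
  · intro hj
    exact ⟨op j (ap X j), h.mem_iff.2 ⟨j, hj, rfl⟩, (fst_op _ _).symm⟩

theorem dm_rs {X D : M} (h : Fn X (dm X)) (hD : Sb D (dm X)) : dm (rs X D) = D :=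
  dm_of_fn (fn_rs h hD)

section rs

variable {X D j : M} (h : Fn X (dm X)) (hD : Sb D (dm X)) (hj : j ∈ D)

include h hD hj

theorem fD_rs : fD (rs X D) j = fD X j := by unfold fD; rw [ap_rs h hD hj]
theorem fW_rs : fW (rs X D) j = fW X j := by unfold fW; rw [ap_rs h hD hj]
theorem fT_rs : fT (rs X D) j = fT X j := by unfold fT; rw [ap_rs h hD hj]
theorem tO_rs : tO (rs X D) j = tO X j := by unfold tO; rw [fT_rs h hD hj]
theorem tk_rs : tk (rs X D) j = tk X j := by unfold tk; rw [fT_rs h hD hj]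
theorem ta_rs : ta (rs X D) j = ta X j := by unfold ta; rw [fT_rs h hD hj]
theorem tb_rs : tb (rs X D) j = tb X j := by unfold tb; rw [fT_rs h hD hj]
theorem tg_rs : tg (rs X D) j = tg X j := by unfold tg; rw [fT_rs h hD hj]
theorem tr_rs : tr (rs X D) j = tr X j := by unfold tr; rw [fT_rs h hD hj]
theorem cx_rs : cx (rs X D) j = cx X j := by unfold cx; rw [fT_rs h hD hj]
theorem ci_rs : ci (rs X D) j = ci X j := by unfold ci; rw [fT_rs h hD hj]
theorem cg_rs : cg (rs X D) j = cg X j := by unfold cg; rw [fT_rs h hD hj]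
theorem cz_rs : cz (rs X D) j = cz X j := by unfold cz; rw [fW_rs h hD hj]
theorem isTag_rs : IsTag (rs X D) j ↔ IsTag X j := by unfold IsTag; rw [fT_rs h hD hj]
theorem isCode_rs : IsCode (rs X D) j ↔ IsCode X j := by unfold IsCode; rw [fT_rs h hD hj]

end rs

theorem rs_rs {X D E : M} (h : Fn X (dm X)) (hD : Sb D (dm X)) (hE : Sb E D) :
    rs (rs X D) E = rs X E := by
  refine (fn_rs (fn_rs h hD) hE).ext (fn_rs h (hE.trans hD)) fun x hx => ?_
  rw [ap_rs (fn_rs h hD) hE hx, ap_rs h hD (hE x hx), ap_rs h (hE.trans hD) hx]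

/-- The values of a subfunction. -/
theorem ap_sub {X Y j : M} (hX : Fn X (dm X)) (hY : Fn Y (dm Y)) (h : Sb X Y) (hj : j ∈ dm X) :
    ap Y j = ap X j := by
  have h1 : op j (ap X j) ∈ Y := h _ (hX.mem_iff.2 ⟨j, hj, rfl⟩)
  have h2 : j ∈ dm Y := mem_dm.2 ⟨_, h1, (fst_op _ _).symm⟩
  exact (hY.op_mem_iff h2).1 h1

theorem dm_sub {X Y : M} (h : Sb X Y) : Sb (dm X) (dm Y) := by
  intro j hj
  obtain ⟨z, hz, rfl⟩ := mem_dm.1 hj
  exact mem_dm.2 ⟨z, h _ hz, rfl⟩

theorem sub_eq_rs {X Y : M} (hX : Fn X (dm X)) (hY : Fn Y (dm Y)) (h : Sb X Y) :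
    X = rs Y (dm X) := by
  refine hX.ext (fn_rs hY (dm_sub h)) fun j hj => ?_
  rw [ap_rs hY (dm_sub h) hj, ap_sub hX hY h hj]

section sub

variable {X Y j : M} (hX : Fn X (dm X)) (hY : Fn Y (dm Y)) (h : Sb X Y) (hj : j ∈ dm X)

include hX hY h hj

theorem fD_sub : fD Y j = fD X j := by unfold fD; rw [ap_sub hX hY h hj]
theorem fW_sub : fW Y j = fW X j := by unfold fW; rw [ap_sub hX hY h hj]
theorem fT_sub : fT Y j = fT X j := by unfold fT; rw [ap_sub hX hY h hj]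
theorem tO_sub : tO Y j = tO X j := by unfold tO; rw [fT_sub hX hY h hj]
theorem tk_sub : tk Y j = tk X j := by unfold tk; rw [fT_sub hX hY h hj]
theorem ta_sub : ta Y j = ta X j := by unfold ta; rw [fT_sub hX hY h hj]
theorem tb_sub : tb Y j = tb X j := by unfold tb; rw [fT_sub hX hY h hj]
theorem tg_sub : tg Y j = tg X j := by unfold tg; rw [fT_sub hX hY h hj]
theorem tr_sub : tr Y j = tr X j := by unfold tr; rw [fT_sub hX hY h hj]
theorem cx_sub : cx Y j = cx X j := by unfold cx; rw [fT_sub hX hY h hj]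
theorem ci_sub : ci Y j = ci X j := by unfold ci; rw [fT_sub hX hY h hj]
theorem cg_sub : cg Y j = cg X j := by unfold cg; rw [fT_sub hX hY h hj]
theorem cz_sub : cz Y j = cz X j := by unfold cz; rw [fW_sub hX hY h hj]
theorem isTag_sub : IsTag Y j ↔ IsTag X j := by unfold IsTag; rw [fT_sub hX hY h hj]
theorem isCode_sub : IsCode Y j ↔ IsCode X j := by unfold IsCode; rw [fT_sub hX hY h hj]

end sub

/-! ### The set of all systems -/

/-- A set containing the values of all systems. -/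
noncomputable def bnd (K : Cst M) : M :=
  pd (pw K.lab) (pd (pw (pd (pd K.hf (sc (sc (em : M)))) (fpw (atm K))))
    (un (pd (pr (em : M) (em : M)) (pd (pw K.lab) (pd (sc (sc (em : M)))
        (pd (pw (pd K.hf (fpw (atm K)))) (pd (pw (pd K.hf (fpw (atm K))))
          (pd (fpw (atm K)) K.lab))))))
      (pd (pr (sc (em : M)) (sc (em : M))) (pd K.lab (pd (sc (sc (em : M))) (fpw (atm K)))))))

/-- The set of all systems. -/
noncomputable def SY (K : Cst M) : M := sp (pw (pd K.lab (bnd K))) fun X => IsSys K X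

theorem PX_sub {K : Cst M} {X : M} : Sb (PX K X) (fpw (atm K)) := fun p hp =>
  mem_fpw.2 (mem_PX.1 hp).1

theorem mem_SY {K : Cst M} {X : M} : X ∈ SY K ↔ IsSys K X := by
  unfold SY
  rw [mem_sp (by simp (maxDischargeDepth := 50)), mem_pw]
  refine ⟨fun h => h.2, fun h => ⟨fun z hz => ?_, h⟩⟩
  obtain ⟨hF, hl, -, hst⟩ := h
  obtain ⟨j, hj, rfl⟩ := hF.mem_iff.1 hz
  obtain ⟨h1, h2, h3, h4, h5⟩ := hst j hj
  refine op_mem_pd.2 ⟨hl j hj, ?_⟩
  rw [h1]
  have hD : Sb (fD X j) K.lab := h2.1.trans hl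
  refine op_mem_pd.2 ⟨mem_pw.2 hD, op_mem_pd.2 ⟨mem_pw.2 fun w hw => ?_, ?_⟩⟩
  · obtain ⟨y, e, b, hy, he, hb, rfl⟩ := h4.2.1 w hw
    exact op_mem_pd.2 ⟨op_mem_pd.2 ⟨hy, he⟩, PX_sub _ hb⟩
  · rcases h5 with h6 | h6
    · obtain ⟨h7, -, h8, h9, h10, h11, h12, h13⟩ := h6
      rw [h7]
      refine mem_un.2 (Or.inl ?_)
      refine op_mem_pd.2 ⟨by simp, op_mem_pd.2 ⟨mem_pw.2 fun t ht => hD _ (h13 t ht).1,
        op_mem_pd.2 ⟨h9, op_mem_pd.2 ⟨mem_pw.2 fun w hw => ?_, op_mem_pd.2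
        ⟨mem_pw.2 fun w hw => ?_, op_mem_pd.2 ⟨PX_sub _ h12, h8⟩⟩⟩⟩⟩⟩
      · obtain ⟨x, hx, b, hb, rfl⟩ := mem_pd.1 (h10.1 w hw)
        exact op_mem_pd.2 ⟨hx, PX_sub _ hb⟩
      · obtain ⟨x, hx, b, hb, rfl⟩ := mem_pd.1 (h11.1 w hw)
        exact op_mem_pd.2 ⟨hx, PX_sub _ hb⟩
    · obtain ⟨h7, h8, -, h9, h10, -⟩ := h6
      rw [h7]
      exact mem_un.2 (Or.inr (op_mem_pd.2 ⟨by simp, op_mem_pd.2 ⟨hD _ h8, op_mem_pd.2
        ⟨h9, PX_sub _ h10⟩⟩⟩))

/-! ### Restrictions of systems -/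

theorem not_code_of_tag {X j : M} (h : IsTag X j) (h' : IsCode X j) : False := by
  unfold IsTag at h
  unfold IsCode at h'
  rw [h] at h'
  exact sc_ne_em (em : M) h'.symm

theorem TagOk.isTag {K : Cst M} {X j : M} (h : TagOk K X j) : IsTag X j := by
  unfold IsTag
  rw [h.1, fst_op]

theorem CodeOk.isCode {K : Cst M} {X j : M} (h : CodeOk K X j) : IsCode X j := by
  unfold IsCode
  rw [h.1, fst_op]

theorem IsSys.fn {K : Cst M} {X : M} (h : IsSys K X) : Fn X (dm X) := h.1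

theorem IsSys.tagOk {K : Cst M} {X j : M} (h : IsSys K X) (hj : j ∈ dm X) (ht : IsTag X j) :
    TagOk K X j := by
  rcases (h.2.2.2 j hj).2.2.2.2 with h1 | h1
  · exact h1
  · exact (not_code_of_tag ht h1.isCode).elim

theorem IsSys.codeOk {K : Cst M} {X j : M} (h : IsSys K X) (hj : j ∈ dm X) (ht : IsCode X j) :
    CodeOk K X j := by
  rcases (h.2.2.2 j hj).2.2.2.2 with h1 | h1
  · exact (not_code_of_tag h1.isTag ht).elim
  · exact h1

theorem IsSys.tag_or_code {K : Cst M} {X j : M} (h : IsSys K X) (hj : j ∈ dm X) :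
    IsTag X j ∨ IsCode X j := by
  rcases (h.2.2.2 j hj).2.2.2.2 with h1 | h1
  · exact Or.inl h1.isTag
  · exact Or.inr h1.isCode

theorem IsSys.cl {K : Cst M} {X j : M} (h : IsSys K X) (hj : j ∈ dm X) : Cl X (fD X j) :=
  (h.2.2.2 j hj).2.1

theorem Cl.ins {K : Cst M} {X j : M} (h : IsSys K X) (hj : j ∈ dm X) :
    Cl X (Sep.ins (fD X j) j) := by
  have h1 := h.cl hj
  refine ⟨fun l hl => ?_, fun l hl => ?_⟩
  · rcases mem_ins.1 hl with h2 | rfl
    · exact h1.1 l h2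
    · exact hj
  · rcases mem_ins.1 hl with h2 | rfl
    · exact (h1.2 l h2).trans (sb_ins _ _)
    · exact sb_ins _ _

/-- The restriction of a system to a closed set is a system. -/
theorem IsSys.rs {K : Cst M} {X D : M} (h : IsSys K X) (hD : Cl X D) :
    IsSys K (SigB.rs X D) := by
  have hF := h.fn
  have hd : dm (SigB.rs X D) = D := dm_rs hF hD.1
  refine ⟨by rw [hd]; exact fn_rs hF hD.1, by rw [hd]; exact hD.1.trans h.2.1,
    by rw [hd]; exact Forc.Le.mono_left h.2.2.1 hD.1, fun j hj => ?_⟩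
  rw [hd] at hj
  obtain ⟨h1, h2, h3, h4, h5⟩ := h.2.2.2 j (hD.1 j hj)
  have hDj : Sb (fD X j) D := hD.2 j hj
  refine ⟨?_, ?_, ?_, ?_, ?_⟩
  · rw [ap_rs hF hD.1 hj, fD_rs hF hD.1 hj, fW_rs hF hD.1 hj, fT_rs hF hD.1 hj]
    exact h1
  · rw [fD_rs hF hD.1 hj]
    refine ⟨by rw [hd]; exact hDj, fun l hl => ?_⟩
    rw [fD_rs hF hD.1 (hDj l hl)]
    exact h2.2 l hl
  · rw [fD_rs hF hD.1 hj]
    exact h3
  · rw [fD_rs hF hD.1 hj, fW_rs hF hD.1 hj, rs_rs hF hD.1 hDj]
    exact h4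
  · rcases h5 with h5 | h5
    · obtain ⟨h6, h7, h8, h9, h10, h11, h12, h13⟩ := h5
      refine Or.inl ⟨?_, ?_, ?_, ?_, ?_, ?_, ?_, ?_⟩
      · rw [fT_rs hF hD.1 hj, tO_rs hF hD.1 hj, tk_rs hF hD.1 hj, ta_rs hF hD.1 hj,
          tb_rs hF hD.1 hj, tg_rs hF hD.1 hj, tr_rs hF hD.1 hj]
        exact h6
      · rw [fW_rs hF hD.1 hj]; exact h7
      · rw [tr_rs hF hD.1 hj]; exact h8
      · rw [tk_rs hF hD.1 hj]; exact h9
      · rw [fD_rs hF hD.1 hj, ta_rs hF hD.1 hj, rs_rs hF hD.1 hDj]; exact h10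
      · rw [fD_rs hF hD.1 hj, tb_rs hF hD.1 hj, rs_rs hF hD.1 hDj]; exact h11
      · rw [fD_rs hF hD.1 hj, tg_rs hF hD.1 hj, rs_rs hF hD.1 hDj]; exact h12
      · intro t ht
        rw [tO_rs hF hD.1 hj] at ht
        obtain ⟨h14, h15, h16⟩ := h13 t ht
        rw [fD_rs hF hD.1 hj, isTag_rs hF hD.1 (hDj t h14), tr_rs hF hD.1 (hDj t h14),
          tr_rs hF hD.1 hj]
        exact ⟨h14, h15, h16⟩
    · obtain ⟨h6, h7, h8, h9, h10, h11, h12, h13⟩ := h5
      have hx : cx X j ∈ D := hDj _ h7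
      refine Or.inr ⟨?_, ?_, ?_, ?_, ?_, ?_, ?_, ?_⟩
      · rw [fT_rs hF hD.1 hj, cx_rs hF hD.1 hj, ci_rs hF hD.1 hj, cg_rs hF hD.1 hj]
        exact h6
      · rw [cx_rs hF hD.1 hj, fD_rs hF hD.1 hj]; exact h7
      · rw [cx_rs hF hD.1 hj, isTag_rs hF hD.1 hx]; exact h8
      · rw [ci_rs hF hD.1 hj]; exact h9
      · rw [cg_rs hF hD.1 hj, fD_rs hF hD.1 hj, rs_rs hF hD.1 hDj]; exact h10
      · rw [cg_rs hF hD.1 hj, cx_rs hF hD.1 hj, tg_rs hF hD.1 hx]; exact h11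
      · rw [fD_rs hF hD.1 hj, fW_rs hF hD.1 hj, cg_rs hF hD.1 hj, rs_rs hF hD.1 hDj]; exact h12
      · intro y e b hb
        rw [fW_rs hF hD.1 hj] at hb
        rw [cg_rs hF hD.1 hj, cx_rs hF hD.1 hj, ci_rs hF hD.1 hj]
        exact h13 y e b hb

/-! ### Consistency -/

/-- No two codes at the same open `Π`-tag code the same real on different sides. -/
def Cons (K : Cst M) (B O : M) : Prop :=
  ∀ l l', l ∈ dm B → l' ∈ dm B → IsCode B l → IsCode B l' → cx B l ∈ O → cx B l' = cx B l →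
    tk B (cx B l) = (em : M) → ci B l ≠ ci B l' →
    ∀ q, q ∈ PX K B → Lq K q (cg B l) → Lq K q (cg B l') → ¬ FE K B q (cz B l) (cz B l')

theorem Cons.dfn (K : Cst M) : Dfn (fun w : Fin 2 → M => Cons K (w 0) (w 1)) := by
  unfold Cons; simp (maxDischargeDepth := 50)

@[simp] theorem dfn_Cons (K : Cst M) {n : ℕ} {s t : (Fin n → M) → M} (hs : DT s) (ht : DT t) :
    Dfn (fun v => Cons K (s v) (t v)) := dfn2 (Cons.dfn K) hs ht

/-! ### The recursion -/

/-- The part of the system `B` which determines the step `j`. -/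
noncomputable def cone (B j : M) : M := rs B (ins (fD B j) j)

theorem cone.dt : DT (fun w : Fin 2 → M => cone (w 0) (w 1)) := by
  unfold cone; simp (maxDischargeDepth := 50)

@[simp] theorem dt_cone {n : ℕ} {s t : (Fin n → M) → M} (hs : DT s) (ht : DT t) :
    DT (fun v => cone (s v) (t v)) := dt2 cone.dt hs ht

/-- The system `B` extends the system `A` by the rule `(A, O)`, where the set of the legal codes at
the tags of rank `r` is `ap h r`. -/
def Lh (K : Cst M) (h A O B : M) : Prop :=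
  IsSys K B ∧ Sb A B ∧
  (∀ l, l ∈ dm B → l ∉ dm A → IsCode B l → cx B l ∈ dm A →
    cx B l ∈ O ∧ op (cone B l) l ∈ ap h (tr B (cx B l))) ∧
  Cons K B O

theorem Lh.dfn (K : Cst M) : Dfn (fun w : Fin 4 → M => Lh K (w 0) (w 1) (w 2) (w 3)) := by
  unfold Lh; simp (maxDischargeDepth := 50)

@[simp] theorem dfn_Lh (K : Cst M) {n : ℕ} {s t r q : (Fin n → M) → M} (hs : DT s) (ht : DT t)
    (hr : DT r) (hq : DT q) : Dfn (fun v => Lh K (s v) (t v) (r v) (q v)) :=
  dfn4 (Lh.dfn K) hs ht hr hq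

/-- The code `j` of the system `C` is legal. -/
def Okh (K : Frm M) (h C j : M) : Prop :=
  (tk C (cx C j) = (em : M) →
    (ci C j = (em : M) → K.F (rs C (fD C j)) (cg C j) (ta C (cx C j)) (cz C j)) ∧
    (ci C j = sc (em : M) → K.F (rs C (fD C j)) (cg C j) (tb C (cx C j)) (cz C j))) ∧
  (tk C (cx C j) = sc (em : M) →
    (ci C j = sc (em : M) →
      ∀ B, Lh K.toCst h (rs C (fD C (cx C j))) (tO C (cx C j)) B → Sb (rs C (fD C j)) B →
        ∀ q, q ∈ PX K.toCst B → Lq K.toCst q (cg C j) → ¬ K.F B q (ta C (cx C j)) (cz C j)) ∧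
    (ci C j = (em : M) →
      ∀ B, Lh K.toCst h (rs C (fD C (cx C j))) (tO C (cx C j)) B → Sb (rs C (fD C j)) B →
        ∀ q, q ∈ PX K.toCst B → Lq K.toCst q (cg C j) →
          ∃ B', Lh K.toCst h (rs C (fD C (cx C j))) (tO C (cx C j)) B' ∧ Sb B B' ∧
            ∃ r, r ∈ PX K.toCst B' ∧ Lq K.toCst r q ∧ K.F B' r (ta C (cx C j)) (cz C j)))

theorem Okh.dfn (K : Frm M) : Dfn (fun w : Fin 3 → M => Okh K (w 0) (w 1) (w 2)) := by
  unfold Okh; simp (maxDischargeDepth := 50)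

@[simp] theorem dfn_Okh (K : Frm M) {n : ℕ} {s t r : (Fin n → M) → M} (hs : DT s) (ht : DT t)
    (hr : DT r) : Dfn (fun v => Okh K (s v) (t v) (r v)) := dfn3 (Okh.dfn K) hs ht hr

/-- One step of the recursion: the legal codes at the tags of rank `r`. -/
noncomputable def Gok (K : Frm M) (r h : M) : M :=
  sp (pd (SY K.toCst) K.lab) fun z => ∃ C j, z = op C j ∧ j ∈ dm C ∧ IsCode C j ∧
    tr C (cx C j) = r ∧ Okh K h C j

theorem Gok.dt (K : Frm M) : DT (fun w : Fin 2 → M => Gok K (w 0) (w 1)) := by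
  unfold Gok; simp (maxDischargeDepth := 50)

theorem mem_Gok {K : Frm M} {r h C j : M} : op C j ∈ Gok K r h ↔
    (IsSys K.toCst C ∧ j ∈ K.lab) ∧ j ∈ dm C ∧ IsCode C j ∧ tr C (cx C j) = r ∧ Okh K h C j := by
  unfold Gok
  rw [mem_sp (by simp (maxDischargeDepth := 50)), op_mem_pd, mem_SY]
  refine and_congr_right fun _ => ⟨?_, fun h => ⟨C, j, rfl, h⟩⟩
  rintro ⟨C', j', he, h⟩
  obtain ⟨rfl, rfl⟩ := op_inj.1 he
  exact h

/-- The function which gives the legal codes at the tags of a given rank. -/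
noncomputable def okf (K : Frm M) : M := by
  classical
  exact if h : ∃ f, Fn f K.lab ∧ ∀ r, r ∈ K.lab → ap f r = Gok K r (rs f r) then h.choose
    else (em : M)

theorem okf_spec (K : Frm M) (hK : SigB.Ord K.lab) :
    Fn (okf K) K.lab ∧ ∀ r, r ∈ K.lab → ap (okf K) r = Gok K r (rs (okf K) r) := by
  have h : ∃ f, Fn f K.lab ∧ ∀ r, r ∈ K.lab → ap f r = Gok K r (rs f r) :=
    ord_recursion hK (Gok.dt K)
  unfold okf
  rw [dif_pos h]
  exact h.choose_spec

/-- The code `j` of the system `B` is legal for its tag. -/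
def OK (K : Frm M) (B j : M) : Prop := op (cone B j) j ∈ ap (okf K) (tr B (cx B j))

theorem OK.dfn (K : Frm M) : Dfn (fun w : Fin 2 → M => OK K (w 0) (w 1)) := by
  unfold OK; simp (maxDischargeDepth := 50)

@[simp] theorem dfn_OK (K : Frm M) {n : ℕ} {s t : (Fin n → M) → M} (hs : DT s) (ht : DT t) :
    Dfn (fun v => OK K (s v) (t v)) := dfn2 (OK.dfn K) hs ht

/-- The system `B` extends the system `A` by the rule `(A, O)`: the new codes at the tags of `A` are
at open tags and legal, and `B` is consistent at the open tags. -/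
def LL (K : Frm M) (A O B : M) : Prop :=
  IsSys K.toCst B ∧ Sb A B ∧
  (∀ l, l ∈ dm B → l ∉ dm A → IsCode B l → cx B l ∈ dm A → cx B l ∈ O ∧ OK K B l) ∧
  Cons K.toCst B O

theorem LL.dfn (K : Frm M) : Dfn (fun w : Fin 3 → M => LL K (w 0) (w 1) (w 2)) := by
  unfold LL; simp (maxDischargeDepth := 50)

@[simp] theorem dfn_LL (K : Frm M) {n : ℕ} {s t r : (Fin n → M) → M} (hs : DT s) (ht : DT t)
    (hr : DT r) : Dfn (fun v => LL K (s v) (t v) (r v)) := dfn3 (LL.dfn K) hs ht hr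

/-- The equation for the legal codes. -/
def OKe (K : Frm M) (B j : M) : Prop :=
  (tk B (cx B j) = (em : M) →
    (ci B j = (em : M) → K.F (rs B (fD B j)) (cg B j) (ta B (cx B j)) (cz B j)) ∧
    (ci B j = sc (em : M) → K.F (rs B (fD B j)) (cg B j) (tb B (cx B j)) (cz B j))) ∧
  (tk B (cx B j) = sc (em : M) →
    (ci B j = sc (em : M) →
      ∀ E, LL K (rs B (fD B (cx B j))) (tO B (cx B j)) E → Sb (rs B (fD B j)) E →
        ∀ q, q ∈ PX K.toCst E → Lq K.toCst q (cg B j) → ¬ K.F E q (ta B (cx B j)) (cz B j)) ∧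
    (ci B j = (em : M) →
      ∀ E, LL K (rs B (fD B (cx B j))) (tO B (cx B j)) E → Sb (rs B (fD B j)) E →
        ∀ q, q ∈ PX K.toCst E → Lq K.toCst q (cg B j) →
          ∃ E', LL K (rs B (fD B (cx B j))) (tO B (cx B j)) E' ∧ Sb E E' ∧
            ∃ r, r ∈ PX K.toCst E' ∧ Lq K.toCst r q ∧ K.F E' r (ta B (cx B j)) (cz B j)))

theorem OK_iff {K : Frm M} (hK : SigB.Ord K.lab) {B j : M} (hB : IsSys K.toCst B)
    (hj : j ∈ dm B) (hc : IsCode B j) : OK K B j ↔ OKe K B j := by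
  have hF := hB.fn
  have hcl := Cl.ins hB hj
  have hcod := hB.codeOk hj hc
  have hx : cx B j ∈ fD B j := hcod.2.1
  have hxB : cx B j ∈ dm B := (hB.cl hj).1 _ hx
  have htag := hB.tagOk hxB hcod.2.2.1
  have hjI : j ∈ ins (fD B j) j := mem_ins.2 (Or.inr rfl)
  have hxI : cx B j ∈ ins (fD B j) j := mem_ins.2 (Or.inl hx)
  have hrl : tr B (cx B j) ∈ K.lab := htag.2.2.1
  obtain ⟨hf, hrec⟩ := okf_spec K hK
  -- the fields of the cone
  have e1 : cx (cone B j) j = cx B j := cx_rs hF hcl.1 hjI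
  have e2 : ci (cone B j) j = ci B j := ci_rs hF hcl.1 hjI
  have e3 : cg (cone B j) j = cg B j := cg_rs hF hcl.1 hjI
  have e4 : cz (cone B j) j = cz B j := cz_rs hF hcl.1 hjI
  have e5 : fD (cone B j) j = fD B j := fD_rs hF hcl.1 hjI
  have e6 : tk (cone B j) (cx B j) = tk B (cx B j) := tk_rs hF hcl.1 hxI
  have e7 : ta (cone B j) (cx B j) = ta B (cx B j) := ta_rs hF hcl.1 hxI
  have e8 : tb (cone B j) (cx B j) = tb B (cx B j) := tb_rs hF hcl.1 hxI
  have e9 : tO (cone B j) (cx B j) = tO B (cx B j) := tO_rs hF hcl.1 hxI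
  have e10 : tr (cone B j) (cx B j) = tr B (cx B j) := tr_rs hF hcl.1 hxI
  have e11 : fD (cone B j) (cx B j) = fD B (cx B j) := fD_rs hF hcl.1 hxI
  have e12 : rs (cone B j) (fD B j) = rs B (fD B j) := rs_rs hF hcl.1 (sb_ins _ _)
  have e13 : rs (cone B j) (fD B (cx B j)) = rs B (fD B (cx B j)) :=
    rs_rs hF hcl.1 (((hB.cl hj).2 _ hx).trans (sb_ins _ _))
  have hdm : dm (cone B j) = ins (fD B j) j := dm_rs hF hcl.1
  -- the two forms of the relation
  have hLL : ∀ E, Lh K.toCst (rs (okf K) (tr B (cx B j))) (rs B (fD B (cx B j)))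
      (tO B (cx B j)) E ↔ LL K (rs B (fD B (cx B j))) (tO B (cx B j)) E := by
    intro E
    have hA : Fn (rs B (fD B (cx B j))) (dm (rs B (fD B (cx B j)))) := by
      rw [dm_rs hF (hB.cl hxB).1]; exact fn_rs hF (hB.cl hxB).1
    refine and_congr_right fun hE => and_congr_right fun hAE => and_congr_left fun _ => ?_
    refine forall_congr' fun l => forall_congr' fun hl => forall_congr' fun hl' =>
      forall_congr' fun hlc => forall_congr' fun hlx => and_congr_right fun hO => ?_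
    have h1 : tr E (cx E l) ∈ tr B (cx B j) := by
      rw [tr_sub hA hE.fn hAE hlx]
      have h2 := (htag.2.2.2.2.2.2.2 _ hO)
      rw [tr_rs hF (hB.cl hxB).1 h2.1]
      exact h2.2.2
    show _ ∈ ap (rs (okf K) (tr B (cx B j))) (tr E (cx E l)) ↔ _ ∈ ap (okf K) (tr E (cx E l))
    rw [ap_rs hf (hK.sb hrl) h1]
  unfold OK OKe
  rw [hrec _ hrl, mem_Gok]
  constructor
  · rintro ⟨-, -, -, -, h⟩
    unfold Okh at h
    rw [e1, e2, e3, e4, e5, e6, e7, e8, e9, e11, e12, e13] at h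
    simpa only [hLL] using h
  · intro h
    refine ⟨⟨hB.rs hcl, hB.2.1 j hj⟩, by rw [hdm]; exact hjI, (isCode_rs hF hcl.1 hjI).2 hc,
      by rw [e1, e10], ?_⟩
    unfold Okh
    rw [e1, e2, e3, e4, e5, e6, e7, e8, e9, e11, e12, e13]
    simpa only [hLL] using h

/-! ### Good systems and positions -/

/-- Every real of the system is coded at every open `Π`-tag. -/
def Good (K : Cst M) (B O : M) : Prop :=
  ∀ x, x ∈ O → tk B x = (em : M) → ∀ z, NM K B z → ∀ q, q ∈ PX K B → Lq K q (tg B x) →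
    ∃ r, r ∈ PX K B ∧ Lq K r q ∧ ∃ l, l ∈ dm B ∧ IsCode B l ∧ cx B l = x ∧
      Lq K r (cg B l) ∧ FE K B r z (cz B l)

theorem Good.dfn (K : Cst M) : Dfn (fun w : Fin 2 → M => Good K (w 0) (w 1)) := by
  unfold Good; simp (maxDischargeDepth := 50)

@[simp] theorem dfn_Good (K : Cst M) {n : ℕ} {s t : (Fin n → M) → M} (hs : DT s) (ht : DT t) :
    Dfn (fun v => Good K (s v) (t v)) := dfn2 (Good.dfn K) hs ht

/-- By the rule `(A, O)` every real can be put below `g` into one of the `Σ¹₃` sets with the codes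
`a`, `b`, without codes at the closed tags. -/
def Bb (K : Frm M) (A O g a b : M) : Prop :=
  ∀ B, LL K A O B → ∀ z, NM K.toCst B z → ∀ q, q ∈ PX K.toCst B → Lq K.toCst q g →
    ∃ E, LL K B O E ∧ ∃ r, r ∈ PX K.toCst E ∧ Lq K.toCst r q ∧ (K.F E r a z ∨ K.F E r b z)

theorem Bb.dfn (K : Frm M) :
    Dfn (fun w : Fin 5 → M => Bb K (w 0) (w 1) (w 2) (w 3) (w 4)) := by
  unfold Bb; simp (maxDischargeDepth := 50)

@[simp] theorem dfn_Bb (K : Frm M) {n : ℕ} {s t r q p : (Fin n → M) → M} (hs : DT s)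
    (ht : DT t) (hr : DT r) (hq : DT q) (hp : DT p) :
    Dfn (fun v => Bb K (s v) (t v) (r v) (q v) (p v)) := dfn5 (Bb.dfn K) hs ht hr hq hp

/-- By the rule `(A, O)` it is not possible to force below `g` that the `Σ¹₃` sets with the codes `a`,
`b` meet. -/
def Nk (K : Frm M) (A O g a b : M) : Prop :=
  ∀ B, LL K A O B → ∀ z, NM K.toCst B z → ∀ q, q ∈ PX K.toCst B → Lq K.toCst q g →
    ¬ (K.F B q a z ∧ K.F B q b z)

theorem Nk.dfn (K : Frm M) :
    Dfn (fun w : Fin 5 → M => Nk K (w 0) (w 1) (w 2) (w 3) (w 4)) := by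
  unfold Nk; simp (maxDischargeDepth := 50)

@[simp] theorem dfn_Nk (K : Frm M) {n : ℕ} {s t r q p : (Fin n → M) → M} (hs : DT s)
    (ht : DT t) (hr : DT r) (hq : DT q) (hp : DT p) :
    Dfn (fun v => Nk K (s v) (t v) (r v) (q v) (p v)) := dfn5 (Nk.dfn K) hs ht hr hq hp

/-- `(B, O)` is a position: `O` is a set of tags of the system `B`, and every tag `x` in `O` was
activated at the position `(fD B x, tO B x)`. -/
def Pos (K : Frm M) (B O : M) : Prop :=
  IsSys K.toCst B ∧ Cons K.toCst B O ∧ ∀ x, x ∈ O → x ∈ dm B ∧ IsTag B x ∧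
    tO B x = it O (fD B x) ∧
    LL K (rs B (ins (fD B x) x)) (ins (tO B x) x) B ∧
    (tk B x = (em : M) → Bb K (rs B (fD B x)) (tO B x) (tg B x) (ta B x) (tb B x)) ∧
    (tk B x = sc (em : M) → Nk K (rs B (fD B x)) (tO B x) (tg B x) (ta B x) (tb B x))

theorem Pos.dfn (K : Frm M) : Dfn (fun w : Fin 2 → M => Pos K (w 0) (w 1)) := by
  unfold Pos; simp (maxDischargeDepth := 50)

@[simp] theorem dfn_Pos (K : Frm M) {n : ℕ} {s t : (Fin n → M) → M} (hs : DT s) (ht : DT t) :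
    Dfn (fun v => Pos K (s v) (t v)) := dfn2 (Pos.dfn K) hs ht

/-- The position `(E, Q)` extends the position `(B, O)`. -/
def Ple (K : Frm M) (B O E Q : M) : Prop := LL K B O E ∧ it Q (dm B) = O

theorem Ple.dfn (K : Frm M) : Dfn (fun w : Fin 4 → M => Ple K (w 0) (w 1) (w 2) (w 3)) := by
  unfold Ple; simp (maxDischargeDepth := 50)

@[simp] theorem dfn_Ple (K : Frm M) {n : ℕ} {s t r q : (Fin n → M) → M} (hs : DT s) (ht : DT t)
    (hr : DT r) (hq : DT q) : Dfn (fun v => Ple K (s v) (t v) (r v) (q v)) :=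
  dfn4 (Ple.dfn K) hs ht hr hq

end Pool.Agent.Sep
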