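import Pool.Agent.Sep.SubExt
import Pool.Agent.Sep.Rul

/-!
# The conditions over a subsystem are a complete suborder
-/

universe u

set_option linter.unusedSectionVars false

namespace Pool.Agent.Sep

open Pool.Agent.SigB Pool.Agent.Forc Pool.Agent.Frc

variable {M : Type u} [Membership M M] [IsZFC M] {K : Cst M} {X Y p q r u : M}

namespace CX

theorem lq_refl (p : M) : Lq K p p := ⟨Sb.refl p, fun _ _ _ h1 h2 => absurd h1 h2⟩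

theorem lq_trans (h : Lq K r q) (h' : Lq K q p) : Lq K r p := by
  refine ⟨h'.1.trans h.1, fun j u a h1 h2 h3 => ?_⟩
  by_cases h4 : nd j u ∈ q
  · exact h'.2 j u a h4 h2 h3
  · exact h.2 j u a h1 h4 (h'.1 _ h3)

theorem lq_em (p : M) : Lq K p em :=
  ⟨fun z hz => absurd hz (not_mem_em z), fun _ _ _ _ _ h => absurd h (not_mem_em _)⟩

theorem nd_mem_rs {D j u : M} : nd j u ∈ rs p D ↔ nd j u ∈ p ∧ j ∈ D := op_mem_rs

theorem pm_mem_rs {D j u : M} : pm j u ∈ rs p D ↔ pm j u ∈ p ∧ j ∈ D := op_mem_rs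

theorem mem_rs {D z : M} : z ∈ rs p D ↔ z ∈ p ∧ ∃ x, x ∈ D ∧ ∃ y, z = op x y := by
  unfold rs
  exact mem_sp (by simp (maxDischargeDepth := 50))

theorem rs_sb (D : M) : Sb (rs p D) p := fun z hz => (mem_rs.1 hz).1

theorem lq_rs_self (p D : M) : Lq K p (rs p D) :=
  ⟨rs_sb D, fun _ _ _ h1 h2 h3 => absurd (nd_mem_rs.2 ⟨h1, (pm_mem_rs.1 h3).2⟩) h2⟩

theorem lq_rs (h : Lq K q p) (D : M) : Lq K (rs q D) (rs p D) := by
  refine ⟨fun z hz => ?_, fun j u a h1 h2 h3 => ?_⟩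
  · obtain ⟨h1, h2⟩ := mem_rs.1 hz
    exact mem_rs.2 ⟨h.1 z h1, h2⟩
  · obtain ⟨h1, hj⟩ := nd_mem_rs.1 h1
    exact h.2 j u a h1 (fun h4 => h2 (nd_mem_rs.2 ⟨h4, hj⟩)) (pm_mem_rs.1 h3).1

theorem rs_rs {D E : M} (h : Sb E D) : rs (rs p D) E = rs p E := by
  refine ext' fun z => ?_
  rw [mem_rs, mem_rs, mem_rs]
  constructor
  · rintro ⟨⟨h1, -⟩, h2⟩
    exact ⟨h1, h2⟩
  · rintro ⟨h1, x, hx, y, rfl⟩
    exact ⟨⟨h1, x, h x hx, y, rfl⟩, x, hx, y, rfl⟩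

theorem em_mem_PX : (em : M) ∈ PX K X :=
  mem_PX.2 ⟨⟨fun z hz => absurd hz (not_mem_em z), fte_em⟩, fun z hz => absurd hz (not_mem_em z),
    fun j a h => absurd h (not_mem_em _)⟩

theorem op_of_mem (hp : p ∈ PX K X) {z : M} (hz : z ∈ p) : ∃ j y, z = op j y ∧ j ∈ dm X := by
  obtain ⟨⟨h1, -⟩, h2, -⟩ := mem_PX.1 hp
  have h3 := h2 z hz
  rcases mem_atm.1 (h1 z hz) with ⟨j, u, -, -, rfl⟩ | ⟨j, u, -, -, rfl⟩
  · rw [fst_nd] at h3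
    exact ⟨j, _, rfl, h3⟩
  · rw [fst_pm] at h3
    exact ⟨j, _, rfl, h3⟩

end CX

open CX

/-- The conditions over a system with their order. -/
theorem po_PX (K : Cst M) (X : M) : PO (PX K X) (LX K X) em where
  sub p q h := (op_mem_LX.1 h).1
  refl p hp := op_mem_LX.2 ⟨⟨hp, hp⟩, lq_refl p⟩
  trans p q r h1 h2 := op_mem_LX.2 ⟨⟨(op_mem_LX.1 h1).1.1, (op_mem_LX.1 h2).1.2⟩,
    lq_trans (op_mem_LX.1 h1).2 (op_mem_LX.1 h2).2⟩
  one_mem := em_mem_PX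
  top p hp := op_mem_LX.2 ⟨⟨hp, em_mem_PX⟩, lq_em p⟩

section sub

variable (hX : Fn X (dm X)) (hY : Fn Y (dm Y)) (hXY : Sb X Y)
  (hcl : ∀ j, j ∈ dm X → Sb (fD X j) (dm X))

include hX hY hXY

theorem PX_up (hp : p ∈ PX K X) : p ∈ PX K Y := by
  obtain ⟨h1, h2, h3⟩ := mem_PX.1 hp
  refine mem_PX.2 ⟨h1, fun z hz => dm_sub hXY _ (h2 z hz), fun j a hj => ?_⟩
  obtain ⟨σ, b, h4, h5, h6⟩ := h3 j a hj
  have hjX : j ∈ dm X := by
    have := h2 _ hj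
    rwa [fst_pm] at this
  rw [fW_sub hX hY hXY hjX, fD_sub hX hY hXY hjX]
  exact ⟨σ, b, h4, h5, h6⟩

include hcl

/-- The restriction of a condition. -/
theorem rs_mem_PX (hp : p ∈ PX K Y) : rs p (dm X) ∈ PX K X := by
  obtain ⟨h1, h2, h3⟩ := mem_PX.1 hp
  refine mem_PX.2 ⟨⟨(rs_sb _).trans h1.1, h1.2.sub (rs_sb _)⟩, fun z hz => ?_, fun j a hj => ?_⟩
  · obtain ⟨-, x, hx, y, rfl⟩ := mem_rs.1 hz
    rwa [fst_op]
  · obtain ⟨hj, hjX⟩ := pm_mem_rs.1 hj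
    obtain ⟨σ, b, h4, h5, h6⟩ := h3 j a hj
    rw [fW_sub hX hY hXY hjX] at h4
    rw [fD_sub hX hY hXY hjX] at h5
    rw [CX.rs_rs (hcl j hjX)]
    exact ⟨σ, b, h4, h5, h6⟩

/-- Amalgamation of a condition over `Y` and a condition over `X`: the union. -/
theorem un_mem_PX (hp : p ∈ PX K X) (hu : u ∈ PX K Y) (h : Lq K p (rs u (dm X))) :
    un p u ∈ PX K Y ∧ Lq K (un p u) p ∧ Lq K (un p u) u := by
  obtain ⟨p1, p2, p3⟩ := mem_PX.1 hp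
  obtain ⟨u1, u2, u3⟩ := mem_PX.1 hu
  have hjX : ∀ {j y : M}, op j y ∈ p → j ∈ dm X := by
    intro j y hj
    have := p2 _ hj
    rwa [fst_op] at this
  have hlu : Lq K (un p u) u := by
    refine ⟨fun z hz => mem_un.2 (Or.inr hz), fun j v a h1 h2 h3 => ?_⟩
    rcases mem_un.1 h1 with h4 | h4
    · exact h.2 j v a h4 (fun h5 => h2 (nd_mem_rs.1 h5).1) (pm_mem_rs.2 ⟨h3, hjX h4⟩)
    · exact absurd h4 h2
  have hlp : Lq K (un p u) p := by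
    refine ⟨fun z hz => mem_un.2 (Or.inl hz), fun j v a h1 h2 h3 => ?_⟩
    rcases mem_un.1 h1 with h4 | h4
    · exact absurd h4 h2
    · exact absurd (h.1 _ (nd_mem_rs.2 ⟨h4, hjX h3⟩)) h2
  refine ⟨mem_PX.2 ⟨⟨fun z hz => ?_, p1.2.un u1.2⟩, fun z hz => ?_, fun j a hj => ?_⟩, hlp, hlu⟩
  · exact (mem_un.1 hz).elim (p1.1 z) (u1.1 z)
  · exact (mem_un.1 hz).elim (fun hz => dm_sub hXY _ (p2 z hz)) (u2 z)
  · rcases mem_un.1 hj with hj | hj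
    · obtain ⟨σ, b, h4, h5, h6⟩ := p3 j a hj
      have hj' := hjX hj
      rw [fW_sub hX hY hXY hj', fD_sub hX hY hXY hj']
      refine ⟨σ, b, h4, lq_trans (lq_rs hlp _) h5, h6⟩
    · obtain ⟨σ, b, h4, h5, h6⟩ := u3 j a hj
      exact ⟨σ, b, h4, lq_trans (lq_rs hlu _) h5, h6⟩

/-- The restriction to a subsystem is a reduction. -/
theorem red_rs (hu : u ∈ PX K Y) : Red (PX K X) (LX K X) (LX K Y) (rs u (dm X)) u := by
  refine ⟨rs_mem_PX hX hY hXY hcl hu, fun p hp => ?_⟩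
  obtain ⟨⟨hpX, -⟩, hpu⟩ := op_mem_LX.1 hp
  obtain ⟨h1, h2, h3⟩ := un_mem_PX hX hY hXY hcl hpX hu hpu
  exact ⟨_, op_mem_LX.2 ⟨⟨h1, PX_up hX hY hXY hpX⟩, h2⟩, op_mem_LX.2 ⟨⟨h1, hu⟩, h3⟩⟩

/-- The conditions over a subsystem are a complete suborder. -/
theorem cSub_PX (K : Cst M) : CSub (PX K X) (LX K X) (PX K Y) (LX K Y) em where
  po := po_PX K Y
  sub p hp := PX_up hX hY hXY hp
  one_mem := em_mem_PX
  le_iff p q := by
    rw [op_mem_LX, op_mem_LX]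
    constructor
    · rintro ⟨⟨hp, hq⟩, h⟩
      exact ⟨hp, hq, ⟨PX_up hX hY hXY hp, PX_up hX hY hXY hq⟩, h⟩
    · rintro ⟨hp, hq, -, h⟩
      exact ⟨⟨hp, hq⟩, h⟩
  comp p q hp hq h := by
    obtain ⟨r, h1, h2⟩ := h
    obtain ⟨⟨hr, -⟩, h1⟩ := op_mem_LX.1 h1
    obtain ⟨-, h2⟩ := op_mem_LX.1 h2
    have hr' := rs_mem_PX hX hY hXY hcl hr
    have key : ∀ {p : M}, p ∈ PX K X → Lq K r p → Lq K (rs r (dm X)) p := by
      intro p hp h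
      have h3 := lq_rs h (dm X)
      have h4 : rs p (dm X) = p := by
        refine ext' fun z => ⟨fun hz => rs_sb _ z hz, fun hz => ?_⟩
        obtain ⟨j, y, rfl, hj⟩ := op_of_mem hp hz
        exact op_mem_rs.2 ⟨hz, hj⟩
      rwa [h4] at h3
    exact ⟨_, op_mem_LX.2 ⟨⟨hr', hp⟩, key hp h1⟩, op_mem_LX.2 ⟨⟨hr', hq⟩, key hq h2⟩⟩
  red u hu := ⟨_, red_rs hX hY hXY hcl hu⟩

end sub

theorem rs_self_PX (hp : p ∈ PX K X) : rs p (dm X) = p := by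
  refine ext' fun z => ⟨fun hz => rs_sb _ z hz, fun hz => ?_⟩
  obtain ⟨j, y, rfl, hj⟩ := op_of_mem hp hz
  exact op_mem_rs.2 ⟨hz, hj⟩

/-- The conditions over a subsystem are a complete suborder. -/
theorem IsSys.cSub (hX : IsSys K X) (hY : IsSys K Y) (hXY : Sb X Y) :
    CSub (PX K X) (LX K X) (PX K Y) (LX K Y) em :=
  cSub_PX hX.1 hY.1 hXY (fun j hj => (hX.2.2.2 j hj).2.1.1) K

end Pool.Agent.Sep
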