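import Pool.Agent.Sep.Fin

/-!
# Systems of coding steps

Conditions are finite sets of atoms. A system `X` is a function on a set of labels; the value at the
label `j` consists of the set `fD X j` of the labels on which the step depends, the name `fW X j` of
the word which is coded at the step, and the type of the step.
-/

universe u

set_option linter.unusedSectionVars false

namespace Pool.Agent.Sep

open Pool.Agent.SigB Pool.Agent.Forc Pool.Agent.Frc

/-- The constants: the set `lab` of the labels (`ω₂`), the set `ix` of the indices of the branches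
(`ω₁`), the set `T` of the nodes, the set `hf` (`V_ω`), the set `on` of the pairs `(u, a)` such that
the node `u` is on the branch `a`, the set `kl` of the pairs `(a, (y, e))` such that the promise `a` is
allowed for a word `w` with `y ∈ w` (if `e = 1`) or `y ∉ w` (if `e = 0`), and the function `pi` which
gives for every node the index of a branch through the node for which the promise is always
allowed. -/
structure Cst (M : Type u) where
  lab : M
  ix : M
  T : M
  hf : M
  on : M
  kl : M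
  pi : M

variable {M : Type u} [Membership M M] [IsZFC M]

/-! ### Atoms and conditions -/

/-- The atom `(j, u)`: the node `u` belongs to the real added at the step `j`. -/
noncomputable def nd (j u : M) : M := op j (op em u)

/-- The atom `(j, a)`: the promise to avoid the branch `a` at the step `j`. -/
noncomputable def pm (j a : M) : M := op j (op (sc em) a)

theorem nd.dt : DT (fun w : Fin 2 → M => nd (w 0) (w 1)) := by
  unfold nd; simp (maxDischargeDepth := 50)

@[simp] theorem dt_nd {n : ℕ} {s t : (Fin n → M) → M} (hs : DT s) (ht : DT t) :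
    DT (fun v => nd (s v) (t v)) := dt2 nd.dt hs ht

theorem pm.dt : DT (fun w : Fin 2 → M => pm (w 0) (w 1)) := by
  unfold pm; simp (maxDischargeDepth := 50)

@[simp] theorem dt_pm {n : ℕ} {s t : (Fin n → M) → M} (hs : DT s) (ht : DT t) :
    DT (fun v => pm (s v) (t v)) := dt2 pm.dt hs ht

theorem nd_inj {j u j' u' : M} : nd j u = nd j' u' ↔ j = j' ∧ u = u' := by
  unfold nd; rw [op_inj, op_inj]; tauto

theorem pm_inj {j u j' u' : M} : pm j u = pm j' u' ↔ j = j' ∧ u = u' := by
  unfold pm; rw [op_inj, op_inj]; tauto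

theorem nd_ne_pm {j u j' u' : M} : nd j u ≠ pm j' u' := by
  intro h
  unfold nd pm at h
  rw [op_inj, op_inj] at h
  exact sc_ne_em (em : M) h.2.1.symm

@[simp] theorem fst_nd (j u : M) : fst (nd j u) = j := fst_op _ _

@[simp] theorem fst_pm (j a : M) : fst (pm j a) = j := fst_op _ _

/-- The set of the atoms. -/
noncomputable def atm (K : Cst M) : M :=
  pd K.lab (un (pd (pr em em) K.T) (pd (pr (sc em) (sc em)) K.ix))

theorem mem_atm {K : Cst M} {z : M} : z ∈ atm K ↔
    (∃ j u, j ∈ K.lab ∧ u ∈ K.T ∧ z = nd j u) ∨ ∃ j a, j ∈ K.lab ∧ a ∈ K.ix ∧ z = pm j a := by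
  unfold atm nd pm
  rw [mem_pd]
  constructor
  · rintro ⟨j, hj, y, hy, rfl⟩
    rcases mem_un.1 hy with h | h
    · obtain ⟨x, hx, u, hu, rfl⟩ := mem_pd.1 h
      rw [mem_pr, or_self] at hx
      subst hx
      exact Or.inl ⟨j, u, hj, hu, rfl⟩
    · obtain ⟨x, hx, a, ha, rfl⟩ := mem_pd.1 h
      rw [mem_pr, or_self] at hx
      subst hx
      exact Or.inr ⟨j, a, hj, ha, rfl⟩
  · rintro (⟨j, u, hj, hu, rfl⟩ | ⟨j, a, hj, ha, rfl⟩)
    · exact ⟨j, hj, _, mem_un.2 (Or.inl (op_mem_pd.2 ⟨by simp, hu⟩)), rfl⟩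
    · exact ⟨j, hj, _, mem_un.2 (Or.inr (op_mem_pd.2 ⟨by simp, ha⟩)), rfl⟩

/-- The order of the finite sets of atoms: `q ≤ p`. -/
def Lq (K : Cst M) (q p : M) : Prop :=
  Sb p q ∧ ∀ j u a, nd j u ∈ q → nd j u ∉ p → pm j a ∈ p → op u a ∉ K.on

theorem Lq.dfn (K : Cst M) : Dfn (fun w : Fin 2 → M => Lq K (w 0) (w 1)) := by
  unfold Lq; simp (maxDischargeDepth := 50)

@[simp] theorem dfn_Lq (K : Cst M) {n : ℕ} {s t : (Fin n → M) → M} (hs : DT s) (ht : DT t) :
    Dfn (fun v => Lq K (s v) (t v)) := dfn2 (Lq.dfn K) hs ht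

/-! ### Fields of a system -/

/-- The domain of a function. -/
noncomputable def dm (X : M) : M := im X fst

theorem dm.dt : DT (fun w : Fin 1 → M => dm (w 0)) := by
  unfold dm; simp (maxDischargeDepth := 50)

@[simp] theorem dt_dm {n : ℕ} {s : (Fin n → M) → M} (hs : DT s) : DT (fun v => dm (s v)) :=
  dt1 dm.dt hs

/-- The labels on which the step `j` depends. -/
noncomputable def fD (X j : M) : M := fst (ap X j)

theorem fD.dt : DT (fun w : Fin 2 → M => fD (w 0) (w 1)) := by
  unfold fD; simp (maxDischargeDepth := 50)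

@[simp] theorem dt_fD {n : ℕ} {s t : (Fin n → M) → M} (hs : DT s) (ht : DT t) :
    DT (fun v => fD (s v) (t v)) := dt2 fD.dt hs ht

/-- The name of the word of the step `j`: the set of the `((y, e), b)` such that the condition `b`
decides `y ∈ w` (if `e = 1`) or `y ∉ w` (if `e = 0`). -/
noncomputable def fW (X j : M) : M := fst (snd (ap X j))

theorem fW.dt : DT (fun w : Fin 2 → M => fW (w 0) (w 1)) := by
  unfold fW; simp (maxDischargeDepth := 50)

@[simp] theorem dt_fW {n : ℕ} {s t : (Fin n → M) → M} (hs : DT s) (ht : DT t) :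
    DT (fun v => fW (s v) (t v)) := dt2 fW.dt hs ht

/-- The type of the step `j`: `(0, (O, (k, (a, (b, (g, r))))))` for a tag and `(1, (x, (i, g)))` for a
code at the tag `x`. -/
noncomputable def fT (X j : M) : M := snd (snd (ap X j))

theorem fT.dt : DT (fun w : Fin 2 → M => fT (w 0) (w 1)) := by
  unfold fT; simp (maxDischargeDepth := 50)

@[simp] theorem dt_fT {n : ℕ} {s t : (Fin n → M) → M} (hs : DT s) (ht : DT t) :
    DT (fun v => fT (s v) (t v)) := dt2 fT.dt hs ht

/-- The promises of the condition `p` are justified by the word names. -/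
def Ok (K : Cst M) (X p : M) : Prop :=
  ∀ j a, pm j a ∈ p → ∃ σ b, op σ b ∈ fW X j ∧ Lq K (rs p (fD X j)) b ∧ op a σ ∈ K.kl

theorem Ok.dfn (K : Cst M) : Dfn (fun w : Fin 2 → M => Ok K (w 0) (w 1)) := by
  unfold Ok; simp (maxDischargeDepth := 50)

@[simp] theorem dfn_Ok (K : Cst M) {n : ℕ} {s t : (Fin n → M) → M} (hs : DT s) (ht : DT t) :
    Dfn (fun v => Ok K (s v) (t v)) := dfn2 (Ok.dfn K) hs ht

/-- The set of the conditions. -/
noncomputable def PX (K : Cst M) (X : M) : M :=
  sp (fpw (atm K)) fun p => (∀ z, z ∈ p → fst z ∈ dm X) ∧ Ok K X p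

theorem PX.dt (K : Cst M) : DT (fun w : Fin 1 → M => PX K (w 0)) := by
  unfold PX; simp (maxDischargeDepth := 50)

@[simp] theorem dt_PX (K : Cst M) {n : ℕ} {s : (Fin n → M) → M} (hs : DT s) :
    DT (fun v => PX K (s v)) := dt1 (PX.dt K) hs

theorem mem_PX {K : Cst M} {X p : M} : p ∈ PX K X ↔
    (Sb p (atm K) ∧ Fte p) ∧ (∀ z, z ∈ p → fst z ∈ dm X) ∧ Ok K X p := by
  unfold PX
  rw [mem_sp (by simp (maxDischargeDepth := 50)), mem_fpw]

/-- The order of the conditions. -/
noncomputable def LX (K : Cst M) (X : M) : M :=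
  sp (pd (PX K X) (PX K X)) fun z => Lq K (fst z) (snd z)

theorem LX.dt (K : Cst M) : DT (fun w : Fin 1 → M => LX K (w 0)) := by
  unfold LX; simp (maxDischargeDepth := 50)

@[simp] theorem dt_LX (K : Cst M) {n : ℕ} {s : (Fin n → M) → M} (hs : DT s) :
    DT (fun v => LX K (s v)) := dt1 (LX.dt K) hs

theorem op_mem_LX {K : Cst M} {X q p : M} :
    op q p ∈ LX K X ↔ (q ∈ PX K X ∧ p ∈ PX K X) ∧ Lq K q p := by
  unfold LX
  rw [mem_sp (by simp (maxDischargeDepth := 50)), op_mem_pd, fst_op, snd_op]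

/-! ### Names of sets of hereditarily finite sets -/

/-- `z` is a name over the system `X`. -/
def NM (K : Cst M) (X z : M) : Prop := Sb z (pd K.hf (PX K X)) ∧ Forc.Le z om

theorem NM.dfn (K : Cst M) : Dfn (fun w : Fin 2 → M => NM K (w 0) (w 1)) := by
  unfold NM; simp (maxDischargeDepth := 50)

@[simp] theorem dfn_NM (K : Cst M) {n : ℕ} {s t : (Fin n → M) → M} (hs : DT s) (ht : DT t) :
    Dfn (fun v => NM K (s v) (t v)) := dfn2 (NM.dfn K) hs ht

/-- `q` forces that `x` belongs to the value of the name `z`. -/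
def FM (K : Cst M) (X q x z : M) : Prop :=
  ∀ r, r ∈ PX K X → Lq K r q → ∃ s, s ∈ PX K X ∧ Lq K s r ∧ ∃ b, op x b ∈ z ∧ Lq K s b

theorem FM.dfn (K : Cst M) :
    Dfn (fun w : Fin 4 → M => FM K (w 0) (w 1) (w 2) (w 3)) := by
  unfold FM; simp (maxDischargeDepth := 50)

@[simp] theorem dfn_FM (K : Cst M) {n : ℕ} {s t r q : (Fin n → M) → M} (hs : DT s) (ht : DT t)
    (hr : DT r) (hq : DT q) : Dfn (fun v => FM K (s v) (t v) (r v) (q v)) :=
  dfn4 (FM.dfn K) hs ht hr hq

/-- `q` forces that the values of the names `z` and `z'` are equal. -/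
def FE (K : Cst M) (X q z z' : M) : Prop :=
  ∀ x, x ∈ K.hf → ∀ r, r ∈ PX K X → Lq K r q → (FM K X r x z ↔ FM K X r x z')

theorem FE.dfn (K : Cst M) :
    Dfn (fun w : Fin 4 → M => FE K (w 0) (w 1) (w 2) (w 3)) := by
  unfold FE; simp (maxDischargeDepth := 50)

@[simp] theorem dfn_FE (K : Cst M) {n : ℕ} {s t r q : (Fin n → M) → M} (hs : DT s) (ht : DT t)
    (hr : DT r) (hq : DT q) : Dfn (fun v => FE K (s v) (t v) (r v) (q v)) :=
  dfn4 (FE.dfn K) hs ht hr hq

/-! ### Word names -/

/-- Below `g` the word name `W` decides every `y`. -/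
def Tot (K : Cst M) (X W g : M) : Prop :=
  ∀ r, r ∈ PX K X → Lq K r g → ∀ y, y ∈ K.hf → ∃ s, s ∈ PX K X ∧ Lq K s r ∧
    ∃ e b, op (op y e) b ∈ W ∧ Lq K s b

theorem Tot.dfn (K : Cst M) :
    Dfn (fun w : Fin 3 → M => Tot K (w 0) (w 1) (w 2)) := by
  unfold Tot; simp (maxDischargeDepth := 50)

@[simp] theorem dfn_Tot (K : Cst M) {n : ℕ} {s t r : (Fin n → M) → M} (hs : DT s) (ht : DT t)
    (hr : DT r) : Dfn (fun v => Tot K (s v) (t v) (r v)) :=
  dfn3 (Tot.dfn K) hs ht hr

/-- `W` is a word name over the system `X`: a countable set of decisions by conditions, no two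
compatible conditions give different decisions, and below each of its conditions `W` is total. -/
def WOk (K : Cst M) (X W : M) : Prop :=
  Forc.Le W om ∧
  (∀ w, w ∈ W → ∃ y e b, y ∈ K.hf ∧ e ∈ sc (sc (em : M)) ∧ b ∈ PX K X ∧ w = op (op y e) b) ∧
  (∀ y b b' r, op (op y em) b ∈ W → op (op y (sc em)) b' ∈ W → r ∈ PX K X →
    ¬ (Lq K r b ∧ Lq K r b')) ∧
  ∀ σ b, op σ b ∈ W → Tot K X W b

theorem WOk.dfn (K : Cst M) : Dfn (fun w : Fin 2 → M => WOk K (w 0) (w 1)) := by
  unfold WOk; simp (maxDischargeDepth := 50)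

@[simp] theorem dfn_WOk (K : Cst M) {n : ℕ} {s t : (Fin n → M) → M} (hs : DT s) (ht : DT t) :
    Dfn (fun v => WOk K (s v) (t v)) := dfn2 (WOk.dfn K) hs ht

/-- The word name of the tags (the value is the empty set). -/
noncomputable def W0 (K : Cst M) : M := im K.hf fun y => op (op y (em : M)) (em : M)

theorem mem_W0 {K : Cst M} {w : M} : w ∈ W0 K ↔ ∃ y, y ∈ K.hf ∧ w = op (op y (em : M)) (em : M) := by
  unfold W0
  rw [mem_im (by simp (maxDischargeDepth := 50))]

/-- The decision `e` of `y` by the condition `b` is right for the word of the triple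
`(z, real of the step t, i)`: `y = (0, x)` with `x ∈ z` (no condition), `y = (1, u)` with `u` in the
real of the step `t`, or `y = (2, i)`, or `y = (3, 0)`. -/
def Shp (K : Cst M) (t i y e b : M) : Prop :=
  (∃ x, y = op (em : M) x) ∨
  (∃ u, y = op (sc (em : M)) u ∧ ((e = sc (em : M) ∧ nd t u ∈ b) ∨
    (e = (em : M) ∧ (u ∉ K.T ∨ (pm t (ap K.pi u) ∈ b ∧ nd t u ∉ b))))) ∨
  ((¬ ∃ x, y = op (em : M) x) ∧ (¬ ∃ u, y = op (sc (em : M)) u) ∧
    ((y = op (sc (sc (em : M))) i ∨ y = op (sc (sc (sc (em : M)))) (em : M)) →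
      e = sc (em : M)) ∧
    (¬ (y = op (sc (sc (em : M))) i ∨ y = op (sc (sc (sc (em : M)))) (em : M)) → e = (em : M)))

theorem Shp.dfn (K : Cst M) :
    Dfn (fun w : Fin 5 → M => Shp K (w 0) (w 1) (w 2) (w 3) (w 4)) := by
  unfold Shp; simp (maxDischargeDepth := 50)

@[simp] theorem dfn_Shp (K : Cst M) {n : ℕ} {s t r q p : (Fin n → M) → M} (hs : DT s)
    (ht : DT t) (hr : DT r) (hq : DT q) (hp : DT p) :
    Dfn (fun v => Shp K (s v) (t v) (r v) (q v) (p v)) := dfn5 (Shp.dfn K) hs ht hr hq hp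

/-- The name of the first component of the triple coded by the word name `W`. -/
noncomputable def zn (W : M) : M :=
  im (sp W fun w => ∃ x b, w = op (op (op em x) (sc em)) b) fun w =>
    op (snd (fst (fst w))) (snd w)

theorem zn.dt : DT (fun w : Fin 1 → M => zn (w 0)) := by
  unfold zn; simp (maxDischargeDepth := 50)

@[simp] theorem dt_zn {n : ℕ} {s : (Fin n → M) → M} (hs : DT s) : DT (fun v => zn (s v)) :=
  dt1 zn.dt hs

theorem op_mem_zn {W x b : M} : op x b ∈ zn W ↔ op (op (op em x) (sc em)) b ∈ W := by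
  unfold zn
  rw [mem_im (by simp (maxDischargeDepth := 50))]
  constructor
  · rintro ⟨w, hw, h⟩
    rw [mem_sp (by simp (maxDischargeDepth := 50))] at hw
    obtain ⟨h1, x', b', rfl⟩ := hw
    simp only [fst_op, snd_op] at h
    obtain ⟨rfl, rfl⟩ := op_inj.1 h
    exact h1
  · intro h
    refine ⟨_, (mem_sp (by simp (maxDischargeDepth := 50))).2 ⟨h, x, b, rfl⟩, ?_⟩
    simp

/-! ### Types of steps -/

/-- The step `j` is a tag. -/
def IsTag (X j : M) : Prop := fst (fT X j) = (em : M)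

/-- The step `j` is a code. -/
def IsCode (X j : M) : Prop := fst (fT X j) = sc (em : M)

/-- The open tags of the tag `j`. -/
noncomputable def tO (X j : M) : M := fst (snd (fT X j))

/-- The kind of the tag `j`: `0` for a `Π`-tag and `1` for a `Σ`-tag. -/
noncomputable def tk (X j : M) : M := fst (snd (snd (fT X j)))

/-- The first parameter of the tag `j`. -/
noncomputable def ta (X j : M) : M := fst (snd (snd (snd (fT X j))))

/-- The second parameter of the tag `j`. -/
noncomputable def tb (X j : M) : M := fst (snd (snd (snd (snd (fT X j)))))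

/-- The guard of the tag `j`. -/
noncomputable def tg (X j : M) : M := fst (snd (snd (snd (snd (snd (fT X j))))))

/-- The rank of the tag `j`. -/
noncomputable def tr (X j : M) : M := snd (snd (snd (snd (snd (snd (fT X j))))))

/-- The tag of the code `j`. -/
noncomputable def cx (X j : M) : M := fst (snd (fT X j))

/-- The side of the code `j`. -/
noncomputable def ci (X j : M) : M := fst (snd (snd (fT X j)))

/-- The guard of the code `j`. -/
noncomputable def cg (X j : M) : M := snd (snd (snd (fT X j)))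

/-- The name of the real of the code `j`. -/
noncomputable def cz (X j : M) : M := zn (fW X j)

section dfn

variable {n : ℕ} {s t : (Fin n → M) → M}

@[simp] theorem dfn_IsTag (hs : DT s) (ht : DT t) : Dfn (fun v => IsTag (s v) (t v)) :=
  dfn2 (R := IsTag) (by unfold IsTag; simp (maxDischargeDepth := 50)) hs ht

@[simp] theorem dfn_IsCode (hs : DT s) (ht : DT t) : Dfn (fun v => IsCode (s v) (t v)) :=
  dfn2 (R := IsCode) (by unfold IsCode; simp (maxDischargeDepth := 50)) hs ht

@[simp] theorem dt_tO (hs : DT s) (ht : DT t) : DT (fun v => tO (s v) (t v)) :=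
  dt2 (F := tO) (by unfold tO; simp (maxDischargeDepth := 50)) hs ht

@[simp] theorem dt_tk (hs : DT s) (ht : DT t) : DT (fun v => tk (s v) (t v)) :=
  dt2 (F := tk) (by unfold tk; simp (maxDischargeDepth := 50)) hs ht

@[simp] theorem dt_ta (hs : DT s) (ht : DT t) : DT (fun v => ta (s v) (t v)) :=
  dt2 (F := ta) (by unfold ta; simp (maxDischargeDepth := 50)) hs ht

@[simp] theorem dt_tb (hs : DT s) (ht : DT t) : DT (fun v => tb (s v) (t v)) :=
  dt2 (F := tb) (by unfold tb; simp (maxDischargeDepth := 50)) hs ht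

@[simp] theorem dt_tg (hs : DT s) (ht : DT t) : DT (fun v => tg (s v) (t v)) :=
  dt2 (F := tg) (by unfold tg; simp (maxDischargeDepth := 50)) hs ht

@[simp] theorem dt_tr (hs : DT s) (ht : DT t) : DT (fun v => tr (s v) (t v)) :=
  dt2 (F := tr) (by unfold tr; simp (maxDischargeDepth := 50)) hs ht

@[simp] theorem dt_cx (hs : DT s) (ht : DT t) : DT (fun v => cx (s v) (t v)) :=
  dt2 (F := cx) (by unfold cx; simp (maxDischargeDepth := 50)) hs ht

@[simp] theorem dt_ci (hs : DT s) (ht : DT t) : DT (fun v => ci (s v) (t v)) :=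
  dt2 (F := ci) (by unfold ci; simp (maxDischargeDepth := 50)) hs ht

@[simp] theorem dt_cg (hs : DT s) (ht : DT t) : DT (fun v => cg (s v) (t v)) :=
  dt2 (F := cg) (by unfold cg; simp (maxDischargeDepth := 50)) hs ht

@[simp] theorem dt_cz (hs : DT s) (ht : DT t) : DT (fun v => cz (s v) (t v)) :=
  dt2 (F := cz) (by unfold cz; simp (maxDischargeDepth := 50)) hs ht

end dfn

/-- The conditions on the tag `j` of the system `X`. -/
def TagOk (K : Cst M) (X j : M) : Prop :=
  fT X j = op em (op (tO X j) (op (tk X j) (op (ta X j) (op (tb X j) (op (tg X j) (tr X j)))))) ∧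
  fW X j = W0 K ∧ tr X j ∈ K.lab ∧ tk X j ∈ sc (sc (em : M)) ∧
  NM K (rs X (fD X j)) (ta X j) ∧ NM K (rs X (fD X j)) (tb X j) ∧
  tg X j ∈ PX K (rs X (fD X j)) ∧
  ∀ t, t ∈ tO X j → t ∈ fD X j ∧ IsTag X t ∧ tr X t ∈ tr X j

theorem TagOk.dfn (K : Cst M) : Dfn (fun w : Fin 2 → M => TagOk K (w 0) (w 1)) := by
  unfold TagOk; simp (maxDischargeDepth := 50)

@[simp] theorem dfn_TagOk (K : Cst M) {n : ℕ} {s t : (Fin n → M) → M} (hs : DT s) (ht : DT t) :
    Dfn (fun v => TagOk K (s v) (t v)) := dfn2 (TagOk.dfn K) hs ht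

/-- The conditions on the code `j` of the system `X`. -/
def CodeOk (K : Cst M) (X j : M) : Prop :=
  fT X j = op (sc em) (op (cx X j) (op (ci X j) (cg X j))) ∧
  cx X j ∈ fD X j ∧ IsTag X (cx X j) ∧ ci X j ∈ sc (sc (em : M)) ∧
  cg X j ∈ PX K (rs X (fD X j)) ∧ Lq K (cg X j) (tg X (cx X j)) ∧
  Tot K (rs X (fD X j)) (fW X j) (cg X j) ∧
  ∀ y e b, op (op y e) b ∈ fW X j → Lq K b (cg X j) ∧ Shp K (cx X j) (ci X j) y e b

theorem CodeOk.dfn (K : Cst M) : Dfn (fun w : Fin 2 → M => CodeOk K (w 0) (w 1)) := by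
  unfold CodeOk; simp (maxDischargeDepth := 50)

@[simp] theorem dfn_CodeOk (K : Cst M) {n : ℕ} {s t : (Fin n → M) → M} (hs : DT s) (ht : DT t) :
    Dfn (fun v => CodeOk K (s v) (t v)) := dfn2 (CodeOk.dfn K) hs ht

/-! ### Systems -/

/-- `D` is a closed set of labels of the system `X`. -/
def Cl (X D : M) : Prop := Sb D (dm X) ∧ ∀ j, j ∈ D → Sb (fD X j) D

theorem Cl.dfn : Dfn (fun w : Fin 2 → M => Cl (w 0) (w 1)) := by
  unfold Cl; simp (maxDischargeDepth := 50)

@[simp] theorem dfn_Cl {n : ℕ} {s t : (Fin n → M) → M} (hs : DT s) (ht : DT t) :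
    Dfn (fun v => Cl (s v) (t v)) := dfn2 Cl.dfn hs ht

/-- The conditions on the step `j` of the system `X`. -/
def StOk (K : Cst M) (X j : M) : Prop :=
  ap X j = op (fD X j) (op (fW X j) (fT X j)) ∧ Cl X (fD X j) ∧ j ∉ fD X j ∧
  WOk K (rs X (fD X j)) (fW X j) ∧ (TagOk K X j ∨ CodeOk K X j)

theorem StOk.dfn (K : Cst M) : Dfn (fun w : Fin 2 → M => StOk K (w 0) (w 1)) := by
  unfold StOk; simp (maxDischargeDepth := 50)

@[simp] theorem dfn_StOk (K : Cst M) {n : ℕ} {s t : (Fin n → M) → M} (hs : DT s) (ht : DT t) :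
    Dfn (fun v => StOk K (s v) (t v)) := dfn2 (StOk.dfn K) hs ht

/-- `X` is a system. -/
def IsSys (K : Cst M) (X : M) : Prop :=
  Fn X (dm X) ∧ Sb (dm X) K.lab ∧ Forc.Le (dm X) K.ix ∧ ∀ j, j ∈ dm X → StOk K X j

theorem IsSys.dfn (K : Cst M) : Dfn (fun w : Fin 1 → M => IsSys K (w 0)) := by
  unfold IsSys; simp (maxDischargeDepth := 50)

@[simp] theorem dfn_IsSys (K : Cst M) {n : ℕ} {s : (Fin n → M) → M} (hs : DT s) :
    Dfn (fun v => IsSys K (s v)) := dfn1 (IsSys.dfn K) hs

end Pool.Agent.Sep
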