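import Pool.Agent.Sep.Force
import Pool.Agent.Sep.Idx

/-!
# The forcing relations for the names over a system

The relations `FM` and `FE` of `Pool.Agent.Sep.Idx` in the extension.
-/

universe u

set_option linter.unusedSectionVars false

namespace Pool.Agent.Sep

open Pool.Agent.SigB Pool.Agent.Frc

section

variable {M : Type u} [Membership M M] [IsZFC M] {K : Cst M} {X : M} {G : M → Prop}
  {N : Type u} [Membership N N] {val : M → N}

theorem le_of_Lq (hE : Ext (PX K X) (LX K X) em G val) {q p : M} (hq : G q) (hp : p ∈ PX K X)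
    (h : Lq K q p) : G p :=
  hE.gen.up q p hq (op_mem_LX.2 ⟨⟨hE.gen.mem q hq, hp⟩, h⟩)

/-- The truth lemma for `x ∈ z`. -/
theorem FM.truth (hE : Ext (PX K X) (LX K X) em G val) {x z : M} (hz : NM K X z) :
    val (ck em x) ∈ val (nm em z) ↔ ∃ r, G r ∧ FM K X r x z := by
  rw [hE.cv_mem_val_nm hz.1]
  constructor
  · rintro ⟨p, hp, hx⟩
    exact ⟨p, hp, fun r hr hrp => ⟨r, hr, ⟨Sb.refl r, fun _ _ _ h1 h2 => absurd h1 h2⟩, p, hx, hrp⟩⟩
  · rintro ⟨r, hr, h⟩
    have hd : Dfn (fun w : Fin 1 → M => ∃ b, op x b ∈ z ∧ Lq K (w 0) b) := by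
      simp (maxDischargeDepth := 50)
    obtain ⟨s, hs, b, hb, hsb⟩ := hE.gen.below hE.po (Q := fun s => ∃ b, op x b ∈ z ∧ Lq K s b) hd
      hr fun q hq => by
        obtain ⟨⟨hqP, -⟩, hqr⟩ := op_mem_LX.1 hq
        obtain ⟨s, hs, hsq, b, hb, hsb⟩ := h q hqP hqr
        exact ⟨s, op_mem_LX.2 ⟨⟨hs, hqP⟩, hsq⟩, b, hb, hsb⟩
    exact ⟨b, le_of_Lq hE hs (op_mem_pd.1 (hz.1 _ hb)).2 hsb, hb⟩

/-- A condition in the generic filter which forces `z = z'`. -/
theorem FE.val_eq (hE : Ext (PX K X) (LX K X) em G val) {q z z' : M} (hq : G q) (hz : NM K X z)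
    (hz' : NM K X z') (h : FE K X q z z') : val (nm em z) = val (nm em z') := by
  have key : ∀ z z', NM K X z → NM K X z' → (∀ x, x ∈ K.hf → ∀ r, r ∈ PX K X → Lq K r q →
      FM K X r x z → FM K X r x z') → ∀ y, y ∈ val (nm em z) → y ∈ val (nm em z') := by
    intro z z' hz hz' h y hy
    obtain ⟨x, p, hx, -, rfl⟩ := (hE.mem_val_nm hz.1).1 hy
    obtain ⟨r, hr, hF⟩ := (FM.truth hE hz).1 hy
    obtain ⟨s, hs, hsr, hsq⟩ := hE.gen.dir r q hr hq
    obtain ⟨⟨hsP, -⟩, hsr⟩ := op_mem_LX.1 hsr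
    obtain ⟨-, hsq⟩ := op_mem_LX.1 hsq
    refine (FM.truth hE hz').2 ⟨s, hs, h x (op_mem_pd.1 (hz.1 _ hx)).1 s hsP hsq ?_⟩
    intro t ht hts
    refine hF t ht ⟨hsr.1.trans hts.1, fun j u a h1 h2 h3 => ?_⟩
    by_cases h4 : nd j u ∈ s
    · exact hsr.2 j u a h4 h2 h3
    · exact hts.2 j u a h1 h4 (hsr.1 _ h3)
  exact hE.ext _ _ fun y => ⟨key z z' hz hz' (fun x hx r hr hrq => (h x hx r hr hrq).1) y,
    key z' z hz' hz (fun x hx r hr hrq => (h x hx r hr hrq).2) y⟩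

variable [Countable M]

/-- `FM` from the extensions. -/
theorem FM.of_forall (hP : PO (PX K X) (LX K X) em) {q x z : M} (hq : q ∈ PX K X) (hz : NM K X z)
    (h : ∀ (G : M → Prop) (N : Type u) [Membership N N] [IsZFC N] (val : M → N),
      Ext (PX K X) (LX K X) em G val → G q → val (ck em x) ∈ val (nm em z)) : FM K X q x z := by
  intro r hr hrq
  obtain ⟨G, hG, hGr⟩ := exists_gen hP hr
  obtain ⟨N, i, val, hE⟩ := exists_ext hP hG
  have iz : IsZFC N := hE.isZFC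
  obtain ⟨p, hp, hx⟩ := (hE.cv_mem_val_nm hz.1).1 (h G N val hE (le_of_Lq hE hGr hq hrq))
  obtain ⟨s, hs, hsp, hsr⟩ := hG.dir p r hp hGr
  exact ⟨s, hG.mem s hs, (op_mem_LX.1 hsr).2, p, hx, (op_mem_LX.1 hsp).2⟩

/-- `FE` from the extensions. -/
theorem FE.of_forall (hP : PO (PX K X) (LX K X) em) {q z z' : M} (hq : q ∈ PX K X)
    (hz : NM K X z) (hz' : NM K X z')
    (h : ∀ (G : M → Prop) (N : Type u) [Membership N N] [IsZFC N] (val : M → N),
      Ext (PX K X) (LX K X) em G val → G q → val (nm em z) = val (nm em z')) :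
    FE K X q z z' := by
  intro x hx r hr hrq
  constructor
  · intro hF
    refine FM.of_forall hP hr hz' fun G N _ _ val hE hGr => ?_
    rw [← h G N val hE (le_of_Lq hE hGr hq hrq)]
    exact (FM.truth hE hz).2 ⟨r, hGr, hF⟩
  · intro hF
    refine FM.of_forall hP hr hz fun G N _ _ val hE hGr => ?_
    rw [h G N val hE (le_of_Lq hE hGr hq hrq)]
    exact (FM.truth hE hz').2 ⟨r, hGr, hF⟩

end

/-! ### `Σ¹₃` statements -/

section

variable {M : Type u} [Membership M M] [IsZFC M]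

/-- Over the system `X` the condition `q` forces that `z` belongs to the `Σ¹₃` set given by `a`. -/
def FK (K : Cst M) (X q a z : M) : Prop := FA (PX K X) (LX K X) em q a z

@[simp] theorem dfn_FK (K : Cst M) {n : ℕ} {s t r q : (Fin n → M) → M} (hs : DT s) (ht : DT t)
    (hr : DT r) (hq : DT q) : Dfn (fun v => FK K (s v) (t v) (r v) (q v)) := by
  unfold FK
  simp (maxDischargeDepth := 50) [hs, ht, hr, hq]

variable {K : Cst M} {X Y q r a z z' : M}

theorem FK.mem (h : FK K X q a z) : q ∈ PX K X := FA.mem h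

/-- The law `fa_mono`. -/
theorem FK.mono (hP : PO (PX K X) (LX K X) em) (h : FK K X q a z) (hr : r ∈ PX K X)
    (hrq : Lq K r q) : FK K X r a z := FA.mono hP h (op_mem_LX.2 ⟨⟨hr, h.mem⟩, hrq⟩)

theorem FK.dense (hP : PO (PX K X) (LX K X) em) (hq : q ∈ PX K X)
    (h : ∀ r, r ∈ PX K X → Lq K r q → ∃ s, s ∈ PX K X ∧ Lq K s r ∧ FK K X s a z) :
    FK K X q a z :=
  FA.dense hP hq fun r hr => by
    obtain ⟨⟨h1, -⟩, h2⟩ := op_mem_LX.1 hr
    obtain ⟨s, h3, h4, h5⟩ := h r h1 h2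
    exact ⟨s, op_mem_LX.2 ⟨⟨h3, h1⟩, h4⟩, h5⟩

theorem FK.truth {G : M → Prop} {N : Type u} [Membership N N] [IsZFC N] {val : M → N}
    (hE : Ext (PX K X) (LX K X) em G val) (a z : M) :
    SigR (val (nm em a)) (val (nm em z)) ↔ ∃ p, G p ∧ FK K X p a z := FA.truth hE a z

variable [Countable M]

theorem FK.of_forall (hP : PO (PX K X) (LX K X) em) (hq : q ∈ PX K X)
    (h : ∀ (G : M → Prop) (N : Type u) [Membership N N] [IsZFC N] (val : M → N),
      Ext (PX K X) (LX K X) em G val → G q → SigR (val (nm em a)) (val (nm em z))) :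
    FK K X q a z := FA.of_forall hP hq h

/-- The law `fa_up`. -/
theorem FK.up (hXY : CSub (PX K X) (LX K X) (PX K Y) (LX K Y) em) (ha : NM K X a)
    (hz : NM K X z) (h : FK K X q a z) : FK K Y q a z := FA.up hXY ha.1 hz.1 h

/-- The law `fa_congr`. -/
theorem FK.congr (hP : PO (PX K X) (LX K X) em) (hz : NM K X z) (hz' : NM K X z')
    (he : FE K X q z z') (h : FK K X q a z) : FK K X q a z' := by
  refine FK.of_forall hP h.mem fun G N _ _ val hE hGq => ?_
  rw [← FE.val_eq hE hGq hz hz' he]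
  exact (FK.truth hE a z).2 ⟨q, hGq, h⟩

end

end Pool.Agent.Sep
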