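import Pool.Agent.Sep.SubExt

/-!
# Isomorphic preorders and transport of names

`f : P → P'` is an isomorphism of preorders (with inverse `g`); `tn P f x` is the name which is
obtained from `x` by replacing the conditions `r` by `f r` (hereditarily). The forcing relation is
invariant.
-/

universe u

set_option linter.unusedSectionVars false

namespace Pool.Agent.Sep

open Pool.Agent.SigB Pool.Agent.Frc

variable {M : Type u} [Membership M M] [IsZFC M]

/-! ### Transport of names -/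

/-- `g` computes the transport of names along `f` on the transitive set `t`. -/
def IsTn (P f g t : M) : Prop :=
  Fn g t ∧ ∀ x, x ∈ t → ∀ z, z ∈ ap g x ↔ ∃ y r, op y r ∈ x ∧ r ∈ P ∧ z = op (ap g y) (ap f r)

theorem IsTn.dfn : Dfn (fun w : Fin 4 → M => IsTn (w 0) (w 1) (w 2) (w 3)) := by
  unfold IsTn; simp (maxDischargeDepth := 50)

@[simp] theorem dfn_IsTn {n : ℕ} {s t r q : (Fin n → M) → M} (hs : DT s) (ht : DT t) (hr : DT r)
    (hq : DT q) : Dfn (fun v => IsTn (s v) (t v) (r v) (q v)) := dfn4 IsTn.dfn hs ht hr hq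

theorem exists_isTn (P f : M) {t : M} (ht : Tr t) : ∃ g, IsTn P f g t := by
  let r : M := sp (pd t t) fun z => ∃ x y, z = op y x ∧ ∃ p, op y p ∈ x
  have hr : ∀ x y, op y x ∈ r ↔ (y ∈ t ∧ x ∈ t) ∧ ∃ p, op y p ∈ x := by
    intro x y
    show op y x ∈ sp (pd t t) (fun z => ∃ x y, z = op y x ∧ ∃ p, op y p ∈ x) ↔ _
    rw [mem_sp (by simp (maxDischargeDepth := 50)), op_mem_pd]
    refine and_congr_right fun _ => ?_
    constructor
    · rintro ⟨x', y', h, h'⟩
      obtain ⟨rfl, rfl⟩ := op_inj.1 h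
      exact h'
    · intro h
      exact ⟨x, y, rfl, h⟩
  have hwf : Wf t r := by
    intro S hS hne
    by_contra hno
    push Not at hno
    have key : ∀ x, x ∉ S := by
      refine name_ind (Q := fun x => x ∉ S) (by simp (maxDischargeDepth := 50)) ?_
      intro x ih hx
      obtain ⟨y, hy, hyr⟩ := hno _ hx
      obtain ⟨-, p, hp⟩ := (hr x y).1 hyr
      exact ih y p hp hy
    obtain ⟨x, hx⟩ := hne
    exact key x hx
  let G : M → M → M := fun x h => sp (pd (im (sU (sU x)) (ap h)) (im P (ap f)))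
    fun z => ∃ y r, op y r ∈ x ∧ r ∈ P ∧ z = op (ap h y) (ap f r)
  have hG : DT (fun w : Fin 2 → M => G (w 0) (w 1)) := by
    simp (maxDischargeDepth := 50) [G]
  obtain ⟨g, hg, hgr⟩ := recursion hwf hG
  refine ⟨g, hg, fun x hx z => ?_⟩
  have hd : DT (fun w : Fin 1 → M => ap (rs g (prd t r x)) (w 0)) := by
    simp (maxDischargeDepth := 50)
  have hd' : DT (fun w : Fin 1 → M => ap f (w 0)) := by
    simp (maxDischargeDepth := 50)
  have hres : ∀ y p, op y p ∈ x → ap (rs g (prd t r x)) y = ap g y := by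
    intro y p h
    refine ap_rs hg (fun u hu => (mem_prd.1 hu).1) ?_
    exact mem_prd.2 ⟨mem_of_op_mem ht hx h, (hr x y).2 ⟨⟨mem_of_op_mem ht hx h, hx⟩, p, h⟩⟩
  rw [hgr x hx]
  show z ∈ sp (pd (im (sU (sU x)) (ap (rs g (prd t r x)))) (im P (ap f)))
    (fun z => ∃ y r', op y r' ∈ x ∧ r' ∈ P ∧ z = op (ap (rs g (prd t r x)) y) (ap f r')) ↔ _
  rw [mem_sp (by simp (maxDischargeDepth := 50))]
  constructor
  · rintro ⟨-, y, p, h1, h2, rfl⟩
    exact ⟨y, p, h1, h2, by rw [hres y p h1]⟩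
  · rintro ⟨y, p, h1, h2, rfl⟩
    refine ⟨op_mem_pd.2 ⟨(mem_im hd).2 ⟨y, ?_, (hres y p h1).symm⟩, (mem_im hd').2 ⟨p, h2, rfl⟩⟩,
      y, p, h1, h2, ?_⟩
    · refine mem_sU.2 ⟨pr y y, mem_sU.2 ⟨op y p, h1, ?_⟩, by simp⟩
      unfold op
      simp
    · rw [hres y p h1]

theorem IsTn.agree {P f g g' t s : M} (ht : Tr t) (hs : Tr s) (hg : IsTn P f g t)
    (hg' : IsTn P f g' s) (x : M) : x ∈ t → x ∈ s → ap g x = ap g' x := by
  refine name_ind (Q := fun x => x ∈ t → x ∈ s → ap g x = ap g' x)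
    (by simp (maxDischargeDepth := 50)) (fun x ih hxt hxs => ?_) x
  refine ext' fun z => ?_
  rw [hg.2 x hxt, hg'.2 x hxs]
  refine exists_congr fun y => exists_congr fun p => and_congr_right fun hy => ?_
  rw [ih y p hy (mem_of_op_mem ht hxt hy) (mem_of_op_mem hs hxs hy)]

/-- The transport of a name along the function `f` on `P`. -/
noncomputable def tn (P f x : M) : M :=
  cp fun z => ∃ g t, Tr t ∧ x ∈ t ∧ IsTn P f g t ∧ z ∈ ap g x

theorem tn.dt : DT (fun w : Fin 3 → M => tn (w 0) (w 1) (w 2)) := by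
  unfold tn; simp (maxDischargeDepth := 50)

@[simp] theorem dt_tn {n : ℕ} {s t r : (Fin n → M) → M} (hs : DT s) (ht : DT t) (hr : DT r) :
    DT (fun v => tn (s v) (t v) (r v)) := dt3 tn.dt hs ht hr

theorem tn_eq {P f g t x : M} (ht : Tr t) (hx : x ∈ t) (hg : IsTn P f g t) :
    tn P f x = ap g x := by
  have h1 : ∀ z, z ∈ ap g x ↔ ∃ g t, Tr t ∧ x ∈ t ∧ IsTn P f g t ∧ z ∈ ap g x := by
    intro z
    constructor
    · exact fun hz => ⟨g, t, ht, hx, hg, hz⟩
    · rintro ⟨g', s, hs, hxs, hg', hz⟩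
      rwa [hg.agree ht hs hg' x hx hxs]
  refine ext' fun z => ?_
  unfold tn
  rw [mem_cp ⟨ap g x, h1⟩, ← h1]

theorem mem_tn {P f x z : M} :
    z ∈ tn P f x ↔ ∃ y r, op y r ∈ x ∧ r ∈ P ∧ z = op (tn P f y) (ap f r) := by
  obtain ⟨t, ht, hx⟩ := exists_tr x
  obtain ⟨g, hg⟩ := exists_isTn P f ht
  rw [tn_eq ht hx hg, hg.2 x hx]
  refine exists_congr fun y => exists_congr fun p => and_congr_right fun hy => ?_
  rw [tn_eq ht (mem_of_op_mem ht hx hy) hg]

theorem op_mem_tn {P f x w s : M} :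
    op w s ∈ tn P f x ↔ ∃ y r, op y r ∈ x ∧ r ∈ P ∧ w = tn P f y ∧ s = ap f r := by
  rw [mem_tn]
  refine exists_congr fun y => exists_congr fun r => and_congr_right fun _ =>
    and_congr_right fun _ => op_inj

/-! ### Congruence of the forcing relation -/

theorem frc_congr {P le one : M} (hP : PO P le one) : ∀ {n : ℕ} (φ : Fml M n) {p : M}
    {v v' : Fin n → M}, (∀ i, EqF P le (v i) (v' i) p) → Fc P le φ p v → Fc P le φ p v'
  | _, .mem s t, p, v, v', h, hf => by
    have key : ∀ s : Fin _ ⊕ M, EqF P le (Sum.elim v id s) (Sum.elim v' id s) p := by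
      rintro (i | a)
      · exact h i
      · exact eqF_refl hP _ _ hf.1
    exact (MemF.congr_right hP (MemF.congr_left hP hf (key s)) (key t))
  | _, .eq s t, p, v, v', h, hf => by
    have hp : p ∈ P := EqF.mem hf
    have key : ∀ s : Fin _ ⊕ M, EqF P le (Sum.elim v id s) (Sum.elim v' id s) p := by
      rintro (i | a)
      · exact h i
      · exact eqF_refl hP _ _ hp
    exact EqF.trans hP ((key s).symm hP) (EqF.trans hP hf (key t))
  | _, .neg φ, p, v, v', h, hf => ⟨hf.1, fun q hq hq' => hf.2 q hq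
      (frc_congr hP φ (fun i => ((h i).mono hP hq).symm hP) hq')⟩
  | _, .and φ ψ, p, v, v', h, hf => ⟨frc_congr hP φ h hf.1, frc_congr hP ψ h hf.2⟩
  | _, .ex φ, p, v, v', h, hf => ⟨hf.1, fun q hq => by
      obtain ⟨s, hs, x, hx⟩ := hf.2 q hq
      refine ⟨s, hs, x, frc_congr hP φ (fun i => ?_) hx⟩
      refine Fin.cases ?_ (fun i => ?_) i
      · exact eqF_refl hP _ _ (hP.sub _ _ hs).1
      · exact ((h i).mono hP hq).mono hP hs⟩

/-- A name is equal to its restriction to the set of conditions. -/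
theorem eqF_rn {P le one : M} (hP : PO P le one) (x : M) : ∀ p, p ∈ P → EqF P le x (rn P x) p := by
  refine name_ind (Q := fun x => ∀ p, p ∈ P → EqF P le x (rn P x) p)
    (by simp (maxDischargeDepth := 50)) (fun x ih p hp => ?_) x
  rw [eqF_iff hP hp]
  constructor
  · intro z r hz q hqp hqr
    have hq := hP.sub _ _ hqr
    exact ⟨q, hP.refl _ hq.1, rn P z, r, op_mem_rn.2 ⟨hq.2, z, hz, rfl⟩, hqr, ih z r hz q hq.1⟩
  · intro w r hw q hqp hqr
    have hq := hP.sub _ _ hqr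
    obtain ⟨-, z, hz, rfl⟩ := op_mem_rn.1 hw
    exact ⟨q, hP.refl _ hq.1, z, r, hz, hqr, ih z r hz q hq.1⟩

/-! ### Isomorphisms -/

/-- `f` is an isomorphism from the preorder `(P, le)` to the preorder `(P', le')` with inverse
`g`. -/
structure PIso (f g P le one P' le' one' : M) : Prop where
  po : PO P le one
  po' : PO P' le' one'
  map : ∀ p, p ∈ P → ap f p ∈ P'
  map' : ∀ p, p ∈ P' → ap g p ∈ P
  left : ∀ p, p ∈ P → ap g (ap f p) = p
  right : ∀ p, p ∈ P' → ap f (ap g p) = p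
  le_iff : ∀ p q, p ∈ P → q ∈ P → (op (ap f p) (ap f q) ∈ le' ↔ op p q ∈ le)
  one_eq : ap f one = one'

variable {f g P le one P' le' one' : M}

theorem PIso.symm (h : PIso f g P le one P' le' one') : PIso g f P' le' one' P le one where
  po := h.po'
  po' := h.po
  map := h.map'
  map' := h.map
  left := h.right
  right := h.left
  le_iff p q hp hq := by
    rw [← h.le_iff _ _ (h.map' p hp) (h.map' q hq), h.right p hp, h.right q hq]
  one_eq := by rw [← h.one_eq, h.left _ h.po.one_mem]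

theorem PIso.lift (h : PIso f g P le one P' le' one') {p q : M} (hpq : op p q ∈ le) :
    op (ap f p) (ap f q) ∈ le' :=
  (h.le_iff p q (h.po.sub _ _ hpq).1 (h.po.sub _ _ hpq).2).2 hpq

theorem PIso.lower (h : PIso f g P le one P' le' one') {p q : M} (hq : q ∈ P)
    (hpq : op p (ap f q) ∈ le') : op (ap g p) q ∈ le := by
  have h1 := h.symm.lift hpq
  rwa [h.left q hq] at h1

theorem PIso.tn_tn (h : PIso f g P le one P' le' one') (x : M) :
    tn P' g (tn P f x) = rn P x := by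
  refine name_ind (Q := fun x => tn P' g (tn P f x) = rn P x) (by simp (maxDischargeDepth := 50))
    (fun x ih => ?_) x
  refine ext' fun z => ?_
  rw [mem_tn, mem_rn]
  constructor
  · rintro ⟨y, r, h1, h2, rfl⟩
    obtain ⟨w, s, h3, h4, rfl, rfl⟩ := op_mem_tn.1 h1
    exact ⟨w, s, h3, h4, by rw [ih w s h3, h.left s h4]⟩
  · rintro ⟨w, s, h3, h4, rfl⟩
    exact ⟨tn P f w, ap f s, op_mem_tn.2 ⟨w, s, h3, h4, rfl, rfl⟩, h.map s h4, by
      rw [ih w s h3, h.left s h4]⟩

theorem tn_ck (h : one ∈ P) (h1 : ap f one = one') (x : M) :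
    tn P f (ck one x) = ck one' x := by
  refine mem_ind (Q := fun x => tn P f (ck one x) = ck one' x) (by simp (maxDischargeDepth := 50))
    (fun x ih => ?_) x
  refine ext' fun z => ?_
  rw [mem_tn, mem_ck]
  constructor
  · rintro ⟨y, r, h2, -, rfl⟩
    obtain ⟨rfl, y, hy, rfl⟩ := op_mem_ck.1 h2
    exact ⟨y, hy, by rw [ih y hy, h1]⟩
  · rintro ⟨y, hy, rfl⟩
    exact ⟨ck one y, one, op_mem_ck.2 ⟨rfl, y, hy, rfl⟩, h, by rw [ih y hy, h1]⟩

theorem PIso.eqF (h : PIso f g P le one P' le' one') (x : M) : ∀ y p,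
    EqF P le x y p → EqF P' le' (tn P f x) (tn P f y) (ap f p) := by
  refine name_ind (Q := fun x => ∀ y p,
    EqF P le x y p → EqF P' le' (tn P f x) (tn P f y) (ap f p))
    (by simp (maxDischargeDepth := 50)) (fun x ih y p he => ?_) x
  have hp := he.mem
  have he' := he
  rw [eqF_iff h.po hp] at he'
  rw [eqF_iff h.po' (h.map p hp)]
  constructor
  · intro z' r' hz' q' hqp hqr
    obtain ⟨z, r, hz, hr, rfl, rfl⟩ := op_mem_tn.1 hz'
    obtain ⟨s, hs, w, t, hw, hst, hEq⟩ := he'.1 z r hz (ap g q') (h.lower hp hqp) (h.lower hr hqr)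
    have h1 := h.lift hs
    rw [h.right q' (h.po'.sub _ _ hqp).1] at h1
    exact ⟨ap f s, h1, tn P f w, ap f t, op_mem_tn.2 ⟨w, t, hw, (h.po.sub _ _ hst).2, rfl, rfl⟩,
      h.lift hst, ih z r hz w s hEq⟩
  · intro w' t' hw' q' hqp hqt
    obtain ⟨w, t, hw, ht, rfl, rfl⟩ := op_mem_tn.1 hw'
    obtain ⟨s, hs, z, r, hz, hsr, hEq⟩ := he'.2 w t hw (ap g q') (h.lower hp hqp) (h.lower ht hqt)
    have h1 := h.lift hs
    rw [h.right q' (h.po'.sub _ _ hqp).1] at h1
    exact ⟨ap f s, h1, tn P f z, ap f r, op_mem_tn.2 ⟨z, r, hz, (h.po.sub _ _ hsr).2, rfl, rfl⟩,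
      h.lift hsr, ih z r hz w s hEq⟩

theorem PIso.memF (h : PIso f g P le one P' le' one') {x y p : M} (he : MemF P le x y p) :
    MemF P' le' (tn P f x) (tn P f y) (ap f p) := by
  refine ⟨h.map p he.1, fun q' hqp => ?_⟩
  obtain ⟨s, hs, w, t, hw, hst, hEq⟩ := he.2 (ap g q') (h.lower he.1 hqp)
  have h1 := h.lift hs
  rw [h.right q' (h.po'.sub _ _ hqp).1] at h1
  exact ⟨ap f s, h1, tn P f w, ap f t, op_mem_tn.2 ⟨w, t, hw, (h.po.sub _ _ hst).2, rfl, rfl⟩,
    h.lift hst, h.eqF x w s hEq⟩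

theorem PIso.eqF_iff (h : PIso f g P le one P' le' one') {x y p : M} (hp : p ∈ P) :
    EqF P' le' (tn P f x) (tn P f y) (ap f p) ↔ EqF P le x y p := by
  refine ⟨fun he => ?_, h.eqF x y p⟩
  have h1 := h.symm.eqF _ _ _ he
  rw [h.tn_tn, h.tn_tn, h.left p hp] at h1
  exact ((eqF_rn h.po x p hp).trans h.po h1).trans h.po ((eqF_rn h.po y p hp).symm h.po)

theorem PIso.memF_iff (h : PIso f g P le one P' le' one') {x y p : M} (hp : p ∈ P) :
    MemF P' le' (tn P f x) (tn P f y) (ap f p) ↔ MemF P le x y p := by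
  refine ⟨fun he => ?_, h.memF⟩
  have h1 := h.symm.memF he
  rw [h.tn_tn, h.tn_tn, h.left p hp] at h1
  exact MemF.congr_right h.po (MemF.congr_left h.po h1 ((eqF_rn h.po x p hp).symm h.po))
    ((eqF_rn h.po y p hp).symm h.po)

/-- **Invariance of the forcing relation** under isomorphisms. -/
theorem PIso.frc (h : PIso f g P le one P' le' one') : ∀ {n : ℕ} (φ : Fml M n) {p : M}
    {v : Fin n → M}, p ∈ P →
    (Fc P' le' (mapP (tn P f) φ) (ap f p) (fun i => tn P f (v i)) ↔ Fc P le φ p v)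
  | _, .mem s t, p, v, hp => by
    show MemF P' le' (Sum.elim (fun i => tn P f (v i)) id (Sum.map id (tn P f) s))
      (Sum.elim (fun i => tn P f (v i)) id (Sum.map id (tn P f) t)) (ap f p) ↔ _
    rw [elim_mapP, elim_mapP, h.memF_iff hp]
    rfl
  | _, .eq s t, p, v, hp => by
    show EqF P' le' (Sum.elim (fun i => tn P f (v i)) id (Sum.map id (tn P f) s))
      (Sum.elim (fun i => tn P f (v i)) id (Sum.map id (tn P f) t)) (ap f p) ↔ _
    rw [elim_mapP, elim_mapP, h.eqF_iff hp]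
    rfl
  | _, .neg φ, p, v, hp => by
    constructor
    · rintro ⟨-, h2⟩
      refine ⟨hp, fun q hq hq' => h2 (ap f q) (h.lift hq) ?_⟩
      exact (PIso.frc h φ (h.po.sub _ _ hq).1).2 hq'
    · rintro ⟨-, h2⟩
      refine ⟨h.map p hp, fun q' hq hq' => h2 (ap g q') (h.lower hp hq) ?_⟩
      have h3 := (h.po'.sub _ _ hq).1
      refine (PIso.frc h φ (h.map' q' h3)).1 ?_
      rwa [h.right q' h3]
  | _, .and φ ψ, p, v, hp =>
    and_congr (PIso.frc h φ hp) (PIso.frc h ψ hp)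
  | _, .ex φ, p, v, hp => by
    have hcons : ∀ x : M, (Fin.cons (tn P f x) fun i => tn P f (v i) : Fin _ → M) =
        fun i => tn P f ((Fin.cons x v : Fin _ → M) i) := by
      intro x
      funext i
      refine Fin.cases ?_ (fun i => ?_) i <;> rfl
    constructor
    · rintro ⟨-, h2⟩
      refine ⟨hp, fun q hq => ?_⟩
      obtain ⟨s', hs, x', hx⟩ := h2 (ap f q) (h.lift hq)
      have hs' := (h.po'.sub _ _ hs).1
      refine ⟨ap g s', h.lower (h.po.sub _ _ hq).1 hs, tn P' g x', ?_⟩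
      refine (PIso.frc h φ (h.map' s' hs')).1 ?_
      rw [h.right s' hs', ← hcons, h.symm.tn_tn]
      refine frc_congr h.po' _ (fun i => ?_) hx
      refine Fin.cases ?_ (fun i => ?_) i
      · exact eqF_rn h.po' _ _ hs'
      · exact eqF_refl h.po' _ _ hs'
    · rintro ⟨-, h2⟩
      refine ⟨h.map p hp, fun q' hq => ?_⟩
      obtain ⟨s, hs, x, hx⟩ := h2 (ap g q') (h.lower hp hq)
      have h1 := h.lift hs
      rw [h.right q' (h.po'.sub _ _ hq).1] at h1
      refine ⟨ap f s, h1, tn P f x, ?_⟩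
      rw [hcons]
      exact (PIso.frc h φ (h.po.sub _ _ hs).1).2 hx

end Pool.Agent.Sep
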