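import Pool.Agent.Sep.CSubX
import Pool.Agent.Sep.ForceK

/-!
# The laws of the forcing relation for `Σ¹₃` statements
-/

universe u

set_option linter.unusedSectionVars false

namespace Pool.Agent.Sep

open Pool.Agent.SigB Pool.Agent.Frc

variable {M : Type u} [Membership M M] [IsZFC M]

/-- The frame of the constants `K` with the forcing relation `FK`. -/
noncomputable def frm (K : Cst M) : Frm M where
  toCst := K
  F := FK K
  dfnF := by simp (maxDischargeDepth := 50)

@[simp] theorem frm_toCst (K : Cst M) : (frm K).toCst = K := rfl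

@[simp] theorem frm_F (K : Cst M) : (frm K).F = FK K := rfl

variable {K : Cst M} {X Y q r a z z' : M}

theorem fk_mono (h : FK K X q a z) (hr : r ∈ PX K X) (hrq : Lq K r q) : FK K X r a z :=
  h.mono (po_PX K X) hr hrq

theorem fk_dense (hq : q ∈ PX K X)
    (h : ∀ r, r ∈ PX K X → Lq K r q → ∃ s, s ∈ PX K X ∧ Lq K s r ∧ FK K X s a z) :
    FK K X q a z := FK.dense (po_PX K X) hq h

variable [Countable M]

theorem fk_up (hX : IsSys K X) (hY : IsSys K Y) (hXY : Sb X Y) (ha : NM K X a) (hz : NM K X z)
    (h : FK K X q a z) : FK K Y q a z := h.up (hX.cSub hY hXY) ha hz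

theorem fk_congr (hz : NM K X z) (hz' : NM K X z') (he : FE K X q z z') (h : FK K X q a z) :
    FK K X q a z' := h.congr (po_PX K X) hz hz' he

end Pool.Agent.Sep
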