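import Pool.Agent.Sep.Act
import Pool.Agent.Sep.Iso
import Pool.Agent.Sep.ForceK
import Pool.Agent.Sep.CSubX
import Pool.Agent.Sep.LawF

/-!
# The forcing relation under an involution of the labels
-/

universe u

set_option linter.unusedSectionVars false

namespace Pool.Agent.Sep

open Pool.Agent.SigB Pool.Agent.Forc Pool.Agent.Frc

variable {M : Type u} [Membership M M] [IsZFC M] {f g P le one P' le' one' : M}

/-- Invariance of the forcing relation for `Σ¹₃` sets under isomorphisms. -/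
theorem PIso.fSigR (h : PIso f g P le one P' le' one') {p T z : M} (hp : p ∈ P) :
    FSigR P' le' (ap f p) (tn P f T) (tn P f z) ↔ FSigR P le p T z := by
  have h1 := PIso.frc h (toM u0_SigR2.{u}.choose) (p := p) (v := ![T, z]) hp
  rw [mapP_toM] at h1
  have h2 : (fun i => tn P f ((![T, z] : Fin 2 → M) i)) = ![tn P f T, tn P f z] := by
    funext i
    refine Fin.cases rfl (fun i => ?_) i
    refine Fin.cases rfl (fun i => i.elim0) i
  rw [h2] at h1
  exact h1

variable {K : Cst M} {h : M} (hh : Inv K h)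

include hh

/-- The isomorphism of the forcings. -/
theorem Inv.pIso {X : M} (hX : Pre K X) :
    PIso (lam (PX K X) fun p => aC h p) (lam (PX K (aX h X)) fun p => aC h p)
      (PX K X) (LX K X) em (PX K (aX h X)) (LX K (aX h X)) em := by
  have hd : DT (fun w : Fin 1 → M => aC h (w 0)) := by simp (maxDischargeDepth := 50)
  have hX' := hh.pre hX
  have e : aX h (aX h X) = X := hh.aX_aX hX
  have hm : ∀ p, p ∈ PX K (aX h X) → aC h p ∈ PX K X := by
    intro p hp
    have h1 := hh.mem_PX' hX' hp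
    rwa [e] at h1
  refine ⟨po_PX K X, po_PX K _, fun p hp => ?_, fun p hp => ?_, fun p hp => ?_, fun p hp => ?_,
    fun p q hp hq => ?_, ?_⟩
  · rw [ap_lam hd hp]
    exact hh.mem_PX' hX hp
  · rw [ap_lam hd hp]
    exact hm p hp
  · rw [ap_lam hd hp, ap_lam hd (hh.mem_PX' hX hp)]
    exact hh.aC_aC (sub_of_PX hp)
  · rw [ap_lam hd hp, ap_lam hd (hm p hp)]
    exact hh.aC_aC (sub_of_PX hp)
  · rw [ap_lam hd hp, ap_lam hd hq, op_mem_LX, op_mem_LX]
    have h1 := hh.mem_PX' hX hp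
    have h2 := hh.mem_PX' hX hq
    have h3 := hh.lq (sub_of_PX hq) (sub_of_PX hp)
    constructor
    · exact fun h4 => ⟨⟨hp, hq⟩, h3.1 h4.2⟩
    · exact fun h4 => ⟨⟨h1, h2⟩, h3.2 h4.2⟩
  · rw [ap_lam hd (po_PX K X).one_mem]
    exact aC_em

/-- The transport of the names. -/
theorem Inv.tn_nm {X z : M} (hX : Pre K X) (hz : Sb z (pd K.hf (PX K X))) :
    tn (PX K X) (lam (PX K X) fun p => aC h p) (Sep.nm em z) =
      Sep.nm em (aN h z) := by
  have hd : DT (fun w : Fin 1 → M => aC h (w 0)) := by simp (maxDischargeDepth := 50)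
  have hz' : Sb (aN h z) (pd K.hf (PX K (aX h X))) := by
    intro w hw
    obtain ⟨s, b, h1, rfl⟩ := (mem_aN' (nm_an hz)).1 hw
    obtain ⟨h2, h3⟩ := op_mem_pd.1 (hz _ h1)
    exact op_mem_pd.2 ⟨h2, hh.mem_PX' hX h3⟩
  have hone : ap (lam (PX K X) fun p => aC h p) (SigB.em : M) = SigB.em := by
    rw [ap_lam hd (po_PX K X).one_mem]
    exact aC_em
  refine ext' fun w => ?_
  rw [mem_tn, mem_nm]
  constructor
  · rintro ⟨y, r, h1, h2, rfl⟩
    obtain ⟨a, ha, rfl⟩ := (op_mem_nm hz).1 h1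
    refine ⟨op a (aC h r), (op_mem_aN' (nm_an hz)).2 ⟨r, ha, rfl⟩, ?_⟩
    rw [fst_op, snd_op, ap_lam hd h2, tn_ck (po_PX K X).one_mem hone]
  · rintro ⟨x, hx, rfl⟩
    obtain ⟨s, b, h1, rfl⟩ := (mem_aN' (nm_an hz)).1 hx
    have hb := (op_mem_pd.1 (hz _ h1)).2
    refine ⟨ck em s, b, (op_mem_nm hz).2 ⟨s, h1, rfl⟩, hb, ?_⟩
    rw [fst_op, snd_op, ap_lam hd hb, tn_ck (po_PX K X).one_mem hone]

/-- **Invariance** of the forcing relation for `Σ¹₃` sets under an involution of the labels. -/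
theorem Inv.fK {X q a z : M} (hX : Pre K X) (hq : q ∈ PX K X) (ha : Sb a (pd K.hf (PX K X)))
    (hz : Sb z (pd K.hf (PX K X))) :
    FK K (aX h X) (aC h q) (aN h a) (aN h z) ↔ FK K X q a z := by
  have hd : DT (fun w : Fin 1 → M => aC h (w 0)) := by simp (maxDischargeDepth := 50)
  have h1 := (hh.pIso hX).fSigR (T := Sep.nm em a) (z := Sep.nm em z) hq
  rw [hh.tn_nm hX ha, hh.tn_nm hX hz, ap_lam hd hq] at h1
  exact h1

theorem Inv.frm_F_iff {X q a z : M} (hX : IsSys K X) (hq : q ∈ PX K X) (ha : NM K X a)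
    (hz : NM K X z) : (frm K).F (aX h X) (aC h q) (aN h a) (aN h z) ↔ (frm K).F X q a z :=
  hh.fK hX.pre hq ha.1 hz.1

theorem Inv.frm_F {X q a z : M} (hX : IsSys K X) (hq : q ∈ PX K X) (ha : NM K X a)
    (hz : NM K X z) (hF : (frm K).F X q a z) :
    (frm K).F (aX h X) (aC h q) (aN h a) (aN h z) := (hh.frm_F_iff hX hq ha hz).2 hF

end Pool.Agent.Sep
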