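import Pool.Agent.Sep.Rul

/-!
# The action of an involution of the labels

An involution `h` of the set of the labels acts on atoms, conditions, names, steps and systems.
-/

universe u

set_option linter.unusedSectionVars false

namespace Pool.Agent.Sep

open Pool.Agent.SigB Pool.Agent.Forc Pool.Agent.Frc

variable {M : Type u} [Membership M M] [IsZFC M]

/-! ### Images -/

theorem im_im {a : M} {F G : M → M} (hF : DT (fun w : Fin 1 → M => F (w 0)))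
    (hG : DT (fun w : Fin 1 → M => G (w 0))) : im (im a F) G = im a fun x => G (F x) := by
  have hFG : DT (fun w : Fin 1 → M => G (F (w 0))) := dt1 hG hF
  refine ext' fun z => ?_
  rw [mem_im hG, mem_im hFG]
  constructor
  · rintro ⟨y, hy, rfl⟩
    obtain ⟨x, hx, rfl⟩ := (mem_im hF).1 hy
    exact ⟨x, hx, rfl⟩
  · rintro ⟨x, hx, rfl⟩
    exact ⟨F x, (mem_im hF).2 ⟨x, hx, rfl⟩, rfl⟩

theorem im_congr {a : M} {F G : M → M} (hF : DT (fun w : Fin 1 → M => F (w 0)))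
    (hG : DT (fun w : Fin 1 → M => G (w 0))) (h : ∀ x, x ∈ a → F x = G x) :
    im a F = im a G := by
  refine ext' fun z => ?_
  rw [mem_im hF, mem_im hG]
  refine exists_congr fun x => and_congr_right fun hx => ?_
  rw [h x hx]

theorem im_self {a : M} {F : M → M} (hF : DT (fun w : Fin 1 → M => F (w 0)))
    (h : ∀ x, x ∈ a → F x = x) : im a F = a := by
  refine ext' fun z => ?_
  rw [mem_im hF]
  constructor
  · rintro ⟨x, hx, rfl⟩
    rwa [h x hx]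
  · intro hz
    exact ⟨z, hz, (h z hz).symm⟩

/-! ### The action -/

/-- The image of a set of labels. -/
noncomputable def aL (h D : M) : M := im D fun j => ap h j

theorem aL.dt : DT (fun w : Fin 2 → M => aL (w 0) (w 1)) := by
  unfold aL; simp (maxDischargeDepth := 50)

@[simp] theorem dt_aL {n : ℕ} {s t : (Fin n → M) → M} (hs : DT s) (ht : DT t) :
    DT (fun v => aL (s v) (t v)) := dt2 aL.dt hs ht

/-- The action on pairs whose first component is a label. -/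
noncomputable def aA (h z : M) : M := op (ap h (fst z)) (snd z)

theorem aA.dt : DT (fun w : Fin 2 → M => aA (w 0) (w 1)) := by
  unfold aA; simp (maxDischargeDepth := 50)

@[simp] theorem dt_aA {n : ℕ} {s t : (Fin n → M) → M} (hs : DT s) (ht : DT t) :
    DT (fun v => aA (s v) (t v)) := dt2 aA.dt hs ht

@[simp] theorem aA_op (h j x : M) : aA h (op j x) = op (ap h j) x := by
  unfold aA; rw [fst_op, snd_op]

@[simp] theorem aA_nd (h j u : M) : aA h (nd j u) = nd (ap h j) u := aA_op _ _ _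

@[simp] theorem aA_pm (h j a : M) : aA h (pm j a) = pm (ap h j) a := aA_op _ _ _

/-- The action on conditions. -/
noncomputable def aC (h p : M) : M := im p fun z => aA h z

theorem aC.dt : DT (fun w : Fin 2 → M => aC (w 0) (w 1)) := by
  unfold aC; simp (maxDischargeDepth := 50)

@[simp] theorem dt_aC {n : ℕ} {s t : (Fin n → M) → M} (hs : DT s) (ht : DT t) :
    DT (fun v => aC (s v) (t v)) := dt2 aC.dt hs ht

theorem mem_aC {h p z : M} : z ∈ aC h p ↔ ∃ x, x ∈ p ∧ z = aA h x :=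
  mem_im (by simp (maxDischargeDepth := 50))

/-- The action on names and on word names. -/
noncomputable def aN (h z : M) : M := im z fun w => op (fst w) (aC h (snd w))

theorem aN.dt : DT (fun w : Fin 2 → M => aN (w 0) (w 1)) := by
  unfold aN; simp (maxDischargeDepth := 50)

@[simp] theorem dt_aN {n : ℕ} {s t : (Fin n → M) → M} (hs : DT s) (ht : DT t) :
    DT (fun v => aN (s v) (t v)) := dt2 aN.dt hs ht

theorem mem_aN {h z w : M} : w ∈ aN h z ↔ ∃ x, x ∈ z ∧ w = op (fst x) (aC h (snd x)) :=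
  mem_im (by simp (maxDischargeDepth := 50))

/-- The action on the types of the tags. -/
noncomputable def aG (h t : M) : M :=
  op (em : M) (op (aL h (fst (snd t))) (op (fst (snd (snd t))) (op (aN h (fst (snd (snd (snd t)))))
    (op (aN h (fst (snd (snd (snd (snd t)))))) (op (aC h (fst (snd (snd (snd (snd (snd t)))))))
      (snd (snd (snd (snd (snd (snd t)))))))))))

theorem aG.dt : DT (fun w : Fin 2 → M => aG (w 0) (w 1)) := by
  unfold aG; simp (maxDischargeDepth := 50)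

@[simp] theorem dt_aG {n : ℕ} {s t : (Fin n → M) → M} (hs : DT s) (ht : DT t) :
    DT (fun v => aG (s v) (t v)) := dt2 aG.dt hs ht

theorem aG_op (h O k a b g r : M) :
    aG h (op em (op O (op k (op a (op b (op g r)))))) =
      op em (op (aL h O) (op k (op (aN h a) (op (aN h b) (op (aC h g) r))))) := by
  unfold aG
  simp only [fst_op, snd_op]

/-- The action on the types of the codes. -/
noncomputable def aH (h t : M) : M :=
  op (sc (em : M)) (op (ap h (fst (snd t))) (op (fst (snd (snd t))) (aC h (snd (snd (snd t))))))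

theorem aH.dt : DT (fun w : Fin 2 → M => aH (w 0) (w 1)) := by
  unfold aH; simp (maxDischargeDepth := 50)

@[simp] theorem dt_aH {n : ℕ} {s t : (Fin n → M) → M} (hs : DT s) (ht : DT t) :
    DT (fun v => aH (s v) (t v)) := dt2 aH.dt hs ht

theorem aH_op (h x i g : M) :
    aH h (op (sc em) (op x (op i g))) = op (sc em) (op (ap h x) (op i (aC h g))) := by
  unfold aH
  simp only [fst_op, snd_op]

open Classical in
/-- The action on types. -/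
noncomputable def aT (h t : M) : M := if fst t = (em : M) then aG h t else aH h t

theorem aT.dt : DT (fun w : Fin 2 → M => aT (w 0) (w 1)) := by
  classical
  unfold aT
  refine DT.ite ?_ ?_ ?_ <;> simp (maxDischargeDepth := 50)

@[simp] theorem dt_aT {n : ℕ} {s t : (Fin n → M) → M} (hs : DT s) (ht : DT t) :
    DT (fun v => aT (s v) (t v)) := dt2 aT.dt hs ht

theorem aT_tag (h O k a b g r : M) :
    aT h (op em (op O (op k (op a (op b (op g r)))))) =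
      op em (op (aL h O) (op k (op (aN h a) (op (aN h b) (op (aC h g) r))))) := by
  unfold aT
  rw [if_pos (fst_op _ _), aG_op]

theorem aT_code (h x i g : M) :
    aT h (op (sc em) (op x (op i g))) = op (sc em) (op (ap h x) (op i (aC h g))) := by
  unfold aT
  rw [if_neg (by rw [fst_op]; exact sc_ne_em (em : M)), aH_op]

/-- The action on steps. -/
noncomputable def aS (h v : M) : M :=
  op (aL h (fst v)) (op (aN h (fst (snd v))) (aT h (snd (snd v))))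

theorem aS.dt : DT (fun w : Fin 2 → M => aS (w 0) (w 1)) := by
  unfold aS; simp (maxDischargeDepth := 50)

@[simp] theorem dt_aS {n : ℕ} {s t : (Fin n → M) → M} (hs : DT s) (ht : DT t) :
    DT (fun v => aS (s v) (t v)) := dt2 aS.dt hs ht

theorem aS_op (h D W t : M) : aS h (op D (op W t)) = op (aL h D) (op (aN h W) (aT h t)) := by
  unfold aS
  simp only [fst_op, snd_op]

/-- The action on systems. -/
noncomputable def aX (h X : M) : M := im X fun w => op (ap h (fst w)) (aS h (snd w))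

theorem aX.dt : DT (fun w : Fin 2 → M => aX (w 0) (w 1)) := by
  unfold aX; simp (maxDischargeDepth := 50)

@[simp] theorem dt_aX {n : ℕ} {s t : (Fin n → M) → M} (hs : DT s) (ht : DT t) :
    DT (fun v => aX (s v) (t v)) := dt2 aX.dt hs ht

theorem mem_aX {h X w : M} : w ∈ aX h X ↔ ∃ x, x ∈ X ∧ w = op (ap h (fst x)) (aS h (snd x)) :=
  mem_im (by simp (maxDischargeDepth := 50))

/-! ### Involutions -/

/-- `h` is an involution of the set of the labels. -/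
structure Inv (K : Cst M) (h : M) : Prop where
  mem : ∀ j, j ∈ K.lab → ap h j ∈ K.lab
  inv : ∀ j, j ∈ K.lab → ap h (ap h j) = j

theorem Inv.dfn (K : Cst M) : Dfn (fun w : Fin 1 → M => Inv K (w 0)) := by
  have h1 : Dfn (fun w : Fin 1 → M => (∀ j, j ∈ K.lab → ap (w 0) j ∈ K.lab) ∧
      ∀ j, j ∈ K.lab → ap (w 0) (ap (w 0) j) = j) := by simp (maxDischargeDepth := 50)
  exact h1.congr fun w => ⟨fun h => ⟨h.1, h.2⟩, fun h => ⟨h.mem, h.inv⟩⟩

@[simp] theorem dfn_Inv (K : Cst M) {n : ℕ} {s : (Fin n → M) → M} (hs : DT s) :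
    Dfn (fun v => Inv K (s v)) := dfn1 (Inv.dfn K) hs

variable {K : Cst M} {h : M} (hh : Inv K h)

include hh

theorem Inv.inj {i j : M} (hi : i ∈ K.lab) (hj : j ∈ K.lab) : ap h i = ap h j ↔ i = j := by
  constructor
  · intro e
    rw [← hh.inv i hi, e, hh.inv j hj]
  · rintro rfl; rfl

/-! #### Sets of labels -/

omit hh in
theorem mem_aL {D j : M} : j ∈ aL h D ↔ ∃ i, i ∈ D ∧ j = ap h i :=
  mem_im (by simp (maxDischargeDepth := 50))

theorem Inv.mem_aL {D j : M} (hD : Sb D K.lab) (hj : j ∈ K.lab) :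
    j ∈ aL h D ↔ ap h j ∈ D := by
  rw [Sep.mem_aL]
  constructor
  · rintro ⟨i, hi, rfl⟩
    rwa [hh.inv i (hD i hi)]
  · intro h1
    exact ⟨_, h1, (hh.inv j hj).symm⟩

theorem Inv.ap_mem_aL {D j : M} (hD : Sb D K.lab) (hj : j ∈ K.lab) :
    ap h j ∈ aL h D ↔ j ∈ D := by
  rw [hh.mem_aL hD (hh.mem j hj), hh.inv j hj]

theorem Inv.aL_sub {D : M} (hD : Sb D K.lab) : Sb (aL h D) K.lab := by
  intro j hj
  obtain ⟨i, hi, rfl⟩ := Sep.mem_aL.1 hj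
  exact hh.mem i (hD i hi)

theorem Inv.aL_aL {D : M} (hD : Sb D K.lab) : aL h (aL h D) = D := by
  refine ext' fun j => ?_
  constructor
  · intro hj
    obtain ⟨i, hi, rfl⟩ := Sep.mem_aL.1 hj
    obtain ⟨k, hk, rfl⟩ := Sep.mem_aL.1 hi
    rwa [hh.inv k (hD k hk)]
  · intro hj
    exact Sep.mem_aL.2 ⟨_, Sep.mem_aL.2 ⟨j, hj, rfl⟩, (hh.inv j (hD j hj)).symm⟩

omit hh in
theorem aL_mono {D E : M} (hDE : Sb D E) : Sb (aL h D) (aL h E) := by
  intro j hj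
  obtain ⟨i, hi, rfl⟩ := mem_aL.1 hj
  exact mem_aL.2 ⟨i, hDE i hi, rfl⟩

/-! #### Conditions -/

theorem Inv.atm {z : M} (hz : z ∈ atm K) : aA h z ∈ atm K := by
  rw [mem_atm] at hz ⊢
  rcases hz with ⟨j, u, hj, hu, rfl⟩ | ⟨j, a, hj, ha, rfl⟩
  · exact Or.inl ⟨_, u, hh.mem j hj, hu, aA_nd _ _ _⟩
  · exact Or.inr ⟨_, a, hh.mem j hj, ha, aA_pm _ _ _⟩

theorem Inv.aA_aA {z : M} (hz : z ∈ Sep.atm K) : aA h (aA h z) = z := by
  rw [mem_atm] at hz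
  rcases hz with ⟨j, u, hj, hu, rfl⟩ | ⟨j, a, hj, ha, rfl⟩
  · rw [aA_nd, aA_nd, hh.inv j hj]
  · rw [aA_pm, aA_pm, hh.inv j hj]

theorem Inv.aC_sub {p : M} (hp : Sb p (Sep.atm K)) : Sb (aC h p) (Sep.atm K) := by
  intro z hz
  obtain ⟨x, hx, rfl⟩ := mem_aC.1 hz
  exact hh.atm (hp x hx)

theorem Inv.aC_aC {p : M} (hp : Sb p (Sep.atm K)) : aC h (aC h p) = p := by
  refine ext' fun z => ?_
  constructor
  · intro hz
    obtain ⟨x, hx, rfl⟩ := mem_aC.1 hz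
    obtain ⟨y, hy, rfl⟩ := mem_aC.1 hx
    rwa [hh.aA_aA (hp y hy)]
  · intro hz
    exact mem_aC.2 ⟨_, mem_aC.2 ⟨z, hz, rfl⟩, (hh.aA_aA (hp z hz)).symm⟩

theorem Inv.mem_aC {p z : M} (hp : Sb p (Sep.atm K)) (hz : z ∈ Sep.atm K) :
    z ∈ aC h p ↔ aA h z ∈ p := by
  rw [Sep.mem_aC]
  constructor
  · rintro ⟨x, hx, rfl⟩
    rwa [hh.aA_aA (hp x hx)]
  · intro h1
    exact ⟨_, h1, (hh.aA_aA hz).symm⟩

omit hh in
theorem lab_of_nd {p j u : M} (hp : Sb p (Sep.atm K)) (hj : nd j u ∈ p) : j ∈ K.lab ∧ u ∈ K.T := by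
  have h1 := hp _ hj
  rw [mem_atm] at h1
  rcases h1 with ⟨j', u', h2, h3, he⟩ | ⟨j', a', h2, h3, he⟩
  · rw [nd_inj] at he
    obtain ⟨rfl, rfl⟩ := he
    exact ⟨h2, h3⟩
  · exact absurd he nd_ne_pm

omit hh in
theorem lab_of_pm {p j a : M} (hp : Sb p (Sep.atm K)) (hj : pm j a ∈ p) : j ∈ K.lab ∧ a ∈ K.ix := by
  have h1 := hp _ hj
  rw [mem_atm] at h1
  rcases h1 with ⟨j', u', h2, h3, he⟩ | ⟨j', a', h2, h3, he⟩
  · exact absurd he.symm nd_ne_pm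
  · rw [pm_inj] at he
    obtain ⟨rfl, rfl⟩ := he
    exact ⟨h2, h3⟩

theorem Inv.nd_mem {p j u : M} (hp : Sb p (Sep.atm K)) (hj : j ∈ K.lab) :
    nd (ap h j) u ∈ aC h p ↔ nd j u ∈ p := by
  constructor
  · intro h1
    obtain ⟨x, hx, he⟩ := Sep.mem_aC.1 h1
    have h2 := hp x hx
    rw [mem_atm] at h2
    rcases h2 with ⟨i, v, hi, hv, rfl⟩ | ⟨i, a, hi, ha, rfl⟩
    · rw [aA_nd, nd_inj, hh.inj hj hi] at he
      rwa [he.1, he.2]
    · rw [aA_pm] at he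
      exact absurd he nd_ne_pm
  · intro h1
    exact Sep.mem_aC.2 ⟨_, h1, (aA_nd _ _ _).symm⟩

theorem Inv.pm_mem {p j a : M} (hp : Sb p (Sep.atm K)) (hj : j ∈ K.lab) :
    pm (ap h j) a ∈ aC h p ↔ pm j a ∈ p := by
  constructor
  · intro h1
    obtain ⟨x, hx, he⟩ := Sep.mem_aC.1 h1
    have h2 := hp x hx
    rw [mem_atm] at h2
    rcases h2 with ⟨i, v, hi, hv, rfl⟩ | ⟨i, b, hi, hb, rfl⟩
    · rw [aA_nd] at he
      exact absurd he.symm nd_ne_pm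
    · rw [aA_pm, pm_inj, hh.inj hj hi] at he
      rwa [he.1, he.2]
  · intro h1
    exact Sep.mem_aC.2 ⟨_, h1, (aA_pm _ _ _).symm⟩

omit hh in
theorem aC_mono {p q : M} (hpq : Sb p q) : Sb (aC h p) (aC h q) := by
  intro z hz
  obtain ⟨x, hx, rfl⟩ := mem_aC.1 hz
  exact mem_aC.2 ⟨x, hpq x hx, rfl⟩

omit hh in
theorem aC_em : aC h (em : M) = (em : M) := by
  refine ext' fun z => ⟨fun hz => ?_, fun hz => absurd hz (not_mem_em z)⟩
  obtain ⟨x, hx, -⟩ := mem_aC.1 hz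
  exact absurd hx (not_mem_em x)

theorem Inv.aC_sb {p q : M} (hp : Sb p (Sep.atm K)) (hq : Sb q (Sep.atm K)) :
    Sb (aC h p) (aC h q) ↔ Sb p q := by
  refine ⟨fun h1 => ?_, aC_mono⟩
  have h2 := aC_mono (h := h) h1
  rwa [hh.aC_aC hp, hh.aC_aC hq] at h2

theorem Inv.lq' {p q : M} (hp : Sb p (Sep.atm K)) (hq : Sb q (Sep.atm K)) (h1 : Lq K q p) :
    Lq K (aC h q) (aC h p) := by
  refine ⟨aC_mono h1.1, fun j u a h2 h3 h4 => ?_⟩
  have hj := (lab_of_nd (hh.aC_sub hq) h2).1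
  obtain ⟨i, hi, rfl⟩ : ∃ i, i ∈ K.lab ∧ j = ap h i := ⟨_, hh.mem j hj, (hh.inv j hj).symm⟩
  rw [hh.nd_mem hq hi] at h2
  rw [hh.nd_mem hp hi] at h3
  rw [hh.pm_mem hp hi] at h4
  exact h1.2 i u a h2 h3 h4

theorem Inv.lq {p q : M} (hp : Sb p (Sep.atm K)) (hq : Sb q (Sep.atm K)) :
    Lq K (aC h q) (aC h p) ↔ Lq K q p := by
  refine ⟨fun h1 => ?_, hh.lq' hp hq⟩
  have h2 := hh.lq' (hh.aC_sub hp) (hh.aC_sub hq) h1
  rwa [hh.aC_aC hp, hh.aC_aC hq] at h2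

omit hh in
/-- The restriction of a condition to a set of labels. -/
theorem mem_rs {p D z : M} : z ∈ rs p D ↔ z ∈ p ∧ ∃ x, x ∈ D ∧ ∃ y, z = op x y := by
  unfold rs
  rw [mem_sp (by simp (maxDischargeDepth := 50))]

omit hh in
theorem atm_fst {z : M} (hz : z ∈ Sep.atm K) : fst z ∈ K.lab ∧ z = op (fst z) (snd z) := by
  rw [mem_atm] at hz
  rcases hz with ⟨j, u, hj, hu, rfl⟩ | ⟨j, a, hj, ha, rfl⟩
  · rw [fst_nd]
    exact ⟨hj, by unfold nd; rw [snd_op]⟩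
  · rw [fst_pm]
    exact ⟨hj, by unfold pm; rw [snd_op]⟩

theorem Inv.rs_aC {p D : M} (hp : Sb p (Sep.atm K)) (hD : Sb D K.lab) :
    rs (aC h p) (aL h D) = aC h (rs p D) := by
  refine ext' fun z => ?_
  rw [mem_rs, Sep.mem_aC, Sep.mem_aC]
  constructor
  · rintro ⟨⟨x, hx, rfl⟩, j, hj, y, he⟩
    obtain ⟨h1, h2⟩ := atm_fst (hp x hx)
    refine ⟨x, mem_rs.2 ⟨hx, fst x, ?_, snd x, h2⟩, rfl⟩
    unfold aA at he
    obtain ⟨rfl, -⟩ := op_inj.1 he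
    rwa [hh.ap_mem_aL hD h1] at hj
  · rintro ⟨x, hx, rfl⟩
    obtain ⟨hx1, j, hj, y, rfl⟩ := mem_rs.1 hx
    exact ⟨⟨_, hx1, rfl⟩, ap h j, Sep.mem_aL.2 ⟨j, hj, rfl⟩, y, aA_op _ _ _⟩

/-! #### Names -/

omit hh in
/-- `z` is a set of pairs `(s, b)` where `b` is a set of atoms. -/
def AN (K : Cst M) (z : M) : Prop := ∀ w, w ∈ z → ∃ s b, w = op s b ∧ Sb b (Sep.atm K)

omit hh in
theorem AN.sub {z s b : M} (hz : AN K z) (hb : op s b ∈ z) : Sb b (Sep.atm K) := by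
  obtain ⟨s', b', he, h1⟩ := hz _ hb
  rw [(op_inj.1 he).2]
  exact h1

omit hh in
theorem mem_aN' {z w : M} (hz : AN K z) : w ∈ aN h z ↔ ∃ s b, op s b ∈ z ∧ w = op s (aC h b) := by
  rw [mem_aN]
  constructor
  · rintro ⟨x, hx, rfl⟩
    obtain ⟨s, b, rfl, -⟩ := hz x hx
    exact ⟨s, b, hx, by rw [fst_op, snd_op]⟩
  · rintro ⟨s, b, hx, rfl⟩
    exact ⟨_, hx, by rw [fst_op, snd_op]⟩

omit hh in
theorem op_mem_aN' {z s b' : M} (hz : AN K z) :
    op s b' ∈ aN h z ↔ ∃ b, op s b ∈ z ∧ b' = aC h b := by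
  rw [mem_aN' hz]
  constructor
  · rintro ⟨s', b, hx, he⟩
    obtain ⟨rfl, rfl⟩ := op_inj.1 he
    exact ⟨b, hx, rfl⟩
  · rintro ⟨b, hx, rfl⟩
    exact ⟨s, b, hx, rfl⟩

theorem Inv.an {z : M} (hz : AN K z) : AN K (aN h z) := by
  intro w hw
  obtain ⟨s, b, hb, rfl⟩ := (mem_aN' hz).1 hw
  exact ⟨s, _, rfl, hh.aC_sub (hz.sub hb)⟩

theorem Inv.op_mem_aN {z s b : M} (hz : AN K z) (hb : Sb b (Sep.atm K)) :
    op s (aC h b) ∈ aN h z ↔ op s b ∈ z := by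
  rw [op_mem_aN' hz]
  constructor
  · rintro ⟨b', hx, he⟩
    have h1 : aC h (aC h b) = aC h (aC h b') := by rw [he]
    rw [hh.aC_aC hb, hh.aC_aC (hz.sub hx)] at h1
    rwa [h1]
  · intro hx
    exact ⟨b, hx, rfl⟩

theorem Inv.aN_aN {z : M} (hz : AN K z) : aN h (aN h z) = z := by
  refine ext' fun w => ?_
  rw [mem_aN' (hh.an hz)]
  constructor
  · rintro ⟨s, b', hb', rfl⟩
    obtain ⟨b, hb, rfl⟩ := (op_mem_aN' hz).1 hb'
    rwa [hh.aC_aC (hz.sub hb)]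
  · intro hw
    obtain ⟨s, b, rfl, hb⟩ := hz w hw
    exact ⟨s, _, (hh.op_mem_aN hz hb).2 hw, by rw [hh.aC_aC hb]⟩

omit hh in
theorem le_aN {z : M} (hz : Forc.Le z om) : Forc.Le (aN h z) om :=
  hz.image om_ord (F := fun w => op (fst w) (aC h (snd w))) (by simp (maxDischargeDepth := 50))
    fun _ hy => mem_aN.1 hy

/-! #### Types and steps -/

omit hh in
/-- The shape of the type of a step. -/
def TyOk (K : Cst M) (t : M) : Prop :=
  (∃ O k a b g r, t = op em (op O (op k (op a (op b (op g r))))) ∧ Sb O K.lab ∧ AN K a ∧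
    AN K b ∧ Sb g (Sep.atm K)) ∨
  ∃ x i g, t = op (sc em) (op x (op i g)) ∧ x ∈ K.lab ∧ Sb g (Sep.atm K)

theorem Inv.tyOk {t : M} (ht : TyOk K t) : TyOk K (aT h t) := by
  rcases ht with ⟨O, k, a, b, g, r, rfl, hO, ha, hb, hg⟩ | ⟨x, i, g, rfl, hx, hg⟩
  · rw [aT_tag]
    exact Or.inl ⟨_, _, _, _, _, _, rfl, hh.aL_sub hO, hh.an ha, hh.an hb, hh.aC_sub hg⟩
  · rw [aT_code]
    exact Or.inr ⟨_, _, _, rfl, hh.mem x hx, hh.aC_sub hg⟩

theorem Inv.aT_aT {t : M} (ht : TyOk K t) : aT h (aT h t) = t := by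
  rcases ht with ⟨O, k, a, b, g, r, rfl, hO, ha, hb, hg⟩ | ⟨x, i, g, rfl, hx, hg⟩
  · rw [aT_tag, aT_tag, hh.aL_aL hO, hh.aN_aN ha, hh.aN_aN hb, hh.aC_aC hg]
  · rw [aT_code, aT_code, hh.inv x hx, hh.aC_aC hg]

omit hh in
/-- The shape of a step. -/
def SpOk (K : Cst M) (v : M) : Prop :=
  ∃ D W t, v = op D (op W t) ∧ Sb D K.lab ∧ AN K W ∧ TyOk K t

theorem Inv.spOk {v : M} (hv : SpOk K v) : SpOk K (aS h v) := by
  obtain ⟨D, W, t, rfl, hD, hW, ht⟩ := hv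
  rw [aS_op]
  exact ⟨_, _, _, rfl, hh.aL_sub hD, hh.an hW, hh.tyOk ht⟩

theorem Inv.aS_aS {v : M} (hv : SpOk K v) : aS h (aS h v) = v := by
  obtain ⟨D, W, t, rfl, hD, hW, ht⟩ := hv
  rw [aS_op, aS_op, hh.aL_aL hD, hh.aN_aN hW, hh.aT_aT ht]

/-! #### Systems -/

omit hh in
/-- `X` is a function on a set of labels whose values have the shape of a step. -/
structure Pre (K : Cst M) (X : M) : Prop where
  fn : Fn X (dm X)
  lab : Sb (dm X) K.lab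
  sp : ∀ j, j ∈ dm X → SpOk K (ap X j)

omit hh in
theorem Pre.dm_of {X j v : M} (h : op j v ∈ X) : j ∈ dm X :=
  mem_dm.2 ⟨_, h, (fst_op _ _).symm⟩

omit hh in
theorem Pre.ap_eq {X j v : M} (hX : Pre K X) (h : op j v ∈ X) : ap X j = v :=
  (hX.fn.op_mem_iff (Pre.dm_of h)).1 h

omit hh in
theorem Pre.mem_aX {X w : M} (hX : Pre K X) :
    w ∈ aX h X ↔ ∃ j, j ∈ dm X ∧ w = op (ap h j) (aS h (ap X j)) := by
  rw [Sep.mem_aX]
  constructor
  · rintro ⟨x, hx, rfl⟩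
    obtain ⟨j, hj, rfl⟩ := hX.fn.mem_iff.1 hx
    exact ⟨j, hj, by rw [fst_op, snd_op]⟩
  · rintro ⟨j, hj, rfl⟩
    exact ⟨op j (ap X j), hX.fn.mem_iff.2 ⟨j, hj, rfl⟩, by rw [fst_op, snd_op]⟩

omit hh in
theorem Pre.dm_aX {X : M} (hX : Pre K X) : dm (aX h X) = aL h (dm X) := by
  refine ext' fun j => ?_
  rw [mem_dm, mem_aL]
  constructor
  · rintro ⟨w, hw, rfl⟩
    obtain ⟨i, hi, rfl⟩ := hX.mem_aX.1 hw
    exact ⟨i, hi, fst_op _ _⟩
  · rintro ⟨i, hi, rfl⟩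
    exact ⟨_, hX.mem_aX.2 ⟨i, hi, rfl⟩, (fst_op _ _).symm⟩

theorem Inv.fn_aX {X : M} (hX : Pre K X) : Fn (aX h X) (dm (aX h X)) := by
  constructor
  · intro z hz
    obtain ⟨j, hj, rfl⟩ := hX.mem_aX.1 hz
    exact ⟨ap h j, Pre.dm_of hz, _, rfl⟩
  · intro x hx
    rw [hX.dm_aX] at hx
    obtain ⟨j, hj, rfl⟩ := Sep.mem_aL.1 hx
    refine ⟨_, hX.mem_aX.2 ⟨j, hj, rfl⟩, fun y hy => ?_⟩
    obtain ⟨i, hi, he⟩ := hX.mem_aX.1 hy
    obtain ⟨h1, rfl⟩ := op_inj.1 he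
    rw [hh.inj (hX.lab j hj) (hX.lab i hi)] at h1
    rw [h1]

theorem Inv.ap_aX {X j : M} (hX : Pre K X) (hj : j ∈ dm X) :
    ap (aX h X) (ap h j) = aS h (ap X j) := by
  have h1 : op (ap h j) (aS h (ap X j)) ∈ aX h X := hX.mem_aX.2 ⟨j, hj, rfl⟩
  exact ((hh.fn_aX hX).op_mem_iff (Pre.dm_of h1)).1 h1

theorem Inv.mem_dm_aX {X j : M} (hX : Pre K X) (hj : j ∈ K.lab) :
    ap h j ∈ dm (aX h X) ↔ j ∈ dm X := by
  rw [hX.dm_aX, hh.ap_mem_aL hX.lab hj]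

theorem Inv.pre {X : M} (hX : Pre K X) : Pre K (aX h X) where
  fn := hh.fn_aX hX
  lab := by
    rw [hX.dm_aX]
    exact hh.aL_sub hX.lab
  sp j hj := by
    rw [hX.dm_aX] at hj
    obtain ⟨i, hi, rfl⟩ := Sep.mem_aL.1 hj
    rw [hh.ap_aX hX hi]
    exact hh.spOk (hX.sp i hi)

theorem Inv.aX_aX {X : M} (hX : Pre K X) : aX h (aX h X) = X := by
  refine ext' fun w => ?_
  rw [(hh.pre hX).mem_aX, hX.fn.mem_iff]
  constructor
  · rintro ⟨j, hj, rfl⟩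
    rw [hX.dm_aX] at hj
    obtain ⟨i, hi, rfl⟩ := Sep.mem_aL.1 hj
    exact ⟨i, hi, by rw [hh.ap_aX hX hi, hh.aS_aS (hX.sp i hi), hh.inv i (hX.lab i hi)]⟩
  · rintro ⟨i, hi, rfl⟩
    refine ⟨ap h i, ?_, ?_⟩
    · rw [hX.dm_aX]
      exact Sep.mem_aL.2 ⟨i, hi, rfl⟩
    · rw [hh.ap_aX hX hi, hh.aS_aS (hX.sp i hi), hh.inv i (hX.lab i hi)]

omit hh in
theorem Pre.rs {X : M} (hX : Pre K X) {D : M} (hD : Sb D (dm X)) :
    Pre K (SigB.rs X D) ∧ dm (SigB.rs X D) = D := by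
  have h1 : dm (SigB.rs X D) = D := by
    refine ext' fun j => ?_
    rw [mem_dm]
    constructor
    · rintro ⟨w, hw, rfl⟩
      obtain ⟨-, x, hx, y, rfl⟩ := mem_rs.1 hw
      rwa [fst_op]
    · intro hj
      exact ⟨op j (ap X j), mem_rs.2 ⟨hX.fn.mem_iff.2 ⟨j, hD j hj, rfl⟩, j, hj, _, rfl⟩,
        (fst_op _ _).symm⟩
  refine ⟨⟨?_, ?_, ?_⟩, h1⟩
  · rw [h1]
    exact fn_rs hX.fn hD
  · rw [h1]
    exact hD.trans hX.lab
  · intro j hj
    rw [h1] at hj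
    rw [ap_rs hX.fn hD hj]
    exact hX.sp j (hD j hj)

theorem Inv.rs_aX {X D : M} (hX : Pre K X) (hD : Sb D (dm X)) :
    rs (aX h X) (aL h D) = aX h (rs X D) := by
  obtain ⟨h1, h2⟩ := hX.rs hD
  refine ext' fun w => ?_
  rw [mem_rs, hX.mem_aX, h1.mem_aX, h2]
  constructor
  · rintro ⟨⟨j, hj, rfl⟩, x, hx, y, he⟩
    obtain ⟨rfl, -⟩ := op_inj.1 he
    rw [hh.ap_mem_aL (hD.trans hX.lab) (hX.lab j hj)] at hx
    exact ⟨j, hx, by rw [ap_rs hX.fn hD hx]⟩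
  · rintro ⟨j, hj, rfl⟩
    refine ⟨⟨j, hD j hj, by rw [ap_rs hX.fn hD hj]⟩, ap h j, Sep.mem_aL.2 ⟨j, hj, rfl⟩, _, rfl⟩

theorem Inv.fD {X j : M} (hX : Pre K X) (hj : j ∈ dm X) :
    fD (aX h X) (ap h j) = aL h (Sep.fD X j) := by
  obtain ⟨D, W, t, he, -⟩ := hX.sp j hj
  unfold Sep.fD
  rw [hh.ap_aX hX hj, he, aS_op, fst_op, fst_op]

theorem Inv.fW {X j : M} (hX : Pre K X) (hj : j ∈ dm X) :
    fW (aX h X) (ap h j) = aN h (Sep.fW X j) := by
  obtain ⟨D, W, t, he, -⟩ := hX.sp j hj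
  unfold Sep.fW
  rw [hh.ap_aX hX hj, he, aS_op, snd_op, fst_op, snd_op, fst_op]

theorem Inv.fT {X j : M} (hX : Pre K X) (hj : j ∈ dm X) :
    fT (aX h X) (ap h j) = aT h (Sep.fT X j) := by
  obtain ⟨D, W, t, he, -⟩ := hX.sp j hj
  unfold Sep.fT
  rw [hh.ap_aX hX hj, he, aS_op, snd_op, snd_op, snd_op, snd_op]

omit hh in
theorem Pre.an {X j : M} (hX : Pre K X) (hj : j ∈ dm X) : AN K (Sep.fW X j) := by
  obtain ⟨D, W, t, he, -, h1, -⟩ := hX.sp j hj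
  unfold Sep.fW
  rw [he, snd_op, fst_op]
  exact h1

omit hh in
theorem Pre.sub_fD {X j : M} (hX : Pre K X) (hj : j ∈ dm X) : Sb (Sep.fD X j) K.lab := by
  obtain ⟨D, W, t, he, h1, -⟩ := hX.sp j hj
  unfold Sep.fD
  rw [he, fst_op]
  exact h1

/-! #### Conditions over a system -/

theorem Inv.ok' {X p : M} (hX : Pre K X) (hp : Sb p (Sep.atm K))
    (hd : ∀ z, z ∈ p → fst z ∈ dm X) (h1 : Ok K X p) : Ok K (aX h X) (aC h p) := by
  intro j a ha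
  have hj := (lab_of_pm (hh.aC_sub hp) ha).1
  obtain ⟨i, hi, rfl⟩ : ∃ i, i ∈ K.lab ∧ j = ap h i := ⟨_, hh.mem j hj, (hh.inv j hj).symm⟩
  rw [hh.pm_mem hp hi] at ha
  have hid : i ∈ dm X := by
    have := hd _ ha
    rwa [fst_pm] at this
  obtain ⟨σ, b, h2, h3, h4⟩ := h1 i a ha
  refine ⟨σ, aC h b, ?_, ?_, h4⟩
  · rw [hh.fW hX hid, hh.op_mem_aN (hX.an hid) ((hX.an hid).sub h2)]
    exact h2
  · rw [hh.fD hX hid, hh.rs_aC hp (hX.sub_fD hid)]
    refine hh.lq' ((hX.an hid).sub h2) (fun z hz => hp z (mem_rs.1 hz).1) h3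

theorem Inv.mem_PX' {X p : M} (hX : Pre K X) (hp : p ∈ PX K X) : aC h p ∈ PX K (aX h X) := by
  rw [mem_PX] at hp ⊢
  obtain ⟨⟨h1, h2⟩, h3, h4⟩ := hp
  refine ⟨⟨hh.aC_sub h1, h2.im (by simp (maxDischargeDepth := 50))⟩, fun z hz => ?_,
    hh.ok' hX h1 h3 h4⟩
  obtain ⟨x, hx, rfl⟩ := Sep.mem_aC.1 hz
  unfold aA
  rw [fst_op, hh.mem_dm_aX hX (atm_fst (h1 x hx)).1]
  exact h3 x hx

omit hh in
theorem sub_of_PX {X p : M} (hp : p ∈ PX K X) : Sb p (Sep.atm K) := (mem_PX.1 hp).1.1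

theorem Inv.mem_PX {X p : M} (hX : Pre K X) (hp : Sb p (Sep.atm K)) :
    aC h p ∈ PX K (aX h X) ↔ p ∈ PX K X := by
  refine ⟨fun h1 => ?_, hh.mem_PX' hX⟩
  have h2 := hh.mem_PX' (hh.pre hX) h1
  rwa [hh.aC_aC hp, hh.aX_aX hX] at h2

theorem Inv.exists_PX {X r : M} (hX : Pre K X) (hr : r ∈ PX K (aX h X)) :
    ∃ p, p ∈ PX K X ∧ r = aC h p := by
  have h1 := sub_of_PX hr
  refine ⟨aC h r, ?_, (hh.aC_aC h1).symm⟩
  rw [← hh.mem_PX hX (hh.aC_sub h1), hh.aC_aC h1]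
  exact hr

omit hh in
theorem nm_an {X z : M} (hz : Sb z (pd K.hf (PX K X))) : AN K z := by
  intro w hw
  obtain ⟨x, hx, p, hp, rfl⟩ := mem_pd.1 (hz w hw)
  exact ⟨x, p, rfl, sub_of_PX hp⟩

omit hh in
theorem NM.an {X z : M} (hz : NM K X z) : AN K z := nm_an hz.1

theorem Inv.nm {X z : M} (hX : Pre K X) (hz : NM K X z) : NM K (aX h X) (aN h z) := by
  refine ⟨fun w hw => ?_, le_aN hz.2⟩
  obtain ⟨s, b, hb, rfl⟩ := (mem_aN' hz.an).1 hw
  obtain ⟨h1, h2⟩ := op_mem_pd.1 (hz.1 _ hb)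
  exact op_mem_pd.2 ⟨h1, hh.mem_PX' hX h2⟩

theorem Inv.nm_iff {X z : M} (hX : Pre K X) (hz : AN K z) :
    NM K (aX h X) (aN h z) ↔ NM K X z := by
  refine ⟨fun h1 => ?_, hh.nm hX⟩
  have h2 := hh.nm (hh.pre hX) h1
  rwa [hh.aN_aN hz, hh.aX_aX hX] at h2

theorem Inv.fm' {X q x z : M} (hX : Pre K X) (hq : Sb q (Sep.atm K)) (hz : AN K z)
    (h1 : FM K X q x z) : FM K (aX h X) (aC h q) x (aN h z) := by
  intro r' hr' hrq
  obtain ⟨r, hr, rfl⟩ := hh.exists_PX hX hr'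
  rw [hh.lq hq (sub_of_PX hr)] at hrq
  obtain ⟨s, hs, hsr, b, hb, hsb⟩ := h1 r hr hrq
  exact ⟨aC h s, hh.mem_PX' hX hs, hh.lq' (sub_of_PX hr) (sub_of_PX hs) hsr, aC h b,
    (hh.op_mem_aN hz (hz.sub hb)).2 hb, hh.lq' (hz.sub hb) (sub_of_PX hs) hsb⟩

theorem Inv.fm {X q x z : M} (hX : Pre K X) (hq : Sb q (Sep.atm K)) (hz : AN K z) :
    FM K (aX h X) (aC h q) x (aN h z) ↔ FM K X q x z := by
  refine ⟨fun h1 => ?_, hh.fm' hX hq hz⟩
  have h2 := hh.fm' (hh.pre hX) (hh.aC_sub hq) (hh.an hz) h1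
  rwa [hh.aX_aX hX, hh.aC_aC hq, hh.aN_aN hz] at h2

theorem Inv.fe' {X q z z' : M} (hX : Pre K X) (hq : Sb q (Sep.atm K)) (hz : AN K z)
    (hz' : AN K z') (h1 : FE K X q z z') : FE K (aX h X) (aC h q) (aN h z) (aN h z') := by
  intro x hx r' hr' hrq
  obtain ⟨r, hr, rfl⟩ := hh.exists_PX hX hr'
  rw [hh.lq hq (sub_of_PX hr)] at hrq
  rw [hh.fm hX (sub_of_PX hr) hz, hh.fm hX (sub_of_PX hr) hz']
  exact h1 x hx r hr hrq

theorem Inv.fe {X q z z' : M} (hX : Pre K X) (hq : Sb q (Sep.atm K)) (hz : AN K z)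
    (hz' : AN K z') : FE K (aX h X) (aC h q) (aN h z) (aN h z') ↔ FE K X q z z' := by
  refine ⟨fun h1 => ?_, hh.fe' hX hq hz hz'⟩
  have h2 := hh.fe' (hh.pre hX) (hh.aC_sub hq) (hh.an hz) (hh.an hz') h1
  rwa [hh.aX_aX hX, hh.aC_aC hq, hh.aN_aN hz, hh.aN_aN hz'] at h2

theorem Inv.tot {X W g : M} (hX : Pre K X) (hg : Sb g (Sep.atm K)) (hW : AN K W)
    (h1 : Tot K X W g) : Tot K (aX h X) (aN h W) (aC h g) := by
  intro r' hr' hrg y hy
  obtain ⟨r, hr, rfl⟩ := hh.exists_PX hX hr'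
  rw [hh.lq hg (sub_of_PX hr)] at hrg
  obtain ⟨s, hs, hsr, e, b, hb, hsb⟩ := h1 r hr hrg y hy
  exact ⟨aC h s, hh.mem_PX' hX hs, hh.lq' (sub_of_PX hr) (sub_of_PX hs) hsr, e, aC h b,
    (hh.op_mem_aN hW (hW.sub hb)).2 hb, hh.lq' (hW.sub hb) (sub_of_PX hs) hsb⟩

omit hh in
theorem WOk.an {X W : M} (hW : WOk K X W) : AN K W := by
  intro w hw
  obtain ⟨y, e, b, -, -, hb, rfl⟩ := hW.2.1 w hw
  exact ⟨_, b, rfl, sub_of_PX hb⟩

theorem Inv.wOk {X W : M} (hX : Pre K X) (hW : WOk K X W) : WOk K (aX h X) (aN h W) := by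
  have hA := hW.an
  refine ⟨le_aN hW.1, fun w hw => ?_, fun y b b' r hb hb' hr => ?_, fun σ b hb => ?_⟩
  · obtain ⟨s, b, hb, rfl⟩ := (mem_aN' hA).1 hw
    obtain ⟨y, e, b1, h1, h2, h3, he⟩ := hW.2.1 _ hb
    obtain ⟨rfl, rfl⟩ := op_inj.1 he
    exact ⟨y, e, _, h1, h2, hh.mem_PX' hX h3, rfl⟩
  · obtain ⟨c, hc, rfl⟩ := (op_mem_aN' hA).1 hb
    obtain ⟨c', hc', rfl⟩ := (op_mem_aN' hA).1 hb'
    obtain ⟨s, hs, rfl⟩ := hh.exists_PX hX hr
    rw [hh.lq (hA.sub hc) (sub_of_PX hs), hh.lq (hA.sub hc') (sub_of_PX hs)]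
    exact hW.2.2.1 y c c' s hc hc' hs
  · obtain ⟨c, hc, rfl⟩ := (op_mem_aN' hA).1 hb
    exact hh.tot hX (hA.sub hc) hA (hW.2.2.2 σ c hc)

omit hh in
theorem aN_W0 : aN h (W0 K) = W0 K := by
  refine ext' fun w => ?_
  rw [mem_aN, mem_W0]
  constructor
  · rintro ⟨x, hx, rfl⟩
    obtain ⟨y, hy, rfl⟩ := mem_W0.1 hx
    exact ⟨y, hy, by rw [fst_op, snd_op, aC_em]⟩
  · rintro ⟨y, hy, rfl⟩
    exact ⟨_, mem_W0.2 ⟨y, hy, rfl⟩, by rw [fst_op, snd_op, aC_em]⟩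

theorem Inv.shp {t i y e b : M} (ht : t ∈ K.lab) (hb : Sb b (Sep.atm K))
    (h1 : Shp K t i y e b) : Shp K (ap h t) i y e (aC h b) := by
  unfold Shp at h1 ⊢
  rcases h1 with h1 | ⟨u, hu, h1⟩ | h1
  · exact Or.inl h1
  · refine Or.inr (Or.inl ⟨u, hu, ?_⟩)
    rw [hh.nd_mem hb ht, hh.pm_mem hb ht]
    exact h1
  · exact Or.inr (Or.inr h1)

theorem Inv.zn {W : M} (hW : AN K W) : zn (aN h W) = aN h (Sep.zn W) := by
  have hz : AN K (Sep.zn W) := by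
    intro w hw
    unfold Sep.zn at hw
    rw [mem_im (by simp (maxDischargeDepth := 50))] at hw
    obtain ⟨v, hv, rfl⟩ := hw
    rw [mem_sp (by simp (maxDischargeDepth := 50))] at hv
    obtain ⟨hv, x, b, rfl⟩ := hv
    refine ⟨_, _, rfl, ?_⟩
    rw [snd_op]
    exact hW.sub hv
  refine ext' fun w => ?_
  constructor
  · intro hw
    have hw' := hw
    unfold Sep.zn at hw
    rw [mem_im (by simp (maxDischargeDepth := 50))] at hw
    obtain ⟨v, hv, rfl⟩ := hw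
    rw [mem_sp (by simp (maxDischargeDepth := 50))] at hv
    obtain ⟨hv, x, b', rfl⟩ := hv
    obtain ⟨b, hb, rfl⟩ := (op_mem_aN' hW).1 hv
    simp only [fst_op, snd_op]
    exact (hh.op_mem_aN hz (hW.sub hb)).2 (op_mem_zn.2 hb)
  · intro hw
    obtain ⟨s, b, hb, rfl⟩ := (mem_aN' hz).1 hw
    rw [op_mem_zn] at hb ⊢
    exact (hh.op_mem_aN hW (hW.sub hb)).2 hb

/-! #### Steps of a system -/

omit hh in
/-- A system has the shape. -/
theorem IsSys.pre {X : M} (hX : IsSys K X) : Pre K X := by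
  refine ⟨hX.fn, hX.2.1, fun j hj => ?_⟩
  obtain ⟨h1, h2, -, h4, h5⟩ := hX.2.2.2 j hj
  have hD : Sb (Sep.fD X j) K.lab := h2.1.trans hX.2.1
  refine ⟨_, _, _, h1, hD, h4.an, ?_⟩
  rcases h5 with h5 | h5
  · obtain ⟨h6, -, h7, h8, h9, h10, h11, h12⟩ := h5
    refine Or.inl ⟨_, _, _, _, _, _, h6, fun t ht => hD t (h12 t ht).1, h9.an, h10.an,
      sub_of_PX h11⟩
  · obtain ⟨h6, h7, -, h8, h9, -⟩ := h5
    exact Or.inr ⟨_, _, _, h6, hD _ h7, sub_of_PX h9⟩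

section fields

variable {X j : M} (hX : Pre K X) (hj : j ∈ dm X)

include hX hj

theorem Inv.isTag : IsTag (aX h X) (ap h j) ↔ IsTag X j := by
  unfold IsTag
  rw [hh.fT hX hj]
  obtain ⟨D, W, t, he, -, -, ht⟩ := hX.sp j hj
  have h1 : Sep.fT X j = t := by unfold Sep.fT; rw [he, snd_op, snd_op]
  rw [h1]
  rcases ht with ⟨O, k, a, b, g, r, rfl, -⟩ | ⟨x, i, g, rfl, -⟩
  · rw [aT_tag, fst_op, fst_op]
  · rw [aT_code, fst_op, fst_op]

theorem Inv.isCode : IsCode (aX h X) (ap h j) ↔ IsCode X j := by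
  unfold IsCode
  rw [hh.fT hX hj]
  obtain ⟨D, W, t, he, -, -, ht⟩ := hX.sp j hj
  have h1 : Sep.fT X j = t := by unfold Sep.fT; rw [he, snd_op, snd_op]
  rw [h1]
  rcases ht with ⟨O, k, a, b, g, r, rfl, -⟩ | ⟨x, i, g, rfl, -⟩
  · rw [aT_tag, fst_op, fst_op]
  · rw [aT_code, fst_op, fst_op]

omit hh in
/-- The type of a tag. -/
theorem Pre.tag (ht : IsTag X j) : Sep.fT X j = op em (op (tO X j) (op (tk X j) (op (ta X j)
    (op (tb X j) (op (tg X j) (tr X j)))))) ∧ Sb (tO X j) K.lab ∧ AN K (ta X j) ∧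
    AN K (tb X j) ∧ Sb (tg X j) (Sep.atm K) := by
  obtain ⟨D, W, t, he, -, -, h1⟩ := hX.sp j hj
  have h2 : Sep.fT X j = t := by unfold Sep.fT; rw [he, snd_op, snd_op]
  unfold IsTag at ht
  unfold tO tk ta tb tg tr
  rw [h2] at ht ⊢
  rcases h1 with ⟨O, k, a, b, g, r, rfl, h3⟩ | ⟨x, i, g, rfl, -⟩
  · simp only [fst_op, snd_op]
    exact ⟨trivial, h3⟩
  · rw [fst_op] at ht
    exact absurd ht (sc_ne_em (em : M))

omit hh in
/-- The type of a code. -/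
theorem Pre.code (ht : IsCode X j) : Sep.fT X j = op (sc em) (op (cx X j) (op (ci X j)
    (cg X j))) ∧ cx X j ∈ K.lab ∧ Sb (cg X j) (Sep.atm K) := by
  obtain ⟨D, W, t, he, -, -, h1⟩ := hX.sp j hj
  have h2 : Sep.fT X j = t := by unfold Sep.fT; rw [he, snd_op, snd_op]
  unfold IsCode at ht
  unfold cx ci cg
  rw [h2] at ht ⊢
  rcases h1 with ⟨O, k, a, b, g, r, rfl, h3⟩ | ⟨x, i, g, rfl, h3⟩
  · rw [fst_op] at ht
    exact absurd ht.symm (sc_ne_em (em : M))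
  · simp only [fst_op, snd_op]
    exact ⟨trivial, h3⟩

theorem Inv.tag (ht : IsTag X j) : tO (aX h X) (ap h j) = aL h (tO X j) ∧
    tk (aX h X) (ap h j) = tk X j ∧ ta (aX h X) (ap h j) = aN h (ta X j) ∧
    tb (aX h X) (ap h j) = aN h (tb X j) ∧ tg (aX h X) (ap h j) = aC h (tg X j) ∧
    tr (aX h X) (ap h j) = tr X j := by
  have h1 := (hX.tag hj ht).1
  have h2 := hh.fT hX hj
  rw [h1, aT_tag] at h2
  refine ⟨?_, ?_, ?_, ?_, ?_, ?_⟩
  · rw [show tO (aX h X) (ap h j) = fst (snd (Sep.fT (aX h X) (ap h j))) from rfl, h2]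
    simp only [fst_op, snd_op]
  · rw [show tk (aX h X) (ap h j) = fst (snd (snd (Sep.fT (aX h X) (ap h j)))) from rfl, h2]
    simp only [fst_op, snd_op]
  · rw [show ta (aX h X) (ap h j) = fst (snd (snd (snd (Sep.fT (aX h X) (ap h j))))) from rfl, h2]
    simp only [fst_op, snd_op]
  · rw [show tb (aX h X) (ap h j) = fst (snd (snd (snd (snd (Sep.fT (aX h X) (ap h j))))))
      from rfl, h2]
    simp only [fst_op, snd_op]
  · rw [show tg (aX h X) (ap h j) = fst (snd (snd (snd (snd (snd (Sep.fT (aX h X) (ap h j)))))))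
      from rfl, h2]
    simp only [fst_op, snd_op]
  · rw [show tr (aX h X) (ap h j) = snd (snd (snd (snd (snd (snd (Sep.fT (aX h X) (ap h j)))))))
      from rfl, h2]
    simp only [snd_op]

theorem Inv.code (ht : IsCode X j) : cx (aX h X) (ap h j) = ap h (cx X j) ∧
    ci (aX h X) (ap h j) = ci X j ∧ cg (aX h X) (ap h j) = aC h (cg X j) := by
  have h1 := (hX.code hj ht).1
  have h2 := hh.fT hX hj
  rw [h1, aT_code] at h2
  refine ⟨?_, ?_, ?_⟩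
  · rw [show cx (aX h X) (ap h j) = fst (snd (Sep.fT (aX h X) (ap h j))) from rfl, h2]
    simp only [fst_op, snd_op]
  · rw [show ci (aX h X) (ap h j) = fst (snd (snd (Sep.fT (aX h X) (ap h j)))) from rfl, h2]
    simp only [fst_op, snd_op]
  · rw [show cg (aX h X) (ap h j) = snd (snd (snd (Sep.fT (aX h X) (ap h j)))) from rfl, h2]
    simp only [snd_op]

theorem Inv.cz : cz (aX h X) (ap h j) = aN h (cz X j) := by
  rw [show Sep.cz (aX h X) (ap h j) = Sep.zn (Sep.fW (aX h X) (ap h j)) from rfl, hh.fW hX hj,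
    hh.zn (hX.an hj)]
  rfl

omit hh in
theorem Pre.an_cz : AN K (Sep.cz X j) := by
  intro w hw
  have hw' : w ∈ Sep.zn (Sep.fW X j) := hw
  unfold Sep.zn at hw'
  rw [mem_im (by simp (maxDischargeDepth := 50))] at hw'
  obtain ⟨v, hv, rfl⟩ := hw'
  rw [mem_sp (by simp (maxDischargeDepth := 50))] at hv
  obtain ⟨hv, x, b, rfl⟩ := hv
  refine ⟨_, _, rfl, ?_⟩
  rw [snd_op]
  exact (hX.an hj).sub hv

end fields

theorem Inv.cl {X D : M} (hX : Pre K X) (hD : Cl X D) : Cl (aX h X) (aL h D) := by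
  refine ⟨?_, fun j hj => ?_⟩
  · rw [hX.dm_aX]
    exact aL_mono hD.1
  · obtain ⟨i, hi, rfl⟩ := Sep.mem_aL.1 hj
    rw [hh.fD hX (hD.1 i hi)]
    exact aL_mono (hD.2 i hi)

theorem Inv.stOk {X j : M} (hX : IsSys K X) (hj : j ∈ dm X) : StOk K (aX h X) (ap h j) := by
  have hP := hX.pre
  have hF := hX.fn
  obtain ⟨h1, h2, h3, h4, h5⟩ := hX.2.2.2 j hj
  have hD : Sb (Sep.fD X j) K.lab := h2.1.trans hX.2.1
  have hPD := (hP.rs h2.1).1
  have hrs : SigB.rs (aX h X) (Sep.fD (aX h X) (ap h j)) = aX h (SigB.rs X (Sep.fD X j)) := by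
    rw [hh.fD hP hj, hh.rs_aX hP h2.1]
  refine ⟨?_, ?_, ?_, ?_, ?_⟩
  · rw [hh.ap_aX hP hj, h1, aS_op, hh.fD hP hj, hh.fW hP hj, hh.fT hP hj]
  · rw [hh.fD hP hj]
    exact hh.cl hP h2
  · rw [hh.fD hP hj, hh.ap_mem_aL hD (hX.2.1 j hj)]
    exact h3
  · rw [hrs, hh.fW hP hj]
    exact hh.wOk hPD h4
  · rcases h5 with h5 | h5
    · have ht := h5.isTag
      obtain ⟨e1, e2, e3, e4, e5, e6⟩ := hh.tag hP hj ht
      obtain ⟨h6, h7, h8, h9, h10, h11, h12, h13⟩ := h5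
      refine Or.inl ⟨?_, ?_, ?_, ?_, ?_, ?_, ?_, ?_⟩
      · rw [e1, e2, e3, e4, e5, e6, hh.fT hP hj, h6, aT_tag]
      · rw [hh.fW hP hj, h7, aN_W0]
      · rw [e6]; exact h8
      · rw [e2]; exact h9
      · rw [hrs, e3]; exact hh.nm hPD h10
      · rw [hrs, e4]; exact hh.nm hPD h11
      · rw [hrs, e5]; exact hh.mem_PX' hPD h12
      · intro t' ht'
        rw [e1] at ht'
        obtain ⟨t, ht0, rfl⟩ := Sep.mem_aL.1 ht'
        obtain ⟨h14, h15, h16⟩ := h13 t ht0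
        have htX := h2.1 t h14
        refine ⟨?_, (hh.isTag hP htX).2 h15, ?_⟩
        · rw [hh.fD hP hj]
          exact Sep.mem_aL.2 ⟨t, h14, rfl⟩
        · rw [e6, (hh.tag hP htX h15).2.2.2.2.2]
          exact h16
    · have ht := h5.isCode
      obtain ⟨e1, e2, e3⟩ := hh.code hP hj ht
      obtain ⟨h6, h7, h8, h9, h10, h11, h12, h13⟩ := h5
      have hxX := h2.1 _ h7
      have hxT := (hX.tagOk hxX h8)
      refine Or.inr ⟨?_, ?_, ?_, ?_, ?_, ?_, ?_, ?_⟩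
      · rw [e1, e2, e3, hh.fT hP hj, h6, aT_code]
      · rw [e1, hh.fD hP hj]
        exact Sep.mem_aL.2 ⟨_, h7, rfl⟩
      · rw [e1]; exact (hh.isTag hP hxX).2 h8
      · rw [e2]; exact h9
      · rw [hrs, e3]; exact hh.mem_PX' hPD h10
      · rw [e1, e3, (hh.tag hP hxX h8).2.2.2.2.1]
        exact hh.lq' (hP.tag hxX h8).2.2.2.2 (sub_of_PX h10) h11
      · rw [hrs, e3, hh.fW hP hj]
        exact hh.tot hPD (sub_of_PX h10) h4.an h12
      · intro y e b' hb'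
        rw [hh.fW hP hj] at hb'
        obtain ⟨b, hb, rfl⟩ := (op_mem_aN' h4.an).1 hb'
        obtain ⟨h14, h15⟩ := h13 y e b hb
        rw [e1, e2, e3]
        exact ⟨hh.lq' (sub_of_PX h10) (h4.an.sub hb) h14, hh.shp (hD _ h7) (h4.an.sub hb) h15⟩

/-- The image of a system is a system. -/
theorem Inv.isSys {X : M} (hX : IsSys K X) : IsSys K (aX h X) := by
  have hP := hX.pre
  refine ⟨hh.fn_aX hP, (hh.pre hP).lab, ?_, fun j hj => ?_⟩
  · rw [hP.dm_aX]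
    refine Forc.Le.trans (B := dm X) (Forc.Le.mk (F := fun j => ap h j)
      (by simp (maxDischargeDepth := 50)) (fun j hj => ?_) fun i j hi hj he => ?_) hX.2.2.1
    · rwa [hh.mem_aL hX.2.1 ((hh.aL_sub hX.2.1) j hj)] at hj
    · exact (hh.inj ((hh.aL_sub hX.2.1) i hi) ((hh.aL_sub hX.2.1) j hj)).1 he
  · rw [hP.dm_aX] at hj
    obtain ⟨i, hi, rfl⟩ := Sep.mem_aL.1 hj
    exact hh.stOk hX hi

theorem Inv.isSys_iff {X : M} (hX : Pre K X) : IsSys K (aX h X) ↔ IsSys K X := by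
  refine ⟨fun h1 => ?_, hh.isSys⟩
  have h2 := hh.isSys h1
  rwa [hh.aX_aX hX] at h2

omit hh in
theorem aX_mono {X Y : M} (hXY : Sb X Y) : Sb (aX h X) (aX h Y) := by
  intro w hw
  obtain ⟨x, hx, rfl⟩ := mem_aX.1 hw
  exact mem_aX.2 ⟨x, hXY x hx, rfl⟩

theorem Inv.aX_sb {X Y : M} (hX : Pre K X) (hY : Pre K Y) : Sb (aX h X) (aX h Y) ↔ Sb X Y := by
  refine ⟨fun h1 => ?_, aX_mono⟩
  have h2 := aX_mono (h := h) h1
  rwa [hh.aX_aX hX, hh.aX_aX hY] at h2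

/-! #### Fixed objects -/

omit hh in
/-- If `h` is the identity on the labels of `p`, then it fixes `p`. -/
theorem aC_eq_self {p D : M} (hp : Sb p (Sep.atm K)) (hD : ∀ j, j ∈ D → ap h j = j)
    (hpD : ∀ z, z ∈ p → fst z ∈ D) : aC h p = p := by
  refine im_self (by simp (maxDischargeDepth := 50)) fun z hz => ?_
  unfold aA
  rw [hD _ (hpD z hz)]
  exact (atm_fst (hp z hz)).2.symm

omit hh in
theorem aL_eq_self {D : M} (hD : ∀ j, j ∈ D → ap h j = j) : aL h D = D :=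
  im_self (by simp (maxDischargeDepth := 50)) hD

omit hh in
/-- If `h` is the identity on `D` and all labels of the conditions of `z` are in `D`, then it fixes
`z`. -/
theorem aN_eq_self {z D : M} (hz : AN K z) (hD : ∀ j, j ∈ D → ap h j = j)
    (hzD : ∀ s b, op s b ∈ z → ∀ w, w ∈ b → fst w ∈ D) : aN h z = z := by
  refine im_self (by simp (maxDischargeDepth := 50)) fun w hw => ?_
  obtain ⟨s, b, rfl, hb⟩ := hz w hw
  rw [fst_op, snd_op, aC_eq_self hb hD (hzD s b hw)]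

omit hh in
theorem aN_eq_self' {X z : M} (hz : NM K X z) (hD : ∀ j, j ∈ dm X → ap h j = j) : aN h z = z :=
  aN_eq_self hz.an hD fun _ _ hb => (mem_PX.1 (op_mem_pd.1 (hz.1 _ hb)).2).2.1

omit hh in
theorem aC_eq_self' {X p : M} (hp : p ∈ PX K X) (hD : ∀ j, j ∈ dm X → ap h j = j) :
    aC h p = p :=
  aC_eq_self (sub_of_PX hp) hD (mem_PX.1 hp).2.1

omit hh in
/-- If `h` is the identity on the labels of a system, then it fixes the system. -/
theorem aX_eq_self {X : M} (hX : IsSys K X) (hD : ∀ j, j ∈ dm X → ap h j = j) : aX h X = X := by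
  have hP := hX.pre
  refine ext' fun w => ?_
  rw [hP.mem_aX, hP.fn.mem_iff]
  refine exists_congr fun j => and_congr_right fun hj => ?_
  suffices h1 : aS h (ap X j) = ap X j by rw [h1, hD j hj]
  obtain ⟨h1, h2, -, h4, h5⟩ := hX.2.2.2 j hj
  have hsub : ∀ i, i ∈ dm (SigB.rs X (Sep.fD X j)) → ap h i = i := by
    intro i hi
    rw [(hP.rs h2.1).2] at hi
    exact hD i (h2.1 i hi)
  have e1 : aL h (Sep.fD X j) = Sep.fD X j := aL_eq_self fun i hi => hD i (h2.1 i hi)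
  have e2 : aN h (Sep.fW X j) = Sep.fW X j := by
    refine aN_eq_self h4.an hsub fun s b hb => ?_
    obtain ⟨y, e, b', -, -, h6, he⟩ := h4.2.1 _ hb
    obtain ⟨-, rfl⟩ := op_inj.1 he
    exact (mem_PX.1 h6).2.1
  have e3 : aT h (Sep.fT X j) = Sep.fT X j := by
    rcases h5 with h5 | h5
    · rw [h5.1, aT_tag]
      obtain ⟨-, -, -, -, h9, h10, h11, h12⟩ := h5
      rw [aL_eq_self fun i hi => hsub i (by rw [(hP.rs h2.1).2]; exact (h12 i hi).1),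
        aN_eq_self' h9 hsub, aN_eq_self' h10 hsub, aC_eq_self' h11 hsub]
    · rw [h5.1, aT_code]
      obtain ⟨-, h7, -, -, h9, -⟩ := h5
      rw [hD _ (h2.1 _ h7), aC_eq_self' h9 hsub]
  rw [h1, aS_op, e1, e2, e3]

end Pool.Agent.Sep
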