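import Pool.Agent.Forc.Tr
import Pool.Agent.Forc.CardB

/-!
# Labels

`th` is the successor cardinal of `a`: bounded unions, new labels, and involutions of `th`.
-/

universe u

set_option linter.unusedSectionVars false

namespace Pool.Agent.Sep

open Pool.Agent.SigB Pool.Agent.Forc

variable {M : Type u} [Membership M M] [IsZFC M]

/-- Any two sets are comparable. -/
theorem le_total' (A B : M) : Le A B ∨ Le B A := by
  obtain ⟨α, hα, h1, h2⟩ := exists_ord A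
  obtain ⟨β, hβ, h3, h4⟩ := exists_ord B
  rcases hα.sb_total hβ with h | h
  · exact Or.inl (h1.trans ((Le.of_sb h).trans h4))
  · exact Or.inr (h3.trans ((Le.of_sb h).trans h2))

/-- `th` is the successor cardinal of the infinite ordinal `a`. -/
structure Suc (a th : M) : Prop where
  ord_a : Ord a
  om_sb : Sb om a
  ord : Ord th
  mem_iff : ∀ b : M, Ord b → (b ∈ th ↔ Le b a)

theorem Suc.dfn : Dfn (fun w : Fin 2 → M => Suc (w 0) (w 1)) := by
  have h : Dfn (fun w : Fin 2 → M => Ord (w 0) ∧ Sb om (w 0) ∧ Ord (w 1) ∧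
      ∀ b : M, Ord b → (b ∈ w 1 ↔ Le b (w 0))) := by simp (maxDischargeDepth := 50)
  exact h.congr fun v => ⟨fun h => ⟨h.1, h.2.1, h.2.2.1, h.2.2.2⟩,
    fun h => ⟨h.1, h.2, h.3, h.4⟩⟩

@[simp] theorem dfn_Suc {n : ℕ} {s t : (Fin n → M) → M} (hs : DT s) (ht : DT t) :
    Dfn (fun v => Suc (s v) (t v)) := dfn2 Suc.dfn hs ht

theorem exists_suc {a : M} (ha : Ord a) (h : Sb om a) : ∃ th, Suc a th := by
  obtain ⟨th, h1, -, h2, -⟩ := exists_succ ha h
  exact ⟨th, ha, h, h1, h2⟩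

namespace Suc

variable {a th : M} (h : Suc a th)

include h

theorem not_le : ¬ Le th a := fun h' => not_mem_self th ((h.mem_iff th h.ord).2 h')

theorem a_mem : a ∈ th := (h.mem_iff a h.ord_a).2 (Le.refl a)

theorem sb : Sb a th := h.ord.sb h.a_mem

theorem om_sb' : Sb om th := h.om_sb.trans h.sb

theorem om_mem : (om : M) ∈ th := (h.mem_iff _ om_ord).2 (Le.of_sb h.om_sb)

theorem le_of_mem {b : M} (hb : b ∈ th) : Le b a := (h.mem_iff b (h.ord.mem hb)).1 hb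

theorem unique {th' : M} (h' : Suc a th') : th = th' := ext' fun b => by
  constructor
  · intro hb
    exact (h'.mem_iff b (h.ord.mem hb)).2 (h.le_of_mem hb)
  · intro hb
    exact (h.mem_iff b (h'.ord.mem hb)).2 (h'.le_of_mem hb)

theorem sc_mem {b : M} (hb : b ∈ th) : sc b ∈ th := by
  have hbo := h.ord.mem hb
  refine (h.mem_iff _ (ord_sc hbo)).2 ?_
  by_cases h2 : b ∈ (om : M)
  · exact Le.of_sb (h.ord_a.sb (h.om_sb _ (sc_mem_om h2)))
  · exact (le_sc ((hbo.not_mem_iff om_ord).1 h2)).trans (h.le_of_mem hb)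

/-- Sets of labels of size at most `a` are bounded. -/
theorem bdd {X : M} (hX : Sb X th) (hle : Le X a) : ∃ g, g ∈ th ∧ Sb X g := by
  have hU : Le (sU X) a := Le.union h.ord_a h.om_sb hle fun x hx => h.le_of_mem (hX x hx)
  have hUo : Ord (sU X) := ord_sU fun x hx => h.ord.mem (hX x hx)
  refine ⟨sc (sU X), h.sc_mem ((h.mem_iff _ hUo).2 hU), fun x hx => ?_⟩
  exact (Ord.mem_sc_iff (h.ord.mem (hX x hx)) hUo).2 fun z hz => mem_sU.2 ⟨x, hx, hz⟩

theorem le_of_bdd {X g : M} (hg : g ∈ th) (hX : Sb X g) : Le X a :=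
  (Le.of_sb hX).trans (h.le_of_mem hg)

/-- A family of at most `a` small sets of labels has a small union. -/
theorem sU_le {A : M} (hA : Le A a) (hs : ∀ x, x ∈ A → Le x a) : Le (sU A) a :=
  Le.union h.ord_a h.om_sb hA hs

theorem un_le {x y : M} (hx : Le x a) (hy : Le y a) : Le (un x y) a := by
  unfold un
  refine h.sU_le ?_ fun z hz => ?_
  · have h1 : Le (pr x y) (SigB.sc (SigB.sc SigB.em)) := by
      refine Le.trans (Le.of_sb (B := un (un SigB.em (pr x x)) (pr y y)) fun z hz => ?_)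
        (Le.insert (Le.insert (le_of_empty (fun z => not_mem_em z)) x) y)
      rcases mem_pr.1 hz with rfl | rfl
      · exact mem_un.2 (Or.inl (mem_un.2 (Or.inr (mem_pr.2 (Or.inl rfl)))))
      · exact mem_un.2 (Or.inr (mem_pr.2 (Or.inl rfl)))
    exact h1.trans (Le.of_sb (h.ord_a.sb (h.om_sb _ (sc_mem_om (sc_mem_om em_mem_om)))))
  · rcases mem_pr.1 hz with rfl | rfl
    · exact hx
    · exact hy

/-- The complement of a small set of labels is large. -/
theorem le_df {E F : M} (hE : Le E a) (hF : Le F a) : Le F (df th E) := by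
  rcases le_total' F (df th E) with h1 | h1
  · exact h1
  · exfalso
    have h2 : Le (df th E) a := h1.trans hF
    refine h.not_le ((Le.of_sb fun z hz => ?_).trans (h.un_le hE h2))
    by_cases hz' : z ∈ E
    · exact mem_un.2 (Or.inl hz')
    · exact mem_un.2 (Or.inr (mem_df.2 ⟨hz, hz'⟩))

/-- A new label. -/
theorem exists_new {E : M} (hE : Le E a) : ∃ l, l ∈ th ∧ l ∉ E := by
  by_contra hno
  push Not at hno
  exact h.not_le ((Le.of_sb hno).trans hE)

/-- New labels for the elements of `F`. -/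
theorem exists_newF {E F : M} (hE : Le E a) (hF : Le F a) : ∃ f, f ∈ fs F th ∧ Inj f F ∧
    ∀ x, x ∈ F → ap f x ∉ E := by
  obtain ⟨f, hf, hi⟩ := h.le_df hE hF
  refine ⟨f, mem_fs.2 ⟨(mem_fs.1 hf).1, fun x hx => ?_⟩, hi, fun x hx => ?_⟩
  · exact (mem_df.1 ((mem_fs.1 hf).2 x hx)).1
  · exact (mem_df.1 ((mem_fs.1 hf).2 x hx)).2

end Suc

/-- `h` is an involution of `th`. -/
def Invo (th h : M) : Prop := h ∈ fs th th ∧ ∀ x, x ∈ th → ap h (ap h x) = x

theorem Invo.dfn : Dfn (fun w : Fin 2 → M => Invo (w 0) (w 1)) := by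
  unfold Invo; simp (maxDischargeDepth := 50)

@[simp] theorem dfn_Invo {n : ℕ} {s t : (Fin n → M) → M} (hs : DT s) (ht : DT t) :
    Dfn (fun v => Invo (s v) (t v)) := dfn2 Invo.dfn hs ht

theorem Invo.mem {th h x : M} (hh : Invo th h) (hx : x ∈ th) : ap h x ∈ th :=
  (mem_fs.1 hh.1).2 x hx

theorem Invo.inj {th h x y : M} (hh : Invo th h) (hx : x ∈ th) (hy : y ∈ th)
    (he : ap h x = ap h y) : x = y := by
  rw [← hh.2 x hx, he, hh.2 y hy]

/-- An involution of the labels which is the identity on `B` and moves `F ∖ B` off `E`. -/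
theorem Suc.exists_invo {a th : M} (h : Suc a th) {B E F : M} (hE : Sb E th) (hF : Sb F th)
    (hBE : Sb B E) (hE' : Le E a) (hF' : Le F a) :
    ∃ g, Invo th g ∧ (∀ x, x ∈ B → ap g x = x) ∧ (∀ x, x ∈ F → x ∉ B → ap g x ∉ E ∧ ap g x ∉ F) ∧
      ∀ x, x ∈ F → ap g x ∈ E → ap g x ∈ B := by
  classical
  have hEF : Le (un E F) a := h.un_le hE' hF'
  obtain ⟨f, hf, hi, hn⟩ := h.exists_newF hEF (F := df F B)
    (hF'.mono_left fun z hz => (mem_df.1 hz).1)
  have hfm := (mem_fs.1 hf).2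
  have hBth : Sb B th := hBE.trans hE
  let D : M := df F B
  let R : M → M → Prop := fun x y => (x ∈ D ∧ y = ap f x) ∨ (y ∈ D ∧ x = ap f y) ∨
    (x ∉ D ∧ (∀ z, z ∈ D → x ≠ ap f z) ∧ y = x)
  have hR : Dfn (fun w : Fin 2 → M => R (w 0) (w 1)) := by
    simp (maxDischargeDepth := 50) [R]
  have hnD : ∀ x, x ∈ D → ap f x ∉ D := fun x hx h' =>
    hn x hx (mem_un.2 (Or.inr (mem_df.1 h').1))
  have hex : ∀ x, x ∈ th → ∃ y, y ∈ th ∧ R x y := by
    intro x hx
    by_cases h1 : x ∈ D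
    · exact ⟨ap f x, hfm x h1, Or.inl ⟨h1, rfl⟩⟩
    · by_cases h2 : ∃ z, z ∈ D ∧ x = ap f z
      · obtain ⟨z, hz, hz'⟩ := h2
        exact ⟨z, hF z (mem_df.1 hz).1, Or.inr (Or.inl ⟨hz, hz'⟩)⟩
      · push Not at h2
        exact ⟨x, hx, Or.inr (Or.inr ⟨h1, h2, rfl⟩)⟩
  obtain ⟨g, hg, hgR⟩ := choice' (a := th) (b := th) (P := R) hR hex
  have hgm := (mem_fs.1 hg).2
  have huni : ∀ x y z, R x y → R x z → y = z := by
    rintro x y z (⟨h1, h2⟩ | ⟨h1, h2⟩ | ⟨h1, h2, h3⟩) (⟨h4, h5⟩ | ⟨h4, h5⟩ | ⟨h4, h5, h6⟩)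
    · rw [h2, h5]
    · exact absurd h1 (h5 ▸ hnD z h4)
    · exact absurd h1 h4
    · exact absurd h4 (h2 ▸ hnD y h1)
    · exact hi y z h1 h4 (h2.symm.trans h5)
    · exact absurd h2 (h5 y h1)
    · exact absurd h4 h1
    · exact absurd h5 (h2 z h4)
    · rw [h3, h6]
  have hsymm : ∀ x y, R x y → R y x := by
    rintro x y (⟨h1, h2⟩ | ⟨h1, h2⟩ | ⟨h1, h2, h3⟩)
    · exact Or.inr (Or.inl ⟨h1, h2⟩)
    · exact Or.inl ⟨h1, h2⟩
    · subst h3
      exact Or.inr (Or.inr ⟨h1, h2, rfl⟩)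
  have hval : ∀ x y, x ∈ th → R x y → ap g x = y := fun x y hx hxy =>
    huni x _ _ (hgR x hx) hxy
  have hFB : ∀ x, x ∈ F → x ∉ B → ap g x ∉ E ∧ ap g x ∉ F := by
    intro x hx hxB
    have hxD : x ∈ D := mem_df.2 ⟨hx, hxB⟩
    rw [hval x (ap f x) (hF x hx) (Or.inl ⟨hxD, rfl⟩)]
    exact ⟨fun h' => hn x hxD (mem_un.2 (Or.inl h')), fun h' => hn x hxD (mem_un.2 (Or.inr h'))⟩
  have hB : ∀ x, x ∈ B → ap g x = x := by
    intro x hx
    refine hval x x (hBth x hx) (Or.inr (Or.inr ⟨fun h' => (mem_df.1 h').2 hx, ?_, rfl⟩))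
    rintro z hz rfl
    exact hn z hz (mem_un.2 (Or.inl (hBE _ hx)))
  refine ⟨g, ⟨hg, fun x hx => ?_⟩, hB, hFB, fun x hx hgx => ?_⟩
  · exact hval _ _ (hgm x hx) (hsymm _ _ (hgR x hx))
  · by_cases hxB : x ∈ B
    · rwa [hB x hxB]
    · exact absurd hgx (hFB x hx hxB).1

end Pool.Agent.Sep
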