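import Pool.Agent.Sep.CopyR
import Pool.Agent.Sep.Act
import Pool.Agent.Sep.Lab

/-!
# Copies of legal extensions

A legal extension of a system has a copy which is disjoint from a given extension of the system.
-/

universe u

set_option linter.unusedSectionVars false

namespace Pool.Agent.Sep

open Pool.Agent.SigB Pool.Agent.Forc Pool.Agent.Frc

variable {M : Type u} [Membership M M] [IsZFC M]

/-- The set `hf` of the constants is closed under second components. -/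
def HfOk (K : Cst M) : Prop := ∀ x y, op x y ∈ K.hf → y ∈ K.hf

/-- The forcing relation of the constants is invariant under involutions of the labels. -/
def FInv (K : Frm M) : Prop := ∀ h, Inv K.toCst h → ∀ {Y q a z}, IsSys K.toCst Y →
  q ∈ PX K.toCst Y → NM K.toCst Y a → NM K.toCst Y z → K.F Y q a z →
    K.F (aX h Y) (aC h q) (aN h a) (aN h z)

theorem cz_NM {K : Cst M} (hf : HfOk K) {X k : M} (hX : IsSys K X) (hk : k ∈ dm X) :
    NM K (SigB.rs X (fD X k)) (cz X k) := by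
  obtain ⟨-, -, -, ⟨h1, h2, -⟩, -⟩ := hX.2.2.2 k hk
  refine ⟨fun w hw => ?_, ?_⟩
  · unfold cz zn at hw
    rw [mem_im (by simp (maxDischargeDepth := 50))] at hw
    obtain ⟨v, hv, rfl⟩ := hw
    rw [mem_sp (by simp (maxDischargeDepth := 50))] at hv
    obtain ⟨hv1, x, b, rfl⟩ := hv
    obtain ⟨y, e, b', hy, he, hb, h3⟩ := h2 _ hv1
    obtain ⟨h4, rfl⟩ := op_inj.1 h3
    obtain ⟨rfl, rfl⟩ := op_inj.1 h4
    simp only [fst_op, snd_op]
    exact op_mem_pd.2 ⟨hf _ _ hy, hb⟩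
  · unfold cz zn
    refine Forc.Le.image om_ord ?_ (by simp (maxDischargeDepth := 50)) fun y hy =>
      (mem_im (by simp (maxDischargeDepth := 50))).1 hy
    exact h1.mono_left fun z hz => ((mem_sp (by simp (maxDischargeDepth := 50))).1 hz).1

/-- The symmetry given by an involution of the labels. -/
noncomputable def actOf {K : Frm M} {h : M} (hh : Inv K.toCst h) (hf : HfOk K.toCst)
    (hF : FInv K) : Act K where
  l := fun j => ap h j
  P := fun p => aC h p
  N := fun z => aN h z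
  X := fun Y => aX h Y
  dt_l := by simp (maxDischargeDepth := 50)
  dt_X := by simp (maxDischargeDepth := 50)
  l_mem hj := hh.mem _ hj
  l_l hj := hh.inv _ hj
  sys hY := hh.isSys hY
  X_X hY := hh.aX_aX hY.pre
  dm_X hY := hY.pre.dm_aX
  sub _ _ h1 := aX_mono h1
  rs_X hY hD := hh.rs_aX hY.pre hD.1
  fD_X hY hj := hh.fD hY.pre hj
  isTag hY hj := hh.isTag hY.pre hj
  isCode hY hj := hh.isCode hY.pre hj
  tO_X hY hj ht := (hh.tag hY.pre hj ht).1
  tk_X hY hj ht := (hh.tag hY.pre hj ht).2.1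
  ta_X hY hj ht := (hh.tag hY.pre hj ht).2.2.1
  tb_X hY hj ht := (hh.tag hY.pre hj ht).2.2.2.1
  tg_X hY hj ht := (hh.tag hY.pre hj ht).2.2.2.2.1
  tr_X hY hj ht := (hh.tag hY.pre hj ht).2.2.2.2.2
  cx_X hY hj ht := (hh.code hY.pre hj ht).1
  ci_X hY hj ht := (hh.code hY.pre hj ht).2.1
  cg_X hY hj ht := (hh.code hY.pre hj ht).2.2
  cz_X hY hj _ := hh.cz hY.pre hj
  cz_NM hY hj _ := cz_NM hf hY hj
  mem_P hY hq := hh.mem_PX' hY.pre hq
  P_P _ hq := hh.aC_aC (sub_of_PX hq)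
  Lq_P _ hq hp h1 := hh.lq' (sub_of_PX hp) (sub_of_PX hq) h1
  NM_N hY hz := hh.nm hY.pre hz
  N_N _ hz := hh.aN_aN hz.an
  FE_X hY hq hz hz' h1 := hh.fe' hY.pre (sub_of_PX hq) hz.an hz'.an h1
  F_X hY hq ha hz h1 := hF h hh hY hq ha hz h1

/-- The copy law. -/
theorem copy_law {K : Frm M} (hs : Suc K.ix K.lab) (hf : HfOk K.toCst) (hF : FInv K)
    {X B E t r a z : M} (hX : IsSys K.toCst X) (hB : IsSys K.toCst B) (hE : IsSys K.toCst E)
    (hXB : Sb X B) (hXE : Sb X E) (ht : t ∈ dm X) (htt : IsTag X t)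
    (hL : LL K (rs X (fD X t)) (tO X t) B) (hr : r ∈ PX K.toCst B) (ha : NM K.toCst X a)
    (hz : NM K.toCst X z) (hFr : K.F B r a z) :
    ∃ B' r', IsSys K.toCst B' ∧ Sb X B' ∧ (∀ j, j ∈ dm B' → j ∈ dm E → j ∈ dm X) ∧
      LL K (rs X (fD X t)) (tO X t) B' ∧ r' ∈ PX K.toCst B' ∧
      rs r' (dm X) = rs r (dm X) ∧ K.F B' r' a z := by
  obtain ⟨g, hg, hgB, hgF, -⟩ := hs.exists_invo (B := dm X) (E := dm E) (F := dm B) hE.2.1 hB.2.1
    (dm_sub hXE) hE.2.2.1 hB.2.2.1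
  have hh : Inv K.toCst g := ⟨fun j hj => hg.mem hj, fun j hj => hg.2 j hj⟩
  have hfX : aX g X = X := aX_eq_self hX hgB
  have hcl := hX.cl ht
  have hD : IsSys K.toCst (rs X (fD X t)) := hX.rs hcl
  have htag := hX.tagOk ht htt
  have hO : ∀ s, s ∈ tO X t → s ∈ dm X := fun s hs' =>
    hcl.1 _ (htag.2.2.2.2.2.2.2 s hs').1
  have hfD : aX g (rs X (fD X t)) = rs X (fD X t) := by
    refine aX_eq_self hD fun j hj => hgB j ?_
    rw [dm_rs hX.fn hcl.1] at hj
    exact hcl.1 j hj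
  have hfO : im (tO X t) (fun j => ap g j) = tO X t :=
    im_self (by simp (maxDischargeDepth := 50)) fun j hj => hgB j (hO j hj)
  have hL' := (actOf hh hf hF).LL_X hs.ord hD (fun s hs' => hX.2.1 _ (hO s hs')) hL
  change LL K (aX g (rs X (fD X t))) (im (tO X t) fun j => ap g j) (aX g B) at hL'
  rw [hfD, hfO] at hL'
  have hXB' : Sb X (aX g B) := by
    have := aX_mono (h := g) hXB
    rwa [hfX] at this
  have hfa : aN g a = a := aN_eq_self' ha hgB
  have hfz : aN g z = z := aN_eq_self' hz hgB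
  refine ⟨aX g B, aC g r, hh.isSys hB, hXB', fun j hj hjE => ?_, hL', hh.mem_PX' hB.pre hr, ?_, ?_⟩
  · rw [hB.pre.dm_aX] at hj
    obtain ⟨i, hi, rfl⟩ := mem_aL.1 hj
    by_cases hiX : i ∈ dm X
    · rwa [hgB i hiX]
    · exact absurd hjE (hgF i hi hiX).1
  · have h1 := hh.rs_aC (D := dm X) (sub_of_PX hr) hX.2.1
    rw [aL_eq_self hgB] at h1
    rw [h1]
    refine aC_eq_self (D := dm X) (fun w hw => sub_of_PX hr _ (mem_rs.1 hw).1) hgB fun w hw => ?_
    obtain ⟨-, x, hx, y, rfl⟩ := mem_rs.1 hw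
    rwa [fst_op]
  · have := hF g hh hB hr (NM.mono_sys hX.fn hB.fn hXB ha) (NM.mono_sys hX.fn hB.fn hXB hz) hFr
    rwa [hfa, hfz] at this

end Pool.Agent.Sep
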