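import Pool.Agent.Sep.SeqC

/-!
The coding relation: a set `r` of finite sequences codes the set `w` of hereditarily finite sets.
-/

universe u

set_option linter.unusedSectionVars false

namespace Pool.Agent.Sep

open Pool.Agent.SigB Pool.Agent.Forc

variable {M : Type u} [Membership M M] [IsZFC M]

/-- The initial segments of the branch `x` which belong to `r` have bounded lengths. -/
def Bnd (r x : M) : Prop := ∃ m, m ∈ (om : M) ∧ ∀ t, t ∈ r → Sb t x → ∃ n, n ∈ m ∧ Fn t n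

theorem Bnd.dfn : Dfn (fun w : Fin 2 → M => Bnd (w 0) (w 1)) := by
  unfold Bnd; simp (maxDischargeDepth := 50)

@[simp] theorem dfn_Bnd {n : ℕ} {s t : (Fin n → M) → M} (hs : DT s) (ht : DT t) :
    Dfn (fun v => Bnd (s v) (t v)) := dfn2 Bnd.dfn hs ht

/-- The set `w` belongs to the basic open set with the label `b`: for a pair `b = (c, d)`,
`c ⊆ w` and `d` is disjoint from `w`. -/
def InB (b w : M) : Prop := ∃ c d, b = op c d ∧ Sb c w ∧ ∀ x, x ∈ d → x ∉ w

theorem InB.dfn : Dfn (fun w : Fin 2 → M => InB (w 0) (w 1)) := by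
  unfold InB; simp (maxDischargeDepth := 50)

@[simp] theorem dfn_InB {n : ℕ} {s t : (Fin n → M) → M} (hs : DT s) (ht : DT t) :
    Dfn (fun v => InB (s v) (t v)) := dfn2 InB.dfn hs ht

/-- The set `r` of finite sequences codes the set `w`: for all countable ordinals `a`, `r` is
bounded on the branch with index `a` if and only if `w` does not belong to the basic open set with
the label of `a`. -/
def Codes (r w : M) : Prop := ∀ a : M, Ord a → Le a om → (Bnd r (br a) ↔ ¬ InB (lb a) w)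

theorem Codes.dfn : Dfn (fun w : Fin 2 → M => Codes (w 0) (w 1)) := by
  unfold Codes; simp (maxDischargeDepth := 50)

@[simp] theorem dfn_Codes {n : ℕ} {s t : (Fin n → M) → M} (hs : DT s) (ht : DT t) :
    Dfn (fun v => Codes (s v) (t v)) := dfn2 Codes.dfn hs ht

/-- The word of the triple `(z, e, i)`. -/
noncomputable def wd (z e i : M) : M :=
  un (pd (pr em em) z) (un (pd (pr (sc em) (sc em)) e)
    (pr (op (sc (sc em)) i) (op (sc (sc (sc em))) em)))

theorem mem_wd {z e i x : M} : x ∈ wd z e i ↔ (∃ y, y ∈ z ∧ x = op em y) ∨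
    (∃ y, y ∈ e ∧ x = op (sc em) y) ∨ x = op (sc (sc em)) i ∨ x = op (sc (sc (sc em))) em := by
  unfold wd
  rw [mem_un, mem_un, mem_pd, mem_pd, mem_pr]
  simp only [mem_pr, or_self, exists_eq_left]

@[simp] theorem dt_wd {n : ℕ} {s t r : (Fin n → M) → M} (hs : DT s) (ht : DT t) (hr : DT r) :
    DT (fun v => wd (s v) (t v) (r v)) :=
  dt3 (F := wd) (by unfold wd; simp (maxDischargeDepth := 50)) hs ht hr

theorem op_em_mem_wd {z e i y : M} : op em y ∈ wd z e i ↔ y ∈ z := by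
  rw [mem_wd]
  constructor
  · rintro (⟨y', h, he⟩ | ⟨y', h, he⟩ | he | he)
    · rw [(op_inj.1 he).2]; exact h
    · exact (sc_ne_em _ (op_inj.1 he).1.symm).elim
    · exact (sc_ne_em _ (op_inj.1 he).1.symm).elim
    · exact (sc_ne_em _ (op_inj.1 he).1.symm).elim
  · intro h
    exact Or.inl ⟨y, h, rfl⟩

theorem op_one_mem_wd {z e i y : M} : op (sc em) y ∈ wd z e i ↔ y ∈ e := by
  rw [mem_wd]
  constructor
  · rintro (⟨y', h, he⟩ | ⟨y', h, he⟩ | he | he)
    · exact (sc_ne_em _ (op_inj.1 he).1).elim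
    · rw [(op_inj.1 he).2]; exact h
    · exact (sc_ne_em _ (sc_inj (op_inj.1 he).1).symm).elim
    · exact (sc_ne_em _ (sc_inj (op_inj.1 he).1).symm).elim
  · intro h
    exact Or.inr (Or.inl ⟨y, h, rfl⟩)

theorem op_two_mem_wd {z e i y : M} : op (sc (sc em)) y ∈ wd z e i ↔ y = i := by
  rw [mem_wd]
  constructor
  · rintro (⟨y', h, he⟩ | ⟨y', h, he⟩ | he | he)
    · exact (sc_ne_em _ (op_inj.1 he).1).elim
    · exact (sc_ne_em _ (sc_inj (op_inj.1 he).1)).elim
    · exact (op_inj.1 he).2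
    · exact (sc_ne_em _ (sc_inj (sc_inj (op_inj.1 he).1)).symm).elim
  · rintro rfl
    exact Or.inr (Or.inr (Or.inl rfl))

theorem wd_inj {z e i z' e' i' : M} : wd z e i = wd z' e' i' ↔ z = z' ∧ e = e' ∧ i = i' := by
  constructor
  · intro h
    refine ⟨ext' fun y => ?_, ext' fun y => ?_, ?_⟩
    · rw [← op_em_mem_wd (z := z) (e := e) (i := i), h, op_em_mem_wd]
    · rw [← op_one_mem_wd (z := z) (e := e) (i := i), h, op_one_mem_wd]
    · rw [← op_two_mem_wd (z := z') (e := e') (i := i'), ← h, op_two_mem_wd]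
  · rintro ⟨rfl, rfl, rfl⟩
    rfl

theorem ad_HF : Ad (HF : M) := by
  refine ⟨mem_HF.2 ⟨SigB.em, em_mem_om, fun z hz => (not_mem_em _ hz).elim⟩, ?_⟩
  intro a b ha hb
  obtain ⟨n, hn, ha⟩ := mem_HF.1 ha
  obtain ⟨m, hm, hb⟩ := mem_HF.1 hb
  have hmn : un n m ∈ (om : M) := un_mem_om hn hm
  have hO := ord_of_mem_om hmn
  refine mem_HF.2 ⟨sc (un n m), sc_mem_om hmn, fun z hz => ?_⟩
  rw [VV_sc hO, mem_pw]
  rcases mem_un.1 hz with h1 | h1
  · have h2 := Frc.VV_mono (ord_of_mem_om hn) hO (fun z hz => mem_un.2 (Or.inl hz)) z (ha z h1)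
    exact Frc.VV_tr hO z h2
  · rw [mem_pr, or_self] at h1
    rw [h1]
    exact hb.trans (Frc.VV_mono (ord_of_mem_om hm) hO fun z hz => mem_un.2 (Or.inr hz))

theorem wd_sb_HF {z e i : M} (hz : Sb z HF) (he : Sb e HF) (hi : i ∈ (HF : M)) :
    Sb (wd z e i) HF := by
  have h := ad_HF (M := M)
  have h0 : (SigB.em : M) ∈ HF := h.1
  have hom : Sb (om : M) HF := h.om
  have h1 : sc (SigB.em : M) ∈ HF := hom _ (sc_mem_om em_mem_om)
  have h2 : sc (sc (SigB.em : M)) ∈ HF := hom _ (sc_mem_om (sc_mem_om em_mem_om))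
  have h3 : sc (sc (sc (SigB.em : M))) ∈ HF :=
    hom _ (sc_mem_om (sc_mem_om (sc_mem_om em_mem_om)))
  intro x hx
  rcases mem_wd.1 hx with ⟨y, hy, rfl⟩ | ⟨y, hy, rfl⟩ | rfl | rfl
  · exact h.op h0 (hz y hy)
  · exact h.op h1 (he y hy)
  · exact h.op h2 hi
  · exact h.op h3 h0

end Pool.Agent.Sep
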