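import Pool.Agent.Sep.SubExt
import Pool.Agent.Forc.CardB

/-!
# The countable chain condition and nice names
-/

universe u

set_option linter.unusedSectionVars false

namespace Pool.Agent.Sep

open Pool.Agent.SigB Pool.Agent.Frc Pool.Agent.Forc

section model

variable {M : Type u} [Membership M M] [IsZFC M]

/-! ### Maximal families -/

/-- A maximal family of pairwise unrelated elements. -/
theorem exists_maxl (D : M) {C : M → M → Prop} (hC : Dfn (fun w : Fin 2 → M => C (w 0) (w 1)))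
    (hs : ∀ x y, C x y → C y x) (hr : ∀ x, x ∈ D → C x x) :
    ∃ A, Sb A D ∧ (∀ x, x ∈ A → ∀ y, y ∈ A → C x y → x = y) ∧
      ∀ d, d ∈ D → ∃ a, a ∈ A ∧ C d a := by
  have hC' : ∀ {n : ℕ} {s t : (Fin n → M) → M}, DT s → DT t → Dfn fun v => C (s v) (t v) :=
    fun hs ht => dfn2 hC hs ht
  obtain ⟨κ, f, hκ, hf, hinj, hsur⟩ := exists_bij_ord D
  let G : M → M → M := fun x h => sp (sc SigB.em) fun _ =>
    ∀ y, y ∈ x → SigB.em ∈ ap h y → ¬ C (ap f x) (ap f y)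
  have hGm : ∀ x h z, z ∈ G x h ↔ z = SigB.em ∧
      ∀ y, y ∈ x → SigB.em ∈ ap h y → ¬ C (ap f x) (ap f y) := by
    intro x h z
    have h1 : z ∈ G x h ↔ z ∈ sc SigB.em ∧
        ∀ y, y ∈ x → SigB.em ∈ ap h y → ¬ C (ap f x) (ap f y) :=
      mem_sp (by simp (maxDischargeDepth := 50) [hC'])
    rw [h1, mem_sc]
    simp
  have hG : DT (fun w : Fin 2 → M => G (w 0) (w 1)) := by
    refine dt_sp (P := fun (v : Fin 2 → M) _ => ∀ y, y ∈ v 0 → SigB.em ∈ ap (v 1) y →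
      ¬ C (ap f (v 0)) (ap f y)) (by simp) ?_
    simp (maxDischargeDepth := 50) [hC']
  obtain ⟨g, hg, hgr⟩ := ord_recursion hκ hG
  have hin : ∀ x, x ∈ κ → (SigB.em ∈ ap g x ↔ ∀ y, y ∈ x → SigB.em ∈ ap g y →
      ¬ C (ap f x) (ap f y)) := by
    intro x hx
    rw [hgr x hx, hGm]
    simp only [true_and]
    refine forall_congr' fun y => forall_congr' fun hy => ?_
    rw [ap_rs hg (hκ.sb hx) hy]
  have hd : Dfn (fun w : Fin 1 → M => ∃ x, x ∈ κ ∧ SigB.em ∈ ap g x ∧ w 0 = ap f x) := by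
    simp (maxDischargeDepth := 50)
  refine ⟨sp D fun z => ∃ x, x ∈ κ ∧ SigB.em ∈ ap g x ∧ z = ap f x,
    fun z hz => ((mem_sp hd).1 hz).1, fun z hz w hw hzw => ?_, fun d hdD => ?_⟩
  · obtain ⟨-, x, hx, hxg, rfl⟩ := (mem_sp hd).1 hz
    obtain ⟨-, y, hy, hyg, rfl⟩ := (mem_sp hd).1 hw
    rcases (hκ.mem hx).tri (hκ.mem hy) with h | h | h
    · exact absurd (hs _ _ hzw) ((hin y hy).1 hyg x h hxg)
    · rw [h]
    · exact absurd hzw ((hin x hx).1 hxg y h hyg)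
  · obtain ⟨x, hx, rfl⟩ := hsur d hdD
    by_cases h : SigB.em ∈ ap g x
    · exact ⟨ap f x, (mem_sp hd).2 ⟨hdD, x, hx, h, rfl⟩, hr _ hdD⟩
    · rw [hin x hx] at h
      push Not at h
      obtain ⟨y, hy, hyg, hc⟩ := h
      have hyκ := hκ.trans hy hx
      exact ⟨ap f y, (mem_sp hd).2 ⟨(mem_fs.1 hf).2 y hyκ, y, hyκ, hyg, rfl⟩, hc⟩

/-! ### The countable chain condition -/

/-- Two conditions are compatible. -/
def Cmp (le p q : M) : Prop := ∃ r, op r p ∈ le ∧ op r q ∈ le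

theorem Cmp.dfn : Dfn (fun w : Fin 3 → M => Cmp (w 0) (w 1) (w 2)) := by
  unfold Cmp; simp (maxDischargeDepth := 50)

@[simp] theorem dfn_Cmp {n : ℕ} {s t r : (Fin n → M) → M} (hs : DT s) (ht : DT t) (hr : DT r) :
    Dfn (fun v => Cmp (s v) (t v) (r v)) := dfn3 Cmp.dfn hs ht hr

theorem Cmp.symm {le p q : M} (h : Cmp le p q) : Cmp le q p := by
  obtain ⟨r, h1, h2⟩ := h
  exact ⟨r, h2, h1⟩

/-- Every set of pairwise incompatible conditions is countable. -/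
def CCC (P le : M) : Prop :=
  ∀ A, Sb A P → (∀ p, p ∈ A → ∀ q, q ∈ A → Cmp le p q → p = q) → Le A (SigB.om : M)

theorem CCC.dfn : Dfn (fun w : Fin 2 → M => CCC (w 0) (w 1)) := by
  unfold CCC; simp (maxDischargeDepth := 50)

@[simp] theorem dfn_CCC {n : ℕ} {s t : (Fin n → M) → M} (hs : DT s) (ht : DT t) :
    Dfn (fun v => CCC (s v) (t v)) := dfn2 CCC.dfn hs ht

variable {P le one : M}

/-- Every set of conditions has a countable subset which is predense in it. -/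
theorem CCC.predense (hc : CCC P le) (hP : PO P le one) (D : M) :
    ∃ D', Sb D' D ∧ Le D' (SigB.om : M) ∧ ∀ p d, d ∈ D → Cmp le p d → ∃ d', d' ∈ D' ∧ Cmp le p d' := by
  have hd : Dfn (fun w : Fin 1 → M => ∃ d, d ∈ D ∧ op (w 0) d ∈ le) := by
    simp (maxDischargeDepth := 50)
  have hD₁ : ∀ p, p ∈ sp P (fun p => ∃ d, d ∈ D ∧ op p d ∈ le) ↔ p ∈ P ∧ ∃ d, d ∈ D ∧ op p d ∈ le :=
    fun p => mem_sp hd
  obtain ⟨A, hA, hA1, hA2⟩ := exists_maxl (sp P fun p => ∃ d, d ∈ D ∧ op p d ∈ le)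
    (C := fun x y => Cmp le x y) (by simp (maxDischargeDepth := 50)) (fun x y h => h.symm)
    (fun x hx => ⟨x, hP.refl _ ((hD₁ x).1 hx).1, hP.refl _ ((hD₁ x).1 hx).1⟩)
  have hAc : Le A (SigB.om : M) := hc A (fun p hp => ((hD₁ p).1 (hA p hp)).1) hA1
  obtain ⟨e, he, hee⟩ := choice' (a := A) (b := D) (P := fun x y => op x y ∈ le)
    (by simp (maxDischargeDepth := 50)) fun x hx => ((hD₁ x).1 (hA x hx)).2
  have hde : DT (fun w : Fin 1 → M => ap e (w 0)) := by simp (maxDischargeDepth := 50)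
  refine ⟨im A (ap e), fun z hz => ?_, hAc.image om_ord hde fun y hy => (mem_im hde).1 hy,
    fun p d hdD h => ?_⟩
  · obtain ⟨x, hx, rfl⟩ := (mem_im hde).1 hz
    exact (mem_fs.1 he).2 x hx
  · obtain ⟨r, hr, hr'⟩ := h
    obtain ⟨a, ha, s, hs, hs'⟩ := hA2 r ((hD₁ r).2 ⟨(hP.sub _ _ hr).1, d, hdD, hr'⟩)
    exact ⟨ap e a, (mem_im hde).2 ⟨a, ha, rfl⟩, s, hP.trans _ _ _ hs hr,
      hP.trans _ _ _ hs' (hee a ha)⟩

theorem CSub.ccc {leP Q leQ : M} (h : CSub P leP Q leQ one) (hc : CCC Q leQ) : CCC P leP :=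
  fun A hA hA' => hc A (fun p hp => h.sub p (hA p hp)) fun p hp q hq ⟨r, h1, h2⟩ =>
    hA' p hp q hq (h.comp p q (hA p hp) (hA q hq) ⟨r, h1, h2⟩)

/-! ### Nice names -/

/-- The name of the subset of the ground model coded by `S`. -/
noncomputable def nm (one S : M) : M := im S fun z => op (ck one (fst z)) (snd z)

theorem nm.dt : DT (fun w : Fin 2 → M => nm (w 0) (w 1)) := by
  unfold nm; simp (maxDischargeDepth := 50)

@[simp] theorem dt_nm {n : ℕ} {s t : (Fin n → M) → M} (hs : DT s) (ht : DT t) :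
    DT (fun v => nm (s v) (t v)) := dt2 nm.dt hs ht

theorem mem_nm {one S z : M} :
    z ∈ nm one S ↔ ∃ x, x ∈ S ∧ z = op (ck one (fst x)) (snd x) :=
  mem_im (by simp (maxDischargeDepth := 50))

theorem op_mem_nm {one S A w p : M} (hS : Sb S (pd A P)) :
    op w p ∈ nm one S ↔ ∃ a, op a p ∈ S ∧ w = ck one a := by
  rw [mem_nm]
  constructor
  · rintro ⟨x, hx, he⟩
    obtain ⟨a, ha, q, hq, rfl⟩ := mem_pd.1 (hS x hx)
    rw [fst_op, snd_op] at he
    obtain ⟨rfl, rfl⟩ := op_inj.1 he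
    exact ⟨a, hx, rfl⟩
  · rintro ⟨a, ha, rfl⟩
    exact ⟨_, ha, by rw [fst_op, snd_op]⟩

theorem rn_nm {S A : M} (h1 : one ∈ P) (hS : Sb S (pd A P)) : rn P (nm one S) = nm one S := by
  refine rn_eq_self fun z hz => ?_
  obtain ⟨x, hx, rfl⟩ := mem_nm.1 hz
  obtain ⟨a, ha, q, hq, rfl⟩ := mem_pd.1 (hS x hx)
  rw [fst_op, snd_op]
  exact ⟨_, _, rfl, hq, rn_ck h1 a⟩

/-- Nice names: for a countable set `A`, every name `x` is equal to a name `nm S` with `S` countable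
below every condition which forces that `x` is a subset of `A`. -/
theorem CCC.nice (hc : CCC P le) (hP : PO P le one) {A : M} (hA : Le A (SigB.om : M)) (x : M) :
    ∃ S, Sb S (pd A P) ∧ Le S (SigB.om : M) ∧ (∀ a p, op a p ∈ S → MemF P le (ck one a) x p) ∧
      ∀ q, q ∈ P → (∀ z r, op r q ∈ le → MemF P le z x r → MemF P le z (ck one A) r) →
        EqF P le x (nm one S) q := by
  -- a countable predense set for every `a ∈ A`
  obtain ⟨e, he, hee⟩ := choice' (a := A) (b := pw P) (P := fun a T =>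
    (∀ p, p ∈ T → MemF P le (ck one a) x p) ∧ Le T (SigB.om : M) ∧
      ∀ p, MemF P le (ck one a) x p → ∃ d, d ∈ T ∧ Cmp le p d)
    (by simp (maxDischargeDepth := 50)) (by
      intro a ha
      have hd : Dfn (fun w : Fin 1 → M => MemF P le (ck one a) x (w 0)) := by
        simp (maxDischargeDepth := 50)
      obtain ⟨D', h1, h2, h3⟩ := hc.predense hP (sp P fun p => MemF P le (ck one a) x p)
      refine ⟨D', mem_pw.2 fun z hz => ((mem_sp hd).1 (h1 z hz)).1,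
        fun p hp => ((mem_sp hd).1 (h1 p hp)).2, h2, fun p hp => ?_⟩
      exact h3 p p ((mem_sp hd).2 ⟨hp.1, hp⟩) ⟨p, hP.refl _ hp.1, hP.refl _ hp.1⟩)
  have heP : ∀ a, a ∈ A → Sb (ap e a) P := fun a ha => mem_pw.1 ((mem_fs.1 he).2 a ha)
  have hd : Dfn (fun w : Fin 1 → M => snd (w 0) ∈ ap e (fst (w 0))) := by
    simp (maxDischargeDepth := 50)
  have hSm : ∀ a p, op a p ∈ sp (pd A P) (fun z => snd z ∈ ap e (fst z)) ↔
      a ∈ A ∧ p ∈ ap e a := by
    intro a p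
    rw [mem_sp hd, op_mem_pd, fst_op, snd_op]
    constructor
    · rintro ⟨⟨h1, h2⟩, h3⟩
      exact ⟨h1, h3⟩
    · rintro ⟨h1, h2⟩
      exact ⟨⟨h1, heP a h1 p h2⟩, h2⟩
  have hSS : Sb (sp (pd A P) fun z => snd z ∈ ap e (fst z)) (pd A P) :=
    fun z hz => ((mem_sp hd).1 hz).1
  refine ⟨sp (pd A P) fun z => snd z ∈ ap e (fst z), hSS, ?_, fun a p hap => ?_, fun q hq hx => ?_⟩
  · -- countable
    have hdi : DT (fun w : Fin 1 → M => pd (pr (w 0) (w 0)) (ap e (w 0))) := by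
      simp (maxDischargeDepth := 50)
    have h1 : Sb (sp (pd A P) fun z => snd z ∈ ap e (fst z))
        (sU (im A fun a => pd (pr a a) (ap e a))) := by
      intro z hz
      obtain ⟨a, ha, p, hp, rfl⟩ := mem_pd.1 (hSS z hz)
      refine mem_sU.2 ⟨pd (pr a a) (ap e a), (mem_im hdi).2 ⟨a, ha, rfl⟩, ?_⟩
      exact op_mem_pd.2 ⟨by simp, ((hSm a p).1 hz).2⟩
    refine Le.mono_left (Le.union om_ord (Sb.refl _) (hA.image om_ord hdi fun y hy =>
      (mem_im hdi).1 hy) fun y hy => ?_) h1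
    obtain ⟨a, ha, rfl⟩ := (mem_im hdi).1 hy
    refine Le.trans (B := ap e a) (Le.mk (F := snd) (by simp) (fun z hz => ?_)
      fun z w hz hw h => ?_) (hee a ha).2.1
    · obtain ⟨b, hb, p, hp, rfl⟩ := mem_pd.1 hz
      rwa [snd_op]
    · obtain ⟨b, hb, p, hp, rfl⟩ := mem_pd.1 hz
      obtain ⟨b', hb', p', hp', rfl⟩ := mem_pd.1 hw
      simp only [mem_pr, or_self] at hb hb'
      rw [snd_op, snd_op] at h
      rw [hb, hb', h]
  · obtain ⟨ha, hp⟩ := (hSm a p).1 hap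
    exact (hee a ha).1 p hp
  · -- equality
    rw [eqF_iff_memF hP hq]
    constructor
    · intro z r hz q' hq' hq'r
      have hz' := memF_of_mem hP hz hq'r
      refine memF_of_dense hP hz'.1 fun s hs => ?_
      obtain ⟨t, hts, w, v, hw, htv, hzw⟩ := (hx z q' hq' hz').2 s hs
      obtain ⟨rfl, a, ha, rfl⟩ := op_mem_ck.1 hw
      have hat : MemF P le (ck v a) x t :=
        (hz'.mono hP (hP.trans _ _ _ hts hs)).congr_left hP hzw
      obtain ⟨d, hd', b, hb, hb'⟩ := (hee a ha).2.2 t hat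
      refine ⟨b, hP.trans _ _ _ hb hts, ?_⟩
      refine MemF.congr_left hP (memF_of_mem hP (r := d) (x := ck v a)
        ((op_mem_nm hSS).2 ⟨a, (hSm a d).2 ⟨ha, hd'⟩, rfl⟩) hb') ?_
      exact (hzw.mono hP hb).symm hP
    · intro w r hw q' hq' hq'r
      obtain ⟨a, ha, rfl⟩ := (op_mem_nm hSS).1 hw
      obtain ⟨ha, hr⟩ := (hSm a r).1 ha
      exact ((hee a ha).1 r hr).mono hP hq'r

end model

/-! ### Nice names in the extension -/

section ext

variable {M : Type u} [Membership M M] [IsZFC M] {P le one : M} {G : M → Prop} {N : Type u}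
  [Membership N N] {val : M → N}

/-- Elements of the value of `nm S`. -/
theorem _root_.Pool.Agent.Frc.Ext.mem_val_nm (hE : Ext P le one G val) {A S : M}
    (hS : Sb S (pd A P)) {z : N} :
    z ∈ val (nm one S) ↔ ∃ a p, op a p ∈ S ∧ G p ∧ z = val (ck one a) := by
  rw [hE.mem_val]
  constructor
  · rintro ⟨y, p, hy, hp, rfl⟩
    obtain ⟨a, ha, rfl⟩ := (op_mem_nm hS).1 hy
    exact ⟨a, p, ha, hp, rfl⟩
  · rintro ⟨a, p, ha, hp, rfl⟩
    exact ⟨ck one a, p, (op_mem_nm hS).2 ⟨a, ha, rfl⟩, hp, rfl⟩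

theorem _root_.Pool.Agent.Frc.Ext.cv_mem_val_nm (hE : Ext P le one G val) {A S a : M}
    (hS : Sb S (pd A P)) : val (ck one a) ∈ val (nm one S) ↔ ∃ p, G p ∧ op a p ∈ S := by
  rw [hE.mem_val_nm hS]
  constructor
  · rintro ⟨b, p, hb, hp, he⟩
    rw [hE.cv_inj.1 he]
    exact ⟨p, hp, hb⟩
  · rintro ⟨p, hp, h⟩
    exact ⟨a, p, h, hp, rfl⟩

/-- Every subset of a countable set of the ground model is the value of a countable name. -/
theorem _root_.Pool.Agent.Frc.Ext.exists_nm (hE : Ext P le one G val) (hc : CCC P le) {A : M}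
    (hA : Le A (SigB.om : M)) {z : N} (hz : ∀ y, y ∈ z → y ∈ val (ck one A)) :
    ∃ S, Sb S (pd A P) ∧ Le S (SigB.om : M) ∧ z = val (nm one S) := by
  obtain ⟨x, rfl⟩ := hE.surj z
  obtain ⟨S, hS, hSc, hS1, hS2⟩ := hc.nice hE.po hA x
  have hG := hE.gen
  -- a condition which forces that `x` is a subset
  by_contra hno
  push Not at hno
  obtain ⟨s, hs, hsc⟩ := hG.below hE.po (Q := fun s =>
      (∀ z r, op r s ∈ le → MemF P le z x r → MemF P le z (ck one A) r) ∨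
      ∃ z, MemF P le z x s ∧ ∀ t, op t s ∈ le → ¬ MemF P le z (ck one A) t)
    (by simp (maxDischargeDepth := 50)) hG.one fun q hq => by
      by_cases h : ∀ z r, op r q ∈ le → MemF P le z x r → MemF P le z (ck one A) r
      · exact ⟨q, hE.po.refl _ (hE.po.sub _ _ hq).1, Or.inl h⟩
      · push Not at h
        obtain ⟨z, r, hr, h1, h2⟩ := h
        have h3 : ∃ s, op s r ∈ le ∧ ∀ t, op t s ∈ le → ¬ MemF P le z (ck one A) t := by
          by_contra h4
          push Not at h4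
          exact h2 (memF_of_dense hE.po h1.1 h4)
        obtain ⟨s, hs, h3⟩ := h3
        exact ⟨s, hE.po.trans _ _ _ hs hr, Or.inr ⟨z, h1.mono hE.po hs, h3⟩⟩
  rcases hsc with h | ⟨y, h1, h2⟩
  · exact hno S hS hSc ((hE.eq_iff _ _).2 ⟨s, hs, hS2 s (hG.mem _ hs) h⟩)
  · have h3 := hz _ ((hE.mem_iff y x).2 ⟨s, hs, h1⟩)
    obtain ⟨t, ht, ht'⟩ := (hE.mem_iff _ _).1 h3
    obtain ⟨r, hr, hrs, hrt⟩ := hG.dir s t hs ht
    exact h2 r hrs (ht'.mono hE.po hrt)

end ext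

end Pool.Agent.Sep
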