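import Pool.Agent.Sep.Idx
import Pool.Agent.Sep.Nice

/-!
# The word name of a code

Below a guard `g` there is a countable name for the word of the triple `(z, real of the step t, i)`.
-/

universe u

set_option linter.unusedSectionVars false

namespace Pool.Agent.Sep

open Pool.Agent.SigB Pool.Agent.Frc Pool.Agent.Forc

variable {M : Type u} [Membership M M] [IsZFC M] {K : Cst M}

private theorem lq_refl1 (p : M) : Lq K p p := ⟨Sb.refl p, fun _ _ _ h h' => absurd h h'⟩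

private theorem lq_trans1 {p q r : M} (h : Lq K r q) (h' : Lq K q p) : Lq K r p := by
  refine ⟨h'.1.trans h.1, fun k u a hu hn ha => ?_⟩
  by_cases hq : nd k u ∈ q
  · exact h'.2 k u a hq hn ha
  · exact h.2 k u a hu hq (h'.1 _ ha)

private theorem em_mem_PX1 {X : M} : (SigB.em : M) ∈ PX K X :=
  mem_PX.2 ⟨⟨fun z hz => absurd hz (not_mem_em z), fte_em⟩, fun z hz => absurd hz (not_mem_em z),
    fun _ _ h => absurd h (not_mem_em _)⟩

private theorem po1 (X : M) : PO (PX K X) (LX K X) SigB.em where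
  sub p q h := (op_mem_LX.1 h).1
  refl p h := op_mem_LX.2 ⟨⟨h, h⟩, lq_refl1 p⟩
  trans p q r h h' := by
    rw [op_mem_LX] at *
    exact ⟨⟨h.1.1, h'.1.2⟩, lq_trans1 h.2 h'.2⟩
  one_mem := em_mem_PX1
  top p h := op_mem_LX.2 ⟨⟨h, em_mem_PX1⟩, fun z hz => absurd hz (not_mem_em z),
    fun _ _ _ _ _ h => absurd h (not_mem_em _)⟩

theorem FM.mono {X q r x z : M} (h : FM K X q x z) (hr : Lq K r q) : FM K X r x z :=
  fun s hs hsr => h s hs (lq_trans1 hsr hr)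

/-- The condition `b` below `g` decides that the bit of `y` is `e` for the word of
`(z, real of the step t, i)`. -/
def Dcd (K : Cst M) (X t i z g y e b : M) : Prop :=
  b ∈ PX K X ∧ Lq K b g ∧
  ((∃ x, y = op SigB.em x ∧ ((e = sc SigB.em ∧ FM K X b x z) ∨
      (e = SigB.em ∧ ∀ s, s ∈ PX K X → Lq K s b → ¬ FM K X s x z))) ∨
    ((¬ ∃ x, y = op SigB.em x) ∧ Shp K t i y e b))

/-- The hypotheses on the constants which are used for word names. -/
structure WHyp (K : Cst M) : Prop where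
  hf : Forc.Le K.hf om
  pair : ∀ x, x ∈ K.hf → op SigB.em x ∈ K.hf
  ix : ∀ u, u ∈ K.T → ap K.pi u ∈ K.ix
  on : ∀ u, u ∈ K.T → op u (ap K.pi u) ∈ K.on
  kl : ∀ u, u ∈ K.T → ∃ y, y ∈ K.hf ∧ op (ap K.pi u) (op y SigB.em) ∈ K.kl

theorem Dcd.shp {X t i z g y e b : M} (h : Dcd K X t i z g y e b) : Shp K t i y e b := by
  rcases h.2.2 with ⟨x, hx, -⟩ | ⟨-, h⟩
  · exact Or.inl ⟨x, hx⟩
  · exact h

theorem mem_T_of_nd {X r t u : M} (hr : r ∈ PX K X) (h : nd t u ∈ r) : u ∈ K.T := by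
  rcases mem_atm.1 ((mem_PX.1 hr).1.1 _ h) with ⟨j', u', -, h2, h3⟩ | ⟨j', a, -, -, h3⟩
  · rwa [(nd_inj.1 h3).2]
  · exact absurd h3 nd_ne_pm

theorem Dcd.coh (hK : WHyp K) {X t i z g y b b' r : M} (h : Dcd K X t i z g y SigB.em b)
    (h' : Dcd K X t i z g y (sc SigB.em) b') (hr : r ∈ PX K X) (h1 : Lq K r b) (h2 : Lq K r b') :
    False := by
  have he : (SigB.em : M) ≠ sc SigB.em := fun e => sc_ne_em _ e.symm
  rcases h.2.2 with ⟨x, rfl, h3⟩ | ⟨hx, h3⟩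
  · rcases h'.2.2 with ⟨x', hx', h4⟩ | ⟨hx', -⟩
    · obtain ⟨-, rfl⟩ := op_inj.1 hx'
      rcases h3 with ⟨h3, -⟩ | ⟨-, h3⟩
      · exact he h3
      rcases h4 with ⟨-, h4⟩ | ⟨h4, -⟩
      · exact h3 r hr h1 (h4.mono h2)
      · exact he h4.symm
    · exact hx' ⟨x, rfl⟩
  · rcases h'.2.2 with ⟨x', hx', -⟩ | ⟨-, h4⟩
    · exact hx ⟨x', hx'⟩
    rcases h3 with h3 | ⟨u, rfl, h3⟩ | ⟨-, hy, h5, h6⟩
    · exact hx h3
    · rcases h4 with h4 | ⟨u', hu', h4⟩ | ⟨-, hy, -⟩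
      · exact hx h4
      · obtain ⟨-, rfl⟩ := op_inj.1 hu'
        rcases h3 with ⟨h3, -⟩ | ⟨-, h3⟩
        · exact he h3
        rcases h4 with ⟨-, h4⟩ | ⟨h4, -⟩
        · have hur := h2.1 _ h4
          have huT := mem_T_of_nd hr hur
          rcases h3 with h3 | ⟨h3, h5⟩
          · exact h3 huT
          · exact h1.2 t u _ hur h5 h3 (hK.on u huT)
        · exact he h4.symm
      · exact hy ⟨u, rfl⟩
    · rcases h4 with h4 | ⟨u', hu', -⟩ | ⟨-, -, h7, h8⟩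
      · exact hx h4
      · exact hy ⟨u', hu'⟩
      by_cases hc : y = op (sc (sc (SigB.em : M))) i ∨ y = op (sc (sc (sc (SigB.em : M)))) (SigB.em : M)
      · exact he (h5 hc)
      · exact he (h8 hc).symm

/-- Every condition below `g` has an extension which decides the bit of `y`. -/
theorem Dcd.dense (hK : WHyp K) {X t i z g : M} (hX : t ∈ dm X) (htl : t ∈ K.lab)
    (hW : fW X t = W0 K) (y : M) {r : M} (hr : r ∈ PX K X) (hrg : Lq K r g) :
    ∃ s e, s ∈ PX K X ∧ Lq K s r ∧ e ∈ sc (sc (SigB.em : M)) ∧ Dcd K X t i z g y e s := by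
  have e0 : (SigB.em : M) ∈ sc (sc (SigB.em : M)) := mem_sc.2 (Or.inl (mem_sc_self _))
  have e1 : sc (SigB.em : M) ∈ sc (sc (SigB.em : M)) := mem_sc_self _
  by_cases hx : ∃ x, y = op SigB.em x
  · obtain ⟨x, rfl⟩ := hx
    by_cases h : ∃ s, s ∈ PX K X ∧ Lq K s r ∧ FM K X s x z
    · obtain ⟨s, hs, hsr, h⟩ := h
      exact ⟨s, _, hs, hsr, e1, hs, lq_trans1 hsr hrg, Or.inl ⟨x, rfl, Or.inl ⟨rfl, h⟩⟩⟩
    · push Not at h
      exact ⟨r, _, hr, lq_refl1 r, e0, hr, hrg, Or.inl ⟨x, rfl, Or.inr ⟨rfl, h⟩⟩⟩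
  by_cases hu : ∃ u, y = op (sc (SigB.em : M)) u
  · obtain ⟨u, rfl⟩ := hu
    by_cases huT : u ∈ K.T
    · by_cases hur : nd t u ∈ r
      · exact ⟨r, _, hr, lq_refl1 r, e1, hr, hrg,
          Or.inr ⟨hx, Or.inr (Or.inl ⟨u, rfl, Or.inl ⟨rfl, hur⟩⟩)⟩⟩
      · obtain ⟨y₀, hy₀, hkl⟩ := hK.kl u huT
        have hle : Lq K (ins r (pm t (ap K.pi u))) r := by
          refine ⟨sb_ins _ _, fun j v a h1 h2 _ => ?_⟩
          rcases mem_ins.1 h1 with h1 | h1
          · exact absurd h1 h2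
          · exact absurd h1 nd_ne_pm
        have hm := mem_PX.1 hr
        have hs : ins r (pm t (ap K.pi u)) ∈ PX K X := by
          refine mem_PX.2 ⟨⟨fun w hw => ?_, hm.1.2.ins _⟩, fun w hw => ?_, fun j a hja => ?_⟩
          · rcases mem_ins.1 hw with hw | rfl
            · exact hm.1.1 w hw
            · exact mem_atm.2 (Or.inr ⟨_, _, htl, hK.ix u huT, rfl⟩)
          · rcases mem_ins.1 hw with hw | rfl
            · exact hm.2.1 w hw
            · rw [fst_pm]; exact hX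
          · rcases mem_ins.1 hja with hja | hja
            · obtain ⟨σ, b, h1, h2, h3⟩ := hm.2.2 j a hja
              refine ⟨σ, b, h1, lq_trans1 ?_ h2, h3⟩
              refine ⟨fun w hw => ?_, fun k v a' h4 h5 _ => ?_⟩
              · have hd : ∀ f : M, w ∈ rs f (fD X j) ↔
                    w ∈ f ∧ ∃ x, x ∈ fD X j ∧ ∃ y, w = op x y := fun f => by
                  unfold rs
                  exact mem_sp (by simp (maxDischargeDepth := 50))
                rw [hd] at hw ⊢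
                exact ⟨sb_ins _ _ _ hw.1, hw.2⟩
              · have h6 : nd k v ∈ ins r (pm t (ap K.pi u)) ∧ k ∈ fD X j := op_mem_rs.1 h4
                rcases mem_ins.1 h6.1 with h7 | h7
                · exact absurd (op_mem_rs.2 ⟨h7, h6.2⟩) h5
                · exact absurd h7 nd_ne_pm
            · obtain ⟨rfl, rfl⟩ := pm_inj.1 hja
              refine ⟨op y₀ SigB.em, SigB.em, ?_, ?_, hkl⟩
              · rw [hW]; exact mem_W0.2 ⟨y₀, hy₀, rfl⟩
              · exact ⟨fun z hz => absurd hz (not_mem_em z), fun _ _ _ _ _ h =>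
                  absurd h (not_mem_em _)⟩
        refine ⟨_, _, hs, hle, e0, hs, lq_trans1 hle hrg,
          Or.inr ⟨hx, Or.inr (Or.inl ⟨u, rfl, Or.inr ⟨rfl, Or.inr ⟨?_, ?_⟩⟩⟩)⟩⟩
        · exact mem_ins.2 (Or.inr rfl)
        · intro h
          rcases mem_ins.1 h with h | h
          · exact hur h
          · exact nd_ne_pm h
    · exact ⟨r, _, hr, lq_refl1 r, e0, hr, hrg,
        Or.inr ⟨hx, Or.inr (Or.inl ⟨u, rfl, Or.inr ⟨rfl, Or.inl huT⟩⟩)⟩⟩
  · by_cases hc : y = op (sc (sc (SigB.em : M))) i ∨ y = op (sc (sc (sc (SigB.em : M)))) (SigB.em : M)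
    · exact ⟨r, _, hr, lq_refl1 r, e1, hr, hrg,
        Or.inr ⟨hx, Or.inr (Or.inr ⟨hx, hu, fun _ => rfl, fun h => absurd hc h⟩)⟩⟩
    · exact ⟨r, _, hr, lq_refl1 r, e0, hr, hrg,
        Or.inr ⟨hx, Or.inr (Or.inr ⟨hx, hu, fun h => absurd h hc, fun _ => rfl⟩)⟩⟩

/-- **Word names.** -/
theorem exists_wname (hK : WHyp K) {X t i z g : M} (hcc : CCC (PX K X) (LX K X))
    (hX : t ∈ dm X) (htl : t ∈ K.lab) (hW : fW X t = W0 K) :
    ∃ W, WOk K X W ∧ Tot K X W g ∧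
      (∀ y e b, op (op y e) b ∈ W → Lq K b g ∧ Shp K t i y e b) ∧ FE K X g (zn W) z := by
  have hDd : ∀ {n : ℕ} {s r q : (Fin n → M) → M}, DT s → DT r → DT q →
      Dfn fun v => Dcd K X t i z g (s v) (r v) (q v) := by
    intro n s r q hs hr hq
    exact dfn3 (R := fun y e b => Dcd K X t i z g y e b)
      (by unfold Dcd; simp (maxDischargeDepth := 50)) hs hr hq
  let A : M := pd K.hf (sc (sc (SigB.em : M)))
  obtain ⟨E, hE, hEv⟩ := choice' (a := A) (b := pw (PX K X)) (P := fun w T =>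
    (∀ b, b ∈ T → Dcd K X t i z g (fst w) (snd w) b) ∧ Forc.Le T (om : M) ∧
      ∀ p, Dcd K X t i z g (fst w) (snd w) p → ∃ d, d ∈ T ∧ Cmp (LX K X) p d)
    (by simp (maxDischargeDepth := 50) [hDd]) (by
      intro w _
      have hd : Dfn (fun v : Fin 1 → M => Dcd K X t i z g (fst w) (snd w) (v 0)) := by
        simp (maxDischargeDepth := 50) [hDd]
      obtain ⟨D', h1, h2, h3⟩ := hcc.predense (po1 X)
        (sp (PX K X) fun p => Dcd K X t i z g (fst w) (snd w) p)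
      refine ⟨D', mem_pw.2 fun z hz => ((mem_sp hd).1 (h1 z hz)).1,
        fun p hp => ((mem_sp hd).1 (h1 p hp)).2, h2, fun p hp => ?_⟩
      exact h3 p p ((mem_sp hd).2 ⟨hp.1, hp⟩) ⟨p, (po1 X).refl _ hp.1, (po1 X).refl _ hp.1⟩)
  have hEP : ∀ a, a ∈ A → Sb (ap E a) (PX K X) := fun a ha => mem_pw.1 ((mem_fs.1 hE).2 a ha)
  have hd : Dfn (fun w : Fin 1 → M => snd (w 0) ∈ ap E (fst (w 0))) := by
    simp (maxDischargeDepth := 50)
  let W : M := sp (pd A (PX K X)) fun z => snd z ∈ ap E (fst z)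
  have hWm : ∀ a b, op a b ∈ W ↔ a ∈ A ∧ b ∈ ap E a := by
    intro a b
    show op a b ∈ sp (pd A (PX K X)) (fun z => snd z ∈ ap E (fst z)) ↔ _
    rw [mem_sp hd, op_mem_pd, fst_op, snd_op]
    constructor
    · rintro ⟨⟨h1, -⟩, h3⟩
      exact ⟨h1, h3⟩
    · rintro ⟨h1, h2⟩
      exact ⟨⟨h1, hEP a h1 b h2⟩, h2⟩
  have hWs : Sb W (pd A (PX K X)) := fun z hz => ((mem_sp hd).1 hz).1
  have hWc : Forc.Le W (om : M) := by
    have hdi : DT (fun w : Fin 1 → M => pd (pr (w 0) (w 0)) (ap E (w 0))) := by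
      simp (maxDischargeDepth := 50)
    have h1 : Sb W (sU (im A fun a => pd (pr a a) (ap E a))) := by
      intro z hz
      obtain ⟨a, ha, p, hp, rfl⟩ := mem_pd.1 (hWs z hz)
      refine mem_sU.2 ⟨pd (pr a a) (ap E a), (mem_im hdi).2 ⟨a, ha, rfl⟩, ?_⟩
      exact op_mem_pd.2 ⟨by simp, ((hWm a p).1 hz).2⟩
    have hA : Forc.Le A (om : M) := by
      refine Forc.Le.trans (Forc.Le.pd hK.hf (C := sc (sc (SigB.em : M))) (D := (om : M)) ?_)
        (hess om_ord (Sb.refl om))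
      exact Forc.Le.of_sb (om_ord.sb (sc_mem_om (sc_mem_om em_mem_om)))
    refine Le.mono_left (Le.union om_ord (Sb.refl _) (hA.image om_ord hdi fun y hy =>
      (mem_im hdi).1 hy) fun y hy => ?_) h1
    obtain ⟨a, ha, rfl⟩ := (mem_im hdi).1 hy
    refine Le.trans (B := ap E a) (Le.mk (F := snd) (by simp) (fun z hz => ?_)
      fun z w hz hw h => ?_) (hEv a ha).2.1
    · obtain ⟨b, hb, p, hp, rfl⟩ := mem_pd.1 hz
      rwa [snd_op]
    · obtain ⟨b, hb, p, hp, rfl⟩ := mem_pd.1 hz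
      obtain ⟨b', hb', p', hp', rfl⟩ := mem_pd.1 hw
      simp only [mem_pr, or_self] at hb hb'
      rw [snd_op, snd_op] at h
      rw [hb, hb', h]
  have hWd : ∀ y e b, op (op y e) b ∈ W → Dcd K X t i z g y e b := by
    intro y e b h
    obtain ⟨h1, h2⟩ := (hWm _ _).1 h
    have := (hEv _ h1).1 b h2
    rwa [fst_op, snd_op] at this
  have hpre : ∀ y e s, y ∈ K.hf → e ∈ sc (sc (SigB.em : M)) → Dcd K X t i z g y e s →
      ∃ s' b, s' ∈ PX K X ∧ Lq K s' s ∧ op (op y e) b ∈ W ∧ Lq K s' b := by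
    intro y e s hy he hs
    have hA : op y e ∈ A := op_mem_pd.2 ⟨hy, he⟩
    obtain ⟨d, hd, s', h1, h2⟩ := (hEv _ hA).2.2 s (by rwa [fst_op, snd_op])
    rw [op_mem_LX] at h1 h2
    exact ⟨s', d, h1.1.1, h1.2, (hWm _ _).2 ⟨hA, hd⟩, h2.2⟩
  have hT : Tot K X W g := by
    intro r hr hrg y hy
    obtain ⟨s, e, hs, hsr, he, hD⟩ := Dcd.dense hK (z := z) (i := i) hX htl hW y hr hrg
    obtain ⟨s', b, h1, h2, h3, h4⟩ := hpre y e s hy he hD
    exact ⟨s', h1, lq_trans1 h2 hsr, e, b, h3, h4⟩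
  refine ⟨W, ⟨hWc, fun w hw => ?_, fun y b b' r h1 h2 hr h3 => ?_, fun σ b h => ?_⟩, hT,
    fun y e b h => ⟨(hWd y e b h).2.1, (hWd y e b h).shp⟩, fun x hx r hr hrg => ?_⟩
  · obtain ⟨a, ha, b, hb, rfl⟩ := mem_pd.1 (hWs w hw)
    obtain ⟨y, hy, e, he, rfl⟩ := mem_pd.1 ha
    exact ⟨y, e, b, hy, he, hb, rfl⟩
  · exact (hWd _ _ _ h1).coh hK (hWd _ _ _ h2) hr h3.1 h3.2
  · obtain ⟨a, ha, b', hb', he⟩ := mem_pd.1 (hWs _ h)
    obtain ⟨rfl, rfl⟩ := op_inj.1 he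
    obtain ⟨y, hy, e, he, rfl⟩ := mem_pd.1 ha
    exact fun r hr hrb => hT r hr (lq_trans1 hrb (hWd y e b h).2.1)
  · constructor
    · intro h r' hr' hrr
      obtain ⟨s, hs, hsr, b, hb, hsb⟩ := h r' hr' hrr
      rw [op_mem_zn] at hb
      rcases (hWd _ _ _ hb).2.2 with ⟨x', hx', h1⟩ | ⟨h1, -⟩
      · obtain ⟨-, rfl⟩ := op_inj.1 hx'
        rcases h1 with ⟨-, h1⟩ | ⟨h1, -⟩
        · obtain ⟨s', hs', h2, h3⟩ := h1 s hs hsb
          exact ⟨s', hs', lq_trans1 h2 hsr, h3⟩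
        · exact absurd h1 (sc_ne_em _)
      · exact absurd ⟨x, rfl⟩ h1
    · intro h r' hr' hrr
      obtain ⟨s', b, h1, h2, h3, h4⟩ := hpre (op SigB.em x) (sc SigB.em) r' (hK.pair x hx) (mem_sc_self _)
        ⟨hr', lq_trans1 hrr hrg, Or.inl ⟨x, rfl, Or.inl ⟨rfl, h.mono hrr⟩⟩⟩
      exact ⟨s', h1, h2, b, op_mem_zn.2 h3, h4⟩

end Pool.Agent.Sep
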