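import Pool.Agent.Sep.Kst
import Pool.Agent.Sep.WName
import Pool.Agent.Sep.Codes

/-!
# The hypotheses of word names hold for the constants
-/

universe u

namespace Pool.Agent.Sep

open Pool.Agent.SigB Pool.Agent.Forc

variable {M : Type u} [Membership M M] [IsZFC M] {K : Cst M}

theorem em_mem_HF : (SigB.em : M) ∈ (HF : M) :=
  mem_HF.2 ⟨SigB.em, em_mem_om, fun z hz => (not_mem_em z hz).elim⟩

theorem KS.whyp (hL : GL.AllL M) (h : KS K) : WHyp K where
  hf := by rw [h.hf]; exact le_HF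
  pair x hx := by
    rw [h.hf] at hx ⊢
    exact ad_HF.op em_mem_HF hx
  ix u hu := by rw [h.T] at hu; exact (h.pi u hu).1
  on u hu := by rw [h.T] at hu; exact h.on_pi hL hu
  kl u hu := by
    rw [h.T] at hu
    refine ⟨SigB.em, by rw [h.hf]; exact em_mem_HF, ?_⟩
    exact h.kl_pi hu em_mem_HF (mem_sc.2 (Or.inl (mem_sc_self _)))

theorem KS.hf_op (h : KS K) (x y : M) (hxy : op x y ∈ K.hf) : y ∈ K.hf := by
  rw [h.hf] at hxy ⊢
  have h1 : pr x y ∈ (HF : M) := tr_HF _ hxy _ (by unfold op; simp)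
  exact tr_HF _ h1 _ (by simp)

end Pool.Agent.Sep
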