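import Pool.Agent.Sep.Lawful
import Pool.Agent.Sep.CopyL
import Pool.Agent.Sep.ActF
import Pool.Agent.Sep.WHyp

/-!
# The laws hold for the constants of the construction
-/

universe u

set_option linter.unusedSectionVars false

namespace Pool.Agent.Sep

open Pool.Agent.SigB Pool.Agent.Forc Pool.Agent.Frc
open Pool.Agent.FDia (W1)

variable {M : Type u} [Membership M M] [IsZFC M]

theorem KS.lawK {K : Cst M} (hK : KS K) (hL : GL.AllL M) (hs : Suc K.ix K.lab) : LawK K where
  suc := hs
  w1 := hK.w1
  T := by rw [hK.T]; exact le_Sq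
  ix := w1_le_pw hK.w1
  wh := hK.whyp hL
  hf2 := hK.hf_op

variable [Countable M]

/-- The copy law. -/
theorem LawK.copy {K : Cst M} (h : LawK K) : CopyK (frm K) := fun hX hB hE hXB hXE ht htt hL hr ha
    hz hF =>
  copy_law (K := frm K) h.suc h.hf2 (fun _ hh _ _ _ _ hY hq ha hz hF => hh.frm_F hY hq ha hz hF)
    hX hB hE hXB hXE ht htt hL hr ha hz hF

/-- **The laws hold** for the constants of the construction. -/
theorem LawK.rest {K : Cst M} (h : LawK K) : Rest (frm K) := Sep.rest h h.copy

theorem LawK.laws {K : Cst M} (h : LawK K) : (api (frm K)).Laws := h.rest.laws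

/-- The laws hold for the constants `K0 w₁ w₂`. -/
theorem laws_K0 (hL : GL.AllL M) {w₁ w₂ : M} (hw : W1 w₁) (hs : Suc w₁ w₂) :
    (api (frm (K0 w₁ w₂))).Laws := ((ks_K0 hL hw).lawK hL hs).laws

end Pool.Agent.Sep
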