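import Pool.Agent.Sep.Fin
import Pool.Agent.FTwo.Cnt

/-!
Counting in a model of ZFC in which the continuum hypothesis holds: a set of cardinality at most
`ω₁` has at most `ω₁` countable subsets. Countable subsets of the union of an increasing sequence
of length `ω₁`.
-/

universe u

set_option linter.unusedSectionVars false

namespace Pool.Agent.Sep

open Pool.Agent.SigB Pool.Agent.Forc Pool.Agent.Frc
open Pool.Agent.FDia (W1)
open Pool.Agent.FTwo (le_fs le_fs_pw)

variable {M : Type u} [Membership M M] [IsZFC M]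

/-- The set of the countable subsets of `A`. -/
noncomputable def cset (A : M) : M := sp (pw A) fun x => Le x om

theorem mem_cset {A x : M} : x ∈ cset A ↔ Sb x A ∧ Le x om := by
  have h1 : x ∈ cset A ↔ x ∈ pw A ∧ Le x om := mem_sp (by simp (maxDischargeDepth := 50))
  rw [h1, mem_pw]

theorem cset.dt : DT (fun w : Fin 1 → M => cset (w 0)) := by
  unfold cset; simp (maxDischargeDepth := 50)

@[simp] theorem dt_cset {n : ℕ} {s : (Fin n → M) → M} (hs : DT s) : DT (fun v => cset (s v)) :=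
  dt1 cset.dt hs

theorem cset_mono {A B : M} (h : Sb A B) : Sb (cset A) (cset B) := fun _ hx =>
  mem_cset.2 ⟨(mem_cset.1 hx).1.trans h, (mem_cset.1 hx).2⟩

theorem Fte.le_om {x : M} (h : Fte x) : Le x (om : M) := by
  obtain ⟨n, hn, h⟩ := h
  exact h.mono_right (om_ord.sb hn)

theorem fpw_sb_cset (A : M) : Sb (fpw A) (cset A) := fun _ hx =>
  mem_cset.2 ⟨(mem_fpw.1 hx).1, (mem_fpw.1 hx).2.le_om⟩

/-- A surjection from a larger set. -/
theorem exists_surj {X w : M} (h : Le X w) (hne : ∃ x, x ∈ X) :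
    ∃ e, e ∈ fs w X ∧ ∀ x, x ∈ X → ∃ a, a ∈ w ∧ ap e a = x := by
  classical
  obtain ⟨x₀, hx₀⟩ := hne
  obtain ⟨i, hi, hii⟩ := h
  have hiv := (mem_fs.1 hi).2
  obtain ⟨e, he, hes⟩ := choice' (a := w) (b := X)
    (P := fun a x => ∀ x', x' ∈ X → ap i x' = a → x = x')
    (by simp (maxDischargeDepth := 50)) (by
      intro a _
      by_cases h : ∃ x, x ∈ X ∧ ap i x = a
      · obtain ⟨x, hx, hxa⟩ := h
        exact ⟨x, hx, fun x' hx' h' => hii x x' hx hx' (hxa.trans h'.symm)⟩
      · push Not at h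
        exact ⟨x₀, hx₀, fun x' hx' h' => absurd h' (h x' hx')⟩)
  exact ⟨e, he, fun x hx => ⟨ap i x, hiv x hx, hes _ (hiv x hx) x hx rfl⟩⟩

section

variable {w : M} (hw : W1 w)

include hw

theorem w1_om_sb : Sb (om : M) w := hw.ord.sb hw.om_mem

theorem w1_le_pd {A B : M} (hA : Le A w) (hB : Le B w) : Le (pd A B) w :=
  (hA.pd hB).trans (hess hw.ord (w1_om_sb hw))

theorem w1_le_un {A B : M} (hA : Le A w) (hB : Le B w) : Le (un A B) w := by
  have h1 : un A B = sU (pr A B) := ext' fun z => by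
    rw [mem_un, mem_sU]
    constructor
    · rintro (h | h)
      · exact ⟨A, by simp, h⟩
      · exact ⟨B, by simp, h⟩
    · rintro ⟨x, hx, hz⟩
      rcases mem_pr.1 hx with rfl | rfl
      · exact Or.inl hz
      · exact Or.inr hz
  rw [h1]
  refine Le.union hw.ord (w1_om_sb hw) ?_ ?_
  · exact (le_om_pr A B).mono_right (w1_om_sb hw)
  · intro x hx
    rcases mem_pr.1 hx with rfl | rfl
    · exact hA
    · exact hB

/-- `ω₁ ≤ 2^ω`. -/
theorem w1_le_pw : Le w (pw (om : M)) := by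
  obtain ⟨k, hk, h1, h2⟩ := exists_ord (pw (om : M))
  refine Le.trans (Le.of_sb ?_) h2
  refine (hk.not_mem_iff hw.ord).1 fun h => ?_
  exact cantor (om : M) (h1.trans ((hw.mem k hk).1 h))

/-- `ω₁^ω = ω₁` if the continuum hypothesis holds. -/
theorem w1_le_fs_om (hCH : Le (pw (om : M)) w) {A : M} (hA : Le A w) : Le (fs (om : M) A) w := by
  refine (le_fs (hA.trans (w1_le_pw hw))).trans (le_fs_pw.trans (Le.trans (Le.pw ?_) hCH))
  exact hess om_ord (Sb.refl _)

/-- There are at most `ω₁` countable subsets of a set of cardinality at most `ω₁` if the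
continuum hypothesis holds. -/
theorem w1_le_cset (hCH : Le (pw (om : M)) w) {A : M} (hA : Le A w) : Le (cset A) w := by
  classical
  obtain ⟨i, hi, hii⟩ := hA
  have hiv := (mem_fs.1 hi).2
  refine Le.trans ?_ (w1_le_fs_om hw hCH (le_sc (w1_om_sb hw)))
  obtain ⟨g, hg, hgs⟩ := choice' (a := cset A) (b := fs (om : M) (sc w))
    (P := fun x e => ∀ a, a ∈ A → (a ∈ x ↔ ∃ m, m ∈ (om : M) ∧ ap e m = ap i a))
    (by simp (maxDischargeDepth := 50)) (by
      intro x hx
      obtain ⟨hxA, j, hj, hji⟩ := mem_cset.1 hx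
      have hjv := (mem_fs.1 hj).2
      obtain ⟨e, he, hes⟩ := choice' (a := (om : M)) (b := sc w)
        (P := fun m v => (∃ a, a ∈ x ∧ ap j a = m ∧ v = ap i a) ∨
            (v = w ∧ ∀ a, a ∈ x → ap j a ≠ m))
        (by simp (maxDischargeDepth := 50)) (by
          intro m _
          by_cases h : ∃ a, a ∈ x ∧ ap j a = m
          · obtain ⟨a, ha, ham⟩ := h
            exact ⟨ap i a, mem_sc.2 (Or.inl (hiv a (hxA a ha))), Or.inl ⟨a, ha, ham, rfl⟩⟩
          · push Not at h
            exact ⟨w, mem_sc_self w, Or.inr ⟨rfl, h⟩⟩)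
      refine ⟨e, he, fun a ha => ⟨fun h => ?_, ?_⟩⟩
      · have hm := hjv a h
        refine ⟨ap j a, hm, ?_⟩
        rcases hes _ hm with ⟨b, hb, h3, h4⟩ | ⟨-, h3⟩
        · rw [h4, hji b a hb h h3]
        · exact absurd rfl (h3 a h)
      · rintro ⟨m, hm, h⟩
        rcases hes _ hm with ⟨b, hb, -, h4⟩ | ⟨h4, -⟩
        · rw [h] at h4
          rw [hii a b ha (hxA b hb) h4]
          exact hb
        · rw [h] at h4
          have h5 := hiv a ha
          rw [h4] at h5
          exact absurd h5 (not_mem_self w))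
  refine ⟨g, hg, fun x y hx hy he => ext' fun a => ?_⟩
  constructor
  · intro ha
    have haA := (mem_cset.1 hx).1 a ha
    rw [hgs y hy a haA, ← he, ← hgs x hx a haA]
    exact ha
  · intro ha
    have haA := (mem_cset.1 hy).1 a ha
    rw [hgs x hx a haA, he, ← hgs y hy a haA]
    exact ha

theorem w1_le_fpw (hCH : Le (pw (om : M)) w) {A : M} (hA : Le A w) : Le (fpw A) w :=
  (w1_le_cset hw hCH hA).mono_left (fpw_sb_cset A)

/-- A countable set of countable ordinals is bounded. -/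
theorem w1_bdd {x : M} (hx : Le x om) (hxw : Sb x w) : ∃ b, b ∈ w ∧ ∀ a, a ∈ x → a ∈ b := by
  have h1 : SigB.Ord (sU x) := ord_sU fun a ha => hw.ord.mem (hxw a ha)
  have h2 : Le (sU x) (om : M) := Le.union om_ord (Sb.refl _) hx fun a ha =>
    (hw.mem a (hw.ord.mem (hxw a ha))).1 (hxw a ha)
  refine ⟨sc (sU x), W1.sc_mem hw ((hw.mem _ h1).2 h2), fun a ha => ?_⟩
  refine mem_sc.2 ?_
  rcases Ord.tri (hw.ord.mem (hxw a ha)) h1 with h | h | h
  · exact Or.inl h
  · exact Or.inr h
  · exact absurd (mem_sU.2 ⟨a, ha, h⟩) (not_mem_self _)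

/-- A countable subset of the union of an increasing sequence of length `ω₁` is a subset of a
member of the sequence. -/
theorem w1_stage {S : M → M} (hS : DT (fun v : Fin 1 → M => S (v 0)))
    (hmono : ∀ a b, b ∈ w → a ∈ b → Sb (S a) (S b)) {x : M} (hx : Le x om)
    (hsub : ∀ z, z ∈ x → ∃ a, a ∈ w ∧ z ∈ S a) : ∃ b, b ∈ w ∧ Sb x (S b) := by
  have hS' : ∀ {n : ℕ} {s : (Fin n → M) → M}, DT s → DT fun v => S (s v) := fun hs => dt1 hS hs
  obtain ⟨f, hf, hfs⟩ := choice' (a := x) (b := w) (P := fun z a => z ∈ S a)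
    (by simp (maxDischargeDepth := 50) [hS']) hsub
  have hfv := (mem_fs.1 hf).2
  obtain ⟨b, hb, hbs⟩ := w1_bdd hw (x := im x (ap f))
    (Le.image om_ord hx (F := ap f) (by simp (maxDischargeDepth := 50))
      fun y hy => (mem_im (by simp (maxDischargeDepth := 50))).1 hy)
    (fun a ha => by
      obtain ⟨z, hz, rfl⟩ := (mem_im (by simp (maxDischargeDepth := 50))).1 ha
      exact hfv z hz)
  refine ⟨b, hb, fun z hz => hmono _ b hb (hbs _ ?_) z (hfs z hz)⟩
  exact (mem_im (by simp (maxDischargeDepth := 50))).2 ⟨z, hz, rfl⟩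

end

end Pool.Agent.Sep
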