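import Pool.Agent.GL.Gch
import Pool.Agent.FDia.Ext
import Pool.Agent.Sep.Count

/-!
The ground model: a countable model of ZFC in which all sets are constructible. The continuum
hypothesis holds in it.
-/

universe u

set_option linter.unusedSectionVars false

namespace Pool.Agent.Sep

open Pool.Agent.SigB Pool.Agent.Forc
open Pool.Agent.FDia (W1)
open Pool.Agent.GL (AllL)

/-- If there is a model of ZFC then there is a countable model of ZFC in which all sets are
constructible. -/
theorem exists_start (M : Type u) [Membership M M] [IsZFC M] :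
    ∃ (N : Type u) (_ : Membership N N) (_ : IsZFC N), Countable N ∧ AllL N := by
  obtain ⟨M₀, i₀, hz₀, hc⟩ := FDia.exists_countable M
  haveI := hz₀
  haveI hz : GL.IsZF (GL.LM M₀) := GL.isZF_LM
  have hA : AllL (GL.LM M₀) := GL.allL_LM
  exact ⟨GL.LM M₀, inferInstance, GL.isZFC_of_allL hA, Subtype.countable, hA⟩

/-- The same, where the new model is well-founded if the given model is well-founded. -/
theorem exists_start_wf (M : Type u) [Membership M M] [IsZFC M] :
    ∃ (N : Type u) (_ : Membership N N) (_ : IsZFC N), Countable N ∧ AllL N ∧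
      (WellFounded (fun x y : M => x ∈ y) → WellFounded (fun x y : N => x ∈ y)) := by
  have hne : Nonempty M := ⟨(exists_em (M := M)).choose⟩
  obtain ⟨S, hc, -, hS'⟩ := exists_full (M := M)
  letI inst : Membership S S := subMem S
  haveI h1 : IsZFC S := transferZ (M := M) (M₀ := S) (j := Subtype.val)
    (fun {p₀ p} h => hS'.closed h)
  haveI hz : GL.IsZF (GL.LM S) := GL.isZF_LM
  have hA : AllL (GL.LM S) := GL.allL_LM
  haveI : Countable S := hc.to_subtype
  refine ⟨GL.LM S, inferInstance, GL.isZFC_of_allL hA, Subtype.countable, hA, fun h => ?_⟩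
  exact InvImage.wf (fun x : GL.LM S => (x.1.1 : M)) h

/-- The continuum hypothesis. -/
theorem ch_of_allL {M : Type u} [Membership M M] [IsZFC M] (hL : AllL M) {w : M} (hw : W1 w) :
    Le (pw (om : M)) w := by
  have h1 : IsInfCardinal (om : M) := by
    refine isInfCardinal_iff.2 ⟨isCardinal_iff.2 ⟨om_ord, fun a ha h => not_le_om ha h⟩, Sb.refl _⟩
  have h2 : IsCardinal w := isCardinal_iff.2 ⟨hw.ord, fun a ha h =>
    hw.nle (h.trans ((hw.mem a (hw.ord.mem ha)).1 ha))⟩
  exact injects_iff.1 (GL.gch_of_allL hL om w (pw om) h1 h2 hw.om_mem (isPower_iff.2 rfl))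

end Pool.Agent.Sep
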