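import Pool.Agent.Sep.CplI
import Pool.Agent.Sep.Good
import Pool.Agent.Sep.LawsK
import Pool.Agent.Sep.Start

/-!
# Complete positions exist

The empty position, and the complete positions for the constants of the construction.
-/

universe u

set_option linter.unusedSectionVars false

namespace Pool.Agent.Sep

open Pool.Agent.SigB Pool.Agent.Forc Pool.Agent.Frc
open Pool.Agent.FDia (W1)

variable {M : Type u} [Membership M M] [IsZFC M]

namespace CplE

theorem dm_em : dm (SigB.em : M) = SigB.em := ext' fun j => by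
  rw [mem_dm]
  exact ⟨fun ⟨z, hz, _⟩ => (not_mem_em _ hz).elim, fun h => (not_mem_em _ h).elim⟩

theorem fn_em : Fn (SigB.em : M) (SigB.em : M) :=
  ⟨fun _ hz => (not_mem_em _ hz).elim, fun _ hz => (not_mem_em _ hz).elim⟩

/-- The empty system. -/
theorem isSys_em (K : Cst M) : IsSys K (SigB.em : M) := by
  refine ⟨?_, ?_, ?_, ?_⟩
  · rw [dm_em]; exact fn_em
  · rw [dm_em]; exact fun _ hz => (not_mem_em _ hz).elim
  · rw [dm_em]; exact Le.of_sb fun _ hz => (not_mem_em _ hz).elim
  · rw [dm_em]; exact fun _ hz => (not_mem_em _ hz).elim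

/-- The empty position. -/
theorem pos_em (K : Frm M) : Pos K (SigB.em : M) SigB.em := by
  refine ⟨isSys_em _, fun l l' hl => ?_, fun _ hz => (not_mem_em _ hz).elim⟩
  rw [dm_em] at hl
  exact (not_mem_em _ hl).elim

end CplE

variable [Countable M]

/-- **Every position has a complete extension.** -/
theorem LawK.exists_cmpI (hL : GL.AllL M) {K : Cst M} (h : LawK K) {X O : M}
    (hX : Pos (frm K) X O) : ∃ Y Q, Ple (frm K) X O Y Q ∧ CmpI (frm K) Y Q := by
  have hT : Forc.Le K.T K.ix := h.T.mono_right (w1_om_sb h.w1)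
  have hhf : Forc.Le K.hf K.ix := h.wh.hf.mono_right (w1_om_sb h.w1)
  have hCH := ch_of_allL hL h.w1
  exact exists_cmpI_of hL h.rest h.w1 hT hCH hhf
    (fun X O hX => exists_good hL h.rest h.w1 hT hCH hhf hX) hX

/-- **There is a complete position.** -/
theorem LawK.exists_complete (hL : GL.AllL M) {K : Cst M} (h : LawK K) :
    ∃ (X O : M) (hX : IsSys K X), CmpI (frm K) X O ∧
      (api (frm K)).Complete ⟨X, hX⟩ {t | t ∈ O} := by
  obtain ⟨Y, Q, -, h1⟩ := h.exists_cmpI hL (CplE.pos_em (frm K))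
  exact ⟨Y, Q, h1.1.1, h1, h1.complete⟩

/-- There is a complete position for the constants `K0 w₁ w₂`. -/
theorem exists_complete_K0 (hL : GL.AllL M) {w₁ w₂ : M} (hw : W1 w₁) (hs : Suc w₁ w₂) :
    ∃ (X O : M) (hX : IsSys (K0 w₁ w₂) X), CmpI (frm (K0 w₁ w₂)) X O ∧
      (api (frm (K0 w₁ w₂))).Complete ⟨X, hX⟩ {t | t ∈ O} :=
  ((ks_K0 hL hw).lawK hL hs).exists_complete hL

end Pool.Agent.Sep
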