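import Pool.Agent.SigB.Bridge
import Pool.Agent.Frc.Zfc

/-!
Forcing extensions in the primitive language: `IsForcing P le`, `IsGenericFilter P le G` and
`IsExtension P le G N`, where `P` and `le` are elements of a structure `(M, ∈)`, `G` is a filter on
`P` which meets all dense subsets of `P` that belong to `M`, and `N` is the extension `M[G]`.
-/

universe u

namespace Pool.Agent.Sep

open Pool.Agent.SigB

section

variable {M : Type u} [Membership M M]

/-- `P` is a forcing notion: `P` is nonempty, and `le`, the set of the pairs `(p, q)` with `p ≤ q`,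
is a reflexive and transitive relation on `P`. -/
structure IsForcing (P le : M) : Prop where
  nonempty : ∃ p, p ∈ P
  sub : ∀ p q, Val le p q → p ∈ P ∧ q ∈ P
  refl : ∀ p, p ∈ P → Val le p p
  trans : ∀ p q r, Val le p q → Val le q r → Val le p r

/-- `D` is a dense subset of `P`. -/
def IsDense (P le D : M) : Prop := IsSub D P ∧ ∀ p, p ∈ P → ∃ q, q ∈ D ∧ Val le q p

/-- `G` is an `M`-generic filter on `P`: a filter which meets all dense subsets of `P` that belong
to `M`. -/
structure IsGenericFilter (P le : M) (G : M → Prop) : Prop where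
  sub : ∀ p, G p → p ∈ P
  nonempty : ∃ p, G p
  up : ∀ p q, G p → Val le p q → G q
  dir : ∀ p q, G p → G q → ∃ r, G r ∧ Val le r p ∧ Val le r q
  generic : ∀ D, IsDense P le D → ∃ p, p ∈ D ∧ G p

/-- `N` is the extension `M[G]`: it consists of the values `val t` of the names `t`, and the
elements of `val t` are the `val s` for the pairs `(s, p)` in `t` with `p` in `G`. (If membership
in `M` is well-founded then `val` is determined by recursion.) -/
def IsExtension (G : M → Prop) (N : Type u) [Membership N N] : Prop :=
  ∃ val : M → N, Function.Surjective val ∧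
    ∀ t z, z ∈ val t ↔ ∃ s p, Val t s p ∧ G p ∧ val s = z

end

/-- `N` is a forcing extension of `K`: for a forcing notion `P` in `K` and a `K`-generic filter `G`
on `P`, `N` is the extension `K[G]`. -/
def IsForcingExtension (K N : Type u) [Membership K K] [Membership N N] : Prop :=
  ∃ (P le : K) (G : K → Prop), IsForcing P le ∧ IsGenericFilter P le G ∧ IsExtension G N

variable {M : Type u} [Membership M M] [IsZFC M]

theorem isForcing_of {P le one : M} (h : Frc.PO P le one) : IsForcing P le where
  nonempty := ⟨one, h.one_mem⟩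
  sub := fun p q hq => h.sub p q (val_iff.1 hq)
  refl := fun p hp => val_iff.2 (h.refl p hp)
  trans := fun p q r h1 h2 => val_iff.2 (h.trans p q r (val_iff.1 h1) (val_iff.1 h2))

theorem isGenericFilter_of {P le one : M} {G : M → Prop} (h : Frc.Gen P le one G) :
    IsGenericFilter P le G where
  sub := h.mem
  nonempty := ⟨one, h.one⟩
  up := fun p q hp hq => h.up p q hp (val_iff.1 hq)
  dir := fun p q hp hq => by
    obtain ⟨r, hr, h1, h2⟩ := h.dir p q hp hq
    exact ⟨r, hr, val_iff.2 h1, val_iff.2 h2⟩
  generic := fun D hD => by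
    obtain ⟨p, hp, hpD⟩ := h.gen D fun p hp => by
      obtain ⟨q, hq, hqp⟩ := hD.2 p hp
      exact ⟨q, val_iff.1 hqp, hq⟩
    exact ⟨p, hpD, hp⟩

theorem isExtension_of {P le one : M} {G : M → Prop} {N : Type u} [Membership N N] {val : M → N}
    (h : Frc.Ext P le one G val) : IsExtension G N := by
  refine ⟨val, h.surj, fun t z => ?_⟩
  rw [h.mem_val]
  constructor
  · rintro ⟨s, p, hs, hp, rfl⟩
    exact ⟨s, p, val_iff.2 hs, hp, rfl⟩
  · rintro ⟨s, p, hs, hp, rfl⟩
    exact ⟨s, p, val_iff.1 hs, hp, rfl⟩

end Pool.Agent.Sep
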