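import Pool.Agent.Sep.EndG
import Pool.Agent.Sep.CplE
import Pool.Agent.Sep.GenExt

/-!
The final theorem: a model with both separation properties.
-/

universe u

set_option linter.unusedSectionVars false

namespace Pool.Agent.Sep

open Pool.Agent.SigB Pool.Agent.Forc Pool.Agent.Frc
open Pool.Agent.FDia (W1)

section

variable {M : Type u} [Membership M M] [IsZFC M] [Countable M]

/-- The two separation properties hold in the extension by the poset of a complete position. -/
theorem bothSep_ext (hL : GL.AllL M) {K : Cst M} (hK : KS K) (hs : Suc K.ix K.lab) {X O : M}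
    (hX : IsSys K X) (hC : (api (frm K)).Complete ⟨X, hX⟩ {t | t ∈ O}) {G : M → Prop}
    {N : Type u} [Membership N N] [IsZFC N] {val : M → N}
    (hE : Ext (PX K X) (LX K X) (SigB.em : M) G val) : SigmaSep N ∧ PiSep N := by
  have h := hK.lawK hL hs
  exact Sem.bothSep (finSys_of h.rest hX hC)
    (sem_of hL hK.hf hX (h.ccc hX) hE (codF_of hL hK hX hE))

end

/-- Every countable model of ZFC in which all sets are constructible has a forcing extension with
both separation properties. -/
theorem exists_ext_bothSep (M : Type u) [Membership M M] [IsZFC M] [Countable M]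
    (hL : GL.AllL M) : ∃ (N : Type u) (_ : Membership N N), IsForcingExtension M N ∧ IsZFC N ∧
      SigmaSep N ∧ PiSep N := by
  obtain ⟨w₁, hw⟩ := FDia.exists_w1 (M := M)
  obtain ⟨w₂, hs⟩ := exists_suc hw.ord (w1_om_sb hw)
  have hK : KS (K0 w₁ w₂) := ks_K0 hL hw
  obtain ⟨X, O, hX, -, hC⟩ := exists_complete_K0 hL hw hs
  have hP := po_PX (K0 w₁ w₂) X
  obtain ⟨G, hG, -⟩ := exists_gen hP hP.one_mem
  obtain ⟨N, iN, val, hE⟩ := exists_ext hP hG
  have iZ : IsZFC N := hE.isZFC
  obtain ⟨h1, h2⟩ := bothSep_ext hL hK hs hX hC hE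
  exact ⟨N, iN, ⟨_, _, G, isForcing_of hP, isGenericFilter_of hG, isExtension_of hE⟩, iZ, h1, h2⟩

/-- If there is a model of ZFC then there is a countable model of ZFC which has a forcing extension
with both separation properties. -/
theorem exists_bothSep (M : Type u) [Membership M M] [IsZFC M] :
    ∃ (K N : Type u) (_ : Membership K K) (_ : Membership N N), Countable K ∧ IsZFC K ∧
      (WellFounded (fun x y : M => x ∈ y) → WellFounded (fun x y : K => x ∈ y)) ∧
      IsForcingExtension K N ∧ IsZFC N ∧ SigmaSep N ∧ PiSep N := by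
  obtain ⟨K, iK, hK, hc, hL, hwf⟩ := exists_start_wf M
  obtain ⟨N, iN, h1, h2, h3, h4⟩ := exists_ext_bothSep K hL
  exact ⟨K, N, iK, iN, hc, hK, hwf, h1, h2, h3, h4⟩

end Pool.Agent.Sep
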