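import Pool.Agent.Sep.RulA
import Pool.Agent.Sep.Lab
import Pool.Agent.Sep.WName

/-!
# New steps

A system can be extended by a tag step and by a code step with a new label.
-/

universe u

set_option linter.unusedSectionVars false

namespace Pool.Agent.Sep

open Pool.Agent.SigB Pool.Agent.Forc Pool.Agent.Frc

variable {M : Type u} [Membership M M] [IsZFC M]

/-- The system `X` with a new step with the label `t` and the value `v`. -/
noncomputable def nst (X t v : M) : M := ins X (op t v)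

theorem nst.dt : DT (fun w : Fin 3 → M => nst (w 0) (w 1) (w 2)) := by
  unfold nst; simp (maxDischargeDepth := 50)

@[simp] theorem dt_nst {n : ℕ} {s t r : (Fin n → M) → M} (hs : DT s) (ht : DT t) (hr : DT r) :
    DT (fun v => nst (s v) (t v) (r v)) := dt3 nst.dt hs ht hr

theorem sb_nst (X t v : M) : Sb X (nst X t v) := sb_ins _ _

section nst

variable {X t v : M} (h : Fn X (dm X)) (ht : t ∉ dm X)

include h ht

theorem fn_nst' : Fn (nst X t v) (ins (dm X) t) := by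
  constructor
  · intro z hz
    rcases mem_ins.1 hz with hz | rfl
    · obtain ⟨x, hx, y, rfl⟩ := h.1 z hz
      exact ⟨x, mem_ins.2 (Or.inl hx), y, rfl⟩
    · exact ⟨t, mem_ins.2 (Or.inr rfl), v, rfl⟩
  · intro j hj
    rcases mem_ins.1 hj with hj1 | rfl
    · obtain ⟨y, h1, h2⟩ := h.2 j hj1
      refine ⟨y, mem_ins.2 (Or.inl h1), fun y' hy' => ?_⟩
      rcases mem_ins.1 hy' with hy' | e
      · exact h2 y' hy'
      · rw [(op_inj.1 e).1] at hj1
        exact (ht hj1).elim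
    · refine ⟨v, mem_ins.2 (Or.inr rfl), fun y' hy' => ?_⟩
      rcases mem_ins.1 hy' with hy' | e
      · exact (ht (mem_dm.2 ⟨_, hy', (fst_op _ _).symm⟩)).elim
      · exact (op_inj.1 e).2

theorem dm_nst : dm (nst X t v) = ins (dm X) t := dm_of_fn (fn_nst' h ht)

theorem fn_nst : Fn (nst X t v) (dm (nst X t v)) := by
  rw [dm_nst h ht]
  exact fn_nst' h ht

theorem ap_nst : ap (nst X t v) t = v :=
  ((fn_nst' h ht).op_mem_iff (mem_ins.2 (Or.inr rfl))).1 (mem_ins.2 (Or.inr rfl))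

theorem rs_nst : rs (nst X t v) (dm X) = X :=
  (sub_eq_rs h (fn_nst h ht) (sb_nst X t v)).symm

end nst

section fields

variable {X t D W T : M} (h : Fn X (dm X)) (ht : t ∉ dm X)

include h ht

theorem fD_nst : fD (nst X t (op D (op W T))) t = D := by
  unfold fD; rw [ap_nst h ht, fst_op]

theorem fW_nst : fW (nst X t (op D (op W T))) t = W := by
  unfold fW; rw [ap_nst h ht, snd_op, fst_op]

theorem fT_nst : fT (nst X t (op D (op W T))) t = T := by
  unfold fT; rw [ap_nst h ht, snd_op, snd_op]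

end fields

/-! ### The conditions on a step in a larger system -/

theorem TagOk.up {K : Cst M} {X Y j : M} (hX : Fn X (dm X)) (hY : Fn Y (dm Y)) (h : Sb X Y)
    (hj : j ∈ dm X) (hD : Sb (fD X j) (dm X)) (hs : TagOk K X j) : TagOk K Y j := by
  obtain ⟨h1, h2, h3, h4, h5, h6, h7, h8⟩ := hs
  unfold TagOk
  rw [fD_sub hX hY h hj, fW_sub hX hY h hj, fT_sub hX hY h hj, tO_sub hX hY h hj,
    tk_sub hX hY h hj, ta_sub hX hY h hj, tb_sub hX hY h hj, tg_sub hX hY h hj,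
    tr_sub hX hY h hj, rs_sub hX hY h hD]
  refine ⟨h1, h2, h3, h4, h5, h6, h7, fun t ht => ?_⟩
  obtain ⟨h9, h10, h11⟩ := h8 t ht
  rw [isTag_sub hX hY h (hD t h9), tr_sub hX hY h (hD t h9)]
  exact ⟨h9, h10, h11⟩

theorem CodeOk.up {K : Cst M} {X Y j : M} (hX : Fn X (dm X)) (hY : Fn Y (dm Y)) (h : Sb X Y)
    (hj : j ∈ dm X) (hD : Sb (fD X j) (dm X)) (hs : CodeOk K X j) : CodeOk K Y j := by
  obtain ⟨h1, h2, h3, h4, h5, h6, h7, h8⟩ := hs
  unfold CodeOk
  rw [fD_sub hX hY h hj, fW_sub hX hY h hj, fT_sub hX hY h hj, cx_sub hX hY h hj,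
    ci_sub hX hY h hj, cg_sub hX hY h hj, rs_sub hX hY h hD, isTag_sub hX hY h (hD _ h2),
    tg_sub hX hY h (hD _ h2)]
  exact ⟨h1, h2, h3, h4, h5, h6, h7, h8⟩

theorem StOk.up {K : Cst M} {X Y j : M} (hX : Fn X (dm X)) (hY : Fn Y (dm Y)) (h : Sb X Y)
    (hj : j ∈ dm X) (hs : StOk K X j) : StOk K Y j := by
  obtain ⟨h1, h2, h3, h4, h5⟩ := hs
  refine ⟨?_, ⟨?_, ?_⟩, ?_, ?_, ?_⟩
  · rw [ap_sub hX hY h hj, fD_sub hX hY h hj, fW_sub hX hY h hj, fT_sub hX hY h hj]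
    exact h1
  · rw [fD_sub hX hY h hj]
    exact h2.1.trans (dm_sub h)
  · intro l hl
    rw [fD_sub hX hY h hj] at hl ⊢
    rw [fD_sub hX hY h (h2.1 l hl)]
    exact h2.2 l hl
  · rw [fD_sub hX hY h hj]
    exact h3
  · rw [fD_sub hX hY h hj, fW_sub hX hY h hj, rs_sub hX hY h h2.1]
    exact h4
  · exact h5.imp (fun h6 => h6.up hX hY h hj h2.1) fun h6 => h6.up hX hY h hj h2.1

/-! ### Extension by one step -/

/-- A system with one new step is a system. -/
theorem isSys_nst {K : Cst M} (hK : Suc K.ix K.lab) {X t v : M} (hX : IsSys K X)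
    (ht : t ∉ dm X) (htl : t ∈ K.lab) (hst : StOk K (nst X t v) t) : IsSys K (nst X t v) := by
  have hF := fn_nst (v := v) hX.fn ht
  have hd : dm (nst X t v) = ins (dm X) t := dm_nst hX.fn ht
  refine ⟨hF, ?_, ?_, ?_⟩
  · rw [hd]
    intro j hj
    rcases mem_ins.1 hj with hj | rfl
    · exact hX.2.1 j hj
    · exact htl
  · rw [hd]
    exact hK.un_le hX.2.2.1 ((le_om_pr t t).trans (Forc.Le.of_sb hK.om_sb))
  · rw [hd]
    intro j hj
    rcases mem_ins.1 hj with hj | rfl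
    · exact (hX.2.2.2 j hj).up hX.fn hF (sb_nst X t v) hj
    · exact hst

/-- The conditions on the new step. -/
theorem stOk_nst {K : Cst M} {X t W T : M} (hX : IsSys K X) (ht : t ∉ dm X) (hW : WOk K X W)
    (hT : TagOk K (nst X t (op (dm X) (op W T))) t ∨ CodeOk K (nst X t (op (dm X) (op W T))) t) :
    StOk K (nst X t (op (dm X) (op W T))) t := by
  have hF := fn_nst (v := op (dm X) (op W T)) hX.fn ht
  refine ⟨?_, ⟨?_, ?_⟩, ?_, ?_, hT⟩
  · rw [ap_nst hX.fn ht, fD_nst hX.fn ht, fW_nst hX.fn ht, fT_nst hX.fn ht]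
  · rw [fD_nst hX.fn ht]
    exact dm_sub (sb_nst _ _ _)
  · rw [fD_nst hX.fn ht]
    intro j hj
    rw [fD_sub hX.fn hF (sb_nst _ _ _) hj]
    exact (hX.cl hj).1
  · rw [fD_nst hX.fn ht]
    exact ht
  · rw [fD_nst hX.fn ht, fW_nst hX.fn ht, rs_nst hX.fn ht]
    exact hW

private theorem em_mem_PXa {K : Cst M} {X : M} : (SigB.em : M) ∈ PX K X :=
  mem_PX.2 ⟨⟨fun z hz => absurd hz (not_mem_em z), fte_em⟩, fun z hz => absurd hz (not_mem_em z),
    fun _ _ h => absurd h (not_mem_em _)⟩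

private theorem Lq_ema {K : Cst M} (p : M) : Lq K p (SigB.em : M) :=
  ⟨fun z hz => absurd hz (not_mem_em z), fun _ _ _ _ _ h => absurd h (not_mem_em _)⟩

private theorem Lq_refla {K : Cst M} (p : M) : Lq K p p := ⟨Sb.refl p, fun _ _ _ h h' => absurd h h'⟩

/-- The word name of the tags is a word name. -/
theorem wOk_W0 {K : Cst M} (hf : Forc.Le K.hf om) {X : M} : WOk K X (W0 K) := by
  have hdt : DT (fun w : Fin 1 → M => op (op (w 0) (SigB.em : M)) (SigB.em : M)) := by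
    simp (maxDischargeDepth := 50)
  refine ⟨?_, ?_, ?_, ?_⟩
  · exact Le.image om_ord hf hdt fun y hy => mem_W0.1 hy
  · intro w hw
    obtain ⟨y, hy, rfl⟩ := mem_W0.1 hw
    exact ⟨y, em, em, hy, by simp, em_mem_PXa, rfl⟩
  · intro y b b' r _ h2 _ _
    obtain ⟨y', hy', h3⟩ := mem_W0.1 h2
    have h4 := (op_inj.1 (op_inj.1 h3).1).2
    exact sc_ne_em (em : M) h4
  · intro σ b _ r hr _ y hy
    exact ⟨r, hr, Lq_refla r, em, em, mem_W0.2 ⟨y, hy, rfl⟩, Lq_ema r⟩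

/-- **New tag steps.** -/
theorem add_tag {K : Cst M} (hK : Suc K.ix K.lab) (hf : Forc.Le K.hf om) {X O k g a b : M}
    (hX : IsSys K X) (hO : Sb O (dm X)) (hOt : ∀ t, t ∈ O → IsTag X t)
    (hk : k ∈ sc (sc (em : M))) (hg : g ∈ PX K X) (ha : NM K X a) (hb : NM K X b) :
    ∃ Y t, IsSys K Y ∧ Sb X Y ∧ t ∉ dm X ∧ dm Y = ins (dm X) t ∧ IsTag Y t ∧ tk Y t = k ∧
      fD Y t = dm X ∧ rs Y (dm X) = X ∧ tO Y t = O ∧ tg Y t = g ∧ ta Y t = a ∧ tb Y t = b := by
  obtain ⟨t, htl, ht⟩ := hK.exists_new hX.2.2.1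
  -- the rank
  have hdt : DT (fun w : Fin 1 → M => tr X (w 0)) := by simp (maxDischargeDepth := 50)
  obtain ⟨r, hr, hrO⟩ := hK.bdd (X := im O (tr X)) (fun y hy => by
      obtain ⟨s, hs, rfl⟩ := (mem_im hdt).1 hy
      exact (hX.tagOk (hO s hs) (hOt s hs)).2.2.1)
    (Le.image hK.ord_a (hX.2.2.1.mono_left hO) hdt fun y hy => (mem_im hdt).1 hy)
  let T : M := op em (op O (op k (op a (op b (op g r)))))
  let Y : M := nst X t (op (dm X) (op (W0 K) T))
  have hF : Fn Y (dm Y) := fn_nst hX.fn ht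
  have eD : fD Y t = dm X := fD_nst hX.fn ht
  have eW : fW Y t = W0 K := fW_nst hX.fn ht
  have eT : fT Y t = T := fT_nst hX.fn ht
  have eO : tO Y t = O := by unfold tO; rw [eT]; simp [T]
  have ek : tk Y t = k := by unfold tk; rw [eT]; simp [T]
  have ea : ta Y t = a := by unfold ta; rw [eT]; simp [T]
  have eb : tb Y t = b := by unfold tb; rw [eT]; simp [T]
  have eg : tg Y t = g := by unfold tg; rw [eT]; simp [T]
  have er : tr Y t = r := by unfold tr; rw [eT]; simp [T]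
  have eR : rs Y (dm X) = X := rs_nst hX.fn ht
  have hXY : Sb X Y := sb_nst _ _ _
  have hTag : TagOk K Y t := by
    unfold TagOk
    rw [eD, eW, eT, eO, ek, ea, eb, eg, er, eR]
    refine ⟨rfl, rfl, hr, hk, ha, hb, hg, fun s hs => ⟨hO s hs, ?_, ?_⟩⟩
    · rw [isTag_sub hX.fn hF hXY (hO s hs)]
      exact hOt s hs
    · rw [tr_sub hX.fn hF hXY (hO s hs)]
      exact hrO _ ((mem_im hdt).2 ⟨s, hs, rfl⟩)
  have hY : IsSys K Y := isSys_nst hK hX ht htl (stOk_nst hX ht (wOk_W0 hf) (Or.inl hTag))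
  exact ⟨Y, t, hY, hXY, ht, dm_nst hX.fn ht, hTag.isTag, ek, eD, eR, eO, eg, ea, eb⟩

/-- **New code steps.** -/
theorem add_code {K : Cst M} (hK : Suc K.ix K.lab) (hW : WHyp K) {X t g z i : M}
    (hX : IsSys K X) (hcc : CCC (PX K X) (LX K X)) (ht : t ∈ dm X) (htt : IsTag X t)
    (hg : g ∈ PX K X) (hgt : Lq K g (tg X t)) (hi : i ∈ sc (sc (em : M))) :
    ∃ Y k, IsSys K Y ∧ Sb X Y ∧ k ∉ dm X ∧ dm Y = ins (dm X) k ∧ IsCode Y k ∧ fD Y k = dm X ∧
      rs Y (dm X) = X ∧ cx Y k = t ∧ ci Y k = i ∧ cg Y k = g ∧ FE K X g (cz Y k) z := by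
  obtain ⟨k, hkl, hk⟩ := hK.exists_new hX.2.2.1
  obtain ⟨W, hW1, hW2, hW3, hW4⟩ := exists_wname (i := i) (z := z) (g := g) hW hcc ht
    (hX.2.1 t ht) (hX.tagOk ht htt).2.1
  let T : M := op (sc em) (op t (op i g))
  let Y : M := nst X k (op (dm X) (op W T))
  have hF : Fn Y (dm Y) := fn_nst hX.fn hk
  have eD : fD Y k = dm X := fD_nst hX.fn hk
  have eW : fW Y k = W := fW_nst hX.fn hk
  have eT : fT Y k = T := fT_nst hX.fn hk
  have ex : cx Y k = t := by unfold cx; rw [eT]; simp [T]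
  have ei : ci Y k = i := by unfold ci; rw [eT]; simp [T]
  have eg : cg Y k = g := by unfold cg; rw [eT]; simp [T]
  have ez : cz Y k = zn W := by unfold cz; rw [eW]
  have eR : rs Y (dm X) = X := rs_nst hX.fn hk
  have hXY : Sb X Y := sb_nst _ _ _
  have hCod : CodeOk K Y k := by
    unfold CodeOk
    rw [eD, eW, eT, ex, ei, eg, eR, isTag_sub hX.fn hF hXY ht, tg_sub hX.fn hF hXY ht]
    exact ⟨rfl, ht, htt, hi, hg, hgt, hW2, hW3⟩
  have hY : IsSys K Y := isSys_nst hK hX hk hkl (stOk_nst hX hk hW1 (Or.inr hCod))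
  refine ⟨Y, k, hY, hXY, hk, dm_nst hX.fn hk, hCod.isCode, eD, eR, ex, ei, eg, ?_⟩
  rw [ez]
  exact hW4

end Pool.Agent.Sep
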