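import Pool.Agent.Sep.SubExt

/-!
# The intersection of two extensions

`P₀`, `P₁`, `P₂` are complete suborders of `Q` such that `P₁` and `P₂` are amalgamated over `P₀`. A
subset of an element of the ground model which has a name for `P₁` and a name for `P₂` has a name
for `P₀`.
-/

universe u

set_option linter.unusedSectionVars false

namespace Pool.Agent.Sep

open Pool.Agent.SigB Pool.Agent.Frc

variable {M : Type u} [Membership M M] [IsZFC M] {P₀ l₀ P₁ l₁ P₂ l₂ Q leQ one : M} {G : M → Prop}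
  {N : Type u} [Membership N N] {val : M → N}

/-- `Q` is an amalgamation of `P₁` and `P₂` over `P₀`. -/
structure Amal (P₀ l₀ P₁ l₁ P₂ l₂ Q leQ one : M) : Prop where
  c0 : CSub P₀ l₀ Q leQ one
  c1 : CSub P₁ l₁ Q leQ one
  c2 : CSub P₂ l₂ Q leQ one
  comp : ∀ p q₁ q₂, q₁ ∈ P₁ → q₂ ∈ P₂ → Red P₀ l₀ leQ p q₁ → Red P₀ l₀ leQ p q₂ →
    ∃ s, op s q₁ ∈ leQ ∧ op s q₂ ∈ leQ
  gen : ∀ u, u ∈ Q → ∃ v p₁ p₂, op v u ∈ leQ ∧ p₁ ∈ P₁ ∧ p₂ ∈ P₂ ∧ op v p₁ ∈ leQ ∧ op v p₂ ∈ leQ ∧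
    ∀ s, op s p₁ ∈ leQ → op s p₂ ∈ leQ → ∃ r, op r s ∈ leQ ∧ op r u ∈ leQ

/-- A subset of an element of the ground model in both extensions is in the small one. -/
theorem Amal.inter (h : Amal P₀ l₀ P₁ l₁ P₂ l₂ Q leQ one) (hE : Ext Q leQ one G val)
    {x₁ x₂ a : M} (hx : val (rn P₁ x₁) = val (rn P₂ x₂))
    (ha : ∀ z, z ∈ val (rn P₁ x₁) → z ∈ val (ck one a)) :
    ∃ x, rn P₀ x = x ∧ val x = val (rn P₁ x₁) := by
  have hG := hE.gen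
  obtain ⟨u, hu, hue⟩ := (hE.eq_iff _ _).1 hx
  -- conditions `p₁`, `p₂` which give `u`
  obtain ⟨v, hv, p₁, p₂, hp₁, hp₂, hv₁, hv₂, hs⟩ := hG.below h.c0.po
    (Q := fun v => ∃ p₁ p₂, p₁ ∈ P₁ ∧ p₂ ∈ P₂ ∧ op v p₁ ∈ leQ ∧ op v p₂ ∈ leQ ∧
      ∀ s, op s p₁ ∈ leQ → op s p₂ ∈ leQ → ∃ r, op r s ∈ leQ ∧ op r u ∈ leQ)
    (by simp (maxDischargeDepth := 50)) hu fun w hw => by
      obtain ⟨v, p₁, p₂, h1, h2, h3, h4, h5, h6⟩ := h.gen w (h.c0.po.sub _ _ hw).1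
      refine ⟨v, h1, p₁, p₂, h2, h3, h4, h5, fun s h7 h8 => ?_⟩
      obtain ⟨r, hr, hr'⟩ := h6 s h7 h8
      exact ⟨r, hr, h.c0.po.trans _ _ _ hr' hw⟩
  have hG₀ := h.c0.gen hG
  have hG₁ := h.c1.gen hG
  have hG₂ := h.c2.gen hG
  -- the name
  have hd : DT (fun w : Fin 1 → M => ck one (w 0)) := by simp (maxDischargeDepth := 50)
  let x : M := sp (pd (im a (ck one)) P₀) fun z => ∃ n p q, z = op (ck one n) p ∧ q ∈ P₁ ∧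
    op q p₁ ∈ leQ ∧ MemF Q leQ (ck one n) (rn P₁ x₁) q ∧ Red P₀ l₀ leQ p q
  have hxm : ∀ z, z ∈ x ↔ z ∈ pd (im a (ck one)) P₀ ∧ ∃ n p q, z = op (ck one n) p ∧ q ∈ P₁ ∧
      op q p₁ ∈ leQ ∧ MemF Q leQ (ck one n) (rn P₁ x₁) q ∧ Red P₀ l₀ leQ p q := fun z =>
    mem_sp (by simp (maxDischargeDepth := 50))
  refine ⟨x, rn_eq_self fun z hz => ?_, hE.ext _ _ fun z => ⟨fun hz => ?_, fun hz => ?_⟩⟩
  · obtain ⟨-, n, p, q, rfl, -, -, -, hr⟩ := (hxm z).1 hz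
    exact ⟨_, _, rfl, hr.1, rn_ck h.c0.one_mem n⟩
  · obtain ⟨y, p', hy, hp', rfl⟩ := hE.mem_val.1 hz
    obtain ⟨-, n, p, q, he, hq, hqp, hqm, hr⟩ := (hxm _).1 hy
    obtain ⟨rfl, rfl⟩ := op_inj.1 he
    -- a condition of `P₂` which decides
    obtain ⟨q₂, hq₂, hq₂p, hdec⟩ := hG₂.below h.c2.poP
      (Q := fun s => op s p₂ ∈ l₂ ∧ (MemF P₂ l₂ (ck one n) x₂ s ∨
        ∀ t, op t s ∈ l₂ → ¬ MemF P₂ l₂ (ck one n) x₂ t))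
      (by simp (maxDischargeDepth := 50)) (p := p₂) ⟨hp₂, hG.up _ _ hv hv₂⟩ fun w hw => by
        by_cases hc : ∃ t, op t w ∈ l₂ ∧ MemF P₂ l₂ (ck one n) x₂ t
        · obtain ⟨t, ht, ht'⟩ := hc
          exact ⟨t, ht, h.c2.poP.trans _ _ _ ht hw, Or.inl ht'⟩
        · push Not at hc
          exact ⟨w, h.c2.poP.refl _ (h.c2.poP.sub _ _ hw).1, hw, Or.inr hc⟩
    rcases hdec with hdec | hdec
    · rw [hx, hE.mem_iff]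
      have := h.c2.memF_lift hdec
      rw [rn_ck h.c2.one_mem] at this
      exact ⟨q₂, hq₂.2, this⟩
    · exfalso
      obtain ⟨p'', hp'', hr''⟩ := h.c0.exists_red hG hq₂.2
      obtain ⟨t, ht, htp, htp''⟩ := hG₀.dir p' p'' ⟨hr.1, hp'⟩ hp''
      obtain ⟨s, hsq, hsq₂⟩ := h.comp t q q₂ hq hq₂.1 (hr.mono h.c0 htp) (hr''.mono h.c0 htp'')
      have hPO := h.c0.po
      obtain ⟨r, hrs, hru⟩ := hs s (hPO.trans _ _ _ hsq hqp)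
        (hPO.trans _ _ _ hsq₂ (h.c2.lift_le hq₂p))
      have h1 : MemF Q leQ (ck one n) (rn P₂ x₂) r :=
        (hqm.mono hPO (hPO.trans _ _ _ hrs hsq)).congr_right hPO (hue.mono hPO hru)
      obtain ⟨b, hb, hb₂, -⟩ := h.c2.red_two hq₂.1 hq₂.1 (hPO.trans _ _ _ hrs hsq₂)
        (hPO.trans _ _ _ hrs hsq₂)
      rw [← rn_ck (P := P₂) h.c2.one_mem] at h1
      exact hdec b hb₂ (h.c2.memF_red h1 hb)
  · obtain ⟨n, hn, rfl⟩ := hE.mem_cv.1 (ha z hz)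
    obtain ⟨w, hw, hwm⟩ := (hE.mem_iff _ _).1 hz
    obtain ⟨t, ht, htr⟩ := h.c1.exists_red hG hw
    rw [← rn_ck (P := P₁) h.c1.one_mem] at hwm
    have h1 := h.c1.memF_red hwm htr
    obtain ⟨q, hq, hqt, hqp⟩ := hG₁.dir t p₁ ht ⟨hp₁, hG.up _ _ hv hv₁⟩
    have h2 := h.c1.memF_lift (h1.mono h.c1.poP hqt)
    rw [rn_ck h.c1.one_mem] at h2
    obtain ⟨p, hp, hpr⟩ := h.c0.exists_red hG hq.2
    refine hE.mem_val.2 ⟨ck one n, p, (hxm _).2 ⟨op_mem_pd.2 ⟨(mem_im hd).2 ⟨n, hn, rfl⟩, hp.1⟩,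
      n, p, q, rfl, hq.1, h.c1.lift_le hqp, h2, hpr⟩, hp.2, rfl⟩

end Pool.Agent.Sep
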