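import Pool.Agent.Sep.Bor

/-!
Analytic predicates on finite tuples of reals and natural numbers: closure properties.
-/

universe u

set_option linter.unusedSectionVars false

namespace Pool.Agent.Sep

open Pool.Agent.SigB Pool.Agent.Forc

variable {M : Type u} [Membership M M] [IsZFC M]

/-- `x` is a real (type `true`) or a natural number (type `false`). -/
def Ty : Bool → M → Prop
  | true, x => x ∈ (RR : M)
  | false, x => x ∈ (SigB.om : M)

/-- `x` and `y` agree on `j` (type `true`) or are equal (type `false`). -/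
def Nr : Bool → M → M → M → Prop
  | true, j, x, y => ∀ i, i ∈ j → ap x i = ap y i
  | false, _, x, y => x = y

theorem Nr.refl (b : Bool) (j x : M) : Nr b j x x := by
  cases b
  · rfl
  · exact fun _ _ => rfl

theorem Nr.symm {b : Bool} {j x y : M} (h : Nr b j x y) : Nr b j y x := by
  cases b
  · exact Eq.symm h
  · exact fun i hi => (h i hi).symm

theorem Nr.mono {b : Bool} {j k x y : M} (h : Nr b k x y) (hj : Sb j k) : Nr b j x y := by
  cases b
  · exact h
  · exact fun i hi => h i (hj i hi)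

/-- The tuple `v` has the type `τ`. -/
def TyV {n : ℕ} (τ : Fin n → Bool) (v : Fin n → M) : Prop := ∀ i, Ty (τ i) (v i)

/-- The tuples `v` and `v'` of type `τ` are near. -/
def NrV {n : ℕ} (τ : Fin n → Bool) (j : M) (v v' : Fin n → M) : Prop := ∀ i, Nr (τ i) j (v i) (v' i)

theorem NrV.mono {n : ℕ} {τ : Fin n → Bool} {j k : M} {v v' : Fin n → M} (h : NrV τ k v v')
    (hj : Sb j k) : NrV τ j v v' := fun i => (h i).mono hj

theorem tyV_cons {n : ℕ} {b : Bool} {τ : Fin n → Bool} {x : M} {v : Fin n → M} :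
    TyV (Fin.cons b τ : Fin (n + 1) → Bool) (Fin.cons x v : Fin (n + 1) → M) ↔
      Ty b x ∧ TyV τ v := by
  unfold TyV
  rw [Fin.forall_fin_succ]
  simp

theorem nrV_cons {n : ℕ} {b : Bool} {τ : Fin n → Bool} {j x x' : M} {v v' : Fin n → M} :
    NrV (Fin.cons b τ : Fin (n + 1) → Bool) j (Fin.cons x v : Fin (n + 1) → M)
      (Fin.cons x' v' : Fin (n + 1) → M) ↔ Nr b j x x' ∧ NrV τ j v v' := by
  unfold NrV
  rw [Fin.forall_fin_succ]
  simp

/-- `C` is a definable closed relation between reals and tuples of type `τ`. -/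
structure ClA {n : ℕ} (τ : Fin n → Bool) (C : M → (Fin n → M) → Prop) : Prop where
  dfn : Dfn (fun w : Fin (n + 1) → M => C (w 0) fun i => w i.succ)
  cl : ∀ u v, u ∈ (RR : M) → TyV τ v → ¬ C u v → ∃ j, j ∈ (SigB.om : M) ∧
    ∀ u' v', u' ∈ (RR : M) → TyV τ v' → Nr true j u u' → NrV τ j v v' → ¬ C u' v'

/-- `P` is analytic. -/
def An {n : ℕ} (τ : Fin n → Bool) (P : (Fin n → M) → Prop) : Prop :=
  ∃ C : M → (Fin n → M) → Prop, ClA τ C ∧ ∀ v, TyV τ v → (P v ↔ ∃ u, u ∈ (RR : M) ∧ C u v)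

/-- `P` and its negation are analytic. -/
def Bo {n : ℕ} (τ : Fin n → Bool) (P : (Fin n → M) → Prop) : Prop :=
  An τ P ∧ An τ fun v => ¬ P v

/-- `F` is a definable continuous function. -/
structure Cn {n : ℕ} (τ : Fin n → Bool) (b : Bool) (F : (Fin n → M) → M) : Prop where
  dt : DT F
  ty : ∀ v, TyV τ v → Ty b (F v)
  ct : ∀ v, TyV τ v → ∀ j, j ∈ (SigB.om : M) → ∃ k, k ∈ (SigB.om : M) ∧
    ∀ v', TyV τ v' → NrV τ k v v' → Nr b j (F v) (F v')

section

variable {n m : ℕ} {τ : Fin n → Bool} {P Q : (Fin n → M) → Prop}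

theorem An.congr (h : An τ P) (h' : ∀ v, TyV τ v → (P v ↔ Q v)) : An τ Q := by
  obtain ⟨C, hC, hP⟩ := h
  exact ⟨C, hC, fun v hv => (h' v hv).symm.trans (hP v hv)⟩

theorem Bo.congr (h : Bo τ P) (h' : ∀ v, TyV τ v → (P v ↔ Q v)) : Bo τ Q :=
  ⟨h.1.congr h', h.2.congr fun v hv => not_congr (h' v hv)⟩

theorem Bo.not (h : Bo τ P) : Bo τ fun v => ¬ P v :=
  ⟨h.2, h.1.congr fun _ _ => not_not.symm⟩

/-- Locally constant predicates. -/
theorem Bo.loc (hd : Dfn P) (h : ∀ v, TyV τ v → ∃ j, j ∈ (SigB.om : M) ∧ ∀ v', TyV τ v' →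
    NrV τ j v v' → (P v ↔ P v')) : Bo τ P := by
  have key : ∀ Q : (Fin n → M) → Prop, Dfn Q → (∀ v, TyV τ v → ∃ j, j ∈ (SigB.om : M) ∧
      ∀ v', TyV τ v' → NrV τ j v v' → (Q v ↔ Q v')) → An τ Q := by
    intro Q hQ h
    refine ⟨fun _ v => Q v, ⟨hQ.ren Fin.succ, ?_⟩, ?_⟩
    · intro u v _ hv hn
      obtain ⟨j, hj, h1⟩ := h v hv
      exact ⟨j, hj, fun u' v' _ hv' _ hnr hq => hn ((h1 v' hv' hnr).2 hq)⟩
    · intro v _
      exact ⟨fun hq => ⟨cst SigB.em, cst_mem em_mem_om, hq⟩, fun ⟨_, _, hq⟩ => hq⟩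
  refine ⟨key P hd h, key _ hd.not fun v hv => ?_⟩
  obtain ⟨j, hj, h1⟩ := h v hv
  exact ⟨j, hj, fun v' hv' hnr => not_congr (h1 v' hv' hnr)⟩

/-- Renaming of variables. -/
theorem An.ren {σ : Fin m → Bool} {R : (Fin m → M) → Prop} (h : An σ R) (f : Fin m → Fin n)
    (hf : ∀ i, σ i = τ (f i)) : An τ fun v => R fun i => v (f i) := by
  obtain ⟨C, hC, hR⟩ := h
  have hty : ∀ v : Fin n → M, TyV τ v → TyV σ fun i => v (f i) := by
    intro v hv i
    rw [hf i]; exact hv (f i)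
  have hnr : ∀ (j : M) (v v' : Fin n → M), NrV τ j v v' →
      NrV σ j (fun i => v (f i)) fun i => v' (f i) := by
    intro j v v' hv i
    rw [hf i]; exact hv (f i)
  refine ⟨fun u v => C u fun i => v (f i), ⟨?_, ?_⟩, fun v hv => hR _ (hty v hv)⟩
  · have := hC.dfn.ren (m := n + 1) (liftRen f)
    refine this.congr fun w => ?_
    simp [liftRen]
  · intro u v hu hv hn
    obtain ⟨j, hj, h1⟩ := hC.cl u _ hu (hty v hv) hn
    exact ⟨j, hj, fun u' v' hu' hv' hun hvn => h1 u' _ hu' (hty v' hv') hun (hnr j v v' hvn)⟩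

theorem Bo.ren {σ : Fin m → Bool} {R : (Fin m → M) → Prop} (h : Bo σ R) (f : Fin m → Fin n)
    (hf : ∀ i, σ i = τ (f i)) : Bo τ fun v => R fun i => v (f i) :=
  ⟨h.1.ren f hf, h.2.ren f hf⟩

/-- Substitution of a continuous function. -/
theorem An.sub {b : Bool} {R : M → (Fin n → M) → Prop}
    (h : An (Fin.cons b τ : Fin (n + 1) → Bool) fun w => R (w 0) fun i => w i.succ)
    {F : (Fin n → M) → M} (hF : Cn τ b F) : An τ fun v => R (F v) v := by
  obtain ⟨C, hC, hR⟩ := h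
  refine ⟨fun u v => C u (Fin.cons (F v) v), ⟨?_, ?_⟩, ?_⟩
  · refine Dfn.sub (P := fun (w : Fin (n + 1) → M) x => C (w 0) (Fin.cons x fun i => w i.succ))
      (t := fun w => F fun i => w i.succ) ?_ (hF.dt.ren Fin.succ)
    have h1 := hC.dfn.ren (m := n + 2) (Fin.cases 1 (Fin.cases 0 fun i => i.succ.succ))
    refine h1.congr fun w => ?_
    have h2 : (fun i : Fin (n + 1) => w ((Fin.cases 1 (Fin.cases 0 fun i => i.succ.succ) :
        Fin (n + 2) → Fin (n + 2)) i.succ)) = Fin.cons (w 0) fun i => w i.succ.succ := by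
      funext i
      refine Fin.cases ?_ (fun i => ?_) i <;> first | rfl | simp
    rw [h2]
    rfl
  · intro u v hu hv hn
    obtain ⟨j, hj, h1⟩ := hC.cl u _ hu (tyV_cons.2 ⟨hF.ty v hv, hv⟩) hn
    obtain ⟨k, hk, h2⟩ := hF.ct v hv j hj
    refine ⟨un j k, un_mem_omB hj hk, fun u' v' hu' hv' hun hvn => ?_⟩
    have hj' : Sb j (un j k) := fun z hz => mem_un.2 (Or.inl hz)
    have hk' : Sb k (un j k) := fun z hz => mem_un.2 (Or.inr hz)
    exact h1 u' _ hu' (tyV_cons.2 ⟨hF.ty v' hv', hv'⟩) (hun.mono hj')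
      (nrV_cons.2 ⟨h2 v' hv' (hvn.mono hk'), hvn.mono hj'⟩)
  · intro v hv
    exact hR (Fin.cons (F v) v) (tyV_cons.2 ⟨hF.ty v hv, hv⟩)

theorem Bo.sub {b : Bool} {R : M → (Fin n → M) → Prop}
    (h : Bo (Fin.cons b τ : Fin (n + 1) → Bool) fun w => R (w 0) fun i => w i.succ)
    {F : (Fin n → M) → M} (hF : Cn τ b F) : Bo τ fun v => R (F v) v :=
  ⟨An.sub h.1 hF, An.sub (R := fun x v => ¬ R x v) h.2 hF⟩

/-! ### Continuity of the sections -/

theorem near_dec {u n j : M} (hn : n ∈ (SigB.om : M)) (hj : j ∈ (SigB.om : M)) :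
    ∃ k, k ∈ (SigB.om : M) ∧ ∀ u', Nr true k u u' → Nr true j (dec u n) (dec u' n) := by
  obtain ⟨k, hk, h⟩ := exists_bound (F := pn n) (dt_pn (DT.const n) (DT.var 0))
    (fun i hi => pn_mem hn hi) hj
  refine ⟨k, hk, fun u' hu i hi => ?_⟩
  have hi' : i ∈ (SigB.om : M) := om_ord.trans hi hj
  rw [ap_dec hi', ap_dec hi']
  exact hu _ (h i hi)

theorem near_ap {u n : M} (hn : n ∈ (SigB.om : M)) :
    ∃ k, k ∈ (SigB.om : M) ∧ ∀ u', Nr true k u u' → ap u n = ap u' n :=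
  ⟨sc n, sc_mem_om hn, fun _ hu => hu n (mem_sc_self n)⟩

/-! ### Boolean operations -/

theorem An.and (hP : An τ P) (hQ : An τ Q) : An τ fun v => P v ∧ Q v := by
  obtain ⟨C, hC, hP⟩ := hP
  obtain ⟨D, hD, hQ⟩ := hQ
  refine ⟨fun u v => C (dec u SigB.em) v ∧ D (dec u on) v, ⟨Dfn.and ?_ ?_, ?_⟩, ?_⟩
  · refine Dfn.sub (P := fun (w : Fin (n + 1) → M) x => C x fun i => w i.succ)
      (t := fun w => dec (w 0) SigB.em) ?_ (dt_dec (DT.var 0) (DT.const _))
    exact hC.dfn.ren (m := n + 2) (Fin.cases 0 fun i => i.succ.succ)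
  · refine Dfn.sub (P := fun (w : Fin (n + 1) → M) x => D x fun i => w i.succ)
      (t := fun w => dec (w 0) on) ?_ (dt_dec (DT.var 0) (DT.const _))
    exact hD.dfn.ren (m := n + 2) (Fin.cases 0 fun i => i.succ.succ)
  · intro u v hu hv hn
    rw [not_and_or] at hn
    rcases hn with hn | hn
    · obtain ⟨j, hj, h1⟩ := hC.cl _ v (dec_mem hu em_mem_om) hv hn
      obtain ⟨k, hk, h2⟩ := near_dec (u := u) em_mem_om hj
      refine ⟨un j k, un_mem_omB hj hk, fun u' v' hu' hv' hun hvn h => ?_⟩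
      have hj' : Sb j (un j k) := fun z hz => mem_un.2 (Or.inl hz)
      have hk' : Sb k (un j k) := fun z hz => mem_un.2 (Or.inr hz)
      exact h1 _ v' (dec_mem hu' em_mem_om) hv' (h2 u' (hun.mono hk')) (hvn.mono hj') h.1
    · obtain ⟨j, hj, h1⟩ := hD.cl _ v (dec_mem hu on_mem) hv hn
      obtain ⟨k, hk, h2⟩ := near_dec (u := u) on_mem hj
      refine ⟨un j k, un_mem_omB hj hk, fun u' v' hu' hv' hun hvn h => ?_⟩
      have hj' : Sb j (un j k) := fun z hz => mem_un.2 (Or.inl hz)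
      have hk' : Sb k (un j k) := fun z hz => mem_un.2 (Or.inr hz)
      exact h1 _ v' (dec_mem hu' on_mem) hv' (h2 u' (hun.mono hk')) (hvn.mono hj') h.2
  · intro v hv
    show (P v ∧ Q v) ↔ ∃ u, u ∈ (RR : M) ∧ C (dec u SigB.em) v ∧ D (dec u on) v
    rw [hP v hv, hQ v hv]
    constructor
    · rintro ⟨⟨u, hu, h⟩, u', hu', h'⟩
      obtain ⟨h1, h2, h3⟩ := enc2_spec hu hu'
      exact ⟨enc2 u u', h1, by rw [h2]; exact h, by rw [h3]; exact h'⟩
    · rintro ⟨u, hu, h, h'⟩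
      exact ⟨⟨_, dec_mem hu em_mem_om, h⟩, _, dec_mem hu on_mem, h'⟩

theorem An.or (hP : An τ P) (hQ : An τ Q) : An τ fun v => P v ∨ Q v := by
  obtain ⟨C, hC, hP⟩ := hP
  obtain ⟨D, hD, hQ⟩ := hQ
  refine ⟨fun u v => (ap (dec u SigB.em) SigB.em = SigB.em ∧ C (dec u on) v) ∨
    (ap (dec u SigB.em) SigB.em ≠ SigB.em ∧ D (dec u on) v), ⟨?_, ?_⟩, ?_⟩
  · have h0 : Dfn (fun w : Fin (n + 1) → M => ap (dec (w 0) SigB.em) SigB.em = SigB.em) :=
      Dfn.eq (dt_ap (dt_dec (DT.var 0) (DT.const _)) (DT.const _)) (DT.const _)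
    refine Dfn.or (Dfn.and h0 ?_) (Dfn.and h0.not ?_)
    · refine Dfn.sub (P := fun (w : Fin (n + 1) → M) x => C x fun i => w i.succ)
        (t := fun w => dec (w 0) on) ?_ (dt_dec (DT.var 0) (DT.const _))
      exact hC.dfn.ren (m := n + 2) (Fin.cases 0 fun i => i.succ.succ)
    · refine Dfn.sub (P := fun (w : Fin (n + 1) → M) x => D x fun i => w i.succ)
        (t := fun w => dec (w 0) on) ?_ (dt_dec (DT.var 0) (DT.const _))
      exact hD.dfn.ren (m := n + 2) (Fin.cases 0 fun i => i.succ.succ)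
  · intro u v hu hv hn
    have key : ∀ E : M → (Fin n → M) → Prop, ClA τ E → ¬ E (dec u on) v → ∃ j,
        j ∈ (SigB.om : M) ∧ ∀ u' v', u' ∈ (RR : M) → TyV τ v' → Nr true j u u' → NrV τ j v v' →
        ap (dec u SigB.em) SigB.em = ap (dec u' SigB.em) SigB.em ∧ ¬ E (dec u' on) v' := by
      intro E hE hn
      obtain ⟨j, hj, h1⟩ := hE.cl _ v (dec_mem hu on_mem) hv hn
      obtain ⟨k, hk, h2⟩ := near_dec (u := u) on_mem hj
      obtain ⟨l, hl, h3⟩ := near_dec (u := u) em_mem_om (sc_mem_om em_mem_om)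
      refine ⟨un l (un j k), un_mem_omB hl (un_mem_omB hj hk), fun u' v' hu' hv' hun hvn => ?_⟩
      have hj' : Sb j (un l (un j k)) := fun z hz => mem_un.2 (Or.inr (mem_un.2 (Or.inl hz)))
      have hk' : Sb k (un l (un j k)) := fun z hz => mem_un.2 (Or.inr (mem_un.2 (Or.inr hz)))
      have hl' : Sb l (un l (un j k)) := fun z hz => mem_un.2 (Or.inl hz)
      exact ⟨h3 u' (hun.mono hl') _ (mem_sc_self _),
        h1 _ v' (dec_mem hu' on_mem) hv' (h2 u' (hun.mono hk')) (hvn.mono hj')⟩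
    by_cases h0 : ap (dec u SigB.em) SigB.em = SigB.em
    · have hn' : ¬ C (dec u on) v := fun h => hn (Or.inl ⟨h0, h⟩)
      obtain ⟨j, hj, h1⟩ := key C hC hn'
      refine ⟨j, hj, fun u' v' hu' hv' hun hvn h => ?_⟩
      obtain ⟨h2, h3⟩ := h1 u' v' hu' hv' hun hvn
      rcases h with h | h
      · exact h3 h.2
      · exact h.1 (h2.symm.trans h0)
    · have hn' : ¬ D (dec u on) v := fun h => hn (Or.inr ⟨h0, h⟩)
      obtain ⟨j, hj, h1⟩ := key D hD hn'
      refine ⟨j, hj, fun u' v' hu' hv' hun hvn h => ?_⟩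
      obtain ⟨h2, h3⟩ := h1 u' v' hu' hv' hun hvn
      rcases h with h | h
      · exact h0 (h2.trans h.1)
      · exact h3 h.2
  · intro v hv
    show (P v ∨ Q v) ↔ ∃ u, u ∈ (RR : M) ∧ ((ap (dec u SigB.em) SigB.em = SigB.em ∧
      C (dec u on) v) ∨ (ap (dec u SigB.em) SigB.em ≠ SigB.em ∧ D (dec u on) v))
    rw [hP v hv, hQ v hv]
    constructor
    · rintro (⟨u, hu, h⟩ | ⟨u, hu, h⟩)
      · obtain ⟨h1, h2, h3⟩ := enc2_spec (cst_mem em_mem_om) hu
        exact ⟨_, h1, Or.inl ⟨by rw [h2, ap_cst em_mem_om], by rw [h3]; exact h⟩⟩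
      · obtain ⟨h1, h2, h3⟩ := enc2_spec (cst_mem on_mem) hu
        exact ⟨_, h1, Or.inr ⟨by rw [h2, ap_cst em_mem_om]; exact on_ne, by rw [h3]; exact h⟩⟩
    · rintro ⟨u, hu, h | h⟩
      · exact Or.inl ⟨_, dec_mem hu on_mem, h.2⟩
      · exact Or.inr ⟨_, dec_mem hu on_mem, h.2⟩

theorem Bo.and (hP : Bo τ P) (hQ : Bo τ Q) : Bo τ fun v => P v ∧ Q v :=
  ⟨hP.1.and hQ.1, (hP.2.or hQ.2).congr fun v _ => by rw [not_and_or]⟩

theorem Bo.or (hP : Bo τ P) (hQ : Bo τ Q) : Bo τ fun v => P v ∨ Q v :=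
  ⟨hP.1.or hQ.1, (hP.2.and hQ.2).congr fun v _ => by rw [not_or]⟩

theorem Bo.imp (hP : Bo τ P) (hQ : Bo τ Q) : Bo τ fun v => P v → Q v :=
  (hP.not.or hQ).congr fun v _ => by tauto

theorem Bo.iff (hP : Bo τ P) (hQ : Bo τ Q) : Bo τ fun v => P v ↔ Q v :=
  ((hP.imp hQ).and (hQ.imp hP)).congr fun v _ => by tauto

/-! ### Quantifiers -/

/-- Quantification over the natural numbers. -/
theorem An.ex_om {R : M → (Fin n → M) → Prop}
    (h : An (Fin.cons false τ : Fin (n + 1) → Bool) fun w => R (w 0) fun i => w i.succ) :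
    An τ fun v => ∃ x, x ∈ (SigB.om : M) ∧ R x v := by
  obtain ⟨C, hC, hR⟩ := h
  have hR' : ∀ x v, x ∈ (SigB.om : M) → TyV τ v → (R x v ↔ ∃ u, u ∈ (RR : M) ∧ C u (Fin.cons x v)) := by
    intro x v hx hv
    exact hR (Fin.cons x v) (tyV_cons.2 ⟨hx, hv⟩)
  refine ⟨fun u v => C (dec u on) (Fin.cons (ap (dec u SigB.em) SigB.em) v), ⟨?_, ?_⟩, ?_⟩
  · refine Dfn.sub (P := fun (w : Fin (n + 1) → M) x => C x
      (Fin.cons (ap (dec (w 0) SigB.em) SigB.em) fun i => w i.succ))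
      (t := fun w => dec (w 0) on) ?_ (dt_dec (DT.var 0) (DT.const _))
    refine Dfn.sub (P := fun (w : Fin (n + 2) → M) y => C (w 0)
      (Fin.cons y fun i => w i.succ.succ))
      (t := fun w => ap (dec (w 1) SigB.em) SigB.em) ?_
      (dt_ap (dt_dec (DT.var 1) (DT.const _)) (DT.const _))
    have h1 := hC.dfn.ren (m := n + 3) (Fin.cases 1 (Fin.cases 0 fun i => i.succ.succ.succ))
    refine h1.congr fun w => ?_
    have h2 : (fun i : Fin (n + 1) => w ((Fin.cases 1 (Fin.cases 0 fun i => i.succ.succ.succ) :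
        Fin (n + 2) → Fin (n + 3)) i.succ)) = Fin.cons (w 0) fun i => w i.succ.succ.succ := by
      funext i
      refine Fin.cases ?_ (fun i => ?_) i <;> first | rfl | simp
    rw [h2]
    rfl
  · intro u v hu hv hn
    have hx : ap (dec u SigB.em) SigB.em ∈ (SigB.om : M) := ap_mem (dec_mem hu em_mem_om) em_mem_om
    obtain ⟨j, hj, h1⟩ := hC.cl _ _ (dec_mem hu on_mem) (tyV_cons.2 ⟨hx, hv⟩) hn
    obtain ⟨k, hk, h2⟩ := near_dec (u := u) on_mem hj
    obtain ⟨l, hl, h3⟩ := near_dec (u := u) em_mem_om (sc_mem_om em_mem_om)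
    refine ⟨un l (un j k), un_mem_omB hl (un_mem_omB hj hk), fun u' v' hu' hv' hun hvn => ?_⟩
    have hj' : Sb j (un l (un j k)) := fun z hz => mem_un.2 (Or.inr (mem_un.2 (Or.inl hz)))
    have hk' : Sb k (un l (un j k)) := fun z hz => mem_un.2 (Or.inr (mem_un.2 (Or.inr hz)))
    have hl' : Sb l (un l (un j k)) := fun z hz => mem_un.2 (Or.inl hz)
    exact h1 _ _ (dec_mem hu' on_mem)
      (tyV_cons.2 ⟨ap_mem (dec_mem hu' em_mem_om) em_mem_om, hv'⟩) (h2 u' (hun.mono hk'))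
      (nrV_cons.2 ⟨h3 u' (hun.mono hl') _ (mem_sc_self _), hvn.mono hj'⟩)
  · intro v hv
    constructor
    · rintro ⟨x, hx, h⟩
      obtain ⟨u, hu, h'⟩ := (hR' x v hx hv).1 h
      obtain ⟨h1, h2, h3⟩ := enc2_spec (cst_mem hx) hu
      exact ⟨_, h1, by
        show C (dec _ on) (Fin.cons (ap (dec _ SigB.em) SigB.em) v)
        rw [h2, h3, ap_cst em_mem_om]; exact h'⟩
    · rintro ⟨u, hu, h⟩
      have hx : ap (dec u SigB.em) SigB.em ∈ (SigB.om : M) :=
        ap_mem (dec_mem hu em_mem_om) em_mem_om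
      exact ⟨_, hx, (hR' _ v hx hv).2 ⟨_, dec_mem hu on_mem, h⟩⟩

theorem An.all_om {R : M → (Fin n → M) → Prop}
    (h : An (Fin.cons false τ : Fin (n + 1) → Bool) fun w => R (w 0) fun i => w i.succ) :
    An τ fun v => ∀ x, x ∈ (SigB.om : M) → R x v := by
  obtain ⟨C, hC, hR⟩ := h
  have hR' : ∀ x v, x ∈ (SigB.om : M) → TyV τ v → (R x v ↔ ∃ u, u ∈ (RR : M) ∧ C u (Fin.cons x v)) := by
    intro x v hx hv
    exact hR (Fin.cons x v) (tyV_cons.2 ⟨hx, hv⟩)
  have hd : Dfn (fun w : Fin (n + 2) → M => C (dec (w 1) (w 0))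
      (Fin.cons (w 0) fun i => w i.succ.succ)) := by
    refine Dfn.sub (P := fun (w : Fin (n + 2) → M) x => C x
      (Fin.cons (w 0) fun i => w i.succ.succ))
      (t := fun w => dec (w 1) (w 0)) ?_ (dt_dec (DT.var 1) (DT.var 0))
    have h1 := hC.dfn.ren (m := n + 3) (Fin.cases 0 (Fin.cases 1 fun i => i.succ.succ.succ))
    refine h1.congr fun w => ?_
    have h2 : (fun i : Fin (n + 1) => w ((Fin.cases 0 (Fin.cases 1 fun i => i.succ.succ.succ) :
        Fin (n + 2) → Fin (n + 3)) i.succ)) = Fin.cons (w 1) fun i => w i.succ.succ.succ := by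
      funext i
      refine Fin.cases ?_ (fun i => ?_) i <;> first | rfl | simp
    rw [h2]
    rfl
  refine ⟨fun u v => ∀ x, x ∈ (SigB.om : M) → C (dec u x) (Fin.cons x v), ⟨?_, ?_⟩, ?_⟩
  · refine Dfn.all (P := fun (w : Fin (n + 1) → M) x => x ∈ (SigB.om : M) →
      C (dec (w 0) x) (Fin.cons x fun i => w i.succ)) ?_
    exact Dfn.imp (by simp) hd
  · intro u v hu hv hn
    push Not at hn
    obtain ⟨x, hx, hn⟩ := hn
    obtain ⟨j, hj, h1⟩ := hC.cl _ _ (dec_mem hu hx) (tyV_cons.2 ⟨hx, hv⟩) hn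
    obtain ⟨k, hk, h2⟩ := near_dec (u := u) hx hj
    refine ⟨un j k, un_mem_omB hj hk, fun u' v' hu' hv' hun hvn h => ?_⟩
    have hj' : Sb j (un j k) := fun z hz => mem_un.2 (Or.inl hz)
    have hk' : Sb k (un j k) := fun z hz => mem_un.2 (Or.inr hz)
    exact h1 _ _ (dec_mem hu' hx) (tyV_cons.2 ⟨hx, hv'⟩) (h2 u' (hun.mono hk'))
      (nrV_cons.2 ⟨Nr.refl _ _ _, hvn.mono hj'⟩) (h x hx)
  · intro v hv
    constructor
    · intro h
      -- choose the sections
      have hd' : Dfn (fun w : Fin 2 → M => C (w 1) (Fin.cons (w 0) v)) := by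
        have key : ∀ k : ℕ, ∀ (R : M → M → (Fin k → M) → Prop),
            Dfn (fun w : Fin (k + 2) → M => R (w 0) (w 1) (fun i => w i.succ.succ)) →
            ∀ v : Fin k → M, Dfn (fun w : Fin 2 → M => R (w 0) (w 1) v) := by
          intro k
          induction k with
          | zero =>
            intro R hR v
            refine hR.congr fun w => ?_
            have : (fun i : Fin 0 => w i.succ.succ) = v := Subsingleton.elim _ _
            rw [this]
          | succ k ih =>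
            intro R hR v
            have h2 := ih (fun a b u => R a b (Fin.cons (v 0) u)) (by
              have h3 : Dfn (fun w : Fin (k + 2) → M =>
                  R (w 0) (w 1) (Fin.cons (v 0) (fun i => w i.succ.succ))) := by
                refine Dfn.sub (P := fun (w : Fin (k + 2) → M) x =>
                  R (w 0) (w 1) (Fin.cons x (fun i => w i.succ.succ))) (t := fun _ => v 0) ?_
                  (DT.const _)
                have h4 := hR.ren (m := k + 3)
                  (Fin.cases 1 (Fin.cases 2 (Fin.cases 0 fun i => i.succ.succ.succ)))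
                refine h4.congr fun w => ?_
                have : (fun i : Fin (k + 1) => w ((Fin.cases 1 (Fin.cases 2 (Fin.cases 0
                    fun i => i.succ.succ.succ)) : Fin (k + 3) → Fin (k + 3)) i.succ.succ)) =
                    Fin.cons (w 0) fun i => w i.succ.succ.succ := by
                  funext i
                  refine Fin.cases ?_ (fun i => ?_) i <;> first | rfl | simp
                rw [this]
                rfl
              exact h3) (fun i => v i.succ)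
            refine h2.congr fun w => ?_
            have : (Fin.cons (v 0) fun i => v i.succ : Fin (k + 1) → M) = v := by
              funext i
              refine Fin.cases ?_ (fun i => ?_) i <;> first | rfl | simp
            rw [this]
        refine key n (fun x u v => C u (Fin.cons x v)) ?_ v
        have h1 := hC.dfn.ren (m := n + 2) (Fin.cases 1 (Fin.cases 0 fun i => i.succ.succ))
        refine h1.congr fun w => ?_
        have h2 : (fun i : Fin (n + 1) => w ((Fin.cases 1 (Fin.cases 0 fun i => i.succ.succ) :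
            Fin (n + 2) → Fin (n + 2)) i.succ)) = Fin.cons (w 0) fun i => w i.succ.succ := by
          funext i
          refine Fin.cases ?_ (fun i => ?_) i <;> first | rfl | simp
        rw [h2]
        rfl
      obtain ⟨f, hf, hf'⟩ := choice' (a := (SigB.om : M)) (b := RR)
        (P := fun x u => C u (Fin.cons x v)) hd' (fun x hx => by
          obtain ⟨u, hu, h'⟩ := (hR' x v hx hv).1 (h x hx)
          exact ⟨u, hu, h'⟩)
      have hF : DT (fun w : Fin 1 → M => ap f (w 0)) := by simp (maxDischargeDepth := 50)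
      have hF' : ∀ x, x ∈ (SigB.om : M) → ap f x ∈ (RR : M) := (mem_fs.1 hf).2
      refine ⟨enc (ap f), enc_mem hF hF', fun x hx => ?_⟩
      rw [dec_enc hF hF' hx]
      exact hf' x hx
    · rintro ⟨u, hu, h⟩ x hx
      exact (hR' x v hx hv).2 ⟨_, dec_mem hu hx, h x hx⟩

/-- Quantification over the reals. -/
theorem An.ex_real {R : M → (Fin n → M) → Prop}
    (h : An (Fin.cons true τ : Fin (n + 1) → Bool) fun w => R (w 0) fun i => w i.succ) :
    An τ fun v => ∃ x, x ∈ (RR : M) ∧ R x v := by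
  obtain ⟨C, hC, hR⟩ := h
  have hR' : ∀ x v, x ∈ (RR : M) → TyV τ v → (R x v ↔ ∃ u, u ∈ (RR : M) ∧ C u (Fin.cons x v)) := by
    intro x v hx hv
    exact hR (Fin.cons x v) (tyV_cons.2 ⟨hx, hv⟩)
  refine ⟨fun u v => C (dec u on) (Fin.cons (dec u SigB.em) v), ⟨?_, ?_⟩, ?_⟩
  · refine Dfn.sub (P := fun (w : Fin (n + 1) → M) x => C x
      (Fin.cons (dec (w 0) SigB.em) fun i => w i.succ))
      (t := fun w => dec (w 0) on) ?_ (dt_dec (DT.var 0) (DT.const _))
    refine Dfn.sub (P := fun (w : Fin (n + 2) → M) y => C (w 0)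
      (Fin.cons y fun i => w i.succ.succ))
      (t := fun w => dec (w 1) SigB.em) ?_ (dt_dec (DT.var 1) (DT.const _))
    have h1 := hC.dfn.ren (m := n + 3) (Fin.cases 1 (Fin.cases 0 fun i => i.succ.succ.succ))
    refine h1.congr fun w => ?_
    have h2 : (fun i : Fin (n + 1) => w ((Fin.cases 1 (Fin.cases 0 fun i => i.succ.succ.succ) :
        Fin (n + 2) → Fin (n + 3)) i.succ)) = Fin.cons (w 0) fun i => w i.succ.succ.succ := by
      funext i
      refine Fin.cases ?_ (fun i => ?_) i <;> first | rfl | simp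
    rw [h2]
    rfl
  · intro u v hu hv hn
    have hx : dec u SigB.em ∈ (RR : M) := dec_mem hu em_mem_om
    obtain ⟨j, hj, h1⟩ := hC.cl _ _ (dec_mem hu on_mem) (tyV_cons.2 ⟨hx, hv⟩) hn
    obtain ⟨k, hk, h2⟩ := near_dec (u := u) on_mem hj
    obtain ⟨l, hl, h3⟩ := near_dec (u := u) em_mem_om hj
    refine ⟨un l (un j k), un_mem_omB hl (un_mem_omB hj hk), fun u' v' hu' hv' hun hvn => ?_⟩
    have hj' : Sb j (un l (un j k)) := fun z hz => mem_un.2 (Or.inr (mem_un.2 (Or.inl hz)))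
    have hk' : Sb k (un l (un j k)) := fun z hz => mem_un.2 (Or.inr (mem_un.2 (Or.inr hz)))
    have hl' : Sb l (un l (un j k)) := fun z hz => mem_un.2 (Or.inl hz)
    exact h1 _ _ (dec_mem hu' on_mem)
      (tyV_cons.2 ⟨dec_mem hu' em_mem_om, hv'⟩) (h2 u' (hun.mono hk'))
      (nrV_cons.2 ⟨h3 u' (hun.mono hl'), hvn.mono hj'⟩)
  · intro v hv
    constructor
    · rintro ⟨x, hx, h⟩
      obtain ⟨u, hu, h'⟩ := (hR' x v hx hv).1 h
      obtain ⟨h1, h2, h3⟩ := enc2_spec hx hu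
      exact ⟨_, h1, by
        show C (dec _ on) (Fin.cons (dec _ SigB.em) v)
        rw [h2, h3]; exact h'⟩
    · rintro ⟨u, hu, h⟩
      have hx : dec u SigB.em ∈ (RR : M) := dec_mem hu em_mem_om
      exact ⟨_, hx, (hR' _ v hx hv).2 ⟨_, dec_mem hu on_mem, h⟩⟩

theorem Bo.ex_om {R : M → (Fin n → M) → Prop}
    (h : Bo (Fin.cons false τ : Fin (n + 1) → Bool) fun w => R (w 0) fun i => w i.succ) :
    Bo τ fun v => ∃ x, x ∈ (SigB.om : M) ∧ R x v :=
  ⟨h.1.ex_om, (An.all_om (R := fun x v => ¬ R x v) h.2).congr fun v _ => by push Not; rfl⟩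

theorem Bo.all_om {R : M → (Fin n → M) → Prop}
    (h : Bo (Fin.cons false τ : Fin (n + 1) → Bool) fun w => R (w 0) fun i => w i.succ) :
    Bo τ fun v => ∀ x, x ∈ (SigB.om : M) → R x v :=
  ⟨h.1.all_om, (An.ex_om (R := fun x v => ¬ R x v) h.2).congr fun v _ => by push Not; rfl⟩

end

end Pool.Agent.Sep
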