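import Pool.Agent.GL.Tools

/-!
A calculus of predicates which are given by formulas with bounded quantifiers, uniformly in all
models of ZF.
-/

universe u

set_option linter.unusedSectionVars false

namespace Pool.Agent.Sep

open Pool.Agent.SigB
open Pool.Agent.GL (IsZF)

/-- A model of ZF. -/
structure Mdl where
  c : Type u
  [m : Membership c c]
  [z : IsZF c]

attribute [instance] Mdl.m Mdl.z

instance : CoeSort Mdl.{u} (Type u) := ⟨Mdl.c⟩

/-- Renaming of the variables of a formula with bounded quantifiers. -/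
def renD {n m : ℕ} : D0 n → (Fin n → Fin m) → D0 m
  | .mem i j, f => .mem (f i) (f j)
  | .eq i j, f => .eq (f i) (f j)
  | .neg φ, f => .neg (renD φ f)
  | .and φ ψ, f => .and (renD φ f) (renD ψ f)
  | .bex i φ, f => .bex (f i) (renD φ (liftRen f))

theorem holds_ren {M : Type u} [Membership M M] : ∀ {n m : ℕ} (φ : D0 n) (f : Fin n → Fin m)
    (v : Fin m → M), (renD φ f).Holds v ↔ φ.Holds (fun i => v (f i))
  | _, _, .mem _ _, _, _ => Iff.rfl
  | _, _, .eq _ _, _, _ => Iff.rfl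
  | _, _, .neg φ, f, v => not_congr (holds_ren φ f v)
  | _, _, .and φ ψ, f, v => and_congr (holds_ren φ f v) (holds_ren ψ f v)
  | _, _, .bex i φ, f, v => by
    show (∃ z : M, z ∈ v (f i) ∧ (renD φ (liftRen f)).Holds (Fin.cons z v)) ↔
      ∃ z : M, z ∈ v (f i) ∧ φ.Holds (Fin.cons z fun k => v (f k))
    refine exists_congr fun z => and_congr_right fun _ => ?_
    rw [holds_ren φ]
    have : (fun k => (Fin.cons z v : Fin _ → M) (liftRen f k)) =
        (Fin.cons z fun k => v (f k) : Fin _ → M) := by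
      funext k
      refine Fin.cases ?_ (fun k => ?_) k <;> simp [liftRen]
    rw [this]

/-- A predicate which is given by a formula with bounded quantifiers in all models. -/
def B0 {n : ℕ} (P : ∀ M : Mdl.{u}, (Fin n → M) → Prop) : Prop :=
  ∃ φ : D0 n, ∀ (M : Mdl.{u}) (v : Fin n → M), P M v ↔ φ.Holds v

variable {n m : ℕ} {P Q : ∀ M : Mdl.{u}, (Fin n → M) → Prop}

theorem B0.congr (h : B0 P) (h' : ∀ (M : Mdl.{u}) v, P M v ↔ Q M v) : B0 Q := by
  obtain ⟨φ, hφ⟩ := h
  exact ⟨φ, fun M v => by rw [← h', hφ]⟩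

theorem B0.ren (h : B0 P) (f : Fin n → Fin m) :
    B0 (fun (M : Mdl.{u}) (w : Fin m → M) => P M fun i => w (f i)) := by
  obtain ⟨φ, hφ⟩ := h
  exact ⟨renD φ f, fun M v => by rw [holds_ren]; exact hφ M _⟩

@[simp] theorem B0.not (h : B0 P) : B0 (fun M v => ¬ P M v) := by
  obtain ⟨φ, hφ⟩ := h
  exact ⟨.neg φ, fun M v => not_congr (hφ M v)⟩

@[simp] theorem B0.and (h : B0 P) (h' : B0 Q) : B0 (fun M v => P M v ∧ Q M v) := by
  obtain ⟨φ, hφ⟩ := h
  obtain ⟨ψ, hψ⟩ := h'
  exact ⟨.and φ ψ, fun M v => and_congr (hφ M v) (hψ M v)⟩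

@[simp] theorem B0.or (h : B0 P) (h' : B0 Q) : B0 (fun M v => P M v ∨ Q M v) :=
  ((h.not.and h'.not).not).congr fun M v => by tauto

@[simp] theorem B0.imp (h : B0 P) (h' : B0 Q) : B0 (fun M v => P M v → Q M v) :=
  ((h.and h'.not).not).congr fun M v => by tauto

@[simp] theorem B0.iff (h : B0 P) (h' : B0 Q) : B0 (fun M v => (P M v ↔ Q M v)) :=
  ((h.imp h').and (h'.imp h)).congr fun M v => by tauto

@[simp] theorem B0.mem (i j : Fin n) : B0 (fun (M : Mdl.{u}) (v : Fin n → M) => v i ∈ v j) :=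
  ⟨.mem i j, fun _ _ => Iff.rfl⟩

@[simp] theorem B0.eq (i j : Fin n) : B0 (fun (M : Mdl.{u}) (v : Fin n → M) => v i = v j) :=
  ⟨.eq i j, fun _ _ => Iff.rfl⟩

/-- Bounded existential quantifier. -/
theorem B0.bex {P : ∀ M : Mdl.{u}, (Fin n → M) → M → Prop} (i : Fin n)
    (h : B0 (fun (M : Mdl.{u}) (w : Fin (n + 1) → M) => P M (fun k => w k.succ) (w 0))) :
    B0 (fun (M : Mdl.{u}) (v : Fin n → M) => ∃ z, z ∈ v i ∧ P M v z) := by
  obtain ⟨φ, hφ⟩ := h
  refine ⟨.bex i φ, fun M v => ?_⟩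
  show (∃ z, z ∈ v i ∧ P M v z) ↔ ∃ z : M, z ∈ v i ∧ φ.Holds (Fin.cons z v)
  refine exists_congr fun z => and_congr_right fun _ => ?_
  have := hφ M (Fin.cons z v)
  simpa using this

/-- Bounded universal quantifier. -/
theorem B0.ball {P : ∀ M : Mdl.{u}, (Fin n → M) → M → Prop} (i : Fin n)
    (h : B0 (fun (M : Mdl.{u}) (w : Fin (n + 1) → M) => P M (fun k => w k.succ) (w 0))) :
    B0 (fun (M : Mdl.{u}) (v : Fin n → M) => ∀ z, z ∈ v i → P M v z) :=
  (B0.bex (P := fun M v z => ¬ P M v z) i h.not).not.congr fun M v => by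
    constructor
    · intro h z hz
      by_contra hn
      exact h ⟨z, hz, hn⟩
    · rintro h ⟨z, hz, hn⟩
      exact hn (h z hz)

attribute [simp] B0.bex B0.ball

/-! ### Absoluteness -/

/-- A formula with bounded quantifiers is preserved by embeddings with transitive range. -/
theorem holds_emb {M N : Type u} [Membership M M] [Membership N N] {j : M → N}
    (hj : ∀ x y, j x = j y → x = y) (hm : ∀ x y, j x ∈ j y ↔ x ∈ y)
    (ht : ∀ y z, z ∈ j y → ∃ x, z = j x) :
    ∀ {n : ℕ} (φ : D0 n) (v : Fin n → M), φ.Holds (fun i => j (v i)) ↔ φ.Holds v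
  | _, .mem i k, v => hm (v i) (v k)
  | _, .eq i k, v => ⟨hj _ _, fun h : v i = v k => congrArg j h⟩
  | _, .neg φ, v => not_congr (holds_emb hj hm ht φ v)
  | _, .and φ ψ, v => and_congr (holds_emb hj hm ht φ v) (holds_emb hj hm ht ψ v)
  | _, .bex i φ, v => by
    have hc : ∀ z : M, (Fin.cons (j z) fun i => j (v i) : Fin _ → N) =
        fun k => j ((Fin.cons z v : Fin _ → M) k) := by
      intro z
      funext k
      refine Fin.cases ?_ (fun k => ?_) k <;> simp
    show (∃ z : N, z ∈ j (v i) ∧ φ.Holds (Fin.cons z fun i => j (v i))) ↔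
      ∃ z : M, z ∈ v i ∧ φ.Holds (Fin.cons z v)
    constructor
    · rintro ⟨z, hz, h⟩
      obtain ⟨x, rfl⟩ := ht _ _ hz
      rw [hc, holds_emb hj hm ht φ] at h
      exact ⟨x, (hm _ _).1 hz, h⟩
    · rintro ⟨x, hx, h⟩
      refine ⟨j x, (hm _ _).2 hx, ?_⟩
      rw [hc, holds_emb hj hm ht φ]
      exact h

/-- A predicate of the class `B0` is preserved by embeddings with transitive range. -/
theorem B0.emb (h : B0 P) {M N : Type u} [Membership M M] [Membership N N] [IsZF M] [IsZF N]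
    {j : M → N} (hj : ∀ x y, j x = j y → x = y) (hm : ∀ x y, j x ∈ j y ↔ x ∈ y)
    (ht : ∀ y z, z ∈ j y → ∃ x, z = j x) (v : Fin n → M) :
    P ⟨N⟩ (fun i => j (v i)) ↔ P ⟨M⟩ v := by
  obtain ⟨φ, hφ⟩ := h
  rw [hφ ⟨N⟩, hφ ⟨M⟩]
  exact holds_emb hj hm ht φ v

/-- The predicates of the class `B0` are definable. -/
theorem B0.dfn (h : B0 P) (M : Type u) [Membership M M] [IsZF M] : Dfn (P ⟨M⟩) := by
  obtain ⟨φ, hφ⟩ := h
  have h1 : ∀ {n : ℕ} (φ : D0 n), Dfn (M := M) (fun v : Fin n → M => φ.Holds v) := by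
    intro n φ
    induction φ with
    | mem i j => exact Dfn.mem (DT.var i) (DT.var j)
    | eq i j => exact Dfn.eq (DT.var i) (DT.var j)
    | neg φ ih => exact ih.not
    | and φ ψ ih ih' => exact ih.and ih'
    | bex i φ ih =>
      refine Dfn.ex (P := fun v z => z ∈ v i ∧ φ.Holds (Fin.cons z v)) (Dfn.and ?_ ?_)
      · exact Dfn.mem (DT.var 0) (DT.var i.succ)
      · refine ih.congr fun w => ?_
        rw [show (Fin.cons (w 0) (fun k => w k.succ) : Fin _ → M) = w from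
          funext fun k => by refine Fin.cases ?_ (fun k => ?_) k <;> rfl]
  exact (h1 φ).congr fun v => (hφ ⟨M⟩ v).symm

end Pool.Agent.Sep
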