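import Pool.Agent.Sep.B0L
import Pool.Agent.GL.Base

/-!
Tables of the enumeration of the constructible sets are given by formulas with bounded quantifiers.
-/

universe u

set_option linter.unusedSectionVars false

namespace Pool.Agent.Sep

open Pool.Agent.SigB
open Pool.Agent.GL (IsZF Ix Gf Qx Lt3 Step Fc)

variable {n : ℕ}

theorem b0_exIx {P : ∀ M : Mdl.{u}, (Fin n → M) → Ix → Prop}
    (h : ∀ i, B0 fun M v => P M v i) : B0 (fun M v => ∃ i, P M v i) := by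
  refine ((h .c0).or ((h .c1).or ((h .c2).or ((h .c3).or ((h .c4).or ((h .c5).or ((h .c6).or
    ((h .c7).or (h .c8))))))))).congr fun M v => ?_
  constructor
  · rintro (h | h | h | h | h | h | h | h | h) <;> exact ⟨_, h⟩
  · rintro ⟨i, h⟩
    cases i <;> simp only [h, true_or, or_true]

theorem b0_allIx {P : ∀ M : Mdl.{u}, (Fin n → M) → Ix → Prop}
    (h : ∀ i, B0 fun M v => P M v i) : B0 (fun M v => ∀ i, P M v i) :=
  (b0_exIx (P := fun M v i => ¬ P M v i) fun i => (h i).not).not.congr fun M v => by push Not; rfl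

@[simp] theorem b0_qx (i : Ix) (a b c : Fin n) :
    B0 (fun (M : Mdl.{u}) (v : Fin n → M) => Qx i (v a) (v b) (v c)) := by
  cases i
  · exact B0.or (by simp) (by simp)
  · exact B0.and (by simp) (by simp)
  · exact B0.and (by simp) (B0.exop (P := fun M v x y => x ∈ v c) a (by simp))
  · exact B0.and (by simp) (B0.exop (P := fun M v x y => y ∈ v c) a (by simp))
  · refine B0.and (by simp) ?_
    refine (B0.bex (P := fun M v u => ∃ x y, u = GL.op x y ∧ y = v a) c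
      (B0.exop (P := fun (M : Mdl.{u}) (w : Fin (n + 1) → M) x y => y = w a.succ) 0
        (by simp))).congr fun M v => ?_
    constructor
    · rintro ⟨u, hu, x, y, rfl, rfl⟩
      exact ⟨x, hu⟩
    · rintro ⟨x, hx⟩
      exact ⟨_, hx, x, _, rfl, rfl⟩
  · refine B0.and (by simp) ?_
    refine (B0.bex (P := fun M v u => ∃ x y, u = GL.op x y ∧ x = v a) c
      (B0.exop (P := fun (M : Mdl.{u}) (w : Fin (n + 1) → M) x y => x = w a.succ) 0
        (by simp))).congr fun M v => ?_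
    constructor
    · rintro ⟨u, hu, x, y, rfl, rfl⟩
      exact ⟨y, hu⟩
    · rintro ⟨x, hx⟩
      exact ⟨_, hx, _, x, rfl, rfl⟩
  · refine B0.and (by simp) ?_
    refine (B0.exop (P := fun M v x u => ∃ y t, u = GL.op y t ∧ x ∈ y) a
      (B0.exop (P := fun (M : Mdl.{u}) (w : Fin (n + 2) → M) y t => w 1 ∈ y) 0
        (by simp))).congr fun M v => ?_
    constructor
    · rintro ⟨x, u, h, y, t, rfl, h'⟩
      exact ⟨x, y, t, h, h'⟩
    · rintro ⟨x, y, t, h, h'⟩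
      exact ⟨x, _, h, y, t, rfl, h'⟩
  · refine B0.and (by simp) ?_
    refine (B0.exop (P := fun M v x u => ∃ y t, u = GL.op y t ∧ x = y) a
      (B0.exop (P := fun (M : Mdl.{u}) (w : Fin (n + 2) → M) y t => w 1 = y) 0
        (by simp))).congr fun M v => ?_
    constructor
    · rintro ⟨x, u, h, y, t, rfl, rfl⟩
      exact ⟨x, t, h⟩
    · rintro ⟨x, t, h⟩
      exact ⟨x, _, h, x, t, rfl, rfl⟩
  · refine B0.and (by simp) ?_
    refine (B0.exop (P := fun M v x u => ∃ y t, u = GL.op y t ∧ GL.op x t ∈ v c) a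
      (B0.exop (P := fun (M : Mdl.{u}) (w : Fin (n + 2) → M) y t => GL.op (w 1) t ∈ w c.succ.succ) 0
        (by simp))).congr fun M v => ?_
    constructor
    · rintro ⟨x, u, h, y, t, rfl, h'⟩
      exact ⟨x, y, t, h, h'⟩
    · rintro ⟨x, y, t, h, h'⟩
      exact ⟨x, _, h, y, t, rfl, h'⟩

@[simp] theorem b0_gf (i : Ix) (a b c : Fin n) :
    B0 (fun (M : Mdl.{u}) (v : Fin n → M) => v a = Gf i (v b) (v c)) := by
  refine B0.congr (P := fun M v => (∀ z, z ∈ v a → Qx i z (v b) (v c)) ∧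
    (Qx i (v b) (v b) (v c) → v b ∈ v a) ∧ (Qx i (v c) (v b) (v c) → v c ∈ v a) ∧
    ∀ z, z ∈ v b → Qx i z (v b) (v c) → z ∈ v a) ?_ fun M v => ?_
  · refine B0.and (B0.ball (P := fun M v z => Qx i z (v b) (v c)) a (by simp)) (B0.and (by simp)
      (B0.and (by simp) (B0.ball (P := fun M v z => Qx i z (v b) (v c) → z ∈ v a) b (by simp))))
  · constructor
    · rintro ⟨h1, h2, h3, h4⟩
      refine GL.ext' fun z => ?_
      rw [GL.mem_Gf]
      refine ⟨h1 z, fun h => ?_⟩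
      rcases h.mem with h5 | h5 | h5
      · rw [h5]; rw [h5] at h; exact h2 h
      · rw [h5]; rw [h5] at h; exact h3 h
      · exact h4 z h5 h
    · intro h
      rw [h]
      exact ⟨fun z hz => GL.mem_Gf.1 hz, fun h => GL.mem_Gf.2 h, fun h => GL.mem_Gf.2 h,
        fun z _ h => GL.mem_Gf.2 h⟩

@[simp] theorem b0_unun (a b c d : Fin n) : B0 (fun (M : Mdl.{u}) (v : Fin n → M) =>
    GL.un (v a) (v b) = GL.un (v c) (v d)) := by
  refine B0.congr (P := fun M v => ((∀ z, z ∈ v a → z ∈ v c ∨ z ∈ v d) ∧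
    (∀ z, z ∈ v b → z ∈ v c ∨ z ∈ v d)) ∧ (∀ z, z ∈ v c → z ∈ v a ∨ z ∈ v b) ∧
    (∀ z, z ∈ v d → z ∈ v a ∨ z ∈ v b)) ?_ fun M v => ?_
  · refine B0.and (B0.and (B0.ball (P := fun M v z => z ∈ v c ∨ z ∈ v d) a (by simp))
      (B0.ball (P := fun M v z => z ∈ v c ∨ z ∈ v d) b (by simp)))
      (B0.and (B0.ball (P := fun M v z => z ∈ v a ∨ z ∈ v b) c (by simp))
      (B0.ball (P := fun M v z => z ∈ v a ∨ z ∈ v b) d (by simp)))
  · constructor
    · rintro ⟨⟨h1, h2⟩, h3, h4⟩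
      refine GL.ext' fun z => ?_
      rw [GL.mem_un, GL.mem_un]
      exact ⟨fun h => h.elim (h1 z) (h2 z), fun h => h.elim (h3 z) (h4 z)⟩
    · intro h
      have h' : ∀ z, (z ∈ v a ∨ z ∈ v b) ↔ (z ∈ v c ∨ z ∈ v d) := fun z => by
        rw [← GL.mem_un, ← GL.mem_un, h]
      exact ⟨⟨fun z hz => (h' z).1 (Or.inl hz), fun z hz => (h' z).1 (Or.inr hz)⟩,
        fun z hz => (h' z).2 (Or.inl hz), fun z hz => (h' z).2 (Or.inr hz)⟩

@[simp] theorem b0_unmem (a b c d : Fin n) : B0 (fun (M : Mdl.{u}) (v : Fin n → M) =>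
    GL.un (v a) (v b) ∈ GL.un (v c) (v d)) := by
  refine B0.congr (P := fun M v => (∃ z, z ∈ v c ∧ z = GL.un (v a) (v b)) ∨
    ∃ z, z ∈ v d ∧ z = GL.un (v a) (v b)) ?_ fun M v => ?_
  · exact B0.or (B0.bex (P := fun M v z => z = GL.un (v a) (v b)) c (by simp))
      (B0.bex (P := fun M v z => z = GL.un (v a) (v b)) d (by simp))
  · constructor
    · rintro (⟨z, hz, rfl⟩ | ⟨z, hz, rfl⟩)
      · exact GL.mem_un.2 (Or.inl hz)
      · exact GL.mem_un.2 (Or.inr hz)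
    · intro h
      rcases GL.mem_un.1 h with h | h
      · exact Or.inl ⟨_, h, rfl⟩
      · exact Or.inr ⟨_, h, rfl⟩

@[simp] theorem b0_lt3 (i i' : Ix) (a b c d : Fin n) : B0 (fun (M : Mdl.{u}) (v : Fin n → M) =>
    Lt3 (v a) (v b) i' (v c) (v d) i) := by
  unfold Lt3
  exact B0.or (b0_unmem _ _ _ _) (B0.and (b0_unun _ _ _ _) (B0.or (by simp) (B0.and (by simp)
    (B0.or (by simp) (B0.and (by simp) (b0_true a _))))))

/-- The step relation of the enumeration, for a function which is a set. -/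
def StepR {M : Type u} [Membership M M] [IsZF M] (h α y : M) : Prop :=
  (∃ β, β ∈ α ∧ ∃ γ, γ ∈ α ∧ ∃ a, GL.op β a ∈ h ∧ ∃ b, GL.op γ b ∈ h ∧ ∃ i, y = Gf i a b ∧
    (∀ x, x ∈ α → ∀ c, GL.op x c ∈ h → y ≠ c) ∧
    ∀ β', β' ∈ α → ∀ γ', γ' ∈ α → ∀ a', GL.op β' a' ∈ h → ∀ b', GL.op γ' b' ∈ h →
      ∀ i', Lt3 β' γ' i' β γ i → ∃ x, x ∈ α ∧ ∃ c, GL.op x c ∈ h ∧ c = Gf i' a' b') ∨
  ((∀ z, z ∈ y → ∃ x, x ∈ α ∧ GL.op x z ∈ h) ∧ (∀ x, x ∈ α → ∀ c, GL.op x c ∈ h → c ∈ y) ∧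
    ∀ β', β' ∈ α → ∀ γ', γ' ∈ α → ∀ a', GL.op β' a' ∈ h → ∀ b', GL.op γ' b' ∈ h →
      ∀ i', ∃ x, x ∈ α ∧ ∃ c, GL.op x c ∈ h ∧ c = Gf i' a' b')

theorem stepR_iff {M : Type u} [Membership M M] [IsZF M] {h γ α y : M} (hf : GL.Fn h γ)
    (hα : GL.Sb α γ) : StepR h α y ↔ Step (GL.ap h) α y := by
  have hv : ∀ {x c : M}, x ∈ α → (GL.op x c ∈ h ↔ GL.ap h x = c) := fun hx =>
    hf.op_mem_iff (hα _ hx)
  unfold StepR Step
  constructor
  · rintro (⟨β, hβ, δ, hδ, a, ha, b, hb, i, h1, h2, h3⟩ | ⟨h1, h2, h3⟩)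
    · rw [hv hβ] at ha
      rw [hv hδ] at hb
      subst ha hb
      refine Or.inl ⟨β, δ, hβ, hδ, i, h1, fun x hx => h2 x hx _ ((hv hx).2 rfl), ?_⟩
      intro β' γ' hβ' hγ' i' hl
      obtain ⟨x, hx, c, hc, h4⟩ := h3 β' hβ' γ' hγ' _ ((hv hβ').2 rfl) _ ((hv hγ').2 rfl) i' hl
      exact ⟨x, hx, by rw [← h4, (hv hx).1 hc]⟩
    · refine Or.inr ⟨fun z => ?_, ?_⟩
      · constructor
        · intro hz
          obtain ⟨x, hx, h4⟩ := h1 z hz
          exact ⟨x, hx, ((hv hx).1 h4).symm⟩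
        · rintro ⟨x, hx, rfl⟩
          exact h2 x hx _ ((hv hx).2 rfl)
      · intro β' γ' hβ' hγ' i'
        obtain ⟨x, hx, c, hc, h4⟩ := h3 β' hβ' γ' hγ' _ ((hv hβ').2 rfl) _ ((hv hγ').2 rfl) i'
        exact ⟨x, hx, by rw [← h4, (hv hx).1 hc]⟩
  · rintro (⟨β, δ, hβ, hδ, i, h1, h2, h3⟩ | ⟨h1, h2⟩)
    · refine Or.inl ⟨β, hβ, δ, hδ, _, (hv hβ).2 rfl, _, (hv hδ).2 rfl, i, h1, fun x hx c hc => ?_, ?_⟩
      · rw [← (hv hx).1 hc]
        exact h2 x hx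
      · intro β' hβ' γ' hγ' a' ha' b' hb' i' hl
        obtain ⟨x, hx, h4⟩ := h3 β' γ' hβ' hγ' i' hl
        refine ⟨x, hx, _, (hv hx).2 rfl, ?_⟩
        rw [← (hv hβ').1 ha', ← (hv hγ').1 hb']
        exact h4.symm
    · refine Or.inr ⟨fun z hz => ?_, fun x hx c hc => ?_, ?_⟩
      · obtain ⟨x, hx, h4⟩ := (h1 z).1 hz
        exact ⟨x, hx, (hv hx).2 h4.symm⟩
      · exact (h1 c).2 ⟨x, hx, ((hv hx).1 hc).symm⟩
      · intro β' hβ' γ' hγ' a' ha' b' hb' i'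
        obtain ⟨x, hx, h4⟩ := h2 β' γ' hβ' hγ' i'
        refine ⟨x, hx, _, (hv hx).2 rfl, ?_⟩
        rw [← (hv hβ').1 ha', ← (hv hγ').1 hb']
        exact h4.symm

@[simp] theorem b0_stepR (h α y : Fin n) :
    B0 (fun (M : Mdl.{u}) (v : Fin n → M) => StepR (v h) (v α) (v y)) := by
  unfold StepR
  repeat' (first
    | exact b0_lt3 _ _ _ _ _ _ | exact b0_gf _ _ _ _
    | exact B0.mem _ _ | exact B0.eq _ _ | exact b0_opmem _ _ _ | exact b0_sb _ _ | exact b0_tr _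
    | exact b0_ord _ | exact b0_em _ | exact b0_om _ | exact b0_pr _ _ _ | exact b0_op _ _ _
    | exact b0_un _ _ _ | exact b0_sc _ _ | exact b0_fn _ _ | refine B0.and ?_ ?_
    | refine B0.or ?_ ?_ | refine B0.not ?_ | refine B0.imp ?_ ?_ | refine B0.iff ?_ ?_
    | (refine B0.bex _ ?_; beta_reduce) | (refine B0.ball _ ?_; beta_reduce)
    | (refine B0.exval _ _ ?_; beta_reduce) | (refine B0.allval _ _ ?_; beta_reduce)
    | (refine B0.exop _ ?_; beta_reduce) |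
    (refine b0_exIx fun _ => ?_) | (refine b0_allIx fun _ => ?_))

end Pool.Agent.Sep
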