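import Pool.Agent.Sep.B0

/-!
Basic notions of set theory are given by formulas with bounded quantifiers.
-/

universe u

set_option linter.unusedSectionVars false

namespace Pool.Agent.Sep

open Pool.Agent.SigB
open Pool.Agent.GL (IsZF)

variable {n : ℕ}

@[simp] theorem b0_true (i : Fin n) (p : Prop) : B0 (fun (M : Mdl.{u}) (v : Fin n → M) => p) := by
  by_cases h : p
  · exact (B0.eq i i).congr fun M v => by simp [h]
  · exact (B0.eq i i).not.congr fun M v => by simp [h]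

@[simp] theorem b0_sb (i j : Fin n) : B0 (fun (M : Mdl.{u}) (v : Fin n → M) => GL.Sb (v i) (v j)) :=
  B0.ball (P := fun M v z => z ∈ v j) i (by simp)

@[simp] theorem b0_tr (i : Fin n) : B0 (fun (M : Mdl.{u}) (v : Fin n → M) => GL.Tr (v i)) :=
  B0.ball (P := fun M v z => GL.Sb z (v i)) i (by simp)

@[simp] theorem b0_ord (i : Fin n) : B0 (fun (M : Mdl.{u}) (v : Fin n → M) => GL.Ord (v i)) :=
  B0.and (by simp) (B0.ball (P := fun M v z => GL.Tr z) i (by simp))

@[simp] theorem b0_em (i : Fin n) : B0 (fun (M : Mdl.{u}) (v : Fin n → M) => v i = GL.em) :=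
  (B0.ball (P := fun M v z => z ∉ v i) i (by simp)).congr fun M v => by
    constructor
    · intro h
      exact GL.ext' fun z => ⟨fun hz => (h z hz hz).elim, fun hz => (GL.not_mem_em _ hz).elim⟩
    · intro h z hz
      rw [h] at hz
      exact (GL.not_mem_em _ hz).elim

@[simp] theorem b0_pr (i j k : Fin n) :
    B0 (fun (M : Mdl.{u}) (v : Fin n → M) => v i = GL.pr (v j) (v k)) :=
  (B0.and (B0.ball (P := fun M v z => z = v j ∨ z = v k) i (by simp))
    (B0.and (B0.mem j i) (B0.mem k i))).congr fun M v => by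
    constructor
    · rintro ⟨h1, h2, h3⟩
      refine GL.ext' fun z => ?_
      rw [GL.mem_pr]
      refine ⟨h1 z, ?_⟩
      rintro (rfl | rfl)
      · exact h2
      · exact h3
    · intro h
      refine ⟨fun z hz => ?_, ?_, ?_⟩
      · rwa [h, GL.mem_pr] at hz
      · rw [h]; simp
      · rw [h]; simp

@[simp] theorem b0_op (i j k : Fin n) :
    B0 (fun (M : Mdl.{u}) (v : Fin n → M) => v i = GL.op (v j) (v k)) :=
  (B0.bex (P := fun M v a => a = GL.pr (v j) (v j) ∧ ∃ b, b ∈ v i ∧ b = GL.pr (v j) (v k) ∧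
    v i = GL.pr a b) i (B0.and (by simp) (B0.bex (P := fun M v b => b = GL.pr (v j.succ) (v k.succ) ∧
    v i.succ = GL.pr (v 0) b) i.succ (by simp)))).congr fun M v => by
    constructor
    · rintro ⟨a, ha, rfl, b, hb, rfl, h⟩
      exact h
    · intro h
      exact ⟨_, by rw [h]; unfold GL.op; simp, rfl, _, by rw [h]; unfold GL.op; simp, rfl, h⟩

@[simp] theorem b0_opmem (i j k : Fin n) :
    B0 (fun (M : Mdl.{u}) (v : Fin n → M) => GL.op (v j) (v k) ∈ v i) :=
  (B0.bex (P := fun M v z => z = GL.op (v j) (v k)) i (by simp)).congr fun M v => by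
    constructor
    · rintro ⟨z, hz, rfl⟩
      exact hz
    · intro h
      exact ⟨_, h, rfl⟩

/-- Decomposition of an ordered pair. -/
theorem B0.exop {P : ∀ M : Mdl.{u}, (Fin n → M) → M → M → Prop} (i : Fin n)
    (h : B0 (fun (M : Mdl.{u}) (w : Fin (n + 2) → M) =>
      P M (fun k => w k.succ.succ) (w 1) (w 0))) :
    B0 (fun (M : Mdl.{u}) (v : Fin n → M) => ∃ a b, v i = GL.op a b ∧ P M v a b) := by
  refine B0.congr (P := fun M v => ∃ s, s ∈ v i ∧ ∃ a, a ∈ s ∧ ∃ t, t ∈ v i ∧ ∃ b, b ∈ t ∧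
    (v i = GL.op a b ∧ P M v a b)) ?_ fun M v => ?_
  · refine B0.bex i (B0.bex (P := fun (M : Mdl.{u}) (w : Fin (n + 1) → M) a => ∃ t, t ∈ w i.succ ∧
      ∃ b, b ∈ t ∧ (w i.succ = GL.op a b ∧ P M (fun k => w k.succ) a b)) 0 ?_)
    refine B0.bex (P := fun (M : Mdl.{u}) (w : Fin (n + 2) → M) t => ∃ b, b ∈ t ∧
      (w i.succ.succ = GL.op (w 0) b ∧ P M (fun k => w k.succ.succ) (w 0) b)) i.succ.succ ?_
    refine B0.bex (P := fun (M : Mdl.{u}) (w : Fin (n + 3) → M) b =>
      (w i.succ.succ.succ = GL.op (w 1) b ∧ P M (fun k => w k.succ.succ.succ) (w 1) b)) 0 ?_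
    refine B0.and (by simp) ?_
    exact h.ren (m := n + 4) (Fin.cases 0 (Fin.cases 2 fun k => k.succ.succ.succ.succ))
  · constructor
    · rintro ⟨s, -, a, -, t, -, b, -, h⟩
      exact ⟨a, b, h⟩
    · rintro ⟨a, b, h1, h2⟩
      exact ⟨GL.pr a a, by rw [h1]; unfold GL.op; simp, a, by simp, GL.pr a b,
        by rw [h1]; unfold GL.op; simp, b, by simp, h1, h2⟩

/-- The value of a function. -/
theorem B0.exval {P : ∀ M : Mdl.{u}, (Fin n → M) → M → Prop} (i j : Fin n)
    (h : B0 (fun (M : Mdl.{u}) (w : Fin (n + 1) → M) => P M (fun k => w k.succ) (w 0))) :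
    B0 (fun (M : Mdl.{u}) (v : Fin n → M) => ∃ y, GL.op (v j) y ∈ v i ∧ P M v y) := by
  refine B0.congr (P := fun M v => ∃ z, z ∈ v i ∧ ∃ a y, z = GL.op a y ∧ (a = v j ∧ P M v y)) ?_
    fun M v => ?_
  · refine B0.bex (P := fun M v z => ∃ a y, z = GL.op a y ∧ (a = v j ∧ P M v y)) i ?_
    refine B0.exop (P := fun (M : Mdl.{u}) (w : Fin (n + 1) → M) a y => a = w j.succ ∧
      P M (fun k => w k.succ) y) 0 (B0.and (by simp) ?_)
    exact h.ren (m := n + 3) (Fin.cases 0 fun k => k.succ.succ.succ)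
  · constructor
    · rintro ⟨z, hz, a, y, rfl, rfl, h⟩
      exact ⟨y, hz, h⟩
    · rintro ⟨y, hy, h⟩
      exact ⟨_, hy, _, y, rfl, rfl, h⟩

/-- All values of a relation at a point. -/
theorem B0.allval {P : ∀ M : Mdl.{u}, (Fin n → M) → M → Prop} (i j : Fin n)
    (h : B0 (fun (M : Mdl.{u}) (w : Fin (n + 1) → M) => P M (fun k => w k.succ) (w 0))) :
    B0 (fun (M : Mdl.{u}) (v : Fin n → M) => ∀ y, GL.op (v j) y ∈ v i → P M v y) :=
  (B0.exval (P := fun M v y => ¬ P M v y) i j h.not).not.congr fun M v => by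
    constructor
    · intro h y hy
      by_contra hn
      exact h ⟨y, hy, hn⟩
    · rintro h ⟨y, hy, hn⟩
      exact hn (h y hy)

attribute [simp] B0.exval B0.allval

@[simp] theorem b0_ispair (i : Fin n) :
    B0 (fun (M : Mdl.{u}) (v : Fin n → M) => ∃ a b, v i = GL.op a b) :=
  (B0.exop (P := fun M v a b => True) i (by simp [b0_true (0 : Fin (n + 2))])).congr fun M v => by
    simp

@[simp] theorem b0_fn (i j : Fin n) :
    B0 (fun (M : Mdl.{u}) (v : Fin n → M) => GL.Fn (v i) (v j)) := by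
  unfold GL.Fn
  refine B0.and (B0.ball (P := fun M v z => ∃ x, x ∈ v j ∧ ∃ y, z = GL.op x y) i ?_)
    (B0.ball (P := fun M v x => ∃ y, GL.op x y ∈ v i ∧ ∀ y', GL.op x y' ∈ v i → y' = y) j ?_)
  · refine (B0.exop (P := fun (M : Mdl.{u}) (w : Fin (n + 1) → M) a y => a ∈ w j.succ) 0
      (by simp)).congr fun M v => ?_
    constructor
    · rintro ⟨a, b, h, ha⟩
      exact ⟨a, ha, b, h⟩
    · rintro ⟨a, ha, b, h⟩
      exact ⟨a, b, h, ha⟩
  · refine B0.exval (P := fun (M : Mdl.{u}) (w : Fin (n + 1) → M) y =>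
      ∀ y', GL.op (w 0) y' ∈ w i.succ → y' = y) i.succ 0 ?_
    exact B0.allval (P := fun (M : Mdl.{u}) (w : Fin (n + 2) → M) y' => y' = w 0) i.succ.succ 1
      (by simp)

@[simp] theorem b0_un (i j k : Fin n) :
    B0 (fun (M : Mdl.{u}) (v : Fin n → M) => v i = GL.un (v j) (v k)) :=
  (B0.and (B0.ball (P := fun M v z => z ∈ v j ∨ z ∈ v k) i (by simp))
    (B0.and (b0_sb j i) (b0_sb k i))).congr fun M v => by
    constructor
    · rintro ⟨h1, h2, h3⟩
      refine GL.ext' fun z => ?_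
      rw [GL.mem_un]
      exact ⟨h1 z, fun h => h.elim (h2 z) (h3 z)⟩
    · intro h
      refine ⟨fun z hz => ?_, fun z hz => ?_, fun z hz => ?_⟩
      · rwa [h, GL.mem_un] at hz
      · rw [h, GL.mem_un]; exact Or.inl hz
      · rw [h, GL.mem_un]; exact Or.inr hz

@[simp] theorem b0_sc (i j : Fin n) :
    B0 (fun (M : Mdl.{u}) (v : Fin n → M) => v i = GL.sc (v j)) :=
  (B0.and (B0.ball (P := fun M v z => z ∈ v j ∨ z = v j) i (by simp))
    (B0.and (b0_sb j i) (B0.mem j i))).congr fun M v => by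
    constructor
    · rintro ⟨h1, h2, h3⟩
      refine GL.ext' fun z => ?_
      rw [GL.mem_sc]
      refine ⟨h1 z, ?_⟩
      rintro (h | rfl)
      · exact h2 z h
      · exact h3
    · intro h
      refine ⟨fun z hz => ?_, fun z hz => ?_, ?_⟩
      · rwa [h, GL.mem_sc] at hz
      · rw [h, GL.mem_sc]; exact Or.inl hz
      · rw [h, GL.mem_sc]; exact Or.inr rfl

/-- The set of natural numbers in terms of bounded quantifiers. -/
theorem eq_om_iff {M : Type u} [Membership M M] [IsZF M] {o : M} : o = GL.om ↔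
    GL.Ord o ∧ (∃ e, e ∈ o ∧ e = GL.em) ∧ (∀ x, x ∈ o → ∃ y, y ∈ o ∧ y = GL.sc x) ∧
      ∀ x, x ∈ o → x = GL.em ∨ ∃ y, y ∈ o ∧ x = GL.sc y := by
  constructor
  · rintro rfl
    refine ⟨GL.om_ord, ⟨_, GL.em_mem_om, rfl⟩, fun x hx => ⟨_, GL.sc_mem_om hx, rfl⟩, fun x hx => ?_⟩
    rcases GL.om_cases hx with h | ⟨m, hm, h⟩
    · exact Or.inl h
    · exact Or.inr ⟨m, hm, h⟩
  · rintro ⟨h1, ⟨e, he, rfl⟩, h2, h3⟩
    have h4 : GL.Sb GL.om o := GL.om_ind (P := fun x => x ∈ o) (by simp) he fun x _ hx => by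
      obtain ⟨y, hy, rfl⟩ := h2 x hx
      exact hy
    rcases GL.om_ord.tri h1 with h | h | h
    · rcases h3 _ h with h5 | ⟨y, hy, h5⟩
      · have := GL.em_mem_om (M := M)
        rw [h5] at this
        exact (GL.not_mem_em _ this).elim
      · have h6 : y ∈ (GL.om : M) := by rw [h5]; exact GL.mem_sc_self y
        have h7 := GL.sc_mem_om h6
        rw [← h5] at h7
        exact (GL.not_mem_self _ h7).elim
    · exact h.symm
    · exact (GL.not_mem_self _ (h4 _ h)).elim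

@[simp] theorem b0_om (i : Fin n) : B0 (fun (M : Mdl.{u}) (v : Fin n → M) => v i = GL.om) := by
  refine B0.congr ?_ fun M v => (eq_om_iff (o := v i)).symm
  refine B0.and (by simp) (B0.and ?_ (B0.and ?_ ?_))
  · exact B0.bex (P := fun M v e => e = GL.em) i (by simp)
  · refine B0.ball (P := fun M v x => ∃ y, y ∈ v i ∧ y = GL.sc x) i ?_
    exact B0.bex (P := fun (M : Mdl.{u}) (w : Fin (n + 1) → M) y => y = GL.sc (w 0)) i.succ (by simp)
  · refine B0.ball (P := fun M v x => x = GL.em ∨ ∃ y, y ∈ v i ∧ x = GL.sc y) i ?_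
    refine B0.or (by simp) ?_
    exact B0.bex (P := fun (M : Mdl.{u}) (w : Fin (n + 1) → M) y => w 0 = GL.sc y) i.succ (by simp)

end Pool.Agent.Sep
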