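import Pool.Agent.Forc.Hess
import Pool.Agent.Forc.CardB

/-!
Analytic predicates on finite tuples of reals and natural numbers in a model of ZFC: a predicate
`P` is analytic if `P v` holds if and only if there is a real `u` with `C u v`, where `C` is a
definable closed relation. Closure properties.
-/

universe u

set_option linter.unusedSectionVars false

namespace Pool.Agent.Sep

open Pool.Agent.SigB Pool.Agent.Forc

variable {M : Type u} [Membership M M] [IsZFC M]

/-! ### Pairs of natural numbers and sections of reals -/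

theorem exists_pf : ∃ f : M, f ∈ fs (pd (SigB.om : M) SigB.om) SigB.om ∧ Inj f (pd SigB.om SigB.om) :=
  hess om_ord (Sb.refl _)

/-- An injective function from `ω × ω` to `ω`. -/
noncomputable def pf : M := exists_pf.choose

/-- The code of a pair of natural numbers. -/
noncomputable def pn (a b : M) : M := ap pf (op a b)

theorem pn_mem {a b : M} (ha : a ∈ (SigB.om : M)) (hb : b ∈ (SigB.om : M)) :
    pn a b ∈ (SigB.om : M) :=
  (mem_fs.1 exists_pf.choose_spec.1).2 _ (op_mem_pd.2 ⟨ha, hb⟩)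

theorem pn_inj {a b a' b' : M} (ha : a ∈ (SigB.om : M)) (hb : b ∈ (SigB.om : M))
    (ha' : a' ∈ (SigB.om : M)) (hb' : b' ∈ (SigB.om : M)) (h : pn a b = pn a' b') :
    a = a' ∧ b = b' :=
  op_inj.1 (exists_pf.choose_spec.2 _ _ (op_mem_pd.2 ⟨ha, hb⟩) (op_mem_pd.2 ⟨ha', hb'⟩) h)

@[simp] theorem dt_pn {n : ℕ} {s t : (Fin n → M) → M} (hs : DT s) (ht : DT t) :
    DT (fun v => pn (s v) (t v)) := by
  unfold pn
  exact dt_ap (DT.const _) (dt_op hs ht)

/-- The first component of a code. -/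
noncomputable def p1 (t : M) : M :=
  cp fun z => ∃ a, ∃ b, a ∈ (SigB.om : M) ∧ b ∈ (SigB.om : M) ∧ pn a b = t ∧ z ∈ a

/-- The second component of a code. -/
noncomputable def p2 (t : M) : M :=
  cp fun z => ∃ a, ∃ b, a ∈ (SigB.om : M) ∧ b ∈ (SigB.om : M) ∧ pn a b = t ∧ z ∈ b

theorem p1.dt : DT (fun w : Fin 1 → M => p1 (w 0)) := by
  unfold p1; simp (maxDischargeDepth := 50)

theorem p2.dt : DT (fun w : Fin 1 → M => p2 (w 0)) := by
  unfold p2; simp (maxDischargeDepth := 50)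

@[simp] theorem dt_p1 {n : ℕ} {s : (Fin n → M) → M} (hs : DT s) :
    DT (fun v => p1 (s v)) := dt1 p1.dt hs

@[simp] theorem dt_p2 {n : ℕ} {s : (Fin n → M) → M} (hs : DT s) :
    DT (fun v => p2 (s v)) := dt1 p2.dt hs

theorem p1_pn {a b : M} (ha : a ∈ (SigB.om : M)) (hb : b ∈ (SigB.om : M)) :
    p1 (pn a b) = a := by
  have h : ∀ z : M, z ∈ a ↔ ∃ a', ∃ b', a' ∈ (SigB.om : M) ∧ b' ∈ (SigB.om : M) ∧
      pn a' b' = pn a b ∧ z ∈ a' := by
    intro z
    constructor
    · exact fun hz => ⟨a, b, ha, hb, rfl, hz⟩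
    · rintro ⟨a', b', ha', hb', h, hz⟩
      rwa [← (pn_inj ha' hb' ha hb h).1]
  refine ext' fun z => ?_
  unfold p1
  rw [mem_cp ⟨a, h⟩, h]

theorem p2_pn {a b : M} (ha : a ∈ (SigB.om : M)) (hb : b ∈ (SigB.om : M)) :
    p2 (pn a b) = b := by
  have h : ∀ z : M, z ∈ b ↔ ∃ a', ∃ b', a' ∈ (SigB.om : M) ∧ b' ∈ (SigB.om : M) ∧
      pn a' b' = pn a b ∧ z ∈ b' := by
    intro z
    constructor
    · exact fun hz => ⟨a, b, ha, hb, rfl, hz⟩
    · rintro ⟨a', b', ha', hb', h, hz⟩
      rwa [← (pn_inj ha' hb' ha hb h).2]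
  refine ext' fun z => ?_
  unfold p2
  rw [mem_cp ⟨b, h⟩, h]

theorem p1_mem (t : M) : p1 t ∈ (SigB.om : M) := by
  by_cases h : ∃ a, ∃ b, a ∈ (SigB.om : M) ∧ b ∈ (SigB.om : M) ∧ pn a b = t
  · obtain ⟨a, b, ha, hb, rfl⟩ := h
    rw [p1_pn ha hb]; exact ha
  · have : p1 t = SigB.em := by
      refine ext' fun z => ?_
      unfold p1
      rw [mem_cp ⟨SigB.em, fun z => ?_⟩]
      · constructor
        · rintro ⟨a, b, ha, hb, h', -⟩
          exact (h ⟨a, b, ha, hb, h'⟩).elim
        · exact fun hz => (not_mem_em z hz).elim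
      · constructor
        · exact fun hz => (not_mem_em z hz).elim
        · rintro ⟨a, b, ha, hb, h', -⟩
          exact (h ⟨a, b, ha, hb, h'⟩).elim
    rw [this]; exact em_mem_om

/-- The set of reals. -/
noncomputable def RR : M := fs SigB.om SigB.om

theorem mem_RR {x : M} : x ∈ (RR : M) ↔ Fn x SigB.om ∧ ∀ i, i ∈ (SigB.om : M) → ap x i ∈ (SigB.om : M) :=
  mem_fs

theorem ap_mem {x i : M} (hx : x ∈ (RR : M)) (hi : i ∈ (SigB.om : M)) : ap x i ∈ (SigB.om : M) :=
  (mem_RR.1 hx).2 i hi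

@[simp] theorem dt_RR {n : ℕ} : DT (fun _ : Fin n → M => (RR : M)) := DT.const _

theorem RR_ext {x y : M} (hx : x ∈ (RR : M)) (hy : y ∈ (RR : M))
    (h : ∀ i, i ∈ (SigB.om : M) → ap x i = ap y i) : x = y :=
  (mem_RR.1 hx).1.ext (mem_RR.1 hy).1 h

/-- The section `n` of the real `u`. -/
noncomputable def dec (u n : M) : M := lam SigB.om fun i => ap u (pn n i)

@[simp] theorem dt_dec {n : ℕ} {s t : (Fin n → M) → M} (hs : DT s) (ht : DT t) :
    DT (fun v => dec (s v) (t v)) := by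
  have h : DT (fun w : Fin 2 → M => dec (w 0) (w 1)) := by
    unfold dec; simp (maxDischargeDepth := 50)
  exact dt2 h hs ht

theorem ap_dec {u n i : M} (hi : i ∈ (SigB.om : M)) : ap (dec u n) i = ap u (pn n i) := by
  unfold dec
  exact ap_lam (by simp (maxDischargeDepth := 50)) hi

theorem dec_mem {u n : M} (hu : u ∈ (RR : M)) (hn : n ∈ (SigB.om : M)) : dec u n ∈ (RR : M) := by
  unfold dec
  refine lam_mem_fs (by simp (maxDischargeDepth := 50)) fun i hi => ?_
  exact ap_mem hu (pn_mem hn hi)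

/-- The real with the sections `F n`. -/
noncomputable def enc (F : M → M) : M := lam SigB.om fun t => ap (F (p1 t)) (p2 t)

theorem enc_mem {F : M → M} (hF : DT (fun w : Fin 1 → M => F (w 0)))
    (h : ∀ n, n ∈ (SigB.om : M) → F n ∈ (RR : M)) : enc F ∈ (RR : M) := by
  have hF' : DT (fun w : Fin 1 → M => F (p1 (w 0))) := dt1 hF (dt_p1 (DT.var 0))
  refine lam_mem_fs (dt_ap hF' (dt_p2 (DT.var 0))) fun t _ => ?_
  refine ap_mem (h _ (p1_mem t)) ?_
  -- the second component is a natural number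
  by_cases h' : ∃ a, ∃ b, a ∈ (SigB.om : M) ∧ b ∈ (SigB.om : M) ∧ pn a b = t
  · obtain ⟨a, b, ha, hb, rfl⟩ := h'
    rw [p2_pn ha hb]; exact hb
  · have : p2 t = SigB.em := by
      refine ext' fun z => ?_
      unfold p2
      rw [mem_cp ⟨SigB.em, fun z => ?_⟩]
      · constructor
        · rintro ⟨a, b, ha, hb, h, -⟩
          exact (h' ⟨a, b, ha, hb, h⟩).elim
        · exact fun hz => (not_mem_em z hz).elim
      · constructor
        · exact fun hz => (not_mem_em z hz).elim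
        · rintro ⟨a, b, ha, hb, h, -⟩
          exact (h' ⟨a, b, ha, hb, h⟩).elim
    rw [this]; exact em_mem_om

theorem dec_enc {F : M → M} (hF : DT (fun w : Fin 1 → M => F (w 0)))
    (h : ∀ n, n ∈ (SigB.om : M) → F n ∈ (RR : M)) {n : M} (hn : n ∈ (SigB.om : M)) :
    dec (enc F) n = F n := by
  have hF' : DT (fun w : Fin 1 → M => F (p1 (w 0))) := dt1 hF (dt_p1 (DT.var 0))
  refine RR_ext (dec_mem (enc_mem hF h) hn) (h n hn) fun i hi => ?_
  rw [ap_dec hi]
  unfold enc
  rw [ap_lam (F := fun t => ap (F (p1 t)) (p2 t)) (dt_ap hF' (dt_p2 (DT.var 0))) (pn_mem hn hi),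
    p1_pn hn hi, p2_pn hn hi]

/-- A real with two given sections. -/
noncomputable def enc2 (u v : M) : M := by
  classical
  exact enc fun k => if k = SigB.em then u else v

/-- `1`. -/
noncomputable def on : M := sc SigB.em

theorem on_mem : (on : M) ∈ (SigB.om : M) := sc_mem_om em_mem_om

theorem on_ne : (on : M) ≠ SigB.em := sc_ne_em _

@[simp] theorem dt_on {n : ℕ} : DT (fun _ : Fin n → M => (on : M)) := DT.const _

theorem enc2_spec {u v : M} (hu : u ∈ (RR : M)) (hv : v ∈ (RR : M)) :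
    enc2 u v ∈ (RR : M) ∧ dec (enc2 u v) SigB.em = u ∧ dec (enc2 u v) on = v := by
  classical
  have hF : DT (fun w : Fin 1 → M => if w 0 = SigB.em then u else v) :=
    DT.ite (P := fun w : Fin 1 → M => w 0 = SigB.em) (by simp) (DT.const _) (DT.const _)
  have h : ∀ n, n ∈ (SigB.om : M) → (if n = SigB.em then u else v) ∈ (RR : M) := by
    intro n _
    by_cases hn : n = SigB.em
    · rw [if_pos hn]; exact hu
    · rw [if_neg hn]; exact hv
  have h1 : enc2 u v = enc fun k => if k = SigB.em then u else v := by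
    unfold enc2
    congr
  rw [h1]
  refine ⟨enc_mem hF h, ?_, ?_⟩
  · rw [dec_enc hF h em_mem_om, if_pos rfl]
  · rw [dec_enc hF h on_mem, if_neg on_ne]

/-- The constant real. -/
noncomputable def cst (m : M) : M := lam SigB.om fun _ => m

@[simp] theorem dt_cst {n : ℕ} {s : (Fin n → M) → M} (hs : DT s) :
    DT (fun v => cst (s v)) := by
  have h : DT (fun w : Fin 1 → M => cst (w 0)) := by
    unfold cst; simp (maxDischargeDepth := 50)
  exact dt1 h hs

theorem ap_cst {m i : M} (hi : i ∈ (SigB.om : M)) : ap (cst m) i = m :=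
  ap_lam (DT.const _) hi

theorem cst_mem {m : M} (hm : m ∈ (SigB.om : M)) : cst m ∈ (RR : M) :=
  lam_mem_fs (DT.const _) fun _ _ => hm

/-! ### Bounds -/

theorem mem_of_sb_nat {i k j : M} (hk : k ∈ (SigB.om : M)) (hj : j ∈ k) (hi : i ∈ j) : i ∈ k :=
  (om_ord.mem hk).trans hi hj

/-- A function on a natural number to the natural numbers is bounded. -/
theorem exists_bound {F : M → M} (hF : DT (fun w : Fin 1 → M => F (w 0)))
    (h : ∀ n, n ∈ (SigB.om : M) → F n ∈ (SigB.om : M)) {j : M} (hj : j ∈ (SigB.om : M)) :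
    ∃ k, k ∈ (SigB.om : M) ∧ ∀ i, i ∈ j → F i ∈ k := by
  refine om_ind (P := fun j => ∃ k, k ∈ (SigB.om : M) ∧ ∀ i, i ∈ j → F i ∈ k) ?_ ?_ ?_ j hj
  · refine Dfn.ex (P := fun (v : Fin 1 → M) k => k ∈ (SigB.om : M) ∧ ∀ i, i ∈ v 0 → F i ∈ k)
      (Dfn.and (by simp) ?_)
    refine Dfn.all (P := fun (v : Fin 2 → M) i => i ∈ v 1 → F i ∈ v 0) ?_
    exact Dfn.imp (by simp) (Dfn.mem (dt1 hF (DT.var 0)) (DT.var 1))
  · exact ⟨SigB.em, em_mem_om, fun i hi => (not_mem_em i hi).elim⟩
  · rintro n hn ⟨k, hk, hk'⟩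
    have hO : ∀ {x : M}, x ∈ (SigB.om : M) → SigB.Ord x := fun hx => om_ord.mem hx
    refine ⟨un k (sc (F n)), ?_, ?_⟩
    · rcases (hO hk).sb_total (hO (sc_mem_om (h n hn))) with h1 | h1
      · have : un k (sc (F n)) = sc (F n) := ext' fun z => by
          rw [mem_un]; exact ⟨fun h2 => h2.elim (h1 z) id, Or.inr⟩
        rw [this]; exact sc_mem_om (h n hn)
      · have : un k (sc (F n)) = k := ext' fun z => by
          rw [mem_un]; exact ⟨fun h2 => h2.elim id (h1 z), Or.inl⟩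
        rw [this]; exact hk
    · intro i hi
      rcases mem_sc.1 hi with h1 | rfl
      · exact mem_un.2 (Or.inl (hk' i h1))
      · exact mem_un.2 (Or.inr (mem_sc_self _))

theorem un_mem_omB {a b : M} (ha : a ∈ (SigB.om : M)) (hb : b ∈ (SigB.om : M)) :
    un a b ∈ (SigB.om : M) := by
  rcases (om_ord.mem ha).sb_total (om_ord.mem hb) with h1 | h1
  · have : un a b = b := ext' fun z => by
      rw [mem_un]; exact ⟨fun h2 => h2.elim (h1 z) id, Or.inr⟩
    rw [this]; exact hb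
  · have : un a b = a := ext' fun z => by
      rw [mem_un]; exact ⟨fun h2 => h2.elim id (h1 z), Or.inl⟩
    rw [this]; exact ha

end Pool.Agent.Sep
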