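import Pool.Agent.Sep.Ana

/-!
A calculus for predicates which are analytic together with their negation, and for continuous
functions.
-/

universe u

set_option linter.unusedSectionVars false

namespace Pool.Agent.Sep

open Pool.Agent.SigB Pool.Agent.Forc

variable {M : Type u} [Membership M M] [IsZFC M]

section

variable {n m : ℕ} {τ : Fin n → Bool}

theorem Cn.var {b : Bool} {i : Fin n} (h : τ i = b) : Cn τ b (fun v : Fin n → M => v i) := by
  subst h
  refine ⟨DT.var i, fun v hv => hv i, fun v _ j hj => ⟨j, hj, fun v' _ hn => hn i⟩⟩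

theorem Cn.con {c : M} (hc : c ∈ (SigB.om : M)) : Cn τ false (fun _ : Fin n → M => c) :=
  ⟨DT.const _, fun _ _ => hc, fun _ _ j hj => ⟨j, hj, fun _ _ _ => rfl⟩⟩

theorem Cn.zero : Cn τ false (fun _ : Fin n → M => (SigB.em : M)) := Cn.con em_mem_om

theorem Cn.one : Cn τ false (fun _ : Fin n → M => (on : M)) := Cn.con on_mem

theorem Cn.sc {F : (Fin n → M) → M} (hF : Cn τ false F) : Cn τ false fun v => SigB.sc (F v) := by
  refine ⟨dt_sc hF.dt, fun v hv => sc_mem_om (hF.ty v hv), fun v hv j hj => ?_⟩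
  obtain ⟨k, hk, h⟩ := hF.ct v hv j hj
  refine ⟨k, hk, fun v' hv' hn => ?_⟩
  have : F v = F v' := h v' hv' hn
  show SigB.sc (F v) = SigB.sc (F v')
  rw [this]

theorem Cn.pn {F G : (Fin n → M) → M} (hF : Cn τ false F) (hG : Cn τ false G) :
    Cn τ false fun v => pn (F v) (G v) := by
  refine ⟨dt_pn hF.dt hG.dt, fun v hv => pn_mem (hF.ty v hv) (hG.ty v hv), fun v hv j hj => ?_⟩
  obtain ⟨k, hk, h⟩ := hF.ct v hv j hj
  obtain ⟨l, hl, h'⟩ := hG.ct v hv j hj
  refine ⟨un k l, un_mem_omB hk hl, fun v' hv' hn => ?_⟩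
  have h1 : F v = F v' := h v' hv' (hn.mono fun z hz => mem_un.2 (Or.inl hz))
  have h2 : G v = G v' := h' v' hv' (hn.mono fun z hz => mem_un.2 (Or.inr hz))
  show Pool.Agent.Sep.pn (F v) (G v) = Pool.Agent.Sep.pn (F v') (G v')
  rw [h1, h2]

theorem Cn.ap {F G : (Fin n → M) → M} (hF : Cn τ true F) (hG : Cn τ false G) :
    Cn τ false fun v => ap (F v) (G v) := by
  refine ⟨dt_ap hF.dt hG.dt, fun v hv => ap_mem (hF.ty v hv) (hG.ty v hv), fun v hv j hj => ?_⟩
  obtain ⟨k, hk, h⟩ := hF.ct v hv (SigB.sc (G v)) (sc_mem_om (hG.ty v hv))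
  obtain ⟨l, hl, h'⟩ := hG.ct v hv j hj
  refine ⟨un k l, un_mem_omB hk hl, fun v' hv' hn => ?_⟩
  have h1 := h v' hv' (hn.mono fun z hz => mem_un.2 (Or.inl hz))
  have h2 : G v = G v' := h' v' hv' (hn.mono fun z hz => mem_un.2 (Or.inr hz))
  show SigB.ap (F v) (G v) = SigB.ap (F v') (G v')
  rw [← h2]
  exact h1 _ (mem_sc_self _)

theorem Cn.dec {F G : (Fin n → M) → M} (hF : Cn τ true F) (hG : Cn τ false G) :
    Cn τ true fun v => dec (F v) (G v) := by
  refine ⟨dt_dec hF.dt hG.dt, fun v hv => dec_mem (hF.ty v hv) (hG.ty v hv), fun v hv j hj => ?_⟩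
  obtain ⟨k₀, hk₀, h₀⟩ := near_dec (u := F v) (hG.ty v hv) hj
  obtain ⟨k, hk, h⟩ := hF.ct v hv k₀ hk₀
  obtain ⟨l, hl, h'⟩ := hG.ct v hv j hj
  refine ⟨un k l, un_mem_omB hk hl, fun v' hv' hn => ?_⟩
  have h1 := h v' hv' (hn.mono fun z hz => mem_un.2 (Or.inl hz))
  have h2 : G v = G v' := h' v' hv' (hn.mono fun z hz => mem_un.2 (Or.inr hz))
  show Nr true j (Pool.Agent.Sep.dec (F v) (G v)) (Pool.Agent.Sep.dec (F v') (G v'))
  rw [← h2]
  exact h₀ _ h1

theorem Bo.eq {F G : (Fin n → M) → M} (hF : Cn τ false F) (hG : Cn τ false G) :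
    Bo τ fun v => F v = G v := by
  refine Bo.loc (Dfn.eq hF.dt hG.dt) fun v hv => ?_
  obtain ⟨k, hk, h⟩ := hF.ct v hv _ em_mem_om
  obtain ⟨l, hl, h'⟩ := hG.ct v hv _ em_mem_om
  refine ⟨un k l, un_mem_omB hk hl, fun v' hv' hn => ?_⟩
  have h1 : F v = F v' := h v' hv' (hn.mono fun z hz => mem_un.2 (Or.inl hz))
  have h2 : G v = G v' := h' v' hv' (hn.mono fun z hz => mem_un.2 (Or.inr hz))
  rw [h1, h2]

theorem Bo.mem {F G : (Fin n → M) → M} (hF : Cn τ false F) (hG : Cn τ false G) :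
    Bo τ fun v => F v ∈ G v := by
  refine Bo.loc (Dfn.mem hF.dt hG.dt) fun v hv => ?_
  obtain ⟨k, hk, h⟩ := hF.ct v hv _ em_mem_om
  obtain ⟨l, hl, h'⟩ := hG.ct v hv _ em_mem_om
  refine ⟨un k l, un_mem_omB hk hl, fun v' hv' hn => ?_⟩
  have h1 : F v = F v' := h v' hv' (hn.mono fun z hz => mem_un.2 (Or.inl hz))
  have h2 : G v = G v' := h' v' hv' (hn.mono fun z hz => mem_un.2 (Or.inr hz))
  rw [h1, h2]

theorem Bo.ex {R : (Fin n → M) → M → Prop}
    (h : Bo (Matrix.vecCons false τ) fun w : Fin (n + 1) → M => R (fun i => w i.succ) (w 0)) :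
    Bo τ fun v => ∃ x, x ∈ (SigB.om : M) ∧ R v x :=
  Bo.ex_om (R := fun x v => R v x) h

theorem Bo.all {R : (Fin n → M) → M → Prop}
    (h : Bo (Matrix.vecCons false τ) fun w : Fin (n + 1) → M => R (fun i => w i.succ) (w 0)) :
    Bo τ fun v => ∀ x, x ∈ (SigB.om : M) → R v x :=
  Bo.all_om (R := fun x v => R v x) h

attribute [simp] Cn.zero Cn.one Cn.sc Cn.pn Cn.ap Cn.dec Bo.eq Bo.mem Bo.ex Bo.all Bo.and Bo.or
  Bo.not Bo.imp Bo.iff Cn.var

theorem Cn.ren {σ : Fin m → Bool} {b : Bool} {F : (Fin m → M) → M} (h : Cn σ b F) (f : Fin m → Fin n)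
    (hf : ∀ i, σ i = τ (f i)) : Cn τ b fun v => F fun i => v (f i) := by
  have hty : ∀ v : Fin n → M, TyV τ v → TyV σ fun i => v (f i) := by
    intro v hv i
    rw [hf i]; exact hv (f i)
  refine ⟨h.dt.ren f, fun v hv => h.ty _ (hty v hv), fun v hv j hj => ?_⟩
  obtain ⟨k, hk, h1⟩ := h.ct _ (hty v hv) j hj
  refine ⟨k, hk, fun v' hv' hn => h1 _ (hty v' hv') fun i => ?_⟩
  rw [hf i]; exact hn (f i)

theorem bo1 {b : Bool} {P : M → Prop} (h : Bo ![b] fun v : Fin 1 → M => P (v 0))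
    {F : (Fin n → M) → M} (hF : Cn τ b F) : Bo τ fun v => P (F v) :=
  Bo.sub (R := fun x _ => P x) (h.ren (fun _ => 0) fun i => by
    rw [Subsingleton.elim i 0]; rfl) hF

theorem bo2 {b c : Bool} {P : M → M → Prop}
    (h : Bo ![b, c] fun v : Fin 2 → M => P (v 0) (v 1))
    {F G : (Fin n → M) → M} (hF : Cn τ b F) (hG : Cn τ c G) : Bo τ fun v => P (F v) (G v) := by
  refine Bo.sub (R := fun x v => P x (G v)) ?_ hF
  refine Bo.sub (R := fun y (w : Fin (n + 1) → M) => P (w 0) y) ?_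
    (hG.ren (τ := Fin.cons b τ) Fin.succ fun i => by simp)
  exact h.ren (τ := Fin.cons c (Fin.cons b τ)) (n := n + 2) ![1, 0] fun i => by
    fin_cases i <;> rfl

theorem bo3 {b c d : Bool} {P : M → M → M → Prop}
    (h : Bo ![b, c, d] fun v : Fin 3 → M => P (v 0) (v 1) (v 2))
    {F G H : (Fin n → M) → M} (hF : Cn τ b F) (hG : Cn τ c G) (hH : Cn τ d H) :
    Bo τ fun v => P (F v) (G v) (H v) := by
  refine Bo.sub (R := fun x v => P x (G v) (H v)) ?_ hF
  refine Bo.sub (R := fun y (w : Fin (n + 1) → M) => P (w 0) y (H fun i => w i.succ)) ?_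
    (hG.ren (τ := Fin.cons b τ) Fin.succ fun i => by simp)
  refine Bo.sub (R := fun z (w : Fin (n + 2) → M) => P (w 1) (w 0) z) ?_
    (hH.ren (τ := Fin.cons c (Fin.cons b τ)) (fun i => i.succ.succ) fun i => by simp)
  exact h.ren (τ := Fin.cons d (Fin.cons c (Fin.cons b τ))) (n := n + 3) ![2, 1, 0] fun i => by
    fin_cases i <;> rfl

theorem bo4 {b c d e : Bool} {P : M → M → M → M → Prop}
    (h : Bo ![b, c, d, e] fun v : Fin 4 → M => P (v 0) (v 1) (v 2) (v 3))
    {F G H K : (Fin n → M) → M} (hF : Cn τ b F) (hG : Cn τ c G) (hH : Cn τ d H)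
    (hK : Cn τ e K) : Bo τ fun v => P (F v) (G v) (H v) (K v) := by
  refine Bo.sub (R := fun x v => P x (G v) (H v) (K v)) ?_ hF
  refine Bo.sub (R := fun y (w : Fin (n + 1) → M) => P (w 0) y (H fun i => w i.succ)
    (K fun i => w i.succ)) ?_
    (hG.ren (τ := Fin.cons b τ) Fin.succ fun i => by simp)
  refine Bo.sub (R := fun z (w : Fin (n + 2) → M) => P (w 1) (w 0) z
    (K fun i => w i.succ.succ)) ?_
    (hH.ren (τ := Fin.cons c (Fin.cons b τ)) (fun i => i.succ.succ) fun i => by simp)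
  refine Bo.sub (R := fun u (w : Fin (n + 3) → M) => P (w 2) (w 1) (w 0) u) ?_
    (hK.ren (τ := Fin.cons d (Fin.cons c (Fin.cons b τ))) (fun i => i.succ.succ.succ)
      fun i => by simp)
  exact h.ren (τ := Fin.cons e (Fin.cons d (Fin.cons c (Fin.cons b τ)))) (n := n + 4)
    ![3, 2, 1, 0] fun i => by fin_cases i <;> rfl

/-! ### Coded structures -/

/-- `i` belongs to the domain of the structure coded by `y`. -/
def Dm (y i : M) : Prop := ap (dec y on) i = SigB.em

/-- The membership relation of the structure coded by `y`. -/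
def Er (y i j : M) : Prop := Dm y i ∧ Dm y j ∧ ap (dec y SigB.em) (pn i j) = SigB.em

@[simp] theorem bo_Dm {F G : (Fin n → M) → M} (hF : Cn τ true F) (hG : Cn τ false G) :
    Bo τ fun v => Dm (F v) (G v) := by
  unfold Dm; simp (maxDischargeDepth := 50) [hF, hG]

@[simp] theorem bo_Er {F G H : (Fin n → M) → M} (hF : Cn τ true F) (hG : Cn τ false G)
    (hH : Cn τ false H) : Bo τ fun v => Er (F v) (G v) (H v) := by
  unfold Er; simp (maxDischargeDepth := 50) [hF, hG, hH]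

/-- The relation `Er` is extensional. -/
def Xt (y : M) : Prop := ∀ i, i ∈ (SigB.om : M) → ∀ j, j ∈ (SigB.om : M) → (Dm y i ∧ Dm y j ∧
  (∀ k, k ∈ (SigB.om : M) → (Er y k i ↔ Er y k j))) → i = j

/-- `a` enumerates the natural numbers of the structure coded by `y`. -/
def Nm (y a : M) : Prop :=
  ((∀ n, n ∈ (SigB.om : M) → Dm y (ap a n)) ∧ (∀ k, k ∈ (SigB.om : M) → ¬ Er y k (ap a SigB.em))) ∧
    ∀ n, n ∈ (SigB.om : M) → ∀ k, k ∈ (SigB.om : M) →
      (Er y k (ap a (sc n)) ↔ (Er y k (ap a n) ∨ k = ap a n))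

/-- `k` is the unordered pair of `i` and `j` in the structure coded by `y`. -/
def Pe (y k i j : M) : Prop := Dm y k ∧ ∀ l, l ∈ (SigB.om : M) → (Er y l k ↔ (l = i ∨ l = j))

/-- `k` is the ordered pair of `i` and `j` in the structure coded by `y`. -/
def Oe (y k i j : M) : Prop := ∃ s, s ∈ (SigB.om : M) ∧ ∃ t, t ∈ (SigB.om : M) ∧
  (Pe y s i i ∧ Pe y t i j ∧ Pe y k s t)

/-- `p` is the real `z` in the structure coded by `y`, where `a` enumerates the natural
numbers. -/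
def Rp (y a p z : M) : Prop := Dm y p ∧ (∀ k, k ∈ (SigB.om : M) → (Er y k p ↔
  ∃ n, n ∈ (SigB.om : M) ∧ Oe y k (ap a n) (ap a (ap z n)))) ∧
  ∀ n, n ∈ (SigB.om : M) → ∃ k, k ∈ (SigB.om : M) ∧ Oe y k (ap a n) (ap a (ap z n))

@[simp] theorem bo_Xt {F : (Fin n → M) → M} (hF : Cn τ true F) : Bo τ fun v => Xt (F v) := by
  have h : Bo (![true] : Fin 1 → Bool) (fun v : Fin 1 → M => Xt (v 0)) := by
    unfold Xt; simp (maxDischargeDepth := 50)
  exact bo1 h hF

@[simp] theorem bo_Nm {F G : (Fin n → M) → M} (hF : Cn τ true F) (hG : Cn τ true G) :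
    Bo τ fun v => Nm (F v) (G v) := by
  have h : Bo (![true, true] : Fin 2 → Bool) (fun v : Fin 2 → M => Nm (v 0) (v 1)) := by
    unfold Nm; simp (maxDischargeDepth := 50)
  exact bo2 h hF hG

@[simp] theorem bo_Pe {F G H K : (Fin n → M) → M} (hF : Cn τ true F) (hG : Cn τ false G)
    (hH : Cn τ false H) (hK : Cn τ false K) : Bo τ fun v => Pe (F v) (G v) (H v) (K v) := by
  have h : Bo (![true, false, false, false] : Fin 4 → Bool)
      (fun v : Fin 4 → M => Pe (v 0) (v 1) (v 2) (v 3)) := by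
    unfold Pe; simp (maxDischargeDepth := 50)
  exact bo4 h hF hG hH hK

@[simp] theorem bo_Oe {F G H K : (Fin n → M) → M} (hF : Cn τ true F) (hG : Cn τ false G)
    (hH : Cn τ false H) (hK : Cn τ false K) : Bo τ fun v => Oe (F v) (G v) (H v) (K v) := by
  have h : Bo (![true, false, false, false] : Fin 4 → Bool)
      (fun v : Fin 4 → M => Oe (v 0) (v 1) (v 2) (v 3)) := by
    unfold Oe; simp (maxDischargeDepth := 50)
  exact bo4 h hF hG hH hK

@[simp] theorem bo_Rp {F G H K : (Fin n → M) → M} (hF : Cn τ true F) (hG : Cn τ true G)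
    (hH : Cn τ false H) (hK : Cn τ true K) : Bo τ fun v => Rp (F v) (G v) (H v) (K v) := by
  have h : Bo (![true, true, false, true] : Fin 4 → Bool)
      (fun v : Fin 4 → M => Rp (v 0) (v 1) (v 2) (v 3)) := by
    unfold Rp; simp (maxDischargeDepth := 50)
  exact bo4 h hF hG hH hK

/-- Satisfaction of a formula with bounded quantifiers in the structure coded by `y`. -/
def Sat (y : M) : ∀ {n : ℕ}, D0 n → (Fin n → M) → Prop
  | _, .mem i j, v => Er y (v i) (v j)
  | _, .eq i j, v => v i = v j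
  | _, .neg φ, v => ¬ Sat y φ v
  | _, .and φ ψ, v => Sat y φ v ∧ Sat y ψ v
  | _, .bex i φ, v => ∃ k, k ∈ (SigB.om : M) ∧ (Er y k (v i) ∧ Sat y φ (Fin.cons k v))

theorem bo_Sat : ∀ {n : ℕ} (φ : D0 n), Bo (Fin.cons true fun _ => false : Fin (n + 1) → Bool)
    (fun w : Fin (n + 1) → M => Sat (w 0) φ fun i => w i.succ)
  | _, .mem i j => by
    unfold Sat
    exact bo_Er (Cn.var rfl) (Cn.var (by simp)) (Cn.var (by simp))
  | _, .eq i j => by
    unfold Sat
    exact Bo.eq (Cn.var (by simp)) (Cn.var (by simp))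
  | _, .neg φ => by
    unfold Sat
    exact (bo_Sat φ).not
  | _, .and φ ψ => by
    unfold Sat
    exact (bo_Sat φ).and (bo_Sat ψ)
  | n, .bex i φ => by
    unfold Sat
    refine Bo.ex (R := fun (w : Fin (n + 1) → M) k => Er (w 0) k (w i.succ) ∧
      Sat (w 0) φ (Fin.cons k fun i => w i.succ)) (Bo.and ?_ ?_)
    · exact bo_Er (Cn.var rfl) (Cn.var rfl) (Cn.var (by simp))
    · have h := (bo_Sat φ).ren (τ := (Matrix.vecCons false (Fin.cons true fun _ => false) :
        Fin (n + 2) → Bool)) (Fin.cases 1 (Fin.cases 0 fun i => i.succ.succ)) (fun i => by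
          refine Fin.cases ?_ (fun i => ?_) i
          · rfl
          · refine Fin.cases ?_ (fun i => ?_) i
            · rfl
            · simp)
      refine h.congr fun w _ => ?_
      have h2 : (fun i : Fin (n + 1) => w ((Fin.cases 1 (Fin.cases 0 fun i => i.succ.succ) :
          Fin (n + 2) → Fin (n + 2)) i.succ)) = Fin.cons (w 0) fun i => w i.succ.succ := by
        funext i
        refine Fin.cases ?_ (fun i => ?_) i <;> first | rfl | simp
      rw [h2]
      rfl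

end

end Pool.Agent.Sep
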