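import Pool.Agent.FTwo.Cond

/-!
# Finite sets inside a model of ZFC

`Fte x`: the set `x` injects into a natural number (in the sense of the model).
-/

universe u

set_option linter.unusedSectionVars false

namespace Pool.Agent.Sep

open Pool.Agent.SigB Pool.Agent.Forc

variable {M : Type u} [Membership M M] [IsZFC M]

/-- `x` is finite. -/
def Fte (x : M) : Prop := ∃ n, n ∈ (om : M) ∧ Le x n

theorem Fte.dfn : Dfn (fun w : Fin 1 → M => Fte (w 0)) := by
  unfold Fte; simp (maxDischargeDepth := 50)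

@[simp] theorem dfn_Fte {n : ℕ} {s : (Fin n → M) → M} (hs : DT s) : Dfn fun v => Fte (s v) :=
  dfn1 Fte.dfn hs

/-- `x ∪ {a}` -/
noncomputable def ins (x a : M) : M := un x (pr a a)

@[simp] theorem mem_ins {x a z : M} : z ∈ ins x a ↔ z ∈ x ∨ z = a := by
  unfold ins
  rw [mem_un, mem_pr, or_self]

theorem ins.dt : DT (fun w : Fin 2 → M => ins (w 0) (w 1)) := by
  unfold ins; simp (maxDischargeDepth := 50)

@[simp] theorem dt_ins {n : ℕ} {s t : (Fin n → M) → M} (hs : DT s) (ht : DT t) :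
    DT (fun v => ins (s v) (t v)) := dt2 ins.dt hs ht

theorem sb_ins (x a : M) : Sb x (ins x a) := fun _ hz => mem_ins.2 (Or.inl hz)

theorem ins_of_mem {x a : M} (h : a ∈ x) : ins x a = x := by
  refine ext' fun z => ?_
  rw [mem_ins]
  exact ⟨fun hz => hz.elim id fun h' => by rwa [h'], Or.inl⟩

theorem un_ins (x y a : M) : un x (ins y a) = ins (un x y) a := by
  refine ext' fun z => ?_
  simp only [mem_un, mem_ins]
  tauto

theorem un_em (x : M) : un x em = x := by
  refine ext' fun z => ?_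
  rw [mem_un]
  exact ⟨fun h => h.elim id fun h' => (not_mem_em _ h').elim, Or.inl⟩

theorem Fte.sub {x y : M} (h : Fte x) (h' : Sb y x) : Fte y := by
  obtain ⟨n, hn, hx⟩ := h
  exact ⟨n, hn, hx.mono_left h'⟩

theorem fte_of_mem_om {n : M} (hn : n ∈ (om : M)) : Fte n := ⟨n, hn, Le.refl n⟩

theorem fte_em : Fte (em : M) := fte_of_mem_om em_mem_om

theorem Fte.le {x y : M} (h : Fte x) (h' : Le y x) : Fte y := by
  obtain ⟨n, hn, hx⟩ := h
  exact ⟨n, hn, h'.trans hx⟩

theorem Fte.ins {x : M} (h : Fte x) (a : M) : Fte (Sep.ins x a) := by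
  classical
  by_cases ha : a ∈ x
  · rwa [ins_of_mem ha]
  obtain ⟨n, hn, f, hf, hi⟩ := h
  have hv := (mem_fs.1 hf).2
  have hno : Ord n := ord_of_mem_om hn
  refine ⟨sc n, sc_mem_om hn, Le.mk (F := fun z => if z = a then n else ap f z) ?_ ?_ ?_⟩
  · exact DT.ite (P := fun w : Fin 1 → M => w 0 = a) (by simp) (by simp)
      (by simp (maxDischargeDepth := 50))
  · intro z hz
    by_cases h1 : z = a
    · rw [if_pos h1]
      exact mem_sc.2 (Or.inr rfl)
    · rw [if_neg h1]
      exact mem_sc.2 (Or.inl (hv z ((mem_ins.1 hz).resolve_right h1)))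
  · intro z w hz hw he
    by_cases h1 : z = a <;> by_cases h2 : w = a
    · rw [h1, h2]
    · simp only [if_pos h1, if_neg h2] at he
      have h3 := hv w ((mem_ins.1 hw).resolve_right h2)
      rw [← he] at h3
      exact absurd h3 (not_mem_self _)
    · simp only [if_neg h1, if_pos h2] at he
      have h3 := hv z ((mem_ins.1 hz).resolve_right h1)
      rw [he] at h3
      exact absurd h3 (not_mem_self _)
    · simp only [if_neg h1, if_neg h2] at he
      exact hi z w ((mem_ins.1 hz).resolve_right h1) ((mem_ins.1 hw).resolve_right h2) he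

theorem fte_single (a : M) : Fte (pr a a) := by
  have h : pr a a = ins em a := by
    refine ext' fun z => ?_
    rw [mem_pr, mem_ins, or_self]
    exact ⟨Or.inr, fun h => h.elim (fun h' => (not_mem_em _ h').elim) id⟩
  rw [h]
  exact fte_em.ins a

/-- Induction on finite sets. -/
theorem fte_ind {P : M → Prop} (hP : Dfn (fun w : Fin 1 → M => P (w 0))) (h0 : P em)
    (hs : ∀ x a, Fte x → a ∉ x → P x → P (ins x a)) {x : M} (hx : Fte x) : P x := by
  obtain ⟨n, hn, hx⟩ := hx
  have hP' : ∀ {n : ℕ} {s : (Fin n → M) → M}, DT s → Dfn fun v => P (s v) := fun hs => dfn1 hP hs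
  refine om_ind (P := fun n => ∀ x : M, Le x n → P x) ?_ ?_ ?_ n hn x hx
  · exact Dfn.all (P := fun (w : Fin 1 → M) x => Le x (w 0) → P x)
      (Dfn.imp (by simp) (hP' (DT.var 0)))
  · rintro x ⟨f, hf, -⟩
    have : x = SigB.em := by
      refine ext' fun z => ⟨fun hz => ?_, fun hz => (not_mem_em _ hz).elim⟩
      exact (not_mem_em _ ((mem_fs.1 hf).2 z hz)).elim
    rwa [this]
  · intro n hn ih x hx
    by_cases h1 : ∃ t, t ∈ x
    · obtain ⟨t, ht⟩ := h1
      have h2 := FTwo.le_remove hx ht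
      have h3 : x = ins (df x (pr t t)) t := by
        refine ext' fun z => ?_
        rw [mem_ins, mem_df, mem_pr, or_self]
        constructor
        · intro hz
          by_cases h4 : z = t
          · exact Or.inr h4
          · exact Or.inl ⟨hz, h4⟩
        · rintro (h4 | rfl)
          · exact h4.1
          · exact ht
      rw [h3]
      refine hs _ t ⟨n, hn, h2⟩ ?_ (ih _ h2)
      rw [mem_df, mem_pr, or_self]
      exact fun h => h.2 rfl
    · have : x = SigB.em := by
        refine ext' fun z => ⟨fun hz => (h1 ⟨z, hz⟩).elim, fun hz => (not_mem_em _ hz).elim⟩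
      rwa [this]

theorem Fte.un {x y : M} (hx : Fte x) (hy : Fte y) : Fte (SigB.un x y) := by
  refine fte_ind (P := fun y => Fte (SigB.un x y)) (by simp (maxDischargeDepth := 50)) ?_ ?_ hy
  · rwa [un_em]
  · intro y a _ _ ih
    rw [un_ins]
    exact ih.ins a

theorem Fte.im {x : M} (hx : Fte x) {F : M → M} (hF : DT (fun w : Fin 1 → M => F (w 0))) :
    Fte (SigB.im x F) := by
  obtain ⟨n, hn, h⟩ := hx
  exact ⟨n, hn, Le.image (ord_of_mem_om hn) h hF fun y hy => (mem_im hF).1 hy⟩

theorem Fte.sp {x : M} (hx : Fte x) {P : M → Prop} (hP : Dfn (fun w : Fin 1 → M => P (w 0))) :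
    Fte (SigB.sp x P) := hx.sub fun _ hz => ((mem_sp hP).1 hz).1

/-- A finite union of finite sets. -/
theorem Fte.sU {x : M} (hx : Fte x) (h : ∀ y, y ∈ x → Fte y) : Fte (SigB.sU x) := by
  refine fte_ind (P := fun x => (∀ y, y ∈ x → Fte y) → Fte (SigB.sU x))
    (by simp (maxDischargeDepth := 50)) ?_ ?_ hx h
  · intro _
    have : SigB.sU (SigB.em : M) = SigB.em := by
      refine ext' fun z => ?_
      rw [mem_sU]
      exact ⟨fun ⟨u, hu, _⟩ => (not_mem_em _ hu).elim, fun hz => (not_mem_em _ hz).elim⟩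
    rw [this]
    exact fte_em
  · intro x a _ _ ih h
    have h1 : SigB.sU (Sep.ins x a) = SigB.un (SigB.sU x) a := by
      refine ext' fun z => ?_
      rw [mem_sU, mem_un, mem_sU]
      constructor
      · rintro ⟨u, hu, hz⟩
        rcases mem_ins.1 hu with hu | rfl
        · exact Or.inl ⟨u, hu, hz⟩
        · exact Or.inr hz
      · rintro (⟨u, hu, hz⟩ | hz)
        · exact ⟨u, mem_ins.2 (Or.inl hu), hz⟩
        · exact ⟨a, mem_ins.2 (Or.inr rfl), hz⟩
    rw [h1]
    exact (ih fun y hy => h y (mem_ins.2 (Or.inl hy))).un (h a (mem_ins.2 (Or.inr rfl)))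

theorem Fte.pd {x y : M} (hx : Fte x) (hy : Fte y) : Fte (SigB.pd x y) := by
  have hd : DT (fun w : Fin 1 → M => SigB.im y fun b => op (w 0) b) := by
    simp (maxDischargeDepth := 50)
  have h1 : SigB.pd x y = SigB.sU (SigB.im x fun a => SigB.im y fun b => op a b) := by
    refine ext' fun z => ?_
    rw [mem_pd, mem_sU]
    constructor
    · rintro ⟨a, ha, b, hb, rfl⟩
      exact ⟨_, (mem_im hd).2 ⟨a, ha, rfl⟩, (mem_im (by simp (maxDischargeDepth := 50))).2
        ⟨b, hb, rfl⟩⟩
    · rintro ⟨u, hu, hz⟩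
      obtain ⟨a, ha, rfl⟩ := (mem_im hd).1 hu
      obtain ⟨b, hb, rfl⟩ := (mem_im (by simp (maxDischargeDepth := 50))).1 hz
      exact ⟨a, ha, b, hb, rfl⟩
  rw [h1]
  refine (hx.im hd).sU fun u hu => ?_
  obtain ⟨a, ha, rfl⟩ := (mem_im hd).1 hu
  exact hy.im (by simp (maxDischargeDepth := 50))

/-- A finite set of natural numbers is bounded. -/
theorem fte_bdd {x : M} (hx : Fte x) (h : Sb x om) : ∃ m, m ∈ (om : M) ∧ Sb x m := by
  refine fte_ind (P := fun x => Sb x om → ∃ m, m ∈ (om : M) ∧ Sb x m)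
    (by simp (maxDischargeDepth := 50)) ?_ ?_ hx h
  · exact fun _ => ⟨em, em_mem_om, fun z hz => (not_mem_em _ hz).elim⟩
  · intro x a _ _ ih h
    obtain ⟨m, hm, h1⟩ := ih fun z hz => h z (mem_ins.2 (Or.inl hz))
    have ha : a ∈ (om : M) := h a (mem_ins.2 (Or.inr rfl))
    have hmo := ord_of_mem_om hm
    have hao := ord_of_mem_om ha
    rcases hmo.tri hao with h2 | h2 | h2
    · refine ⟨sc a, sc_mem_om ha, fun z hz => ?_⟩
      rcases mem_ins.1 hz with hz | rfl
      · exact mem_sc.2 (Or.inl (hao.sb h2 z (h1 z hz)))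
      · exact mem_sc.2 (Or.inr rfl)
    · subst h2
      refine ⟨sc m, sc_mem_om hm, fun z hz => ?_⟩
      rcases mem_ins.1 hz with hz | rfl
      · exact mem_sc.2 (Or.inl (h1 z hz))
      · exact mem_sc.2 (Or.inr rfl)
    · refine ⟨m, hm, fun z hz => ?_⟩
      rcases mem_ins.1 hz with hz | rfl
      · exact h1 z hz
      · exact h2

/-- A set which is closed under `x, a ↦ x ∪ {a}` contains its finite subsets. -/
theorem mem_of_fte {H : M} (h0 : em ∈ H) (hs : ∀ x a, x ∈ H → a ∈ H → ins x a ∈ H) {x : M}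
    (hx : Fte x) (h : Sb x H) : x ∈ H := by
  refine fte_ind (P := fun x => Sb x H → x ∈ H) (by simp (maxDischargeDepth := 50)) ?_ ?_ hx h
  · exact fun _ => h0
  · intro x a _ _ ih h
    exact hs x a (ih fun z hz => h z (mem_ins.2 (Or.inl hz))) (h a (mem_ins.2 (Or.inr rfl)))

/-- Enumeration of a finite set. -/
theorem fte_enum {x : M} (hx : Fte x) : ∃ k e, k ∈ (om : M) ∧ e ∈ fs k x ∧
    (∀ i j, i ∈ k → j ∈ k → ap e i = ap e j → i = j) ∧ ∀ y, y ∈ x → ∃ i, i ∈ k ∧ ap e i = y := by
  classical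
  refine fte_ind (P := fun x => ∃ k e, k ∈ (om : M) ∧ e ∈ fs k x ∧
    (∀ i j, i ∈ k → j ∈ k → ap e i = ap e j → i = j) ∧ ∀ y, y ∈ x → ∃ i, i ∈ k ∧ ap e i = y)
    (by simp (maxDischargeDepth := 50)) ?_ ?_ hx
  · refine ⟨em, em, em_mem_om, ?_, fun i _ hi => (not_mem_em _ hi).elim,
      fun y hy => (not_mem_em _ hy).elim⟩
    have h1 : lam (em : M) (fun z => z) ∈ fs (em : M) em :=
      lam_mem_fs (by simp) fun x hx => (not_mem_em _ hx).elim
    have h2 : lam (SigB.em : M) (fun z => z) = SigB.em := by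
      refine ext' fun z => ⟨fun hz => ?_, fun hz => (not_mem_em _ hz).elim⟩
      unfold lam at hz
      obtain ⟨y, hy, -⟩ := (mem_im (by simp (maxDischargeDepth := 50))).1 hz
      exact (not_mem_em _ hy).elim
    rwa [h2] at h1
  · rintro x a - ha ⟨k, e, hk, he, hi, hs⟩
    have hv := (mem_fs.1 he).2
    have hd : DT (fun w : Fin 1 → M => if w 0 = k then a else ap e (w 0)) :=
      DT.ite (P := fun w : Fin 1 → M => w 0 = k) (by simp) (by simp)
        (by simp (maxDischargeDepth := 50))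
    have hkk : ∀ i, i ∈ k → i ≠ k := by
      rintro i hi rfl
      exact not_mem_self _ hi
    refine ⟨sc k, lam (sc k) fun i => if i = k then a else ap e i, sc_mem_om hk,
      lam_mem_fs hd fun i hi' => ?_, fun i j hi' hj he' => ?_, fun y hy => ?_⟩
    · by_cases h1 : i = k
      · rw [if_pos h1]
        exact mem_ins.2 (Or.inr rfl)
      · rw [if_neg h1]
        exact mem_ins.2 (Or.inl (hv i ((mem_sc.1 hi').resolve_right h1)))
    · rw [ap_lam hd hi', ap_lam hd hj] at he'
      by_cases h1 : i = k <;> by_cases h2 : j = k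
      · rw [h1, h2]
      · rw [if_pos h1, if_neg h2] at he'
        exact absurd (by rw [he']; exact hv j ((mem_sc.1 hj).resolve_right h2)) ha
      · rw [if_neg h1, if_pos h2] at he'
        exact absurd (by rw [← he']; exact hv i ((mem_sc.1 hi').resolve_right h1)) ha
      · rw [if_neg h1, if_neg h2] at he'
        exact hi i j ((mem_sc.1 hi').resolve_right h1) ((mem_sc.1 hj).resolve_right h2) he'
    · rcases mem_ins.1 hy with hy | rfl
      · obtain ⟨i, hi', rfl⟩ := hs y hy
        refine ⟨i, mem_sc.2 (Or.inl hi'), ?_⟩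
        rw [ap_lam hd (mem_sc.2 (Or.inl hi')), if_neg (hkk i hi')]
      · refine ⟨k, mem_sc.2 (Or.inr rfl), ?_⟩
        rw [ap_lam hd (mem_sc.2 (Or.inr rfl)), if_pos rfl]

/-- the set of the finite subsets of `x` -/
noncomputable def fpw (x : M) : M := sp (pw x) fun y => Fte y

theorem mem_fpw {x y : M} : y ∈ fpw x ↔ Sb y x ∧ Fte y := by
  unfold fpw
  rw [mem_sp (by simp), mem_pw]

theorem fpw.dt : DT (fun w : Fin 1 → M => fpw (w 0)) := by
  unfold fpw; simp (maxDischargeDepth := 50)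

@[simp] theorem dt_fpw {n : ℕ} {s : (Fin n → M) → M} (hs : DT s) : DT (fun v => fpw (s v)) :=
  dt1 fpw.dt hs

end Pool.Agent.Sep
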