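import Pool.Agent.Sep.PosA
import Pool.Agent.Sep.Nice
import Pool.Agent.Sep.Fin

/-!
# The countable chain condition for posets of finite sets of atoms

If the set of steps injects into the power set of `ω` and there are only countably many nodes then
the conditions are coloured with countably many colours such that conditions of the same colour
are compatible.
-/

universe u

set_option linter.unusedSectionVars false

namespace Pool.Agent.Sep

open Pool.Agent.SigB Pool.Agent.Frc Pool.Agent.Forc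

variable {M : Type u} [Membership M M] [IsZFC M]

/-- A countable set has only countably many finite subsets. -/
theorem le_fpw {B : M} (h : Le B (SigB.om : M)) : Le (fpw B) (SigB.om : M) := by
  have hd : DT (fun w : Fin 1 → M => im (w 0) snd) := by simp (maxDischargeDepth := 50)
  refine (Le.seq_le om_ord (Sb.refl om) h).image (F := fun s => im s snd) om_ord hd fun x hx => ?_
  obtain ⟨hxB, hxf⟩ := mem_fpw.1 hx
  obtain ⟨k, e, hk, he, -, hs⟩ := fte_enum hxf
  have he' := mem_fs.1 he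
  refine ⟨e, mem_Seq.2 ⟨k, hk, mem_fs.2 ⟨he'.1, fun i hi => hxB _ (he'.2 i hi)⟩⟩, ?_⟩
  refine ext' fun z => ?_
  rw [mem_im (by simp)]
  constructor
  · intro hz
    obtain ⟨i, hi, rfl⟩ := hs z hz
    exact ⟨op i (ap e i), he'.1.mem_iff.2 ⟨i, hi, rfl⟩, by simp⟩
  · rintro ⟨v, hv, rfl⟩
    obtain ⟨i, hi, rfl⟩ := he'.1.mem_iff.1 hv
    rw [snd_op]
    exact he'.2 i hi

/-- The number `n` separates the labels of the atoms of `p`. -/
def Spt (e p n : M) : Prop :=
  ∀ j j' x x', op j x ∈ p → op j' x' ∈ p → it (ap e j) n = it (ap e j') n → j = j'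

theorem Spt.dfn : Dfn (fun w : Fin 3 → M => Spt (w 0) (w 1) (w 2)) := by
  unfold Spt; simp (maxDischargeDepth := 50)

@[simp] theorem dfn_Spt {n : ℕ} {s t r : (Fin n → M) → M} (hs : DT s) (ht : DT t) (hr : DT r) :
    Dfn (fun v => Spt (s v) (t v) (r v)) := dfn3 Spt.dfn hs ht hr

theorem exists_spt {e D X p : M} (he : e ∈ fs D (pw om)) (hi : Inj e D) (hp : Sb p (pd D X))
    (hf : Fte p) : ∃ n, n ∈ (SigB.om : M) ∧ Spt e p n := by
  -- the labels
  have hl : DT (fun w : Fin 1 → M => fst (w 0)) := by simp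
  have hlab : ∀ j, j ∈ im p fst ↔ ∃ x, op j x ∈ p := by
    intro j
    rw [mem_im hl]
    constructor
    · rintro ⟨z, hz, rfl⟩
      obtain ⟨k, -, x, -, rfl⟩ := mem_pd.1 (hp z hz)
      exact ⟨x, by rwa [fst_op]⟩
    · rintro ⟨x, hx⟩
      exact ⟨_, hx, by rw [fst_op]⟩
  have hlD : ∀ j, j ∈ im p fst → j ∈ D := by
    intro j hj
    obtain ⟨x, hx⟩ := (hlab j).1 hj
    exact (op_mem_pd.1 (hp _ hx)).1
  -- the least numbers which distinguish two labels
  let F : M → M := fun z => mu fun m => m ∈ (SigB.om : M) ∧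
    ¬ (m ∈ ap e (fst z) ↔ m ∈ ap e (snd z))
  have hF : DT (fun w : Fin 1 → M => F (w 0)) := by
    refine dt_mu (P := fun (v : Fin 1 → M) m => m ∈ (SigB.om : M) ∧
      ¬ (m ∈ ap e (fst (v 0)) ↔ m ∈ ap e (snd (v 0)))) ?_
    simp (maxDischargeDepth := 50)
  have hFs : ∀ j j', j ∈ D → j' ∈ D → j ≠ j' → F (op j j') ∈ (SigB.om : M) ∧
      ¬ (F (op j j') ∈ ap e j ↔ F (op j j') ∈ ap e j') := by
    intro j j' hj hj' hne
    have h1 : ∃ m : M, Ord m ∧ (m ∈ (SigB.om : M) ∧ ¬ (m ∈ ap e (fst (op j j')) ↔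
        m ∈ ap e (snd (op j j')))) := by
      by_contra hno
      push Not at hno
      refine hne (hi j j' hj hj' (ext' fun m => ?_))
      have h2 := mem_pw.1 ((mem_fs.1 he).2 j hj)
      have h3 := mem_pw.1 ((mem_fs.1 he).2 j' hj')
      constructor
      · intro hm
        have h4 := hno m (ord_of_mem_om (h2 m hm)) (h2 m hm)
        rw [fst_op, snd_op] at h4
        exact h4.1 hm
      · intro hm
        have h4 := hno m (ord_of_mem_om (h3 m hm)) (h3 m hm)
        rw [fst_op, snd_op] at h4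
        exact h4.2 hm
    have h2 := (mu_spec (P := fun m => m ∈ (SigB.om : M) ∧
      ¬ (m ∈ ap e (fst (op j j')) ↔ m ∈ ap e (snd (op j j')))) (by simp (maxDischargeDepth := 50))
      h1).2.1
    rw [fst_op, snd_op] at h2
    have h3 : F (op j j') = mu fun m => m ∈ (SigB.om : M) ∧ ¬ (m ∈ ap e j ↔ m ∈ ap e j') := by
      show (mu fun m => m ∈ (SigB.om : M) ∧
        ¬ (m ∈ ap e (fst (op j j')) ↔ m ∈ ap e (snd (op j j')))) = _
      rw [fst_op, snd_op]
    rw [h3]
    exact h2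
  have hdq : Dfn (fun w : Fin 1 → M => fst (w 0) ≠ snd (w 0)) := by
    simp (maxDischargeDepth := 50)
  have hLf : Fte (im p fst) := hf.im hl
  have hPf : Fte (sp (pd (im p fst) (im p fst)) fun z => fst z ≠ snd z) :=
    (hLf.pd hLf).sp hdq
  obtain ⟨n, hn, hb⟩ := fte_bdd (hPf.im hF) (by
    intro z hz
    obtain ⟨v, hv, rfl⟩ := (mem_im hF).1 hz
    obtain ⟨hv, hne⟩ := (mem_sp hdq).1 hv
    obtain ⟨j, hj, j', hj', rfl⟩ := mem_pd.1 hv
    rw [fst_op, snd_op] at hne
    exact (hFs j j' (hlD j hj) (hlD j' hj') hne).1)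
  refine ⟨n, hn, fun j j' x x' hx hx' hit => ?_⟩
  by_contra hne
  have hj := (hlab j).2 ⟨x, hx⟩
  have hj' := (hlab j').2 ⟨x', hx'⟩
  have h1 : F (op j j') ∈ n := hb _ ((mem_im hF).2 ⟨op j j', (mem_sp hdq).2
    ⟨op_mem_pd.2 ⟨hj, hj'⟩, by rw [fst_op, snd_op]; exact hne⟩, rfl⟩)
  refine (hFs j j' (hlD j hj) (hlD j' hj') hne).2 ?_
  have h2 : F (op j j') ∈ it (ap e j) n ↔ F (op j j') ∈ it (ap e j') n := by rw [hit]
  rw [mem_it, mem_it] at h2
  exact ⟨fun h3 => (h2.1 ⟨h3, h1⟩).1, fun h3 => (h2.2 ⟨h3, h1⟩).1⟩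

/-- The node part of `p`, where the labels are replaced by their approximations of length `n`. -/
noncomputable def clr (e p n : M) : M :=
  sp (pd (fpw om) (im p fun z => snd (snd z))) fun z => ∃ j u, na j u ∈ p ∧
    z = op (it (ap e j) n) u

theorem clr.dt : DT (fun w : Fin 3 → M => clr (w 0) (w 1) (w 2)) := by
  unfold clr; simp (maxDischargeDepth := 50)

@[simp] theorem dt_clr {n : ℕ} {s t r : (Fin n → M) → M} (hs : DT s) (ht : DT t) (hr : DT r) :
    DT (fun v => clr (s v) (t v) (r v)) := dt3 clr.dt hs ht hr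

theorem it_mem_fpw {x n : M} (hn : n ∈ (SigB.om : M)) : it x n ∈ fpw (SigB.om : M) :=
  mem_fpw.2 ⟨fun _ hz => om_ord.trans (mem_it.1 hz).2 hn,
    (fte_of_mem_om hn).sub fun _ hz => (mem_it.1 hz).2⟩

theorem op_mem_clr {e p n v u : M} (hn : n ∈ (SigB.om : M)) :
    op v u ∈ clr e p n ↔ ∃ j, na j u ∈ p ∧ v = it (ap e j) n := by
  have hd : DT (fun w : Fin 1 → M => snd (snd (w 0))) := by simp
  unfold clr
  rw [mem_sp (by simp (maxDischargeDepth := 50)), op_mem_pd, mem_im hd]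
  constructor
  · rintro ⟨-, j, u', h1, h2⟩
    obtain ⟨rfl, rfl⟩ := op_inj.1 h2
    exact ⟨j, h1, rfl⟩
  · rintro ⟨j, h1, rfl⟩
    refine ⟨⟨it_mem_fpw hn, _, h1, ?_⟩, j, u, h1, rfl⟩
    unfold na
    rw [snd_op, snd_op]

theorem PD.Ok.ccc {S : PD M} (hS : S.Ok) (hFi : ∀ x, S.Fi x → Fte x) {T : M}
    (hT : Le T (SigB.om : M)) (hX : ∀ u, op em u ∈ S.X → u ∈ T) {D : M}
    (hD : Le D (pw (SigB.om : M))) : CCC (S.cn D) (S.le D) := by
  obtain ⟨e, he, hi⟩ := hD
  intro A hA hanti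
  have hAc : ∀ p, p ∈ A → S.Cd D p := fun p hp => hS.mem_cn.1 (hA p hp)
  let N : M → M := fun p => mu fun n => n ∈ (SigB.om : M) ∧ Spt e p n
  have hNd : DT (fun w : Fin 1 → M => N (w 0)) := by
    refine dt_mu (P := fun (v : Fin 1 → M) n => n ∈ (SigB.om : M) ∧ Spt e (v 0) n) ?_
    simp (maxDischargeDepth := 50)
  have hN : ∀ p, p ∈ A → N p ∈ (SigB.om : M) ∧ Spt e p (N p) := by
    intro p hp
    obtain ⟨h1, h2, -⟩ := hAc p hp
    obtain ⟨n, hn, hn'⟩ := exists_spt he hi h1 (hFi p h2)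
    exact (mu_spec (P := fun n => n ∈ (SigB.om : M) ∧ Spt e p n)
      (by simp (maxDischargeDepth := 50)) ⟨n, ord_of_mem_om hn, hn, hn'⟩).2.1
  have hom : Le (pd (SigB.om : M) om) (om : M) := hess om_ord (Sb.refl om)
  have hB : Le (pd (fpw (SigB.om : M)) T) (om : M) :=
    ((le_fpw (Le.refl om)).pd hT).trans hom
  have hC : Le (pd (SigB.om : M) (fpw (pd (fpw om) T))) (om : M) :=
    ((Le.refl om).pd (le_fpw hB)).trans hom
  have key : ∀ p q, p ∈ A → q ∈ A → N p = N q → clr e p (N p) = clr e q (N q) →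
      AtLe S.on (un p q) p := by
    intro p q hp hq h1 h2
    refine un_atLe_of_eq fun k u a hu ha _ => ?_
    have h3 : op (it (ap e k) (N p)) u ∈ clr e q (N q) := by
      rw [op_mem_clr (hN q hq).1]
      exact ⟨k, hu, by rw [h1]⟩
    rw [← h2, op_mem_clr (hN p hp).1] at h3
    obtain ⟨j, hj, h4⟩ := h3
    have h5 : k = j := (hN p hp).2 k j _ _ ha hj h4
    rw [h5]
    exact hj
  refine Le.trans (Le.mk (F := fun p => op (N p) (clr e p (N p))) ?_ ?_ ?_) hC
  · refine dt_op hNd ?_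
    exact dt_clr (DT.const e) (DT.var 0) hNd
  · intro p hp
    refine op_mem_pd.2 ⟨(hN p hp).1, mem_fpw.2 ⟨fun z hz => ?_, ?_⟩⟩
    · have h1 : z ∈ pd (fpw (SigB.om : M)) (im p fun z => snd (snd z)) := by
        unfold clr at hz
        exact ((mem_sp (by simp (maxDischargeDepth := 50))).1 hz).1
      obtain ⟨v, hv, u, -, rfl⟩ := mem_pd.1 h1
      obtain ⟨j, hj, -⟩ := (op_mem_clr (hN p hp).1).1 hz
      exact op_mem_pd.2 ⟨hv, hX u (op_mem_pd.1 ((hAc p hp).1 _ hj)).2⟩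
    · have hd : DT (fun w : Fin 1 → M => op (it (ap e (fst (w 0))) (N p)) (snd (snd (w 0)))) := by
        simp (maxDischargeDepth := 50)
      refine ((hFi p (hAc p hp).2.1).im
        (F := fun z => op (it (ap e (fst z)) (N p)) (snd (snd z))) hd).sub fun z hz => ?_
      have h1 : z ∈ pd (fpw (SigB.om : M)) (im p fun z => snd (snd z)) := by
        unfold clr at hz
        exact ((mem_sp (by simp (maxDischargeDepth := 50))).1 hz).1
      obtain ⟨v, hv, u, -, rfl⟩ := mem_pd.1 h1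
      obtain ⟨j, hj, rfl⟩ := (op_mem_clr (hN p hp).1).1 hz
      refine (mem_im hd).2 ⟨_, hj, ?_⟩
      unfold na
      rw [fst_op, snd_op, snd_op]
  · intro p q hp hq h
    obtain ⟨h1, h2⟩ := op_inj.1 h
    refine hanti p hp q hq ?_
    have h3 := key p q hp hq h1 h2
    have h4 := key q p hq hp h1.symm h2.symm
    have h5 : un q p = un p q := ext' fun z => by rw [mem_un, mem_un, or_comm]
    rw [h5] at h4
    have h6 := hS.cd_un (hAc p hp) (hAc q hq) h3 h4
    exact ⟨_, hS.op_mem_le.2 ⟨h6, hAc p hp, h3⟩, hS.op_mem_le.2 ⟨h6, hAc q hq, h4⟩⟩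

end Pool.Agent.Sep
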