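import Pool.Agent.Sep.Idx
import Pool.Agent.Sep.CccP

/-!
# The countable chain condition for the poset of a system
-/

universe u

set_option linter.unusedSectionVars false

namespace Pool.Agent.Sep

open Pool.Agent.SigB Pool.Agent.Frc Pool.Agent.Forc

variable {M : Type u} [Membership M M] [IsZFC M] {K : Cst M}

private theorem lq_trans' {p q r : M} (h : Lq K r q) (h' : Lq K q p) : Lq K r p := by
  refine ⟨h'.1.trans h.1, fun k u a hu hn ha => ?_⟩
  by_cases hq : nd k u ∈ q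
  · exact h'.2 k u a hq hn ha
  · exact h.2 k u a hu hq (h'.1 _ ha)

private theorem op_mem_rs' {p D k x : M} : op k x ∈ rs p D ↔ op k x ∈ p ∧ k ∈ D := op_mem_rs

private theorem lq_rs' {p q : M} (h : Lq K q p) (D : M) : Lq K (rs q D) (rs p D) := by
  refine ⟨fun z hz => ?_, fun k u a hu hn ha => ?_⟩
  · have hd : ∀ f : M, z ∈ rs f D ↔ z ∈ f ∧ ∃ x, x ∈ D ∧ ∃ y, z = op x y := fun f => by
      unfold rs
      exact mem_sp (by simp (maxDischargeDepth := 50))
    rw [hd] at hz ⊢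
    exact ⟨h.1 z hz.1, hz.2⟩
  · have h1 := (op_mem_rs'.1 hu)
    have h3 := (op_mem_rs'.1 ha)
    exact h.2 k u a h1.1 (fun h4 => hn (op_mem_rs'.2 ⟨h4, h1.2⟩)) h3.1

/-- The conditions of a system whose set of labels injects into the power set of `ω` satisfy the
countable chain condition. -/
theorem ccc_PX {X : M} (hT : Le K.T (SigB.om : M)) (hD : Le (dm X) (pw (SigB.om : M))) :
    CCC (PX K X) (LX K X) := by
  obtain ⟨e, he, hi⟩ := hD
  intro A hA hanti
  have hAc : ∀ p, p ∈ A → (Sb p (atm K) ∧ Fte p) ∧ (∀ z, z ∈ p → fst z ∈ dm X) ∧ Ok K X p :=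
    fun p hp => mem_PX.1 (hA p hp)
  let Y : M := un (pd (pr SigB.em SigB.em) K.T) (pd (pr (sc SigB.em) (sc SigB.em)) K.ix)
  have hAs : ∀ p, p ∈ A → Sb p (pd (dm X) Y) := by
    intro p hp z hz
    obtain ⟨j, -, y, hy, rfl⟩ := mem_pd.1 ((hAc p hp).1.1 z hz)
    have h1 := (hAc p hp).2.1 _ hz
    rw [fst_op] at h1
    exact op_mem_pd.2 ⟨h1, hy⟩
  have hAT : ∀ p, p ∈ A → ∀ j u, nd j u ∈ p → u ∈ K.T := by
    intro p hp j u hu
    rcases mem_atm.1 ((hAc p hp).1.1 _ hu) with ⟨j', u', -, h2, h3⟩ | ⟨j', a, -, -, h3⟩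
    · rwa [(nd_inj.1 h3).2]
    · exact absurd h3 nd_ne_pm
  let N : M → M := fun p => mu fun n => n ∈ (SigB.om : M) ∧ Spt e p n
  have hNd : DT (fun w : Fin 1 → M => N (w 0)) := by
    refine dt_mu (P := fun (v : Fin 1 → M) n => n ∈ (SigB.om : M) ∧ Spt e (v 0) n) ?_
    simp (maxDischargeDepth := 50)
  have hN : ∀ p, p ∈ A → N p ∈ (SigB.om : M) ∧ Spt e p (N p) := by
    intro p hp
    obtain ⟨n, hn, hn'⟩ := exists_spt he hi (hAs p hp) (hAc p hp).1.2
    exact (mu_spec (P := fun n => n ∈ (SigB.om : M) ∧ Spt e p n)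
      (by simp (maxDischargeDepth := 50)) ⟨n, ord_of_mem_om hn, hn, hn'⟩).2.1
  have hom : Le (pd (SigB.om : M) SigB.om) (SigB.om : M) := hess om_ord (Sb.refl om)
  have hB : Le (pd (fpw (SigB.om : M)) K.T) (SigB.om : M) :=
    ((le_fpw (Le.refl SigB.om)).pd hT).trans hom
  have hC : Le (pd (SigB.om : M) (fpw (pd (fpw SigB.om) K.T))) (SigB.om : M) :=
    ((Le.refl SigB.om).pd (le_fpw hB)).trans hom
  have key : ∀ p q, p ∈ A → q ∈ A → N p = N q → clr e p (N p) = clr e q (N q) →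
      Lq K (un p q) p := by
    intro p q hp hq h1 h2
    refine ⟨fun z hz => mem_un.2 (Or.inl hz), fun k u a hu hn ha _ => hn ?_⟩
    have hu' : na k u ∈ q := (mem_un.1 hu).resolve_left hn
    have h3 : op (it (ap e k) (N p)) u ∈ clr e q (N q) := by
      rw [op_mem_clr (hN q hq).1]
      exact ⟨k, hu', by rw [h1]⟩
    rw [← h2, op_mem_clr (hN p hp).1] at h3
    obtain ⟨j, hj, h4⟩ := h3
    have h5 : k = j := (hN p hp).2 k j _ _ ha hj h4
    rw [h5]
    exact hj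
  refine Le.trans (Le.mk (F := fun p => op (N p) (clr e p (N p))) ?_ ?_ ?_) hC
  · refine dt_op hNd ?_
    exact dt_clr (DT.const e) (DT.var 0) hNd
  · intro p hp
    refine op_mem_pd.2 ⟨(hN p hp).1, mem_fpw.2 ⟨fun z hz => ?_, ?_⟩⟩
    · have h1 : z ∈ pd (fpw (SigB.om : M)) (im p fun z => snd (snd z)) := by
        unfold clr at hz
        exact ((mem_sp (by simp (maxDischargeDepth := 50))).1 hz).1
      obtain ⟨v, hv, u, -, rfl⟩ := mem_pd.1 h1
      obtain ⟨j, hj, -⟩ := (op_mem_clr (hN p hp).1).1 hz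
      exact op_mem_pd.2 ⟨hv, hAT p hp j u hj⟩
    · have hd : DT (fun w : Fin 1 → M => op (it (ap e (fst (w 0))) (N p)) (snd (snd (w 0)))) := by
        simp (maxDischargeDepth := 50)
      refine ((hAc p hp).1.2.im
        (F := fun z => op (it (ap e (fst z)) (N p)) (snd (snd z))) hd).sub fun z hz => ?_
      have h1 : z ∈ pd (fpw (SigB.om : M)) (im p fun z => snd (snd z)) := by
        unfold clr at hz
        exact ((mem_sp (by simp (maxDischargeDepth := 50))).1 hz).1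
      obtain ⟨v, hv, u, -, rfl⟩ := mem_pd.1 h1
      obtain ⟨j, hj, rfl⟩ := (op_mem_clr (hN p hp).1).1 hz
      refine (mem_im hd).2 ⟨_, hj, ?_⟩
      unfold na
      rw [fst_op, snd_op, snd_op]
  · intro p q hp hq h
    obtain ⟨h1, h2⟩ := op_inj.1 h
    refine hanti p hp q hq ?_
    have h3 := key p q hp hq h1 h2
    have h4 := key q p hq hp h1.symm h2.symm
    have h5 : un q p = un p q := ext' fun z => by rw [mem_un, mem_un, or_comm]
    rw [h5] at h4
    have h6 : un p q ∈ PX K X := by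
      obtain ⟨⟨p1, p2⟩, p3, p4⟩ := hAc p hp
      obtain ⟨⟨q1, q2⟩, q3, q4⟩ := hAc q hq
      refine mem_PX.2 ⟨⟨fun z hz => (mem_un.1 hz).elim (p1 z) (q1 z), p2.un q2⟩,
        fun z hz => (mem_un.1 hz).elim (p3 z) (q3 z), fun j a ha => ?_⟩
      rcases mem_un.1 ha with h | h
      · obtain ⟨σ, b, h7, h8, h9⟩ := p4 j a h
        exact ⟨σ, b, h7, lq_trans' (lq_rs' h3 _) h8, h9⟩
      · obtain ⟨σ, b, h7, h8, h9⟩ := q4 j a h
        exact ⟨σ, b, h7, lq_trans' (lq_rs' h4 _) h8, h9⟩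
    exact ⟨_, op_mem_LX.2 ⟨⟨h6, hA p hp⟩, h3⟩, op_mem_LX.2 ⟨⟨h6, hA q hq⟩, h4⟩⟩

/-- The conditions of a system satisfy the countable chain condition. -/
theorem IsSys.ccc {X : M} (hX : IsSys K X) (hT : Le K.T (SigB.om : M))
    (hix : Le K.ix (pw (SigB.om : M))) : CCC (PX K X) (LX K X) :=
  ccc_PX hT (hX.2.2.1.trans hix)

end Pool.Agent.Sep
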