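import Pool.Agent.GL.Bridge
import Pool.Agent.GL.Hull
import Pool.Agent.Forc.CardB

/-!
Chains of positions and the closing lemma, in a model of the axiom of constructibility, for
arbitrary definable notions of position, extension and task.
-/

universe u

set_option linter.unusedSectionVars false

namespace Pool.Agent.Sep

open Pool.Agent.SigB Pool.Agent.Forc

variable {M : Type u} [Membership M M] [IsZFC M]

/-- The ordinal `d` is a limit ordinal. -/
def Lm (d : M) : Prop := d ≠ SigB.em ∧ ∀ a, a ∈ d → sc a ∈ d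

@[simp] theorem dfn_Lm {n : ℕ} {s : (Fin n → M) → M} (hs : DT s) : Dfn (fun v => Lm (s v)) :=
  dfn1 (R := Lm) (by unfold Lm; simp (maxDischargeDepth := 50)) hs

theorem lm_of {d : M} (hd : Ord d) (h0 : d ≠ SigB.em) (h : ¬ ∃ a, a ∈ d ∧ d = sc a) : Lm d := by
  refine ⟨h0, fun a ha => ?_⟩
  rcases (ord_sc (hd.mem ha)).tri hd with h1 | h1 | h1
  · exact h1
  · exact (h ⟨a, ha, h1.symm⟩).elim
  · rcases mem_sc.1 h1 with h2 | h2
    · exact (not_mem_mem ha h2).elim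
    · rw [h2] at ha
      exact (not_mem_self _ ha).elim

section chain

variable {Pos : M → Prop} {Ex : M → M → Prop} {U : M → M}

/-- The hypotheses on positions and extensions: `U F` is an upper bound of the chain `F`. -/
structure Chn (w : M) (Pos : M → Prop) (Ex : M → M → Prop) (U : M → M) : Prop where
  ordw : Ord w
  limw : Lm w
  dfnP : Dfn (fun v : Fin 1 → M => Pos (v 0))
  dfnE : Dfn (fun v : Fin 2 → M => Ex (v 0) (v 1))
  dtU : DT (fun v : Fin 1 → M => U (v 0))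
  refl : ∀ X, Pos X → Ex X X
  trans : ∀ X Y Z, Pos X → Pos Y → Pos Z → Ex X Y → Ex Y Z → Ex X Z
  lim : ∀ d F, d ∈ sc w → Lm d → Fn F d → (∀ a, a ∈ d → Pos (ap F a)) →
    (∀ a b, a ∈ b → b ∈ d → Ex (ap F a) (ap F b)) →
    Pos (U F) ∧ ∀ a, a ∈ d → Ex (ap F a) (U F)

/-- Chains with prescribed steps. -/
theorem exists_chain (hL : GL.AllL M) {w : M} (h : Chn w Pos Ex U) {R : M → M → M → Prop}
    (hR : Dfn (fun v : Fin 3 → M => R (v 0) (v 1) (v 2)))
    (hstep : ∀ a, a ∈ w → ∀ X, Pos X → ∃ Y, Pos Y ∧ Ex X Y ∧ R a X Y) {X₀ : M} (h0 : Pos X₀) :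
    ∃ F, Fn F (sc w) ∧ ap F SigB.em = X₀ ∧ (∀ a, a ∈ sc w → Pos (ap F a)) ∧
      (∀ a b, a ∈ b → b ∈ sc w → Ex (ap F a) (ap F b)) ∧
      (∀ a, a ∈ w → R a (ap F a) (ap F (sc a))) ∧
      ∀ d, d ∈ sc w → Lm d → ap F d = U (rs F d) := by
  classical
  have hP' : ∀ {n : ℕ} {s : (Fin n → M) → M}, DT s → Dfn fun v => Pos (s v) :=
    fun hs => dfn1 h.dfnP hs
  have hE' : ∀ {n : ℕ} {s t : (Fin n → M) → M}, DT s → DT t → Dfn fun v => Ex (s v) (t v) :=
    fun hs ht => dfn2 h.dfnE hs ht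
  have hR' : ∀ {n : ℕ} {s t r : (Fin n → M) → M}, DT s → DT t → DT r →
      Dfn fun v => R (s v) (t v) (r v) := fun hs ht hr => dfn3 hR hs ht hr
  have hU' : ∀ {n : ℕ} {s : (Fin n → M) → M}, DT s → DT fun v => U (s v) :=
    fun hs => dt1 h.dtU hs
  let nx : M → M → M := fun a X =>
    GL.Fc (GL.mu fun b => Pos (GL.Fc b) ∧ Ex X (GL.Fc b) ∧ R a X (GL.Fc b))
  have hnx : DT (fun v : Fin 2 → M => nx (v 0) (v 1)) :=
    GL.dt_Fc (GL.dt_mu (P := fun (v : Fin 2 → M) b => Pos (GL.Fc b) ∧ Ex (v 1) (GL.Fc b) ∧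
      R (v 0) (v 1) (GL.Fc b)) (by simp (maxDischargeDepth := 50) [hP', hE', hR']))
  have hnx' : ∀ {n : ℕ} {s t : (Fin n → M) → M}, DT s → DT t → DT fun v => nx (s v) (t v) :=
    fun hs ht => dt2 hnx hs ht
  have hnxs : ∀ a, a ∈ w → ∀ X, Pos X → Pos (nx a X) ∧ Ex X (nx a X) ∧ R a X (nx a X) := by
    intro a ha X hX
    exact GL.mu_Fc hL (P := fun Y => Pos Y ∧ Ex X Y ∧ R a X Y)
      (by simp (maxDischargeDepth := 50) [hP', hE', hR']) (hstep a ha X hX)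
  let G : M → M → M := fun x g =>
    if x = SigB.em then X₀ else if sc (sU x) = x then nx (sU x) (ap g (sU x)) else U g
  have hG : DT (fun v : Fin 2 → M => G (v 0) (v 1)) := by
    refine DT.ite (P := fun v : Fin 2 → M => v 0 = SigB.em) (by simp) (by simp) ?_
    refine DT.ite (P := fun v : Fin 2 → M => sc (sU (v 0)) = v 0)
      (by simp (maxDischargeDepth := 50)) ?_ ?_
    · exact hnx' (dt_sU (DT.var 0)) (dt_ap (DT.var 1) (dt_sU (DT.var 0)))
    · exact hU' (DT.var 1)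
  have hOw := ord_sc h.ordw
  obtain ⟨F, hF, hFr⟩ := ord_recursion hOw hG
  have hF0 : ap F SigB.em = X₀ := by
    rw [hFr _ (hOw.em_mem (sc_ne_em w))]
    show (if (SigB.em : M) = SigB.em then X₀ else _) = X₀
    rw [if_pos rfl]
  have hFs : ∀ a, sc a ∈ sc w → ap F (sc a) = nx a (ap F a) := by
    intro a ha
    have hOa : Ord a := (hOw.mem ha).mem (mem_sc_self a)
    have h1 : sU (sc a) = a := sU_sc_of_ord hOa
    rw [hFr _ ha]
    show (if sc a = SigB.em then X₀ else if sc (sU (sc a)) = sc a then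
      nx (sU (sc a)) (ap (rs F (sc a)) (sU (sc a))) else U (rs F (sc a))) = _
    rw [if_neg (sc_ne_em a), h1, if_pos rfl, ap_rs hF (hOw.sb ha) (mem_sc_self a)]
  have hFl : ∀ d, d ∈ sc w → Lm d → ap F d = U (rs F d) := by
    intro d hd hlim
    rw [hFr _ hd]
    show (if d = SigB.em then X₀ else if sc (sU d) = d then nx (sU d) (ap (rs F d) (sU d))
      else U (rs F d)) = _
    rw [if_neg hlim.1, if_neg]
    intro h1
    have h2 : sU d ∈ d := by
      have := mem_sc_self (sU d)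
      rwa [h1] at this
    have h3 := hlim.2 _ h2
    rw [h1] at h3
    exact not_mem_self _ h3
  have key : ∀ b, b ∈ sc w → Pos (ap F b) ∧ ∀ a, a ∈ b → Ex (ap F a) (ap F b) := by
    refine hOw.ind (P := fun b => Pos (ap F b) ∧ ∀ a, a ∈ b → Ex (ap F a) (ap F b))
      (by simp (maxDischargeDepth := 50) [hP', hE']) ?_
    intro b hb ih
    have hOb := hOw.mem hb
    by_cases hb0 : b = SigB.em
    · subst hb0
      rw [hF0]
      exact ⟨h0, fun a ha => (not_mem_em _ ha).elim⟩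
    · by_cases hs : ∃ a, a ∈ b ∧ b = sc a
      · obtain ⟨a, hab, rfl⟩ := hs
        have haw : a ∈ w := (Ord.sc_sb_iff h.ordw).1 ((hOb.mem_sc_iff h.ordw).1 hb)
        obtain ⟨h1, h2⟩ := ih a hab
        obtain ⟨h3, h4, -⟩ := hnxs a haw _ h1
        rw [← hFs a hb] at h3 h4
        refine ⟨h3, fun c hc => ?_⟩
        rcases mem_sc.1 hc with h5 | rfl
        · exact h.trans _ _ _ (ih c hc).1 h1 h3 (h2 c h5) h4
        · exact h4
      · have hlim := lm_of hOb hb0 hs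
        have hsb := hOw.sb hb
        have hap : ∀ a, a ∈ b → ap (rs F b) a = ap F a := fun a ha => ap_rs hF hsb ha
        obtain ⟨h1, h2⟩ := h.lim b (rs F b) hb hlim (fn_rs hF hsb)
          (fun a ha => by rw [hap a ha]; exact (ih a ha).1)
          (fun a c hac hcb => by
            rw [hap a (hOb.trans hac hcb), hap c hcb]
            exact (ih c hcb).2 a hac)
        rw [← hFl b hb hlim] at h1 h2
        exact ⟨h1, fun a ha => by rw [← hap a ha]; exact h2 a ha⟩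
  refine ⟨F, hF, hF0, fun a ha => (key a ha).1, fun a b hab hb => (key b hb).2 a hab,
    fun a ha => ?_, hFl⟩
  have h1 : sc a ∈ sc w := mem_sc.2 (Or.inl (h.limw.2 a ha))
  rw [hFs a h1]
  exact (hnxs a ha _ (key a (mem_sc.2 (Or.inl ha))).1).2.2

end chain

/-- The hypotheses on tasks: `Tk X` is the set of the tasks at the position `X`, and `Dn X t`
means that the task `t` is done at `X`. -/
structure Tsk (w : M) (Pos : M → Prop) (Ex : M → M → Prop) (U : M → M) (Tk : M → M)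
    (Dn : M → M → Prop) : Prop extends Chn w Pos Ex U where
  dtT : DT (fun v : Fin 1 → M => Tk (v 0))
  dfnD : Dfn (fun v : Fin 2 → M => Dn (v 0) (v 1))
  le : ∀ X, Pos X → Le (Tk X) w
  mono : ∀ X Y, Pos X → Pos Y → Ex X Y → Sb (Tk X) (Tk Y)
  keep : ∀ X Y t, Pos X → Pos Y → Ex X Y → t ∈ Tk X → Dn X t → Dn Y t
  able : ∀ X t, Pos X → t ∈ Tk X → ∃ Y, Pos Y ∧ Ex X Y ∧ Dn Y t
  small : ∀ F, Fn F w → (∀ a, a ∈ w → Pos (ap F a)) →
    (∀ a b, a ∈ b → b ∈ w → Ex (ap F a) (ap F b)) → ∀ t, t ∈ Tk (U F) →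
    ∃ a, a ∈ w ∧ t ∈ Tk (ap F a)

/-- All the tasks at a position can be done. -/
theorem Tsk.all (hL : GL.AllL M) {w : M} {Pos : M → Prop} {Ex : M → M → Prop} {U : M → M}
    {Tk : M → M} {Dn : M → M → Prop} (h : Tsk w Pos Ex U Tk Dn) {X : M} (hX : Pos X) :
    ∃ Y, Pos Y ∧ Ex X Y ∧ ∀ t, t ∈ Tk X → Dn Y t := by
  have hP' : ∀ {n : ℕ} {s : (Fin n → M) → M}, DT s → Dfn fun v => Pos (s v) :=
    fun hs => dfn1 h.dfnP hs
  have hE' : ∀ {n : ℕ} {s t : (Fin n → M) → M}, DT s → DT t → Dfn fun v => Ex (s v) (t v) :=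
    fun hs ht => dfn2 h.dfnE hs ht
  have hD' : ∀ {n : ℕ} {s t : (Fin n → M) → M}, DT s → DT t → Dfn fun v => Dn (s v) (t v) :=
    fun hs ht => dfn2 h.dfnD hs ht
  obtain ⟨i, hi, hii⟩ := h.le X hX
  have hc : Chn w (fun Y => Pos Y ∧ Ex X Y) Ex U := by
    refine ⟨h.ordw, h.limw, by simp (maxDischargeDepth := 50) [hP', hE'], h.dfnE, h.dtU,
      fun Y hY => h.refl Y hY.1, fun Y Z T hY hZ hT => h.trans Y Z T hY.1 hZ.1 hT.1,
      fun d F hd hlim hF h1 h2 => ?_⟩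
    obtain ⟨h3, h4⟩ := h.lim d F hd hlim hF (fun a ha => (h1 a ha).1) h2
    have h5 : SigB.em ∈ d := ((ord_sc h.ordw).mem hd).em_mem hlim.1
    exact ⟨⟨h3, h.trans _ _ _ hX (h1 _ h5).1 h3 (h1 _ h5).2 (h4 _ h5)⟩, h4⟩
  obtain ⟨F, hF, hF0, hF1, hF2, hF3, hF4⟩ := exists_chain hL hc
    (R := fun a _ Y => ∀ t, t ∈ Tk X → ap i t = a → Dn Y t)
    (by simp (maxDischargeDepth := 50) [hD'])
    (by
      rintro a ha Y ⟨hY, hXY⟩
      by_cases hex : ∃ t, t ∈ Tk X ∧ ap i t = a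
      · obtain ⟨t, ht, hta⟩ := hex
        obtain ⟨Z, h1, h2, h3⟩ := h.able Y t hY (h.mono X Y hX hY hXY t ht)
        refine ⟨Z, ⟨h1, h.trans _ _ _ hX hY h1 hXY h2⟩, h2, fun t' ht' hta' => ?_⟩
        rw [hii t' t ht' ht (hta'.trans hta.symm)]
        exact h3
      · exact ⟨Y, ⟨hY, hXY⟩, h.refl Y hY, fun t ht hta => (hex ⟨t, ht, hta⟩).elim⟩)
    (X₀ := X) ⟨hX, h.refl X hX⟩
  have hw := mem_sc_self w
  refine ⟨ap F w, (hF1 w hw).1, (hF1 w hw).2, fun t ht => ?_⟩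
  have ha := (mem_fs.1 hi).2 t ht
  have hsa := h.limw.2 _ ha
  have hsa' : sc (ap i t) ∈ sc w := mem_sc.2 (Or.inl hsa)
  have h1 := hF3 _ ha t ht rfl
  have h2 := (hF1 _ hsa').1
  exact h.keep _ _ t h2 (hF1 w hw).1 (hF2 _ _ hsa hw)
    (h.mono X _ hX h2 (hF1 _ hsa').2 t ht) h1

/-- The closing lemma: there is an extension where all tasks are done. -/
theorem Tsk.close (hL : GL.AllL M) {w : M} {Pos : M → Prop} {Ex : M → M → Prop} {U : M → M}
    {Tk : M → M} {Dn : M → M → Prop} (h : Tsk w Pos Ex U Tk Dn) {X : M} (hX : Pos X) :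
    ∃ Y, Pos Y ∧ Ex X Y ∧ ∀ t, t ∈ Tk Y → Dn Y t := by
  have hD' : ∀ {n : ℕ} {s t : (Fin n → M) → M}, DT s → DT t → Dfn fun v => Dn (s v) (t v) :=
    fun hs ht => dfn2 h.dfnD hs ht
  have hT' : ∀ {n : ℕ} {s : (Fin n → M) → M}, DT s → DT fun v => Tk (s v) :=
    fun hs => dt1 h.dtT hs
  obtain ⟨F, hF, hF0, hF1, hF2, hF3, hF4⟩ := exists_chain hL h.toChn
    (R := fun _ X Y => ∀ t, t ∈ Tk X → Dn Y t) (by simp (maxDischargeDepth := 50) [hD', hT'])
    (fun a _ X hX => h.all hL hX) hX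
  have hw := mem_sc_self w
  have hsb : Sb w (sc w) := fun z hz => mem_sc.2 (Or.inl hz)
  have hem : SigB.em ∈ w := h.ordw.em_mem h.limw.1
  have hap : ∀ a, a ∈ w → ap (rs F w) a = ap F a := fun a ha => ap_rs hF hsb ha
  refine ⟨ap F w, hF1 w hw, ?_, fun t ht => ?_⟩
  · have := hF2 _ _ hem hw
    rwa [hF0] at this
  · rw [hF4 w hw h.limw] at ht
    obtain ⟨a, ha, hta⟩ := h.small (rs F w) (fn_rs hF hsb)
      (fun a ha => by rw [hap a ha]; exact hF1 a (hsb a ha))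
      (fun a b hab hb => by
        rw [hap a (h.ordw.trans hab hb), hap b hb]
        exact hF2 a b hab (hsb b hb)) t ht
    rw [hap a ha] at hta
    have hsa := h.limw.2 a ha
    have h1 := hF1 a (hsb a ha)
    have h2 := hF1 (sc a) (hsb _ hsa)
    exact h.keep _ _ t h2 (hF1 w hw) (hF2 _ _ hsa hw)
      (h.mono _ _ h1 h2 (hF2 _ _ (mem_sc_self a) (hsb _ hsa)) t hta) (hF3 a ha t hta)

end Pool.Agent.Sep
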