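import Pool.Agent.Sep.Rul
import Pool.Agent.Sep.Count

/-!
# Subsystems, unions of chains of systems, and sizes

A system which is a subset of another system; the union of a chain of systems is a system; the
conditions and the names over the union are those over the members; the set of the conditions, of
the names and of the tasks of a system has cardinality at most `ω₁` if the continuum hypothesis
holds.
-/

universe u

set_option linter.unusedSectionVars false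

namespace Pool.Agent.Sep

open Pool.Agent.SigB Pool.Agent.Forc Pool.Agent.Frc
open Pool.Agent.FDia (W1)

variable {M : Type u} [Membership M M] [IsZFC M]

theorem dm_mono {X Y : M} (h : Sb X Y) : Sb (dm X) (dm Y) := fun _ hj => by
  obtain ⟨z, hz, rfl⟩ := mem_dm.1 hj
  exact mem_dm.2 ⟨z, h z hz, rfl⟩

/-! ### Subfunctions -/

/-- `X` and `Y` are functions and `X` is a subset of `Y`. -/
structure Sf (X Y : M) : Prop where
  fx : Fn X (dm X)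
  fy : Fn Y (dm Y)
  sb : Sb X Y

theorem Sf.refl {X : M} (h : Fn X (dm X)) : Sf X X := ⟨h, h, Sb.refl _⟩

theorem Sf.trans {X Y Z : M} (h : Sf X Y) (h' : Sf Y Z) : Sf X Z :=
  ⟨h.fx, h'.fy, h.sb.trans h'.sb⟩

theorem sf_rs {X D : M} (h : Fn X (dm X)) (hD : Sb D (dm X)) : Sf (rs X D) X := by
  have h1 := fn_rs h hD
  have h2 := dm_of_fn h1
  refine ⟨by rw [h2]; exact h1, h, fun z hz => ?_⟩
  obtain ⟨x, hx, rfl⟩ := h1.mem_iff.1 hz
  exact (op_mem_rs.1 hz).1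

section sf

variable {X Y : M} (h : Sf X Y)

include h

theorem Sf.dm : Sb (dm X) (dm Y) := dm_mono h.sb

theorem Sf.ap {j : M} (hj : j ∈ Sep.dm X) : SigB.ap X j = SigB.ap Y j := by
  have h1 : op j (SigB.ap X j) ∈ X := h.fx.mem_iff.2 ⟨j, hj, rfl⟩
  exact ((h.fy.op_mem_iff (h.dm j hj)).1 (h.sb _ h1)).symm

theorem Sf.fD {j : M} (hj : j ∈ Sep.dm X) : Sep.fD X j = Sep.fD Y j := by
  unfold Sep.fD; rw [h.ap hj]

theorem Sf.fW {j : M} (hj : j ∈ Sep.dm X) : Sep.fW X j = Sep.fW Y j := by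
  unfold Sep.fW; rw [h.ap hj]

theorem Sf.fT {j : M} (hj : j ∈ Sep.dm X) : Sep.fT X j = Sep.fT Y j := by
  unfold Sep.fT; rw [h.ap hj]

theorem Sf.IsTag {j : M} (hj : j ∈ Sep.dm X) : Sep.IsTag X j ↔ Sep.IsTag Y j := by
  unfold Sep.IsTag; rw [h.fT hj]

theorem Sf.IsCode {j : M} (hj : j ∈ Sep.dm X) : Sep.IsCode X j ↔ Sep.IsCode Y j := by
  unfold Sep.IsCode; rw [h.fT hj]

theorem Sf.tO {j : M} (hj : j ∈ Sep.dm X) : Sep.tO X j = Sep.tO Y j := by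
  unfold Sep.tO; rw [h.fT hj]

theorem Sf.tk {j : M} (hj : j ∈ Sep.dm X) : Sep.tk X j = Sep.tk Y j := by
  unfold Sep.tk; rw [h.fT hj]

theorem Sf.ta {j : M} (hj : j ∈ Sep.dm X) : Sep.ta X j = Sep.ta Y j := by
  unfold Sep.ta; rw [h.fT hj]

theorem Sf.tb {j : M} (hj : j ∈ Sep.dm X) : Sep.tb X j = Sep.tb Y j := by
  unfold Sep.tb; rw [h.fT hj]

theorem Sf.tg {j : M} (hj : j ∈ Sep.dm X) : Sep.tg X j = Sep.tg Y j := by
  unfold Sep.tg; rw [h.fT hj]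

theorem Sf.tr {j : M} (hj : j ∈ Sep.dm X) : Sep.tr X j = Sep.tr Y j := by
  unfold Sep.tr; rw [h.fT hj]

theorem Sf.cx {j : M} (hj : j ∈ Sep.dm X) : Sep.cx X j = Sep.cx Y j := by
  unfold Sep.cx; rw [h.fT hj]

theorem Sf.ci {j : M} (hj : j ∈ Sep.dm X) : Sep.ci X j = Sep.ci Y j := by
  unfold Sep.ci; rw [h.fT hj]

theorem Sf.cg {j : M} (hj : j ∈ Sep.dm X) : Sep.cg X j = Sep.cg Y j := by
  unfold Sep.cg; rw [h.fT hj]

theorem Sf.cz {j : M} (hj : j ∈ Sep.dm X) : Sep.cz X j = Sep.cz Y j := by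
  unfold Sep.cz; rw [h.fW hj]

theorem Sf.rs {D : M} (hD : Sb D (Sep.dm X)) : SigB.rs X D = SigB.rs Y D :=
  rs_congr h.fx h.fy hD (hD.trans h.dm) fun _ hx => h.ap (hD _ hx)

theorem Sf.rs' : SigB.rs Y (Sep.dm X) = X := by
  rw [← h.rs (Sb.refl _)]
  exact (fn_rs h.fx (Sb.refl _)).ext h.fx fun x hx => ap_rs h.fx (Sb.refl _) hx

theorem Sf.Ok {K : Cst M} {p : M} (hp : ∀ z, z ∈ p → fst z ∈ Sep.dm X) :
    Sep.Ok K X p ↔ Sep.Ok K Y p := by
  unfold Sep.Ok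
  refine forall_congr' fun j => forall_congr' fun a => imp_congr_right fun hj => ?_
  have h1 : j ∈ Sep.dm X := by simpa using hp _ hj
  rw [h.fW h1, h.fD h1]

/-- The conditions over `X` are the conditions over `Y` with labels in `X`. -/
theorem Sf.PX {K : Cst M} {p : M} :
    p ∈ Sep.PX K X ↔ p ∈ Sep.PX K Y ∧ ∀ z, z ∈ p → fst z ∈ Sep.dm X := by
  rw [mem_PX, mem_PX]
  constructor
  · rintro ⟨h1, h2, h3⟩
    exact ⟨⟨h1, fun z hz => h.dm _ (h2 z hz), (h.Ok h2).1 h3⟩, h2⟩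
  · rintro ⟨⟨h1, -, h3⟩, h2⟩
    exact ⟨h1, h2, (h.Ok h2).2 h3⟩

theorem Sf.PX_sb {K : Cst M} : Sb (Sep.PX K X) (Sep.PX K Y) := fun _ hp => (h.PX.1 hp).1

theorem Sf.NM {K : Cst M} {z : M} (hz : Sep.NM K X z) : Sep.NM K Y z :=
  ⟨fun w hw => by
    obtain ⟨x, hx, p, hp, rfl⟩ := mem_pd.1 (hz.1 w hw)
    exact op_mem_pd.2 ⟨hx, h.PX_sb p hp⟩, hz.2⟩

theorem Sf.Cl {D : M} (hD : Sb D (Sep.dm X)) : Sep.Cl X D ↔ Sep.Cl Y D := by
  unfold Sep.Cl
  constructor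
  · rintro ⟨-, h2⟩
    exact ⟨hD.trans h.dm, fun j hj => by rw [← h.fD (hD j hj)]; exact h2 j hj⟩
  · rintro ⟨-, h2⟩
    exact ⟨hD, fun j hj => by rw [h.fD (hD j hj)]; exact h2 j hj⟩

theorem Sf.TagOk {K : Cst M} {j : M} (hj : j ∈ Sep.dm X) (hD : Sb (Sep.fD X j) (Sep.dm X)) :
    Sep.TagOk K X j ↔ Sep.TagOk K Y j := by
  unfold Sep.TagOk
  rw [h.rs hD, h.fD hj, h.fT hj, h.fW hj, h.tO hj, h.tk hj, h.ta hj, h.tb hj, h.tg hj, h.tr hj]
  rw [h.fD hj] at hD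
  refine and_congr_right fun _ => and_congr_right fun _ => and_congr_right fun _ =>
    and_congr_right fun _ => and_congr_right fun _ => and_congr_right fun _ =>
    and_congr_right fun _ => forall_congr' fun t => imp_congr_right fun _ =>
    and_congr_right fun ht => ?_
  rw [h.IsTag (hD t ht), h.tr (hD t ht)]

theorem Sf.CodeOk {K : Cst M} {j : M} (hj : j ∈ Sep.dm X) (hD : Sb (Sep.fD X j) (Sep.dm X)) :
    Sep.CodeOk K X j ↔ Sep.CodeOk K Y j := by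
  unfold Sep.CodeOk
  rw [h.rs hD, h.fD hj, h.fT hj, h.fW hj, h.cx hj, h.ci hj, h.cg hj]
  rw [h.fD hj] at hD
  refine and_congr_right fun _ => and_congr_right fun hx => ?_
  rw [h.IsTag (hD _ hx), h.tg (hD _ hx)]

theorem Sf.StOk {K : Cst M} {j : M} (hj : j ∈ Sep.dm X) (hD : Sb (Sep.fD X j) (Sep.dm X)) :
    Sep.StOk K X j ↔ Sep.StOk K Y j := by
  unfold Sep.StOk
  rw [h.TagOk hj hD, h.CodeOk hj hD, h.Cl hD, h.rs hD, h.ap hj, h.fD hj, h.fT hj, h.fW hj]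

end sf

/-- A subfunction of a system with closed domain is a system. -/
theorem Sf.isSys {K : Cst M} {X Y : M} (h : Sf X Y) (hY : IsSys K Y) (hX : Sep.Cl Y (Sep.dm X)) :
    IsSys K X := by
  refine ⟨h.fx, h.dm.trans hY.2.1, hY.2.2.1.mono_left h.dm, fun j hj => ?_⟩
  have hD : Sb (Sep.fD X j) (Sep.dm X) := by
    rw [h.fD hj]
    exact hX.2 j hj
  exact (h.StOk hj hD).2 (hY.2.2.2 j (h.dm j hj))

theorem IsSys.cl_self {K : Cst M} {X : M} (h : IsSys K X) : Cl X (dm X) :=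
  ⟨Sb.refl _, fun j hj => (h.2.2.2 j hj).2.1.1⟩

theorem IsSys.sf {K : Cst M} {X Y : M} (h : IsSys K X) (h' : IsSys K Y) (hs : Sb X Y) :
    Sf X Y := ⟨h.1, h'.1, hs⟩

/-- The domain of a subsystem is closed. -/
theorem IsSys.cl_dm {K : Cst M} {X Y : M} (h : IsSys K X) (h' : IsSys K Y) (hs : Sb X Y) :
    Cl Y (dm X) := ((h.sf h' hs).Cl (Sb.refl _)).1 h.cl_self

/-! ### Unions of chains -/

/-- `S` is a chain of functions. -/
structure FCh (S : M) : Prop where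
  fn : ∀ X, X ∈ S → Fn X (dm X)
  ch : ∀ X Y, X ∈ S → Y ∈ S → Sb X Y ∨ Sb Y X

section chain

variable {S : M} (h : FCh S)

theorem mem_dm_sU {S j : M} : j ∈ dm (sU S) ↔ ∃ X, X ∈ S ∧ j ∈ dm X := by
  rw [mem_dm]
  constructor
  · rintro ⟨z, hz, rfl⟩
    obtain ⟨X, hX, hz⟩ := mem_sU.1 hz
    exact ⟨X, hX, mem_dm.2 ⟨z, hz, rfl⟩⟩
  · rintro ⟨X, hX, hj⟩
    obtain ⟨z, hz, rfl⟩ := mem_dm.1 hj
    exact ⟨z, mem_sU.2 ⟨X, hX, hz⟩, rfl⟩

include h

theorem FCh.fn_sU : Fn (sU S) (dm (sU S)) := by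
  constructor
  · intro z hz
    obtain ⟨X, hX, hz'⟩ := mem_sU.1 hz
    obtain ⟨x, hx, y, rfl⟩ := (h.fn X hX).1 z hz'
    exact ⟨x, mem_dm_sU.2 ⟨X, hX, hx⟩, y, rfl⟩
  · intro j hj
    obtain ⟨X, hX, hj⟩ := mem_dm_sU.1 hj
    obtain ⟨y, h1, h2⟩ := (h.fn X hX).2 j hj
    refine ⟨y, mem_sU.2 ⟨X, hX, h1⟩, fun y' hy' => ?_⟩
    obtain ⟨Y, hY, hy'⟩ := mem_sU.1 hy'
    rcases h.ch X Y hX hY with h3 | h3
    · have hjY : j ∈ dm Y := dm_mono h3 j hj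
      have e1 := ((h.fn Y hY).op_mem_iff hjY).1 (h3 _ h1)
      have e2 := ((h.fn Y hY).op_mem_iff hjY).1 hy'
      exact e2.symm.trans e1
    · exact h2 y' (h3 _ hy')

theorem FCh.sf {X : M} (hX : X ∈ S) : Sf X (sU S) :=
  ⟨h.fn X hX, h.fn_sU, fun _ hz => mem_sU.2 ⟨X, hX, hz⟩⟩

/-- A finite subset of the domain of the union is a subset of the domain of a member. -/
theorem FCh.fte (hne : ∃ X, X ∈ S) {x : M} (hx : Fte x) (hs : Sb x (dm (sU S))) :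
    ∃ X, X ∈ S ∧ Sb x (dm X) := by
  refine fte_ind (P := fun x => Sb x (dm (sU S)) → ∃ X, X ∈ S ∧ Sb x (dm X))
    (by simp (maxDischargeDepth := 50)) ?_ ?_ hx hs
  · intro _
    obtain ⟨X, hX⟩ := hne
    exact ⟨X, hX, fun z hz => (not_mem_em _ hz).elim⟩
  · intro x a _ _ ih hs
    obtain ⟨X, hX, h1⟩ := ih fun z hz => hs z (mem_ins.2 (Or.inl hz))
    obtain ⟨Y, hY, h2⟩ := mem_dm_sU.1 (hs a (mem_ins.2 (Or.inr rfl)))
    rcases h.ch X Y hX hY with h3 | h3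
    · refine ⟨Y, hY, fun z hz => ?_⟩
      rcases mem_ins.1 hz with hz | rfl
      · exact dm_mono h3 z (h1 z hz)
      · exact h2
    · refine ⟨X, hX, fun z hz => ?_⟩
      rcases mem_ins.1 hz with hz | rfl
      · exact h1 z hz
      · exact dm_mono h3 _ h2

/-- A condition over the union is a condition over a member. -/
theorem FCh.PX {K : Cst M} (hne : ∃ X, X ∈ S) {p : M} (hp : p ∈ Sep.PX K (sU S)) :
    ∃ X, X ∈ S ∧ p ∈ Sep.PX K X := by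
  have h1 := mem_PX.1 hp
  have hd : DT (fun w : Fin 1 → M => fst (w 0)) := by simp (maxDischargeDepth := 50)
  obtain ⟨X, hX, h2⟩ := h.fte hne (h1.1.2.im hd) fun z hz => by
    obtain ⟨y, hy, rfl⟩ := (mem_im hd).1 hz
    exact h1.2.1 y hy
  exact ⟨X, hX, (h.sf hX).PX.2 ⟨hp, fun z hz => h2 _ ((mem_im hd).2 ⟨z, hz, rfl⟩)⟩⟩

end chain

/-- The union of a chain of systems is a system. -/
theorem isSys_sU {K : Cst M} {S : M} (hw : W1 K.ix) (hS : ∀ X, X ∈ S → IsSys K X)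
    (hc : ∀ X Y, X ∈ S → Y ∈ S → Sb X Y ∨ Sb Y X) (hL : Forc.Le S K.ix) :
    IsSys K (sU S) := by
  have h : FCh S := ⟨fun X hX => (hS X hX).1, hc⟩
  have hdt : DT (fun w : Fin 1 → M => dm (w 0)) := dm.dt
  refine ⟨h.fn_sU, fun j hj => ?_, ?_, fun j hj => ?_⟩
  · obtain ⟨X, hX, hj⟩ := mem_dm_sU.1 hj
    exact (hS X hX).2.1 j hj
  · have h1 : dm (sU S) = sU (im S dm) := ext' fun j => by
      rw [mem_dm_sU, mem_sU]
      constructor
      · rintro ⟨X, hX, hj⟩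
        exact ⟨_, (mem_im hdt).2 ⟨X, hX, rfl⟩, hj⟩
      · rintro ⟨y, hy, hj⟩
        obtain ⟨X, hX, rfl⟩ := (mem_im hdt).1 hy
        exact ⟨X, hX, hj⟩
    rw [h1]
    refine Le.union hw.ord (w1_om_sb hw) ?_ fun x hx => ?_
    · exact Le.image hw.ord hL hdt fun y hy => (mem_im hdt).1 hy
    · obtain ⟨X, hX, rfl⟩ := (mem_im hdt).1 hx
      exact (hS X hX).2.2.1
  · obtain ⟨X, hX, hj⟩ := mem_dm_sU.1 hj
    exact ((h.sf hX).StOk hj ((hS X hX).cl_self.2 j hj)).1 ((hS X hX).2.2.2 j hj)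

/-! ### Sizes -/

/-- The set of the names over `X`. -/
noncomputable def nset (K : Cst M) (X : M) : M := cset (pd K.hf (PX K X))

theorem mem_nset {K : Cst M} {X z : M} : z ∈ nset K X ↔ NM K X z := mem_cset

theorem nset.dt (K : Cst M) : DT (fun w : Fin 1 → M => nset K (w 0)) := by
  unfold nset; simp (maxDischargeDepth := 50)

@[simp] theorem dt_nset (K : Cst M) {n : ℕ} {s : (Fin n → M) → M} (hs : DT s) :
    DT (fun v => nset K (s v)) := dt1 (nset.dt K) hs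

section sizes

variable {K : Cst M} (hw : W1 K.ix) (hT : Forc.Le K.T K.ix) {X : M} (hX : Forc.Le (dm X) K.ix)

/-- The atoms with labels in `D`. -/
noncomputable def atD (K : Cst M) (D : M) : M :=
  pd D (un (pd (pr em em) K.T) (pd (pr (sc em) (sc em)) K.ix))

theorem PX_sb_atD : Sb (PX K X) (fpw (atD K (dm X))) := by
  intro p hp
  obtain ⟨⟨h1, h2⟩, h3, -⟩ := mem_PX.1 hp
  refine mem_fpw.2 ⟨fun z hz => ?_, h2⟩
  have h4 := h1 z hz
  have h5 := h3 z hz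
  unfold atm at h4
  obtain ⟨j, hj, y, hy, rfl⟩ := mem_pd.1 h4
  rw [fst_op] at h5
  exact op_mem_pd.2 ⟨h5, hy⟩

include hw hT hX

theorem le_atD : Forc.Le (atD K (dm X)) K.ix := by
  have h2 : ∀ a : M, Forc.Le (pr a a) K.ix := fun a =>
    (le_om_pr a a).mono_right (w1_om_sb hw)
  exact w1_le_pd hw hX (w1_le_un hw (w1_le_pd hw (h2 _) hT)
    (w1_le_pd hw (h2 _) (Le.refl _)))

variable (hCH : Forc.Le (pw (om : M)) K.ix)

include hCH

/-- There are at most `ω₁` conditions over a system. -/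
theorem le_PX : Forc.Le (PX K X) K.ix :=
  (w1_le_fpw hw hCH (le_atD hw hT hX)).mono_left PX_sb_atD

variable (hhf : Forc.Le K.hf K.ix)

include hhf

/-- There are at most `ω₁` names over a system. -/
theorem le_nset : Forc.Le (nset K X) K.ix :=
  w1_le_cset hw hCH (w1_le_pd hw hhf (le_PX hw hT hX hCH))

end sizes

/-! ### Tasks -/

/-- The set of the tasks `(k, (q, (u, z)))` of the system `X`: a number `k < 4`, a condition `q`, a
label or a name `u` and a name `z`. -/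
noncomputable def tks (K : Cst M) (X : M) : M :=
  pd (sc (sc (sc (sc em)))) (pd (PX K X) (pd (un (dm X) (nset K X)) (nset K X)))

theorem tks.dt (K : Cst M) : DT (fun w : Fin 1 → M => tks K (w 0)) := by
  unfold tks; simp (maxDischargeDepth := 50)

@[simp] theorem dt_tks (K : Cst M) {n : ℕ} {s : (Fin n → M) → M} (hs : DT s) :
    DT (fun v => tks K (s v)) := dt1 (tks.dt K) hs

theorem op_mem_tks {K : Cst M} {X k q u z : M} : op k (op q (op u z)) ∈ tks K X ↔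
    k ∈ sc (sc (sc (sc (em : M)))) ∧ q ∈ PX K X ∧ (u ∈ dm X ∨ NM K X u) ∧ NM K X z := by
  unfold tks
  rw [op_mem_pd, op_mem_pd, op_mem_pd, mem_un, mem_nset, mem_nset]

theorem exists_of_mem_tks {K : Cst M} {X t : M} (ht : t ∈ tks K X) :
    ∃ k q u z, t = op k (op q (op u z)) := by
  unfold tks at ht
  obtain ⟨k, -, y, hy, rfl⟩ := mem_pd.1 ht
  obtain ⟨q, -, y', hy', rfl⟩ := mem_pd.1 hy
  obtain ⟨u, -, z, -, rfl⟩ := mem_pd.1 hy'
  exact ⟨k, q, u, z, rfl⟩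

theorem le_tks {K : Cst M} {X : M} (hw : W1 K.ix) (hT : Forc.Le K.T K.ix)
    (hX : Forc.Le (dm X) K.ix) (hCH : Forc.Le (pw (om : M)) K.ix) (hhf : Forc.Le K.hf K.ix) :
    Forc.Le (tks K X) K.ix := by
  have h4 : sc (sc (sc (sc (em : M)))) ∈ (om : M) :=
    sc_mem_om (sc_mem_om (sc_mem_om (sc_mem_om em_mem_om)))
  have h5 : Forc.Le (sc (sc (sc (sc (em : M))))) K.ix :=
    Le.of_sb ((om_ord.sb h4).trans (w1_om_sb hw))
  have hn := le_nset hw hT hX hCH hhf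
  exact w1_le_pd hw h5 (w1_le_pd hw (le_PX hw hT hX hCH)
    (w1_le_pd hw (w1_le_un hw hX hn) hn))

/-! ### Chains of length `ω₁` -/

/-- `S a` for `a ∈ w` is an increasing sequence of functions. -/
structure Inc (w : M) (S : M → M) : Prop where
  dt : DT (fun v : Fin 1 → M => S (v 0))
  ord : Ord w
  fn : ∀ a, a ∈ w → Fn (S a) (dm (S a))
  mono : ∀ a b, b ∈ w → a ∈ b → Sb (S a) (S b)

section inc

variable {w : M} {S : M → M} (h : Inc w S)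

include h

theorem Inc.mem_im {X : M} : X ∈ im w S ↔ ∃ a, a ∈ w ∧ X = S a := SigB.mem_im h.dt

theorem Inc.ch {a b : M} (ha : a ∈ w) (hb : b ∈ w) : Sb (S a) (S b) ∨ Sb (S b) (S a) := by
  rcases (h.ord.mem ha).tri (h.ord.mem hb) with h3 | h3 | h3
  · exact Or.inl (h.mono a b hb h3)
  · rw [h3]
    exact Or.inl (Sb.refl _)
  · exact Or.inr (h.mono b a ha h3)

theorem Inc.fch : FCh (im w S) := by
  constructor
  · intro X hX
    obtain ⟨a, ha, rfl⟩ := h.mem_im.1 hX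
    exact h.fn a ha
  · intro X Y hX hY
    obtain ⟨a, ha, rfl⟩ := h.mem_im.1 hX
    obtain ⟨b, hb, rfl⟩ := h.mem_im.1 hY
    exact h.ch ha hb

theorem Inc.sf {a : M} (ha : a ∈ w) : Sf (S a) (sU (im w S)) :=
  h.fch.sf (h.mem_im.2 ⟨a, ha, rfl⟩)

theorem Inc.sf2 {a b : M} (hb : b ∈ w) (hab : a ∈ b) : Sf (S a) (S b) :=
  ⟨h.fn a (h.ord.trans hab hb), h.fn b hb, h.mono a b hb hab⟩

theorem Inc.mem_dm {j : M} : j ∈ dm (sU (im w S)) ↔ ∃ a, a ∈ w ∧ j ∈ dm (S a) := by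
  rw [mem_dm_sU]
  constructor
  · rintro ⟨X, hX, hj⟩
    obtain ⟨a, ha, rfl⟩ := h.mem_im.1 hX
    exact ⟨a, ha, hj⟩
  · rintro ⟨a, ha, hj⟩
    exact ⟨_, h.mem_im.2 ⟨a, ha, rfl⟩, hj⟩

theorem Inc.mem_PX {K : Cst M} (hne : w ≠ SigB.em) {p : M} :
    p ∈ PX K (sU (im w S)) ↔ ∃ a, a ∈ w ∧ p ∈ PX K (S a) := by
  constructor
  · intro hp
    obtain ⟨X, hX, h1⟩ := h.fch.PX
      ⟨S SigB.em, h.mem_im.2 ⟨SigB.em, h.ord.em_mem hne, rfl⟩⟩ hp
    obtain ⟨a, ha, rfl⟩ := h.mem_im.1 hX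
    exact ⟨a, ha, h1⟩
  · rintro ⟨a, ha, hp⟩
    exact (h.sf ha).PX_sb p hp

/-- The union of an increasing sequence of systems is a system. -/
theorem Inc.isSys {K : Cst M} (hw : W1 K.ix) (hwi : Sb w K.ix)
    (hS : ∀ a, a ∈ w → IsSys K (S a)) : IsSys K (sU (im w S)) := by
  refine isSys_sU hw (fun X hX => ?_) h.fch.ch ?_
  · obtain ⟨a, ha, rfl⟩ := h.mem_im.1 hX
    exact hS a ha
  · exact Le.image hw.ord (Le.of_sb hwi) h.dt fun y hy => h.mem_im.1 hy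

/-- A countable subset of the union of the sets `A a` (for a monotone operation `A` of the
systems) is a subset of a member. -/
theorem Inc.stage (hw : W1 w) {A : M → M} (hA : DT (fun v : Fin 1 → M => A (v 0)))
    (hAm : ∀ X Y, Sf X Y → Sb (A X) (A Y)) {x : M} (hx : Forc.Le x om)
    (hsub : ∀ z, z ∈ x → ∃ a, a ∈ w ∧ z ∈ A (S a)) : ∃ b, b ∈ w ∧ Sb x (A (S b)) := by
  refine w1_stage hw (S := fun a => A (S a)) (dt1 hA h.dt) (fun a b hb hab => ?_) hx hsub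
  exact hAm _ _ (h.sf2 hb hab)

/-- A name over the union is a name over a member. -/
theorem Inc.NM {K : Cst M} (hw : W1 w) {z : M} (hz : Sep.NM K (sU (im w S)) z) :
    ∃ a, a ∈ w ∧ Sep.NM K (S a) z := by
  have hne : w ≠ SigB.em := fun h0 => not_mem_em _ (h0 ▸ hw.em_mem)
  obtain ⟨b, hb, h1⟩ := h.stage hw (A := fun X => pd K.hf (PX K X))
    (by simp (maxDischargeDepth := 50)) (fun X Y hXY u hu => by
      obtain ⟨x, hx, p, hp, rfl⟩ := mem_pd.1 hu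
      exact op_mem_pd.2 ⟨hx, hXY.PX_sb p hp⟩) hz.2 (fun u hu => by
      obtain ⟨x, hx, p, hp, rfl⟩ := mem_pd.1 (hz.1 u hu)
      obtain ⟨a, ha, hp⟩ := (h.mem_PX hne).1 hp
      exact ⟨a, ha, op_mem_pd.2 ⟨hx, hp⟩⟩)
  exact ⟨b, hb, h1, hz.2⟩

/-- A member which is beyond two given members. -/
theorem Inc.dir {a b : M} (ha : a ∈ w) (hb : b ∈ w) :
    ∃ c, c ∈ w ∧ Sf (S a) (S c) ∧ Sf (S b) (S c) := by
  rcases h.ch ha hb with h1 | h1
  · exact ⟨b, hb, ⟨h.fn a ha, h.fn b hb, h1⟩, Sf.refl (h.fn b hb)⟩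
  · exact ⟨a, ha, Sf.refl (h.fn a ha), ⟨h.fn b hb, h.fn a ha, h1⟩⟩

/-- A task of the union is a task of a member. -/
theorem Inc.tks {K : Cst M} (hw : W1 w) {t : M} (ht : t ∈ tks K (sU (im w S))) :
    ∃ a, a ∈ w ∧ t ∈ Sep.tks K (S a) := by
  have hne : w ≠ SigB.em := fun h0 => not_mem_em _ (h0 ▸ hw.em_mem)
  obtain ⟨k, q, u, z, rfl⟩ := exists_of_mem_tks ht
  obtain ⟨hk, hq, hu, hz⟩ := op_mem_tks.1 ht
  obtain ⟨a, ha, hq⟩ := (h.mem_PX hne).1 hq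
  obtain ⟨b, hb, hz⟩ := h.NM hw hz
  obtain ⟨c, hc, hu⟩ : ∃ c, c ∈ w ∧ (u ∈ dm (S c) ∨ Sep.NM K (S c) u) := by
    rcases hu with hu | hu
    · obtain ⟨c, hc, hu⟩ := h.mem_dm.1 hu
      exact ⟨c, hc, Or.inl hu⟩
    · obtain ⟨c, hc, hu⟩ := h.NM hw hu
      exact ⟨c, hc, Or.inr hu⟩
  obtain ⟨d, hd, h1, h2⟩ := h.dir ha hb
  obtain ⟨e, he, h3, h4⟩ := h.dir hc hd
  refine ⟨e, he, op_mem_tks.2 ⟨hk, h4.PX_sb _ (h1.PX_sb _ hq), ?_, h4.NM (h2.NM hz)⟩⟩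
  exact hu.imp (fun hu => h3.dm _ hu) fun hu => h3.NM hu

end inc

end Pool.Agent.Sep
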