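import Pool.Agent.Sep.Inst
import Pool.Agent.Sep.RuleC
import Pool.Agent.Sep.Size
import Pool.Agent.Sep.Close

/-!
# Chains of positions

The two notions of position and extension for the closing lemma: systems for a fixed set of open
tags, and pairs of a system and a set of open tags.
-/

universe u

set_option linter.unusedSectionVars false

namespace Pool.Agent.Sep

open Pool.Agent.SigB Pool.Agent.Forc Pool.Agent.Frc
open Pool.Agent.FDia (W1)

variable {M : Type u} [Membership M M] [IsZFC M]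

section ple

variable {K : Frm M} (hK : (api K).Laws)

include hK

theorem Pos.prefl {X O : M} (h : Pos K X O) : Ple K X O X O :=
  (PExt_iff (B := ⟨X, h.1⟩) (E := ⟨X, h.1⟩)).1
    (Api.Pos.refl hK ((Pos_iff (B := ⟨X, h.1⟩)).2 h))

theorem Ple.trans' {X O Y P Z Q : M} (hX : IsSys K.toCst X) (h1 : Ple K X O Y P)
    (h2 : Ple K Y P Z Q) : Ple K X O Z Q := by
  have hY := h1.1.isSys
  have hZ := h2.1.isSys
  exact (PExt_iff (B := ⟨X, hX⟩) (E := ⟨Z, hZ⟩)).1
    (Api.PExt.trans hK ((PExt_iff (B := ⟨X, hX⟩) (E := ⟨Y, hY⟩)).2 h1)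
      ((PExt_iff (B := ⟨Y, hY⟩) (E := ⟨Z, hZ⟩)).2 h2))

theorem Pos.ple {X O Y : M} (h : Pos K X O) (hE : LL K X O Y) : Ple K X O Y O :=
  (PExt_iff (B := ⟨X, h.1⟩) (E := ⟨Y, hE.isSys⟩)).1
    (Api.Pos.pext ((Pos_iff (B := ⟨X, h.1⟩)).2 h) ((L_iff (A := ⟨X, h.1⟩)
      (B := ⟨Y, hE.isSys⟩)).2 hE))

theorem Pos.of_LL {X O Y : M} (h : Pos K X O) (hE : LL K X O Y) : Pos K Y O :=
  (Pos_iff (B := ⟨Y, hE.isSys⟩)).1 (Api.Pos.of_L hK ((Pos_iff (B := ⟨X, h.1⟩)).2 h)
    ((L_iff (A := ⟨X, h.1⟩) (B := ⟨Y, hE.isSys⟩)).2 hE))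

/-- The union of an increasing sequence of positions is a position. -/
theorem Pos.sU (hw : W1 K.ix) {d : M} {S Q : M → M} (hS : DT (fun v : Fin 1 → M => S (v 0)))
    (hQ : DT (fun v : Fin 1 → M => Q (v 0))) (hd : Ord d) (hdi : Sb d K.ix)
    (hpos : ∀ a, a ∈ d → Pos K (S a) (Q a))
    (hmon : ∀ a b, a ∈ b → b ∈ d → Ple K (S a) (Q a) (S b) (Q b)) :
    Pos K (SigB.sU (im d S)) (SigB.sU (im d Q)) ∧
      ∀ a, a ∈ d → Ple K (S a) (Q a) (SigB.sU (im d S)) (SigB.sU (im d Q)) := by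
  have hinc : Inc d S := ⟨hS, hd, fun a ha => (hpos a ha).1.fn,
    fun a b hb hab => (hmon a b hab hb).1.2.1⟩
  have hsys : IsSys K.toCst (SigB.sU (im d S)) := hinc.isSys hw hdi fun a ha => (hpos a ha).1
  let X : {a : M // a ∈ d} → SyT K := fun i => ⟨S i.1, (hpos i.1 i.2).1⟩
  let O : {a : M // a ∈ d} → Set M := fun i => {t | t ∈ Q i.1}
  have hp : ∀ i, (api K).Pos (X i) (O i) := fun i =>
    (Pos_iff (B := ⟨S i.1, (hpos i.1 i.2).1⟩)).2 (hpos i.1 i.2)
  have hrefl : ∀ i, (api K).PExt (X i) (O i) (X i) (O i) := fun i => Api.Pos.refl hK (hp i)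
  have hm : ∀ i j : {a : M // a ∈ d}, i.1 ∈ j.1 → (api K).PExt (X i) (O i) (X j) (O j) :=
    fun i j hij => (PExt_iff (B := ⟨S i.1, (hpos i.1 i.2).1⟩)
      (E := ⟨S j.1, (hpos j.1 j.2).1⟩)).2 (hmon i.1 j.1 hij j.2)
  have hdir : ∀ i j, ∃ k, (api K).PExt (X i) (O i) (X k) (O k) ∧
      (api K).PExt (X j) (O j) (X k) (O k) := by
    intro i j
    rcases (hd.mem i.2).tri (hd.mem j.2) with h | h | h
    · exact ⟨j, hm i j h, hrefl j⟩
    · have : i = j := Subtype.ext h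
      rw [this]
      exact ⟨j, hrefl j, hrefl j⟩
    · exact ⟨i, hrefl i, hm j i h⟩
  have hU : (⋃ i, O i) = {t | t ∈ SigB.sU (im d Q)} := by
    ext t
    rw [Set.mem_iUnion]
    show _ ↔ t ∈ SigB.sU (im d Q)
    rw [mem_sU]
    constructor
    · rintro ⟨i, hi⟩
      exact ⟨Q i.1, (mem_im hQ).2 ⟨i.1, i.2, rfl⟩, hi⟩
    · rintro ⟨x, hx, ht⟩
      obtain ⟨a, ha, rfl⟩ := (mem_im hQ).1 hx
      exact ⟨⟨a, ha⟩, ht⟩
  obtain ⟨h1, h2⟩ := Api.Pos.union hK (X := X) (O := O) (Y := ⟨SigB.sU (im d S), hsys⟩) hp hdir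
    (fun i => (hinc.sf i.2).sb)
    (fun k hk => by
      obtain ⟨a, ha, hka⟩ := hinc.mem_dm.1 hk
      exact ⟨⟨a, ha⟩, hka⟩)
    ⟨_, hU⟩
  rw [hU] at h1 h2
  refine ⟨(Pos_iff (B := ⟨SigB.sU (im d S), hsys⟩)).1 h1, fun a ha => ?_⟩
  exact (PExt_iff (B := ⟨S a, (hpos a ha).1⟩) (E := ⟨SigB.sU (im d S), hsys⟩)).1 (h2 ⟨a, ha⟩)

end ple

/-! ### Systems for a fixed set of open tags -/

/-- The union of the values of a function. -/
noncomputable def U1 (F : M) : M := sU (im (dm F) fun a => ap F a)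

theorem mem_U1 {F z : M} : z ∈ U1 F ↔ ∃ a, a ∈ dm F ∧ z ∈ ap F a := by
  unfold U1
  rw [mem_sU]
  constructor
  · rintro ⟨x, hx, hz⟩
    obtain ⟨a, ha, rfl⟩ := (mem_im (by simp (maxDischargeDepth := 50))).1 hx
    exact ⟨a, ha, hz⟩
  · rintro ⟨a, ha, hz⟩
    exact ⟨_, (mem_im (by simp (maxDischargeDepth := 50))).2 ⟨a, ha, rfl⟩, hz⟩

theorem U1.dt : DT (fun v : Fin 1 → M => U1 (v 0)) := by
  have : (fun v : Fin 1 → M => U1 (v 0)) = fun v => sU (im (dm (v 0)) fun a => ap (v 0) a) := rfl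
  rw [this]
  simp (maxDischargeDepth := 50)

@[simp] theorem dt_U1 {n : ℕ} {s : (Fin n → M) → M} (hs : DT s) : DT (fun v => U1 (s v)) :=
  dt1 U1.dt hs

/-- The union of the two components of the values of a function. -/
noncomputable def U2 (F : M) : M :=
  op (sU (im (dm F) fun a => fst (ap F a))) (sU (im (dm F) fun a => snd (ap F a)))

theorem U2.dt : DT (fun v : Fin 1 → M => U2 (v 0)) := by
  have : (fun v : Fin 1 → M => U2 (v 0)) = fun v => op (sU (im (dm (v 0)) fun a =>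
    fst (ap (v 0) a))) (sU (im (dm (v 0)) fun a => snd (ap (v 0) a))) := rfl
  rw [this]
  simp (maxDischargeDepth := 50)

@[simp] theorem dt_U2 {n : ℕ} {s : (Fin n → M) → M} (hs : DT s) : DT (fun v => U2 (s v)) :=
  dt1 U2.dt hs

/-- The pair `P` is a position. -/
def Pos2 (K : Frm M) (P : M) : Prop := P = op (fst P) (snd P) ∧ Pos K (fst P) (snd P)

@[simp] theorem dfn_Pos2 (K : Frm M) {n : ℕ} {s : (Fin n → M) → M} (hs : DT s) :
    Dfn (fun v => Pos2 K (s v)) :=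
  dfn1 (R := Pos2 K) (by unfold Pos2; simp (maxDischargeDepth := 50)) hs

@[simp] theorem Pos2_op {K : Frm M} {X O : M} : Pos2 K (op X O) ↔ Pos K X O := by
  unfold Pos2
  simp

/-- The pair `Q` extends the pair `P`. -/
def Ex2 (K : Frm M) (P Q : M) : Prop := Ple K (fst P) (snd P) (fst Q) (snd Q)

@[simp] theorem dfn_Ex2 (K : Frm M) {n : ℕ} {s t : (Fin n → M) → M} (hs : DT s) (ht : DT t) :
    Dfn (fun v => Ex2 K (s v) (t v)) :=
  dfn2 (R := Ex2 K) (by unfold Ex2; simp (maxDischargeDepth := 50)) hs ht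

@[simp] theorem Ex2_op {K : Frm M} {X O Y P : M} : Ex2 K (op X O) (op Y P) ↔ Ple K X O Y P := by
  unfold Ex2
  simp

theorem Pos2.sys {K : Frm M} {P : M} (h : Pos2 K P) : IsSys K.toCst (fst P) := h.2.1

section chn

variable {K : Frm M} (hK : (api K).Laws) (hw : W1 K.ix)

include hK hw

/-- Pairs. -/
theorem chn2 : Chn K.ix (Pos2 K) (Ex2 K) U2 where
  ordw := hw.ord
  limw := ⟨fun h => not_mem_em _ (h ▸ hw.em_mem), fun a ha => hw.sc_mem ha⟩
  dfnP := dfn_Pos2 K (DT.var 0)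
  dfnE := dfn_Ex2 K (DT.var 0) (DT.var 1)
  dtU := U2.dt
  refl X h := Pos.prefl hK h.2
  trans X Y Z hX _ _ h1 h2 := Ple.trans' hK hX.2.1 h1 h2
  lim d F hd hlim hF hp he := by
    have hOd : Ord d := (ord_sc hw.ord).mem hd
    have hdi : Sb d K.ix := by
      rcases mem_sc.1 hd with h | h
      · exact hw.ord.sb h
      · rw [h]
        exact Sb.refl _
    have hdm := dm_of_fn hF
    obtain ⟨h1, h2⟩ := Pos.sU hK hw (S := fun a => fst (ap F a)) (Q := fun a => snd (ap F a))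
      (by simp (maxDischargeDepth := 50)) (by simp (maxDischargeDepth := 50)) hOd hdi
      (fun a ha => (hp a ha).2) (fun a b hab hb => he a b hab hb)
    unfold U2
    rw [hdm]
    refine ⟨Pos2_op.2 h1, fun a ha => ?_⟩
    unfold Ex2
    rw [fst_op, snd_op]
    exact h2 a ha

/-- Systems for a fixed set of open tags. -/
theorem chn1 (O : M) : Chn K.ix (fun X => Pos K X O) (fun X Y => LL K X O Y) U1 where
  ordw := hw.ord
  limw := ⟨fun h => not_mem_em _ (h ▸ hw.em_mem), fun a ha => hw.sc_mem ha⟩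
  dfnP := by simp (maxDischargeDepth := 50)
  dfnE := by simp (maxDischargeDepth := 50)
  dtU := U1.dt
  refl X h := (Pos.prefl hK h).1
  trans X Y Z hX hY _ h1 h2 := (Ple.trans' hK hX.1 (Pos.ple hK hX h1) (Pos.ple hK hY h2)).1
  lim d F hd hlim hF hp he := by
    have hOd : Ord d := (ord_sc hw.ord).mem hd
    have hdi : Sb d K.ix := by
      rcases mem_sc.1 hd with h | h
      · exact hw.ord.sb h
      · rw [h]
        exact Sb.refl _
    have hdm := dm_of_fn hF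
    obtain ⟨h1, h2⟩ := Pos.sU hK hw (S := fun a => ap F a) (Q := fun _ => O)
      (by simp (maxDischargeDepth := 50)) (by simp (maxDischargeDepth := 50)) hOd hdi
      (fun a ha => hp a ha) (fun a b hab hb =>
        Pos.ple hK (hp a (hOd.trans hab hb)) (he a b hab hb))
    have hO : SigB.sU (im d fun _ => O) = O := by
      refine ext' fun z => ?_
      rw [mem_sU]
      constructor
      · rintro ⟨x, hx, hz⟩
        obtain ⟨a, ha, rfl⟩ := (mem_im (by simp (maxDischargeDepth := 50))).1 hx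
        exact hz
      · intro hz
        exact ⟨O, (mem_im (by simp (maxDischargeDepth := 50))).2
          ⟨SigB.em, hOd.em_mem hlim.1, rfl⟩, hz⟩
    rw [hO] at h1 h2
    unfold U1
    rw [hdm]
    exact ⟨h1, fun a ha => (h2 a ha).1⟩

end chn

end Pool.Agent.Sep
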