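import Pool.Agent.Sep.CopyL
import Pool.Agent.Sep.ActF

/-!
# Copies of legal extensions for the forcing relation of the `Σ¹₃` sets
-/

universe u

set_option linter.unusedSectionVars false

namespace Pool.Agent.Sep

open Pool.Agent.SigB Pool.Agent.Forc Pool.Agent.Frc

variable {M : Type u} [Membership M M] [IsZFC M]

theorem fInv_frm (K : Cst M) : FInv (frm K) := fun _ hh _ _ _ _ hY hq ha hz hF =>
  hh.frm_F hY hq ha hz hF

/-- The copy law for the forcing relation of the `Σ¹₃` sets. -/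
theorem copy_frm {K : Cst M} (hs : Suc K.ix K.lab) (hf : HfOk K)
    {X B E t r a z : M} (hX : IsSys K X) (hB : IsSys K B) (hE : IsSys K E)
    (hXB : Sb X B) (hXE : Sb X E) (ht : t ∈ dm X) (htt : IsTag X t)
    (hL : LL (frm K) (rs X (fD X t)) (tO X t) B) (hr : r ∈ PX K B) (ha : NM K X a)
    (hz : NM K X z) (hFr : (frm K).F B r a z) :
    ∃ B' r', IsSys K B' ∧ Sb X B' ∧ (∀ j, j ∈ dm B' → j ∈ dm E → j ∈ dm X) ∧
      LL (frm K) (rs X (fD X t)) (tO X t) B' ∧ r' ∈ PX K B' ∧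
      rs r' (dm X) = rs r (dm X) ∧ (frm K).F B' r' a z :=
  copy_law (K := frm K) hs hf (fInv_frm K) hX hB hE hXB hXE ht htt hL hr ha hz hFr

end Pool.Agent.Sep
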