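import Pool.Agent.Sep.RulA

/-!
# Invariance of the rules under symmetries

A symmetry acts on labels, conditions, names and systems. Legality, consistency and legal extensions
are invariant under symmetries.
-/

universe u

set_option linter.unusedSectionVars false

namespace Pool.Agent.Sep

open Pool.Agent.SigB Pool.Agent.Forc Pool.Agent.Frc

variable {M : Type u} [Membership M M] [IsZFC M]

/-- A symmetry (an involution): `l` acts on the labels, `P` on the conditions, `N` on the names and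
`X` on the systems. -/
structure Act (K : Frm M) where
  l : M → M
  P : M → M
  N : M → M
  X : M → M
  dt_l : DT (fun w : Fin 1 → M => l (w 0))
  dt_X : DT (fun w : Fin 1 → M => X (w 0))
  l_mem : ∀ {j}, j ∈ K.lab → l j ∈ K.lab
  l_l : ∀ {j}, j ∈ K.lab → l (l j) = j
  sys : ∀ {Y}, IsSys K.toCst Y → IsSys K.toCst (X Y)
  X_X : ∀ {Y}, IsSys K.toCst Y → X (X Y) = Y
  dm_X : ∀ {Y}, IsSys K.toCst Y → dm (X Y) = im (dm Y) l
  sub : ∀ {Y Z}, IsSys K.toCst Y → IsSys K.toCst Z → Sb Y Z → Sb (X Y) (X Z)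
  rs_X : ∀ {Y D}, IsSys K.toCst Y → Cl Y D → rs (X Y) (im D l) = X (rs Y D)
  fD_X : ∀ {Y j}, IsSys K.toCst Y → j ∈ dm Y → fD (X Y) (l j) = im (fD Y j) l
  isTag : ∀ {Y j}, IsSys K.toCst Y → j ∈ dm Y → (IsTag (X Y) (l j) ↔ IsTag Y j)
  isCode : ∀ {Y j}, IsSys K.toCst Y → j ∈ dm Y → (IsCode (X Y) (l j) ↔ IsCode Y j)
  tO_X : ∀ {Y j}, IsSys K.toCst Y → j ∈ dm Y → IsTag Y j → tO (X Y) (l j) = im (tO Y j) l
  tk_X : ∀ {Y j}, IsSys K.toCst Y → j ∈ dm Y → IsTag Y j → tk (X Y) (l j) = tk Y j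
  ta_X : ∀ {Y j}, IsSys K.toCst Y → j ∈ dm Y → IsTag Y j → ta (X Y) (l j) = N (ta Y j)
  tb_X : ∀ {Y j}, IsSys K.toCst Y → j ∈ dm Y → IsTag Y j → tb (X Y) (l j) = N (tb Y j)
  tg_X : ∀ {Y j}, IsSys K.toCst Y → j ∈ dm Y → IsTag Y j → tg (X Y) (l j) = P (tg Y j)
  tr_X : ∀ {Y j}, IsSys K.toCst Y → j ∈ dm Y → IsTag Y j → tr (X Y) (l j) = tr Y j
  cx_X : ∀ {Y j}, IsSys K.toCst Y → j ∈ dm Y → IsCode Y j → cx (X Y) (l j) = l (cx Y j)
  ci_X : ∀ {Y j}, IsSys K.toCst Y → j ∈ dm Y → IsCode Y j → ci (X Y) (l j) = ci Y j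
  cg_X : ∀ {Y j}, IsSys K.toCst Y → j ∈ dm Y → IsCode Y j → cg (X Y) (l j) = P (cg Y j)
  cz_X : ∀ {Y j}, IsSys K.toCst Y → j ∈ dm Y → IsCode Y j → cz (X Y) (l j) = N (cz Y j)
  cz_NM : ∀ {Y j}, IsSys K.toCst Y → j ∈ dm Y → IsCode Y j → NM K.toCst (rs Y (fD Y j)) (cz Y j)
  mem_P : ∀ {Y q}, IsSys K.toCst Y → q ∈ PX K.toCst Y → P q ∈ PX K.toCst (X Y)
  P_P : ∀ {Y q}, IsSys K.toCst Y → q ∈ PX K.toCst Y → P (P q) = q
  Lq_P : ∀ {Y q p}, IsSys K.toCst Y → q ∈ PX K.toCst Y → p ∈ PX K.toCst Y → Lq K.toCst q p →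
    Lq K.toCst (P q) (P p)
  NM_N : ∀ {Y z}, IsSys K.toCst Y → NM K.toCst Y z → NM K.toCst (X Y) (N z)
  N_N : ∀ {Y z}, IsSys K.toCst Y → NM K.toCst Y z → N (N z) = z
  FE_X : ∀ {Y q z z'}, IsSys K.toCst Y → q ∈ PX K.toCst Y → NM K.toCst Y z → NM K.toCst Y z' →
    FE K.toCst Y q z z' → FE K.toCst (X Y) (P q) (N z) (N z')
  F_X : ∀ {Y q a z}, IsSys K.toCst Y → q ∈ PX K.toCst Y → NM K.toCst Y a → NM K.toCst Y z →
    K.F Y q a z → K.F (X Y) (P q) (N a) (N z)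

namespace Act

variable {K : Frm M} (T : Act K)

include T

theorem l_inj {j k : M} (hj : j ∈ K.lab) (hk : k ∈ K.lab) (h : T.l j = T.l k) : j = k := by
  rw [← T.l_l hj, h, T.l_l hk]

theorem mem_iml {D z : M} : z ∈ im D T.l ↔ ∃ j, j ∈ D ∧ z = T.l j := mem_im T.dt_l

theorem l_mem_iml {D j : M} (hD : Sb D K.lab) (hj : j ∈ K.lab) : T.l j ∈ im D T.l ↔ j ∈ D := by
  rw [T.mem_iml]
  constructor
  · rintro ⟨k, hk, h⟩
    rwa [T.l_inj hj (hD _ hk) h]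
  · exact fun h => ⟨j, h, rfl⟩

theorem iml_iml {D : M} (hD : Sb D K.lab) : im (im D T.l) T.l = D := by
  refine ext' fun z => ?_
  rw [T.mem_iml]
  constructor
  · rintro ⟨j, hj, rfl⟩
    obtain ⟨k, hk, rfl⟩ := T.mem_iml.1 hj
    rwa [T.l_l (hD k hk)]
  · exact fun hz => ⟨T.l z, T.mem_iml.2 ⟨z, hz, rfl⟩, (T.l_l (hD z hz)).symm⟩

theorem iml_sb {D : M} (hD : Sb D K.lab) : Sb (im D T.l) K.lab := by
  intro z hz
  obtain ⟨j, hj, rfl⟩ := T.mem_iml.1 hz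
  exact T.l_mem (hD j hj)

theorem mem_dm_X {Y j : M} (hY : IsSys K.toCst Y) : j ∈ dm (T.X Y) ↔ ∃ k, k ∈ dm Y ∧ j = T.l k := by
  rw [T.dm_X hY, T.mem_iml]

theorem l_mem_dm {Y j : M} (hY : IsSys K.toCst Y) (hj : j ∈ dm Y) : T.l j ∈ dm (T.X Y) :=
  (T.mem_dm_X hY).2 ⟨j, hj, rfl⟩

omit T in
theorem _root_.Pool.Agent.Sep.sb_rs {Y D : M} (hY : Fn Y (dm Y)) (hD : Sb D (dm Y)) : Sb (rs Y D) Y :=
  rs_sb_self hY hD

omit T in
theorem _root_.Pool.Agent.Sep.PX_mono_sys {K : Cst M} {X Y : M} (hX : Fn X (dm X))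
    (hY : Fn Y (dm Y)) (h : Sb X Y) : Sb (PX K X) (PX K Y) := by
  intro p hp
  rw [mem_PX] at hp ⊢
  obtain ⟨h1, h2, h3⟩ := hp
  refine ⟨h1, fun z hz => dm_sub h _ (h2 z hz), fun j a hj => ?_⟩
  have h4 : j ∈ dm X := by
    have := h2 _ hj
    rwa [fst_pm] at this
  rw [fW_sub hX hY h h4, fD_sub hX hY h h4]
  exact h3 j a hj

omit T in
theorem _root_.Pool.Agent.Sep.NM.mono_sys {K : Cst M} {X Y z : M} (hX : Fn X (dm X))
    (hY : Fn Y (dm Y)) (h : Sb X Y) (hz : NM K X z) : NM K Y z := by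
  refine ⟨fun w hw => ?_, hz.2⟩
  obtain ⟨x, hx, b, hb, rfl⟩ := mem_pd.1 (hz.1 w hw)
  exact op_mem_pd.2 ⟨hx, PX_mono_sys hX hY h b hb⟩

/-- Names and guards of a step over the support. -/
theorem rsD {Y j : M} (hY : IsSys K.toCst Y) (hj : j ∈ dm Y) :
    IsSys K.toCst (rs Y (fD Y j)) ∧ Sb (rs Y (fD Y j)) Y ∧
      T.X (rs Y (fD Y j)) = rs (T.X Y) (fD (T.X Y) (T.l j)) := by
  have hcl := hY.cl hj
  refine ⟨hY.rs hcl, rs_sb_self hY.fn hcl.1, ?_⟩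
  rw [T.fD_X hY hj, T.rs_X hY hcl]

theorem cgP {Y j : M} (hY : IsSys K.toCst Y) (hj : j ∈ dm Y) (hc : IsCode Y j) :
    cg Y j ∈ PX K.toCst Y :=
  PX_mono_sys (T.rsD hY hj).1.fn hY.fn (T.rsD hY hj).2.1 _ (hY.codeOk hj hc).2.2.2.2.1

theorem czN {Y j : M} (hY : IsSys K.toCst Y) (hj : j ∈ dm Y) (hc : IsCode Y j) :
    NM K.toCst Y (cz Y j) :=
  NM.mono_sys (T.rsD hY hj).1.fn hY.fn (T.rsD hY hj).2.1 (T.cz_NM hY hj hc)

theorem cxm {Y j : M} (hY : IsSys K.toCst Y) (hj : j ∈ dm Y) (hc : IsCode Y j) :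
    cx Y j ∈ dm Y ∧ IsTag Y (cx Y j) :=
  ⟨(hY.cl hj).1 _ (hY.codeOk hj hc).2.1, (hY.codeOk hj hc).2.2.1⟩

/-- Consistency is invariant. -/
theorem cons_X {B O : M} (hB : IsSys K.toCst B) (hO : Sb O K.lab) (h : Cons K.toCst B O) :
    Cons K.toCst (T.X B) (im O T.l) := by
  have hXB := T.sys hB
  intro j j' hj hj' hc hc' hx hx' hk hi q hq hq1 hq2 hfe
  obtain ⟨l, hl, rfl⟩ := (T.mem_dm_X hB).1 hj
  obtain ⟨l', hl', rfl⟩ := (T.mem_dm_X hB).1 hj'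
  rw [T.isCode hB hl] at hc
  rw [T.isCode hB hl'] at hc'
  obtain ⟨h1, h2⟩ := T.cxm hB hl hc
  obtain ⟨h3, h4⟩ := T.cxm hB hl' hc'
  have h1l := hB.2.1 _ h1
  have h3l := hB.2.1 _ h3
  rw [T.cx_X hB hl hc, T.l_mem_iml hO h1l] at hx
  rw [T.cx_X hB hl hc, T.cx_X hB hl' hc'] at hx'
  have hx'' := T.l_inj h3l h1l hx'
  rw [T.cx_X hB hl hc, T.tk_X hB h1 h2] at hk
  rw [T.ci_X hB hl hc, T.ci_X hB hl' hc'] at hi
  rw [T.cg_X hB hl hc] at hq1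
  rw [T.cg_X hB hl' hc'] at hq2
  rw [T.cz_X hB hl hc, T.cz_X hB hl' hc'] at hfe
  have hPq : T.P q ∈ PX K.toCst B := by
    have := T.mem_P hXB hq
    rwa [T.X_X hB] at this
  have g1 := T.cgP hB hl hc
  have g2 := T.cgP hB hl' hc'
  have z1 := T.czN hB hl hc
  have z2 := T.czN hB hl' hc'
  refine h l l' hl hl' hc hc' hx hx'' hk hi (T.P q) hPq ?_ ?_ ?_
  · have := T.Lq_P hXB hq (T.mem_P hB g1) hq1
    rwa [T.P_P hB g1] at this
  · have := T.Lq_P hXB hq (T.mem_P hB g2) hq2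
    rwa [T.P_P hB g2] at this
  · have := T.FE_X hXB hq (T.NM_N hB z1) (T.NM_N hB z2) hfe
    rwa [T.X_X hB, T.N_N hB z1, T.N_N hB z2] at this

/-- Legality at the tags of rank `r` is invariant. -/
def Q (r : M) : Prop :=
  ∀ B j, IsSys K.toCst B → j ∈ dm B → IsCode B j → tr B (cx B j) = r → OK K B j →
    OK K (T.X B) (T.l j)

theorem Q.dfn : Dfn (fun w : Fin 1 → M => T.Q (w 0)) := by
  have h1 : ∀ {n : ℕ} {s : (Fin n → M) → M}, DT s → DT fun v => T.X (s v) :=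
    fun hs => dt1 T.dt_X hs
  have h2 : ∀ {n : ℕ} {s : (Fin n → M) → M}, DT s → DT fun v => T.l (s v) :=
    fun hs => dt1 T.dt_l hs
  unfold Q
  simp (maxDischargeDepth := 50) [h1, h2]

theorem LL_X' {r A O B : M} (ih : ∀ s, s ∈ r → T.Q s) (hA : IsSys K.toCst A)
    (hOl : Sb O K.lab) (hO : ∀ t, t ∈ O → t ∈ dm A → tr A t ∈ r) (h : LL K A O B) :
    LL K (T.X A) (im O T.l) (T.X B) := by
  obtain ⟨hB, hAB, h1, h2⟩ := h
  refine ⟨T.sys hB, T.sub hA hB hAB, fun j hj hjA hc hx => ?_, T.cons_X hB hOl h2⟩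
  obtain ⟨l, hl, rfl⟩ := (T.mem_dm_X hB).1 hj
  rw [T.isCode hB hl] at hc
  have hlA : l ∉ dm A := fun h => hjA (T.l_mem_dm hA h)
  obtain ⟨h3, h4⟩ := T.cxm hB hl hc
  have h3l := hB.2.1 _ h3
  rw [T.cx_X hB hl hc] at hx
  rw [T.dm_X hA, T.l_mem_iml (hA.2.1) h3l] at hx
  obtain ⟨h5, h6⟩ := h1 l hl hlA hc hx
  refine ⟨?_, ?_⟩
  · rw [T.cx_X hB hl hc]
    exact T.mem_iml.2 ⟨_, h5, rfl⟩
  · refine ih (tr B (cx B l)) ?_ B l hB hl hc rfl h6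
    rw [tr_sub hA.fn hB.fn hAB hx]
    exact hO _ h5 hx

/-- Legality is invariant. -/
theorem q_all (hK : SigB.Ord K.lab) {r : M} (hr : SigB.Ord r) : T.Q r := by
  refine Ord.indAll (P := T.Q) (Q.dfn T) (fun r _ ih => ?_) hr
  intro B j hB hj hc hrk hok
  have hXB := T.sys hB
  have hXj := T.l_mem_dm hB hj
  rw [OK_iff hK hB hj hc] at hok
  rw [OK_iff hK hXB hXj ((T.isCode hB hj).2 hc)]
  obtain ⟨hx, hxt⟩ := T.cxm hB hj hc
  have hxtag := hB.tagOk hx hxt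
  obtain ⟨hD, hDB, hDX⟩ := T.rsD hB hj
  obtain ⟨hC, hCB, hCX⟩ := T.rsD hB hx
  have hxD : cx B j ∈ fD B j := (hB.codeOk hj hc).2.1
  -- the relation `LL`
  have hOl : Sb (tO B (cx B j)) K.lab := fun t ht =>
    hB.2.1 _ ((hB.cl hx).1 _ (hxtag.2.2.2.2.2.2.2 t ht).1)
  have hOr : ∀ t, t ∈ tO B (cx B j) → t ∈ dm (rs B (fD B (cx B j))) →
      tr (rs B (fD B (cx B j))) t ∈ r := by
    intro t ht _
    have h1 := hxtag.2.2.2.2.2.2.2 t ht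
    rw [tr_rs hB.fn (hB.cl hx).1 h1.1, ← hrk]
    exact h1.2.2
  have hLL : ∀ E, LL K (rs B (fD B (cx B j))) (tO B (cx B j)) E →
      LL K (rs (T.X B) (fD (T.X B) (T.l (cx B j)))) (tO (T.X B) (T.l (cx B j))) (T.X E) := by
    intro E hE
    have := T.LL_X' ih hC hOl hOr hE
    rwa [hCX, ← T.tO_X hB hx hxt] at this
  have hLL' : ∀ E, LL K (rs (T.X B) (fD (T.X B) (T.l (cx B j)))) (tO (T.X B) (T.l (cx B j))) E →
      LL K (rs B (fD B (cx B j))) (tO B (cx B j)) (T.X E) := by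
    intro E hE
    rw [← hCX, T.tO_X hB hx hxt] at hE
    have h1 := T.LL_X' ih (T.sys hC) (T.iml_sb hOl) ?_ hE
    · rwa [T.X_X hC, T.iml_iml hOl] at h1
    · intro t ht _
      obtain ⟨s, hs, rfl⟩ := T.mem_iml.1 ht
      have h2 := hxtag.2.2.2.2.2.2.2 s hs
      have h3 : s ∈ dm (rs B (fD B (cx B j))) := by
        rw [dm_rs hB.fn (hB.cl hx).1]; exact h2.1
      have h4 : IsTag (rs B (fD B (cx B j))) s := (isTag_rs hB.fn (hB.cl hx).1 h2.1).2 h2.2.1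
      rw [T.tr_X hC h3 h4]
      exact hOr s hs h3
  have gB := T.cgP hB hj hc
  have gD : cg B j ∈ PX K.toCst (rs B (fD B j)) := (hB.codeOk hj hc).2.2.2.2.1
  have zD := T.cz_NM hB hj hc
  have hxD' : Sb (rs B (fD B (cx B j))) (rs B (fD B j)) := by
    have h1 : Sb (fD B (cx B j)) (fD B j) := (hB.cl hj).2 _ hxD
    rw [← rs_rs hB.fn (hB.cl hj).1 h1]
    refine rs_sb_self hD.fn ?_
    rw [dm_rs hB.fn (hB.cl hj).1]
    exact h1
  have aC : NM K.toCst (rs B (fD B (cx B j))) (ta B (cx B j)) := hxtag.2.2.2.2.1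
  have bC : NM K.toCst (rs B (fD B (cx B j))) (tb B (cx B j)) := hxtag.2.2.2.2.2.1
  have aD := NM.mono_sys hC.fn hD.fn hxD' aC
  have bD := NM.mono_sys hC.fn hD.fn hxD' bC
  unfold OKe at hok ⊢
  rw [T.cx_X hB hj hc, T.tk_X hB hx hxt, T.ci_X hB hj hc, T.cg_X hB hj hc, T.cz_X hB hj hc,
    T.ta_X hB hx hxt, T.tb_X hB hx hxt, ← hDX]
  refine ⟨fun h => ?_, fun h => ?_⟩
  · obtain ⟨h1, h2⟩ := hok.1 h
    exact ⟨fun hi => T.F_X hD gD aD zD (h1 hi), fun hi => T.F_X hD gD bD zD (h2 hi)⟩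
  · obtain ⟨h1, h2⟩ := hok.2 h
    refine ⟨fun hi E hE hDE q hq hqg hF => ?_, fun hi E hE hDE q hq hqg => ?_⟩
    · have hES : IsSys K.toCst E := hE.1
      have hXE := T.sys hES
      have hs : Sb (rs B (fD B j)) (T.X E) := by
        have := T.sub (T.sys hD) hES hDE
        rwa [T.X_X hD] at this
      have gE : T.P (cg B j) ∈ PX K.toCst E :=
        PX_mono_sys (T.sys hD).fn hES.fn hDE _ (T.mem_P hD gD)
      refine h1 hi (T.X E) (hLL' E hE) hs (T.P q) (T.mem_P hES hq) ?_ ?_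
      · have := T.Lq_P hES hq gE hqg
        rwa [T.P_P hD gD] at this
      · have a1 := NM.mono_sys (T.sys hD).fn hES.fn hDE (T.NM_N hD aD)
        have z1 := NM.mono_sys (T.sys hD).fn hES.fn hDE (T.NM_N hD zD)
        have := T.F_X hES hq a1 z1 hF
        rwa [T.N_N hD aD, T.N_N hD zD] at this
    · have hES : IsSys K.toCst E := hE.1
      have hXE := T.sys hES
      have hs : Sb (rs B (fD B j)) (T.X E) := by
        have := T.sub (T.sys hD) hES hDE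
        rwa [T.X_X hD] at this
      have gE : T.P (cg B j) ∈ PX K.toCst E :=
        PX_mono_sys (T.sys hD).fn hES.fn hDE _ (T.mem_P hD gD)
      obtain ⟨E', hE', hEE', r', hr', hrq, hF⟩ :=
        h2 hi (T.X E) (hLL' E hE) hs (T.P q) (T.mem_P hES hq) (by
          have := T.Lq_P hES hq gE hqg
          rwa [T.P_P hD gD] at this)
      have hES' : IsSys K.toCst E' := hE'.1
      have hsub : Sb E (T.X E') := by
        have := T.sub hXE hES' hEE'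
        rwa [T.X_X hES] at this
      refine ⟨T.X E', hLL E' hE', hsub, T.P r', T.mem_P hES' hr', ?_, ?_⟩
      · have := T.Lq_P hES' hr' (PX_mono_sys hXE.fn hES'.fn hEE' _ (T.mem_P hES hq)) hrq
        rwa [T.P_P hES hq] at this
      · have hDE' : Sb (rs B (fD B j)) E' := hs.trans hEE'
        exact T.F_X hES' hr' (NM.mono_sys hD.fn hES'.fn hDE' aD)
          (NM.mono_sys hD.fn hES'.fn hDE' zD) hF

theorem OK_X (hK : SigB.Ord K.lab) {B j : M} (hB : IsSys K.toCst B) (hj : j ∈ dm B)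
    (hc : IsCode B j) (h : OK K B j) : OK K (T.X B) (T.l j) := by
  obtain ⟨hx, hxt⟩ := T.cxm hB hj hc
  exact T.q_all hK (hK.mem (hB.tagOk hx hxt).2.2.1) B j hB hj hc rfl h

/-- Legal extensions are invariant. -/
theorem LL_X (hK : SigB.Ord K.lab) {A O B : M} (hA : IsSys K.toCst A) (hOl : Sb O K.lab)
    (h : LL K A O B) : LL K (T.X A) (im O T.l) (T.X B) := by
  obtain ⟨hB, hAB, h1, h2⟩ := h
  refine ⟨T.sys hB, T.sub hA hB hAB, fun j hj hjA hc hx => ?_, T.cons_X hB hOl h2⟩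
  obtain ⟨l, hl, rfl⟩ := (T.mem_dm_X hB).1 hj
  rw [T.isCode hB hl] at hc
  have hlA : l ∉ dm A := fun h => hjA (T.l_mem_dm hA h)
  obtain ⟨h3, h4⟩ := T.cxm hB hl hc
  have h3l := hB.2.1 _ h3
  rw [T.cx_X hB hl hc] at hx
  rw [T.dm_X hA, T.l_mem_iml (hA.2.1) h3l] at hx
  obtain ⟨h5, h6⟩ := h1 l hl hlA hc hx
  refine ⟨?_, T.OK_X hK hB hl hc h6⟩
  rw [T.cx_X hB hl hc]
  exact T.mem_iml.2 ⟨_, h5, rfl⟩

end Act

end Pool.Agent.Sep
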