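import Pool.Agent.Sep.TaskI
import Pool.Agent.Sep.GoodH

/-!
# The tasks of the second use of the closing lemma can be done

Translation of the results on the abstract data to the systems of the model: the tasks of a position
can be done, they remain done, and a position where all tasks are done is complete.
-/

universe u

set_option linter.unusedSectionVars false

namespace Pool.Agent.Sep

open Pool.Agent.SigB Pool.Agent.Forc Pool.Agent.Frc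

variable {M : Type u} [Membership M M] [IsZFC M] {K : Frm M}

/-! ### Dictionary -/

theorem dSig_iff {X : SyT K} {O a b q : M} (hO : ∀ t, t ∈ O → IsTag X.1 t) :
    (api K).DSig X {t | t ∈ O} a b q ↔ DSigI K X.1 O a b q := by
  constructor
  · rintro ⟨r, hr, hrq, ⟨z, hz, h1, h2⟩ | ⟨t, ht, h1, h2, h3, h4⟩⟩
    · exact ⟨r, hr, hrq, Or.inl ⟨z, hz, h1, h2⟩⟩
    · have e : (api K).gd X t = tg X.1 t := gdS_tag (hO t ht)
      rw [e] at h4
      exact ⟨r, hr, hrq, Or.inr ⟨t, ht, h1, h2, h3, h4⟩⟩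
  · rintro ⟨r, hr, hrq, ⟨z, hz, h1, h2⟩ | ⟨t, ht, h1, h2, h3, h4⟩⟩
    · exact ⟨r, hr, hrq, Or.inl ⟨z, hz, h1, h2⟩⟩
    · have e : (api K).gd X t = tg X.1 t := gdS_tag (hO t ht)
      rw [← e] at h4
      exact ⟨r, hr, hrq, Or.inr ⟨t, ht, h1, h2, h3, h4⟩⟩

theorem hop_iff {X : SyT K} {O a b z q : M} :
    (api K).Hopeless X {t | t ∈ O} a b z q ↔ HopI K X.1 O a b z q := by
  constructor
  · intro h Y hY r hr hrq
    exact h ⟨Y, hY.1⟩ (L_iff.2 hY) r hr hrq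
  · intro h Y hY r hr hrq
    exact h Y.1 (L_iff.1 hY) r hr hrq

theorem dPi_iff {X : SyT K} {O a b q : M} (hO : ∀ t, t ∈ O → IsTag X.1 t) :
    (api K).DPi X {t | t ∈ O} a b q ↔ DPiI K X.1 O a b q := by
  constructor
  · rintro ⟨r, hr, hrq, ⟨z, hz, h1⟩ | ⟨t, ht, h1, h2, h3, h4⟩⟩
    · exact ⟨r, hr, hrq, Or.inl ⟨z, hz, hop_iff.1 h1⟩⟩
    · have e : (api K).gd X t = tg X.1 t := gdS_tag (hO t ht)
      rw [e] at h4
      exact ⟨r, hr, hrq, Or.inr ⟨t, ht, h1, h2, h3, h4⟩⟩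
  · rintro ⟨r, hr, hrq, ⟨z, hz, h1⟩ | ⟨t, ht, h1, h2, h3, h4⟩⟩
    · exact ⟨r, hr, hrq, Or.inl ⟨z, hz, hop_iff.2 h1⟩⟩
    · have e : (api K).gd X t = tg X.1 t := gdS_tag (hO t ht)
      rw [← e] at h4
      exact ⟨r, hr, hrq, Or.inr ⟨t, ht, h1, h2, h3, h4⟩⟩

theorem dCode_iff {X : SyT K} {t z q : M} :
    (api K).DCode X t z q ↔ DCodeI K.toCst X.1 t z q := by
  constructor
  · rintro ⟨r, hr, hrq, l, hl, hg, he⟩
    have hl' := at_iff.1 hl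
    have e : (api K).gd X l = cg X.1 l := gdS_code ((X.2.not_tag_iff hl'.1).2 hl'.2.1)
    rw [e] at hg
    exact ⟨r, hr, hrq, l, hl', hg, he⟩
  · rintro ⟨r, hr, hrq, l, hl', hg, he⟩
    have e : (api K).gd X l = cg X.1 l := gdS_code ((X.2.not_tag_iff hl'.1).2 hl'.2.1)
    rw [← e] at hg
    exact ⟨r, hr, hrq, l, at_iff.2 hl', hg, he⟩

/-! ### The tasks remain done -/

theorem Ple.sf {X O Y O' : M} (hX : Pos K X O) (h : Ple K X O Y O') : Sf X Y :=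
  ⟨hX.1.1, h.1.1.1, h.1.2.1⟩

theorem Ple.mem {X O Y O' u : M} (h : Ple K X O Y O') (hu : u ∈ O) : u ∈ O' := by
  have := h.2
  rw [← this, mem_it] at hu
  exact hu.1

theorem Ple.mem_of {X O Y O' u : M} (h : Ple K X O Y O') (hu : u ∈ O')
    (hX : u ∈ dm X) : u ∈ O := by
  have := h.2
  rw [← this, mem_it]
  exact ⟨hu, hX⟩

theorem Ple.refl {X O : M} (hX : Pos K X O) : Ple K X O X O := by
  refine ⟨LL.refl hX, ext' fun t => ?_⟩
  rw [mem_it]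
  exact ⟨fun h => h.1, fun h => ⟨h, (hX.2.2 t h).1⟩⟩

theorem Pos.tag {X O : M} (hX : Pos K X O) : ∀ t, t ∈ O → IsTag X t :=
  fun t ht => (hX.2.2 t ht).2.1

section

variable (R : Rest K)

include R

theorem DSigI.up {X O Y O' a b q : M} (hX : Pos K X O) (hY : Pos K Y O')
    (hE : Ple K X O Y O') (ha : NM K.toCst X a) (hb : NM K.toCst X b)
    (hd : DSigI K X O a b q) : DSigI K Y O' a b q := by
  refine (dSig_iff (X := ⟨Y, hY.1⟩) hY.tag).1 ?_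
  exact Api.DSig.up R.laws (X := ⟨X, hX.1⟩) (O := {t | t ∈ O}) (Pos_iff.2 hX) (PExt_iff.2 hE)
    ha hb ((dSig_iff (X := ⟨X, hX.1⟩) hX.tag).2 hd)

theorem DPiI.up {X O Y O' a b q : M} (hX : Pos K X O) (hY : Pos K Y O')
    (hE : Ple K X O Y O') (hd : DPiI K X O a b q) : DPiI K Y O' a b q := by
  refine (dPi_iff (X := ⟨Y, hY.1⟩) hY.tag).1 ?_
  exact Api.DPi.up R.laws (X := ⟨X, hX.1⟩) (O := {t | t ∈ O}) (Pos_iff.2 hX) (PExt_iff.2 hE)
    ((dPi_iff (X := ⟨X, hX.1⟩) hX.tag).2 hd)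

theorem DCodeI.up {X Y t z q : M} (hX : IsSys K.toCst X) (hY : IsSys K.toCst Y)
    (h : Sb X Y) (hz : NM K.toCst X z) (hd : DCodeI K.toCst X t z q) :
    DCodeI K.toCst Y t z q :=
  dCode_iff.1 (Api.DCode.up R.laws (X := ⟨X, hX⟩) (Y := ⟨Y, hY⟩) h hz (dCode_iff.2 hd))

/-- A task remains done. -/
theorem DnP_keep {X O Y O' t : M} (hX : Pos K X O) (hY : Pos K Y O') (hE : Ple K X O Y O')
    (ht : t ∈ tsk K.toCst X) (hd : DnP K (op X O) t) : DnP K (op Y O') t := by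
  obtain ⟨k, q, u, z, rfl⟩ := exists_of_mem_tks (tsk_sb t ht)
  obtain ⟨h1, h2, h3⟩ := mem_tsk.1 ht
  obtain ⟨a1, a2, a3, a4⟩ := op_mem_tks.1 h1
  rw [DnP_iff, fst_op, snd_op] at hd ⊢
  obtain ⟨d1, d2, d3⟩ := hd
  refine ⟨fun e => DSigI.up R hX hY hE (h2 (Or.inl e)) a4 (d1 e),
    fun e => DPiI.up R hX hY hE (d2 e), fun e hu hg => ?_⟩
  have huX := h3 e
  have huO := hE.mem_of hu huX
  rw [← (hE.sf hX).tg huX] at hg
  exact DCodeI.up R hX.1 hY.1 hE.1.2.1 a4 (d3 e huO hg)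

/-- A task can be done, if every position has a good extension. -/
theorem DnP_able (hG : ∀ X O, Pos K X O → ∃ E, LL K X O E ∧ Good K.toCst E O) {X O t : M}
    (hX : Pos K X O) (ht : t ∈ tsk K.toCst X) :
    ∃ Y O', Pos K Y O' ∧ Ple K X O Y O' ∧ DnP K (op Y O') t := by
  obtain ⟨k, q, u, z, rfl⟩ := exists_of_mem_tks (tsk_sb t ht)
  obtain ⟨h1, h2, h3⟩ := mem_tsk.1 ht
  obtain ⟨a1, a2, a3, a4⟩ := op_mem_tks.1 h1
  have hPX : (api K).Pos ⟨X, hX.1⟩ {t | t ∈ O} := Pos_iff.2 hX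
  by_cases e0 : k = (em : M)
  · obtain ⟨Y, O', p1, p2, p3⟩ := Api.Pos.exists_sig R.laws hPX (h2 (Or.inl e0)) a4 a2
    obtain ⟨o', rfl⟩ := p1.int
    have hY : Pos K Y.1 o' := Pos_iff.1 p1
    refine ⟨Y.1, o', hY, PExt_iff.1 p2, ?_⟩
    rw [DnP_iff, fst_op, snd_op]
    refine ⟨fun _ => (dSig_iff hY.tag).1 p3, fun e => ?_, fun e => ?_⟩
    · rw [e0] at e
      exact (sc_ne_em _ e.symm).elim
    · rw [e0] at e
      exact (sc_ne_em _ e.symm).elim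
  by_cases e1 : k = sc (em : M)
  · obtain ⟨Y, O', p1, p2, p3⟩ := Api.Pos.exists_pi R.laws hPX (h2 (Or.inr e1)) a4 a2
    obtain ⟨o', rfl⟩ := p1.int
    have hY : Pos K Y.1 o' := Pos_iff.1 p1
    refine ⟨Y.1, o', hY, PExt_iff.1 p2, ?_⟩
    rw [DnP_iff, fst_op, snd_op]
    refine ⟨fun e => (e0 e).elim, fun _ => (dPi_iff hY.tag).1 p3, fun e => ?_⟩
    rw [e1] at e
    exact (sc_ne_em _ (sc_inj e).symm).elim
  by_cases hc : k = sc (sc (em : M)) ∧ u ∈ O ∧ Lq K.toCst q (tg X u)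
  · obtain ⟨e2, hu, hq⟩ := hc
    have e : (api K).gd ⟨X, hX.1⟩ u = tg X u := gdS_tag (hX.tag u hu)
    obtain ⟨Y, p1, p2, p3⟩ := Api.Pos.exists_code R.laws hPX (fun X' O' hP => by
      obtain ⟨o', rfl⟩ := hP.int
      have hP' : Pos K X'.1 o' := Pos_iff.1 hP
      obtain ⟨E, hE, hg⟩ := hG X'.1 o' hP'
      refine ⟨⟨E, hE.1⟩, L_iff.2 hE, (R.good_iff (B := ⟨E, hE.1⟩) fun x hx => ?_).2 hg⟩
      have hs : Sf X'.1 E := ⟨hP'.1.1, hE.1.1, hE.2.1⟩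
      have hxX := (hP'.2.2 x hx).1
      exact ⟨hs.dm x hxX, (hs.IsTag hxX).1 (hP'.tag x hx)⟩) hu a4 a2 (by rw [e]; exact hq)
    have hY : Pos K Y.1 O := Pos_iff.1 p1
    refine ⟨Y.1, O, hY, ⟨L_iff.1 p2, (Ple.refl hX).2⟩, ?_⟩
    rw [DnP_iff, fst_op, snd_op]
    exact ⟨fun e => (e0 e).elim, fun e => (e1 e).elim, fun _ _ _ => dCode_iff.1 p3⟩
  · refine ⟨X, O, hX, Ple.refl hX, ?_⟩
    rw [DnP_iff, fst_op, snd_op]
    exact ⟨fun e => (e0 e).elim, fun e => (e1 e).elim, fun e hu hq => (hc ⟨e, hu, hq⟩).elim⟩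

end

/-! ### Complete positions -/

/-- A position where all tasks are done is complete. -/
theorem cmpI_of {X O : M} (hX : Pos K X O)
    (hd : ∀ t, t ∈ tsk K.toCst X → DnP K (op X O) t) : CmpI K X O := by
  have m0 : (em : M) ∈ sc (sc (sc (sc (em : M)))) := by simp
  have m1 : sc (em : M) ∈ sc (sc (sc (sc (em : M)))) := by simp
  have m2 : sc (sc (em : M)) ∈ sc (sc (sc (sc (em : M)))) := by simp
  refine ⟨hX, fun a ha b hb q hq => ?_, fun a ha b hb q hq => ?_, fun t ht z hz q hq hg => ?_⟩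
  · have h1 := hd _ (mem_tsk.2 ⟨op_mem_tks.2 ⟨m0, hq, Or.inr ha, hb⟩, fun _ => ha,
      fun e => (sc_ne_em _ e.symm).elim⟩)
    rw [DnP_iff, fst_op, snd_op] at h1
    exact h1.1 rfl
  · have h1 := hd _ (mem_tsk.2 ⟨op_mem_tks.2 ⟨m1, hq, Or.inr ha, hb⟩, fun _ => ha,
      fun e => (sc_ne_em _ (sc_inj e).symm).elim⟩)
    rw [DnP_iff, fst_op, snd_op] at h1
    exact h1.2.1 rfl
  · have htX := (hX.2.2 t ht).1
    have h1 := hd _ (mem_tsk.2 ⟨op_mem_tks.2 ⟨m2, hq, Or.inl htX, hz⟩, fun e => by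
      rcases e with e | e
      · exact (sc_ne_em _ e).elim
      · exact (sc_ne_em _ (sc_inj e)).elim, fun _ => htX⟩)
    rw [DnP_iff, fst_op, snd_op] at h1
    exact h1.2.2 rfl ht hg

theorem CmpI.complete {X O : M} (h : CmpI K X O) :
    (api K).Complete ⟨X, h.1.1⟩ {t | t ∈ O} := by
  obtain ⟨hX, h1, h2, h3⟩ := h
  refine ⟨Pos_iff.2 hX, fun a ha b hb q hq => (dSig_iff (X := ⟨X, hX.1⟩) hX.tag).2
    (h1 a ha b hb q hq), fun a ha b hb q hq => (dPi_iff (X := ⟨X, hX.1⟩) hX.tag).2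
    (h2 a ha b hb q hq), fun t ht z hz q hq hg => ?_⟩
  have e : (api K).gd ⟨X, hX.1⟩ t = tg X t := gdS_tag (hX.tag t ht)
  rw [e] at hg
  exact dCode_iff.2 (h3 t ht z hz q hq hg)

end Pool.Agent.Sep
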