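import Pool.Agent.Sep.TaskI
import Pool.Agent.Sep.ChainP
import Pool.Agent.Sep.CplT

/-!
# The second use of the closing lemma

The tasks at the positions satisfy the hypotheses of the closing lemma. If every position has a good
extension with the same open tags, then every position has a complete extension.
-/

universe u

set_option linter.unusedSectionVars false

namespace Pool.Agent.Sep

open Pool.Agent.SigB Pool.Agent.Forc Pool.Agent.Frc
open Pool.Agent.FDia (W1)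

variable {M : Type u} [Membership M M] [IsZFC M]

/-- The systems of a chain of positions. -/
theorem inc_fst {K : Frm M} {w F : M} (hw : Ord w) (hP : ∀ a, a ∈ w → Pos2 K (ap F a))
    (hE : ∀ a b, a ∈ b → b ∈ w → Ex2 K (ap F a) (ap F b)) : Inc w fun a => fst (ap F a) where
  dt := by simp (maxDischargeDepth := 50)
  ord := hw
  fn a ha := (hP a ha).2.1.fn
  mono a b hb hab := (hE a b hab hb).1.2.1

theorem fst_U2 {w F : M} (hF : Fn F w) : fst (U2 F) = sU (im w fun a => fst (ap F a)) := by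
  unfold U2
  rw [fst_op, dm_of_fn hF]

/-- The tasks at the positions satisfy the hypotheses of the closing lemma. -/
theorem tsk_pairs {K : Frm M} (hw : W1 K.ix) (hT : Forc.Le K.T K.ix)
    (hCH : Forc.Le (pw (om : M)) K.ix) (hhf : Forc.Le K.hf K.ix)
    (hc : Chn K.ix (Pos2 K) (Ex2 K) U2) {Dn : M → M → Prop}
    (hD : Dfn (fun v : Fin 2 → M => Dn (v 0) (v 1)))
    (keep : ∀ P Q t, Pos2 K P → Pos2 K Q → Ex2 K P Q → t ∈ tsk K.toCst (fst P) → Dn P t → Dn Q t)
    (able : ∀ P t, Pos2 K P → t ∈ tsk K.toCst (fst P) → ∃ Q, Pos2 K Q ∧ Ex2 K P Q ∧ Dn Q t) :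
    Tsk K.ix (Pos2 K) (Ex2 K) U2 (fun P => tsk K.toCst (fst P)) Dn where
  toChn := hc
  dtT := by simp (maxDischargeDepth := 50)
  dfnD := hD
  le P hP := (le_tks hw hT hP.2.1.2.2.1 hCH hhf).mono_left tsk_sb
  mono P Q hP hQ hE := tsk_mono (hP.2.1.sf hQ.2.1 hE.1.2.1)
  keep := keep
  able := able
  small F hF hP hE t ht := by
    rw [fst_U2 hF] at ht
    exact (inc_fst hw.ord hP hE).tsk hw ht

/-- Every position has an extension at which all tasks are done. -/
theorem exists_done (hL : GL.AllL M) {K : Frm M} (hw : W1 K.ix) (hT : Forc.Le K.T K.ix)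
    (hCH : Forc.Le (pw (om : M)) K.ix) (hhf : Forc.Le K.hf K.ix)
    (hc : Chn K.ix (Pos2 K) (Ex2 K) U2) {Dn : M → M → Prop}
    (hD : Dfn (fun v : Fin 2 → M => Dn (v 0) (v 1)))
    (keep : ∀ P Q t, Pos2 K P → Pos2 K Q → Ex2 K P Q → t ∈ tsk K.toCst (fst P) → Dn P t → Dn Q t)
    (able : ∀ P t, Pos2 K P → t ∈ tsk K.toCst (fst P) → ∃ Q, Pos2 K Q ∧ Ex2 K P Q ∧ Dn Q t)
    {X O : M} (hX : Pos K X O) : ∃ Y Q, Pos K Y Q ∧ Ple K X O Y Q ∧
      ∀ t, t ∈ tsk K.toCst Y → Dn (op Y Q) t := by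
  obtain ⟨P, h1, h2, h3⟩ :=
    (tsk_pairs hw hT hCH hhf hc hD keep able).close hL (Pos2_op.2 hX)
  refine ⟨fst P, snd P, h1.2, ?_, ?_⟩
  · unfold Ex2 at h2
    rwa [fst_op, snd_op] at h2
  · rw [← h1.1]
    exact h3

/-- **Every position has a complete extension**, if every position has a good extension with the
same open tags. -/
theorem exists_cmpI_of (hL : GL.AllL M) {K : Frm M} (R : Rest K) (hw : W1 K.ix)
    (hT : Forc.Le K.T K.ix) (hCH : Forc.Le (pw (om : M)) K.ix) (hhf : Forc.Le K.hf K.ix)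
    (hG : ∀ X O, Pos K X O → ∃ E, LL K X O E ∧ Good K.toCst E O) {X O : M} (hX : Pos K X O) :
    ∃ Y Q, Ple K X O Y Q ∧ CmpI K Y Q := by
  obtain ⟨Y, Q, h1, h2, h3⟩ := exists_done hL hw hT hCH hhf (chn2 R.laws hw) (Dn := DnP K)
    (dfn_DnP K (DT.var 0) (DT.var 1))
    (fun P P' t hP hP' hE ht hd => by
      rw [hP'.1]
      rw [hP.1] at hd
      exact DnP_keep R hP.2 hP'.2 hE ht hd)
    (fun P t hP ht => by
      obtain ⟨Y, O', h1, h2, h3⟩ := DnP_able R hG hP.2 ht
      refine ⟨op Y O', Pos2_op.2 h1, ?_, h3⟩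
      rw [hP.1]
      exact Ex2_op.2 h2) hX
  exact ⟨Y, Q, h2, cmpI_of h1 h3⟩

end Pool.Agent.Sep
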