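import Pool.Agent.SigB.Defs

/-!
The (boldface) pointclasses `Σ¹₃` and `Π¹₃` and the separation property, evaluated in a structure
`(M, ∈)`. The file `Pool.Agent.SigB.Defs` has: `IsZFC`, `IsSub`, `IsOrdPair`, `Val`, `IsMap`,
`IsOmega`.
-/

universe u

namespace Pool.Agent.Sep

open Pool.Agent.SigB

variable {M : Type u} [Membership M M]

/-- `x` is a real: a function from `ω` to `ω`. -/
def IsReal (x : M) : Prop := ∃ o : M, IsOmega o ∧ IsMap x o o

/-- The functions `x` and `y` agree on `n`. -/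
def Agree (x y n : M) : Prop := ∀ i v : M, i ∈ n → (Val x i v ↔ Val y i v)

/-- `t` is the quadruple `(x, (y, (z, w)))`. -/
def IsQuad (t x y z w : M) : Prop :=
  ∃ q r : M, IsOrdPair r z w ∧ IsOrdPair q y r ∧ IsOrdPair t x q

/-- `C` is a closed subset of `(ω^ω)⁴`: the elements of `C` are quadruples of reals, and if a
quadruple `t = (x, y, z, w)` of reals does not belong to `C` then there is `n ∈ ω` such that no
quadruple which agrees with `t` on `n` belongs to `C`. -/
def IsClosed4 (C : M) : Prop :=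
  (∀ t : M, t ∈ C → ∃ x y z w : M,
    IsReal x ∧ IsReal y ∧ IsReal z ∧ IsReal w ∧ IsQuad t x y z w) ∧
  ∀ t x y z w : M, IsReal x → IsReal y → IsReal z → IsReal w → IsQuad t x y z w → t ∉ C →
    ∃ o n : M, IsOmega o ∧ n ∈ o ∧ ∀ t' x' y' z' w' : M, IsQuad t' x' y' z' w' →
      Agree x x' n → Agree y y' n → Agree z z' n → Agree w w' n → t' ∉ C

/-- `A` is a `Σ¹₃` set of reals: for a closed subset `C` of `(ω^ω)⁴`, the elements of `A` are the
reals `x` for which there is a real `y` such that for all reals `z` there is a real `w` with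
`(x, y, z, w) ∈ C`. -/
def IsSigma3 (A : M) : Prop :=
  ∃ C : M, IsClosed4 C ∧ ∀ x : M, x ∈ A ↔ IsReal x ∧ ∃ y : M, IsReal y ∧ ∀ z : M, IsReal z →
    ∃ w t : M, IsReal w ∧ IsQuad t x y z w ∧ t ∈ C

/-- `A` is a `Π¹₃` set of reals: the complement of a `Σ¹₃` set. -/
def IsPi3 (A : M) : Prop := ∃ B : M, IsSigma3 B ∧ ∀ x : M, x ∈ A ↔ IsReal x ∧ x ∉ B

/-- There is a `Δ¹₃` set `D` with `A ⊆ D` which is disjoint from `B`. -/
def IsSeparated (A B : M) : Prop :=
  ∃ D : M, IsSigma3 D ∧ IsPi3 D ∧ IsSub A D ∧ ∀ x : M, x ∈ D → x ∉ B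

variable (M) in
/-- The `Σ¹₃`-separation property: disjoint `Σ¹₃` sets are separated by a `Δ¹₃` set. -/
def SigmaSep : Prop :=
  ∀ A B : M, IsSigma3 A → IsSigma3 B → (∀ x : M, x ∈ A → x ∉ B) → IsSeparated A B

variable (M) in
/-- The `Π¹₃`-separation property: disjoint `Π¹₃` sets are separated by a `Δ¹₃` set. -/
def PiSep : Prop :=
  ∀ A B : M, IsPi3 A → IsPi3 B → (∀ x : M, x ∈ A → x ∉ B) → IsSeparated A B

end Pool.Agent.Sep
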