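import Pool.Agent.GL.EmbExt
import Pool.Agent.Forc.CardB

/-!
Transitive embeddings of models of ZFC with the same ordinals: the absoluteness lemmas for the
operations of the library `SigB`.
-/

universe u v

set_option linter.unusedSectionVars false

namespace Pool.Agent.GL.TrEmb

open Pool.Agent.SigB

variable {M : Type u} {N : Type v} [Membership M M] [Membership N N] [IsZFC M] [IsZFC N]
  {j : M → N} (hj : GL.TrEmb j)

include hj

theorem s_em : j SigB.em = SigB.em := hj.em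

theorem s_pr (x y : M) : j (SigB.pr x y) = SigB.pr (j x) (j y) := hj.pr x y

theorem s_op (x y : M) : j (SigB.op x y) = SigB.op (j x) (j y) := hj.op x y

theorem s_sU (x : M) : j (SigB.sU x) = SigB.sU (j x) := hj.sU x

theorem s_un (x y : M) : j (SigB.un x y) = SigB.un (j x) (j y) := hj.un x y

theorem s_sc (x : M) : j (SigB.sc x) = SigB.sc (j x) := hj.sc x

theorem s_pd (x y : M) : j (SigB.pd x y) = SigB.pd (j x) (j y) := hj.pd x y

theorem s_ap (f x : M) : j (SigB.ap f x) = SigB.ap (j f) (j x) := hj.ap f x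

theorem s_rs (f a : M) : j (SigB.rs f a) = SigB.rs (j f) (j a) := hj.rs f a

theorem s_om : j SigB.om = SigB.om := hj.om

theorem s_sb {x y : M} : SigB.Sb (j x) (j y) ↔ SigB.Sb x y := hj.sb_iff

theorem s_tr {x : M} : SigB.Tr (j x) ↔ SigB.Tr x := hj.tr_iff

theorem s_ord {x : M} : SigB.Ord (j x) ↔ SigB.Ord x := hj.ord_iff

theorem s_ord_lift {α : N} (h : SigB.Ord α) : ∃ β : M, SigB.Ord β ∧ α = j β := hj.ord_lift h

theorem s_op_mem {f x y : M} : SigB.op (j x) (j y) ∈ j f ↔ SigB.op x y ∈ f := hj.op_mem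

theorem s_of_op {z : M} {a b : N} (h : j z = SigB.op a b) :
    ∃ a' b', a = j a' ∧ b = j b' ∧ z = SigB.op a' b' := hj.of_op h

theorem s_of_op_mem {f : M} {a b : N} (h : SigB.op a b ∈ j f) :
    ∃ a' b', a = j a' ∧ b = j b' ∧ SigB.op a' b' ∈ f := hj.of_op_mem h

theorem s_fn {f a : M} : SigB.Fn (j f) (j a) ↔ SigB.Fn f a := hj.fn_iff

theorem s_mem_om_lift {n : N} (h : n ∈ (SigB.om : N)) : ∃ m, m ∈ (SigB.om : M) ∧ n = j m :=
  hj.mem_om_lift h

theorem s_mem_om {n : M} : j n ∈ (SigB.om : N) ↔ n ∈ (SigB.om : M) := hj.mem_om_iff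

theorem s_mem_fs {f a b : M} : j f ∈ SigB.fs (j a) (j b) ↔ f ∈ SigB.fs a b := hj.mem_fs_iff

theorem s_real {x : M} : j x ∈ SigB.fs (SigB.om : N) SigB.om ↔ x ∈ SigB.fs (SigB.om : M) SigB.om :=
  hj.real_iff

theorem s_fn_om {f : M} : SigB.Fn (j f) (SigB.om : N) ↔ SigB.Fn f (SigB.om : M) := by
  rw [← hj.s_fn, hj.s_om]

end Pool.Agent.GL.TrEmb

namespace Pool.Agent.Sep

open Pool.Agent.SigB

variable {M : Type u} {N : Type v} [Membership M M] [Membership N N] [IsZFC M] [IsZFC N]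

theorem fn_em_iff {f : M} : Fn f (SigB.em : M) ↔ f = SigB.em := by
  constructor
  · intro h
    refine ext' fun z => ⟨fun hz => ?_, fun hz => (not_mem_em z hz).elim⟩
    obtain ⟨x, hx, -⟩ := h.1 z hz
    exact (not_mem_em x hx).elim
  · rintro rfl
    exact ⟨fun z hz => (not_mem_em z hz).elim, fun x hx => (not_mem_em x hx).elim⟩

/-- The domain of a function is determined. -/
theorem fn_dom {f a b : M} (h : Fn f a) (h' : Fn f b) : a = b := by
  have key : ∀ {a b : M}, Fn f a → Fn f b → Sb a b := by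
    intro a b h h' x hx
    obtain ⟨y, hy, -⟩ := h.2 x hx
    obtain ⟨x', hx', y', he⟩ := h'.1 _ hy
    rw [(op_inj.1 he).1]
    exact hx'
  exact Sb.antisymm (key h h') (key h' h)

/-- A function on a successor. -/
theorem fn_sc_eq {f n : M} (h : Fn f (sc n)) :
    f = un (rs f n) (pr (op n (ap f n)) (op n (ap f n))) := by
  have hn : Sb n (sc n) := fun z hz => mem_sc.2 (Or.inl hz)
  refine ext' fun z => ?_
  rw [mem_un, mem_pr, or_self]
  constructor
  · intro hz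
    obtain ⟨x, hx, rfl⟩ := h.mem_iff.1 hz
    rcases mem_sc.1 hx with hx | rfl
    · exact Or.inl (op_mem_rs.2 ⟨hz, hx⟩)
    · exact Or.inr rfl
  · rintro (hz | rfl)
    · obtain ⟨x, hx, y, rfl⟩ := (fn_rs h hn).1 z hz
      exact (op_mem_rs.1 hz).1
    · exact (h.op_mem_iff (mem_sc_self n)).2 rfl

/-- Finite sequences with values in the image of a set are in the image. -/
theorem seq_emb {j : M → N} (hj : GL.TrEmb j) (K : M) : j (Forc.Seq K) = Forc.Seq (j K) := by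
  have h1 : ∀ z : M, z ∈ Forc.Seq K ↔ j z ∈ Forc.Seq (j K) := by
    intro z
    rw [Forc.mem_Seq, Forc.mem_Seq]
    constructor
    · rintro ⟨n, hn, hz⟩
      exact ⟨j n, hj.s_mem_om.2 hn, hj.s_mem_fs.2 hz⟩
    · rintro ⟨n, hn, hz⟩
      obtain ⟨n, hn', rfl⟩ := hj.s_mem_om_lift hn
      exact ⟨n, hn', hj.s_mem_fs.1 hz⟩
  have key : ∀ n, n ∈ (om : N) → ∀ s, s ∈ fs n (j K) → s ∈ j (Forc.Seq K) := by
    refine om_ind (P := fun n => ∀ s, s ∈ fs n (j K) → s ∈ j (Forc.Seq K))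
      (by simp (maxDischargeDepth := 50)) ?_ ?_
    · intro s hs
      obtain rfl := fn_em_iff.1 (mem_fs.1 hs).1
      rw [← hj.s_em, hj.mem_iff, h1, hj.s_em, Forc.mem_Seq]
      exact ⟨_, em_mem_om, hs⟩
    · intro n hn ih s hs
      obtain ⟨n, hnM, rfl⟩ := hj.s_mem_om_lift hn
      obtain ⟨hs1, hs2⟩ := mem_fs.1 hs
      have hsb : Sb (j n) (sc (j n)) := fun z hz => mem_sc.2 (Or.inl hz)
      have h2 : rs s (j n) ∈ fs (j n) (j K) := mem_fs.2 ⟨fn_rs hs1 hsb, fun x hx => by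
        rw [ap_rs hs1 hsb hx]
        exact hs2 x (hsb x hx)⟩
      obtain ⟨t, ht, ht'⟩ := hj.tr (ih _ h2)
      obtain ⟨k, hk, hk'⟩ := hj.tr (hs2 _ (mem_sc_self _))
      have h3 : s = j (un t (pr (op n k) (op n k))) := by
        rw [fn_sc_eq hs1, hk', ht', hj.s_un, hj.s_pr, hj.s_op]
      rw [h3, hj.mem_iff, h1, ← h3, Forc.mem_Seq]
      exact ⟨_, sc_mem_om hn, hs⟩
  refine hj.eq_of h1 fun z hz => ?_
  obtain ⟨n, hn, hz⟩ := Forc.mem_Seq.1 hz
  obtain ⟨x, -, hx⟩ := hj.tr (key n hn z hz)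
  exact ⟨x, hx⟩

/-- Well-foundedness is absolute. -/
theorem wf_emb {j : M → N} (hj : GL.TrEmb j) {X r : M} : Wf (j X) (j r) ↔ Wf X r := by
  constructor
  · intro h S hS hne
    obtain ⟨x, hx⟩ := hne
    obtain ⟨m, hm, hmin⟩ := h (j S) (hj.s_sb.2 hS) ⟨j x, hj.mem_iff.2 hx⟩
    obtain ⟨m, hm', rfl⟩ := hj.tr hm
    exact ⟨m, hm', fun y hy h' => hmin (j y) (hj.mem_iff.2 hy) (hj.s_op_mem.2 h')⟩
  · intro h S hS hne
    obtain ⟨c, hc, hc'⟩ := exists_collapse h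
    obtain ⟨x, hx⟩ := hne
    have hd : DT (fun w : Fin 1 → N => ap (j c) (w 0)) := by simp (maxDischargeDepth := 50)
    obtain ⟨m, hm, hmin⟩ := IsZFC.found (im S (ap (j c))) ⟨ap (j c) x, (mem_im hd).2 ⟨x, hx, rfl⟩⟩
    obtain ⟨m, hm', rfl⟩ := (mem_im hd).1 hm
    refine ⟨m, hm', fun y hy h' => ?_⟩
    refine hmin (ap (j c) y) ?_ ((mem_im hd).2 ⟨y, hy, rfl⟩)
    obtain ⟨y, hyX, rfl⟩ := hj.tr (hS y hy)
    obtain ⟨m, hmX, rfl⟩ := hj.tr (hS m hm')
    rw [← hj.s_ap, ← hj.s_ap, hj.mem_iff]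
    exact (hc' m hmX _).2 ⟨y, hyX, hj.s_op_mem.1 h', rfl⟩

end Pool.Agent.Sep
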