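import Pool.Agent.Sep.RulA

/-!
The empty position.
-/

universe u

set_option linter.unusedSectionVars false

namespace Pool.Agent.Sep

open Pool.Agent.SigB Pool.Agent.Forc Pool.Agent.Frc

variable {M : Type u} [Membership M M] [IsZFC M]

theorem dm_em : dm (SigB.em : M) = SigB.em := by
  refine ext' fun j => ⟨fun h => ?_, fun h => (not_mem_em _ h).elim⟩
  obtain ⟨z, hz, -⟩ := mem_dm.1 h
  exact (not_mem_em _ hz).elim

/-- The empty system. -/
theorem isSys_em (K : Cst M) : IsSys K (SigB.em : M) := by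
  refine ⟨⟨fun z hz => (not_mem_em _ hz).elim, fun x hx => ?_⟩, fun x hx => ?_, ?_, fun j hj => ?_⟩
  · rw [dm_em] at hx; exact (not_mem_em _ hx).elim
  · rw [dm_em] at hx; exact (not_mem_em _ hx).elim
  · refine le_of_empty fun x hx => ?_
    rw [dm_em] at hx; exact not_mem_em _ hx
  · rw [dm_em] at hj; exact (not_mem_em _ hj).elim

/-- The empty position. -/
theorem pos_em (K : Frm M) : Pos K (SigB.em : M) SigB.em := by
  refine ⟨isSys_em K.toCst, fun l l' hl => ?_, fun x hx => (not_mem_em _ hx).elim⟩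
  rw [dm_em] at hl; exact (not_mem_em _ hl).elim

end Pool.Agent.Sep
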