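import Pool.Agent.Sep.Psi

/-!
The criterion for the two separation properties with the coding relation.
-/

universe u

set_option linter.unusedSectionVars false

namespace Pool.Agent.Sep

open Pool.Agent.SigB Pool.Agent.Forc

variable {N : Type u} [Membership N N] [IsZFC N]

theorem not_sigT_em (z : N) : ¬ SigT SigB.em z := by
  rintro ⟨y, hy, h⟩
  obtain ⟨w, -, hw⟩ := h y hy
  exact not_mem_em _ (hw SigB.em em_mem_om)

theorem hct_em : HCt (SigB.em : N) := hct_nat em_mem_om

theorem hct_one : HCt (sc SigB.em : N) := hct_nat (sc_mem_om em_mem_om)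

/-- The criterion for the two separation properties: the sets are separated by the sets of the reals
which are coded with the bit 1 at a tag `e`, and the complements are given by the bit 0. -/
theorem both_of_cod (hW : Wit N)
    (hS : ∀ S S' : N, (∀ z, z ∈ fs (om : N) om → SigT S z → ¬ SigT S' z) →
      ∃ e : N, Sb e Sq ∧
        (∀ z, z ∈ fs (om : N) om → (Cod z e (sc SigB.em) ↔ ¬ Cod z e SigB.em)) ∧
        (∀ z, z ∈ fs (om : N) om → SigT S z → Cod z e (sc SigB.em)) ∧
        ∀ z, z ∈ fs (om : N) om → SigT S' z → Cod z e SigB.em)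
    (hP : ∀ S S' : N, (∀ z, z ∈ fs (om : N) om → SigT S z ∨ SigT S' z) →
      ∃ e : N, Sb e Sq ∧
        (∀ z, z ∈ fs (om : N) om → (Cod z e (sc SigB.em) ↔ ¬ Cod z e SigB.em)) ∧
        (∀ z, z ∈ fs (om : N) om → Cod z e (sc SigB.em) → SigT S z) ∧
        ∀ z, z ∈ fs (om : N) om → Cod z e SigB.em → SigT S' z) : SigmaSep N ∧ PiSep N := by
  have hd : ∀ {z e i : N}, HCt e → HCt i → ((HCt e ∧ HCt i ∧ Cod z e i) ↔ Cod z e i) :=
    fun he hi => ⟨fun h => h.2.2, fun h => ⟨he, hi, h⟩⟩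
  refine bothSep_of (fun z e i => HCt e ∧ HCt i ∧ Cod z e i) (fun e i => ?_) (fun S S' h => ?_)
    fun S S' h => ?_
  · by_cases he : HCt e ∧ HCt i
    · obtain ⟨T, hT⟩ := exists_sigT_cod hW he.1 he.2
      exact ⟨T, fun z hz => by rw [hd he.1 he.2]; exact hT z hz⟩
    · exact ⟨SigB.em, fun z _ => ⟨fun h => (he ⟨h.1, h.2.1⟩).elim, fun h => (not_sigT_em z h).elim⟩⟩
  · obtain ⟨e, he, h1, h2, h3⟩ := hS S S' h
    have hc : HCt e := hct_Sq.sb he
    refine ⟨e, sc SigB.em, SigB.em, fun z hz => ?_, fun z hz hs => ?_, fun z hz hs => ?_⟩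
    · rw [hd hc hct_one, hd hc hct_em]; exact h1 z hz
    · rw [hd hc hct_one]; exact h2 z hz hs
    · rw [hd hc hct_em]; exact h3 z hz hs
  · obtain ⟨e, he, h1, h2, h3⟩ := hP S S' h
    have hc : HCt e := hct_Sq.sb he
    refine ⟨e, sc SigB.em, SigB.em, fun z hz => ?_, fun z hz hs => ?_, fun z hz hs => ?_⟩
    · rw [hd hc hct_one, hd hc hct_em]; exact h1 z hz
    · rw [hd hc hct_one] at hs; exact h2 z hz hs
    · rw [hd hc hct_em] at hs; exact h3 z hz hs

end Pool.Agent.Sep
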