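import Pool.Agent.Sep.Rul
import Pool.Agent.Sep.Count

/-!
# Subsystems, unions of two systems, and common reals

The order of the conditions, the restriction of conditions to a subsystem, amalgamation, the union
of two systems with the same steps at the common labels, and names with the same value over two
systems.
-/

universe u

set_option linter.unusedSectionVars false

namespace Pool.Agent.Sep

open Pool.Agent.SigB Pool.Agent.Forc Pool.Agent.Frc
open Pool.Agent.FDia (W1)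

variable {M : Type u} [Membership M M] [IsZFC M] {K : Cst M}

/-! ### The order of the conditions -/

theorem lq_refl (p : M) : Lq K p p := ⟨Sb.refl p, fun _ _ _ h h' => absurd h h'⟩

theorem lq_trans {p q r : M} (h : Lq K r q) (h' : Lq K q p) : Lq K r p := by
  refine ⟨h'.1.trans h.1, fun j u a hu hn ha => ?_⟩
  by_cases hq : nd j u ∈ q
  · exact h'.2 j u a hq hn ha
  · exact h.2 j u a hu hq (h'.1 _ ha)

theorem nd_mem_rs {p D j u : M} : nd j u ∈ rs p D ↔ nd j u ∈ p ∧ j ∈ D := op_mem_rs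

theorem pm_mem_rs {p D j a : M} : pm j a ∈ rs p D ↔ pm j a ∈ p ∧ j ∈ D := op_mem_rs

theorem mem_rs' {p D z : M} : z ∈ rs p D ↔ z ∈ p ∧ ∃ j, j ∈ D ∧ ∃ x, z = op j x :=
  mem_sp (by simp (maxDischargeDepth := 50))

theorem rs_sb (p D : M) : Sb (rs p D) p := fun _ hz => (mem_rs'.1 hz).1

/-- The restriction of a condition is weaker. -/
theorem lq_rs (p D : M) : Lq K p (rs p D) := by
  refine ⟨rs_sb p D, fun j u a hu hn ha => ?_⟩
  exact absurd (nd_mem_rs.2 ⟨hu, (pm_mem_rs.1 ha).2⟩) hn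

theorem lq_rs_mono {p q : M} (h : Lq K q p) (D : M) : Lq K (rs q D) (rs p D) := by
  refine ⟨fun z hz => ?_, fun j u a hu hn ha => ?_⟩
  · rw [mem_rs'] at hz ⊢
    exact ⟨h.1 z hz.1, hz.2⟩
  · rw [nd_mem_rs] at hu hn
    rw [pm_mem_rs] at ha
    exact h.2 j u a hu.1 (fun h1 => hn ⟨h1, hu.2⟩) ha.1

theorem rs_rs_of {p D E : M} (h : Sb E D) : rs (rs p D) E = rs p E := by
  refine ext' fun z => ?_
  rw [mem_rs', mem_rs', mem_rs']
  constructor
  · rintro ⟨⟨h1, -⟩, h2⟩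
    exact ⟨h1, h2⟩
  · rintro ⟨h1, j, hj, x, rfl⟩
    exact ⟨⟨h1, j, h j hj, x, rfl⟩, j, hj, x, rfl⟩

theorem rs_un (p q D : M) : rs (un p q) D = un (rs p D) (rs q D) := by
  refine ext' fun z => ?_
  rw [mem_rs', mem_un, mem_un, mem_rs', mem_rs']
  exact or_and_right

theorem lq_em (p : M) : Lq K p em :=
  ⟨fun z hz => absurd hz (not_mem_em z), fun _ _ _ _ _ ha => absurd ha (not_mem_em _)⟩

/-- A condition below two conditions is below their union. -/
theorem lq_un {p q s : M} (h : Lq K s p) (h' : Lq K s q) : Lq K s (un p q) := by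
  refine ⟨fun z hz => ?_, fun j u a hu hn ha => ?_⟩
  · rcases mem_un.1 hz with h1 | h1
    · exact h.1 z h1
    · exact h'.1 z h1
  · have hn1 : nd j u ∉ p := fun h1 => hn (mem_un.2 (Or.inl h1))
    have hn2 : nd j u ∉ q := fun h1 => hn (mem_un.2 (Or.inr h1))
    rcases mem_un.1 ha with h1 | h1
    · exact h.2 j u a hu hn1 h1
    · exact h'.2 j u a hu hn2 h1

/-- The union of two compatible conditions is below both of them. -/
theorem un_lq_left {p q s : M} (h : Lq K s p) (h' : Lq K s q) : Lq K (un p q) p := by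
  refine ⟨fun z hz => mem_un.2 (Or.inl hz), fun j u a hu hn ha => ?_⟩
  refine h.2 j u a ?_ hn ha
  rcases mem_un.1 hu with h1 | h1
  · exact absurd h1 hn
  · exact h'.1 _ h1

theorem un_comm' (p q : M) : un p q = un q p := ext' fun z => by
  rw [mem_un, mem_un, or_comm]

theorem un_lq_right {p q s : M} (h : Lq K s p) (h' : Lq K s q) : Lq K (un p q) q := by
  rw [un_comm']; exact un_lq_left h' h

/-! ### Conditions over a system -/

theorem px_em (X : M) : (em : M) ∈ PX K X :=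
  mem_PX.2 ⟨⟨fun z hz => absurd hz (not_mem_em z), fte_em⟩, fun z hz => absurd hz (not_mem_em z),
    fun _ _ h => absurd h (not_mem_em _)⟩

/-- Every element of a condition is an atom with a label in the system. -/
theorem px_form {X p z : M} (hp : p ∈ PX K X) (hz : z ∈ p) : ∃ j x, j ∈ dm X ∧ z = op j x := by
  have h := mem_PX.1 hp
  have h1 := h.2.1 z hz
  rcases mem_atm.1 (h.1.1 z hz) with ⟨j, u, -, -, rfl⟩ | ⟨j, a, -, -, rfl⟩
  · rw [fst_nd] at h1
    exact ⟨j, _, h1, rfl⟩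
  · rw [fst_pm] at h1
    exact ⟨j, _, h1, rfl⟩

theorem rs_eq_self {X p D : M} (hp : p ∈ PX K X) (hD : Sb (dm X) D) : rs p D = p := by
  refine ext' fun z => ⟨fun h => rs_sb _ _ z h, fun hz => ?_⟩
  obtain ⟨j, x, hj, rfl⟩ := px_form hp hz
  exact op_mem_rs.2 ⟨hz, hD j hj⟩

/-- A union which is below both of its parts is a condition. -/
theorem px_un {X p q : M} (hp : p ∈ PX K X) (hq : q ∈ PX K X) (h1 : Lq K (un p q) p)
    (h2 : Lq K (un p q) q) : un p q ∈ PX K X := by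
  rw [mem_PX] at hp hq ⊢
  refine ⟨⟨fun z hz => ?_, hp.1.2.un hq.1.2⟩, fun z hz => ?_, fun j a ha => ?_⟩
  · rcases mem_un.1 hz with h | h
    · exact hp.1.1 z h
    · exact hq.1.1 z h
  · rcases mem_un.1 hz with h | h
    · exact hp.2.1 z h
    · exact hq.2.1 z h
  · rcases mem_un.1 ha with h | h
    · obtain ⟨σ, b, h3, h4, h5⟩ := hp.2.2 j a h
      exact ⟨σ, b, h3, lq_trans (lq_rs_mono h1 _) h4, h5⟩
    · obtain ⟨σ, b, h3, h4, h5⟩ := hq.2.2 j a h
      exact ⟨σ, b, h3, lq_trans (lq_rs_mono h2 _) h4, h5⟩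

/-- The union is the greatest lower bound of two compatible conditions. -/
theorem px_glb {X p q s : M} (hp : p ∈ PX K X) (hq : q ∈ PX K X) (h : Lq K s p) (h' : Lq K s q) :
    un p q ∈ PX K X ∧ Lq K (un p q) p ∧ Lq K (un p q) q :=
  ⟨px_un hp hq (un_lq_left h h') (un_lq_right h h'), un_lq_left h h', un_lq_right h h'⟩

section sub

variable {X Y : M} (hX : Fn X (dm X)) (hY : Fn Y (dm Y)) (hXY : Sb X Y)

include hX hY hXY

/-- The conditions over `X` are the conditions over `Y` with labels in `X`. -/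
theorem px_iff {p : M} : p ∈ PX K X ↔ p ∈ PX K Y ∧ ∀ z, z ∈ p → fst z ∈ dm X := by
  have key : (∀ z, z ∈ p → fst z ∈ dm X) → (Ok K X p ↔ Ok K Y p) := by
    intro hp
    unfold Ok
    refine forall_congr' fun j => forall_congr' fun a => imp_congr_right fun hj => ?_
    have h1 : j ∈ dm X := by simpa using hp _ hj
    rw [fW_sub hX hY hXY h1, fD_sub hX hY hXY h1]
  rw [mem_PX, mem_PX]
  constructor
  · rintro ⟨h1, h2, h3⟩
    exact ⟨⟨h1, fun z hz => dm_sub hXY _ (h2 z hz), (key h2).1 h3⟩, h2⟩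
  · rintro ⟨⟨h1, -, h3⟩, h2⟩
    exact ⟨h1, h2, (key h2).2 h3⟩

theorem px_sub : Sb (PX K X) (PX K Y) := fun _ hp => ((px_iff hX hY hXY).1 hp).1

theorem nm_sub {z : M} (hz : NM K X z) : NM K Y z :=
  ⟨fun w hw => by
    obtain ⟨x, hx, p, hp, rfl⟩ := mem_pd.1 (hz.1 w hw)
    exact op_mem_pd.2 ⟨hx, px_sub hX hY hXY p hp⟩, hz.2⟩

end sub

theorem IsSys.sb_fD {X j : M} (hX : IsSys K X) (hj : j ∈ dm X) : Sb (fD X j) (dm X) :=
  (hX.cl hj).1

/-- The restriction of a condition to a subsystem is a condition. -/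
theorem px_rs {X Y p : M} (hX : IsSys K X) (hY : IsSys K Y) (hXY : Sb X Y) (hp : p ∈ PX K Y) :
    rs p (dm X) ∈ PX K X := by
  rw [mem_PX] at hp ⊢
  refine ⟨⟨(rs_sb _ _).trans hp.1.1, hp.1.2.sub (rs_sb _ _)⟩, fun z hz => ?_, fun j a ha => ?_⟩
  · obtain ⟨-, j, hj, x, rfl⟩ := mem_rs'.1 hz
    rwa [fst_op]
  · obtain ⟨ha, hj⟩ := pm_mem_rs.1 ha
    rw [rs_rs_of (hX.sb_fD hj), ← fW_sub hX.fn hY.fn hXY hj, ← fD_sub hX.fn hY.fn hXY hj]
    exact hp.2.2 j a ha

/-- Amalgamation of a condition over `Y` and a condition over the subsystem `X`. -/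
theorem px_amalg1 {X Y q r : M} (hX : IsSys K X) (hY : IsSys K Y) (hXY : Sb X Y)
    (hq : q ∈ PX K Y) (hr : r ∈ PX K X) (h : Lq K r (rs q (dm X))) :
    un q r ∈ PX K Y ∧ Lq K (un q r) q ∧ Lq K (un q r) r := by
  have hrl : ∀ j x, op j x ∈ r → j ∈ dm X := fun j x h1 => by
    simpa using (mem_PX.1 hr).2.1 _ h1
  have h1 : Lq K (un q r) q := by
    refine ⟨fun z hz => mem_un.2 (Or.inl hz), fun j u a hu hn ha => ?_⟩
    rcases mem_un.1 hu with h1 | h1
    · exact absurd h1 hn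
    · have hj := hrl j _ h1
      exact h.2 j u a h1 (fun h2 => hn (nd_mem_rs.1 h2).1) (pm_mem_rs.2 ⟨ha, hj⟩)
  have h2 : Lq K (un q r) r := by
    refine ⟨fun z hz => mem_un.2 (Or.inr hz), fun j u a hu hn ha => ?_⟩
    rcases mem_un.1 hu with h1 | h1
    · exact absurd (h.1 _ (nd_mem_rs.2 ⟨h1, hrl j _ ha⟩)) hn
    · exact absurd h1 hn
  exact ⟨px_un hq (px_sub hX.fn hY.fn hXY r hr) h1 h2, h1, h2⟩

/-! ### The union of two systems -/

section union

variable {B C : M} (hB : Fn B (dm B)) (hC : Fn C (dm C))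
  (hBC : ∀ j, j ∈ dm B → j ∈ dm C → ap B j = ap C j)

theorem dm_un (B C : M) : dm (un B C) = un (dm B) (dm C) := by
  refine ext' fun j => ?_
  rw [mem_dm, mem_un, mem_dm, mem_dm]
  constructor
  · rintro ⟨z, hz, rfl⟩
    rcases mem_un.1 hz with h | h
    · exact Or.inl ⟨z, h, rfl⟩
    · exact Or.inr ⟨z, h, rfl⟩
  · rintro (⟨z, hz, rfl⟩ | ⟨z, hz, rfl⟩)
    · exact ⟨z, mem_un.2 (Or.inl hz), rfl⟩
    · exact ⟨z, mem_un.2 (Or.inr hz), rfl⟩

include hB hC hBC

theorem fn_un : Fn (un B C) (dm (un B C)) := by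
  rw [dm_un]
  refine ⟨fun z hz => ?_, fun j hj => ?_⟩
  · rcases mem_un.1 hz with h | h
    · obtain ⟨x, hx, y, rfl⟩ := hB.1 z h
      exact ⟨x, mem_un.2 (Or.inl hx), y, rfl⟩
    · obtain ⟨x, hx, y, rfl⟩ := hC.1 z h
      exact ⟨x, mem_un.2 (Or.inr hx), y, rfl⟩
  · have h1 : ∀ y, op j y ∈ B → j ∈ dm B := fun y hy => mem_dm.2 ⟨_, hy, by simp⟩
    have h2 : ∀ y, op j y ∈ C → j ∈ dm C := fun y hy => mem_dm.2 ⟨_, hy, by simp⟩
    rcases mem_un.1 hj with h | h
    · refine ⟨ap B j, mem_un.2 (Or.inl ((hB.op_mem_iff h).2 rfl)), fun y hy => ?_⟩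
      rcases mem_un.1 hy with h3 | h3
      · exact ((hB.op_mem_iff h).1 h3).symm
      · rw [hBC j h (h2 y h3)]
        exact ((hC.op_mem_iff (h2 y h3)).1 h3).symm
    · refine ⟨ap C j, mem_un.2 (Or.inr ((hC.op_mem_iff h).2 rfl)), fun y hy => ?_⟩
      rcases mem_un.1 hy with h3 | h3
      · rw [← hBC j (h1 y h3) h]
        exact ((hB.op_mem_iff (h1 y h3)).1 h3).symm
      · exact ((hC.op_mem_iff h).1 h3).symm

end union

theorem sb_un_left (B C : M) : Sb B (un B C) := fun _ h => mem_un.2 (Or.inl h)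

theorem sb_un_right (B C : M) : Sb C (un B C) := fun _ h => mem_un.2 (Or.inr h)

/-- A step of a system remains a step in a larger function. -/
theorem IsSys.stOk_sub {X Y j : M} (hX : IsSys K X) (hY : Fn Y (dm Y)) (h : Sb X Y)
    (hj : j ∈ dm X) : StOk K Y j := by
  have hF := hX.fn
  have hD := hX.sb_fD hj
  obtain ⟨h1, h2, h3, h4, h5⟩ := hX.2.2.2 j hj
  have e : SigB.rs Y (fD X j) = SigB.rs X (fD X j) := by
    refine (rs_congr hF hY hD (hD.trans (dm_sub h)) fun x hx => ?_).symm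
    exact (ap_sub hF hY h (hD x hx)).symm
  unfold StOk
  rw [ap_sub hF hY h hj, fD_sub hF hY h hj, fW_sub hF hY h hj, fT_sub hF hY h hj, e]
  refine ⟨h1, ⟨hD.trans (dm_sub h), fun l hl => ?_⟩, h3, h4, ?_⟩
  · rw [fD_sub hF hY h (hD l hl)]
    exact h2.2 l hl
  · unfold TagOk CodeOk at h5 ⊢
    rw [fT_sub hF hY h hj, tO_sub hF hY h hj, tk_sub hF hY h hj, ta_sub hF hY h hj,
      tb_sub hF hY h hj, tg_sub hF hY h hj, tr_sub hF hY h hj, fD_sub hF hY h hj,
      fW_sub hF hY h hj, cx_sub hF hY h hj, ci_sub hF hY h hj, cg_sub hF hY h hj, e]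
    rcases h5 with h5 | h5
    · obtain ⟨g1, g2, g3, g4, g5, g6, g7, g8⟩ := h5
      refine Or.inl ⟨g1, g2, g3, g4, g5, g6, g7, fun t ht => ?_⟩
      obtain ⟨g9, g10, g11⟩ := g8 t ht
      rw [isTag_sub hF hY h (hD t g9), tr_sub hF hY h (hD t g9)]
      exact ⟨g9, g10, g11⟩
    · obtain ⟨g1, g2, g3, g4, g5, g6, g7, g8⟩ := h5
      refine Or.inr ⟨g1, g2, ?_, g4, g5, ?_, g7, g8⟩
      · rw [isTag_sub hF hY h (hD _ g2)]; exact g3
      · rw [tg_sub hF hY h (hD _ g2)]; exact g6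

/-- The union of two systems with the same steps at the common labels is a system. -/
theorem isSys_un {B C : M} (hw : W1 K.ix) (hB : IsSys K B) (hC : IsSys K C)
    (hBC : ∀ j, j ∈ dm B → j ∈ dm C → ap B j = ap C j) : IsSys K (un B C) := by
  have hF := fn_un hB.fn hC.fn hBC
  refine ⟨hF, ?_, ?_, fun j hj => ?_⟩
  · rw [dm_un]
    intro j hj
    rcases mem_un.1 hj with h | h
    · exact hB.2.1 j h
    · exact hC.2.1 j h
  · rw [dm_un]
    exact w1_le_un hw hB.2.2.1 hC.2.2.1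
  · rw [dm_un] at hj
    rcases mem_un.1 hj with h | h
    · exact hB.stOk_sub hF (sb_un_left B C) h
    · exact hC.stOk_sub hF (sb_un_right B C) h

/-- Systems over `X` with the common labels in `X` have the same steps at the common labels. -/
theorem ap_eq_of_sub {X B C : M} (hX : Fn X (dm X)) (hB : Fn B (dm B)) (hC : Fn C (dm C))
    (hXB : Sb X B) (hXC : Sb X C) (hBC : ∀ j, j ∈ dm B → j ∈ dm C → j ∈ dm X) :
    ∀ j, j ∈ dm B → j ∈ dm C → ap B j = ap C j := fun j h1 h2 => by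
  rw [ap_sub hX hB hXB (hBC j h1 h2), ap_sub hX hC hXC (hBC j h1 h2)]

/-- Amalgamation over `X` inside the union of `B` and `C`. -/
theorem px_amalg {X B C q r : M} (hX : IsSys K X) (hB : IsSys K B) (hC : IsSys K C)
    (hXB : Sb X B) (hXC : Sb X C) (hBC : ∀ j, j ∈ dm B → j ∈ dm C → j ∈ dm X)
    (hq : q ∈ PX K B) (hr : r ∈ PX K C) (h : Lq K r (rs q (dm X))) :
    un q r ∈ PX K (un B C) ∧ Lq K (un q r) q ∧ Lq K (un q r) r := by
  have hF := fn_un hB.fn hC.fn (ap_eq_of_sub hX.fn hB.fn hC.fn hXB hXC hBC)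
  have hql : ∀ j x, op j x ∈ q → j ∈ dm B := fun j x h1 => by
    simpa using (mem_PX.1 hq).2.1 _ h1
  have hrl : ∀ j x, op j x ∈ r → j ∈ dm C := fun j x h1 => by
    simpa using (mem_PX.1 hr).2.1 _ h1
  have h1 : Lq K (un q r) q := by
    refine ⟨fun z hz => mem_un.2 (Or.inl hz), fun j u a hu hn ha => ?_⟩
    rcases mem_un.1 hu with h1 | h1
    · exact absurd h1 hn
    · have hj := hBC j (hql j _ ha) (hrl j _ h1)
      exact h.2 j u a h1 (fun h2 => hn (nd_mem_rs.1 h2).1) (pm_mem_rs.2 ⟨ha, hj⟩)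
  have h2 : Lq K (un q r) r := by
    refine ⟨fun z hz => mem_un.2 (Or.inr hz), fun j u a hu hn ha => ?_⟩
    rcases mem_un.1 hu with h1 | h1
    · have hj := hBC j (hql j _ h1) (hrl j _ ha)
      exact absurd (h.1 _ (nd_mem_rs.2 ⟨h1, hj⟩)) hn
    · exact absurd h1 hn
  exact ⟨px_un (px_sub hB.fn hF (sb_un_left B C) q hq) (px_sub hC.fn hF (sb_un_right B C) r hr)
    h1 h2, h1, h2⟩

/-- A condition over the union is the union of its restrictions. -/
theorem px_split {B C q : M} (hq : q ∈ PX K (un B C)) : un (rs q (dm B)) (rs q (dm C)) = q := by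
  refine ext' fun z => ⟨fun hz => ?_, fun hz => ?_⟩
  · rcases mem_un.1 hz with h | h
    · exact rs_sb _ _ z h
    · exact rs_sb _ _ z h
  · obtain ⟨j, x, hj, rfl⟩ := px_form hq hz
    rw [dm_un] at hj
    rcases mem_un.1 hj with h | h
    · exact mem_un.2 (Or.inl (op_mem_rs.2 ⟨hz, h⟩))
    · exact mem_un.2 (Or.inr (op_mem_rs.2 ⟨hz, h⟩))

/-! ### Forcing `x ∈ z` and `z = z'` -/

theorem fm_mono {X q r x z : M} (h : FM K X q x z) (hrq : Lq K r q) : FM K X r x z :=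
  fun t ht htr => h t ht (lq_trans htr hrq)

theorem fm_dense {X q x z : M}
    (h : ∀ r, r ∈ PX K X → Lq K r q → ∃ s, s ∈ PX K X ∧ Lq K s r ∧ FM K X s x z) :
    FM K X q x z := by
  intro r hr hrq
  obtain ⟨s, hs, hsr, hf⟩ := h r hr hrq
  obtain ⟨t, ht, hts, b, hb, htb⟩ := hf s hs (lq_refl s)
  exact ⟨t, ht, lq_trans hts hsr, b, hb, htb⟩

theorem fm_of_mem {X q x z b : M} (hb : op x b ∈ z) (h : Lq K q b) : FM K X q x z :=
  fun r hr hrq => ⟨r, hr, lq_refl r, b, hb, lq_trans hrq h⟩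

/-- For a name over the subsystem `X` the forcing relation over `Y` reduces to `X`. -/
theorem fm_iff {X Y q x z : M} (hX : IsSys K X) (hY : IsSys K Y) (hXY : Sb X Y)
    (hq : q ∈ PX K Y) (hz : NM K X z) : FM K Y q x z ↔ FM K X (rs q (dm X)) x z := by
  have hb : ∀ b, op x b ∈ z → b ∈ PX K X := fun b h => (op_mem_pd.1 (hz.1 _ h)).2
  constructor
  · intro h r hr hrq
    obtain ⟨h1, h2, h3⟩ := px_amalg1 hX hY hXY hq hr hrq
    obtain ⟨s, hs, hsr, b, hbz, hsb⟩ := h _ h1 h2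
    refine ⟨rs s (dm X), px_rs hX hY hXY hs, ?_, b, hbz, ?_⟩
    · have := lq_rs_mono (lq_trans hsr h3) (dm X)
      rwa [rs_eq_self hr (Sb.refl _)] at this
    · have := lq_rs_mono hsb (dm X)
      rwa [rs_eq_self (hb b hbz) (Sb.refl _)] at this
  · intro h r hr hrq
    obtain ⟨s, hs, hsr, b, hbz, hsb⟩ := h _ (px_rs hX hY hXY hr) (lq_rs_mono hrq _)
    obtain ⟨h1, h2, h3⟩ := px_amalg1 hX hY hXY hr hs hsr
    exact ⟨_, h1, h2, b, hbz, lq_trans h3 hsb⟩

theorem fe_refl {X q z : M} : FE K X q z z := fun _ _ _ _ _ => Iff.rfl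

theorem fe_symm {X q z z' : M} (h : FE K X q z z') : FE K X q z' z :=
  fun x hx r hr hrq => (h x hx r hr hrq).symm

theorem fe_trans {X q z z' z'' : M} (h : FE K X q z z') (h' : FE K X q z' z'') :
    FE K X q z z'' := fun x hx r hr hrq => (h x hx r hr hrq).trans (h' x hx r hr hrq)

theorem fe_mono {X q r z z' : M} (h : FE K X q z z') (hrq : Lq K r q) : FE K X r z z' :=
  fun x hx t ht htr => h x hx t ht (lq_trans htr hrq)

/-- For names over the subsystem `X` forcing `z = z'` over `Y` reduces to `X`. -/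
theorem fe_iff {X Y q z z' : M} (hX : IsSys K X) (hY : IsSys K Y) (hXY : Sb X Y)
    (hq : q ∈ PX K Y) (hz : NM K X z) (hz' : NM K X z') :
    FE K Y q z z' ↔ FE K X (rs q (dm X)) z z' := by
  constructor
  · intro h x hx r hr hrq
    obtain ⟨h1, h2, h3⟩ := px_amalg1 hX hY hXY hq hr hrq
    have e : rs (un q r) (dm X) = r := by
      rw [rs_un, rs_eq_self hr (Sb.refl _)]
      refine ext' fun y => ⟨fun hy => ?_, fun hy => mem_un.2 (Or.inr hy)⟩
      rcases mem_un.1 hy with h4 | h4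
      · exact hrq.1 y h4
      · exact h4
    have h5 := h x hx _ h1 h2
    rwa [fm_iff hX hY hXY h1 hz, fm_iff hX hY hXY h1 hz', e] at h5
  · intro h x hx r hr hrq
    rw [fm_iff hX hY hXY hr hz, fm_iff hX hY hXY hr hz']
    exact h x hx _ (px_rs hX hY hXY hr) (lq_rs_mono hrq _)

theorem fe_up {X Y q z z' : M} (hX : IsSys K X) (hY : IsSys K Y) (hXY : Sb X Y)
    (hq : q ∈ PX K X) (hz : NM K X z) (hz' : NM K X z') (h : FE K X q z z') :
    FE K Y q z z' := by
  rw [fe_iff hX hY hXY (px_sub hX.fn hY.fn hXY q hq) hz hz', rs_eq_self hq (Sb.refl _)]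
  exact h

theorem fe_down {X Y q z z' : M} (hX : IsSys K X) (hY : IsSys K Y) (hXY : Sb X Y)
    (hq : q ∈ PX K Y) (hz : NM K X z) (hz' : NM K X z') (h : FE K Y q z z') :
    FE K X (rs q (dm X)) z z' := (fe_iff hX hY hXY hq hz hz').1 h

/-! ### Common reals -/

/-- If a condition over the union of two systems over `X` forces that a name over the first system
and a name over the second system have the same value, then it forces that this is the value of a
name over `X`. -/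
theorem fe_common {X B C q z z' : M} (hw : W1 K.ix) (hX : IsSys K X) (hB : IsSys K B)
    (hC : IsSys K C) (hXB : Sb X B) (hXC : Sb X C)
    (hBC : ∀ j, j ∈ dm B → j ∈ dm C → j ∈ dm X) (hq : q ∈ PX K (un B C)) (hz : NM K B z)
    (hz' : NM K C z') (h : FE K (un B C) q z z') :
    ∃ w, NM K X w ∧ FE K (un B C) q z w := by
  have hU := isSys_un hw hB hC (ap_eq_of_sub hX.fn hB.fn hC.fn hXB hXC hBC)
  have hBU := sb_un_left B C
  have hCU := sb_un_right B C
  have hXU : Sb X (un B C) := hXB.trans hBU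
  have hdX : Sb (dm X) (dm B) := dm_sub hXB
  -- the name
  let q₁ : M := rs q (dm B)
  let z₁ : M := sp z fun y => un (snd y) q₁ ∈ PX K B ∧ Lq K (un (snd y) q₁) (snd y) ∧
    Lq K (un (snd y) q₁) q₁
  have hz₁ : ∀ y, y ∈ z₁ ↔ y ∈ z ∧ un (snd y) q₁ ∈ PX K B ∧ Lq K (un (snd y) q₁) (snd y) ∧
      Lq K (un (snd y) q₁) q₁ := fun y => mem_sp (by simp (maxDischargeDepth := 50))
  have hd : DT (fun v : Fin 1 → M => op (fst (v 0)) (rs (un (snd (v 0)) q₁) (dm X))) := by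
    simp (maxDischargeDepth := 50)
  let w : M := im z₁ fun y => op (fst y) (rs (un (snd y) q₁) (dm X))
  have hw' : ∀ x c, op x c ∈ w ↔ ∃ b, op x b ∈ z ∧ un b q₁ ∈ PX K B ∧ Lq K (un b q₁) b ∧
      Lq K (un b q₁) q₁ ∧ c = rs (un b q₁) (dm X) := by
    intro x c
    rw [mem_im hd]
    constructor
    · rintro ⟨y, hy, he⟩
      obtain ⟨h1, h2, h3, h4⟩ := (hz₁ y).1 hy
      obtain ⟨x', hx', b, hb, rfl⟩ := mem_pd.1 (hz.1 y h1)
      simp only [fst_op, snd_op] at he h2 h3 h4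
      obtain ⟨rfl, rfl⟩ := op_inj.1 he
      exact ⟨b, h1, h2, h3, h4, rfl⟩
    · rintro ⟨b, h1, h2, h3, h4, rfl⟩
      refine ⟨op x b, (hz₁ _).2 ⟨h1, ?_⟩, ?_⟩
      · simp only [snd_op]
        exact ⟨h2, h3, h4⟩
      · simp only [fst_op, snd_op]
  have hwN : NM K X w := by
    refine ⟨fun y hy => ?_, ?_⟩
    · obtain ⟨y', hy', rfl⟩ := (mem_im hd).1 hy
      obtain ⟨h1, h2, -, -⟩ := (hz₁ y').1 hy'
      obtain ⟨x', hx', b, hb, rfl⟩ := mem_pd.1 (hz.1 y' h1)
      simp only [fst_op, snd_op] at h2 ⊢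
      exact op_mem_pd.2 ⟨hx', px_rs hX hB hXB h2⟩
    · refine Le.image om_ord (A := z₁) (hz.2.mono_left fun y hy => ((hz₁ y).1 hy).1) hd
        fun y hy => (mem_im hd).1 hy
  refine ⟨w, hwN, fun x hx r hr hrq => ⟨fun hf => ?_, fun hf => ?_⟩⟩
  · -- from `z` to `w`
    intro t ht htr
    obtain ⟨s, hs, hst, b, hb, hsb⟩ := hf t ht htr
    have hsq : Lq K s q₁ := lq_trans (lq_trans (lq_trans hst htr) hrq) (lq_rs _ _)
    obtain ⟨h1, h2, h3⟩ := px_glb (op_mem_pd.1 (hz.1 _ hb)).2 (px_rs hB hU hBU hq) hsb hsq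
    exact ⟨s, hs, hst, _, (hw' _ _).2 ⟨b, hb, h1, h2, h3, rfl⟩,
      lq_trans (lq_un hsb hsq) (lq_rs _ _)⟩
  · -- from `w` to `z`
    refine fm_dense fun t ht htr => ?_
    obtain ⟨s, hs, hst, c, hc, hsc⟩ := hf t ht htr
    obtain ⟨b, hb, h1, h2, h3, rfl⟩ := (hw' _ _).1 hc
    refine ⟨s, hs, hst, ?_⟩
    have hsq : Lq K s q := lq_trans (lq_trans hst htr) hrq
    -- the condition `p`
    let p : M := un b q₁
    have hsX : Lq K (rs s (dm X)) (rs p (dm X)) := by
      have := lq_rs_mono hsc (dm X)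
      rwa [rs_rs_of (Sb.refl _)] at this
    have hsC : Lq K (rs s (dm C)) (rs p (dm X)) := by
      refine lq_trans ?_ hsX
      have h4 := lq_rs (K := K) (rs s (dm C)) (dm X)
      rwa [rs_rs_of (dm_sub hXC)] at h4
    obtain ⟨g1, g2, g3⟩ := px_amalg hX hB hC hXB hXC hBC h1 (px_rs hC hU hCU hs) hsC
    have hg : Lq K (un p (rs s (dm C))) q := by
      rw [← px_split hq]
      exact lq_un (lq_trans g2 h3) (lq_trans g3 (lq_rs_mono hsq _))
    have e : rs (un p (rs s (dm C))) (dm C) = rs s (dm C) := by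
      rw [rs_un, rs_rs_of (Sb.refl _)]
      refine ext' fun y => ⟨fun hy => ?_, fun hy => mem_un.2 (Or.inr hy)⟩
      rcases mem_un.1 hy with h4 | h4
      · obtain ⟨h5, j, hj, v, rfl⟩ := mem_rs'.1 h4
        have hjB : j ∈ dm B := by simpa using (mem_PX.1 h1).2.1 _ h5
        have h6 : op j v ∈ rs p (dm X) := op_mem_rs.2 ⟨h5, hBC j hjB hj⟩
        exact hsC.1 _ h6
      · exact h4
    have hfz : FM K (un B C) (un p (rs s (dm C))) x z := fm_of_mem hb (lq_trans g2 h2)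
    have hfz' := (h x hx _ g1 hg).1 hfz
    rw [fm_iff hC hU hCU g1 hz', e, ← fm_iff hC hU hCU hs hz'] at hfz'
    exact (h x hx s hs hsq).2 hfz'

end Pool.Agent.Sep
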