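import Pool.Agent.Sep.Inst
import Pool.Agent.Sep.Uni
import Pool.Agent.Sep.LawF
import Pool.Agent.Sep.AddT
import Pool.Agent.Sep.CccX

/-!
# The laws for the coding systems of a countable model

`LawK K` lists the properties of the constants, `CopyK K` is the copy law. Together they imply all laws
of the abstract data for the frame of `K`.
-/

universe u

set_option linter.unusedSectionVars false

namespace Pool.Agent.Sep

open Pool.Agent.SigB Pool.Agent.Forc Pool.Agent.Frc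
open Pool.Agent.FDia (W1)

variable {M : Type u} [Membership M M] [IsZFC M]

/-- The properties of the constants which are used for the laws. -/
structure LawK (K : Cst M) : Prop where
  suc : Suc K.ix K.lab
  w1 : W1 K.ix
  T : Forc.Le K.T (SigB.om : M)
  ix : Forc.Le K.ix (pw (SigB.om : M))
  wh : WHyp K
  /-- second components of the hereditarily finite pairs -/
  hf2 : ∀ x y : M, op x y ∈ K.hf → y ∈ K.hf

/-- The copy law. -/
def CopyK (K : Frm M) : Prop :=
  ∀ {X B E t r a z : M}, IsSys K.toCst X → IsSys K.toCst B → IsSys K.toCst E → Sb X B →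
    Sb X E → t ∈ dm X → IsTag X t → LL K (SigB.rs X (fD X t)) (tO X t) B → r ∈ PX K.toCst B →
    NM K.toCst X a → NM K.toCst X z → K.F B r a z →
    ∃ B' r', IsSys K.toCst B' ∧ Sb X B' ∧ (∀ j, j ∈ dm B' → j ∈ dm E → j ∈ dm X) ∧
      LL K (SigB.rs X (fD X t)) (tO X t) B' ∧ r' ∈ PX K.toCst B' ∧
      SigB.rs r' (dm X) = SigB.rs r (dm X) ∧ K.F B' r' a z

theorem LawK.ccc {K : Cst M} (h : LawK K) {X : M} (hX : IsSys K X) : CCC (PX K X) (LX K X) :=
  hX.ccc h.T h.ix

theorem mem_ins_dm {X Y t : M} (h : dm Y = ins (dm X) t) (j : M) : j ∈ dm Y ↔ j = t ∨ j ∈ dm X := by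
  rw [h, mem_ins, or_comm]

variable [Countable M]

/-- **The laws of the systems of a countable model.** -/
theorem rest {K : Cst M} (h : LawK K) (hc : CopyK (frm K)) : Rest (frm K) where
  lab := h.suc.ord
  hf := h.hf2
  un_sys hX hB hC hXB hXC hBC := isSys_un h.w1 hB hC (ap_eq_of_sub hX.fn hB.fn hC.fn hXB hXC hBC)
  rs_mem hX hY hXY hq := px_rs hX hY hXY hq
  le_rs _ _ _ _ := lq_rs _ _
  rs_mono _ _ _ _ _ hle := lq_rs_mono hle _
  rs_self _ hq := rs_eq_self hq (Sb.refl _)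
  le_refl q := lq_refl q
  le_trans h1 h2 := lq_trans h1 h2
  amalg hX hB hC hXB hXC hBC hq hr hle := by
    obtain ⟨h1, h2, h3⟩ := px_amalg hX hB hC hXB hXC hBC hq hr hle
    exact ⟨_, h1, h2, h3⟩
  amalg1 hX hY hXY hq hr hle := by
    obtain ⟨h1, h2, h3⟩ := px_amalg1 hX hY hXY hq hr hle
    exact ⟨_, h1, h2, h3⟩
  fe_symm _ _ _ _ h1 := fe_symm h1
  fe_trans _ _ _ _ _ h1 h2 := fe_trans h1 h2
  fe_mono _ _ _ _ _ h1 h2 := fe_mono h1 h2
  fe_up hX hY hXY hq hz hz' h1 := fe_up hX hY hXY hq hz hz' h1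
  fe_down hX hY hXY hq hz hz' h1 := fe_down hX hY hXY hq hz hz' h1
  common hX hB hC hXB hXC hBC hq hz hz' he := by
    obtain ⟨w, h1, h2⟩ := fe_common h.w1 hX hB hC hXB hXC hBC hq hz hz' he
    exact ⟨_, hq, lq_refl _, w, h1, h2⟩
  fa_mono _ _ hr _ _ h1 h2 := fk_mono h1 hr h2
  fa_up hX hY hXY _ ha hz h1 := fk_up hX hY hXY ha hz h1
  fa_congr _ _ _ hz hz' he h1 := fk_congr hz hz' he h1
  copy := hc
  add_tag hX ho hT hg ha hb hk := by
    obtain ⟨Y, t, h1, h2, h3, h4, h5, h6, h7, -, h8, h9, h10, h11⟩ :=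
      add_tag h.suc h.wh.hf hX ho hT hk hg ha hb
    exact ⟨Y, t, h1, h2, h3, mem_ins_dm h4, h5, h6, h7, h8, h9, h10, h11⟩
  add_code {X t g z i} hX ht hT hg hle _ hi := by
    obtain ⟨Y, k, h1, h2, h3, h4, h5, h6, -, h7, h8, h9, h10⟩ :=
      add_code (z := z) h.suc h.wh hX (h.ccc hX) ht hT hg hle hi
    exact ⟨Y, k, h1, h2, h3, mem_ins_dm h4, h5, h6, h7, h8, h9, h10⟩

/-- **The laws of the abstract data.** -/
theorem laws {K : Cst M} (h : LawK K) (hc : CopyK (frm K)) : (api (frm K)).Laws :=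
  (rest h hc).laws

end Pool.Agent.Sep
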