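import Pool.Agent.Sep.EndR
import Pool.Agent.Sep.RuleC
import Pool.Agent.Sep.Lawful

/-!
The properties of a complete position which are used in the extension.
-/

universe u

set_option linter.unusedSectionVars false

namespace Pool.Agent.Sep

open Pool.Agent.SigB Pool.Agent.Forc Pool.Agent.Frc

variable {M : Type u} [Membership M M] [IsZFC M]

theorem gdS_code' {K : Frm M} {X k : M} (hX : IsSys K.toCst X) (hk : k ∈ dm X)
    (hc : IsCode X k) : gdS X k = cg X k := gdS_code ((hX.not_tag_iff hk).2 hc)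

/-- A complete position has the properties which are used in the extension. -/
theorem finSys_of {K : Frm M} (R : Rest K) {X O : M} (hX : IsSys K.toCst X)
    (hC : (api K).Complete ⟨X, hX⟩ {t | t ∈ O}) : FinSys K X O where
  sys := hX
  sub := fun t ht => ⟨hC.pos.sub ht, hC.pos.tag t ht⟩
  ncz := fun k hk _ => R.cz_mem' hX hk
  gd := fun k hk hc => PX_mono (hX.dpSys hk) hX (rs_sb_self hX.fn (hX.cl hk).1) _
    (hX.codeOk hk hc).2.2.2.2.1
  side := fun k hk hc => ci_cases hX hk hc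
  sig := fun a b q ha hb hq => by
    obtain ⟨r, hr, hrq, h⟩ := hC.sig a ha b hb q hq
    refine ⟨r, hr, hrq, ?_⟩
    rcases h with ⟨z, hz, h1, h2⟩ | ⟨t, ht, h1, h2, h3, h4⟩
    · exact Or.inl ⟨z, hz, h1, h2⟩
    · have htX : t ∈ dm X := hC.pos.sub ht
      have htt : IsTag X t := hC.pos.tag t ht
      refine Or.inr ⟨t, ht, (tk_ne hX htX htt).1 h1, h2, h3, ?_⟩
      rw [← gdS_tag htt]
      exact h4
  pi := fun a b q ha hb hq => by
    obtain ⟨r, hr, hrq, h⟩ := hC.pi a ha b hb q hq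
    refine ⟨r, hr, hrq, ?_⟩
    rcases h with ⟨z, hz, h1⟩ | ⟨t, ht, h1, h2, h3, h4⟩
    · exact Or.inl ⟨z, hz, fun s hs hsr =>
        h1 ⟨X, hX⟩ (Api.Pos.refl R.laws hC.pos).1 s hs hsr⟩
    · have htt : IsTag X t := hC.pos.tag t ht
      refine Or.inr ⟨t, ht, h1, h2, h3, ?_⟩
      rw [← gdS_tag htt]
      exact h4
  cod := fun t z q ht hz hq hqt => by
    have htt : IsTag X t := hC.pos.tag t ht
    have h0 : (api K).gd ⟨X, hX⟩ t = tg X t := gdS_tag htt
    obtain ⟨r, hr, hrq, k, hk, h1, h2⟩ := hC.code t ht z hz q hq (by rw [h0]; exact hqt)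
    obtain ⟨k1, k2, k3⟩ := at_iff.1 hk
    have h3 : (api K).gd ⟨X, hX⟩ k = cg X k := gdS_code' hX k1 k2
    rw [h3] at h1
    exact ⟨r, hr, hrq, k, k1, k2, k3, h1, h2⟩
  one := fun t k l q ht hk hl hkc hlc hkt hlt hki hli hq hqk hql => by
    refine Api.Pos.one_side R.laws hC.pos ht (at_iff.2 ⟨hk, hkc, hkt⟩) (at_iff.2 ⟨hl, hlc, hlt⟩)
      ((bit_false hX hk hkc).2 hki) (bitS_true.2 hli) hq ?_ ?_
    · show Lq K.toCst q (gdS X k)
      rw [gdS_code' hX hk hkc]
      exact hqk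
    · show Lq K.toCst q (gdS X l)
      rw [gdS_code' hX hl hlc]
      exact hql
  sig_true := fun t l q ht htk hl hlc hlt hli hq hql => by
    refine Api.Pos.sig_true R.laws hC.pos ht ?_ (at_iff.2 ⟨hl, hlc, hlt⟩) (bitS_true.2 hli) hq ?_
    · exact (tk_ne hX (hC.pos.sub ht) (hC.pos.tag t ht)).2 htk
    · show Lq K.toCst q (gdS X l)
      rw [gdS_code' hX hl hlc]
      exact hql
  sig_false := fun t k q ht htk hk hkc hkt hki hq hqk => by
    refine Api.Pos.sig_false R.laws hC.pos ht ?_ (at_iff.2 ⟨hk, hkc, hkt⟩)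
      ((bit_false hX hk hkc).2 hki) hq ?_
    · exact (tk_ne hX (hC.pos.sub ht) (hC.pos.tag t ht)).2 htk
    · show Lq K.toCst q (gdS X k)
      rw [gdS_code' hX hk hkc]
      exact hqk
  pi_false := fun t k q ht htk hk hkc hkt hki hq hqk => by
    refine Api.Pos.pi_false R.laws hC.pos ht htk (at_iff.2 ⟨hk, hkc, hkt⟩)
      ((bit_false hX hk hkc).2 hki) hq ?_
    show Lq K.toCst q (gdS X k)
    rw [gdS_code' hX hk hkc]
    exact hqk
  pi_true := fun t l q ht htk hl hlc hlt hli hq hql => by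
    refine Api.Pos.pi_true R.laws hC.pos ht htk (at_iff.2 ⟨hl, hlc, hlt⟩) (bitS_true.2 hli) hq ?_
    show Lq K.toCst q (gdS X l)
    rw [gdS_code' hX hl hlc]
    exact hql

end Pool.Agent.Sep
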