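import Pool.Agent.Sep.SeqB

/-!
The coding reals: properties of the labels and the genericity over countable sets.
-/

universe u

set_option linter.unusedSectionVars false

namespace Pool.Agent.Sep

open Pool.Agent.SigB Pool.Agent.Forc

variable {M : Type u} [Membership M M] [IsZFC M]

/-- The recursion equation. -/
theorem br_eq {a : M} (ha : Ord a) : br a = nb a (lam a br) :=
  GL.orec_eq (G := nb) nb.dt ha

/-- The property of the branches. -/
theorem br_spec (hL : GL.AllL M) {a : M} (ha : Ord a) (hc : Le a om) :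
    Gb (lam a br) a (br a) := by
  rw [br_eq ha]
  exact GL.mu_Fc hL (P := fun x => Gb (lam a br) a x) (by simp (maxDischargeDepth := 50))
    (exists_Gb hc _)

theorem ap_lam_br {a c : M} (h : c ∈ a) : ap (lam a br) c = br c :=
  ap_lam (F := br) (dt_br (DT.var 0)) h

theorem br_mem (hL : GL.AllL M) {a : M} (ha : Ord a) (hc : Le a om) : br a ∈ fs (om : M) om :=
  (br_spec hL ha hc).1

theorem lt_sb_br (hL : GL.AllL M) {a : M} (ha : Ord a) (hc : Le a om) : Sb (lt a) (br a) :=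
  (br_spec hL ha hc).2.1

theorem br_ne (hL : GL.AllL M) {a c : M} (ha : Ord a) (hc : Le a om) (h : c ∈ a) :
    br a ≠ br c := by
  have h1 := (br_spec hL ha hc).2.2.1 c h
  rwa [ap_lam_br h] at h1

theorem br_inj (hL : GL.AllL M) {a c : M} (ha : Ord a) (hac : Le a om) (hc : Ord c)
    (hcc : Le c om) (h : br a = br c) : a = c := by
  rcases ha.tri hc with h1 | h1 | h1
  · exact (br_ne hL hc hcc h1 h.symm).elim
  · exact h1
  · exact (br_ne hL ha hac h1 h).elim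

/-- The set `D` is a dense set of functions from `k` to the finite sequences. -/
def Dns (k D : M) : Prop :=
  ∀ t, t ∈ fs k (Sq : M) → ∃ d, d ∈ D ∧ d ∈ fs k (Sq : M) ∧ ∀ i, i ∈ k → Sb (ap t i) (ap d i)

theorem Dns.dfn : Dfn (fun w : Fin 2 → M => Dns (w 0) (w 1)) := by
  unfold Dns; simp (maxDischargeDepth := 50)

@[simp] theorem dfn_Dns {n : ℕ} {s t : (Fin n → M) → M} (hs : DT s) (ht : DT t) :
    Dfn (fun v => Dns (s v) (t v)) := dfn2 Dns.dfn hs ht

/-- A finite set of ordinals below `η` has a maximum. -/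
theorem exists_max {e η : M} {k : M} (hk : k ∈ (om : M)) : (∀ i, i ∈ k → Ord (ap e i)) →
    (∃ i, i ∈ k ∧ ap e i ∈ η) →
    ∃ i₁, i₁ ∈ k ∧ ap e i₁ ∈ η ∧ ∀ i, i ∈ k → ap e i ∈ η → ap e i ∈ sc (ap e i₁) := by
  refine om_ind (P := fun k => (∀ i, i ∈ k → Ord (ap e i)) → (∃ i, i ∈ k ∧ ap e i ∈ η) →
    ∃ i₁, i₁ ∈ k ∧ ap e i₁ ∈ η ∧ ∀ i, i ∈ k → ap e i ∈ η → ap e i ∈ sc (ap e i₁))
    (by simp (maxDischargeDepth := 50)) ?_ ?_ k hk
  · rintro - ⟨i, hi, -⟩
    exact (not_mem_em _ hi).elim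
  · rintro k hk ih hO hex
    have hsb : Sb k (sc k) := fun z hz => mem_sc.2 (Or.inl hz)
    by_cases h1 : ∃ i, i ∈ k ∧ ap e i ∈ η
    · obtain ⟨i₁, hi₁, h2, h3⟩ := ih (fun i hi => hO i (hsb i hi)) h1
      by_cases h4 : ap e k ∈ η
      · have hOk := hO k (mem_sc_self k)
        have hOi := hO i₁ (hsb _ hi₁)
        rcases hOk.tri hOi with h5 | h5 | h5
        · refine ⟨i₁, hsb _ hi₁, h2, fun i hi hie => ?_⟩
          rcases mem_sc.1 hi with h6 | rfl
          · exact h3 i h6 hie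
          · exact mem_sc.2 (Or.inl h5)
        · refine ⟨i₁, hsb _ hi₁, h2, fun i hi hie => ?_⟩
          rcases mem_sc.1 hi with h6 | rfl
          · exact h3 i h6 hie
          · exact mem_sc.2 (Or.inr h5)
        · refine ⟨k, mem_sc_self k, h4, fun i hi hie => ?_⟩
          rcases mem_sc.1 hi with h6 | rfl
          · refine mem_sc.2 (Or.inl ?_)
            rcases mem_sc.1 (h3 i h6 hie) with h7 | h7
            · exact hOk.trans h7 h5
            · rw [h7]; exact h5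
          · exact mem_sc_self _
      · refine ⟨i₁, hsb _ hi₁, h2, fun i hi hie => ?_⟩
        rcases mem_sc.1 hi with h6 | rfl
        · exact h3 i h6 hie
        · exact (h4 hie).elim
    · obtain ⟨i, hi, hie⟩ := hex
      have hik : i = k := by
        rcases mem_sc.1 hi with h2 | h2
        · exact (h1 ⟨i, h2, hie⟩).elim
        · exact h2
      subst hik
      refine ⟨i, mem_sc_self i, hie, fun j hj hje => ?_⟩
      rcases mem_sc.1 hj with h2 | rfl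
      · exact (h1 ⟨j, h2, hje⟩).elim
      · exact mem_sc_self _

/-- The genericity of the branches. -/
theorem meet (hL : GL.AllL M) {ξ k D e : M} (hξ : Ord ξ) (hk : k ∈ (om : M))
    (hD : D ∈ GL.XX ξ) (hdn : Dns k D)
    (he : ∀ i, i ∈ k → Ord (ap e i) ∧ Le (ap e i) om ∧ Sb ξ (ap e i))
    (hinj : ∀ i j, i ∈ k → j ∈ k → ap e i = ap e j → i = j) :
    ∃ d, d ∈ D ∧ d ∈ fs k (Sq : M) ∧ ∀ i, i ∈ k → Sb (ap d i) (br (ap e i)) := by
  classical
  have key : ∀ η : M, Ord η → ∀ t, t ∈ fs k (Sq : M) → ∃ d, d ∈ D ∧ d ∈ fs k (Sq : M) ∧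
      ∀ i, i ∈ k → (ap e i ∈ η → Sb (ap d i) (br (ap e i))) ∧
        (ap e i ∉ η → Sb (ap t i) (ap d i)) := by
    intro η hη
    refine Ord.indAll (P := fun η => ∀ t, t ∈ fs k (Sq : M) → ∃ d, d ∈ D ∧ d ∈ fs k (Sq : M) ∧
      ∀ i, i ∈ k → (ap e i ∈ η → Sb (ap d i) (br (ap e i))) ∧
        (ap e i ∉ η → Sb (ap t i) (ap d i))) (by simp (maxDischargeDepth := 50)) ?_ hη
    clear hη η
    intro η hη ih t ht
    by_cases hex : ∃ i, i ∈ k ∧ ap e i ∈ η
    · obtain ⟨i₁, hi₁, h1, hmax⟩ := exists_max hk (fun i hi => (he i hi).1) hex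
      obtain ⟨hOζ, hcζ, hξζ⟩ := he i₁ hi₁
      obtain ⟨ζ, hζ⟩ : ∃ ζ : M, ζ = ap e i₁ := ⟨_, rfl⟩
      rw [← hζ] at h1 hmax hOζ hcζ hξζ
      have hDζ : D ∈ GL.XX ζ := by
        rcases (Ord.sb_iff hξ hOζ).1 hξζ with h2 | h2
        · exact GL.XX_mono hOζ h2 D hD
        · rw [← h2]; exact hD
      have hdu : DT (fun w : Fin 1 → M => if ap e (w 0) ∈ ζ then ap e (w 0) else ζ) :=
        DT.ite (P := fun w : Fin 1 → M => ap e (w 0) ∈ ζ) (by simp (maxDischargeDepth := 50))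
          (by simp (maxDischargeDepth := 50)) (by simp)
      obtain ⟨u, hu⟩ : ∃ u : M, u = lam k fun i => if ap e i ∈ ζ then ap e i else ζ := ⟨_, rfl⟩
      have hu1 : ∀ i, i ∈ k → ap e i ∈ ζ → ap u i = ap e i := fun i hi h2 => by
        rw [hu, ap_lam hdu hi, if_pos h2]
      have hu2 : ∀ i, i ∈ k → ap e i ∉ ζ → ap u i = ζ := fun i hi h2 => by
        rw [hu, ap_lam hdu hi, if_neg h2]
      have hu3 : ∀ i, i ∈ k → (ap u i ∈ ζ ↔ ap e i ∈ ζ) := by
        intro i hi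
        by_cases h2 : ap e i ∈ ζ
        · rw [hu1 i hi h2]
        · rw [hu2 i hi h2]
          exact ⟨fun h => (not_mem_self _ h).elim, fun h => (h2 h).elim⟩
      have hufs : u ∈ fs k (sc ζ) := by
        rw [hu]
        refine lam_mem_fs hdu fun i _ => ?_
        by_cases h2 : ap e i ∈ ζ
        · simp only [if_pos h2]
          exact mem_sc.2 (Or.inl h2)
        · simp only [if_neg h2]
          exact mem_sc_self _
      have hi₁ζ : ap e i₁ ∉ ζ := by rw [← hζ]; exact not_mem_self _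
      have hIf : ∀ t', t' ∈ (Sq : M) → ∃ d, d ∈ D ∧ d ∈ fs k (Sq : M) ∧ Sb t' (ap d i₁) ∧
          Okk (lam ζ br) ζ d u t i₁ k := by
        intro t' ht'
        have hd : DT (fun w : Fin 1 → M => if w 0 = i₁ then t' else ap t (w 0)) :=
          DT.ite (P := fun w : Fin 1 → M => w 0 = i₁) (by simp) (by simp)
            (by simp (maxDischargeDepth := 50))
        obtain ⟨d, h2, h3, h4⟩ := ih ζ h1 (lam k fun i => if i = i₁ then t' else ap t i)
          (lam_mem_fs hd fun i hi => by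
            by_cases h5 : i = i₁
            · simp only [if_pos h5]; exact ht'
            · simp only [if_neg h5]; exact (mem_fs.1 ht).2 i hi)
        refine ⟨d, h2, h3, ?_, fun i hi => ⟨fun h5 => ?_, fun h5 hne => ?_⟩⟩
        · have h5 := (h4 i₁ hi₁).2 hi₁ζ
          rwa [ap_lam hd hi₁, if_pos rfl] at h5
        · have h6 := (hu3 i hi).1 h5
          rw [hu1 i hi h6, ap_lam_br h6]
          exact (h4 i hi).1 h6
        · have h6 := (h4 i hi).2 fun h => h5 ((hu3 i hi).2 h)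
          rwa [ap_lam hd hi, if_neg hne] at h6
      obtain ⟨d, h2, h3, h4, h5⟩ := (br_spec hL hOζ hcζ).2.2.2 k D u i₁ t hk hDζ hufs hi₁
        (fun h => hi₁ζ ((hu3 i₁ hi₁).1 h)) ht hIf
      refine ⟨d, h2, h3, fun i hi => ⟨fun h6 => ?_, fun h6 => ?_⟩⟩
      · rcases mem_sc.1 (hmax i hi h6) with h7 | h7
        · have h8 := (h5 i hi).1 ((hu3 i hi).2 h7)
          rwa [hu1 i hi h7, ap_lam_br h7] at h8
        · have h8 : i = i₁ := hinj i i₁ hi hi₁ (h7.trans hζ)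
          rw [h7, h8]
          exact h4
      · have h7 : i ≠ i₁ := by
          rintro rfl
          rw [← hζ] at h6
          exact h6 h1
        refine (h5 i hi).2 (fun h8 => h6 ?_) h7
        exact hη.trans ((hu3 i hi).1 h8) h1
    · obtain ⟨d, h1, h2, h3⟩ := hdn t ht
      exact ⟨d, h1, h2, fun i hi => ⟨fun h4 => (hex ⟨i, hi, h4⟩).elim, fun _ => h3 i hi⟩⟩
  have hde : DT (fun w : Fin 1 → M => ap e (w 0)) := by simp (maxDischargeDepth := 50)
  obtain ⟨β, hβ, hβe⟩ := Frc.exists_sup (a := k) hde fun i hi => (he i hi).1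
  have hdc : DT (fun _ : Fin 1 → M => (SigB.em : M)) := DT.const _
  obtain ⟨d, h1, h2, h3⟩ := key β hβ (lam k fun _ => SigB.em)
    (lam_mem_fs hdc fun _ _ => em_mem_Sq)
  exact ⟨d, h1, h2, fun i hi => (h3 i hi).1 (hβe i hi)⟩

/-- A set of tuples of finite sequences which belongs to a good countable set. -/
theorem Hull.mem_XX_of_fs {H ξ : M} (h : Hull H ξ) {k D : M} (hk : k ∈ (om : M)) (hDH : D ∈ H)
    (hD : Sb D (fs k Sq)) : D ∈ GL.XX ξ :=
  h.small D hDH fun z hz => h.adX.fs h.adX.Sq k hk z (hD z hz)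

/-- The genericity of the branches over the good countable sets. -/
theorem Hull.meet (hL : GL.AllL M) {H ξ : M} (h : Hull H ξ) {k D e : M} (hk : k ∈ (om : M))
    (hDH : D ∈ H) (hD : Sb D (fs k Sq)) (hdn : Dns k D)
    (he : ∀ i, i ∈ k → Ord (ap e i) ∧ Le (ap e i) om ∧ Sb ξ (ap e i))
    (hinj : ∀ i j, i ∈ k → j ∈ k → ap e i = ap e j → i = j) :
    ∃ d, d ∈ D ∧ d ∈ fs k (Sq : M) ∧ ∀ i, i ∈ k → Sb (ap d i) (br (ap e i)) :=
  Sep.meet hL h.ord hk (h.mem_XX_of_fs hk hDH hD) hdn he hinj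

/-! ### Labels -/

/-- The set `x` is one of the first `ω₁` constructible sets. -/
def Sml (x : M) : Prop := ∃ β, Ord β ∧ Le β om ∧ x = GL.Fc β

theorem Sml.dfn : Dfn (fun w : Fin 1 → M => Sml (w 0)) := by
  unfold Sml; simp (maxDischargeDepth := 50)

@[simp] theorem dfn_Sml {n : ℕ} {s : (Fin n → M) → M} (hs : DT s) :
    Dfn (fun v => Sml (s v)) := dfn1 Sml.dfn hs

theorem Hull.sml {H ξ x : M} (h : Hull H ξ) (hx : x ∈ GL.XX ξ) : Sml x := by
  obtain ⟨α, hα, rfl⟩ := GL.mem_XX.1 hx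
  obtain ⟨-, h1, h2⟩ := (h.mem_ξ α).1 hα
  exact ⟨α, h1, h2, rfl⟩

theorem Hull.of_sml {H ξ x : M} (h : Hull H ξ) (hx : Sml x)
    (hxH : GL.idx x ∈ H) : x ∈ GL.XX ξ := by
  obtain ⟨β, h1, h2, rfl⟩ := hx
  rw [GL.idx_Fc h1] at hxH
  exact GL.mem_XX.2 ⟨β, (h.mem_ξ β).2 ⟨hxH, h1, h2⟩, rfl⟩

/-- A good countable set containing four given sets. -/
theorem exists_hull4 (hL : GL.AllL M) (x y z w : M) :
    ∃ H ξ : M, Hull H ξ ∧ x ∈ H ∧ y ∈ H ∧ z ∈ H ∧ w ∈ H := by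
  obtain ⟨H, ξ, h1, h2, -⟩ := exists_hull hL (ι := Empty) (fun i _ _ => i.elim)
    (fun i => i.elim) (A := un (pr x y) (pr z w)) (le_om_un (le_om_pr _ _) (le_om_pr _ _))
  exact ⟨H, ξ, h1, h2 _ (by simp), h2 _ (by simp), h2 _ (by simp), h2 _ (by simp)⟩

theorem sml_HF (hL : GL.AllL M) {x : M} (hx : x ∈ (HF : M)) : Sml x := by
  obtain ⟨H, ξ, h, -⟩ := exists_hull4 hL x x x x
  exact h.sml (h.HF_sb x hx)

theorem sml_om (hL : GL.AllL M) : Sml (om : M) := by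
  obtain ⟨H, ξ, h, -⟩ := exists_hull4 hL (om : M) om om om
  exact h.sml h.om_mem

theorem Sq_sb_HF : Sb (Sq : M) HF := by
  have h : Ad (HF : M) := by
    refine ⟨mem_HF.2 ⟨SigB.em, em_mem_om, fun z hz => (not_mem_em _ hz).elim⟩, ?_⟩
    intro a b ha hb
    obtain ⟨n, hn, ha⟩ := mem_HF.1 ha
    obtain ⟨m, hm, hb⟩ := mem_HF.1 hb
    have hmn : un n m ∈ (om : M) := un_mem_om hn hm
    have hO := ord_of_mem_om hmn
    refine mem_HF.2 ⟨sc (un n m), sc_mem_om hmn, fun z hz => ?_⟩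
    rw [VV_sc hO, mem_pw]
    rcases mem_un.1 hz with h1 | h1
    · have h2 := Frc.VV_mono (ord_of_mem_om hn) hO (fun z hz => mem_un.2 (Or.inl hz)) z (ha z h1)
      exact Frc.VV_tr hO z h2
    · rw [mem_pr, or_self] at h1
      rw [h1]
      exact hb.trans (Frc.VV_mono (ord_of_mem_om hm) hO fun z hz => mem_un.2 (Or.inr hz))
  exact h.Sq

/-- All labels occur arbitrarily late. -/
theorem exists_label (hL : GL.AllL M) {b τ β₀ : M} (hb : Sml b) (hτ : τ ∈ (Sq : M))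
    (hβ : Ord β₀) (hβc : Le β₀ om) :
    ∃ a, Ord a ∧ Le a om ∧ β₀ ∈ a ∧ lb a = b ∧ lt a = τ := by
  obtain ⟨H, ξ, h, h1, h2, -⟩ := exists_hull4 hL β₀ (GL.idx b) τ τ
  obtain ⟨x, hx⟩ : ∃ x : M, x = op (op b τ) ξ := ⟨_, rfl⟩
  -- the pair is a small set
  obtain ⟨H', ξ', h', h3, h4, -⟩ := exists_hull4 hL ξ (GL.idx b) τ τ
  have hsx : Sml x := by
    rw [hx]
    refine h'.sml (h'.adX.op (h'.adX.op (h'.of_sml hb h4) (h'.adX.Sq τ hτ)) ?_)
    exact h'.mem_XX ξ ((h'.mem_ξ ξ).2 ⟨h3, h.ord, h.le_ξ⟩)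
  obtain ⟨a, ha, hac, hxa⟩ := hsx
  have hβξ : β₀ ∈ ξ := (h.mem_ξ β₀).2 ⟨h1, hβ, hβc⟩
  have haξ : a ∉ ξ := by
    intro haξ
    have h5 : x ∈ GL.XX ξ := GL.mem_XX.2 ⟨a, haξ, hxa⟩
    have htr : Tr (GL.XX ξ) := GL.tr_XX h.ord
    have h6 : pr (op b τ) ξ ∈ GL.XX ξ := htr x h5 _ (by rw [hx]; unfold op; simp)
    have h7 : ξ ∈ GL.XX ξ := htr _ h6 ξ (by simp)
    exact h.not_mem (h.XX_sb ξ h7)
  have hβa : β₀ ∈ a := ((h.ord.sb_iff ha).1 ((Ord.not_mem_iff ha h.ord).1 haξ)).elim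
    (fun h5 => ha.trans hβξ h5) fun h5 => h5 ▸ hβξ
  have hfa : fst (GL.Fc a) = op b τ := by rw [← hxa, hx, fst_op]
  refine ⟨a, ha, hac, hβa, ?_, ?_⟩
  · unfold lb
    rw [hfa, fst_op]
  · unfold lt
    rw [hfa, snd_op, if_pos hτ]

end Pool.Agent.Sep
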