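import Pool.Agent.Sep.Idx
import Pool.Agent.Sep.SeqC

/-!
# The constants of the construction

The properties of the constants which are used (`KS`) and the constants (`K0`).
-/

universe u

set_option linter.unusedSectionVars false

namespace Pool.Agent.Sep

open Pool.Agent.SigB Pool.Agent.Forc Pool.Agent.Frc
open Pool.Agent.FDia (W1)

variable {M : Type u} [Membership M M] [IsZFC M]

/-- The promise to avoid the branch `a` is allowed for the words with the decision `(y, e)`: such a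
word is not in the closed set given by the label of `a`. -/
def Kl (a y e : M) : Prop :=
  ∀ c d, lb a = op c d → Sb c HF → (y ∈ c ∧ e = SigB.em) ∨ (y ∈ d ∧ e = sc SigB.em)

theorem Kl.dfn : Dfn (fun w : Fin 3 → M => Kl (w 0) (w 1) (w 2)) := by
  unfold Kl; simp (maxDischargeDepth := 50)

@[simp] theorem dfn_Kl {n : ℕ} {s t r : (Fin n → M) → M} (hs : DT s) (ht : DT t) (hr : DT r) :
    Dfn (fun v => Kl (s v) (t v) (r v)) := dfn3 Kl.dfn hs ht hr

/-- The index of a branch through the node `u` for which the promise is always allowed. -/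
noncomputable def pif (u : M) : M := Frc.mu fun a => Forc.Le a om ∧ lb a = SigB.em ∧ lt a = u

theorem pif.dt : DT (fun w : Fin 1 → M => pif (w 0)) := by
  unfold pif
  exact Frc.dt_mu (P := fun (w : Fin 1 → M) a => Forc.Le a om ∧ lb a = SigB.em ∧ lt a = w 0)
    (by simp (maxDischargeDepth := 50))

@[simp] theorem dt_pif {n : ℕ} {s : (Fin n → M) → M} (hs : DT s) : DT (fun v => pif (s v)) :=
  dt1 pif.dt hs

/-- The properties of the constants. -/
structure KS (K : Cst M) : Prop where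
  T : K.T = Sq
  hf : K.hf = HF
  w1 : W1 K.ix
  on : ∀ u a, op u a ∈ K.on ↔ u ∈ (Sq : M) ∧ a ∈ K.ix ∧ Sb u (br a)
  kl : ∀ a y e, op a (op y e) ∈ K.kl ↔ a ∈ K.ix ∧ y ∈ (HF : M) ∧ e ∈ sc (sc (SigB.em : M)) ∧ Kl a y e
  pi : ∀ u, u ∈ (Sq : M) → ap K.pi u ∈ K.ix ∧ lb (ap K.pi u) = SigB.em ∧ lt (ap K.pi u) = u

/-- The constants, where `w₁` is the set of the indices and `w₂` the set of the labels. -/
noncomputable def K0 (w₁ w₂ : M) : Cst M where
  lab := w₂
  ix := w₁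
  T := Sq
  hf := HF
  on := sp (pd Sq w₁) fun z => Sb (fst z) (br (snd z))
  kl := sp (pd w₁ (pd HF (sc (sc SigB.em)))) fun z => Kl (fst z) (fst (snd z)) (snd (snd z))
  pi := lam Sq pif

theorem pif_spec (hL : GL.AllL M) {u : M} (hu : u ∈ (Sq : M)) :
    Ord (pif u) ∧ Forc.Le (pif u) om ∧ lb (pif u) = SigB.em ∧ lt (pif u) = u := by
  obtain ⟨a, h1, h2, -, h3, h4⟩ := exists_label hL (b := (SigB.em : M)) (τ := u) (β₀ := (SigB.em : M))
    (sml_HF hL (mem_HF.2 ⟨SigB.em, em_mem_om, fun z hz => (not_mem_em _ hz).elim⟩)) hu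
    (ord_of_mem_om em_mem_om) (le_of_empty fun z hz => (not_mem_em _ hz).elim)
  exact (Frc.mu_spec (P := fun a => Forc.Le a om ∧ lb a = SigB.em ∧ lt a = u)
    (by simp (maxDischargeDepth := 50)) ⟨a, h1, h2, h3, h4⟩).imp id fun h => h.1

theorem ks_K0 (hL : GL.AllL M) {w₁ w₂ : M} (hw : W1 w₁) : KS (K0 w₁ w₂) where
  T := rfl
  hf := rfl
  w1 := hw
  on := fun u a => by
    show op u a ∈ sp (pd Sq w₁) (fun z => Sb (fst z) (br (snd z))) ↔ _
    rw [mem_sp (by simp (maxDischargeDepth := 50)), op_mem_pd, fst_op, snd_op, and_assoc]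
    rfl
  kl := fun a y e => by
    show op a (op y e) ∈ sp (pd w₁ (pd HF (sc (sc SigB.em))))
      (fun z => Kl (fst z) (fst (snd z)) (snd (snd z))) ↔ _
    rw [mem_sp (by simp (maxDischargeDepth := 50)), op_mem_pd, op_mem_pd, fst_op, snd_op, fst_op,
      snd_op, and_assoc, and_assoc]
    rfl
  pi := fun u hu => by
    obtain ⟨h1, h2, h3, h4⟩ := pif_spec hL hu
    have h : ap (K0 w₁ w₂).pi u = pif u := ap_lam (F := pif) (by simp) hu
    rw [h]
    exact ⟨(hw.mem _ h1).2 h2, h3, h4⟩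

namespace KS

variable {K : Cst M} (hK : KS K)

include hK

theorem mem_ix {a : M} : a ∈ K.ix ↔ Ord a ∧ Forc.Le a om :=
  ⟨fun h => ⟨hK.w1.ord.mem h, (hK.w1.mem a (hK.w1.ord.mem h)).1 h⟩,
    fun h => (hK.w1.mem a h.1).2 h.2⟩

theorem on_pi (hL : GL.AllL M) {u : M} (hu : u ∈ (Sq : M)) : op u (ap K.pi u) ∈ K.on := by
  obtain ⟨h1, -, h2⟩ := hK.pi u hu
  obtain ⟨h3, h4⟩ := hK.mem_ix.1 h1
  have h5 := lt_sb_br hL h3 h4
  rw [h2] at h5
  exact (hK.on _ _).2 ⟨hu, h1, h5⟩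

theorem kl_pi {u y e : M} (hu : u ∈ (Sq : M)) (hy : y ∈ (HF : M)) (he : e ∈ sc (sc (SigB.em : M))) :
    op (ap K.pi u) (op y e) ∈ K.kl := by
  obtain ⟨h1, h2, -⟩ := hK.pi u hu
  refine (hK.kl _ _ _).2 ⟨h1, hy, he, fun c d h => ?_⟩
  rw [h2] at h
  exact (not_mem_em (pr c c) (h ▸ by unfold SigB.op; simp)).elim

end KS

/-- A word `w` is not in the set given by the label of `a` if and only if the promise `a` is allowed
by a decision which is right for `w`. -/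
theorem kl_iff {a w : M} (hw : Sb w HF) :
    (¬ ∃ c d, lb a = op c d ∧ Sb c w ∧ ∀ x, x ∈ d → x ∉ w) ↔
      ∃ y, y ∈ (HF : M) ∧ ((y ∈ w ∧ Kl a y (sc SigB.em)) ∨ (y ∉ w ∧ Kl a y SigB.em)) := by
  classical
  have hem : (SigB.em : M) ∈ (HF : M) :=
    mem_HF.2 ⟨SigB.em, em_mem_om, fun z hz => (not_mem_em _ hz).elim⟩
  constructor
  · intro h
    by_cases h1 : ∃ c d, lb a = op c d ∧ Sb c HF
    · obtain ⟨c, d, h2, h3⟩ := h1
      by_cases h4 : Sb c w
      · by_cases h5 : ∀ x, x ∈ d → x ∉ w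
        · exact absurd ⟨c, d, h2, h4, h5⟩ h
        · push Not at h5
          obtain ⟨x, h6, h7⟩ := h5
          refine ⟨x, hw x h7, Or.inl ⟨h7, fun c' d' h8 _ => ?_⟩⟩
          obtain ⟨rfl, rfl⟩ := op_inj.1 (h8.symm.trans h2)
          exact Or.inr ⟨h6, rfl⟩
      · have h5 : ∃ x, x ∈ c ∧ x ∉ w := by
          by_contra hcon
          push Not at hcon
          exact h4 hcon
        obtain ⟨x, h6, h7⟩ := h5
        refine ⟨x, h3 x h6, Or.inr ⟨h7, fun c' d' h8 _ => ?_⟩⟩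
        obtain ⟨rfl, rfl⟩ := op_inj.1 (h8.symm.trans h2)
        exact Or.inl ⟨h6, rfl⟩
    · have h2 : ∀ e : M, Kl a SigB.em e := fun e c d h3 h4 => absurd ⟨c, d, h3, h4⟩ h1
      by_cases h3 : (SigB.em : M) ∈ w
      · exact ⟨SigB.em, hem, Or.inl ⟨h3, h2 _⟩⟩
      · exact ⟨SigB.em, hem, Or.inr ⟨h3, h2 _⟩⟩
  · rintro ⟨y, -, h⟩ ⟨c, d, h1, h2, h3⟩
    rcases h with ⟨h4, h5⟩ | ⟨h4, h5⟩
    · rcases h5 c d h1 (h2.trans hw) with ⟨-, h6⟩ | ⟨h6, -⟩
      · exact sc_ne_em _ h6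
      · exact h3 y h6 h4
    · rcases h5 c d h1 (h2.trans hw) with ⟨h6, -⟩ | ⟨-, h6⟩
      · exact h4 (h2 y h6)
      · exact sc_ne_em _ h6.symm

end Pool.Agent.Sep
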