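import Pool.Agent.Sep.CccX
import Pool.Agent.Sep.Rul
import Pool.Agent.Sep.Codes
import Pool.Agent.Sep.Kst

/-!
# The generic reals: the conditions

Adding nodes and promises to the conditions of a system, deciding the words, and fresh nodes.
-/

universe u

set_option linter.unusedSectionVars false

namespace Pool.Agent.Sep

open Pool.Agent.SigB Pool.Agent.Frc Pool.Agent.Forc

variable {M : Type u} [Membership M M] [IsZFC M] {K : Cst M} {X : M}

namespace GR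

/-! ### The order -/

theorem lq_refl (K : Cst M) (p : M) : Lq K p p := ⟨Sb.refl p, fun _ _ _ h h' => absurd h h'⟩

theorem lq_trans {p q r : M} (h : Lq K r q) (h' : Lq K q p) : Lq K r p := by
  refine ⟨h'.1.trans h.1, fun k u a hu hn ha => ?_⟩
  by_cases hq : nd k u ∈ q
  · exact h'.2 k u a hq hn ha
  · exact h.2 k u a hu hq (h'.1 _ ha)

theorem lq_em (K : Cst M) (p : M) : Lq K p SigB.em :=
  ⟨fun _ hz => (not_mem_em _ hz).elim, fun _ _ _ _ _ h => (not_mem_em _ h).elim⟩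

theorem mem_rs' {f D z : M} : z ∈ rs f D ↔ z ∈ f ∧ ∃ x, x ∈ D ∧ ∃ y, z = op x y := by
  unfold rs
  exact mem_sp (by simp (maxDischargeDepth := 50))

theorem rs_sb (f D : M) : Sb (rs f D) f := fun _ hz => (mem_rs'.1 hz).1

theorem nd_mem_rs {p D j u : M} : nd j u ∈ rs p D ↔ nd j u ∈ p ∧ j ∈ D := op_mem_rs

theorem pm_mem_rs {p D j a : M} : pm j a ∈ rs p D ↔ pm j a ∈ p ∧ j ∈ D := op_mem_rs

theorem lq_rs {p q : M} (h : Lq K q p) (D : M) : Lq K (rs q D) (rs p D) := by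
  refine ⟨fun z hz => ?_, fun k u a hu hn ha => ?_⟩
  · rw [mem_rs'] at hz ⊢
    exact ⟨h.1 z hz.1, hz.2⟩
  · have h1 := nd_mem_rs.1 hu
    have h3 := pm_mem_rs.1 ha
    exact h.2 k u a h1.1 (fun h4 => hn (nd_mem_rs.2 ⟨h4, h1.2⟩)) h3.1

/-- The condition is closed under extensions which keep the promises. -/
theorem ok_of_lq {p q : M} (hp : Ok K X p) (h : Lq K q p) {j a : M} (ha : pm j a ∈ p) :
    ∃ σ b, op σ b ∈ fW X j ∧ Lq K (rs q (fD X j)) b ∧ op a σ ∈ K.kl := by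
  obtain ⟨σ, b, h1, h2, h3⟩ := hp j a ha
  exact ⟨σ, b, h1, lq_trans (lq_rs h _) h2, h3⟩

/-! ### Adding one atom -/

/-- A new node may be added if it is not on a branch which is promised to be avoided. -/
theorem ins_nd {p j v : M} (hp : p ∈ PX K X) (hjl : j ∈ K.lab) (hj : j ∈ dm X) (hv : v ∈ K.T)
    (h : ∀ a, pm j a ∈ p → op v a ∉ K.on) :
    ins p (nd j v) ∈ PX K X ∧ Lq K (ins p (nd j v)) p := by
  obtain ⟨⟨h1, h2⟩, h3, h4⟩ := mem_PX.1 hp
  have hle : Lq K (ins p (nd j v)) p := by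
    refine ⟨sb_ins _ _, fun k w a hw hn ha => ?_⟩
    rcases mem_ins.1 hw with h5 | h5
    · exact absurd h5 hn
    · obtain ⟨rfl, rfl⟩ := nd_inj.1 h5
      exact h a ha
  refine ⟨mem_PX.2 ⟨⟨fun z hz => ?_, h2.ins _⟩, fun z hz => ?_, fun k a ha => ?_⟩, hle⟩
  · rcases mem_ins.1 hz with h5 | rfl
    · exact h1 z h5
    · exact mem_atm.2 (Or.inl ⟨j, v, hjl, hv, rfl⟩)
  · rcases mem_ins.1 hz with h5 | rfl
    · exact h3 z h5
    · rw [fst_nd]; exact hj
  · rcases mem_ins.1 ha with h5 | h5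
    · exact ok_of_lq h4 hle h5
    · exact absurd h5.symm nd_ne_pm

/-- A promise may be added if it is allowed by a decision of the word. -/
theorem ins_pm {p j a σ b : M} (hp : p ∈ PX K X) (hjl : j ∈ K.lab) (hj : j ∈ dm X)
    (ha : a ∈ K.ix) (hσ : op σ b ∈ fW X j) (hb : Lq K (rs p (fD X j)) b) (hk : op a σ ∈ K.kl) :
    ins p (pm j a) ∈ PX K X ∧ Lq K (ins p (pm j a)) p := by
  obtain ⟨⟨h1, h2⟩, h3, h4⟩ := mem_PX.1 hp
  have hle : Lq K (ins p (pm j a)) p := by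
    refine ⟨sb_ins _ _, fun k w a' hw hn _ => ?_⟩
    rcases mem_ins.1 hw with h5 | h5
    · exact absurd h5 hn
    · exact absurd h5 nd_ne_pm
  refine ⟨mem_PX.2 ⟨⟨fun z hz => ?_, h2.ins _⟩, fun z hz => ?_, fun k a' ha' => ?_⟩, hle⟩
  · rcases mem_ins.1 hz with h5 | rfl
    · exact h1 z h5
    · exact mem_atm.2 (Or.inr ⟨j, a, hjl, ha, rfl⟩)
  · rcases mem_ins.1 hz with h5 | rfl
    · exact h3 z h5
    · rw [fst_pm]; exact hj
  · rcases mem_ins.1 ha' with h5 | h5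
    · exact ok_of_lq h4 hle h5
    · obtain ⟨rfl, rfl⟩ := pm_inj.1 h5
      exact ⟨σ, b, hσ, lq_trans (lq_rs hle _) hb, hk⟩

/-! ### Amalgamation -/

theorem rs_PX {p D : M} (hX : IsSys K X) (hD : Cl X D) (hp : p ∈ PX K X) :
    rs p D ∈ PX K (rs X D) := by
  obtain ⟨⟨h1, h2⟩, h3, h4⟩ := mem_PX.1 hp
  refine mem_PX.2 ⟨⟨fun z hz => h1 z (rs_sb _ _ z hz), h2.sub (rs_sb _ _)⟩, fun z hz => ?_,
    fun j a ha => ?_⟩
  · obtain ⟨h5, x, hx, y, rfl⟩ := mem_rs'.1 hz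
    rw [dm_rs hX.fn hD.1, fst_op]
    exact hx
  · obtain ⟨h5, h6⟩ := pm_mem_rs.1 ha
    obtain ⟨σ, b, h7, h8, h9⟩ := h4 j a h5
    rw [fW_rs hX.fn hD.1 h6, fD_rs hX.fn hD.1 h6]
    refine ⟨σ, b, h7, ?_, h9⟩
    have h10 : rs (rs p D) (fD X j) = rs p (fD X j) := ext' fun z => by
      rw [mem_rs', mem_rs', mem_rs']
      constructor
      · rintro ⟨⟨h11, -⟩, h12⟩
        exact ⟨h11, h12⟩
      · rintro ⟨h11, x, hx, y, rfl⟩
        exact ⟨⟨h11, x, hD.2 j h6 x hx, y, rfl⟩, x, hx, y, rfl⟩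
    rw [h10]
    exact h8

theorem PX_of_rs {p D : M} (hX : IsSys K X) (hD : Cl X D) (hp : p ∈ PX K (rs X D)) :
    p ∈ PX K X := by
  obtain ⟨h1, h3, h4⟩ := mem_PX.1 hp
  have hd : ∀ z, z ∈ p → fst z ∈ D := fun z hz => by
    have := h3 z hz
    rwa [dm_rs hX.fn hD.1] at this
  refine mem_PX.2 ⟨h1, fun z hz => hD.1 _ (hd z hz), fun j a ha => ?_⟩
  have hj : j ∈ D := by
    have := hd _ ha
    rwa [fst_pm] at this
  have h5 := h4 j a ha
  rwa [fW_rs hX.fn hD.1 hj, fD_rs hX.fn hD.1 hj] at h5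

theorem dm_of_PX {p D : M} (hX : IsSys K X) (hD : Cl X D) (hp : p ∈ PX K (rs X D)) {x y : M}
    (h : op x y ∈ p) : x ∈ D := by
  have := (mem_PX.1 hp).2.1 _ h
  rwa [dm_rs hX.fn hD.1, fst_op] at this

/-- A condition and an extension of its restriction to a closed set are compatible. -/
theorem amalg1 {p s D : M} (hX : IsSys K X) (hD : Cl X D) (hp : p ∈ PX K X)
    (hs : s ∈ PX K (rs X D)) (hle : Lq K s (rs p D)) :
    un p s ∈ PX K X ∧ Lq K (un p s) p ∧ rs (un p s) D = s := by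
  obtain ⟨⟨h1, h2⟩, h3, h4⟩ := mem_PX.1 hp
  have hs' := PX_of_rs hX hD hs
  obtain ⟨⟨k1, k2⟩, k3, k4⟩ := mem_PX.1 hs'
  have hrs : rs (un p s) D = s := ext' fun z => by
    rw [mem_rs', mem_un]
    constructor
    · rintro ⟨h | h, x, hx, y, rfl⟩
      · exact hle.1 _ (mem_rs'.2 ⟨h, x, hx, y, rfl⟩)
      · exact h
    · intro h
      refine ⟨Or.inr h, ?_⟩
      rcases mem_atm.1 (k1 z h) with ⟨j, v, -, -, rfl⟩ | ⟨j, a, -, -, rfl⟩
      · exact ⟨j, dm_of_PX hX hD hs h, _, rfl⟩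
      · exact ⟨j, dm_of_PX hX hD hs h, _, rfl⟩
  have hle' : Lq K (un p s) p := by
    refine ⟨fun z hz => mem_un.2 (Or.inl hz), fun k v a hv hn ha => ?_⟩
    have h5 : nd k v ∈ s := (mem_un.1 hv).resolve_left hn
    have hk : k ∈ D := dm_of_PX hX hD hs h5
    exact hle.2 k v a h5 (fun h6 => hn (nd_mem_rs.1 h6).1) (pm_mem_rs.2 ⟨ha, hk⟩)
  refine ⟨mem_PX.2 ⟨⟨fun z hz => (mem_un.1 hz).elim (h1 z) (k1 z), h2.un k2⟩,
    fun z hz => (mem_un.1 hz).elim (h3 z) (k3 z), fun j a ha => ?_⟩, hle', hrs⟩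
  rcases mem_un.1 ha with h5 | h5
  · exact ok_of_lq h4 hle' h5
  · obtain ⟨σ, b, h6, h7, h8⟩ := k4 j a h5
    have hj : j ∈ D := dm_of_PX hX hD hs h5
    refine ⟨σ, b, h6, ?_, h8⟩
    have h9 : rs (un p s) (fD X j) = rs s (fD X j) := by
      have h10 : rs (rs (un p s) D) (fD X j) = rs (un p s) (fD X j) := ext' fun z => by
        rw [mem_rs', mem_rs', mem_rs']
        constructor
        · rintro ⟨⟨h11, -⟩, h12⟩
          exact ⟨h11, h12⟩
        · rintro ⟨h11, x, hx, y, rfl⟩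
          exact ⟨⟨h11, x, hD.2 j hj x hx, y, rfl⟩, x, hx, y, rfl⟩
      rw [← h10, hrs]
    rw [h9]
    exact h7

/-! ### Deciding the word -/

/-- Below the guard the word may be decided. -/
theorem decide {p j y : M} (hX : IsSys K X) (hj : j ∈ dm X) (hp : p ∈ PX K X) {g : M}
    (hT : Tot K (rs X (fD X j)) (fW X j) g) (hg : Lq K (rs p (fD X j)) g) (hy : y ∈ K.hf) :
    ∃ q, q ∈ PX K X ∧ Lq K q p ∧ ∃ e b, op (op y e) b ∈ fW X j ∧ Lq K (rs q (fD X j)) b := by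
  have hD := hX.cl hj
  obtain ⟨s, h1, h2, e, b, h3, h4⟩ := hT _ (rs_PX hX hD hp) hg y hy
  obtain ⟨h5, h6, h7⟩ := amalg1 hX hD hp h1 h2
  exact ⟨_, h5, h6, e, b, h3, by rw [h7]; exact h4⟩

/-! ### Nodes -/

/-- Finitely many branches different from the branch `a` are split from it at a bounded level. -/
theorem exists_level (hK : KS K) (hL : GL.AllL M) {a : M} (ha : a ∈ K.ix) {x : M} (hx : Fte x)
    (hxs : Sb x K.ix) : ∃ n, n ∈ (SigB.om : M) ∧ ∀ c, c ∈ x → c ≠ a →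
      ∃ k, k ∈ n ∧ ap (br a) k ≠ ap (br c) k := by
  have key : ∀ x : M, Fte x → (Sb x K.ix → ∃ n, n ∈ (SigB.om : M) ∧ ∀ c, c ∈ x → c ≠ a →
      ∃ k, k ∈ n ∧ ap (br a) k ≠ ap (br c) k) := by
    intro x hx
    refine fte_ind (P := fun x => Sb x K.ix → ∃ n, n ∈ (SigB.om : M) ∧ ∀ c, c ∈ x → c ≠ a →
      ∃ k, k ∈ n ∧ ap (br a) k ≠ ap (br c) k) (by simp (maxDischargeDepth := 50)) ?_ ?_ hx
    · exact fun _ => ⟨SigB.em, em_mem_om, fun c hc => (not_mem_em _ hc).elim⟩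
    · intro x c _ _ ih hs
      obtain ⟨n, hn, h1⟩ := ih ((sb_ins _ _).trans hs)
      have hc : c ∈ K.ix := hs _ (mem_ins.2 (Or.inr rfl))
      by_cases hca : c = a
      · refine ⟨n, hn, fun c' hc' hne => ?_⟩
        rcases mem_ins.1 hc' with h2 | rfl
        · exact h1 c' h2 hne
        · exact absurd hca hne
      · obtain ⟨hao, hac⟩ := hK.mem_ix.1 ha
        obtain ⟨hco, hcc⟩ := hK.mem_ix.1 hc
        have h2 : ∃ k, k ∈ (SigB.om : M) ∧ ap (br a) k ≠ ap (br c) k := by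
          by_contra hno
          push Not at hno
          refine hca (br_inj hL hco hcc hao hac ?_)
          exact ((mem_fs.1 (br_mem hL hco hcc)).1.ext (mem_fs.1 (br_mem hL hao hac)).1
            fun k hk => (hno k hk).symm)
        obtain ⟨k, hk, hne⟩ := h2
        refine ⟨un n (sc k), un_mem_om hn (sc_mem_om hk), fun c' hc' hne' => ?_⟩
        rcases mem_ins.1 hc' with h3 | rfl
        · obtain ⟨k', hk', h4⟩ := h1 c' h3 hne'
          exact ⟨k', mem_un.2 (Or.inl hk'), h4⟩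
        · exact ⟨k, mem_un.2 (Or.inr (mem_sc_self k)), hne⟩
  exact key x hx hxs

/-- There is a long node on the branch `a` which is on no other promised branch. -/
theorem exists_node (hK : KS K) (hL : GL.AllL M) {p j a m : M} (hp : p ∈ PX K X)
    (ha : a ∈ K.ix) (hna : pm j a ∉ p) (hm : m ∈ (SigB.om : M)) :
    ∃ v n, v ∈ (Sq : M) ∧ op v a ∈ K.on ∧ n ∈ (SigB.om : M) ∧ m ∈ n ∧ Fn v n ∧
      ∀ c, pm j c ∈ p → op v c ∉ K.on := by
  obtain ⟨⟨h1, h2⟩, -⟩ := mem_PX.1 hp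
  obtain ⟨hao, hac⟩ := hK.mem_ix.1 ha
  have hd : DT (fun w : Fin 1 → M => snd (snd (w 0))) := by simp (maxDischargeDepth := 50)
  have hx : Fte (sp (im p fun z => snd (snd z)) fun c => pm j c ∈ p) :=
    (h2.im hd).sp (by simp (maxDischargeDepth := 50))
  have hxm : ∀ c, c ∈ sp (im p fun z => snd (snd z)) (fun c => pm j c ∈ p) ↔ pm j c ∈ p := by
    intro c
    rw [mem_sp (by simp (maxDischargeDepth := 50)), mem_im hd]
    refine ⟨fun h => h.2, fun h => ⟨⟨_, h, ?_⟩, h⟩⟩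
    unfold pm
    rw [snd_op, snd_op]
  obtain ⟨n, hn, h3⟩ := exists_level hK hL ha hx (fun c hc => by
    rcases mem_atm.1 (h1 _ ((hxm c).1 hc)) with ⟨_, _, _, _, h⟩ | ⟨_, _, _, h4, h⟩
    · exact absurd h.symm nd_ne_pm
    · rw [(pm_inj.1 h).2]; exact h4)
  have hN : sc (un n m) ∈ (SigB.om : M) := sc_mem_om (un_mem_om hn hm)
  have hsN : Sb (sc (un n m)) (SigB.om : M) := om_ord.sb hN
  have hbr := br_mem hL hao hac
  have hv : rs (br a) (sc (un n m)) ∈ fs (sc (un n m)) (SigB.om : M) :=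
    mem_fs.2 ⟨fn_rs (mem_fs.1 hbr).1 hsN, fun i hi => by
      rw [ap_rs (mem_fs.1 hbr).1 hsN hi]
      exact (mem_fs.1 hbr).2 i (hsN i hi)⟩
  have hon : ∀ c, op (rs (br a) (sc (un n m))) c ∈ K.on ↔
      c ∈ K.ix ∧ Sb (rs (br a) (sc (un n m))) (br c) := by
    intro c
    rw [hK.on]
    exact ⟨fun h => h.2, fun h => ⟨mem_Sq.2 ⟨_, hN, hv⟩, h⟩⟩
  have hsub : ∀ i, i ∈ n → i ∈ sc (un n m) := fun i hi =>
    mem_sc.2 (Or.inl (mem_un.2 (Or.inl hi)))
  refine ⟨rs (br a) (sc (un n m)), sc (un n m), mem_Sq.2 ⟨_, hN, hv⟩,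
    (hon a).2 ⟨ha, rs_sb _ _⟩, hN, ?_, (mem_fs.1 hv).1, fun c hc hcon => ?_⟩
  · exact (Ord.mem_sc_iff (ord_of_mem_om hm) (ord_of_mem_om (un_mem_om hn hm))).2
      fun z hz => mem_un.2 (Or.inr hz)
  · obtain ⟨hcx, hsb⟩ := (hon c).1 hcon
    have hne : c ≠ a := by
      rintro rfl
      exact hna hc
    obtain ⟨hco, hcc⟩ := hK.mem_ix.1 hcx
    obtain ⟨k, hk, h4⟩ := h3 c ((hxm c).2 hc) hne
    have hko : k ∈ (SigB.om : M) := om_ord.trans hk hn
    have h5 : op k (ap (br a) k) ∈ br c :=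
      hsb _ (op_mem_rs.2 ⟨((mem_fs.1 hbr).1.op_mem_iff hko).2 rfl, hsub k hk⟩)
    exact h4 (((mem_fs.1 (br_mem hL hco hcc)).1.op_mem_iff hko).1 h5).symm

/-- There is a node which does not occur in the condition and which is on no promised branch. -/
theorem exists_fresh (hK : KS K) (hL : GL.AllL M) {p : M} (hp : p ∈ PX K X) :
    ∃ v, v ∈ (Sq : M) ∧ (∀ i, nd i v ∉ p) ∧ ∀ i c, pm i c ∈ p → op v c ∉ K.on := by
  obtain ⟨⟨h1, h2⟩, -⟩ := mem_PX.1 hp
  have hd1 : DT (fun w : Fin 1 → M => ap (br (snd (snd (w 0)))) (SigB.em : M)) := by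
    simp (maxDischargeDepth := 50)
  have hd2 : DT (fun w : Fin 1 → M => ap (snd (snd (w 0))) (SigB.em : M)) := by
    simp (maxDischargeDepth := 50)
  have hS : Fte (un (im p fun z => ap (br (snd (snd z))) (SigB.em : M))
      (im p fun z => ap (snd (snd z)) (SigB.em : M))) := (h2.im hd1).un (h2.im hd2)
  obtain ⟨m, hm, hb⟩ := fte_bdd (hS.sp (P := fun k => k ∈ (SigB.om : M)) (by simp))
    (fun z hz => ((mem_sp (by simp)).1 hz).2)
  have hb' : ∀ k, k ∈ (SigB.om : M) → k ∈ (un (im p fun z => ap (br (snd (snd z))) (SigB.em : M))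
      (im p fun z => ap (snd (snd z)) (SigB.em : M))) → k ∈ m := fun k h3 h4 =>
    hb k ((mem_sp (by simp)).2 ⟨h4, h3⟩)
  have hdc : DT (fun _ : Fin 1 → M => m) := by simp
  have hv : lam (sc SigB.em) (fun _ : M => m) ∈ fs (sc SigB.em) (SigB.om : M) :=
    lam_mem_fs hdc fun _ _ => hm
  have hvm : op SigB.em m ∈ lam (sc SigB.em) (fun _ : M => m) :=
    (op_mem_lam hdc).2 ⟨mem_sc_self _, rfl⟩
  have hap : ap (lam (sc SigB.em) (fun _ : M => m)) SigB.em = m := ap_lam hdc (mem_sc_self _)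
  refine ⟨lam (sc SigB.em) (fun _ : M => m), mem_Sq.2 ⟨_, sc_mem_om em_mem_om, hv⟩,
    fun i hi => ?_, fun i c hc hon => ?_⟩
  · refine not_mem_self m (hb' m hm (mem_un.2 (Or.inr ((mem_im hd2).2 ⟨_, hi, ?_⟩))))
    unfold nd
    rw [snd_op, snd_op, hap]
  · obtain ⟨-, hcx, hsb⟩ := (hK.on _ _).1 hon
    obtain ⟨hco, hcc⟩ := hK.mem_ix.1 hcx
    have h3 : ap (br c) SigB.em = m :=
      ((mem_fs.1 (br_mem hL hco hcc)).1.op_mem_iff em_mem_om).1 (hsb _ hvm)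
    refine not_mem_self m (hb' m hm (mem_un.2 (Or.inl ((mem_im hd1).2 ⟨_, hc, ?_⟩))))
    unfold pm
    rw [snd_op, snd_op, h3]

/-- The nodes which occur in a condition have bounded lengths. -/
theorem nodes_bdd {p : M} (hp : Fte p) : ∃ m, m ∈ (SigB.om : M) ∧ ∀ j v n, nd j v ∈ p →
    n ∈ (SigB.om : M) → Fn v n → n ∈ m := by
  have hd : DT (fun w : Fin 1 → M => im (snd (snd (w 0))) fst) := by
    simp (maxDischargeDepth := 50)
  obtain ⟨m, hm, hb⟩ := fte_bdd ((hp.im (F := fun z => im (snd (snd z)) fst) hd).sp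
    (P := fun k => k ∈ (SigB.om : M)) (by simp)) (fun z hz => ((mem_sp (by simp)).1 hz).2)
  refine ⟨m, hm, fun j v n hv hn hf => hb n ((mem_sp (by simp)).2 ⟨(mem_im hd).2 ⟨_, hv, ?_⟩, hn⟩)⟩
  unfold nd
  rw [snd_op, snd_op]
  exact (dm_of_fn hf).symm

end GR

/-! ### The name of the real and the name of the word of a step -/

/-- The name of the real which is added at the step `j`. -/
noncomputable def rN (K : Cst M) (j : M) : M := im K.T fun v => op v (pr (nd j v) (nd j v))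

theorem rN.dt (K : Cst M) : DT (fun w : Fin 1 → M => rN K (w 0)) := by
  unfold rN; simp (maxDischargeDepth := 50)

@[simp] theorem dt_rN (K : Cst M) {n : ℕ} {s : (Fin n → M) → M} (hs : DT s) :
    DT (fun v => rN K (s v)) := dt1 (rN.dt K) hs

theorem op_mem_rN {j v b : M} : op v b ∈ rN K j ↔ v ∈ K.T ∧ b = pr (nd j v) (nd j v) := by
  unfold rN
  rw [mem_im (by simp (maxDischargeDepth := 50))]
  constructor
  · rintro ⟨v', hv, h⟩
    obtain ⟨rfl, rfl⟩ := op_inj.1 h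
    exact ⟨hv, rfl⟩
  · rintro ⟨hv, rfl⟩
    exact ⟨v, hv, rfl⟩

theorem single_PX {j v : M} (hjl : j ∈ K.lab) (hj : j ∈ dm X) (hv : v ∈ K.T) :
    pr (nd j v) (nd j v) ∈ PX K X := by
  refine mem_PX.2 ⟨⟨fun z hz => ?_, fte_single _⟩, fun z hz => ?_, fun k a ha => ?_⟩
  · rw [mem_pr, or_self] at hz
    exact mem_atm.2 (Or.inl ⟨j, v, hjl, hv, hz⟩)
  · rw [mem_pr, or_self] at hz
    rw [hz, fst_nd]
    exact hj
  · rw [mem_pr, or_self] at ha
    exact absurd ha.symm nd_ne_pm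

theorem IsSys.lab {j : M} (hX : IsSys K X) (hj : j ∈ dm X) : j ∈ K.lab := hX.2.1 j hj

theorem rN_sb (hK : KS K) (hX : IsSys K X) {j : M} (hj : j ∈ dm X) :
    Sb (rN K j) (pd K.hf (PX K X)) := by
  intro z hz
  unfold rN at hz
  obtain ⟨v, hv, rfl⟩ := (mem_im (by simp (maxDischargeDepth := 50))).1 hz
  refine op_mem_pd.2 ⟨?_, single_PX (hX.lab hj) hj hv⟩
  rw [hK.hf]
  rw [hK.T] at hv
  exact Sq_sb_HF v hv

theorem nm_rN (hK : KS K) (hX : IsSys K X) {j : M} (hj : j ∈ dm X) : NM K X (rN K j) := by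
  refine ⟨rN_sb hK hX hj, ?_⟩
  have hT : Forc.Le K.T (SigB.om : M) := by rw [hK.T]; exact le_Sq
  have hd : DT (fun w : Fin 1 → M => op (w 0) (pr (nd j (w 0)) (nd j (w 0)))) := by
    simp (maxDischargeDepth := 50)
  exact hT.image om_ord hd fun y hy => (mem_im hd).1 hy

/-- The name of the word of the step `j`. -/
noncomputable def wN (X j : M) : M :=
  im (sp (fW X j) fun w => ∃ y b, w = op (op y (sc SigB.em)) b) fun w => op (fst (fst w)) (snd w)

theorem wN.dt : DT (fun w : Fin 2 → M => wN (w 0) (w 1)) := by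
  unfold wN; simp (maxDischargeDepth := 50)

@[simp] theorem dt_wN {n : ℕ} {s t : (Fin n → M) → M} (hs : DT s) (ht : DT t) :
    DT (fun v => wN (s v) (t v)) := dt2 wN.dt hs ht

theorem op_mem_wN {j y b : M} : op y b ∈ wN X j ↔ op (op y (sc SigB.em)) b ∈ fW X j := by
  unfold wN
  rw [mem_im (by simp (maxDischargeDepth := 50))]
  constructor
  · rintro ⟨w, hw, h⟩
    rw [mem_sp (by simp (maxDischargeDepth := 50))] at hw
    obtain ⟨h1, y', b', rfl⟩ := hw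
    simp only [fst_op, snd_op] at h
    obtain ⟨rfl, rfl⟩ := op_inj.1 h
    exact h1
  · intro h
    exact ⟨_, (mem_sp (by simp (maxDischargeDepth := 50))).2 ⟨h, y, b, rfl⟩, by simp⟩

theorem IsSys.wOk {j : M} (hX : IsSys K X) (hj : j ∈ dm X) :
    WOk K (SigB.rs X (fD X j)) (fW X j) :=
  (hX.2.2.2 j hj).2.2.2.1

theorem nm_wN (hX : IsSys K X) {j : M} (hj : j ∈ dm X) : NM K X (wN X j) := by
  have hW := hX.wOk hj
  refine ⟨fun z hz => ?_, ?_⟩
  · unfold wN at hz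
    obtain ⟨w, hw, rfl⟩ := (mem_im (by simp (maxDischargeDepth := 50))).1 hz
    obtain ⟨h1, y, b, rfl⟩ := (mem_sp (by simp (maxDischargeDepth := 50))).1 hw
    obtain ⟨y', e, b', h2, -, h3, h4⟩ := hW.2.1 _ h1
    obtain ⟨h5, rfl⟩ := op_inj.1 h4
    obtain ⟨rfl, -⟩ := op_inj.1 h5
    rw [fst_op, fst_op, snd_op]
    exact op_mem_pd.2 ⟨h2, GR.PX_of_rs hX (hX.cl hj) h3⟩
  · have hd : DT (fun w : Fin 1 → M => op (fst (fst (w 0))) (snd (w 0))) := by
      simp (maxDischargeDepth := 50)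
    have h1 : Forc.Le (sp (fW X j) fun w => ∃ y b, w = op (op y (sc SigB.em)) b) (SigB.om : M) :=
      hW.1.mono_left fun z hz => ((mem_sp (by simp (maxDischargeDepth := 50))).1 hz).1
    exact h1.image om_ord hd fun y hy => (mem_im hd).1 hy

end Pool.Agent.Sep
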