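import Pool.Agent.Sep.Rul
import Pool.Agent.Sep.Kst
import Pool.Agent.Sep.Nice
import Pool.Agent.Sep.GenR

/-!
# The real added at a step is not the real of another step and not a real of a subsystem
-/

universe u

set_option linter.unusedSectionVars false

namespace Pool.Agent.Sep.GenN

open Pool.Agent.SigB Pool.Agent.Frc Pool.Agent.Forc Pool.Agent.Sep

variable {M : Type u} [Membership M M] [IsZFC M] {K : Cst M}

/-! ### The order -/

theorem lq_refl (p : M) : Lq K p p := ⟨Sb.refl p, fun _ _ _ h h' => absurd h h'⟩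

theorem lq_trans {p q r : M} (h : Lq K r q) (h' : Lq K q p) : Lq K r p := by
  refine ⟨h'.1.trans h.1, fun k u a hu hn ha => ?_⟩
  by_cases hq : nd k u ∈ q
  · exact h'.2 k u a hq hn ha
  · exact h.2 k u a hu hq (h'.1 _ ha)

theorem mem_rs {f D z : M} : z ∈ rs f D ↔ z ∈ f ∧ ∃ x, x ∈ D ∧ ∃ y, z = op x y := by
  unfold rs
  exact mem_sp (by simp (maxDischargeDepth := 50))

theorem nd_mem_rs {p D j u : M} : nd j u ∈ rs p D ↔ nd j u ∈ p ∧ j ∈ D := op_mem_rs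

theorem pm_mem_rs {p D j a : M} : pm j a ∈ rs p D ↔ pm j a ∈ p ∧ j ∈ D := op_mem_rs

theorem rs_sb {p D : M} : Sb (rs p D) p := fun _ h => (mem_rs.1 h).1

theorem lq_rs {p q : M} (h : Lq K q p) (D : M) : Lq K (rs q D) (rs p D) := by
  refine ⟨fun z hz => ?_, fun k u a hu hn ha => ?_⟩
  · rw [mem_rs] at hz ⊢
    exact ⟨h.1 z hz.1, hz.2⟩
  · have h1 := nd_mem_rs.1 hu
    have h3 := pm_mem_rs.1 ha
    exact h.2 k u a h1.1 (fun h4 => hn (nd_mem_rs.2 ⟨h4, h1.2⟩)) h3.1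

theorem lq_rs_self (p D : M) : Lq K p (rs p D) :=
  ⟨rs_sb, fun _ _ _ h h' ha => absurd (nd_mem_rs.2 ⟨h, (pm_mem_rs.1 ha).2⟩) h'⟩

theorem lq_em (p : M) : Lq K p em := ⟨fun _ h => (not_mem_em _ h).elim,
  fun _ _ _ _ _ h => (not_mem_em _ h).elim⟩

/-! ### Conditions -/

variable {X : M}

theorem atom_of_mem {p z : M} (hp : p ∈ PX K X) (hz : z ∈ p) :
    (∃ j u, j ∈ dm X ∧ j ∈ K.lab ∧ u ∈ K.T ∧ z = nd j u) ∨
      ∃ j a, j ∈ dm X ∧ j ∈ K.lab ∧ a ∈ K.ix ∧ z = pm j a := by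
  obtain ⟨⟨h1, -⟩, h2, -⟩ := mem_PX.1 hp
  have h3 := h2 z hz
  rcases mem_atm.1 (h1 z hz) with ⟨j, u, h4, h5, rfl⟩ | ⟨j, a, h4, h5, rfl⟩
  · rw [fst_nd] at h3
    exact Or.inl ⟨j, u, h3, h4, h5, rfl⟩
  · rw [fst_pm] at h3
    exact Or.inr ⟨j, a, h3, h4, h5, rfl⟩

theorem lab_nd {p j u : M} (hp : p ∈ PX K X) (h : nd j u ∈ p) : j ∈ dm X := by
  have := (mem_PX.1 hp).2.1 _ h
  rwa [fst_nd] at this

theorem lab_pm {p j a : M} (hp : p ∈ PX K X) (h : pm j a ∈ p) : j ∈ dm X := by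
  have := (mem_PX.1 hp).2.1 _ h
  rwa [fst_pm] at this

theorem px_up (hX : IsSys K X) {D r : M} (hD : Cl X D) (hr : r ∈ PX K (rs X D)) :
    r ∈ PX K X := by
  have hdm : dm (rs X D) = D := dm_rs hX.fn hD.1
  obtain ⟨h1, h2, h3⟩ := mem_PX.1 hr
  rw [hdm] at h2
  refine mem_PX.2 ⟨h1, fun z hz => hD.1 _ (h2 z hz), fun j a hj => ?_⟩
  have hjD : j ∈ D := by
    have := h2 _ hj
    rwa [fst_pm] at this
  obtain ⟨σ, b, h4, h5, h6⟩ := h3 j a hj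
  rw [fW_rs hX.fn hD.1 hjD] at h4
  rw [fD_rs hX.fn hD.1 hjD] at h5
  exact ⟨σ, b, h4, h5, h6⟩

theorem px_rs (hX : IsSys K X) {D p : M} (hD : Cl X D) (hp : p ∈ PX K X) :
    rs p D ∈ PX K (rs X D) := by
  have hdm : dm (rs X D) = D := dm_rs hX.fn hD.1
  obtain ⟨⟨h1, h0⟩, h2, h3⟩ := mem_PX.1 hp
  refine mem_PX.2 ⟨⟨rs_sb.trans h1, h0.sub rs_sb⟩, fun z hz => ?_, fun j a hj => ?_⟩
  · rw [hdm]
    obtain ⟨-, x, hx, y, rfl⟩ := mem_rs.1 hz
    rwa [fst_op]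
  · obtain ⟨hj1, hjD⟩ := pm_mem_rs.1 hj
    obtain ⟨σ, b, h4, h5, h6⟩ := h3 j a hj1
    rw [fW_rs hX.fn hD.1 hjD, fD_rs hX.fn hD.1 hjD]
    refine ⟨σ, b, h4, ?_, h6⟩
    have h7 : rs (rs p D) (fD X j) = rs p (fD X j) := by
      refine ext' fun z => ?_
      rw [mem_rs, mem_rs, mem_rs]
      constructor
      · rintro ⟨⟨h8, -⟩, h9⟩
        exact ⟨h8, h9⟩
      · rintro ⟨h8, x, hx, y, rfl⟩
        exact ⟨⟨h8, x, hD.2 j hjD x hx, y, rfl⟩, x, hx, y, rfl⟩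
    rwa [h7]

/-- Amalgamation. -/
theorem amalg (hX : IsSys K X) {D p r : M} (hD : Cl X D) (hp : p ∈ PX K X)
    (hr : r ∈ PX K (rs X D)) (h : Lq K r (rs p D)) :
    un p r ∈ PX K X ∧ Lq K (un p r) p ∧ Lq K (un p r) r := by
  have hdm : dm (rs X D) = D := dm_rs hX.fn hD.1
  have hr' := px_up hX hD hr
  have hlabn : ∀ j u, nd j u ∈ r → j ∈ D := fun j u hj => by
    have := lab_nd hr hj
    rwa [hdm] at this
  have hlabp : ∀ j u, pm j u ∈ r → j ∈ D := fun j u hj => by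
    have := lab_pm hr hj
    rwa [hdm] at this
  have h1 : Lq K (un p r) p := by
    refine ⟨fun z hz => mem_un.2 (Or.inl hz), fun j u a hj hn ha => ?_⟩
    have hj' := (mem_un.1 hj).resolve_left hn
    exact h.2 j u a hj' (fun h4 => hn (nd_mem_rs.1 h4).1) (pm_mem_rs.2 ⟨ha, hlabn j u hj'⟩)
  have h2 : Lq K (un p r) r := by
    refine ⟨fun z hz => mem_un.2 (Or.inr hz), fun j u a hj hn ha => ?_⟩
    have hj' := (mem_un.1 hj).resolve_right hn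
    exact absurd (h.1 _ (nd_mem_rs.2 ⟨hj', hlabp j a ha⟩)) hn
  refine ⟨mem_PX.2 ⟨⟨fun z hz => ?_, (mem_PX.1 hp).1.2.un (mem_PX.1 hr').1.2⟩, fun z hz => ?_,
    fun j a hj => ?_⟩, h1, h2⟩
  · rcases mem_un.1 hz with hz | hz
    · exact (mem_PX.1 hp).1.1 z hz
    · exact (mem_PX.1 hr').1.1 z hz
  · rcases mem_un.1 hz with hz | hz
    · exact (mem_PX.1 hp).2.1 z hz
    · exact (mem_PX.1 hr').2.1 z hz
  · rcases mem_un.1 hj with hj | hj
    · obtain ⟨σ, b, h4, h5, h6⟩ := (mem_PX.1 hp).2.2 j a hj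
      exact ⟨σ, b, h4, lq_trans (lq_rs h1 _) h5, h6⟩
    · obtain ⟨σ, b, h4, h5, h6⟩ := (mem_PX.1 hr').2.2 j a hj
      exact ⟨σ, b, h4, lq_trans (lq_rs h2 _) h5, h6⟩

/-- Add an atom. -/
theorem add {p z : M} (hp : p ∈ PX K X) (hz : z ∈ atm K) (hz' : fst z ∈ dm X)
    (h : Lq K (ins p z) p)
    (hok : ∀ j a, z = pm j a → ∃ σ b, op σ b ∈ fW X j ∧ Lq K (rs p (fD X j)) b ∧ op a σ ∈ K.kl) :
    ins p z ∈ PX K X := by
  obtain ⟨⟨h1, h0⟩, h2, h3⟩ := mem_PX.1 hp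
  refine mem_PX.2 ⟨⟨fun y hy => ?_, h0.ins z⟩, fun y hy => ?_, fun j a hj => ?_⟩
  · rcases mem_ins.1 hy with hy | rfl
    · exact h1 y hy
    · exact hz
  · rcases mem_ins.1 hy with hy | rfl
    · exact h2 y hy
    · exact hz'
  · rcases mem_ins.1 hj with hj | hj
    · obtain ⟨σ, b, h4, h5, h6⟩ := h3 j a hj
      exact ⟨σ, b, h4, lq_trans (lq_rs h _) h5, h6⟩
    · obtain ⟨σ, b, h4, h5, h6⟩ := hok j a hj.symm
      exact ⟨σ, b, h4, lq_trans (lq_rs h _) h5, h6⟩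

theorem add_nd {p j u : M} (hX : IsSys K X) (hp : p ∈ PX K X) (hj : j ∈ dm X) (hu : u ∈ K.T)
    (h : ∀ a, pm j a ∈ p → op u a ∉ K.on) :
    ins p (nd j u) ∈ PX K X ∧ Lq K (ins p (nd j u)) p := by
  have h1 : Lq K (ins p (nd j u)) p := by
    refine ⟨sb_ins _ _, fun k v a hk hn ha => ?_⟩
    obtain ⟨rfl, rfl⟩ := nd_inj.1 ((mem_ins.1 hk).resolve_left hn)
    exact h a ha
  refine ⟨add hp (mem_atm.2 (Or.inl ⟨j, u, hX.2.1 j hj, hu, rfl⟩)) ?_ h1 fun k a he =>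
    (nd_ne_pm he).elim, h1⟩
  rwa [fst_nd]

theorem add_pm {p j a σ b : M} (hX : IsSys K X) (hp : p ∈ PX K X) (hj : j ∈ dm X)
    (ha : a ∈ K.ix) (h1 : op σ b ∈ fW X j) (h2 : Lq K (rs p (fD X j)) b) (h3 : op a σ ∈ K.kl) :
    ins p (pm j a) ∈ PX K X ∧ Lq K (ins p (pm j a)) p := by
  have h4 : Lq K (ins p (pm j a)) p := by
    refine ⟨sb_ins _ _, fun k v c hk hn _ => ?_⟩
    exact (nd_ne_pm ((mem_ins.1 hk).resolve_left hn)).elim
  refine ⟨add hp (mem_atm.2 (Or.inr ⟨j, a, hX.2.1 j hj, ha, rfl⟩)) ?_ h4 fun k c he => ?_, h4⟩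
  · rwa [fst_pm]
  · obtain ⟨rfl, rfl⟩ := pm_inj.1 he
    exact ⟨σ, b, h1, h2, h3⟩

/-- Below its guard the word of a step can be decided. -/
theorem decide (hK : KS K) (hX : IsSys K X) {p j : M} (hp : p ∈ PX K X) (hj : j ∈ dm X)
    (hg : IsTag X j ∨ Lq K p (cg X j)) :
    ∃ q, q ∈ PX K X ∧ Lq K q p ∧ ∃ y e b, y ∈ (HF : M) ∧ e ∈ sc (sc (em : M)) ∧
      op (op y e) b ∈ fW X j ∧ Lq K (rs q (fD X j)) b := by
  have hem : (em : M) ∈ (HF : M) :=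
    mem_HF.2 ⟨em, em_mem_om, fun z hz => (not_mem_em _ hz).elim⟩
  rcases hX.tag_or_code hj with ht | hc
  · obtain ⟨-, h2, -⟩ := hX.tagOk hj ht
    refine ⟨p, hp, lq_refl p, em, em, em, hem, ?_, ?_, lq_em _⟩
    · exact mem_sc.2 (Or.inl (mem_sc.2 (Or.inr rfl)))
    · rw [h2, mem_W0]
      exact ⟨em, by rw [hK.hf]; exact hem, rfl⟩
  · have hg' : Lq K p (cg X j) := by
      rcases hg with h | h
      · exact (not_code_of_tag h hc).elim
      · exact h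
    have hC := hX.codeOk hj hc
    obtain ⟨-, -, -, -, h5, -, h7, h8⟩ := hC
    have hD := hX.cl hj
    have h9 := px_rs hX hD hp
    have h10 : Lq K (rs p (fD X j)) (cg X j) := by
      have h11 := lq_rs hg' (fD X j)
      have h12 : rs (cg X j) (fD X j) = cg X j := by
        refine ext' fun z => ⟨fun h => rs_sb z h, fun h => mem_rs.2 ⟨h, ?_⟩⟩
        have hdm : dm (rs X (fD X j)) = fD X j := dm_rs hX.fn hD.1
        rcases atom_of_mem h5 h with ⟨k, u, hk, -, -, rfl⟩ | ⟨k, a, hk, -, -, rfl⟩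
        · rw [hdm] at hk
          exact ⟨k, hk, _, rfl⟩
        · rw [hdm] at hk
          exact ⟨k, hk, _, rfl⟩
      rwa [h12] at h11
    obtain ⟨s, hs, hs', e, b, h13, h14⟩ := h7 _ h9 h10 em (by rw [hK.hf]; exact hem)
    obtain ⟨h15, h16, h17⟩ := amalg hX hD hp hs hs'
    refine ⟨_, h15, h16, em, e, b, hem, ?_, h13, ?_⟩
    · have hW : WOk K (rs X (fD X j)) (fW X j) := (hX.2.2.2 j hj).2.2.2.1
      obtain ⟨y', e', b', -, he', -, heq⟩ := hW.2.1 _ h13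
      obtain ⟨h18, -⟩ := op_inj.1 heq
      obtain ⟨-, rfl⟩ := op_inj.1 h18
      exact he'
    · refine lq_trans ?_ h14
      refine lq_trans (lq_rs h17 _) ?_
      have hdm : dm (rs X (fD X j)) = fD X j := dm_rs hX.fn hD.1
      have h12 : rs s (fD X j) = s := by
        refine ext' fun z => ⟨fun h => rs_sb z h, fun h => mem_rs.2 ⟨h, ?_⟩⟩
        rcases atom_of_mem hs h with ⟨k, u, hk, -, -, rfl⟩ | ⟨k, a, hk, -, -, rfl⟩
        · rw [hdm] at hk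
          exact ⟨k, hk, _, rfl⟩
        · rw [hdm] at hk
          exact ⟨k, hk, _, rfl⟩
      rw [h12]
      exact lq_refl s

/-- Extend a condition by a promise which keeps the node `u` out of the real of the step `j`. -/
theorem keep_out (hK : KS K) (hL : GL.AllL M) (hX : IsSys K X) {p j u : M} (hp : p ∈ PX K X)
    (hj : j ∈ dm X) (hu : u ∈ K.T) {y e b : M} (hy : y ∈ (HF : M))
    (he : e ∈ sc (sc (em : M))) (h1 : op (op y e) b ∈ fW X j) (h2 : Lq K (rs p (fD X j)) b)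
    (hn : nd j u ∉ p) :
    ins p (pm j (ap K.pi u)) ∈ PX K X ∧ Lq K (ins p (pm j (ap K.pi u))) p ∧
      ∀ r, Lq K r (ins p (pm j (ap K.pi u))) → nd j u ∉ r := by
  have hu' : u ∈ (Sq : M) := by rw [← hK.T]; exact hu
  obtain ⟨h3, h4⟩ := add_pm hX hp hj (hK.pi u hu').1 h1 h2 (hK.kl_pi hu' hy he)
  refine ⟨h3, h4, fun r hr h5 => ?_⟩
  refine hr.2 j u (ap K.pi u) h5 (fun h6 => ?_) (mem_ins.2 (Or.inr rfl)) (hK.on_pi hL hu')
  rcases mem_ins.1 h6 with h6 | h6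
  · exact hn h6
  · exact nd_ne_pm h6

/-! ### Names of the reals -/

theorem single_mem (hX : IsSys K X) {j u : M} (hj : j ∈ dm X) (hu : u ∈ K.T) :
    pr (nd j u) (nd j u) ∈ PX K X := by
  refine mem_PX.2 ⟨⟨fun z hz => ?_, fte_single _⟩, fun z hz => ?_, fun k a hk => ?_⟩
  · rw [mem_pr, or_self] at hz
    subst hz
    exact mem_atm.2 (Or.inl ⟨j, u, hX.2.1 j hj, hu, rfl⟩)
  · rw [mem_pr, or_self] at hz
    subst hz
    rwa [fst_nd]
  · rw [mem_pr, or_self] at hk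
    exact (nd_ne_pm hk.symm).elim

theorem lq_single {s j u : M} (h : nd j u ∈ s) : Lq K s (pr (nd j u) (nd j u)) := by
  refine ⟨fun z hz => ?_, fun k v a _ _ h2 => ?_⟩
  · rw [mem_pr, or_self] at hz
    rwa [hz]
  · rw [mem_pr, or_self] at h2
    exact (nd_ne_pm h2.symm).elim

theorem rN_sbT (hX : IsSys K X) {j : M} (hj : j ∈ dm X) : Sb (rN K j) (pd K.T (PX K X)) := by
  intro z hz
  unfold rN at hz
  rw [mem_im (by simp (maxDischargeDepth := 50))] at hz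
  obtain ⟨u, hu, rfl⟩ := hz
  exact op_mem_pd.2 ⟨hu, single_mem hX hj hu⟩

section ext

variable {G : M → Prop} {N : Type u} [Membership N N] {val : M → N}

theorem mem_rN (hX : IsSys K X) (hE : Ext (PX K X) (LX K X) em G val) {j u : M} (hj : j ∈ dm X)
    (hu : u ∈ K.T) : val (ck em u) ∈ val (nm em (rN K j)) ↔ G (pr (nd j u) (nd j u)) := by
  rw [hE.cv_mem_val_nm (rN_sbT hX hj)]
  constructor
  · rintro ⟨p, hp, h⟩
    rw [op_mem_rN] at h
    rwa [← h.2]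
  · exact fun h => ⟨_, h, op_mem_rN.2 ⟨hu, rfl⟩⟩

theorem gen_up (hE : Ext (PX K X) (LX K X) em G val) {s b : M} (hs : G s) (hb : b ∈ PX K X)
    (h : Lq K s b) : G b :=
  hE.gen.up _ _ hs (op_mem_LX.2 ⟨⟨hE.gen.mem _ hs, hb⟩, h⟩)

theorem gen_dir (hE : Ext (PX K X) (LX K X) em G val) {s t : M} (hs : G s) (ht : G t) :
    ∃ r, G r ∧ Lq K r s ∧ Lq K r t := by
  obtain ⟨r, hr, h1, h2⟩ := hE.gen.dir _ _ hs ht
  exact ⟨r, hr, (op_mem_LX.1 h1).2, (op_mem_LX.1 h2).2⟩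

theorem fresh (hK : KS K) (hL : GL.AllL M) {p : M} (hp : p ∈ PX K X) :
    ∃ u, u ∈ K.T ∧ (∀ i, nd i u ∉ p) ∧ ∀ i a, pm i a ∈ p → op u a ∉ K.on := by
  obtain ⟨u, h1, h2⟩ := GR.exists_fresh hK hL hp
  exact ⟨u, by rw [hK.T]; exact h1, h2⟩

/-- A promise keeps the node out of the generic real. -/
theorem not_mem_rN (hK : KS K) (hL : GL.AllL M) (hX : IsSys K X)
    (hE : Ext (PX K X) (LX K X) em G val) {j u s : M} (hj : j ∈ dm X) (hu : u ∈ K.T) (hs : G s)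
    (h1 : pm j (ap K.pi u) ∈ s) (h2 : nd j u ∉ s) :
    val (ck em u) ∉ val (nm em (rN K j)) := by
  rw [mem_rN hX hE hj hu]
  intro h3
  obtain ⟨r, -, h4, h5⟩ := gen_dir hE hs h3
  have h6 : nd j u ∈ r := h5.1 _ (by rw [mem_pr]; exact Or.inl rfl)
  exact h4.2 j u _ h6 h2 h1 (hK.on_pi hL (by rw [← hK.T]; exact hu))

/-- The reals of two steps are different. -/
theorem val_rN_ne (hK : KS K) (hL : GL.AllL M) (hX : IsSys K X)
    (hE : Ext (PX K X) (LX K X) em G val) {i j : M} (hi : i ∈ dm X) (hj : j ∈ dm X) (hij : i ≠ j)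
    (hg : IsTag X j ∨ G (cg X j)) :
    val (nm em (rN K i)) ≠ val (nm em (rN K j)) := by
  obtain ⟨p₀, hp₀, hg₀⟩ : ∃ p₀, G p₀ ∧ (IsTag X j ∨ Lq K p₀ (cg X j)) := by
    rcases hg with h | h
    · exact ⟨em, hE.gen.one, Or.inl h⟩
    · exact ⟨_, h, Or.inr (lq_refl _)⟩
  obtain ⟨s, hs, u, hu, h1, h2, h3⟩ := hE.gen.below hE.po (p := p₀)
    (Q := fun s => ∃ u, u ∈ K.T ∧ nd i u ∈ s ∧ pm j (ap K.pi u) ∈ s ∧ nd j u ∉ s)
    (by simp (maxDischargeDepth := 50)) hp₀ fun q hq => by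
      obtain ⟨⟨hqP, -⟩, hq'⟩ := op_mem_LX.1 hq
      obtain ⟨q₁, hq₁, hq₁', y, e, b, hy, he, h4, h5⟩ := decide hK hX hqP hj
        (hg₀.imp id fun h => lq_trans hq' h)
      obtain ⟨u, hu, hu1, hu2⟩ := fresh hK hL hq₁
      obtain ⟨h6, h7⟩ := add_nd hX hq₁ hi hu (hu2 i)
      obtain ⟨h8, h9, -⟩ := keep_out hK hL hX h6 hj hu hy he h4
        (lq_trans (lq_rs h7 _) h5) (fun h => by
          rcases mem_ins.1 h with h | h
          · exact hu1 j h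
          · exact hij (nd_inj.1 h).1.symm)
      refine ⟨_, op_mem_LX.2 ⟨⟨h8, hqP⟩, lq_trans h9 (lq_trans h7 hq₁')⟩, u, hu, ?_, ?_, ?_⟩
      · exact mem_ins.2 (Or.inl (mem_ins.2 (Or.inr rfl)))
      · exact mem_ins.2 (Or.inr rfl)
      · intro h
        rcases mem_ins.1 h with h | h
        · rcases mem_ins.1 h with h | h
          · exact hu1 j h
          · exact hij (nd_inj.1 h).1.symm
        · exact nd_ne_pm h
  intro heq
  refine not_mem_rN hK hL hX hE hj hu hs h2 h3 ?_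
  rw [← heq, mem_rN hX hE hi hu]
  exact gen_up hE hs (single_mem hX hi hu) (lq_single h1)

theorem rs_eq_self (hX : IsSys K X) {D b : M} (hD : Cl X D) (hb : b ∈ PX K (rs X D)) :
    rs b D = b := by
  have hdm : dm (rs X D) = D := dm_rs hX.fn hD.1
  refine ext' fun z => ⟨fun h => rs_sb z h, fun h => mem_rs.2 ⟨h, ?_⟩⟩
  rcases atom_of_mem hb h with ⟨k, u, hk, -, -, rfl⟩ | ⟨k, a, hk, -, -, rfl⟩
  · rw [hdm] at hk
    exact ⟨k, hk, _, rfl⟩
  · rw [hdm] at hk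
    exact ⟨k, hk, _, rfl⟩

/-- The real of a step is not a real of a subsystem. -/
theorem val_rN_ne_nm (hK : KS K) (hL : GL.AllL M) (hX : IsSys K X)
    (hE : Ext (PX K X) (LX K X) em G val) {D z j : M} (hD : Cl X D) (hz : NM K (rs X D) z)
    (hj : j ∈ dm X) (hjD : j ∉ D) (hg : IsTag X j ∨ G (cg X j)) :
    val (nm em (rN K j)) ≠ val (nm em z) := by
  have hdm : dm (rs X D) = D := dm_rs hX.fn hD.1
  have hzX : Sb z (pd K.hf (PX K X)) := fun w hw => by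
    obtain ⟨x, hx, b, hb, rfl⟩ := mem_pd.1 (hz.1 w hw)
    exact op_mem_pd.2 ⟨hx, px_up hX hD hb⟩
  obtain ⟨p₀, hp₀, hg₀⟩ : ∃ p₀, G p₀ ∧ (IsTag X j ∨ Lq K p₀ (cg X j)) := by
    rcases hg with h | h
    · exact ⟨em, hE.gen.one, Or.inl h⟩
    · exact ⟨_, h, Or.inr (lq_refl _)⟩
  obtain ⟨s, hs, u, hu, h1⟩ := hE.gen.below hE.po (p := p₀)
    (Q := fun s => ∃ u, u ∈ K.T ∧ ((nd j u ∈ s ∧ ∀ b q, op u b ∈ z → q ∈ PX K (rs X D) →
        ¬ (Lq K q (rs s D) ∧ Lq K q b)) ∨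
      (pm j (ap K.pi u) ∈ s ∧ nd j u ∉ s ∧ ∃ b, op u b ∈ z ∧ Lq K s b)))
    (by simp (maxDischargeDepth := 50)) hp₀ fun q hq => by
      obtain ⟨⟨hqP, -⟩, hq'⟩ := op_mem_LX.1 hq
      obtain ⟨q₁, hq₁, hq₁', y, e, b, hy, he, h4, h5⟩ := decide hK hX hqP hj
        (hg₀.imp id fun h => lq_trans hq' h)
      obtain ⟨u, hu, hu1, hu2⟩ := fresh hK hL hq₁
      by_cases hc : ∃ c r, op u c ∈ z ∧ r ∈ PX K (rs X D) ∧ Lq K r (rs q₁ D) ∧ Lq K r c
      · obtain ⟨c, r, hc1, hr, hr1, hr2⟩ := hc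
        obtain ⟨h6, h7, h8⟩ := amalg hX hD hq₁ hr hr1
        have hnu : nd j u ∉ un q₁ r := by
          intro h
          rcases mem_un.1 h with h | h
          · exact hu1 j h
          · have := lab_nd hr h
            rw [hdm] at this
            exact hjD this
        obtain ⟨h9, h10, -⟩ := keep_out hK hL hX h6 hj hu hy he h4
          (lq_trans (lq_rs h7 _) h5) hnu
        refine ⟨_, op_mem_LX.2 ⟨⟨h9, hqP⟩, lq_trans h10 (lq_trans h7 hq₁')⟩, u, hu, Or.inr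
          ⟨mem_ins.2 (Or.inr rfl), fun h => ?_, c, hc1, lq_trans h10 (lq_trans h8 hr2)⟩⟩
        rcases mem_ins.1 h with h | h
        · exact hnu h
        · exact nd_ne_pm h
      · obtain ⟨h6, h7⟩ := add_nd hX hq₁ hj hu (hu2 j)
        refine ⟨_, op_mem_LX.2 ⟨⟨h6, hqP⟩, lq_trans h7 hq₁'⟩, u, hu, Or.inl
          ⟨mem_ins.2 (Or.inr rfl), fun c r hc1 hr hr1 => hc ⟨c, r, hc1, hr, ?_, hr1.2⟩⟩⟩
        have h8 : rs (ins q₁ (nd j u)) D = rs q₁ D := by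
          refine ext' fun w => ?_
          rw [mem_rs, mem_rs]
          constructor
          · rintro ⟨hw, x, hx, y, rfl⟩
            rcases mem_ins.1 hw with hw | hw
            · exact ⟨hw, x, hx, y, rfl⟩
            · unfold nd at hw
              obtain ⟨rfl, -⟩ := op_inj.1 hw
              exact (hjD hx).elim
          · rintro ⟨hw, h9⟩
            exact ⟨mem_ins.2 (Or.inl hw), h9⟩
        rw [h8] at hr1
        exact hr1.1
  intro heq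
  rcases h1 with ⟨h2, h3⟩ | ⟨h2, h3, b, hb, hb'⟩
  · have h4 : val (ck em u) ∈ val (nm em (rN K j)) := by
      rw [mem_rN hX hE hj hu]
      exact gen_up hE hs (single_mem hX hj hu) (lq_single h2)
    rw [heq, hE.cv_mem_val_nm hzX] at h4
    obtain ⟨b, hb, hbz⟩ := h4
    obtain ⟨t, ht, ht1, ht2⟩ := gen_dir hE hs hb
    refine h3 b (rs t D) hbz (px_rs hX hD (hE.gen.mem _ ht)) ⟨lq_rs ht1 D, ?_⟩
    have h5 := lq_rs ht2 D
    rwa [rs_eq_self hX hD (op_mem_pd.1 (hz.1 _ hbz)).2] at h5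
  · refine not_mem_rN hK hL hX hE hj hu hs h2 h3 ?_
    rw [heq, hE.cv_mem_val_nm hzX]
    exact ⟨b, gen_up hE hs (op_mem_pd.1 (hzX _ hb)).2 hb', hb⟩

/-- A subsystem is the restriction to a closed set. -/
theorem cl_of_sb {Y : M} (hX : IsSys K X) (hY : IsSys K Y) (h : Sb Y X) :
    Cl X (dm Y) ∧ rs X (dm Y) = Y := by
  refine ⟨⟨dm_sub h, fun k hk => ?_⟩, (sub_eq_rs hY.fn hX.fn h).symm⟩
  rw [fD_sub hY.fn hX.fn h hk]
  exact (hY.cl hk).1

theorem val_rN_ne_nm' (hK : KS K) (hL : GL.AllL M) (hX : IsSys K X)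
    (hE : Ext (PX K X) (LX K X) em G val) {Y z j : M} (hY : IsSys K Y) (hYX : Sb Y X)
    (hz : NM K Y z) (hj : j ∈ dm X) (hjY : j ∉ dm Y) (hg : IsTag X j ∨ G (cg X j)) :
    val (nm em (rN K j)) ≠ val (nm em z) := by
  obtain ⟨h1, h2⟩ := cl_of_sb hX hY hYX
  exact val_rN_ne_nm hK hL hX hE h1 (by rwa [h2]) hj hjY hg

/-- The real of a tag is the real of no other step. -/
theorem eq_of_val_rN (hK : KS K) (hL : GL.AllL M) (hX : IsSys K X)
    (hE : Ext (PX K X) (LX K X) em G val) {i j : M} (hi : i ∈ dm X) (hj : j ∈ dm X)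
    (ht : IsTag X j) (h : val (nm em (rN K i)) = val (nm em (rN K j))) : i = j := by
  by_contra hij
  exact val_rN_ne hK hL hX hE hi hj hij (Or.inl ht) h

end ext

end Pool.Agent.Sep.GenN
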