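import Pool.Agent.Sep.Seq

/-!
Countable sets closed under finitely many functions: they contain the hereditarily finite sets and
their small elements are constructed below the trace on the first uncountable ordinal.
-/

universe u

set_option linter.unusedSectionVars false

namespace Pool.Agent.Sep

open Pool.Agent.SigB Pool.Agent.Forc

variable {M : Type u} [Membership M M] [IsZFC M]

/-! ### The hereditarily finite sets -/

/-- The power set of a finite set is finite. -/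
theorem fin_pw {l : M} (hl : l ∈ (om : M)) : ∀ B, Le B l → ∃ j, j ∈ (om : M) ∧ Le (pw B) j := by
  refine om_ind (P := fun l => ∀ B, Le B l → ∃ j, j ∈ (om : M) ∧ Le (pw B) j)
    (by simp (maxDischargeDepth := 50)) ?_ ?_ l hl
  · rintro B ⟨f, hf, -⟩
    refine ⟨sc SigB.em, sc_mem_om em_mem_om,
      ((le_of_empty not_mem_em : Le (SigB.em : M) SigB.em).insert SigB.em).mono_left
        fun S hS => mem_un.2 (Or.inr ?_)⟩
    rw [mem_pr, or_self]
    refine ext' fun x => ⟨fun hx => ?_, fun hx => (not_mem_em _ hx).elim⟩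
    exact (not_mem_em _ ((mem_fs.1 hf).2 x (mem_pw.1 hS x hx))).elim
  · rintro l hl ih B ⟨f, hf, hi⟩
    have hv := (mem_fs.1 hf).2
    by_cases h : ∃ b, b ∈ B ∧ ap f b = l
    · obtain ⟨b, hb, hbl⟩ := h
      obtain ⟨j, hj, hle⟩ := ih (df B (pr b b)) (Le.mk (F := fun x => ap f x)
        (by simp (maxDischargeDepth := 50)) (by
          intro x hx
          obtain ⟨h1, h2⟩ := mem_df.1 hx
          rcases mem_sc.1 (hv x h1) with h3 | h3
          · exact h3
          · exact absurd (by simpa using hi x b h1 hb (h3.trans hbl.symm)) h2)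
        (fun x y hx hy he => hi x y (mem_df.1 hx).1 (mem_df.1 hy).1 he))
      have hd : DT (fun w : Fin 1 → M => un (w 0) (pr b b)) := by simp
      have h1 : Le (im (pw (df B (pr b b))) fun S => un S (pr b b)) j :=
        Le.image (ord_of_mem_om hj) hle hd fun y hy => (mem_im hd).1 hy
      obtain ⟨j', hj', hle'⟩ := fin_un hj hj hle h1
      refine ⟨j', hj', hle'.mono_left fun S hS => ?_⟩
      by_cases hbS : b ∈ S
      · refine mem_un.2 (Or.inr ((mem_im hd).2 ⟨df S (pr b b), mem_pw.2 fun x hx => ?_, ?_⟩))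
        · obtain ⟨h2, h3⟩ := mem_df.1 hx
          exact mem_df.2 ⟨mem_pw.1 hS x h2, h3⟩
        · refine ext' fun x => ?_
          rw [mem_un, mem_df, mem_pr, or_self]
          constructor
          · intro hx
            by_cases hxb : x = b
            · exact Or.inr hxb
            · exact Or.inl ⟨hx, hxb⟩
          · rintro (hx | rfl)
            · exact hx.1
            · exact hbS
      · refine mem_un.2 (Or.inl (mem_pw.2 fun x hx => mem_df.2 ⟨mem_pw.1 hS x hx, ?_⟩))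
        rw [mem_pr, or_self]
        rintro rfl
        exact hbS hx
    · refine ih B ⟨f, mem_fs.2 ⟨(mem_fs.1 hf).1, fun x hx => ?_⟩, hi⟩
      rcases mem_sc.1 (hv x hx) with h3 | h3
      · exact h3
      · exact absurd ⟨x, hx, h3⟩ h

/-- The set of the hereditarily finite sets. -/
noncomputable def HF : M := Frc.VV om

theorem mem_HF {x : M} : x ∈ (HF : M) ↔ ∃ n, n ∈ (om : M) ∧ Sb x (Frc.VV n) :=
  Frc.mem_VV om_ord

theorem tr_HF : Tr (HF : M) := Frc.VV_tr om_ord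

theorem VV_sc {n : M} (hn : Ord n) : Frc.VV (sc n) = pw (Frc.VV n) := by
  refine ext' fun x => ?_
  rw [Frc.mem_VV (ord_sc hn), mem_pw]
  constructor
  · rintro ⟨b, hb, hx⟩
    rcases mem_sc.1 hb with h | rfl
    · exact hx.trans (Frc.VV_mono (hn.mem h) hn (hn.sb h))
    · exact hx
  · intro hx
    exact ⟨n, mem_sc_self n, hx⟩

theorem fin_VV {n : M} (hn : n ∈ (om : M)) : ∃ j, j ∈ (om : M) ∧ Le (Frc.VV n) j := by
  refine om_ind (P := fun n => ∃ j, j ∈ (om : M) ∧ Le (Frc.VV n) j)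
    (by simp (maxDischargeDepth := 50)) ?_ ?_ n hn
  · refine ⟨SigB.em, em_mem_om, le_of_empty fun x hx => ?_⟩
    obtain ⟨b, hb, -⟩ := (Frc.mem_VV ord_em).1 hx
    exact not_mem_em _ hb
  · rintro n hn ⟨j, hj, hle⟩
    rw [VV_sc (ord_of_mem_om hn)]
    exact fin_pw hj _ hle

theorem le_HF : Le (HF : M) om := by
  have h : (HF : M) = sU (im om Frc.VV) := by
    refine ext' fun x => ?_
    rw [mem_HF, mem_sU]
    constructor
    · rintro ⟨n, hn, hx⟩
      refine ⟨Frc.VV (sc n), (mem_im Frc.VV.dt).2 ⟨_, sc_mem_om hn, rfl⟩, ?_⟩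
      rw [VV_sc (ord_of_mem_om hn)]
      exact mem_pw.2 hx
    · rintro ⟨y, hy, hx⟩
      obtain ⟨n, hn, rfl⟩ := (mem_im Frc.VV.dt).1 hy
      obtain ⟨b, hb, hx⟩ := (Frc.mem_VV (ord_of_mem_om hn)).1 hx
      exact ⟨b, om_ord.trans hb hn, hx⟩
  rw [h]
  refine Le.union om_ord (Sb.refl _) (Le.image om_ord (Le.refl _) Frc.VV.dt
    fun y hy => (mem_im Frc.VV.dt).1 hy) fun x hx => ?_
  obtain ⟨n, hn, rfl⟩ := (mem_im Frc.VV.dt).1 hx
  obtain ⟨j, hj, hle⟩ := fin_VV hn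
  exact hle.mono_right (om_ord.sb hj)

/-! ### Closure under the addition of one element -/

/-- The set `X` contains the empty set and is closed under adding one element to a set. -/
def Ad (X : M) : Prop := SigB.em ∈ X ∧ ∀ a b, a ∈ X → b ∈ X → un a (pr b b) ∈ X

theorem Ad.pr {X a b : M} (h : Ad X) (ha : a ∈ X) (hb : b ∈ X) : pr a b ∈ X := by
  have h1 : SigB.pr a b = un (un SigB.em (SigB.pr a a)) (SigB.pr b b) := by
    refine ext' fun z => ?_
    simp only [mem_pr, mem_un, or_self]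
    constructor
    · rintro (h | h)
      · exact Or.inl (Or.inr h)
      · exact Or.inr h
    · rintro ((h | h) | h)
      · exact (not_mem_em _ h).elim
      · exact Or.inl h
      · exact Or.inr h
  rw [h1]
  exact h.2 _ _ (h.2 _ _ h.1 ha) hb

theorem Ad.op {X a b : M} (h : Ad X) (ha : a ∈ X) (hb : b ∈ X) : op a b ∈ X :=
  h.pr (h.pr ha ha) (h.pr ha hb)

theorem Ad.om {X : M} (h : Ad X) : Sb om X := by
  refine om_ind (P := fun n => n ∈ X) (by simp) h.1 ?_
  intro n _ ih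
  exact h.2 _ _ ih ih

/-- Finite functions with values in `X`. -/
theorem Ad.fs {X : M} (h : Ad X) {A : M} (hA : Sb A X) : ∀ n, n ∈ (SigB.om : M) →
    ∀ f, f ∈ fs n A → f ∈ X := by
  refine om_ind (P := fun n => ∀ f, f ∈ SigB.fs n A → f ∈ X) (by simp (maxDischargeDepth := 50))
    ?_ ?_
  · intro f hf
    have : f = SigB.em := ext' fun z => by
      refine ⟨fun hz => ?_, fun hz => (not_mem_em _ hz).elim⟩
      obtain ⟨x, hx, -⟩ := (mem_fs.1 hf).1.mem_iff.1 hz
      exact (not_mem_em _ hx).elim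
    rw [this]
    exact h.1
  · intro n hn ih f hf
    obtain ⟨h1, h2⟩ := mem_fs.1 hf
    have hsb : Sb n (sc n) := fun z hz => mem_sc.2 (Or.inl hz)
    have h3 : rs f n ∈ SigB.fs n A := mem_fs.2 ⟨fn_rs h1 hsb, fun x hx => by
      rw [ap_rs h1 hsb hx]; exact h2 x (hsb x hx)⟩
    have h4 : f = un (rs f n) (SigB.pr (SigB.op n (ap f n)) (SigB.op n (ap f n))) := by
      refine ext' fun z => ?_
      rw [mem_un, mem_pr, or_self]
      constructor
      · intro hz
        obtain ⟨x, hx, rfl⟩ := h1.mem_iff.1 hz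
        rcases mem_sc.1 hx with h5 | rfl
        · exact Or.inl (op_mem_rs.2 ⟨hz, h5⟩)
        · exact Or.inr rfl
      · rintro (hz | rfl)
        · obtain ⟨x, hx, y, rfl⟩ := (fn_rs h1 hsb).1 z hz
          exact (op_mem_rs.1 hz).1
        · exact (h1.op_mem_iff (mem_sc_self n)).2 rfl
    rw [h4]
    have h5 : ap f n ∈ X := hA _ (h2 n (mem_sc_self n))
    have h6 : SigB.op n (ap f n) ∈ X := h.op (h.om n hn) h5
    exact h.2 _ _ (ih _ h3) h6

theorem Ad.Sq {X : M} (h : Ad X) : Sb (Sep.Sq : M) X := by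
  intro s hs
  obtain ⟨n, hn, hs⟩ := mem_Sq.1 hs
  exact h.fs h.om n hn s hs

/-! ### Good countable sets -/

/-- `H` is a countable set closed under the functions needed, and `ξ` is its trace on the first
uncountable ordinal. -/
structure Hull (H ξ : M) : Prop where
  le : Le H om
  ord : Ord ξ
  le_ξ : Le ξ om
  mem_ξ : ∀ α, α ∈ ξ ↔ α ∈ H ∧ Ord α ∧ Le α om
  sub : ∀ x, x ∈ H → Le x om → Sb x H
  ad : Ad H
  adX : Ad (GL.XX ξ)
  XX_sb : Sb (GL.XX ξ) H
  small : ∀ x, x ∈ H → Sb x (GL.XX ξ) → x ∈ GL.XX ξ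
  HF_sb : Sb HF (GL.XX ξ)
  HF_mem : (HF : M) ∈ GL.XX ξ
  om_mem : (om : M) ∈ GL.XX ξ

namespace Hull

variable {H ξ : M} (h : Hull H ξ)

include h

theorem sub_ξ : Sb ξ H := fun α hα => ((h.mem_ξ α).1 hα).1

/-- Ordinals below `ξ` belong to the set of the first `ξ` constructible sets. -/
theorem mem_XX : ∀ α, α ∈ ξ → α ∈ GL.XX ξ :=
  h.ord.ind (P := fun α => α ∈ GL.XX ξ) (by simp (maxDischargeDepth := 50)) fun α hα ih =>
    h.small α (h.sub_ξ α hα) ih

theorem not_mem : ξ ∉ H := fun hξ => not_mem_self ξ ((h.mem_ξ ξ).2 ⟨hξ, h.ord, h.le_ξ⟩)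

end Hull

/-- A fixed point of a collapse injects into the set. -/
theorem le_of_clp {H q α : M} (hq : GL.Clp H q)
    (hqi : ∀ x y, x ∈ H → y ∈ H → ap q x = ap q y → x = y) (hαH : α ∈ H) (h3 : α = ap q α) :
    Le α H := by
  have hd : DT (fun w : Fin 1 → M => GL.the fun y => y ∈ H ∧ ap q y = w 0) :=
    GL.dt_the (P := fun (w : Fin 1 → M) y => y ∈ H ∧ ap q y = w 0)
      (by simp (maxDischargeDepth := 50))
  have hval : ∀ ξ, ξ ∈ α → ∃ y, y ∈ H ∧ ap q y = ξ ∧
      (GL.the fun y => y ∈ H ∧ ap q y = ξ) = y := by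
    intro ξ hξ
    rw [h3] at hξ
    obtain ⟨y, hy, -, hy'⟩ := (hq.2 _ hαH ξ).1 hξ
    exact ⟨y, hy, hy'.symm, GL.the_eq ⟨hy, hy'.symm⟩ fun z hz =>
      hqi z y hz.1 hy (hz.2.trans hy')⟩
  refine Le.mk (F := fun ξ => GL.the fun y => y ∈ H ∧ ap q y = ξ) hd (fun ξ hξ => ?_)
    fun ξ η hξ hη he => ?_
  · obtain ⟨y, hy, -, h⟩ := hval ξ hξ
    rw [h]
    exact hy
  · obtain ⟨y, hy, h5, h6⟩ := hval ξ hξ
    obtain ⟨z, hz, h7, h8⟩ := hval η hη
    rw [h6, h8] at he
    rw [← h5, ← h7, he]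

/-- An enumeration of the set `x`, if `x` is countable. -/
noncomputable def en (x : M) : M :=
  GL.Fc (GL.mu fun b => ∀ z, z ∈ x → ∃ n, n ∈ (om : M) ∧ ap (GL.Fc b) n = z)

theorem en.dt : DT (fun w : Fin 1 → M => en (w 0)) := by
  unfold en
  exact GL.dt_Fc (GL.dt_mu (P := fun (w : Fin 1 → M) b => ∀ z, z ∈ w 0 →
    ∃ n, n ∈ (om : M) ∧ ap (GL.Fc b) n = z) (by simp (maxDischargeDepth := 50)))

theorem en_spec (hL : GL.AllL M) {x : M} (hx : Le x om) {z : M} (hz : z ∈ x) :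
    ∃ n, n ∈ (om : M) ∧ ap (en x) n = z := by
  have hex : ∃ F : M, ∀ z, z ∈ x → ∃ n, n ∈ (om : M) ∧ ap F n = z := by
    obtain ⟨f, hf, hi⟩ := hx
    have hd : DT (fun w : Fin 1 → M => GL.the fun z => z ∈ x ∧ ap f z = w 0) :=
      GL.dt_the (P := fun (w : Fin 1 → M) z => z ∈ x ∧ ap f z = w 0)
        (by simp (maxDischargeDepth := 50))
    refine ⟨lam om fun n => GL.the fun z => z ∈ x ∧ ap f z = n, fun z hz => ?_⟩
    have hn := (mem_fs.1 hf).2 z hz
    refine ⟨ap f z, hn, ?_⟩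
    rw [ap_lam hd hn]
    exact GL.the_eq ⟨hz, rfl⟩ fun y hy => hi y z hy.1 hz hy.2
  exact GL.mu_Fc hL (P := fun F => ∀ z, z ∈ x → ∃ n, n ∈ (om : M) ∧ ap F n = z)
    (by simp (maxDischargeDepth := 50)) hex z hz

/-- The additional functions. -/
noncomputable def xf : Fin 5 → M → M → M
  | 0, x, y => un x (pr y y)
  | 1, _, _ => SigB.em
  | 2, x, y => ap (en x) y
  | 3, _, _ => HF
  | 4, _, _ => om

theorem xf.dt (i : Fin 5) : DT (fun w : Fin 2 → M => xf i (w 0) (w 1)) := by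
  fin_cases i
  · exact dt_un (DT.var 0) (dt_pr (DT.var 1) (DT.var 1))
  · exact DT.const _
  · exact dt_ap (dt1 en.dt (DT.var 0)) (DT.var 1)
  · exact DT.const _
  · exact DT.const _

/-- Existence of good countable sets closed under finitely many functions. -/
theorem exists_hull (hL : GL.AllL M) {ι : Type} [Finite ι] (f : ι → M → M → M)
    (hf : ∀ i, DT (fun w : Fin 2 → M => f i (w 0) (w 1))) {A : M} (hA : Le A om) :
    ∃ H ξ, Hull H ξ ∧ Sb A H ∧ ∀ i x y, x ∈ H → y ∈ H → f i x y ∈ H := by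
  obtain ⟨H, h1, h2, h3⟩ := GL.exists_closure (κ := (om : M)) om_ord (Sb.refl _)
    (Sum.elim f (Sum.elim GL.hf xf)) (by
      rintro (i | i | i)
      · exact hf i
      · exact GL.hf.dt i
      · exact xf.dt i) (le_om_un hA (le_om_pr SigB.em SigB.em))
  have hA' : Sb A H := fun z hz => h1 z (mem_un.2 (Or.inl hz))
  have hcf : ∀ i x y, x ∈ H → y ∈ H → f i x y ∈ H := fun i => h2 (.inl i)
  have hH : GL.Hul H := GL.hul_of_closed hL fun j => h2 (.inr (.inl j))
  have hem : (SigB.em : M) ∈ H := h1 _ (mem_un.2 (Or.inr (by simp)))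
  have had : Ad H := ⟨hem, fun a b ha hb => h2 (.inr (.inr 0)) a b ha hb⟩
  have hHF : (HF : M) ∈ H := h2 (.inr (.inr 3)) _ _ hem hem
  have hom : (om : M) ∈ H := h2 (.inr (.inr 4)) _ _ hem hem
  have hsub : ∀ x, x ∈ H → Le x om → Sb x H := by
    intro x hx hx' z hz
    obtain ⟨n, hn, rfl⟩ := en_spec hL hx' hz
    exact h2 (.inr (.inr 2)) _ _ hx (had.om n hn)
  have hd : Dfn (fun w : Fin 1 → M => Ord (w 0) ∧ Le (w 0) om) := by
    simp (maxDischargeDepth := 50)
  have hmem : ∀ α, α ∈ sp H (fun α => Ord α ∧ Le α om) ↔ α ∈ H ∧ Ord α ∧ Le α om :=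
    fun α => mem_sp hd
  obtain ⟨ξ, hξ⟩ : ∃ ξ : M, ξ = sp H (fun α => Ord α ∧ Le α om) := ⟨_, rfl⟩
  rw [← hξ] at hmem
  have hOξ : Ord ξ := by
    refine ord_mk (fun y hy z hz => ?_) fun y hy => ((hmem y).1 hy).2.1
    obtain ⟨h4, h5, h6⟩ := (hmem y).1 hy
    exact (hmem z).2 ⟨hsub y h4 h6 z hz, h5.mem hz, h6.mono_left (h5.sb hz)⟩
  have hXH : Sb (GL.XX ξ) H := by
    intro z hz
    obtain ⟨α, hα, rfl⟩ := GL.mem_XX.1 hz
    obtain ⟨h4, h5, -⟩ := (hmem α).1 hα
    exact hH.fc α h5 h4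
  have htr : Tr (GL.XX ξ) := GL.tr_XX hOξ
  have hsmall : ∀ x, x ∈ H → Sb x (GL.XX ξ) → x ∈ GL.XX ξ := by
    intro x hx hxs
    obtain ⟨q, hq, hqi, -⟩ := GL.exists_clp hH
    have hfix : ap q x = x := GL.clp_fix_sub hq (k := GL.XX ξ) htr hXH hx hxs
    obtain ⟨hOα, hα⟩ := GL.idx_spec (hL x)
    have hαH : GL.idx x ∈ H := hH.idx _ hOα (by rw [hα]; exact hx)
    obtain ⟨h4, h5⟩ := GL.condense hL hH hq hOα hαH
    rw [hα] at h5
    have h5' : x = GL.Fc (ap q (GL.idx x)) := hfix.symm.trans h5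
    have h6 : GL.idx x = ap q (GL.idx x) := GL.Fc_inj hOα h4 (hα.trans h5')
    have h7 : Le (GL.idx x) om := (le_of_clp hq hqi hαH h6).trans h3
    exact GL.mem_XX.2 ⟨GL.idx x, (hmem _).2 ⟨hαH, hOα, h7⟩, hα.symm⟩
  have hemX : (SigB.em : M) ∈ GL.XX ξ := hsmall _ hem fun z hz => (not_mem_em _ hz).elim
  have hadX : Ad (GL.XX ξ) := by
    refine ⟨hemX, fun a b ha hb => hsmall _ (had.2 a b (hXH a ha) (hXH b hb)) fun z hz => ?_⟩
    rcases mem_un.1 hz with h4 | h4
    · exact htr a ha z h4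
    · rw [mem_pr, or_self] at h4
      rw [h4]; exact hb
  have hHFX : Sb HF (GL.XX ξ) := by
    have h4 : ∀ x : M, x ∈ (HF : M) → x ∈ GL.XX ξ := by
      refine Frc.mem_ind (Q := fun x => x ∈ (HF : M) → x ∈ GL.XX ξ)
        (by simp (maxDischargeDepth := 50)) ?_
      intro x ih hx
      exact hsmall x (hsub _ hHF le_HF x hx) fun y hy => ih y hy (tr_HF x hx y hy)
    exact h4
  refine ⟨H, ξ, ⟨h3, hOξ, ?_, hmem, hsub, had, hadX, hXH, hsmall, hHFX, hsmall _ hHF hHFX,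
    hsmall _ hom hadX.om⟩, hA', hcf⟩
  exact h3.mono_left fun z hz => ((hmem z).1 hz).1

end Pool.Agent.Sep
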