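import Pool.Agent.Sep.Emb
import Pool.Agent.Sep.SeqB

/-!
# Finite sets and hereditarily finite sets are absolute
-/

universe u v

set_option linter.unusedSectionVars false

namespace Pool.Agent.Sep

open Pool.Agent.SigB Pool.Agent.Forc

variable {M : Type u} {N : Type v} [Membership M M] [Membership N N] [IsZFC M] [IsZFC N]

/-- The subsets of the image of a finite set are in the image. -/
theorem pw_emb {j : M → N} (hj : GL.TrEmb j) {x n : M} (hn : n ∈ (SigB.om : M)) (hx : Le x n) :
    j (SigB.pw x) = SigB.pw (j x) := by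
  obtain ⟨f, hf, hfi⟩ := hx
  obtain ⟨hf1, hf2⟩ := mem_fs.1 hf
  -- subsets of the part of `x` with values below `k`
  have key : ∀ k, k ∈ (SigB.om : N) → ∀ y, Sb y (j x) →
      (∀ z, z ∈ y → SigB.ap (j f) z ∈ k) → y ∈ j (SigB.pw x) := by
    refine om_ind (P := fun k => ∀ y, Sb y (j x) → (∀ z, z ∈ y → SigB.ap (j f) z ∈ k) →
      y ∈ j (SigB.pw x)) (by simp (maxDischargeDepth := 50)) ?_ ?_
    · intro y hy hk
      have h1 : y = j SigB.em := by
        rw [hj.s_em]
        exact ext' fun z => ⟨fun hz => (not_mem_em _ (hk z hz)).elim,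
          fun hz => (not_mem_em _ hz).elim⟩
      rw [h1, hj.mem_iff, mem_pw]
      exact fun z hz => (not_mem_em z hz).elim
    · intro k hk ih y hy hyk
      have hd : Dfn (fun w : Fin 1 → N => SigB.ap (j f) (w 0) ∈ k) := by
        simp (maxDischargeDepth := 50)
      obtain ⟨t, ht, ht'⟩ := hj.tr (ih (sp y fun z => SigB.ap (j f) z ∈ k)
        (fun z hz => hy z ((mem_sp hd).1 hz).1) fun z hz => ((mem_sp hd).1 hz).2)
      rw [mem_pw] at ht
      by_cases h : ∃ z, z ∈ y ∧ SigB.ap (j f) z = k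
      · obtain ⟨z, hz, hzk⟩ := h
        obtain ⟨z, hzx, rfl⟩ := hj.tr (hy z hz)
        have h1 : y = j (SigB.un t (SigB.pr z z)) := by
          rw [hj.s_un, hj.s_pr, ← ht']
          refine ext' fun u => ?_
          rw [mem_un, mem_pr, or_self, mem_sp hd]
          constructor
          · intro hu
            rcases mem_sc.1 (hyk u hu) with h2 | h2
            · exact Or.inl ⟨hu, h2⟩
            · refine Or.inr ?_
              obtain ⟨u, hux, rfl⟩ := hj.tr (hy u hu)
              rw [← hzk, ← hj.s_ap, ← hj.s_ap, hj.inj] at h2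
              rw [hfi u z hux hzx h2]
          · rintro (h2 | rfl)
            · exact h2.1
            · exact hz
        rw [h1, hj.mem_iff, mem_pw]
        intro u hu
        rcases mem_un.1 hu with hu | hu
        · exact ht u hu
        · rw [mem_pr, or_self] at hu
          rw [hu]
          exact hzx
      · push Not at h
        have h1 : y = j t := by
          rw [← ht']
          refine ext' fun u => ?_
          rw [mem_sp hd]
          refine ⟨fun hu => ⟨hu, ?_⟩, fun hu => hu.1⟩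
          rcases mem_sc.1 (hyk u hu) with h2 | h2
          · exact h2
          · exact absurd h2 (h u hu)
        rw [h1, hj.mem_iff, mem_pw]
        exact ht
  refine hj.eq_of (fun z => by rw [mem_pw, mem_pw, hj.s_sb]) fun z hz => ?_
  have h1 := key (j n) (hj.s_mem_om.2 hn) z (mem_pw.1 hz) fun y hy => by
    obtain ⟨y, hyx, rfl⟩ := hj.tr (mem_pw.1 hz y hy)
    rw [← hj.s_ap, hj.mem_iff]
    exact hf2 y hyx
  obtain ⟨z, -, rfl⟩ := hj.tr h1
  exact ⟨z, rfl⟩

/-- A subset of the image of a finite set is in the image. -/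
theorem fin_lift {j : M → N} (hj : GL.TrEmb j) {x n : M} (hn : n ∈ (SigB.om : M)) (hx : Le x n)
    {y : N} (hy : Sb y (j x)) : ∃ z, Sb z x ∧ y = j z := by
  have h1 : y ∈ SigB.pw (j x) := mem_pw.2 hy
  rw [← pw_emb hj hn hx] at h1
  obtain ⟨z, hz, rfl⟩ := hj.tr h1
  exact ⟨z, mem_pw.1 hz, rfl⟩

/-- A finite subset of the image of a set is in the image. -/
theorem fte_lift {j : M → N} (hj : GL.TrEmb j) {x : M} {y n : N} (hn : n ∈ (SigB.om : N))
    (hyn : Le y n) (hy : Sb y (j x)) : ∃ z, Sb z x ∧ y = j z := by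
  obtain ⟨f, hf, hfi⟩ := hyn
  obtain ⟨hf1, hf2⟩ := mem_fs.1 hf
  have key : ∀ k, k ∈ (SigB.om : N) → ∀ y', Sb y' y →
      (∀ z, z ∈ y' → SigB.ap f z ∈ k) → y' ∈ j (SigB.pw x) := by
    refine om_ind (P := fun k => ∀ y', Sb y' y → (∀ z, z ∈ y' → SigB.ap f z ∈ k) →
      y' ∈ j (SigB.pw x)) (by simp (maxDischargeDepth := 50)) ?_ ?_
    · intro y' _ hk
      have h1 : y' = j SigB.em := by
        rw [hj.s_em]
        exact ext' fun z => ⟨fun hz => (not_mem_em _ (hk z hz)).elim,
          fun hz => (not_mem_em _ hz).elim⟩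
      rw [h1, hj.mem_iff, mem_pw]
      exact fun z hz => (not_mem_em z hz).elim
    · intro k hk ih y' hy' hyk
      have hd : Dfn (fun w : Fin 1 → N => SigB.ap f (w 0) ∈ k) := by
        simp (maxDischargeDepth := 50)
      obtain ⟨t, ht, ht'⟩ := hj.tr (ih (sp y' fun z => SigB.ap f z ∈ k)
        (fun z hz => hy' z ((mem_sp hd).1 hz).1) fun z hz => ((mem_sp hd).1 hz).2)
      rw [mem_pw] at ht
      by_cases h : ∃ z, z ∈ y' ∧ SigB.ap f z = k
      · obtain ⟨z, hz, hzk⟩ := h
        have hzy := hy' z hz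
        obtain ⟨z, hzx, rfl⟩ := hj.tr (hy z hzy)
        have h1 : y' = j (SigB.un t (SigB.pr z z)) := by
          rw [hj.s_un, hj.s_pr, ← ht']
          refine ext' fun u => ?_
          rw [mem_un, mem_pr, or_self, mem_sp hd]
          constructor
          · intro hu
            rcases mem_sc.1 (hyk u hu) with h2 | h2
            · exact Or.inl ⟨hu, h2⟩
            · exact Or.inr (hfi _ _ (hy' u hu) hzy (h2.trans hzk.symm))
          · rintro (h2 | rfl)
            · exact h2.1
            · exact hz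
        rw [h1, hj.mem_iff, mem_pw]
        intro u hu
        rcases mem_un.1 hu with hu | hu
        · exact ht u hu
        · rw [mem_pr, or_self] at hu
          rw [hu]
          exact hzx
      · push Not at h
        have h1 : y' = j t := by
          rw [← ht']
          refine ext' fun u => ?_
          rw [mem_sp hd]
          refine ⟨fun hu => ⟨hu, ?_⟩, fun hu => hu.1⟩
          rcases mem_sc.1 (hyk u hu) with h2 | h2
          · exact h2
          · exact absurd h2 (h u hu)
        rw [h1, hj.mem_iff, mem_pw]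
        exact ht
  obtain ⟨z, hz, hz'⟩ := hj.tr (key n hn y (Sb.refl y) fun z hz => hf2 z hz)
  exact ⟨z, mem_pw.1 hz, hz'⟩

theorem vv_em : Frc.VV (SigB.em : M) = SigB.em := by
  refine ext' fun z => ⟨fun hz => ?_, fun hz => (not_mem_em z hz).elim⟩
  obtain ⟨b, hb, -⟩ := (Frc.mem_VV ord_em).1 hz
  exact (not_mem_em b hb).elim

/-- The finite levels of the cumulative hierarchy are absolute. -/
theorem vv_emb {j : M → N} (hj : GL.TrEmb j) {n : M} (hn : n ∈ (SigB.om : M)) :
    j (Frc.VV n) = Frc.VV (j n) := by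
  have hd : DT (fun w : Fin 1 → M => Frc.VV (w 0)) := Frc.VV.dt
  have hap : ∀ m, m ∈ (SigB.om : M) → SigB.ap (j (SigB.lam SigB.om Frc.VV)) (j m) =
      j (Frc.VV m) := fun m hm => by rw [← hj.s_ap, ap_lam hd hm]
  have key : ∀ m, m ∈ (SigB.om : N) → SigB.ap (j (SigB.lam SigB.om Frc.VV)) m = Frc.VV m := by
    refine om_ind (P := fun m => SigB.ap (j (SigB.lam SigB.om Frc.VV)) m = Frc.VV m)
      (by simp (maxDischargeDepth := 50)) ?_ ?_
    · have h1 := hap SigB.em em_mem_om
      rw [hj.s_em, vv_em, hj.s_em] at h1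
      rw [h1, vv_em]
    · intro m hm ih
      obtain ⟨m, hm', rfl⟩ := hj.s_mem_om_lift hm
      obtain ⟨k, hk, hle⟩ := fin_VV hm'
      rw [← hj.s_sc, hap _ (sc_mem_om hm'), VV_sc (ord_of_mem_om hm'), pw_emb hj hk hle,
        ← hap m hm', ih, hj.s_sc, VV_sc (ord_of_mem_om hm)]
  rw [← hap n hn, key _ (hj.s_mem_om.2 hn)]

/-- The set of the hereditarily finite sets is absolute. -/
theorem hf_emb {j : M → N} (hj : GL.TrEmb j) : j (HF : M) = (HF : N) := by
  refine hj.eq_of (fun z => ?_) fun z hz => ?_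
  · rw [mem_HF, mem_HF]
    constructor
    · rintro ⟨n, hn, h⟩
      exact ⟨j n, hj.s_mem_om.2 hn, by rw [← vv_emb hj hn, hj.s_sb]; exact h⟩
    · rintro ⟨n, hn, h⟩
      obtain ⟨n, hn', rfl⟩ := hj.s_mem_om_lift hn
      exact ⟨n, hn', by rwa [← vv_emb hj hn', hj.s_sb] at h⟩
  · obtain ⟨n, hn, h⟩ := mem_HF.1 hz
    obtain ⟨n, hn', rfl⟩ := hj.s_mem_om_lift hn
    rw [← vv_emb hj hn'] at h
    obtain ⟨k, hk, hle⟩ := fin_VV hn'
    obtain ⟨z, -, rfl⟩ := fin_lift hj hk hle h
    exact ⟨z, rfl⟩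

/-- Every hereditarily finite set is in the image. -/
theorem hf_lift {j : M → N} (hj : GL.TrEmb j) {z : N} (hz : z ∈ (HF : N)) :
    ∃ x, x ∈ (HF : M) ∧ z = j x := by
  rw [← hf_emb hj] at hz
  exact hj.tr hz

theorem mem_hf_emb {j : M → N} (hj : GL.TrEmb j) {x : M} : j x ∈ (HF : N) ↔ x ∈ (HF : M) := by
  rw [← hf_emb hj, hj.mem_iff]

end Pool.Agent.Sep
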