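import Pool.Agent.Sep.Amalg
import Pool.Agent.GL.EmbExt

/-!
# The embeddings of the extensions by complete suborders
-/

universe u

set_option linter.unusedSectionVars false

namespace Pool.Agent.Sep

open Pool.Agent.SigB Pool.Agent.Frc

variable {M : Type u} [Membership M M] [IsZFC M] {P leP Q leQ one : M} {G : M → Prop}
  {N₀ : Type u} [Membership N₀ N₀] [IsZFC N₀] {val₀ : M → N₀}
  {N₁ : Type u} [Membership N₁ N₁] [IsZFC N₁] {val₁ : M → N₁}

/-- The extension by a complete suborder `P` of `Q` is a transitive class of the extension by `Q`,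
and it consists of the values of the restrictions to `P` of the names. -/
theorem CSub.exists_trEmb (h : CSub P leP Q leQ one)
    (h₀ : Ext P leP one (fun p => p ∈ P ∧ G p) val₀) (h₁ : Ext Q leQ one G val₁) :
    ∃ j : N₀ → N₁, GL.TrEmb j ∧ (∀ x, j (val₀ x) = val₁ (rn P x)) ∧
      (∀ x, j (val₀ (ck one x)) = val₁ (ck one x)) ∧ ∀ z, (∃ y, z = j y) ↔
        ∃ x, rn P x = x ∧ z = val₁ x := by
  obtain ⟨j, hj, hm, he, ht, hc⟩ := h.exists_emb h₀ h₁
  refine ⟨j, ⟨fun {x y} => hm x y, fun {y z} hz => ht y z hz, fun {α} hα => ?_⟩, hj, hc,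
    fun z => ⟨?_, ?_⟩⟩
  · have hα' : SigB.Ord α := hα
    obtain ⟨β, -, hβ⟩ := h₁.ord_eq hα'
    exact ⟨val₀ (ck one β), by rw [hc, hβ]⟩
  · rintro ⟨y, rfl⟩
    obtain ⟨x, rfl⟩ := h₀.surj y
    exact ⟨rn P x, rn_rn (fun _ h => h) x, hj x⟩
  · rintro ⟨x, hx, rfl⟩
    exact ⟨val₀ x, by rw [hj, hx]⟩

end Pool.Agent.Sep
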