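import Pool.Agent.Sep.Nice
import Pool.Agent.Sep.SubEmb

/-!
# Names of subsets of elements of the ground model in the extension by a complete suborder
-/

universe u

set_option linter.unusedSectionVars false

namespace Pool.Agent.Sep

open Pool.Agent.SigB Pool.Agent.Frc

variable {M : Type u} [Membership M M] [IsZFC M] {P leP Q leQ one : M} {G : M → Prop}
  {N₀ : Type u} [Membership N₀ N₀] [IsZFC N₀] {val₀ : M → N₀}
  {N₁ : Type u} [Membership N₁ N₁] [IsZFC N₁] {val₁ : M → N₁}

/-- The embedding of the extensions, with the values of the names given by sets of pairs. -/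
theorem CSub.exists_trEmb_nm (h : CSub P leP Q leQ one)
    (h₀ : Ext P leP one (fun p => p ∈ P ∧ G p) val₀) (h₁ : Ext Q leQ one G val₁) :
    ∃ j : N₀ → N₁, GL.TrEmb j ∧ (∀ x, rn P x = x → j (val₀ x) = val₁ x) ∧
      (∀ x, j (val₀ (ck one x)) = val₁ (ck one x)) ∧
      ∀ A S, Sb S (pd A P) → j (val₀ (nm one S)) = val₁ (nm one S) := by
  obtain ⟨j, hj, hjv, hjc, -⟩ := h.exists_trEmb h₀ h₁
  refine ⟨j, hj, fun x hx => by rw [hjv, hx], hjc, fun A S hS => ?_⟩
  rw [hjv, rn_nm h.one_mem hS]

end Pool.Agent.Sep
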