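import Pool.Agent.Sep.Nice
import Pool.Agent.Frc.Chang
import Pool.Agent.FDia.Cond

/-!
# Extensions with the countable chain condition preserve `ω₁`
-/

universe u

set_option linter.unusedSectionVars false

namespace Pool.Agent.Sep

open Pool.Agent.SigB Pool.Agent.Frc Pool.Agent.Forc
open Pool.Agent.FDia (W1)

variable {M : Type u} [Membership M M] [IsZFC M] {P le one : M} {G : M → Prop} {N : Type u}
  [Membership N N] {val : M → N} [IsZFC N]

/-- A definable partial function of the extension between copies is covered by a function of the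
ground model with countable values. -/
theorem cover_ccc (hE : Ext P le one G val) (hc : CCC P le) {R : N → N → Prop}
    (hR : Dfn (fun w : Fin 2 → N => R (w 0) (w 1))) {A B : M}
    (hun : ∀ a, a ∈ A → ∀ b, b ∈ B → ∀ b', b' ∈ B → R (val (ck one a)) (val (ck one b)) →
      R (val (ck one a)) (val (ck one b')) → b = b') :
    ∃ H, H ∈ fs A (pw B) ∧ (∀ a, a ∈ A → Le (ap H a) (SigB.om : M)) ∧ ∀ a, a ∈ A → ∀ b, b ∈ B →
      R (val (ck one a)) (val (ck one b)) → b ∈ ap H a := by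
  have hP := hE.po
  have hG := hE.gen
  obtain ⟨F, hF, hFP, hFm, hFd, hFt⟩ := hE.forcing2 hR
  have hF' : ∀ {n : ℕ} {s t r : (Fin n → M) → M}, DT s → DT t → DT r →
      Dfn fun v => F (s v) (t v) (r v) := fun hs ht hr => dfn3 hF hs ht hr
  -- a condition which forces that the relation is a function
  obtain ⟨p₀, hp₀, hQ⟩ := hG.below hP (p := one)
    (Q := fun s => (∀ r, op r s ∈ le → ∀ a, a ∈ A → ∀ b, b ∈ B → ∀ b', b' ∈ B →
      F r (ck one a) (ck one b) → F r (ck one a) (ck one b') → b = b') ∨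
      ∃ a, a ∈ A ∧ ∃ b, b ∈ B ∧ ∃ b', b' ∈ B ∧ b ≠ b' ∧ F s (ck one a) (ck one b) ∧
        F s (ck one a) (ck one b'))
    (by simp (maxDischargeDepth := 50) [hF']) hG.one (by
      intro q hq
      by_cases h : ∀ r, op r q ∈ le → ∀ a, a ∈ A → ∀ b, b ∈ B → ∀ b', b' ∈ B →
        F r (ck one a) (ck one b) → F r (ck one a) (ck one b') → b = b'
      · exact ⟨q, hP.refl _ (hP.sub _ _ hq).1, Or.inl h⟩
      · push Not at h
        obtain ⟨r, hr, a, ha, b, hb, b', hb', h1, h2, h3⟩ := h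
        exact ⟨r, hr, Or.inr ⟨a, ha, b, hb, b', hb', h3, h1, h2⟩⟩)
  rcases hQ with hQ | ⟨a, ha, b, hb, b', hb', h1, h2, h3⟩
  swap
  · exact absurd (hun a ha b hb b' hb' ((hFt _ _).2 ⟨p₀, hp₀, h2⟩) ((hFt _ _).2 ⟨p₀, hp₀, h3⟩)) h1
  let K : M → M := fun a => sp B fun b => ∃ p, op p p₀ ∈ le ∧ F p (ck one a) (ck one b)
  have hKm : ∀ a b, b ∈ K a ↔ b ∈ B ∧ ∃ p, op p p₀ ∈ le ∧ F p (ck one a) (ck one b) := fun a b =>
    mem_sp (by simp (maxDischargeDepth := 50) [hF'])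
  have hK : DT (fun w : Fin 1 → M => K (w 0)) := by
    refine dt_sp (P := fun (w : Fin 1 → M) b => ∃ p, op p p₀ ∈ le ∧ F p (ck one (w 0)) (ck one b))
      (DT.const B) ?_
    simp (maxDischargeDepth := 50) [hF']
  refine ⟨lam A K, lam_mem_fs hK fun a _ => mem_pw.2 fun b hb => ((hKm a b).1 hb).1,
    fun a ha => ?_, fun a ha b hb hab => ?_⟩
  · rw [ap_lam hK ha]
    obtain ⟨e, he, hee⟩ := choice' (a := K a) (b := P)
      (P := fun b p => op p p₀ ∈ le ∧ F p (ck one a) (ck one b))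
      (by simp (maxDischargeDepth := 50) [hF']) (by
        intro b hb
        obtain ⟨-, p, hp, hFp⟩ := (hKm a b).1 hb
        exact ⟨p, (hP.sub _ _ hp).1, hp, hFp⟩)
    have hde : DT (fun w : Fin 1 → M => ap e (w 0)) := by simp (maxDischargeDepth := 50)
    have key : ∀ b, b ∈ K a → ∀ b', b' ∈ K a → Cmp le (ap e b) (ap e b') → b = b' := by
      rintro b hb b' hb' ⟨r, hr, hr'⟩
      obtain ⟨h1, h2⟩ := hee b hb
      obtain ⟨h3, h4⟩ := hee b' hb'
      exact hQ r (hP.trans _ _ _ hr h1) a ha b ((hKm a b).1 hb).1 b' ((hKm a b').1 hb').1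
        (hFm _ _ _ _ h2 hr) (hFm _ _ _ _ h4 hr')
    refine Le.trans (B := im (K a) (ap e)) (Le.mk hde (fun b hb => (mem_im hde).2 ⟨b, hb, rfl⟩)
      fun b b' hb hb' h => key b hb b' hb' ?_) (hc _ (fun p hp => ?_) fun p hp q hq hpq => ?_)
    · have h1 := hP.refl _ ((mem_fs.1 he).2 b hb)
      exact ⟨ap e b, h1, by rwa [← h]⟩
    · obtain ⟨b, hb, rfl⟩ := (mem_im hde).1 hp
      exact (mem_fs.1 he).2 b hb
    · obtain ⟨b, hb, rfl⟩ := (mem_im hde).1 hp
      obtain ⟨b', hb', rfl⟩ := (mem_im hde).1 hq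
      rw [key b hb b' hb' hpq]
  · rw [ap_lam hK ha]
    obtain ⟨p, hp, hFp⟩ := (hFt _ _).1 hab
    obtain ⟨r, hr, hrp, hrp₀⟩ := hG.dir p p₀ hp hp₀
    exact (hKm a b).2 ⟨hb, r, hrp₀, hFm _ _ _ _ hFp hrp⟩

/-- The first uncountable ordinal remains uncountable. -/
theorem w1_nle (hE : Ext P le one G val) (hc : CCC P le) {w : M} (hw : W1 w) :
    ¬ Le (val (ck one w)) (SigB.om : N) := by
  rintro ⟨g, hg, hgi⟩
  obtain ⟨hg1, hg2⟩ := mem_fs.1 hg
  obtain ⟨H, hH, hH1, hH2⟩ := cover_ccc hE hc (R := fun x y => op y x ∈ g)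
    (by simp (maxDischargeDepth := 50)) (A := (SigB.om : M)) (B := w) (by
      intro n hn b hb b' hb' h h'
      have hbv := hE.cv_mem.2 hb
      have hbv' := hE.cv_mem.2 hb'
      refine hE.cv_inj.1 (hgi _ _ hbv hbv' ?_)
      rw [(hg1.op_mem_iff hbv).1 h, (hg1.op_mem_iff hbv').1 h'])
  refine hw.nle ?_
  have hdH : DT (fun w : Fin 1 → M => ap H (w 0)) := by simp (maxDischargeDepth := 50)
  refine Le.mono_left (Le.union om_ord (Sb.refl _) ((Le.refl (SigB.om : M)).image om_ord hdH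
    fun y hy => (mem_im hdH).1 hy) fun y hy => ?_) (A := sU (im SigB.om (ap H))) fun b hb => ?_
  · obtain ⟨n, hn, rfl⟩ := (mem_im hdH).1 hy
    exact hH1 n hn
  · have hbv := hE.cv_mem.2 hb
    have h1 := hg2 _ hbv
    rw [← hE.cv_om] at h1
    obtain ⟨n, hn, he⟩ := hE.mem_cv.1 h1
    exact mem_sU.2 ⟨ap H n, (mem_im hdH).2 ⟨n, hn, rfl⟩,
      hH2 n hn b hb ((hg1.op_mem_iff hbv).2 he)⟩

/-- The copy of `ω₁` is `ω₁`. -/
theorem w1_ext (hE : Ext P le one G val) (hc : CCC P le) {w : M} (hw : W1 w) :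
    W1 (val (ck one w)) where
  ord := hE.cv_ord.2 hw.ord
  nle := w1_nle hE hc hw
  mem b hb := by
    obtain ⟨β, hβ, rfl⟩ := hE.ord_eq hb
    constructor
    · intro h
      have h1 : β ∈ w := hE.cv_mem.1 h
      have h2 := hE.cv_le ((hw.mem β hβ).1 h1)
      rwa [hE.cv_om] at h2
    · intro h
      refine hE.cv_mem.2 (by_contra fun hno => w1_nle hE hc hw ?_)
      exact h.mono_left (hE.cv_sb.2 ((hβ.not_mem_iff hw.ord).1 hno))

/-- Every countable ordinal of the extension is the copy of a countable ordinal. -/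
theorem w1_lift (hE : Ext P le one G val) (hc : CCC P le) {b : N} (hb : SigB.Ord b)
    (hbc : Le b (SigB.om : N)) : ∃ β, SigB.Ord β ∧ Le β (SigB.om : M) ∧ b = val (ck one β) := by
  obtain ⟨w, hw⟩ := FDia.exists_w1 (M := M)
  have h1 := ((w1_ext hE hc hw).mem b hb).2 hbc
  obtain ⟨β, hβ, rfl⟩ := hE.mem_cv.1 h1
  exact ⟨β, hw.ord.mem hβ, (hw.mem β (hw.ord.mem hβ)).1 hβ, rfl⟩

/-- The elements of `B` whose copies belong to a countable set of the extension are covered by a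
countable subset of `B` in the ground model. -/
theorem ccc_cover_set (hE : Ext P le one G val) (hc : CCC P le) {B : M} {x : N}
    (hxc : Le x (SigB.om : N)) :
    ∃ C, Sb C B ∧ Le C (SigB.om : M) ∧ ∀ b, b ∈ B → val (ck one b) ∈ x → b ∈ C := by
  obtain ⟨g, hg, hgi⟩ := hxc
  obtain ⟨hg1, hg2⟩ := mem_fs.1 hg
  obtain ⟨H, hH, hH1, hH2⟩ := cover_ccc hE hc (R := fun n y => y ∈ x ∧ op y n ∈ g)
    (by simp (maxDischargeDepth := 50)) (A := (SigB.om : M)) (B := B) (by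
      rintro n hn b hb b' hb' ⟨h1, h2⟩ ⟨h3, h4⟩
      refine hE.cv_inj.1 (hgi _ _ h1 h3 ?_)
      rw [(hg1.op_mem_iff h1).1 h2, (hg1.op_mem_iff h3).1 h4])
  have hdH : DT (fun w : Fin 1 → M => ap H (w 0)) := by simp (maxDischargeDepth := 50)
  refine ⟨sU (im SigB.om (ap H)), fun b hb => ?_, Le.union om_ord (Sb.refl _)
    ((Le.refl (SigB.om : M)).image om_ord hdH fun y hy => (mem_im hdH).1 hy) fun y hy => ?_,
    fun b hb hbx => ?_⟩
  · obtain ⟨y, hy, hby⟩ := mem_sU.1 hb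
    obtain ⟨n, hn, rfl⟩ := (mem_im hdH).1 hy
    exact mem_pw.1 ((mem_fs.1 hH).2 n hn) b hby
  · obtain ⟨n, hn, rfl⟩ := (mem_im hdH).1 hy
    exact hH1 n hn
  · have h1 := hg2 _ hbx
    rw [← hE.cv_om] at h1
    obtain ⟨n, hn, he⟩ := hE.mem_cv.1 h1
    exact mem_sU.2 ⟨ap H n, (mem_im hdH).2 ⟨n, hn, rfl⟩,
      hH2 n hn b hb ⟨hbx, (hg1.op_mem_iff hbx).2 he⟩⟩

end Pool.Agent.Sep
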