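import Pool.Agent.Sep.Emb
import Pool.Agent.Sep.SeqC

/-!
The sequence of the coding reals is absolute for transitive embeddings with the same ordinals.
-/

universe u v

set_option linter.unusedSectionVars false

namespace Pool.Agent.Sep

open Pool.Agent.SigB Pool.Agent.Forc

variable {M : Type u} {N : Type v} [Membership M M] [Membership N N] [IsZFC M] [IsZFC N]
  {j : M → N}

/-! ### Some operations -/

theorem seq_iff (hj : GL.TrEmb j) {K s : M} : j s ∈ Seq (j K) ↔ s ∈ Seq K := by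
  rw [← seq_emb hj, hj.mem_iff]

theorem sq_emb (hj : GL.TrEmb j) : j (Sq : M) = Sq := by
  unfold Sq
  rw [seq_emb hj, hj.s_om]

theorem fs_emb (hj : GL.TrEmb j) {k K : M} (hk : k ∈ (om : M)) : j (fs k K) = fs (j k) (j K) := by
  refine hj.eq_of (fun z => hj.s_mem_fs.symm) fun z hz => ?_
  have h1 : z ∈ Seq (j K) := mem_Seq.2 ⟨j k, hj.s_mem_om.2 hk, hz⟩
  rw [← seq_emb hj] at h1
  obtain ⟨x, -, hx⟩ := hj.tr h1
  exact ⟨x, hx⟩

theorem mem_fst_iff {z w : M} : w ∈ fst z ↔ ∃ x, ∃ y, z = op x y ∧ w ∈ x := by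
  unfold fst
  refine mem_cp' (by simp (maxDischargeDepth := 50)) ⟨sU (sU z), ?_⟩
  rintro w ⟨x, y, rfl, hw⟩
  refine mem_sU.2 ⟨x, mem_sU.2 ⟨pr x x, ?_, by simp⟩, hw⟩
  unfold op; simp

theorem mem_snd_iff {z w : M} : w ∈ snd z ↔ ∃ x, ∃ y, z = op x y ∧ w ∈ y := by
  unfold snd
  refine mem_cp' (by simp (maxDischargeDepth := 50)) ⟨sU (sU z), ?_⟩
  rintro w ⟨x, y, rfl, hw⟩
  refine mem_sU.2 ⟨y, mem_sU.2 ⟨pr x y, ?_, by simp⟩, hw⟩
  unfold op; simp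

theorem fst_emb (hj : GL.TrEmb j) (z : M) : j (fst z) = fst (j z) := by
  refine hj.eq_of (fun w => ?_) fun w hw => ?_
  · rw [mem_fst_iff, mem_fst_iff]
    constructor
    · rintro ⟨x, y, rfl, hw⟩
      exact ⟨j x, j y, hj.s_op x y, hj.mem_iff.2 hw⟩
    · rintro ⟨x, y, h, hw⟩
      obtain ⟨x', y', rfl, rfl, rfl⟩ := hj.s_of_op h
      exact ⟨x', y', rfl, hj.mem_iff.1 hw⟩
  · obtain ⟨x, y, h, hw⟩ := mem_fst_iff.1 hw
    obtain ⟨x', y', rfl, rfl, -⟩ := hj.s_of_op h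
    obtain ⟨w, -, rfl⟩ := hj.tr hw
    exact ⟨w, rfl⟩

theorem snd_emb (hj : GL.TrEmb j) (z : M) : j (snd z) = snd (j z) := by
  refine hj.eq_of (fun w => ?_) fun w hw => ?_
  · rw [mem_snd_iff, mem_snd_iff]
    constructor
    · rintro ⟨x, y, rfl, hw⟩
      exact ⟨j x, j y, hj.s_op x y, hj.mem_iff.2 hw⟩
    · rintro ⟨x, y, h, hw⟩
      obtain ⟨x', y', rfl, rfl, rfl⟩ := hj.s_of_op h
      exact ⟨x', y', rfl, hj.mem_iff.1 hw⟩
  · obtain ⟨x, y, h, hw⟩ := mem_snd_iff.1 hw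
    obtain ⟨x', y', rfl, rfl, -⟩ := hj.s_of_op h
    obtain ⟨w, -, rfl⟩ := hj.tr hw
    exact ⟨w, rfl⟩

theorem fc_emb (hj : GL.TrEmb j) {a : M} (ha : Ord a) : j (GL.Fc a) = GL.Fc (j a) := hj.fc ha

theorem lb_emb (hj : GL.TrEmb j) {a : M} (ha : Ord a) : j (lb a) = lb (j a) := by
  unfold lb
  rw [fst_emb hj, fst_emb hj, fc_emb hj ha]

theorem lt_emb (hj : GL.TrEmb j) {a : M} (ha : Ord a) : j (lt a) = lt (j a) := by
  classical
  have h1 : j (snd (fst (GL.Fc a))) = snd (fst (GL.Fc (j a))) := by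
    rw [snd_emb hj, fst_emb hj, fc_emb hj ha]
  unfold lt
  rw [← h1]
  by_cases h : snd (fst (GL.Fc a)) ∈ (Sq : M)
  · rw [if_pos h, if_pos]
    rw [← sq_emb hj, hj.mem_iff]
    exact h
  · rw [if_neg h, if_neg, hj.s_em]
    rw [← sq_emb hj, hj.mem_iff]
    exact h

theorem xx_emb (hj : GL.TrEmb j) {a : M} (ha : Ord a) : j (GL.XX a) = GL.XX (j a) := by
  refine hj.eq_of (fun z => ?_) fun z hz => ?_
  · rw [GL.mem_XX, GL.mem_XX]
    constructor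
    · rintro ⟨x, hx, rfl⟩
      exact ⟨j x, hj.mem_iff.2 hx, fc_emb hj (ha.mem hx)⟩
    · rintro ⟨x, hx, h⟩
      obtain ⟨x, hx', rfl⟩ := hj.tr hx
      rw [← fc_emb hj (ha.mem hx'), hj.inj] at h
      exact ⟨x, hx', h⟩
  · obtain ⟨x, hx, rfl⟩ := GL.mem_XX.1 hz
    obtain ⟨x, hx', rfl⟩ := hj.tr hx
    exact ⟨_, (fc_emb hj (ha.mem hx')).symm⟩

theorem mu_cases (R : M → Prop) : (SigB.Ord (GL.mu R) ∧ R (GL.mu R) ∧ ∀ b, b ∈ GL.mu R → ¬ R b) ∨
    ((¬ ∃ a : M, SigB.Ord a ∧ R a ∧ ∀ b, b ∈ a → ¬ R b) ∧ GL.mu R = SigB.em) := by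
  by_cases h : ∃ α : M, SigB.Ord α ∧ R α ∧ ∀ β, β ∈ α → ¬ R β
  · obtain ⟨α, h1, h2, h3⟩ := h
    have h4 : ∀ z, z ∈ α ↔ ∃ α, SigB.Ord α ∧ R α ∧ (∀ β, β ∈ α → ¬ R β) ∧ z ∈ α := by
      intro z
      constructor
      · exact fun hz => ⟨α, h1, h2, h3, hz⟩
      · rintro ⟨β, h5, h6, h7, hz⟩
        rcases h1.tri h5 with h8 | h8 | h8
        · exact (h7 α h8 h2).elim
        · rwa [h8]
        · exact (h3 β h8 h6).elim
    have h5 : GL.mu R = α := ext' fun z => by rw [h4 z]; exact GL.mem_cp ⟨α, h4⟩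
    rw [h5]
    exact Or.inl ⟨h1, h2, h3⟩
  · refine Or.inr ⟨h, ?_⟩
    have h4 : ∀ z : M, z ∈ (SigB.em : M) ↔
        ∃ α, SigB.Ord α ∧ R α ∧ (∀ β, β ∈ α → ¬ R β) ∧ z ∈ α := by
      intro z
      constructor
      · exact fun hz => (not_mem_em z hz).elim
      · rintro ⟨α, h1, h2, h3, -⟩
        exact (h ⟨α, h1, h2, h3⟩).elim
    exact ext' fun z => by rw [h4 z]; exact GL.mem_cp ⟨_, h4⟩

theorem ord_mu (R : M → Prop) : SigB.Ord (GL.mu R) := by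
  rcases mu_cases R with ⟨h, -⟩ | ⟨-, h⟩
  · exact h
  · rw [h]
    exact ord_em

/-- The least ordinal with an absolute property. -/
theorem mu_emb (hj : GL.TrEmb j) {P : M → Prop} {Q : N → Prop}
    (hPQ : ∀ a : M, SigB.Ord a → (Q (j a) ↔ P a)) : j (GL.mu P) = GL.mu Q := by
  have hn : ∀ {a : M}, SigB.Ord a → ((∀ b, b ∈ j a → ¬ Q b) ↔ ∀ b, b ∈ a → ¬ P b) := by
    intro a ha
    constructor
    · intro h b hb
      rw [← hPQ b (ha.mem hb)]
      exact h _ (hj.mem_iff.2 hb)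
    · intro h b hb
      obtain ⟨b, hb', rfl⟩ := hj.tr hb
      rw [hPQ b (ha.mem hb')]
      exact h b hb'
  rcases mu_cases P with ⟨h1, h2, h3⟩ | ⟨h1, h2⟩
  · rcases mu_cases Q with ⟨h4, h5, h6⟩ | ⟨h4, -⟩
    · obtain ⟨b, hb, hbe⟩ := hj.s_ord_lift h4
      rw [hbe] at h5 h6 ⊢
      rw [hPQ b hb] at h5
      rw [hn hb] at h6
      rcases h1.tri hb with h | h | h
      · exact (h6 _ h h2).elim
      · rw [h]
      · exact (h3 _ h h5).elim
    · exact (h4 ⟨j (GL.mu P), hj.s_ord.2 h1, (hPQ _ h1).2 h2, (hn h1).2 h3⟩).elim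
  · rcases mu_cases Q with ⟨h4, h5, h6⟩ | ⟨-, h4⟩
    · obtain ⟨b, hb, hbe⟩ := hj.s_ord_lift h4
      rw [hbe] at h5 h6
      exact (h1 ⟨b, hb, (hPQ b hb).1 h5, (hn hb).1 h6⟩).elim
    · rw [h2, h4, hj.s_em]

/-! ### The branches -/

theorem okk_emb (hj : GL.TrEmb j) {h a d u s i k : M} :
    Okk (j h) (j a) (j d) (j u) (j s) (j i) (j k) ↔ Okk h a d u s i k := by
  unfold Okk
  constructor
  · intro H l hl
    have h1 := H (j l) (hj.mem_iff.2 hl)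
    simp only [← hj.s_ap, hj.mem_iff, hj.s_sb, hj.inj, ne_eq] at h1
    exact h1
  · intro H l hl
    obtain ⟨l, hl', rfl⟩ := hj.tr hl
    simp only [← hj.s_ap, hj.mem_iff, hj.s_sb, hj.inj, ne_eq]
    exact H l hl'

theorem gb_emb (hj : GL.TrEmb j) {h a x : M} (ha : Ord a) :
    Gb (j h) (j a) (j x) ↔ Gb h a x := by
  have hfs : ∀ {k K : M}, k ∈ (om : M) → ∀ u, u ∈ fs (j k) (j K) → ∃ w, w ∈ fs k K ∧ u = j w := by
    intro k K hk u hu
    rw [← fs_emb hj hk] at hu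
    exact hj.tr hu
  unfold Gb
  refine and_congr hj.s_real (and_congr (by rw [← lt_emb hj ha, hj.s_sb]) (and_congr ?_ ?_))
  · constructor
    · intro H c hc he
      refine H (j c) (hj.mem_iff.2 hc) ?_
      rw [← hj.s_ap, he]
    · intro H c hc he
      obtain ⟨c, hc', rfl⟩ := hj.tr hc
      rw [← hj.s_ap, hj.inj] at he
      exact H c hc' he
  · constructor
    · intro H k D u i₁ s hk hD hu hi₁ hui hs hIf
      have h1 := H (j k) (j D) (j u) (j i₁) (j s) (hj.s_mem_om.2 hk)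
        (by rw [← xx_emb hj ha, hj.mem_iff]; exact hD)
        (by rw [← hj.s_sc]; exact hj.s_mem_fs.2 hu) (hj.mem_iff.2 hi₁)
        (by rw [← hj.s_ap, hj.mem_iff]; exact hui)
        (by rw [← sq_emb hj]; exact hj.s_mem_fs.2 hs) (by
          intro t ht
          rw [← sq_emb hj] at ht
          obtain ⟨t, ht', rfl⟩ := hj.tr ht
          obtain ⟨d, h1, h2, h3, h4⟩ := hIf t ht'
          exact ⟨j d, hj.mem_iff.2 h1, by rw [← sq_emb hj]; exact hj.s_mem_fs.2 h2,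
            by rw [← hj.s_ap, hj.s_sb]; exact h3, (okk_emb hj).2 h4⟩)
      obtain ⟨d, h1, h2, h3, h4⟩ := h1
      obtain ⟨d, h1', rfl⟩ := hj.tr h1
      rw [← sq_emb hj] at h2
      rw [← hj.s_ap, hj.s_sb] at h3
      exact ⟨d, h1', hj.s_mem_fs.1 h2, h3, (okk_emb hj).1 h4⟩
    · intro H k D u i₁ s hk hD hu hi₁ hui hs hIf
      obtain ⟨k, hk', rfl⟩ := hj.s_mem_om_lift hk
      rw [← xx_emb hj ha] at hD
      obtain ⟨D, hD', rfl⟩ := hj.tr hD
      rw [← hj.s_sc] at hu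
      obtain ⟨u, hu', rfl⟩ := hfs hk' u hu
      obtain ⟨i₁, hi₁', rfl⟩ := hj.tr hi₁
      rw [← hj.s_ap, hj.mem_iff] at hui
      rw [← sq_emb hj] at hs
      obtain ⟨s, hs', rfl⟩ := hfs hk' s hs
      obtain ⟨d, h1, h2, h3, h4⟩ := H k D u i₁ s hk' hD' hu' hi₁' hui hs' (by
        intro t ht
        obtain ⟨d, h1, h2, h3, h4⟩ := hIf (j t) (by rw [← sq_emb hj, hj.mem_iff]; exact ht)
        obtain ⟨d, h1', rfl⟩ := hj.tr h1
        rw [← sq_emb hj] at h2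
        rw [← hj.s_ap, hj.s_sb] at h3
        exact ⟨d, h1', hj.s_mem_fs.1 h2, h3, (okk_emb hj).1 h4⟩)
      exact ⟨j d, hj.mem_iff.2 h1, by rw [← sq_emb hj]; exact hj.s_mem_fs.2 h2,
        by rw [← hj.s_ap, hj.s_sb]; exact h3, (okk_emb hj).2 h4⟩

theorem nb_emb (hj : GL.TrEmb j) {h a : M} (ha : Ord a) : j (nb a h) = nb (j a) (j h) := by
  have h1 : j (GL.mu fun b => Gb h a (GL.Fc b)) = GL.mu fun b => Gb (j h) (j a) (GL.Fc b) :=
    mu_emb hj fun b hb => by rw [← fc_emb hj hb, gb_emb hj ha]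
  unfold nb
  rw [← h1, fc_emb hj (ord_mu _)]

/-- The sequence of the branches is absolute. -/
theorem br_emb (hj : GL.TrEmb j) {a : M} (ha : Ord a) : j (br a) = br (j a) := by
  have hsa := ord_sc ha
  have hd : DT (fun w : Fin 1 → M => br (w 0)) := dt_br (DT.var 0)
  have hd' : DT (fun w : Fin 1 → N => br (w 0)) := dt_br (DT.var 0)
  have hfn : Fn (lam (sc a) br) (sc a) := fn_lam hd
  have hap : ∀ x, x ∈ sc a → ap (lam (sc a) br) x = br x := fun x hx => ap_lam hd hx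
  have hst : ∀ x, x ∈ sc a → ap (lam (sc a) br) x = nb x (rs (lam (sc a) br) x) := by
    intro x hx
    have hxa : Sb x (sc a) := hsa.sb hx
    rw [hap x hx, br_eq (hsa.mem hx)]
    congr 1
    refine (fn_lam hd).ext (fn_rs hfn hxa) fun y hy => ?_
    rw [ap_lam hd hy, ap_rs hfn hxa hy, hap y (hxa y hy)]
  generalize lam (sc a) br = h at hfn hap hst
  have key : ∀ x, x ∈ j (sc a) → ap (j h) x = br x := by
    have hO : Ord (j (sc a)) := hj.s_ord.2 hsa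
    refine hO.ind (P := fun x => ap (j h) x = br x) (by simp (maxDischargeDepth := 50)) ?_
    intro x hx ih
    obtain ⟨x, hx', rfl⟩ := hj.tr hx
    have hxs : Sb (j x) (j (sc a)) := hO.sb hx
    rw [← hj.s_ap, hst x hx', nb_emb hj (hsa.mem hx'), hj.s_rs, br_eq (hO.mem hx)]
    congr 1
    refine (fn_rs (hj.s_fn.2 hfn) hxs).ext (fn_lam hd') fun y hy => ?_
    rw [ap_rs (hj.s_fn.2 hfn) hxs hy, ap_lam hd' hy, ih y hy]
  rw [← hap a (mem_sc_self a), hj.s_ap]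
  exact key _ (hj.mem_iff.2 (mem_sc_self a))

end Pool.Agent.Sep
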