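import Pool.Agent.Sep.GenR
import Pool.Agent.Sep.HFEmb
import Pool.Agent.Sep.Om1
import Pool.Agent.Sep.SeqEmb
import Pool.Agent.Sep.Names
import Pool.Agent.Sep.Count

/-!
# The generic reals: the extension

The real which is added at a step codes the word of the step.
-/

universe u

set_option linter.unusedSectionVars false

namespace Pool.Agent.Sep

open Pool.Agent.SigB Pool.Agent.Frc Pool.Agent.Forc

section emb

variable {M : Type u} [Membership M M] [IsZFC M] {N : Type u} [Membership N N] [IsZFC N]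
  {j : M → N}

theorem kl_emb (hj : GL.TrEmb j) {a y e : M} (ha : Ord a) : Kl (j a) (j y) (j e) ↔ Kl a y e := by
  have h0 : j (sc SigB.em) = sc SigB.em := by rw [hj.s_sc, hj.s_em]
  constructor
  · intro h c d h1 h2
    have h3 : lb (j a) = op (j c) (j d) := by rw [← lb_emb hj ha, h1, hj.s_op]
    have h4 : Sb (j c) (HF : N) := by rw [← hf_emb hj, hj.s_sb]; exact h2
    rcases h _ _ h3 h4 with ⟨h5, h6⟩ | ⟨h5, h6⟩
    · exact Or.inl ⟨hj.mem_iff.1 h5, hj.inj.1 (h6.trans hj.s_em.symm)⟩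
    · exact Or.inr ⟨hj.mem_iff.1 h5, hj.inj.1 (h6.trans h0.symm)⟩
  · intro h c d h1 h2
    rw [← lb_emb hj ha] at h1
    obtain ⟨c, d, rfl, rfl, h3⟩ := hj.s_of_op h1
    rw [← hf_emb hj, hj.s_sb] at h2
    rcases h _ _ h3 h2 with ⟨h5, h6⟩ | ⟨h5, h6⟩
    · exact Or.inl ⟨hj.mem_iff.2 h5, by rw [h6, hj.s_em]⟩
    · exact Or.inr ⟨hj.mem_iff.2 h5, by rw [h6, h0]⟩

end emb

namespace GR

variable {M : Type u} [Membership M M] [IsZFC M] {K : Cst M} {X : M}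

theorem lq_rs_self (K : Cst M) (q D : M) : Lq K q (rs q D) := by
  refine ⟨rs_sb _ _, fun k v a hv hn ha => ?_⟩
  exact absurd (nd_mem_rs.2 ⟨hv, (pm_mem_rs.1 ha).2⟩) hn

theorem rs_of_PX {b D : M} (hX : IsSys K X) (hD : Cl X D) (hb : b ∈ PX K (rs X D)) :
    rs b D = b := ext' fun z => by
  refine ⟨fun h => rs_sb _ _ z h, fun h => mem_rs'.2 ⟨h, ?_⟩⟩
  rcases mem_atm.1 ((mem_PX.1 hb).1.1 z h) with ⟨j, v, -, -, rfl⟩ | ⟨j, a, -, -, rfl⟩
  · exact ⟨j, dm_of_PX hX hD hb h, _, rfl⟩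
  · exact ⟨j, dm_of_PX hX hD hb h, _, rfl⟩

theorem lq_rs_of {p b D : M} (hX : IsSys K X) (hD : Cl X D) (hb : b ∈ PX K (rs X D))
    (h : Lq K p b) : Lq K (rs p D) b := by
  have := lq_rs h D
  rwa [rs_of_PX hX hD hb] at this

end GR

section ext

variable {M : Type u} [Membership M M] [IsZFC M] {K : Cst M} {X : M} {N : Type u}
  [Membership N N] [IsZFC N] {val : M → N} {G : M → Prop}

/-- The filter meets the sets which are dense below one of its elements. -/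
theorem gen_meets (hE : Ext (PX K X) (LX K X) SigB.em G val) {D : M → Prop}
    (hD : Dfn (fun w : Fin 1 → M => D (w 0))) {g : M} (hg : G g)
    (h : ∀ p, p ∈ PX K X → Lq K p g → ∃ q, q ∈ PX K X ∧ Lq K q p ∧ D q) :
    ∃ q, G q ∧ Lq K q g ∧ D q := by
  have hD' : Dfn (fun w : Fin 1 → M => (Lq K (w 0) g ∧ D (w 0)) ∨
      ¬ ∃ r, r ∈ PX K X ∧ Lq K r (w 0) ∧ Lq K r g) := by
    have := hD
    simp (maxDischargeDepth := 50) [hD]
  obtain ⟨q, hq, hqD⟩ := hE.gen.gen (sp (PX K X) fun q => (Lq K q g ∧ D q) ∨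
    ¬ ∃ r, r ∈ PX K X ∧ Lq K r q ∧ Lq K r g) fun p hp => by
      by_cases hc : ∃ r, r ∈ PX K X ∧ Lq K r p ∧ Lq K r g
      · obtain ⟨r, h1, h2, h3⟩ := hc
        obtain ⟨q, h4, h5, h6⟩ := h r h1 h3
        exact ⟨q, op_mem_LX.2 ⟨⟨h4, hp⟩, GR.lq_trans h5 h2⟩,
          (mem_sp hD').2 ⟨h4, Or.inl ⟨GR.lq_trans h5 h3, h6⟩⟩⟩
      · exact ⟨p, op_mem_LX.2 ⟨⟨hp, hp⟩, GR.lq_refl K p⟩, (mem_sp hD').2 ⟨hp, Or.inr hc⟩⟩
  rcases ((mem_sp hD').1 hqD).2 with h1 | h1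
  · exact ⟨q, hq, h1.1, h1.2⟩
  · obtain ⟨r, h2, h3, h4⟩ := hE.gen.dir q g hq hg
    exact absurd ⟨r, (op_mem_LX.1 h3).1.1, (op_mem_LX.1 h3).2, (op_mem_LX.1 h4).2⟩ h1

theorem gen_up (hE : Ext (PX K X) (LX K X) SigB.em G val) {p q : M} (hp : G p) (hq : q ∈ PX K X)
    (h : Lq K p q) : G q :=
  hE.gen.up _ _ hp (op_mem_LX.2 ⟨⟨hE.gen.mem _ hp, hq⟩, h⟩)

theorem gen_dir (hE : Ext (PX K X) (LX K X) SigB.em G val) {p q : M} (hp : G p) (hq : G q) :
    ∃ r, G r ∧ r ∈ PX K X ∧ Lq K r p ∧ Lq K r q := by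
  obtain ⟨r, h1, h2, h3⟩ := hE.gen.dir p q hp hq
  exact ⟨r, h1, (op_mem_LX.1 h2).1.1, (op_mem_LX.1 h2).2, (op_mem_LX.1 h3).2⟩

/-- The nodes on a promised branch are decided. -/
theorem nd_of_pm (hE : Ext (PX K X) (LX K X) SigB.em G val) {q r j a v : M} (hq : G q)
    (hr : G r) (ha : pm j a ∈ q) (hon : op v a ∈ K.on) (hv : nd j v ∈ r) : nd j v ∈ q := by
  obtain ⟨s, -, -, h1, h2⟩ := gen_dir hE hq hr
  by_contra hn
  exact h1.2 j v a (h2.1 _ hv) hn ha hon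

theorem single_gen (hE : Ext (PX K X) (LX K X) SigB.em G val) {j v : M} :
    (∃ q, G q ∧ nd j v ∈ q) ↔ G (pr (nd j v) (nd j v)) := by
  constructor
  · rintro ⟨q, hq, hv⟩
    obtain ⟨⟨h1, h2⟩, h3, h4⟩ := mem_PX.1 (hE.gen.mem _ hq)
    have h5 := h3 _ hv
    rw [fst_nd] at h5
    obtain ⟨j', v', h6, h7, h8⟩ : ∃ j' v', j' ∈ K.lab ∧ v' ∈ K.T ∧ nd j v = nd j' v' := by
      rcases mem_atm.1 (h1 _ hv) with h | ⟨_, _, _, _, h⟩
      · exact h
      · exact absurd h nd_ne_pm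
    obtain ⟨rfl, rfl⟩ := nd_inj.1 h8
    refine gen_up hE hq (single_PX h6 h5 h7) ⟨fun z hz => ?_, fun k w a _ _ ha => ?_⟩
    · rw [mem_pr, or_self] at hz
      rw [hz]
      exact hv
    · rw [mem_pr, or_self] at ha
      exact absurd ha.symm nd_ne_pm
  · intro h
    exact ⟨_, h, by simp⟩

/-- The elements of the real of a step. -/
theorem mem_real (hE : Ext (PX K X) (LX K X) SigB.em G val) (hK : KS K) (hX : IsSys K X) {j : M}
    (hj : j ∈ dm X) {z : N} : z ∈ val (nm SigB.em (rN K j)) ↔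
      ∃ v, v ∈ (Sq : M) ∧ (∃ q, G q ∧ nd j v ∈ q) ∧ z = val (ck SigB.em v) := by
  rw [hE.mem_val_nm (rN_sb hK hX hj)]
  constructor
  · rintro ⟨v, p, h1, h2, rfl⟩
    obtain ⟨h3, rfl⟩ := op_mem_rN.1 h1
    rw [hK.T] at h3
    exact ⟨v, h3, (single_gen hE).2 h2, rfl⟩
  · rintro ⟨v, h1, h2, rfl⟩
    rw [← hK.T] at h1
    exact ⟨v, _, op_mem_rN.2 ⟨h1, rfl⟩, (single_gen hE).1 h2, rfl⟩

/-- The real of a step is a set of finite sequences. -/
theorem val_rN_sb (hE : Ext (PX K X) (LX K X) SigB.em G val) (hK : KS K) (hX : IsSys K X) {j : M}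
    (hj : j ∈ dm X) : Sb (val (nm SigB.em (rN K j))) (Sq : N) := by
  intro z hz
  obtain ⟨v, hv, -, rfl⟩ := (mem_real hE hK hX hj).1 hz
  rw [← sq_emb (GL.trEmb_ext hE)]
  exact hE.cv_mem.2 hv

theorem cv_mem_real (hE : Ext (PX K X) (LX K X) SigB.em G val) (hK : KS K) (hX : IsSys K X)
    {j v : M} (hj : j ∈ dm X) : val (ck SigB.em v) ∈ val (nm SigB.em (rN K j)) ↔
      v ∈ (Sq : M) ∧ ∃ q, G q ∧ nd j v ∈ q := by
  rw [mem_real hE hK hX hj]
  constructor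
  · rintro ⟨v', h1, h2, h3⟩
    rw [hE.cv_inj.1 h3]
    exact ⟨h1, h2⟩
  · rintro ⟨h1, h2⟩
    exact ⟨v, h1, h2, rfl⟩

theorem mem_word (hE : Ext (PX K X) (LX K X) SigB.em G val) (hX : IsSys K X) {j : M}
    (hj : j ∈ dm X) {z : N} : z ∈ val (nm SigB.em (wN X j)) ↔
      ∃ y b, op (op y (sc SigB.em)) b ∈ fW X j ∧ G b ∧ z = val (ck SigB.em y) := by
  rw [hE.mem_val_nm (nm_wN hX hj).1]
  constructor
  · rintro ⟨y, b, h1, h2, rfl⟩
    exact ⟨y, b, op_mem_wN.1 h1, h2, rfl⟩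
  · rintro ⟨y, b, h1, h2, rfl⟩
    exact ⟨y, b, op_mem_wN.2 h1, h2, rfl⟩

theorem cv_mem_word (hE : Ext (PX K X) (LX K X) SigB.em G val) (hX : IsSys K X) {j y : M}
    (hj : j ∈ dm X) : val (ck SigB.em y) ∈ val (nm SigB.em (wN X j)) ↔
      ∃ b, G b ∧ op (op y (sc SigB.em)) b ∈ fW X j := by
  rw [mem_word hE hX hj]
  constructor
  · rintro ⟨y', b, h1, h2, h3⟩
    rw [hE.cv_inj.1 h3]
    exact ⟨b, h2, h1⟩
  · rintro ⟨b, h1, h2⟩
    exact ⟨y, b, h2, h1, rfl⟩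

/-- The decisions of the word name. -/
theorem word_shape (hX : IsSys K X) {j σ b : M} (hj : j ∈ dm X) (h : op σ b ∈ fW X j) :
    b ∈ PX K (rs X (fD X j)) ∧ ∃ y e, y ∈ K.hf ∧ e ∈ sc (sc (SigB.em : M)) ∧ σ = op y e := by
  obtain ⟨y, e, b', h2, h3, h4, h5⟩ := (hX.wOk hj).2.1 _ h
  obtain ⟨rfl, rfl⟩ := op_inj.1 h5
  exact ⟨h4, y, e, h2, h3, rfl⟩

theorem mem_two {e : M} : e ∈ sc (sc (SigB.em : M)) ↔ e = SigB.em ∨ e = sc SigB.em := by
  rw [mem_sc, mem_sc]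
  constructor
  · rintro ((h | h) | h)
    · exact (not_mem_em _ h).elim
    · exact Or.inl h
    · exact Or.inr h
  · rintro (h | h)
    · exact Or.inl (Or.inr h)
    · exact Or.inr h

/-- The decisions of the filter are right. -/
theorem not_mem_word (hE : Ext (PX K X) (LX K X) SigB.em G val) (hX : IsSys K X) {j y b : M}
    (hj : j ∈ dm X) (hb : G b) (h : op (op y SigB.em) b ∈ fW X j) :
    val (ck SigB.em y) ∉ val (nm SigB.em (wN X j)) := by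
  rw [cv_mem_word hE hX hj]
  rintro ⟨b', hb', h'⟩
  have hD := hX.cl hj
  obtain ⟨r, -, hr, h1, h2⟩ := gen_dir hE hb hb'
  refine (hX.wOk hj).2.2.1 y b b' (rs r (fD X j)) h h' (GR.rs_PX hX hD hr) ⟨?_, ?_⟩
  · exact GR.lq_rs_of hX hD (word_shape hX hj h).1 h1
  · exact GR.lq_rs_of hX hD (word_shape hX hj h').1 h2

/-- Below the guard every element is decided by the filter. -/
theorem gen_decide (hE : Ext (PX K X) (LX K X) SigB.em G val) (hX : IsSys K X) {j y g : M}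
    (hj : j ∈ dm X) (hg : G g) (hgD : g ∈ PX K (rs X (fD X j)))
    (hT : Tot K (rs X (fD X j)) (fW X j) g) (hy : y ∈ K.hf) :
    ∃ e b, G b ∧ b ∈ PX K (rs X (fD X j)) ∧ e ∈ sc (sc (SigB.em : M)) ∧
      op (op y e) b ∈ fW X j := by
  have hD := hX.cl hj
  obtain ⟨q, hq, -, e, b, h1, h2⟩ := gen_meets hE (D := fun q => ∃ e b, op (op y e) b ∈ fW X j ∧
    Lq K (rs q (fD X j)) b) (by simp (maxDischargeDepth := 50)) hg fun p hp hpg =>
      GR.decide hX hj hp hT (GR.lq_rs_of hX hD hgD hpg) hy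
  obtain ⟨h3, y', e', h4, h5, h6⟩ := word_shape hX hj h1
  obtain ⟨rfl, rfl⟩ := op_inj.1 h6
  exact ⟨e, b, gen_up hE hq (GR.PX_of_rs hX hD h3)
    (GR.lq_trans (GR.lq_rs_self K q _) h2), h3, h5, h1⟩

/-- **The real of a step codes the word of the step** if the filter meets the guard. -/
theorem codes_word (hE : Ext (PX K X) (LX K X) SigB.em G val) (hK : KS K) (hL : GL.AllL M)
    (hX : IsSys K X) {j g : M} (hj : j ∈ dm X) (hg : G g) (hgD : g ∈ PX K (rs X (fD X j)))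
    (hT : Tot K (rs X (fD X j)) (fW X j) g) :
    Codes (val (nm SigB.em (rN K j))) (val (nm SigB.em (wN X j))) := by
  have hi := GL.trEmb_ext hE
  have hccc : CCC (PX K X) (LX K X) :=
    hX.ccc (by rw [hK.T]; exact le_Sq) (w1_le_pw hK.w1)
  have hD := hX.cl hj
  have hhf : ∀ {y : M}, y ∈ K.hf → y ∈ (HF : M) := fun {y} h => by rwa [hK.hf] at h
  have hw : Sb (val (nm SigB.em (wN X j))) (HF : N) := by
    intro z hz
    obtain ⟨y, b, h1, -, rfl⟩ := (mem_word hE hX hj).1 hz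
    obtain ⟨-, y', e', h4, -, h6⟩ := word_shape hX hj h1
    obtain ⟨rfl, -⟩ := op_inj.1 h6
    exact (mem_hf_emb hi).2 (hhf h4)
  intro a' ha' hac'
  obtain ⟨a, ha, hac, rfl⟩ := w1_lift hE hccc ha' hac'
  have haix : a ∈ K.ix := hK.mem_ix.2 ⟨ha, hac⟩
  have hbr : br (val (ck SigB.em a)) = val (ck SigB.em (br a)) := (br_emb hi ha).symm
  have hiff := kl_iff (a := val (ck SigB.em a)) hw
  have hIn : InB (lb (val (ck SigB.em a))) (val (nm SigB.em (wN X j))) ↔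
      ∃ c d, lb (val (ck SigB.em a)) = op c d ∧ Sb c (val (nm SigB.em (wN X j))) ∧
        ∀ x, x ∈ d → x ∉ val (nm SigB.em (wN X j)) := Iff.rfl
  rw [hIn, hiff, hbr]
  have h1e : val (ck SigB.em (sc SigB.em)) = (sc SigB.em : N) := by rw [hE.cv_sc, hE.cv_em]
  constructor
  · rintro ⟨m, hm, hb⟩
    obtain ⟨m, hm', rfl⟩ := hi.s_mem_om_lift hm
    obtain ⟨q, hq, -, h1⟩ := gen_meets hE (D := fun q => pm j a ∈ q ∨ ∃ v n, v ∈ (Sq : M) ∧
      op v a ∈ K.on ∧ n ∈ (SigB.om : M) ∧ m ∈ n ∧ Fn v n ∧ nd j v ∈ q)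
      (by simp (maxDischargeDepth := 50)) hg fun p hp _ => by
        by_cases hpa : pm j a ∈ p
        · exact ⟨p, hp, GR.lq_refl K p, Or.inl hpa⟩
        · obtain ⟨v, n, h1, h2, h3, h4, h5, h6⟩ := GR.exists_node hK hL hp haix hpa hm'
          obtain ⟨h7, h8⟩ := GR.ins_nd hp (hX.lab hj) hj (by rw [hK.T]; exact h1) h6
          exact ⟨_, h7, h8, Or.inr ⟨v, n, h1, h2, h3, h4, h5, mem_ins.2 (Or.inr rfl)⟩⟩
    rcases h1 with h1 | ⟨v, n, h1, h2, h3, h4, h5, h6⟩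
    · obtain ⟨σ, b, h2, h3, h4⟩ := (mem_PX.1 (hE.gen.mem _ hq)).2.2 j a h1
      obtain ⟨h5, y, e, h6, h7, rfl⟩ := word_shape hX hj h2
      have hb' : G b := gen_up hE hq (GR.PX_of_rs hX hD h5)
        (GR.lq_trans (GR.lq_rs_self K q _) h3)
      have hKl : Kl a y e := ((hK.kl _ _ _).1 h4).2.2.2
      refine ⟨val (ck SigB.em y), (mem_hf_emb hi).2 (hhf h6), ?_⟩
      rcases mem_two.1 h7 with rfl | rfl
      · refine Or.inr ⟨not_mem_word hE hX hj hb' h2, ?_⟩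
        have := (kl_emb hi (y := y) (e := SigB.em) ha).2 hKl
        rwa [hE.cv_em] at this
      · refine Or.inl ⟨(cv_mem_word hE hX hj).2 ⟨b, hb', h2⟩, ?_⟩
        have := (kl_emb hi (y := y) (e := sc SigB.em) ha).2 hKl
        rwa [h1e] at this
    · exfalso
      obtain ⟨-, -, h7⟩ := (hK.on _ _).1 h2
      obtain ⟨n', hn', hf'⟩ := hb _ ((cv_mem_real hE hK hX hj).2 ⟨h1, q, hq, h6⟩)
        (hi.s_sb.2 h7)
      have h8 : n' = val (ck SigB.em n) := (dm_of_fn hf').symm.trans (dm_of_fn (hi.s_fn.2 h5))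
      rw [h8, hE.cv_mem] at hn'
      exact not_mem_self n ((ord_of_mem_om h3).trans hn' h4)
  · rintro ⟨y, hy, h⟩
    obtain ⟨y, hy', rfl⟩ := hf_lift hi hy
    have hyK : y ∈ K.hf := by rw [hK.hf]; exact hy'
    obtain ⟨e, b, hb, hbD, he, hbW⟩ := gen_decide hE hX hj hg hgD hT hyK
    have hKl : Kl a y e := by
      rcases mem_two.1 he with rfl | rfl
      · rcases h with ⟨h1, -⟩ | ⟨-, h1⟩
        · exact absurd h1 (not_mem_word hE hX hj hb hbW)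
        · refine (kl_emb hi (y := y) (e := SigB.em) ha).1 ?_
          rwa [hE.cv_em]
      · rcases h with ⟨-, h1⟩ | ⟨h1, -⟩
        · refine (kl_emb hi (y := y) (e := sc SigB.em) ha).1 ?_
          rwa [h1e]
        · exact absurd ((cv_mem_word hE hX hj).2 ⟨b, hb, hbW⟩) h1
    obtain ⟨q, hq, -, hqa⟩ := gen_meets hE (D := fun q => pm j a ∈ q)
      (by simp (maxDischargeDepth := 50)) hb fun p hp hpb => by
        obtain ⟨h1, h2⟩ := GR.ins_pm hp (hX.lab hj) hj haix hbW (GR.lq_rs_of hX hD hbD hpb)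
          ((hK.kl _ _ _).2 ⟨haix, hy', he, hKl⟩)
        exact ⟨_, h1, h2, mem_ins.2 (Or.inr rfl)⟩
    obtain ⟨m, hm, hmb⟩ := GR.nodes_bdd (mem_PX.1 (hE.gen.mem _ hq)).1.2
    refine ⟨val (ck SigB.em m), hi.s_mem_om.2 hm, fun t ht hts => ?_⟩
    obtain ⟨v, hv, ⟨q', hq', hvq'⟩, rfl⟩ := (mem_real hE hK hX hj).1 ht
    obtain ⟨n, hn, hvn⟩ := mem_Sq.1 hv
    have hon : op v a ∈ K.on := (hK.on _ _).2 ⟨hv, haix, hi.s_sb.1 hts⟩
    exact ⟨val (ck SigB.em n), hE.cv_mem.2 (hmb j v n (nd_of_pm hE hq hq' hqa hon hvq') hn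
      (mem_fs.1 hvn).1), hi.s_fn.2 (mem_fs.1 hvn).1⟩

/-! ### The words -/

theorem one_ne_two : (sc SigB.em : M) ≠ sc (sc SigB.em) := fun h => sc_ne_em _ (sc_inj h).symm

theorem one_ne_three : (sc SigB.em : M) ≠ sc (sc (sc SigB.em)) :=
  fun h => sc_ne_em _ (sc_inj h).symm

/-- The word of a tag is empty. -/
theorem word_tag (hE : Ext (PX K X) (LX K X) SigB.em G val) (hX : IsSys K X) {j : M}
    (hj : j ∈ dm X) (hc : IsTag X j) : val (nm SigB.em (wN X j)) = SigB.em := by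
  refine ext' fun z => ⟨fun hz => ?_, fun hz => (not_mem_em _ hz).elim⟩
  obtain ⟨y, b, h1, -, rfl⟩ := (mem_word hE hX hj).1 hz
  rw [(hX.tagOk hj hc).2.1, mem_W0] at h1
  obtain ⟨y', -, h2⟩ := h1
  exact (sc_ne_em _ (op_inj.1 (op_inj.1 h2).1).2).elim

theorem tot_tag (hX : IsSys K X) {j : M} (hj : j ∈ dm X) (hc : IsTag X j) :
    Tot K (rs X (fD X j)) (fW X j) SigB.em := by
  intro r hr hrg y hy
  refine ⟨r, hr, GR.lq_refl K r, SigB.em, SigB.em, ?_, GR.lq_em K r⟩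
  rw [(hX.tagOk hj hc).2.1, mem_W0]
  exact ⟨y, hy, rfl⟩

theorem em_PX : (SigB.em : M) ∈ PX K X :=
  mem_PX.2 ⟨⟨fun z hz => (not_mem_em _ hz).elim, fte_em⟩, fun z hz => (not_mem_em _ hz).elim,
    fun _ _ h => (not_mem_em _ h).elim⟩

/-- The word of a code is the word of the triple of its real, the real of its tag and its side. -/
theorem word_code (hE : Ext (PX K X) (LX K X) SigB.em G val) (hK : KS K) (hL : GL.AllL M)
    (hX : IsSys K X) {j : M} (hj : j ∈ dm X) (hc : IsCode X j) (hg : G (cg X j)) :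
    val (nm SigB.em (wN X j)) = wd (val (nm SigB.em (cz X j)))
      (val (nm SigB.em (rN K (cx X j)))) (val (ck SigB.em (ci X j))) := by
  obtain ⟨-, hx, -, hi2, hgD, -, hT, hS⟩ := hX.codeOk hj hc
  have hD := hX.cl hj
  have hxd : cx X j ∈ dm X := hD.1 _ hx
  have h1e : val (ck SigB.em (sc SigB.em)) = (sc SigB.em : N) := by rw [hE.cv_sc, hE.cv_em]
  have h2e : val (ck SigB.em (sc (sc SigB.em))) = (sc (sc SigB.em) : N) := by rw [hE.cv_sc, h1e]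
  have h3e : val (ck SigB.em (sc (sc (sc SigB.em)))) = (sc (sc (sc SigB.em)) : N) := by
    rw [hE.cv_sc, h2e]
  have had : Ad (HF : M) := ad_HF
  have h0 : (SigB.em : M) ∈ (HF : M) := had.1
  have hom : Sb (SigB.om : M) HF := had.om
  have h1 : sc (SigB.em : M) ∈ (HF : M) := hom _ (sc_mem_om em_mem_om)
  have h2 : sc (sc (SigB.em : M)) ∈ (HF : M) := hom _ (sc_mem_om (sc_mem_om em_mem_om))
  have h3 : sc (sc (sc (SigB.em : M))) ∈ (HF : M) :=
    hom _ (sc_mem_om (sc_mem_om (sc_mem_om em_mem_om)))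
  have hiH : ci X j ∈ (HF : M) := by
    rcases mem_two.1 hi2 with h | h
    · rw [h]; exact h0
    · rw [h]; exact h1
  have hzs : Sb (cz X j) (pd K.hf (PX K X)) := by
    intro w hw
    unfold cz zn at hw
    obtain ⟨w', hw', rfl⟩ := (mem_im (by simp (maxDischargeDepth := 50))).1 hw
    obtain ⟨h4, x, b, rfl⟩ := (mem_sp (by simp (maxDischargeDepth := 50))).1 hw'
    obtain ⟨h5, y, e, h6, -, h7⟩ := word_shape hX hj h4
    obtain ⟨rfl, -⟩ := op_inj.1 h7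
    simp only [fst_op, snd_op]
    refine op_mem_pd.2 ⟨?_, GR.PX_of_rs hX hD h5⟩
    rw [hK.hf] at h6 ⊢
    exact tr_HF _ (tr_HF _ h6 (pr SigB.em x) (by unfold SigB.op; rw [mem_pr]; exact Or.inr rfl)) x
      (by rw [mem_pr]; exact Or.inr rfl)
  have hdec : ∀ y, y ∈ (HF : M) → ∃ e b, G b ∧ b ∈ PX K (rs X (fD X j)) ∧
      e ∈ sc (sc (SigB.em : M)) ∧ op (op y e) b ∈ fW X j := fun y hy =>
    gen_decide hE hX hj hg hgD hT (by rw [hK.hf]; exact hy)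
  refine ext' fun x => ⟨fun hz => ?_, fun hz => ?_⟩
  · obtain ⟨y, b, h4, hb, rfl⟩ := (mem_word hE hX hj).1 hz
    rcases (hS y _ b h4).2 with ⟨x, rfl⟩ | ⟨v, rfl, h5⟩ | ⟨-, -, -, h5⟩
    · rw [hE.cv_op, hE.cv_em, op_em_mem_wd, hE.cv_mem_val_nm hzs]
      exact ⟨b, hb, op_mem_zn.2 h4⟩
    · rw [hE.cv_op, h1e, op_one_mem_wd, cv_mem_real hE hK hX hxd]
      rcases h5 with ⟨-, h5⟩ | ⟨h5, -⟩
      · refine ⟨?_, b, hb, h5⟩
        rcases mem_atm.1 ((mem_PX.1 (hE.gen.mem _ hb)).1.1 _ h5) with ⟨j', v', -, h6, h7⟩ |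
          ⟨_, _, _, _, h7⟩
        · rw [(nd_inj.1 h7).2, ← hK.T]; exact h6
        · exact absurd h7 nd_ne_pm
      · exact (sc_ne_em _ h5).elim
    · by_cases h6 : y = op (sc (sc SigB.em)) (ci X j) ∨ y = op (sc (sc (sc SigB.em))) SigB.em
      · rcases h6 with rfl | rfl
        · rw [hE.cv_op, h2e, op_two_mem_wd]
        · rw [hE.cv_op, h3e, hE.cv_em, mem_wd]
          exact Or.inr (Or.inr (Or.inr rfl))
      · exact (sc_ne_em _ (h5 h6)).elim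
  · rcases mem_wd.1 hz with ⟨y, h4, rfl⟩ | ⟨y, h4, rfl⟩ | rfl | rfl
    · obtain ⟨y, p, h5, h6, rfl⟩ := (hE.mem_val_nm hzs).1 h4
      have h7 : op (SigB.em : N) (val (ck SigB.em y)) = val (ck SigB.em (op SigB.em y)) := by
        rw [hE.cv_op, hE.cv_em]
      rw [h7]
      exact (cv_mem_word hE hX hj).2 ⟨p, h6, op_mem_zn.1 h5⟩
    · obtain ⟨v, hv, ⟨q, hq, hvq⟩, rfl⟩ := (mem_real hE hK hX hxd).1 h4
      have h7 : op (sc SigB.em : N) (val (ck SigB.em v)) = val (ck SigB.em (op (sc SigB.em) v)) := by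
        rw [hE.cv_op, h1e]
      rw [h7]
      obtain ⟨e, b, hb, hbD, he, hbW⟩ := hdec (op (sc SigB.em) v) (had.op h1 (Sq_sb_HF v hv))
      refine (cv_mem_word hE hX hj).2 ⟨b, hb, ?_⟩
      rcases (hS _ e b hbW).2 with ⟨x, h8⟩ | ⟨v', h8, h9⟩ | ⟨-, h8, -⟩
      · exact (sc_ne_em _ (op_inj.1 h8).1).elim
      · obtain ⟨-, rfl⟩ := op_inj.1 h8
        rcases h9 with ⟨rfl, -⟩ | ⟨-, h9 | ⟨h9, h10⟩⟩
        · exact hbW
        · exact (h9 (by rw [hK.T]; exact hv)).elim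
        · exact (h10 (nd_of_pm hE hb hq h9 (hK.on_pi hL hv) hvq)).elim
      · exact (h8 ⟨v, rfl⟩).elim
    · have h7 : op (sc (sc SigB.em) : N) (val (ck SigB.em (ci X j))) =
          val (ck SigB.em (op (sc (sc SigB.em)) (ci X j))) := by
        rw [hE.cv_op, h2e]
      rw [h7]
      obtain ⟨e, b, hb, hbD, he, hbW⟩ := hdec (op (sc (sc SigB.em)) (ci X j)) (had.op h2 hiH)
      refine (cv_mem_word hE hX hj).2 ⟨b, hb, ?_⟩
      rcases (hS _ e b hbW).2 with ⟨x, h8⟩ | ⟨v', h8, -⟩ | ⟨-, -, h8, -⟩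
      · exact (sc_ne_em _ (op_inj.1 h8).1).elim
      · exact (sc_ne_em _ (sc_inj (op_inj.1 h8).1)).elim
      · rw [h8 (Or.inl rfl)] at hbW
        exact hbW
    · have h7 : op (sc (sc (sc SigB.em)) : N) SigB.em =
          val (ck SigB.em (op (sc (sc (sc SigB.em))) SigB.em)) := by
        rw [hE.cv_op, h3e, hE.cv_em]
      rw [h7]
      obtain ⟨e, b, hb, hbD, he, hbW⟩ := hdec (op (sc (sc (sc SigB.em))) SigB.em) (had.op h3 h0)
      refine (cv_mem_word hE hX hj).2 ⟨b, hb, ?_⟩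
      rcases (hS _ e b hbW).2 with ⟨x, h8⟩ | ⟨v', h8, -⟩ | ⟨-, -, h8, -⟩
      · exact (sc_ne_em _ (op_inj.1 h8).1).elim
      · exact (sc_ne_em _ (sc_inj (op_inj.1 h8).1)).elim
      · rw [h8 (Or.inr rfl)] at hbW
        exact hbW

/-- **The real of a code codes the word of its triple.** -/
theorem codes_code (hE : Ext (PX K X) (LX K X) SigB.em G val) (hK : KS K) (hL : GL.AllL M)
    (hX : IsSys K X) {j : M} (hj : j ∈ dm X) (hc : IsCode X j) (hg : G (cg X j)) :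
    Codes (val (nm SigB.em (rN K j))) (wd (val (nm SigB.em (cz X j)))
      (val (nm SigB.em (rN K (cx X j)))) (val (ck SigB.em (ci X j)))) := by
  rw [← word_code hE hK hL hX hj hc hg]
  obtain ⟨-, -, -, -, hgD, -, hT, -⟩ := hX.codeOk hj hc
  exact codes_word hE hK hL hX hj hg hgD hT

/-- The word of a code whose guard is not in the filter is empty. -/
theorem word_of_not_guard (hE : Ext (PX K X) (LX K X) SigB.em G val) (hX : IsSys K X) {j : M}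
    (hj : j ∈ dm X) (hc : IsCode X j) (hg : ¬ G (cg X j)) :
    val (nm SigB.em (wN X j)) = SigB.em := by
  refine ext' fun z => ⟨fun hz => ?_, fun hz => (not_mem_em _ hz).elim⟩
  obtain ⟨y, b, h1, hb, rfl⟩ := (mem_word hE hX hj).1 hz
  obtain ⟨-, -, -, -, hgD, -, -, hS⟩ := hX.codeOk hj hc
  exact (hg (gen_up hE hb (GR.PX_of_rs hX (hX.cl hj) hgD) (hS _ _ _ h1).1)).elim

end ext

end Pool.Agent.Sep
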