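import Pool.Agent.Sep.EndR
import Pool.Agent.Sep.EndC
import Pool.Agent.Sep.ForceK
import Pool.Agent.Sep.CSubX
import Pool.Agent.Sep.CccX
import Pool.Agent.Sep.HFEmb
import Pool.Agent.Sep.Om1

/-!
The names in the extension by the poset of a system: sets of hereditarily finite sets, trees, and
the truth lemma for the equality of two names.
-/

universe u

set_option linter.unusedSectionVars false

namespace Pool.Agent.Sep

open Pool.Agent.SigB Pool.Agent.Forc Pool.Agent.Frc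
open Pool.Agent.FDia (W1)

/-! ### Trees -/

section

variable {N : Type u} [Membership N N] [IsZFC N]

theorem rs_mem_HF {x n : N} (hx : x ∈ fs (om : N) om) (hn : n ∈ (om : N)) : rs x n ∈ (HF : N) := by
  obtain ⟨h1, h2⟩ := mem_fs.1 hx
  have hsb : Sb n om := om_ord.sb hn
  refine Sq_sb_HF _ (mem_Sq.2 ⟨n, hn, mem_fs.2 ⟨fn_rs h1 hsb, fun i hi => ?_⟩⟩)
  rw [ap_rs h1 hsb hi]
  exact h2 i (hsb i hi)

/-- The part of the tree `T` in `V_ω` gives the same `Σ¹₃` set. -/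
theorem sigT_hf (T : N) {z : N} (hz : z ∈ fs (om : N) om) :
    SigT (sp T fun x => x ∈ (HF : N)) z ↔ SigT T z := by
  have hd : Dfn (fun w : Fin 1 → N => w 0 ∈ (HF : N)) := by simp
  have hA := ad_HF (M := N)
  constructor
  · rintro ⟨y, hy, h⟩
    refine ⟨y, hy, fun x hx => ?_⟩
    obtain ⟨w, hw, h'⟩ := h x hx
    exact ⟨w, hw, fun n hn => ((mem_sp hd).1 (h' n hn)).1⟩
  · rintro ⟨y, hy, h⟩
    refine ⟨y, hy, fun x hx => ?_⟩
    obtain ⟨w, hw, h'⟩ := h x hx
    refine ⟨w, hw, fun n hn => (mem_sp hd).2 ⟨h' n hn, ?_⟩⟩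
    exact hA.op (rs_mem_HF hz hn) (hA.op (rs_mem_HF hy hn) (hA.op (rs_mem_HF hx hn)
      (rs_mem_HF hw hn)))

theorem real_sb_HF {z : N} (hz : z ∈ fs (om : N) om) : Sb z HF := by
  obtain ⟨h1, h2⟩ := mem_fs.1 hz
  have hA := ad_HF (M := N)
  intro x hx
  obtain ⟨i, hi, rfl⟩ := h1.mem_iff.1 hx
  exact hA.op (hA.om i hi) (hA.om _ (h2 i hi))

end

section

variable {M : Type u} [Membership M M] [IsZFC M] {K : Cst M} {X : M} {G : M → Prop}
  {N : Type u} [Membership N N] [IsZFC N] {val : M → N}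

/-- The sets of hereditarily finite sets in the extension have names. -/
theorem exists_NM (hE : Ext (PX K X) (LX K X) (em : M) G val) (hc : CCC (PX K X) (LX K X))
    (hhf : K.hf = HF) {z : N} (hz : Sb z HF) : ∃ S, NM K X S ∧ z = val (nm (em : M) S) := by
  have hj := GL.trEmb_ext hE
  obtain ⟨S, h1, h2, h3⟩ := hE.exists_nm hc (A := (HF : M)) le_HF (z := z) fun y hy => by
    have h4 := hz y hy
    rwa [← hf_emb hj] at h4
  refine ⟨S, ⟨?_, h2⟩, h3⟩
  rw [hhf]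
  exact h1

/-- The trees in the extension have names. -/
theorem exists_tree (hE : Ext (PX K X) (LX K X) (em : M) G val) (hc : CCC (PX K X) (LX K X))
    (hhf : K.hf = HF) (T : N) : ∃ S, NM K X S ∧ ∀ z, z ∈ fs (om : N) om →
      (SigT T z ↔ SigT (val (nm (em : M) S)) z) := by
  obtain ⟨S, h1, h2⟩ := exists_NM hE hc hhf (z := sp T fun x => x ∈ (HF : N)) fun y hy =>
    ((mem_sp (by simp)).1 hy).2
  refine ⟨S, h1, fun z hz => ?_⟩
  rw [← h2, sigT_hf T hz]

theorem val_nm_sb_HF (hE : Ext (PX K X) (LX K X) (em : M) G val) (hhf : K.hf = HF) {S : M}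
    (hS : NM K X S) : Sb (val (nm (em : M) S)) HF := by
  have hj := GL.trEmb_ext hE
  intro y hy
  obtain ⟨a, p, h1, -, rfl⟩ := (hE.mem_val_nm hS.1).1 hy
  have h2 := (op_mem_pd.1 (hS.1 _ h1)).1
  rw [hhf] at h2
  exact (mem_hf_emb hj).2 h2

theorem FM.mono_of {q r x z : M} (h : FM K X q x z) (hr : Lq K r q) : FM K X r x z :=
  fun s hs hsr => h s hs (hsr.trans_of hr)

/-- The truth lemma for the equality of two names. -/
theorem FE.truth (hE : Ext (PX K X) (LX K X) (em : M) G val) (hhf : K.hf = HF) {z z' : M}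
    (hz : NM K X z) (hz' : NM K X z') :
    val (nm (em : M) z) = val (nm (em : M) z') ↔ ∃ q, G q ∧ FE K X q z z' := by
  constructor
  · intro he
    by_contra hno
    -- a condition which decides the difference
    have hdQ : Dfn (fun w : Fin 1 → M => FE K X (w 0) z z' ∨ ∃ x, x ∈ K.hf ∧
        ((FM K X (w 0) x z ∧ ∀ r, r ∈ PX K X → Lq K r (w 0) → ¬ FM K X r x z') ∨
          (FM K X (w 0) x z' ∧ ∀ r, r ∈ PX K X → Lq K r (w 0) → ¬ FM K X r x z))) := by
      simp (maxDischargeDepth := 50)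
    have hdense : ∀ q, q ∈ PX K X → ∃ s, s ∈ PX K X ∧ Lq K s q ∧ (FE K X s z z' ∨ ∃ x, x ∈ K.hf ∧
        ((FM K X s x z ∧ ∀ r, r ∈ PX K X → Lq K r s → ¬ FM K X r x z') ∨
          (FM K X s x z' ∧ ∀ r, r ∈ PX K X → Lq K r s → ¬ FM K X r x z))) := by
      -- a condition which does not force `x ∈ z'` has an extension below which nothing forces it
      have key : ∀ z₁ z₂ x r, r ∈ PX K X → FM K X r x z₁ → ¬ FM K X r x z₂ →
          ∃ s, s ∈ PX K X ∧ Lq K s r ∧ FM K X s x z₁ ∧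
            ∀ t, t ∈ PX K X → Lq K t s → ¬ FM K X t x z₂ := by
        intro z₁ z₂ x r hr h1 h2
        unfold FM at h2
        push Not at h2
        obtain ⟨s, hs, hsr, h3⟩ := h2
        refine ⟨s, hs, hsr, h1.mono_of hsr, fun t ht hts hF => ?_⟩
        obtain ⟨v, hv, hvt, b, hb, hvb⟩ := hF t ht (Lq.refl_of t)
        exact h3 v hv (hvt.trans_of hts) b hb hvb
      intro q hq
      by_cases hfe : FE K X q z z'
      · exact ⟨q, hq, Lq.refl_of q, Or.inl hfe⟩
      · unfold FE at hfe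
        push Not at hfe
        obtain ⟨x, hx, r, hr, hrq, h⟩ := hfe
        rcases h with ⟨h1, h2⟩ | ⟨h1, h2⟩
        · obtain ⟨s, hs, hsr, h3, h4⟩ := key z z' x r hr h1 h2
          exact ⟨s, hs, hsr.trans_of hrq, Or.inr ⟨x, hx, Or.inl ⟨h3, h4⟩⟩⟩
        · obtain ⟨s, hs, hsr, h3, h4⟩ := key z' z x r hr h2 h1
          exact ⟨s, hs, hsr.trans_of hrq, Or.inr ⟨x, hx, Or.inr ⟨h3, h4⟩⟩⟩
    obtain ⟨s, hs, h | ⟨x, -, h⟩⟩ := hE.gen.below hE.po
      (Q := fun s => FE K X s z z' ∨ ∃ x, x ∈ K.hf ∧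
        ((FM K X s x z ∧ ∀ r, r ∈ PX K X → Lq K r s → ¬ FM K X r x z') ∨
          (FM K X s x z' ∧ ∀ r, r ∈ PX K X → Lq K r s → ¬ FM K X r x z))) hdQ hE.gen.one
      fun q hq => by
        obtain ⟨⟨h1, -⟩, -⟩ := op_mem_LX.1 hq
        obtain ⟨s, hs, hsq, hQ⟩ := hdense q h1
        exact ⟨s, op_mem_LX.2 ⟨⟨hs, h1⟩, hsq⟩, hQ⟩
    · exact hno ⟨s, hs, h⟩
    · have key : ∀ z₁ z₂, NM K X z₁ → NM K X z₂ → val (nm (em : M) z₁) = val (nm (em : M) z₂) →
          FM K X s x z₁ → (∀ r, r ∈ PX K X → Lq K r s → ¬ FM K X r x z₂) → False := by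
        intro z₁ z₂ hz₁ hz₂ he h1 h2
        have h3 : val (ck (em : M) x) ∈ val (nm (em : M) z₂) := by
          rw [← he]
          exact (FM.truth hE hz₁).2 ⟨s, hs, h1⟩
        obtain ⟨r, hr, hF⟩ := (FM.truth hE hz₂).1 h3
        obtain ⟨t, ht, htr, hts⟩ := hE.gen.dir r s hr hs
        exact h2 t (hE.gen.mem t ht) (op_mem_LX.1 hts).2 (hF.mono_of (op_mem_LX.1 htr).2)
      rcases h with ⟨h1, h2⟩ | ⟨h1, h2⟩
      · exact key z z' hz hz' he h1 h2
      · exact key z' z hz' hz he.symm h1 h2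
  · rintro ⟨q, hq, h⟩
    exact FE.val_eq hE hq hz hz' h

/-- The witnesses for the coding relation in the extension. -/
theorem wit_val (hL : GL.AllL M) {P le one : M} (hE : Ext P le one G val) (hc : CCC P le) :
    Wit N :=
  wit_emb (GL.trEmb_ext hE) (wit_of_allL hL) fun a ha hac => by
    obtain ⟨b, -, h1, h2⟩ := w1_lift hE hc ha hac
    exact ⟨b, h2, h1⟩

end

end Pool.Agent.Sep
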