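import Pool.Agent.Sep.Rul

/-!
# Locality of legality, and positions
-/

universe u

set_option linter.unusedSectionVars false

namespace Pool.Agent.Sep

open Pool.Agent.SigB Pool.Agent.Forc Pool.Agent.Frc

variable {M : Type u} [Membership M M] [IsZFC M]

theorem rs_sb_self {X D : M} (h : Fn X (dm X)) (hD : Sb D (dm X)) : Sb (rs X D) X := by
  intro z hz
  obtain ⟨j, hj, rfl⟩ := (fn_rs h hD).mem_iff.1 hz
  rw [ap_rs h hD hj]
  exact h.mem_iff.2 ⟨j, hD j hj, rfl⟩

/-- The restrictions of a subfunction. -/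
theorem rs_sub {X Y D : M} (hX : Fn X (dm X)) (hY : Fn Y (dm Y)) (h : Sb X Y) (hD : Sb D (dm X)) :
    rs Y D = rs X D := by
  refine (fn_rs hY (hD.trans (dm_sub h))).ext (fn_rs hX hD) fun x hx => ?_
  rw [ap_rs hY (hD.trans (dm_sub h)) hx, ap_rs hX hD hx, ap_sub hX hY h (hD x hx)]

theorem cone_sub {K : Cst M} {X Y j : M} (hX : IsSys K X) (hY : IsSys K Y) (h : Sb X Y)
    (hj : j ∈ dm X) : cone Y j = cone X j := by
  unfold cone
  rw [fD_sub hX.fn hY.fn h hj]
  exact rs_sub hX.fn hY.fn h (Cl.ins hX hj).1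

/-- Legality is local. -/
theorem OK_sub {K : Frm M} {X Y j : M} (hX : IsSys K.toCst X) (hY : IsSys K.toCst Y) (h : Sb X Y)
    (hj : j ∈ dm X) (hc : IsCode X j) : OK K Y j ↔ OK K X j := by
  have h1 : cx X j ∈ dm X := (hX.cl hj).1 _ (hX.codeOk hj hc).2.1
  unfold OK
  rw [cone_sub hX hY h hj, cx_sub hX.fn hY.fn h hj, tr_sub hX.fn hY.fn h h1]

/-- The clauses of the definition of a position. -/
theorem pos_iff {K : Frm M} {B O : M} : Pos K B O ↔ IsSys K.toCst B ∧ Sb O (dm B) ∧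
    (∀ x, x ∈ O → IsTag B x) ∧ (∀ x, x ∈ O → tO B x = it O (fD B x)) ∧
    (∀ x, x ∈ O → LL K (rs B (fD B x)) (tO B x) B) ∧
    (∀ x, x ∈ O → ∀ l, l ∈ dm B → IsCode B l → cx B l = x → OK K B l) ∧
    Cons K.toCst B O ∧
    (∀ x, x ∈ O → tk B x = sc (em : M) →
      Nk K (rs B (fD B x)) (tO B x) (tg B x) (ta B x) (tb B x)) ∧
    (∀ x, x ∈ O → tk B x = (em : M) →
      Bb K (rs B (fD B x)) (tO B x) (tg B x) (ta B x) (tb B x)) := by
  constructor
  · rintro ⟨hB, hC, h⟩
    have hF := hB.fn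
    refine ⟨hB, fun x hx => (h x hx).1, fun x hx => (h x hx).2.1, fun x hx => (h x hx).2.2.1,
      fun x hx => ?_, fun x hx l hl hlc hlx => ?_, hC, fun x hx => (h x hx).2.2.2.2.2,
      fun x hx => (h x hx).2.2.2.2.1⟩
    · obtain ⟨h1, h2, h3, h4, -⟩ := h x hx
      have hcl := hB.cl h1
      refine ⟨hB, rs_sb_self hF hcl.1, fun l hl hlA hlc hlx => ?_, fun l l' => ?_⟩
      · rw [dm_rs hF hcl.1] at hlA hlx
        have hne : l ≠ x := by
          rintro rfl
          exact not_code_of_tag h2 hlc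
        have h5 := h4.2.2.1 l hl (by
          rw [dm_rs hF (Cl.ins hB h1).1, mem_ins]
          rintro (h6 | h6)
          · exact hlA h6
          · exact hne h6) hlc (by
          rw [dm_rs hF (Cl.ins hB h1).1, mem_ins]
          exact Or.inl hlx)
        refine ⟨?_, h5.2⟩
        rcases mem_ins.1 h5.1 with h6 | h6
        · exact h6
        · rw [h6] at hlx
          exact ((hB.2.2.2 x h1).2.2.1 hlx).elim
      · intro hl hl' hc hc' hx'
        exact hC l l' hl hl' hc hc' (by rw [h3, mem_it] at hx'; exact hx'.1)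
    · obtain ⟨h1, h2, h3, h4, -⟩ := h x hx
      have hcl := hB.cl h1
      refine (h4.2.2.1 l hl ?_ hlc ?_).2
      · rw [dm_rs hF (Cl.ins hB h1).1, mem_ins]
        rintro (h6 | h6)
        · have h7 := hcl.2 l h6 _ (hB.codeOk hl hlc).2.1
          rw [hlx] at h7
          exact (hB.2.2.2 x h1).2.2.1 h7
        · rw [h6] at hlc
          exact not_code_of_tag h2 hlc
      · rw [dm_rs hF (Cl.ins hB h1).1, mem_ins]
        exact Or.inr hlx
  · rintro ⟨hB, h1, h2, h3, h4, h5, hC, h6, h7⟩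
    have hF := hB.fn
    refine ⟨hB, hC, fun x hx => ⟨h1 x hx, h2 x hx, h3 x hx, ⟨hB, rs_sb_self hF (Cl.ins hB (h1 x hx)).1,
      fun l hl hlA hlc hlx => ?_, fun l l' hl hl' hc hc' hx' => ?_⟩, h7 x hx, h6 x hx⟩⟩
    · have hcl := hB.cl (h1 x hx)
      rw [dm_rs hF (Cl.ins hB (h1 x hx)).1, mem_ins] at hlA hlx
      rw [not_or] at hlA
      rcases hlx with h8 | h8
      · have h9 := (h4 x hx).2.2.1 l hl (by rw [dm_rs hF hcl.1]; exact hlA.1) hlc
          (by rw [dm_rs hF hcl.1]; exact h8)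
        exact ⟨mem_ins.2 (Or.inl h9.1), h9.2⟩
      · exact ⟨mem_ins.2 (Or.inr h8), h5 x hx l hl hlc h8⟩
    · refine hC l l' hl hl' hc hc' ?_
      rcases mem_ins.1 hx' with h8 | h8
      · rw [h3 x hx, mem_it] at h8
        exact h8.1
      · rw [h8]
        exact hx

end Pool.Agent.Sep
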