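import Pool.Agent.Sep.LemOneM
import Pool.Agent.Sep.EndN
import Pool.Agent.Sep.SeqEmb
import Pool.Agent.Sep.RulA
import Pool.Agent.Sep.Count

/-!
# No unwanted codes in the extension

If a set `r` of nodes codes a set `w` of hereditarily finite sets in the extension by the poset of a
system, then `w` is the word of one of the steps.
-/

universe u

set_option linter.unusedSectionVars false

namespace Pool.Agent.Sep.L1

open Pool.Agent.SigB Pool.Agent.Forc Pool.Agent.Frc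

variable {M : Type u} [Membership M M] [IsZFC M] {K : Cst M} {X : M}

/-! ### Names which decide -/

/-- The decision `e` of `y` by the condition `b` is right for the name `S`. -/
def Qd (K : Cst M) (X S y e b : M) : Prop :=
  (e = sc (SigB.em : M) ∧ ∃ b', op y b' ∈ S ∧ Lq K b b') ∨
    (e = (SigB.em : M) ∧ ∀ q b', q ∈ PX K X → Lq K q b → op y b' ∈ S → ¬ Lq K q b')

theorem Qd.dfn (K : Cst M) (X S : M) :
    Dfn (fun w : Fin 3 → M => Qd K X S (w 0) (w 1) (w 2)) := by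
  unfold Qd; simp (maxDischargeDepth := 50)

theorem dfn_Qd (K : Cst M) (X S : M) {n : ℕ} {s t r : (Fin n → M) → M} (hs : DT s) (ht : DT t)
    (hr : DT r) : Dfn (fun v => Qd K X S (s v) (t v) (r v)) := dfn3 (Qd.dfn K X S) hs ht hr

/-- A countable name which decides all hereditarily finite sets. -/
theorem exists_two (hc : CCC (PX K X) (LX K X)) (S : M) :
    ∃ w, Forc.Le w om ∧ Sb w (pd (pd HF (sc (sc SigB.em))) (PX K X)) ∧
      (∀ y e b, op (op y e) b ∈ w → Qd K X S y e b) ∧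
      ∀ y, y ∈ (HF : M) → ∀ q, q ∈ PX K X → ∃ q' e b, q' ∈ PX K X ∧ Lq K q' q ∧
        op (op y e) b ∈ w ∧ Lq K q' b := by
  classical
  have hQ : ∀ {n : ℕ} {s t r : (Fin n → M) → M}, DT s → DT t → DT r →
      Dfn (fun v => Qd K X S (s v) (t v) (r v)) := fun hs ht hr => dfn_Qd K X S hs ht hr
  have h0 : (SigB.em : M) ∈ sc (sc SigB.em) := mem_sc.2 (Or.inl (mem_sc_self _))
  have h1 : sc (SigB.em : M) ∈ sc (sc SigB.em) := mem_sc_self _
  -- the countable predense sets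
  obtain ⟨f, hf, hff⟩ := choice' (a := (HF : M)) (b := pw (PX K X)) (P := fun y T =>
      Forc.Le T om ∧ (∀ b, b ∈ T → ∃ e, e ∈ sc (sc (SigB.em : M)) ∧ Qd K X S y e b) ∧
      ∀ q, q ∈ PX K X → ∃ q' b, q' ∈ PX K X ∧ Lq K q' q ∧ b ∈ T ∧ Lq K q' b)
    (by simp (maxDischargeDepth := 50) [hQ]) (by
      intro y hy
      have hd : Dfn (fun w : Fin 1 → M => ∃ e, e ∈ sc (sc (SigB.em : M)) ∧ Qd K X S y e (w 0)) := by
        simp (maxDischargeDepth := 50) [hQ]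
      obtain ⟨T, hT1, hT2, hT3⟩ := hc.predense (po_PX K X)
        (sp (PX K X) fun b => ∃ e, e ∈ sc (sc (SigB.em : M)) ∧ Qd K X S y e b)
      refine ⟨T, mem_pw.2 fun b hb => ((mem_sp hd).1 (hT1 b hb)).1, hT2, fun b hb =>
        ((mem_sp hd).1 (hT1 b hb)).2, fun q hq => ?_⟩
      -- a condition below `q` which decides
      obtain ⟨d, hd1, hd2, hd3⟩ : ∃ d, d ∈ PX K X ∧ Lq K d q ∧
          ∃ e, e ∈ sc (sc (SigB.em : M)) ∧ Qd K X S y e d := by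
        by_cases h : ∃ d b', d ∈ PX K X ∧ Lq K d q ∧ op y b' ∈ S ∧ Lq K d b'
        · obtain ⟨d, b', g1, g2, g3, g4⟩ := h
          exact ⟨d, g1, g2, _, h1, Or.inl ⟨rfl, b', g3, g4⟩⟩
        · refine ⟨q, hq, lq_refl K q, _, h0, Or.inr ⟨rfl, fun q' b' g1 g2 g3 g4 => ?_⟩⟩
          exact h ⟨q', b', g1, g2, g3, g4⟩
      obtain ⟨b, hb, r, hr1, hr2⟩ := hT3 d d ((mem_sp hd).2 ⟨hd1, hd3⟩)
        ⟨d, op_mem_LX.2 ⟨⟨hd1, hd1⟩, lq_refl K d⟩, op_mem_LX.2 ⟨⟨hd1, hd1⟩, lq_refl K d⟩⟩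
      obtain ⟨⟨g1, -⟩, g2⟩ := op_mem_LX.1 hr1
      obtain ⟨-, g3⟩ := op_mem_LX.1 hr2
      exact ⟨r, b, g1, lq_trans g2 hd2, hb, g3⟩)
  have hfv := (mem_fs.1 hf).2
  have hda : DT (fun w : Fin 1 → M => ap f (w 0)) := dt_apx f
  have hd : Dfn (fun w : Fin 1 → M => snd (w 0) ∈ ap f (fst (fst (w 0))) ∧
      Qd K X S (fst (fst (w 0))) (snd (fst (w 0))) (snd (w 0))) := by
    simp (maxDischargeDepth := 50) [hQ]
  have hm : ∀ y e b, op (op y e) b ∈ sp (pd (pd HF (sc (sc SigB.em))) (sU (im HF (ap f))))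
      (fun z => snd z ∈ ap f (fst (fst z)) ∧ Qd K X S (fst (fst z)) (snd (fst z)) (snd z)) ↔
      (y ∈ (HF : M) ∧ e ∈ sc (sc (SigB.em : M))) ∧ b ∈ ap f y ∧ Qd K X S y e b := by
    intro y e b
    rw [mem_sp hd, op_mem_pd, op_mem_pd, fst_op, fst_op, snd_op, snd_op, mem_sU]
    constructor
    · rintro ⟨⟨h2, -⟩, h3⟩
      exact ⟨h2, h3⟩
    · rintro ⟨h2, h3⟩
      exact ⟨⟨h2, ap f y, (mem_im hda).2 ⟨y, h2.1, rfl⟩, h3.1⟩, h3⟩
  refine ⟨_, ?_, ?_, fun y e b h => ((hm y e b).1 h).2.2, fun y hy q hq => ?_⟩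
  · refine Forc.Le.mono_left ?_ fun z hz => ((mem_sp hd).1 hz).1
    refine le_om_pd (le_om_pd le_HF (fte_of_mem_om (sc_mem_om (sc_mem_om em_mem_om))).le_om') ?_
    refine Le.union om_ord (Sb.refl _) (Le.image om_ord le_HF hda fun z hz =>
      (mem_im hda).1 hz) fun z hz => ?_
    obtain ⟨y, hy, rfl⟩ := (mem_im hda).1 hz
    exact (hff y hy).1
  · intro z hz
    obtain ⟨h2, -⟩ := (mem_sp hd).1 hz
    obtain ⟨σ, hσ, b, hb, rfl⟩ := mem_pd.1 h2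
    obtain ⟨T, hT, hbT⟩ := mem_sU.1 hb
    obtain ⟨y, hy, rfl⟩ := (mem_im hda).1 hT
    exact op_mem_pd.2 ⟨hσ, mem_pw.1 (hfv y hy) b hbT⟩
  · obtain ⟨h2, h3, h4⟩ := hff y hy
    obtain ⟨q', b, h5, h6, h7, h8⟩ := h4 q hq
    obtain ⟨e, he, h9⟩ := h3 b h7
    exact ⟨q', e, b, h5, h6, (hm y e b).2 ⟨⟨hy, he⟩, h7, h9⟩, h8⟩

/-! ### The extension -/

/-- The condition `q` shows that `r` does not code the word with the name `w`, or that `w` is not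
different from the words of the steps. -/
def Ev (K : Cst M) (X r w q : M) : Prop :=
  (∃ a, a ∈ K.ix ∧ lb a = SigB.em ∧ ∀ q' m, q' ∈ PX K X → Lq K q' q → m ∈ (om : M) →
    ¬ NoC K X r q' a m) ∨
  (∃ a c d m, a ∈ K.ix ∧ lb a = op c d ∧ m ∈ (om : M) ∧ Dcd K w q c d ∧ NoC K X r q a m) ∨
  ∃ j σ b, j ∈ dm X ∧ op σ b ∈ fW X j ∧ Lq K q b ∧ ∀ q' y e e' b1 b2, q' ∈ PX K X → Lq K q' q →
    e ≠ e' → op (op y e) b1 ∈ fW X j → Lq K q' b1 → op (op y e') b2 ∈ w → ¬ Lq K q' b2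

theorem Ev.dfn (K : Cst M) (X r w : M) : Dfn (fun v : Fin 1 → M => Ev K X r w (v 0)) := by
  unfold Ev NoC Dcd
  simp (maxDischargeDepth := 80)

theorem bad_of {r w p : M} (h : ∀ q, q ∈ PX K X → Lq K q p → ¬ Ev K X r w q)
    (hp : p ∈ PX K X) : Bad K X r w p where
  h1 := fun a ha hl => by
    by_contra hcon
    refine h p hp (lq_refl K p) (Or.inl ⟨a, ha, hl, fun q' m h1 h2 h3 h4 => hcon ?_⟩)
    exact ⟨q', m, h1, h2, h3, h4⟩
  h2 := fun q a c d m h1 h2 h3 h4 h5 h6 h7 =>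
    h q h1 h2 (Or.inr (Or.inl ⟨a, c, d, m, h3, h4, h5, h6, h7⟩))
  h3 := fun q j σ b h1 h2 h3 h4 h5 => by
    by_contra hcon
    refine h q h1 h2 (Or.inr (Or.inr ⟨j, σ, b, h3, h4, h5, fun q' y e e' b1 b2 g1 g2 g3 g4 g5 g6
      g7 => hcon ?_⟩))
    exact ⟨q', y, e, e', b1, b2, g1, g2, g3, g4, g5, g6, g7⟩

section ext

variable {G : M → Prop} {N : Type u} [Membership N N] [IsZFC N] {val : M → N}

/-- The words of the steps in the extension: the words names decide. -/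
theorem word_dec (hE : Ext (PX K X) (LX K X) (SigB.em : M) G val) (hX : IsSys K X) {j σ b q : M}
    (hj : j ∈ dm X) (hσ : op σ b ∈ fW X j) (hq : G q) (hqb : Lq K q b) {y : M} (hy : y ∈ K.hf) :
    ∃ s e b1, G s ∧ op (op y e) b1 ∈ fW X j ∧ Lq K s b1 ∧ b1 ∈ PX K X := by
  have hY := hX.rs (hX.cl hj)
  have hYX : Sb (rs X (fD X j)) X := rs_sb_self hX.fn (hX.cl hj).1
  have hdm : dm (rs X (fD X j)) = fD X j := dm_rs hX.fn (hX.cl hj).1
  have hcl : ∀ i, i ∈ dm (rs X (fD X j)) →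
      Sb (fD (rs X (fD X j)) i) (dm (rs X (fD X j))) := fun i hi => (hY.cl hi).1
  have hW := (hX.2.2.2 j hj).2.2.2.1
  have hWb : ∀ σ b, op σ b ∈ fW X j → b ∈ PX K (rs X (fD X j)) := by
    intro σ b h
    obtain ⟨y', e1, b', -, -, k1, k2⟩ := hW.2.1 _ h
    rw [(op_inj.1 k2).2]
    exact k1
  have hd : Dfn (fun w : Fin 1 → M => ∃ e b1, op (op y e) b1 ∈ fW X j ∧ Lq K (w 0) b1) := by
    simp (maxDischargeDepth := 50)
  obtain ⟨s, hs, e, b1, h1, h2⟩ := hE.gen.below hE.po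
    (Q := fun s => ∃ e b1, op (op y e) b1 ∈ fW X j ∧ Lq K s b1) hd hq fun q' hq' => by
      obtain ⟨⟨g1, -⟩, g2⟩ := op_mem_LX.1 hq'
      have g3 : Lq K q' b := lq_trans g2 hqb
      have g4 : Lq K (rs q' (dm (rs X (fD X j)))) b := by
        have := CX.lq_rs g3 (dm (rs X (fD X j)))
        rwa [rs_self_PX (hWb σ b hσ)] at this
      obtain ⟨s, hs, hsr, e, b1, g5, g6⟩ := hW.2.2.2 σ b hσ _
        (rs_mem_PX hY.fn hX.fn hYX hcl g1) g4 y hy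
      obtain ⟨g7, g8, g9⟩ := un_mem_PX hY.fn hX.fn hYX hcl hs g1 hsr
      exact ⟨un s q', op_mem_LX.2 ⟨⟨g7, g1⟩, g9⟩, e, b1, g5, lq_trans g8 g6⟩
  exact ⟨s, e, b1, hs, h1, h2, PX_up hY.fn hX.fn hYX (hWb _ _ h1)⟩

/-- The decisions of a word name by elements of the filter agree. -/
theorem word_coh (hE : Ext (PX K X) (LX K X) (SigB.em : M) G val) (hX : IsSys K X) {j y b b' : M}
    (hj : j ∈ dm X) (h : op (op y SigB.em) b ∈ fW X j) (h' : op (op y (sc SigB.em)) b' ∈ fW X j)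
    (hb : G b) (hb' : G b') : False := by
  have hY := hX.rs (hX.cl hj)
  have hYX : Sb (rs X (fD X j)) X := rs_sb_self hX.fn (hX.cl hj).1
  have hcl : ∀ i, i ∈ dm (rs X (fD X j)) →
      Sb (fD (rs X (fD X j)) i) (dm (rs X (fD X j))) := fun i hi => (hY.cl hi).1
  have hW := (hX.2.2.2 j hj).2.2.2.1
  have hWb : ∀ σ b, op σ b ∈ fW X j → b ∈ PX K (rs X (fD X j)) := by
    intro σ b h
    obtain ⟨y', e1, b', -, -, k1, k2⟩ := hW.2.1 _ h
    rw [(op_inj.1 k2).2]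
    exact k1
  obtain ⟨s, hs, h1, h2⟩ := hE.gen.dir b b' hb hb'
  obtain ⟨⟨g1, -⟩, g2⟩ := op_mem_LX.1 h1
  have g3 := (op_mem_LX.1 h2).2
  refine hW.2.2.1 y b b' (rs s (dm (rs X (fD X j)))) h h'
    (rs_mem_PX hY.fn hX.fn hYX hcl g1) ⟨?_, ?_⟩
  · have := CX.lq_rs g2 (dm (rs X (fD X j)))
    rwa [rs_self_PX (hWb _ b h)] at this
  · have := CX.lq_rs g3 (dm (rs X (fD X j)))
    rwa [rs_self_PX (hWb _ b' h')] at this

/-- **No unwanted codes** in the extension: if `r` codes `w` then `w` is the word of one of the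
steps. -/
theorem coded (hL : GL.AllL M) (hK : KS K) (hX : IsSys K X)
    (hE : Ext (PX K X) (LX K X) (SigB.em : M) G val) {r w : N} (hr : Sb r Sq) (hw : Sb w HF)
    (hC : Codes r w) : ∃ j, j ∈ dm X ∧ (∃ σ b, op σ b ∈ fW X j ∧ G b) ∧
      ∀ y, y ∈ (HF : M) → (val (ck (SigB.em : M) y) ∈ w ↔
        ∃ b, G b ∧ op (op y (sc SigB.em)) b ∈ fW X j) := by
  classical
  by_contra hno
  have hc : CCC (PX K X) (LX K X) := hX.ccc (by rw [hK.T]; exact le_Sq) (w1_le_pw hK.w1)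
  have hj := GL.trEmb_ext hE
  have hhf := hK.hf
  -- the names
  have hr' : Sb r HF := hr.trans Sq_sb_HF
  obtain ⟨rn, hrn, rfl⟩ := exists_NM hE hc hhf hr'
  obtain ⟨S, hS, rfl⟩ := exists_NM hE hc hhf hw
  obtain ⟨wn, hw1, hw2, hw3, hw4⟩ := exists_two hc S
  have hmr : ∀ u, val (ck (SigB.em : M) u) ∈ val (nm (SigB.em : M) rn) ↔
      ∃ p, G p ∧ op u p ∈ rn := fun u => hE.cv_mem_val_nm hrn.1
  have hmS : ∀ u, val (ck (SigB.em : M) u) ∈ val (nm (SigB.em : M) S) ↔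
      ∃ p, G p ∧ op u p ∈ S := fun u => hE.cv_mem_val_nm hS.1
  have hup : ∀ q b, G q → b ∈ PX K X → Lq K q b → G b := fun q b hq hb h =>
    hE.gen.up q b hq (op_mem_LX.2 ⟨⟨hE.gen.mem q hq, hb⟩, h⟩)
  have hrP : ∀ u b, op u b ∈ rn → b ∈ PX K X := fun u b hub => (op_mem_pd.1 (hrn.1 _ hub)).2
  have hSP : ∀ u b, op u b ∈ S → b ∈ PX K X := fun u b hub => (op_mem_pd.1 (hS.1 _ hub)).2
  have hwP : ∀ σ b, op σ b ∈ wn → b ∈ PX K X := fun u b hub => (op_mem_pd.1 (hw2 _ hub)).2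
  -- a condition of the filter with an event
  have hEd := Ev.dfn K X rn wn
  have hEd' : ∀ {n : ℕ} {s : (Fin n → M) → M}, DT s → Dfn (fun v => Ev K X rn wn (s v)) :=
    fun hs => dfn1 hEd hs
  obtain ⟨s, hs, hev⟩ := hE.gen.below hE.po (Q := fun s => Ev K X rn wn s ∨
      ∀ s', s' ∈ PX K X → Lq K s' s → ¬ Ev K X rn wn s')
    (by simp (maxDischargeDepth := 50) [hEd']) hE.gen.one fun q hq => by
      obtain ⟨⟨g1, -⟩, g2⟩ := op_mem_LX.1 hq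
      by_cases h : ∃ s', s' ∈ PX K X ∧ Lq K s' q ∧ Ev K X rn wn s'
      · obtain ⟨s', g3, g4, g5⟩ := h
        exact ⟨s', op_mem_LX.2 ⟨⟨g3, g1⟩, g4⟩, Or.inl g5⟩
      · exact ⟨q, op_mem_LX.2 ⟨⟨g1, g1⟩, lq_refl K q⟩, Or.inr fun s' g3 g4 g5 =>
          h ⟨s', g3, g4, g5⟩⟩
  have hsP := hE.gen.mem s hs
  rcases hev with hev | hev
  swap
  · exact not_bad hL hK hX hsP hrn hw1 hw2 (bad_of hev hsP)
  rcases hev with ⟨a, ha, hla, h⟩ | ⟨a, c, d, m, ha, hla, hm, hdec, hnoc⟩ |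
    ⟨j, σ, b, hjX, hσ, hsb, h⟩
  · -- the label is empty and the intersection with the branch is unbounded
    obtain ⟨ha1, ha2⟩ := hK.mem_ix.1 ha
    have h1 := hC _ (hj.s_ord.2 ha1) (le_om_emb hj ha2)
    have h2 : ¬ InB (lb (val (ck (SigB.em : M) a))) (val (nm (SigB.em : M) S)) := by
      rintro ⟨c, d, h3, -⟩
      rw [← lb_emb hj ha1, hla, hj.s_em] at h3
      exact not_mem_em (pr c c) (h3 ▸ by unfold SigB.op; simp)
    obtain ⟨m', hm', hbd⟩ := h1.2 h2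
    obtain ⟨m, hm, rfl⟩ := hj.s_mem_om_lift hm'
    rw [← br_emb hj ha1] at hbd
    obtain ⟨t, ht, u, b, h3, h4, h5, h6⟩ := hE.gen.below hE.po
      (Q := fun q => ∃ u b, op u b ∈ rn ∧ Lq K q b ∧ op u a ∈ K.on ∧ ¬ ∃ n, n ∈ m ∧ Fn u n)
      (by simp (maxDischargeDepth := 50)) hs fun q hq => by
        obtain ⟨⟨g1, -⟩, g2⟩ := op_mem_LX.1 hq
        have h3 := h q m g1 g2 hm
        unfold NoC at h3
        push Not at h3
        obtain ⟨q', u, b, g3, g4, g5, g6, g7, g8⟩ := h3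
        exact ⟨q', op_mem_LX.2 ⟨⟨g3, g1⟩, g4⟩, u, b, g5, g6, g7, by
          rintro ⟨n, hn, hn'⟩
          exact g8 n hn hn'⟩
    have hb : G b := hup t b ht (hrP u b h3) h4
    obtain ⟨-, -, hua⟩ := (hK.on _ _).1 h5
    obtain ⟨n', hn', hfn⟩ := hbd _ ((hmr u).2 ⟨b, hb, h3⟩) (hj.s_sb.2 hua)
    obtain ⟨n, hn, rfl⟩ := hj.tr hn'
    exact h6 ⟨n, hn, hj.s_fn.1 hfn⟩
  · -- the word is in the set of the label and the intersection is bounded
    obtain ⟨ha1, ha2⟩ := hK.mem_ix.1 ha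
    have h1 := hC _ (hj.s_ord.2 ha1) (le_om_emb hj ha2)
    have h2 : InB (lb (val (ck (SigB.em : M) a))) (val (nm (SigB.em : M) S)) := by
      refine ⟨_, _, by rw [← lb_emb hj ha1, hla, hj.s_op], fun z hz => ?_, fun z hz hzS => ?_⟩
      · obtain ⟨y, hy, rfl⟩ := hj.tr hz
        obtain ⟨b, hb, hsb⟩ := hdec.1 y hy
        rcases hw3 y _ b hb with ⟨-, b', h3, h4⟩ | ⟨h3, -⟩
        · exact (hmS y).2 ⟨b', hup s b' hs (hSP _ _ h3) (lq_trans hsb h4), h3⟩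
        · exact (sc_ne_em _ h3).elim
      · obtain ⟨y, hy, rfl⟩ := hj.tr hz
        obtain ⟨b, hb, hsb⟩ := hdec.2 y hy
        rcases hw3 y _ b hb with ⟨h3, -⟩ | ⟨-, h3⟩
        · exact sc_ne_em _ h3.symm
        · obtain ⟨b', hb', h4⟩ := (hmS y).1 hzS
          obtain ⟨t, ht, h5, h6⟩ := hE.gen.dir s b' hs hb'
          obtain ⟨⟨g1, -⟩, g2⟩ := op_mem_LX.1 h5
          exact h3 t b' g1 (lq_trans g2 hsb) h4 (op_mem_LX.1 h6).2
    refine (h1.1 ⟨_, hj.s_mem_om.2 hm, fun t ht htb => ?_⟩) h2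
    obtain ⟨u, p, hup', hp, rfl⟩ := (hE.mem_val_nm hrn.1).1 ht
    rw [← br_emb hj ha1] at htb
    have huS : u ∈ (Sq : M) := by
      have := hr _ ht
      rw [← sq_emb hj] at this
      exact hj.mem_iff.1 this
    obtain ⟨t, ht', h5, h6⟩ := hE.gen.dir s p hs hp
    obtain ⟨⟨g1, -⟩, g2⟩ := op_mem_LX.1 h5
    obtain ⟨n, hn, hfn⟩ := hnoc t u p g1 g2 hup' (op_mem_LX.1 h6).2
      ((hK.on _ _).2 ⟨huS, ha, hj.s_sb.1 htb⟩)
    exact ⟨_, hj.mem_iff.2 hn, hj.s_fn.2 hfn⟩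
  · -- the word is the word of the step `j`
    refine hno ⟨j, hjX, ?_, fun y hy => ?_⟩
    · obtain ⟨y', e1, b', -, -, k1, k2⟩ := (hX.2.2.2 j hjX).2.2.2.1.2.1 _ hσ
      have hY := hX.rs (hX.cl hjX)
      have hYX : Sb (rs X (fD X j)) X := rs_sb_self hX.fn (hX.cl hjX).1
      rw [← (op_inj.1 k2).2] at k1
      exact ⟨σ, b, hσ, hup s b hs (PX_up hY.fn hX.fn hYX k1) hsb⟩
    -- decisions of `y`
    obtain ⟨s1, e1, b1, hs1, g1, g2, g3⟩ := word_dec hE hX hjX hσ hs hsb (y := y)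
      (by rw [hhf]; exact hy)
    have hb1 : G b1 := hup s1 b1 hs1 g3 g2
    obtain ⟨s2, hs2, e2, b2, g4, g5⟩ := hE.gen.below hE.po
      (Q := fun q => ∃ e b, op (op y e) b ∈ wn ∧ Lq K q b) (by simp (maxDischargeDepth := 50)) hs
      fun q hq => by
        obtain ⟨⟨g1, -⟩, g2⟩ := op_mem_LX.1 hq
        obtain ⟨q', e, b, k1, k2, k3, k4⟩ := hw4 y hy q g1
        exact ⟨q', op_mem_LX.2 ⟨⟨k1, g1⟩, k2⟩, e, b, k3, k4⟩
    have hb2 : G b2 := hup s2 b2 hs2 (hwP _ _ g4) g5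
    have he : e1 = e2 := by
      by_contra hne
      obtain ⟨t1, ht1, k1, k2⟩ := hE.gen.dir s s1 hs hs1
      obtain ⟨t2, ht2, k3, k4⟩ := hE.gen.dir t1 s2 ht1 hs2
      have k1' := (op_mem_LX.1 k1).2
      have k2' := (op_mem_LX.1 k2).2
      have k3' := (op_mem_LX.1 k3).2
      have k4' := (op_mem_LX.1 k4).2
      exact h t2 y e1 e2 b1 b2 (hE.gen.mem t2 ht2) (lq_trans k3' k1') hne g1
        (lq_trans (lq_trans k3' k2') g2) g4 (lq_trans k4' g5)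
    subst he
    rcases hw3 y _ b2 g4 with ⟨h3, b', h4, h5⟩ | ⟨h3, h4⟩
    · -- `y` is in the word
      subst h3
      refine iff_of_true ((hmS y).2 ⟨b', hup b2 b' hb2 (hSP _ _ h4) h5, h4⟩) ⟨b1, hb1, g1⟩
    · subst h3
      refine iff_of_false ?_ ?_
      · intro hyS
        obtain ⟨b', hb', h5⟩ := (hmS y).1 hyS
        obtain ⟨t, ht, k1, k2⟩ := hE.gen.dir b2 b' hb2 hb'
        exact h4 t b' (hE.gen.mem t ht) (op_mem_LX.1 k1).2 h5 (op_mem_LX.1 k2).2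
      · rintro ⟨b', hb', h5⟩
        exact word_coh hE hX hjX g1 h5 hb1 hb'

end ext

end Pool.Agent.Sep.L1
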