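import Pool.Agent.Sep.EndK
import Pool.Agent.Sep.GenV
import Pool.Agent.Sep.GenN
import Pool.Agent.Sep.LemOneN

/-!
The facts about the reals of the steps of a system in the extension.
-/

universe u

set_option linter.unusedSectionVars false

namespace Pool.Agent.Sep

open Pool.Agent.SigB Pool.Agent.Forc Pool.Agent.Frc
open Pool.Agent.FDia (W1)

variable {M : Type u} [Membership M M] [IsZFC M] {K : Cst M} {X : M} {G : M → Prop}
  {N : Type u} [Membership N N] [IsZFC N] {val : M → N}

/-- **No unwanted codes**, with the name of the word. -/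
theorem coded_word (hL : GL.AllL M) (hK : KS K) (hX : IsSys K X)
    (hE : Ext (PX K X) (LX K X) (SigB.em : M) G val) {r w : N} (hr : Sb r Sq) (hw : Sb w HF)
    (hC : Codes r w) : ∃ j, j ∈ dm X ∧ w = val (nm (SigB.em : M) (wN X j)) := by
  obtain ⟨j, hj, -, h⟩ := L1.coded hL hK hX hE hr hw hC
  have hn := nm_wN hX hj
  have he := GL.trEmb_ext hE
  have key : ∀ y, y ∈ (HF : M) → (val (ck (SigB.em : M) y) ∈ w ↔
      val (ck (SigB.em : M) y) ∈ val (nm (SigB.em : M) (wN X j))) := by
    intro y hy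
    rw [h y hy, hE.cv_mem_val_nm hn.1]
    constructor
    · rintro ⟨b, h1, h2⟩
      exact ⟨b, h1, op_mem_wN.2 h2⟩
    · rintro ⟨b, h1, h2⟩
      exact ⟨b, h1, op_mem_wN.1 h2⟩
  refine ⟨j, hj, ext' fun y => ⟨fun hy => ?_, fun hy => ?_⟩⟩
  · obtain ⟨x, hx, rfl⟩ := hf_lift he (hw y hy)
    exact (key x hx).1 hy
  · obtain ⟨x, hx, rfl⟩ := hf_lift he (val_nm_sb_HF hE hK.hf hn y hy)
    exact (key x hx).2 hy

/-- The facts about the reals of the steps. -/
theorem codF_of (hL : GL.AllL M) (hK : KS K) (hX : IsSys K X)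
    (hE : Ext (PX K X) (LX K X) (SigB.em : M) G val) :
    CodF K X G val fun j => val (nm (SigB.em : M) (rN K j)) where
  sb := fun j hj => val_rN_sb hE hK hX hj
  codes := fun j hj hc hg => codes_code hE hK hL hX hj hc hg
  ne := fun i j hi hj ht h => GenN.eq_of_val_rN hK hL hX hE hi hj ht h
  inv := fun r w hr hw hC => by
    obtain ⟨j, hj, h⟩ := coded_word hL hK hX hE hr hw hC
    rcases hX.tag_or_code hj with ht | hc
    · exact Or.inl (h.trans (word_tag hE hX hj ht))
    · by_cases hg : G (cg X j)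
      · exact Or.inr ⟨j, hj, hc, hg, h.trans (word_code hE hK hL hX hj hc hg)⟩
      · exact Or.inl (h.trans (word_of_not_guard hE hX hj hc hg))

end Pool.Agent.Sep
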