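import Pool.Agent.Sep.EndN
import Pool.Agent.Sep.EndF

/-!
The facts about the reals of the steps in the extension by the poset of a system, and what they give
for the codes.
-/

universe u

set_option linter.unusedSectionVars false

namespace Pool.Agent.Sep

open Pool.Agent.SigB Pool.Agent.Forc Pool.Agent.Frc
open Pool.Agent.FDia (W1)

section

variable {M : Type u} [Membership M M] [IsZFC M] {K : Cst M} {X O : M} {G : M → Prop}
  {N : Type u} [Membership N N] [IsZFC N] {val rr : M → N}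

/-- The facts about the reals of the steps in the extension: `rr j` is the real of the step `j`. -/
structure CodF (K : Cst M) (X : M) (G : M → Prop) (val rr : M → N) : Prop where
  sb : ∀ j, j ∈ dm X → Sb (rr j) Sq
  codes : ∀ j, j ∈ dm X → IsCode X j → G (cg X j) → Codes (rr j)
    (wd (val (nm (SigB.em : M) (cz X j))) (rr (cx X j)) (val (ck (SigB.em : M) (ci X j))))
  ne : ∀ i j, i ∈ dm X → j ∈ dm X → IsTag X j → rr i = rr j → i = j
  inv : ∀ r w : N, Sb r Sq → Sb w HF → Codes r w → w = SigB.em ∨ ∃ j, j ∈ dm X ∧ IsCode X j ∧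
    G (cg X j) ∧ w = wd (val (nm (SigB.em : M) (cz X j))) (rr (cx X j)) (val (ck (SigB.em : M) (ci X j)))

theorem wd_ne_em (z e i : N) : wd z e i ≠ SigB.em := by
  intro h
  have h1 : op (sc (sc (SigB.em : N))) i ∈ wd z e i := op_two_mem_wd.2 rfl
  rw [h] at h1
  exact not_mem_em _ h1

/-- The codes at the tag `t`. -/
theorem CodF.cod_iff (hF : CodF K X G val rr) (hX : IsSys K X) {t : M} (ht : t ∈ dm X)
    (htt : IsTag X t) {z i : N} (hz : z ∈ fs (om : N) om) (hi : i ∈ (om : N)) :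
    Cod z (rr t) i ↔ ∃ k, k ∈ dm X ∧ IsCode X k ∧ cx X k = t ∧ val (ck (SigB.em : M) (ci X k)) = i ∧
      G (cg X k) ∧ z = val (nm (SigB.em : M) (cz X k)) := by
  constructor
  · rintro ⟨r, hr, hc⟩
    have hw : Sb (wd z (rr t) i) HF := wd_sb_HF (real_sb_HF hz) ((hF.sb t ht).trans Sq_sb_HF)
      (ad_HF.om i hi)
    rcases hF.inv r _ hr hw hc with h | ⟨j, hj, hjc, hjg, h⟩
    · exact (wd_ne_em _ _ _ h).elim
    · obtain ⟨h1, h2, h3⟩ := wd_inj.1 h
      have hcx : cx X j ∈ dm X := (hX.cl hj).1 _ (hX.codeOk hj hjc).2.1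
      exact ⟨j, hj, hjc, hF.ne _ _ hcx ht htt h2.symm, h3.symm, hjg, h1⟩
  · rintro ⟨k, hk, hkc, hkt, hki, hkg, hkz⟩
    refine ⟨rr k, hF.sb k hk, ?_⟩
    have h := hF.codes k hk hkc hkg
    rwa [hkt, hki, ← hkz] at h

variable [Countable M]

/-- What is used about the extension. -/
theorem sem_of (hL : GL.AllL M) (hhf : K.hf = HF) (hX : IsSys K X)
    (hc : CCC (PX K X) (LX K X)) (hE : Ext (PX K X) (LX K X) (SigB.em : M) G val)
    (hF : CodF K X G val rr) :
    Sem (frm K) X G val fun z e i => HCt e ∧ HCt i ∧ Cod z e i where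
  hE := hE
  name := fun z hz => exists_NM hE hc hhf (real_sb_HF hz)
  tree := fun T => exists_tree hE hc hhf T
  truthF := fun a z _ _ => FK.truth hE a z
  monoF := fun a z q r _ _ h hr hrq => fk_mono h hr hrq
  truthE := fun z z' hz hz' => FE.truth hE hhf hz hz'
  cod := fun t ht htt => by
    have hj := GL.trEmb_ext hE
    have h0 : val (ck (SigB.em : M) (SigB.em : M)) = (SigB.em : N) := hj.s_em
    have h1 : val (ck (SigB.em : M) (sc (SigB.em : M))) = sc (SigB.em : N) := by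
      have h2 := hj.s_sc (SigB.em : M)
      rw [h2, h0]
    have hct : HCt (rr t) := hct_Sq.sb (hF.sb t ht)
    have side : ∀ k, k ∈ dm X → IsCode X k →
        (val (ck (SigB.em : M) (ci X k)) = (SigB.em : N) ↔ ci X k = (SigB.em : M)) ∧
        (val (ck (SigB.em : M) (ci X k)) = sc (SigB.em : N) ↔ ci X k = sc (SigB.em : M)) := by
      intro k hk hkc
      refine ⟨⟨fun h => ?_, fun h => by rw [h]; exact h0⟩, fun h => ?_, fun h => by rw [h]; exact h1⟩
      · rw [← h0] at h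
        exact hj.inj.1 h
      · rw [← h1] at h
        exact hj.inj.1 h
    refine ⟨rr t, fun z hz => ?_, fun z hz => ?_⟩
    · rw [hF.cod_iff hX ht htt hz em_mem_om]
      constructor
      · rintro ⟨-, -, k, hk, hkc, hkt, hki, hkg, hkz⟩
        exact ⟨k, hk, hkc, hkt, (side k hk hkc).1.1 hki, hkg, hkz⟩
      · rintro ⟨k, hk, hkc, hkt, hki, hkg, hkz⟩
        exact ⟨hct, hct_em, k, hk, hkc, hkt, (side k hk hkc).1.2 hki, hkg, hkz⟩
    · rw [hF.cod_iff hX ht htt hz (sc_mem_om em_mem_om)]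
      constructor
      · rintro ⟨-, -, k, hk, hkc, hkt, hki, hkg, hkz⟩
        exact ⟨k, hk, hkc, hkt, (side k hk hkc).2.1 hki, hkg, hkz⟩
      · rintro ⟨k, hk, hkc, hkt, hki, hkg, hkz⟩
        exact ⟨hct, hct_one, k, hk, hkc, hkt, (side k hk hkc).2.2 hki, hkg, hkz⟩
  sigma := fun e i => by
    by_cases he : HCt e ∧ HCt i
    · obtain ⟨T, hT⟩ := exists_sigT_cod (wit_val hL hE hc) he.1 he.2
      exact ⟨T, fun z hz => ⟨fun h => (hT z hz).1 h.2.2, fun h => ⟨he.1, he.2, (hT z hz).2 h⟩⟩⟩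
    · exact ⟨SigB.em, fun z _ => ⟨fun h => (he ⟨h.1, h.2.1⟩).elim, fun h => (not_sigT_em z h).elim⟩⟩

end

end Pool.Agent.Sep
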