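import Pool.Agent.SigB.Bridge
import Pool.Agent.Sep.Defs

/-!
`Σ¹₃` sets are given by trees, and a criterion for the two separation properties.
-/

universe u

set_option linter.unusedSectionVars false

namespace Pool.Agent.Sep

open Pool.Agent.SigB

variable {N : Type u} [Membership N N] [IsZFC N]

theorem isReal_iff {x : N} : IsReal x ↔ x ∈ fs (om : N) om := by
  unfold IsReal
  constructor
  · rintro ⟨o, ho, h⟩
    rw [isOmega_iff] at ho
    subst ho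
    exact isMap_iff.1 h
  · intro h
    exact ⟨om, isOmega_iff.2 rfl, isMap_iff.2 h⟩

/-- The quadruple `(x, (y, (z, w)))`. -/
noncomputable def qd (x y z w : N) : N := op x (op y (op z w))

theorem qd_inj {x y z w x' y' z' w' : N} :
    qd x y z w = qd x' y' z' w' ↔ x = x' ∧ y = y' ∧ z = z' ∧ w = w' := by
  unfold qd
  rw [op_inj, op_inj, op_inj]

theorem qd.dt : DT (fun w : Fin 4 → N => qd (w 0) (w 1) (w 2) (w 3)) := by
  unfold qd
  simp (maxDischargeDepth := 50)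

@[simp] theorem dt_qd {n : ℕ} {s t r q : (Fin n → N) → N} (hs : DT s) (ht : DT t) (hr : DT r)
    (hq : DT q) : DT (fun v => qd (s v) (t v) (r v) (q v)) := dt4 qd.dt hs ht hr hq

theorem isQuad_iff {t x y z w : N} : IsQuad t x y z w ↔ t = qd x y z w := by
  unfold IsQuad qd
  constructor
  · rintro ⟨q, r, h1, h2, h3⟩
    rw [isOrdPair_iff] at h1 h2 h3
    subst h1 h2 h3
    rfl
  · rintro rfl
    exact ⟨_, _, isOrdPair_iff.2 rfl, isOrdPair_iff.2 rfl, isOrdPair_iff.2 rfl⟩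

theorem mem_rs_iff {x n i : N} (hx : x ∈ fs (om : N) om) (hi : i ∈ (om : N)) {v : N} :
    op i v ∈ rs x n ↔ ap x i = v ∧ i ∈ n := by
  rw [op_mem_rs, (mem_fs.1 hx).1.op_mem_iff hi]

theorem agree_iff {x y n : N} (hx : x ∈ fs (om : N) om) (hy : y ∈ fs (om : N) om)
    (hn : n ∈ (om : N)) : Agree x y n ↔ rs x n = rs y n := by
  have hsb : Sb n om := om_ord.sb hn
  have h1 := fn_rs (mem_fs.1 hx).1 hsb
  have h2 := fn_rs (mem_fs.1 hy).1 hsb
  unfold Agree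
  constructor
  · intro h
    refine h1.ext h2 fun i hi => ?_
    rw [ap_rs (mem_fs.1 hx).1 hsb hi, ap_rs (mem_fs.1 hy).1 hsb hi]
    have h3 := (h i (ap x i) hi).1 (val_iff.2 (((mem_fs.1 hx).1.op_mem_iff (hsb _ hi)).2 rfl))
    exact (((mem_fs.1 hy).1.op_mem_iff (hsb _ hi)).1 (val_iff.1 h3)).symm
  · intro h i v hi
    rw [val_iff, val_iff]
    have h3 : op i v ∈ rs x n ↔ op i v ∈ rs y n := by rw [h]
    rw [op_mem_rs, op_mem_rs] at h3
    constructor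
    · intro h4
      exact (h3.1 ⟨h4, hi⟩).1
    · intro h4
      exact (h3.2 ⟨h4, hi⟩).1

/-- The length of a restriction. -/
theorem rs_len {x y n m : N} (hx : x ∈ fs (om : N) om) (hy : y ∈ fs (om : N) om)
    (hn : n ∈ (om : N)) (hm : m ∈ (om : N)) (h : rs x n = rs y m) : n = m := by
  refine ext' fun i => ?_
  constructor
  · intro hi
    have h1 : op i (ap x i) ∈ rs x n :=
      (mem_rs_iff hx (om_ord.trans hi hn)).2 ⟨rfl, hi⟩
    rw [h, op_mem_rs] at h1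
    exact h1.2
  · intro hi
    have h1 : op i (ap y i) ∈ rs y m :=
      (mem_rs_iff hy (om_ord.trans hi hm)).2 ⟨rfl, hi⟩
    rw [← h, op_mem_rs] at h1
    exact h1.2

theorem rs_mem {x n : N} (hx : x ∈ fs (om : N) om) : rs x n ∈ pw (pd (om : N) om) := by
  refine mem_pw.2 fun z hz => ?_
  have h1 : z ∈ x := by
    unfold rs at hz
    exact ((mem_sp (by simp (maxDischargeDepth := 50))).1 hz).1
  obtain ⟨i, hi, rfl⟩ := (mem_fs.1 hx).1.mem_iff.1 h1
  exact mem_pd.2 ⟨i, hi, _, (mem_fs.1 hx).2 i hi, rfl⟩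

/-- The `Σ¹₃` set given by a set `T` of quadruples of finite sequences. -/
def SigT (T z : N) : Prop :=
  ∃ y, y ∈ fs (om : N) om ∧ ∀ x, x ∈ fs (om : N) om → ∃ w, w ∈ fs (om : N) om ∧
    ∀ n, n ∈ (om : N) → qd (rs z n) (rs y n) (rs x n) (rs w n) ∈ T

@[simp] theorem dfn_SigT {n : ℕ} {s t : (Fin n → N) → N} (hs : DT s) (ht : DT t) :
    Dfn (fun v => SigT (s v) (t v)) :=
  dfn2 (R := SigT) (by unfold SigT; simp (maxDischargeDepth := 50)) hs ht

/-- A `Σ¹₃` set is given by a tree. -/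
theorem isSigma3_iff {A : N} :
    IsSigma3 A ↔ ∃ T : N, ∀ z, z ∈ A ↔ z ∈ fs (om : N) om ∧ SigT T z := by
  constructor
  · rintro ⟨C, ⟨h1, h2⟩, h3⟩
    let Q : N := pw (pd om om)
    let P : N → Prop := fun t => ∃ n, n ∈ (om : N) ∧ ∃ x y z w : N, qd x y z w ∈ C ∧
      t = qd (rs x n) (rs y n) (rs z n) (rs w n)
    have hP : Dfn (fun v : Fin 1 → N => P (v 0)) := by
      simp (maxDischargeDepth := 50) [P]
    have hC : ∀ x y z w : N, qd x y z w ∈ C → x ∈ fs (om : N) om ∧ y ∈ fs (om : N) om ∧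
        z ∈ fs (om : N) om ∧ w ∈ fs (om : N) om := by
      intro x y z w h
      obtain ⟨x', y', z', w', hx, hy, hz, hw, h4⟩ := h1 _ h
      rw [isQuad_iff, qd_inj] at h4
      obtain ⟨rfl, rfl, rfl, rfl⟩ := h4
      exact ⟨isReal_iff.1 hx, isReal_iff.1 hy, isReal_iff.1 hz, isReal_iff.1 hw⟩
    have hT : ∀ t, t ∈ sp (pd Q (pd Q (pd Q Q))) P ↔ P t := by
      intro t
      rw [mem_sp hP]
      constructor
      · exact fun h => h.2
      · intro h
        refine ⟨?_, h⟩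
        obtain ⟨n, hn, x, y, z, w, h5, rfl⟩ := h
        obtain ⟨hx, hy, hz, hw⟩ := hC _ _ _ _ h5
        exact mem_pd.2 ⟨_, rs_mem hx, _, mem_pd.2 ⟨_, rs_mem hy, _, mem_pd.2
          ⟨_, rs_mem hz, _, rs_mem hw, rfl⟩, rfl⟩, rfl⟩
    have key : ∀ x y z w : N, x ∈ fs (om : N) om → y ∈ fs (om : N) om → z ∈ fs (om : N) om →
        w ∈ fs (om : N) om → (qd x y z w ∈ C ↔ ∀ n, n ∈ (om : N) →
          qd (rs x n) (rs y n) (rs z n) (rs w n) ∈ sp (pd Q (pd Q (pd Q Q))) P) := by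
      intro x y z w hx hy hz hw
      constructor
      · intro h n hn
        exact (hT _).2 ⟨n, hn, x, y, z, w, h, rfl⟩
      · intro h
        by_contra hne
        obtain ⟨o, n, ho, hn, h6⟩ := h2 _ x y z w (isReal_iff.2 hx) (isReal_iff.2 hy)
          (isReal_iff.2 hz) (isReal_iff.2 hw) (isQuad_iff.2 rfl) hne
        rw [isOmega_iff] at ho
        subst ho
        obtain ⟨m, hm, x', y', z', w', h7, h8⟩ := (hT _).1 (h n hn)
        obtain ⟨hx', hy', hz', hw'⟩ := hC _ _ _ _ h7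
        rw [qd_inj] at h8
        obtain rfl := rs_len hx hx' hn hm h8.1
        exact h6 _ x' y' z' w' (isQuad_iff.2 rfl) ((agree_iff hx hx' hn).2 h8.1)
          ((agree_iff hy hy' hn).2 h8.2.1) ((agree_iff hz hz' hn).2 h8.2.2.1)
          ((agree_iff hw hw' hn).2 h8.2.2.2) h7
    refine ⟨sp (pd Q (pd Q (pd Q Q))) P, fun z => ?_⟩
    rw [h3 z, isReal_iff]
    refine and_congr_right fun hz => ?_
    unfold SigT
    constructor
    · rintro ⟨y, hy, h4⟩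
      rw [isReal_iff] at hy
      refine ⟨y, hy, fun x hx => ?_⟩
      obtain ⟨w, t, hw, ht, h5⟩ := h4 x (isReal_iff.2 hx)
      rw [isReal_iff] at hw
      rw [isQuad_iff] at ht
      subst ht
      exact ⟨w, hw, (key _ _ _ _ hz hy hx hw).1 h5⟩
    · rintro ⟨y, hy, h4⟩
      refine ⟨y, isReal_iff.2 hy, fun x hx => ?_⟩
      rw [isReal_iff] at hx
      obtain ⟨w, hw, h5⟩ := h4 x hx
      exact ⟨w, qd z y x w, isReal_iff.2 hw, isQuad_iff.2 rfl, (key _ _ _ _ hz hy hx hw).2 h5⟩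
  · rintro ⟨T, hT⟩
    let R : N := fs om om
    let P : N → Prop := fun t => ∃ x y z w : N, t = qd x y z w ∧ ∀ n, n ∈ (om : N) →
      qd (rs x n) (rs y n) (rs z n) (rs w n) ∈ T
    have hP : Dfn (fun v : Fin 1 → N => P (v 0)) := by
      simp (maxDischargeDepth := 50) [P]
    have hC : ∀ x y z w : N, qd x y z w ∈ sp (pd R (pd R (pd R R))) P ↔
        (x ∈ R ∧ y ∈ R ∧ z ∈ R ∧ w ∈ R) ∧ ∀ n, n ∈ (om : N) →
          qd (rs x n) (rs y n) (rs z n) (rs w n) ∈ T := by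
      intro x y z w
      rw [mem_sp hP]
      constructor
      · rintro ⟨h1, x', y', z', w', h2, h3⟩
        rw [qd_inj] at h2
        obtain ⟨rfl, rfl, rfl, rfl⟩ := h2
        refine ⟨?_, h3⟩
        obtain ⟨a, ha, b, hb, h4⟩ := mem_pd.1 h1
        obtain ⟨c, hc, d, hd, rfl⟩ := mem_pd.1 hb
        obtain ⟨e, he, f, hf, rfl⟩ := mem_pd.1 hd
        have h5 : qd x y z w = qd a c e f := h4
        rw [qd_inj] at h5
        obtain ⟨rfl, rfl, rfl, rfl⟩ := h5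
        exact ⟨ha, hc, he, hf⟩
      · rintro ⟨⟨hx, hy, hz, hw⟩, h3⟩
        exact ⟨mem_pd.2 ⟨_, hx, _, mem_pd.2 ⟨_, hy, _, mem_pd.2 ⟨_, hz, _, hw, rfl⟩, rfl⟩, rfl⟩,
          x, y, z, w, rfl, h3⟩
    refine ⟨sp (pd R (pd R (pd R R))) P, ⟨?_, ?_⟩, ?_⟩
    · intro t ht
      obtain ⟨x, y, z, w, rfl, h1⟩ := ((mem_sp hP).1 ht).2
      obtain ⟨⟨hx, hy, hz, hw⟩, -⟩ := (hC _ _ _ _).1 ht
      exact ⟨x, y, z, w, isReal_iff.2 hx, isReal_iff.2 hy, isReal_iff.2 hz, isReal_iff.2 hw,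
        isQuad_iff.2 rfl⟩
    · intro t x y z w hx hy hz hw ht hne
      rw [isReal_iff] at hx hy hz hw
      rw [isQuad_iff] at ht
      subst ht
      have h1 : ∃ n, n ∈ (om : N) ∧ qd (rs x n) (rs y n) (rs z n) (rs w n) ∉ T := by
        by_contra h2
        push Not at h2
        exact hne ((hC _ _ _ _).2 ⟨⟨hx, hy, hz, hw⟩, h2⟩)
      obtain ⟨n, hn, h2⟩ := h1
      refine ⟨om, n, isOmega_iff.2 rfl, hn, fun t' x' y' z' w' ht' ax ay az aw hmem => ?_⟩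
      rw [isQuad_iff] at ht'
      subst ht'
      obtain ⟨⟨hx', hy', hz', hw'⟩, h3⟩ := (hC _ _ _ _).1 hmem
      have h4 := h3 n hn
      rw [← (agree_iff hx hx' hn).1 ax, ← (agree_iff hy hy' hn).1 ay, ← (agree_iff hz hz' hn).1 az,
        ← (agree_iff hw hw' hn).1 aw] at h4
      exact h2 h4
    · intro z
      rw [hT z, isReal_iff]
      refine and_congr_right fun hz => ?_
      unfold SigT
      constructor
      · rintro ⟨y, hy, h4⟩
        refine ⟨y, isReal_iff.2 hy, fun x hx => ?_⟩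
        rw [isReal_iff] at hx
        obtain ⟨w, hw, h5⟩ := h4 x hx
        exact ⟨w, qd z y x w, isReal_iff.2 hw, isQuad_iff.2 rfl,
          (hC _ _ _ _).2 ⟨⟨hz, hy, hx, hw⟩, h5⟩⟩
      · rintro ⟨y, hy, h4⟩
        rw [isReal_iff] at hy
        refine ⟨y, hy, fun x hx => ?_⟩
        obtain ⟨w, t, hw, ht, h5⟩ := h4 x (isReal_iff.2 hx)
        rw [isReal_iff] at hw
        rw [isQuad_iff] at ht
        subst ht
        exact ⟨w, hw, ((hC _ _ _ _).1 h5).2⟩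

/-- The set of the reals with `SigT T z`. -/
theorem exists_sigT (T : N) : ∃ A : N, IsSigma3 A ∧ ∀ z, z ∈ A ↔ z ∈ fs (om : N) om ∧ SigT T z := by
  have h : ∀ z, z ∈ sp (fs (om : N) om) (SigT T) ↔ z ∈ fs (om : N) om ∧ SigT T z := fun z =>
    mem_sp (by simp)
  exact ⟨_, isSigma3_iff.2 ⟨T, h⟩, h⟩

/-- The data for the separation of two `Σ¹₃` sets or of two `Π¹₃` sets: two trees whose `Σ¹₃` sets
are complementary. -/
theorem isSeparated_of {A B T T' : N}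
    (h : ∀ z, z ∈ fs (om : N) om → (SigT T z ↔ ¬ SigT T' z))
    (hA : ∀ z, z ∈ A → z ∈ fs (om : N) om ∧ SigT T z)
    (hB : ∀ z, z ∈ B → ¬ SigT T z) : IsSeparated A B := by
  obtain ⟨D, hD, hD'⟩ := exists_sigT T
  obtain ⟨E, hE, hE'⟩ := exists_sigT T'
  refine ⟨D, hD, ⟨E, hE, fun z => ?_⟩, fun z hz => (hD' z).2 (hA z hz), fun z hz hb => ?_⟩
  · rw [hD' z, hE' z, isReal_iff]
    constructor
    · rintro ⟨h1, h2⟩
      exact ⟨h1, fun h3 => (h z h1).1 h2 h3.2⟩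
    · rintro ⟨h1, h2⟩
      exact ⟨h1, (h z h1).2 fun h3 => h2 ⟨h1, h3⟩⟩
  · exact hB z hb ((hD' z).1 hz).2

/-- The criterion for the `Σ¹₃`-separation property. -/
theorem sigmaSep_of (h : ∀ S S' : N, (∀ z, z ∈ fs (om : N) om → SigT S z → ¬ SigT S' z) →
    ∃ T T' : N, (∀ z, z ∈ fs (om : N) om → (SigT T z ↔ ¬ SigT T' z)) ∧
      (∀ z, z ∈ fs (om : N) om → SigT S z → SigT T z) ∧
      ∀ z, z ∈ fs (om : N) om → SigT S' z → SigT T' z) : SigmaSep N := by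
  intro A B hA hB hd
  obtain ⟨S, hS⟩ := isSigma3_iff.1 hA
  obtain ⟨S', hS'⟩ := isSigma3_iff.1 hB
  obtain ⟨T, T', h1, h2, h3⟩ := h S S' fun z hz h4 h5 =>
    hd z ((hS z).2 ⟨hz, h4⟩) ((hS' z).2 ⟨hz, h5⟩)
  refine isSeparated_of h1 (fun z hz => ⟨((hS z).1 hz).1, h2 z ((hS z).1 hz).1 ((hS z).1 hz).2⟩)
    fun z hz h4 => ?_
  obtain ⟨hr, h5⟩ := (hS' z).1 hz
  exact (h1 z hr).1 h4 (h3 z hr h5)

/-- The criterion for the `Π¹₃`-separation property. -/
theorem piSep_of (h : ∀ S S' : N, (∀ z, z ∈ fs (om : N) om → SigT S z ∨ SigT S' z) →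
    ∃ T T' : N, (∀ z, z ∈ fs (om : N) om → (SigT T z ↔ ¬ SigT T' z)) ∧
      (∀ z, z ∈ fs (om : N) om → SigT T z → SigT S z) ∧
      ∀ z, z ∈ fs (om : N) om → SigT T' z → SigT S' z) : PiSep N := by
  intro A B hA hB hd
  obtain ⟨A', hA', hA⟩ := hA
  obtain ⟨B', hB', hB⟩ := hB
  obtain ⟨S, hS⟩ := isSigma3_iff.1 hA'
  obtain ⟨S', hS'⟩ := isSigma3_iff.1 hB'
  obtain ⟨T, T', h1, h2, h3⟩ := h S S' fun z hz => by
    by_contra h4
    push Not at h4
    exact hd z ((hA z).2 ⟨isReal_iff.2 hz, fun h5 => h4.1 ((hS z).1 h5).2⟩)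
      ((hB z).2 ⟨isReal_iff.2 hz, fun h5 => h4.2 ((hS' z).1 h5).2⟩)
  refine isSeparated_of (T := T') (T' := T) (fun z hz => ?_) (fun z hz => ?_) fun z hz h4 => ?_
  · rw [h1 z hz, not_not]
  · obtain ⟨hr, h5⟩ := (hA z).1 hz
    rw [isReal_iff] at hr
    refine ⟨hr, ?_⟩
    by_contra h6
    exact h5 ((hS z).2 ⟨hr, h2 z hr ((h1 z hr).2 h6)⟩)
  · obtain ⟨hr, h5⟩ := (hB z).1 hz
    rw [isReal_iff] at hr
    exact h5 ((hS' z).2 ⟨hr, h3 z hr h4⟩)

/-- The criterion for the two separation properties, with the predicate `Cod z e i` (the real `z`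
is coded at the tag `e` with the bit `i`) which is `Σ¹₃` for fixed `e` and `i`. -/
theorem bothSep_of (Cod : N → N → N → Prop)
    (hCod : ∀ e i : N, ∃ T : N, ∀ z, z ∈ fs (om : N) om → (Cod z e i ↔ SigT T z))
    (hS : ∀ S S' : N, (∀ z, z ∈ fs (om : N) om → SigT S z → ¬ SigT S' z) →
      ∃ e i j : N, (∀ z, z ∈ fs (om : N) om → (Cod z e i ↔ ¬ Cod z e j)) ∧
        (∀ z, z ∈ fs (om : N) om → SigT S z → Cod z e i) ∧
        ∀ z, z ∈ fs (om : N) om → SigT S' z → Cod z e j)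
    (hP : ∀ S S' : N, (∀ z, z ∈ fs (om : N) om → SigT S z ∨ SigT S' z) →
      ∃ e i j : N, (∀ z, z ∈ fs (om : N) om → (Cod z e i ↔ ¬ Cod z e j)) ∧
        (∀ z, z ∈ fs (om : N) om → Cod z e i → SigT S z) ∧
        ∀ z, z ∈ fs (om : N) om → Cod z e j → SigT S' z) : SigmaSep N ∧ PiSep N := by
  constructor
  · refine sigmaSep_of fun S S' hd => ?_
    obtain ⟨e, i, j, h1, h2, h3⟩ := hS S S' hd
    obtain ⟨T, hT⟩ := hCod e i
    obtain ⟨T', hT'⟩ := hCod e j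
    exact ⟨T, T', fun z hz => by rw [← hT z hz, ← hT' z hz]; exact h1 z hz,
      fun z hz h => (hT z hz).1 (h2 z hz h), fun z hz h => (hT' z hz).1 (h3 z hz h)⟩
  · refine piSep_of fun S S' hd => ?_
    obtain ⟨e, i, j, h1, h2, h3⟩ := hP S S' hd
    obtain ⟨T, hT⟩ := hCod e i
    obtain ⟨T', hT'⟩ := hCod e j
    exact ⟨T, T', fun z hz => by rw [← hT z hz, ← hT' z hz]; exact h1 z hz,
      fun z hz h => h2 z hz ((hT z hz).2 h), fun z hz h => h3 z hz ((hT' z hz).2 h)⟩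

end Pool.Agent.Sep
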