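import Pool.Agent.Frc.Zfc
import Pool.Agent.Sep.Tree

/-!
# Uniform forcing relations

Predicates which are given by one formula without parameters in all models of ZFC, and their
forcing relations, which are definable uniformly in the poset.
-/

universe u

set_option linter.unusedSectionVars false

namespace Pool.Agent.Sep

open Pool.Agent.SigB Pool.Agent.Frc

/-- A model of ZFC. -/
structure MdC where
  c : Type u
  [m : Membership c c]
  [z : IsZFC c]

attribute [instance] MdC.m MdC.z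

instance : CoeSort MdC.{u} (Type u) := ⟨MdC.c⟩

/-- A formula without parameters, as a formula of `M`. -/
def toM {M : Type u} {n : ℕ} (φ : Fml PEmpty.{u + 1} n) : Fml M n := mapP (fun a => a.elim) φ

/-- A predicate which is given by a formula without parameters in all models of ZFC. -/
def U0 {n : ℕ} (P : ∀ M : MdC.{u}, (Fin n → M) → Prop) : Prop :=
  ∃ φ : Fml PEmpty.{u + 1} n, ∀ (M : MdC.{u}) (v : Fin n → M), P M v ↔ (toM φ).Sat v

variable {n m : ℕ} {P Q : ∀ M : MdC.{u}, (Fin n → M) → Prop}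

theorem toM_ren {M : Type u} : ∀ {n m : ℕ} (φ : Fml PEmpty.{u + 1} n) (f : Fin n → Fin m),
    (toM (φ.ren f) : Fml M m) = (toM φ).ren f
  | _, _, .mem s t, f => by
    rcases s with s | s
    · rcases t with t | t
      · rfl
      · exact t.elim
    · exact s.elim
  | _, _, .eq s t, f => by
    rcases s with s | s
    · rcases t with t | t
      · rfl
      · exact t.elim
    · exact s.elim
  | _, _, .neg φ, f => congrArg Fml.neg (toM_ren φ f)
  | _, _, .and φ ψ, f => congrArg₂ Fml.and (toM_ren φ f) (toM_ren ψ f)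
  | _, _, .ex φ, f => congrArg Fml.ex (toM_ren φ (liftRen f))

theorem U0.congr (h : U0 P) (h' : ∀ (M : MdC.{u}) v, P M v ↔ Q M v) : U0 Q := by
  obtain ⟨φ, hφ⟩ := h
  exact ⟨φ, fun M v => by rw [← h', hφ]⟩

theorem U0.ren (h : U0 P) (f : Fin n → Fin m) :
    U0 (fun (M : MdC.{u}) (w : Fin m → M) => P M fun i => w (f i)) := by
  obtain ⟨φ, hφ⟩ := h
  exact ⟨φ.ren f, fun M v => by rw [toM_ren, Fml.sat_ren]; exact hφ M _⟩

@[simp] theorem U0.not (h : U0 P) : U0 (fun M v => ¬ P M v) := by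
  obtain ⟨φ, hφ⟩ := h
  exact ⟨.neg φ, fun M v => not_congr (hφ M v)⟩

@[simp] theorem U0.and (h : U0 P) (h' : U0 Q) : U0 (fun M v => P M v ∧ Q M v) := by
  obtain ⟨φ, hφ⟩ := h
  obtain ⟨ψ, hψ⟩ := h'
  exact ⟨.and φ ψ, fun M v => and_congr (hφ M v) (hψ M v)⟩

@[simp] theorem U0.or (h : U0 P) (h' : U0 Q) : U0 (fun M v => P M v ∨ Q M v) :=
  ((h.not.and h'.not).not).congr fun M v => by tauto

@[simp] theorem U0.imp (h : U0 P) (h' : U0 Q) : U0 (fun M v => P M v → Q M v) :=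
  ((h.and h'.not).not).congr fun M v => by tauto

@[simp] theorem U0.iff (h : U0 P) (h' : U0 Q) : U0 (fun M v => (P M v ↔ Q M v)) :=
  ((h.imp h').and (h'.imp h)).congr fun M v => by tauto

@[simp] theorem U0.mem (i j : Fin n) : U0 (fun (M : MdC.{u}) (v : Fin n → M) => v i ∈ v j) :=
  ⟨.mem (.inl i) (.inl j), fun _ _ => Iff.rfl⟩

@[simp] theorem U0.eq (i j : Fin n) : U0 (fun (M : MdC.{u}) (v : Fin n → M) => v i = v j) :=
  ⟨.eq (.inl i) (.inl j), fun _ _ => Iff.rfl⟩

@[simp] theorem U0.ex {P : ∀ M : MdC.{u}, (Fin n → M) → M → Prop}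
    (h : U0 (fun (M : MdC.{u}) (w : Fin (n + 1) → M) => P M (fun k => w k.succ) (w 0))) :
    U0 (fun (M : MdC.{u}) (v : Fin n → M) => ∃ z, P M v z) := by
  obtain ⟨φ, hφ⟩ := h
  refine ⟨.ex φ, fun M v => ?_⟩
  show (∃ z, P M v z) ↔ ∃ z : M, (toM φ).Sat (Fin.cons z v)
  refine exists_congr fun z => ?_
  have := hφ M (Fin.cons z v)
  simpa using this

@[simp] theorem U0.all {P : ∀ M : MdC.{u}, (Fin n → M) → M → Prop}
    (h : U0 (fun (M : MdC.{u}) (w : Fin (n + 1) → M) => P M (fun k => w k.succ) (w 0))) :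
    U0 (fun (M : MdC.{u}) (v : Fin n → M) => ∀ z, P M v z) :=
  (U0.ex (P := fun M v z => ¬ P M v z) h.not).not.congr fun M v => by
    constructor
    · intro h z
      by_contra hn
      exact h ⟨z, hn⟩
    · rintro h ⟨z, hn⟩
      exact hn (h z)

/-! ### Terms -/

/-- A function which is given by a formula without parameters in all models of ZFC. -/
def UT {n : ℕ} (t : ∀ M : MdC.{u}, (Fin n → M) → M) : Prop :=
  U0 (fun (M : MdC.{u}) (w : Fin (n + 1) → M) => w 0 = t M (fun i => w i.succ))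

/-- Substitution of a term for the variable `0`. -/
theorem U0.sub {P : ∀ M : MdC.{u}, (Fin n → M) → M → Prop} {t : ∀ M : MdC.{u}, (Fin n → M) → M}
    (h : U0 (fun (M : MdC.{u}) (w : Fin (n + 1) → M) => P M (fun i => w i.succ) (w 0)))
    (ht : UT t) : U0 (fun (M : MdC.{u}) (v : Fin n → M) => P M v (t M v)) :=
  (U0.ex (P := fun M v x => x = t M v ∧ P M v x) (U0.and ht h)).congr fun M v => by
    constructor
    · rintro ⟨z, rfl, h⟩
      exact h
    · exact fun h => ⟨_, rfl, h⟩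

theorem UT.ren {t : ∀ M : MdC.{u}, (Fin n → M) → M} (ht : UT t) (f : Fin n → Fin m) :
    UT (fun (M : MdC.{u}) (w : Fin m → M) => t M fun i => w (f i)) := by
  have := U0.ren ht (liftRen f)
  refine this.congr fun M w => ?_
  simp [liftRen]

@[simp] theorem UT.var (i : Fin n) : UT (fun (M : MdC.{u}) (w : Fin n → M) => w i) :=
  U0.eq 0 i.succ

theorem u1 {R : ∀ M : MdC.{u}, M → Prop} (h : U0 (fun (M : MdC.{u}) (w : Fin 1 → M) => R M (w 0)))
    {s : ∀ M : MdC.{u}, (Fin n → M) → M} (hs : UT s) :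
    U0 (fun (M : MdC.{u}) (v : Fin n → M) => R M (s M v)) :=
  U0.sub (P := fun M _ x => R M x) (h.ren (m := n + 1) (fun _ => 0)) hs

theorem u2 {R : ∀ M : MdC.{u}, M → M → Prop}
    (h : U0 (fun (M : MdC.{u}) (w : Fin 2 → M) => R M (w 0) (w 1)))
    {s t : ∀ M : MdC.{u}, (Fin n → M) → M} (hs : UT s) (ht : UT t) :
    U0 (fun (M : MdC.{u}) (v : Fin n → M) => R M (s M v) (t M v)) := by
  refine U0.sub (P := fun M v x => R M x (t M v)) ?_ hs
  refine U0.sub (P := fun (M : MdC.{u}) (w : Fin (n + 1) → M) y => R M (w 0) y) ?_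
    (ht.ren Fin.succ)
  exact h.ren (m := n + 2) ![1, 0]

theorem u3 {R : ∀ M : MdC.{u}, M → M → M → Prop}
    (h : U0 (fun (M : MdC.{u}) (w : Fin 3 → M) => R M (w 0) (w 1) (w 2)))
    {s t r : ∀ M : MdC.{u}, (Fin n → M) → M} (hs : UT s) (ht : UT t) (hr : UT r) :
    U0 (fun (M : MdC.{u}) (v : Fin n → M) => R M (s M v) (t M v) (r M v)) := by
  refine U0.sub (P := fun M v x => R M x (t M v) (r M v)) ?_ hs
  refine U0.sub (P := fun (M : MdC.{u}) (w : Fin (n + 1) → M) y =>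
    R M (w 0) y (r M fun i => w i.succ)) ?_ (ht.ren Fin.succ)
  refine U0.sub (P := fun (M : MdC.{u}) (w : Fin (n + 2) → M) z => R M (w 1) (w 0) z) ?_
    (hr.ren (fun i => i.succ.succ))
  exact h.ren (m := n + 3) ![2, 1, 0]

theorem u4 {R : ∀ M : MdC.{u}, M → M → M → M → Prop}
    (h : U0 (fun (M : MdC.{u}) (w : Fin 4 → M) => R M (w 0) (w 1) (w 2) (w 3)))
    {s t r q : ∀ M : MdC.{u}, (Fin n → M) → M} (hs : UT s) (ht : UT t) (hr : UT r) (hq : UT q) :
    U0 (fun (M : MdC.{u}) (v : Fin n → M) => R M (s M v) (t M v) (r M v) (q M v)) := by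
  refine U0.sub (P := fun M v x => R M x (t M v) (r M v) (q M v)) ?_ hs
  refine U0.sub (P := fun (M : MdC.{u}) (w : Fin (n + 1) → M) y =>
    R M (w 0) y (r M fun i => w i.succ) (q M fun i => w i.succ)) ?_ (ht.ren Fin.succ)
  refine U0.sub (P := fun (M : MdC.{u}) (w : Fin (n + 2) → M) z => R M (w 1) (w 0) z
    (q M fun i => w i.succ.succ)) ?_ (hr.ren (fun i => i.succ.succ))
  refine U0.sub (P := fun (M : MdC.{u}) (w : Fin (n + 3) → M) z => R M (w 2) (w 1) (w 0) z) ?_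
    (hq.ren (fun i => i.succ.succ.succ))
  exact h.ren (m := n + 4) ![3, 2, 1, 0]

theorem u5 {R : ∀ M : MdC.{u}, M → M → M → M → M → Prop}
    (h : U0 (fun (M : MdC.{u}) (w : Fin 5 → M) => R M (w 0) (w 1) (w 2) (w 3) (w 4)))
    {s t r q p : ∀ M : MdC.{u}, (Fin n → M) → M} (hs : UT s) (ht : UT t) (hr : UT r) (hq : UT q)
    (hp : UT p) :
    U0 (fun (M : MdC.{u}) (v : Fin n → M) => R M (s M v) (t M v) (r M v) (q M v) (p M v)) := by
  refine U0.sub (P := fun M v x => R M x (t M v) (r M v) (q M v) (p M v)) ?_ hs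
  refine U0.sub (P := fun (M : MdC.{u}) (w : Fin (n + 1) → M) y =>
    R M (w 0) y (r M fun i => w i.succ) (q M fun i => w i.succ) (p M fun i => w i.succ)) ?_
    (ht.ren Fin.succ)
  refine U0.sub (P := fun (M : MdC.{u}) (w : Fin (n + 2) → M) z => R M (w 1) (w 0) z
    (q M fun i => w i.succ.succ) (p M fun i => w i.succ.succ)) ?_ (hr.ren (fun i => i.succ.succ))
  refine U0.sub (P := fun (M : MdC.{u}) (w : Fin (n + 3) → M) z => R M (w 2) (w 1) (w 0) z
    (p M fun i => w i.succ.succ.succ)) ?_ (hq.ren (fun i => i.succ.succ.succ))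
  refine U0.sub (P := fun (M : MdC.{u}) (w : Fin (n + 4) → M) z =>
    R M (w 3) (w 2) (w 1) (w 0) z) ?_ (hp.ren (fun i => i.succ.succ.succ.succ))
  exact h.ren (m := n + 5) ![4, 3, 2, 1, 0]

theorem ut1 {F : ∀ M : MdC.{u}, M → M} (h : UT (fun (M : MdC.{u}) (w : Fin 1 → M) => F M (w 0)))
    {s : ∀ M : MdC.{u}, (Fin n → M) → M} (hs : UT s) :
    UT (fun (M : MdC.{u}) (v : Fin n → M) => F M (s M v)) :=
  u2 (R := fun M x y => x = F M y) h (UT.var 0) (hs.ren Fin.succ)

theorem ut2 {F : ∀ M : MdC.{u}, M → M → M}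
    (h : UT (fun (M : MdC.{u}) (w : Fin 2 → M) => F M (w 0) (w 1)))
    {s t : ∀ M : MdC.{u}, (Fin n → M) → M} (hs : UT s) (ht : UT t) :
    UT (fun (M : MdC.{u}) (v : Fin n → M) => F M (s M v) (t M v)) :=
  u3 (R := fun M x y z => x = F M y z) h (UT.var 0) (hs.ren Fin.succ) (ht.ren Fin.succ)

theorem ut3 {F : ∀ M : MdC.{u}, M → M → M → M}
    (h : UT (fun (M : MdC.{u}) (w : Fin 3 → M) => F M (w 0) (w 1) (w 2)))
    {s t r : ∀ M : MdC.{u}, (Fin n → M) → M} (hs : UT s) (ht : UT t) (hr : UT r) :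
    UT (fun (M : MdC.{u}) (v : Fin n → M) => F M (s M v) (t M v) (r M v)) :=
  u4 (R := fun M x y z o => x = F M y z o) h (UT.var 0) (hs.ren Fin.succ) (ht.ren Fin.succ)
    (hr.ren Fin.succ)

theorem ut4 {F : ∀ M : MdC.{u}, M → M → M → M → M}
    (h : UT (fun (M : MdC.{u}) (w : Fin 4 → M) => F M (w 0) (w 1) (w 2) (w 3)))
    {s t r q : ∀ M : MdC.{u}, (Fin n → M) → M} (hs : UT s) (ht : UT t) (hr : UT r) (hq : UT q) :
    UT (fun (M : MdC.{u}) (v : Fin n → M) => F M (s M v) (t M v) (r M v) (q M v)) :=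
  u5 (R := fun M x y z o e => x = F M y z o e) h (UT.var 0) (hs.ren Fin.succ) (ht.ren Fin.succ)
    (hr.ren Fin.succ) (hq.ren Fin.succ)

@[simp] theorem u0_mem {s t : ∀ M : MdC.{u}, (Fin n → M) → M} (hs : UT s) (ht : UT t) :
    U0 (fun (M : MdC.{u}) (v : Fin n → M) => s M v ∈ t M v) :=
  u2 (R := fun M x y => x ∈ y) (U0.mem 0 1) hs ht

@[simp] theorem u0_eq {s t : ∀ M : MdC.{u}, (Fin n → M) → M} (hs : UT s) (ht : UT t) :
    U0 (fun (M : MdC.{u}) (v : Fin n → M) => s M v = t M v) :=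
  u2 (R := fun M x y => x = y) (U0.eq 0 1) hs ht

@[simp] theorem U0.const (p : Prop) : U0 (fun (M : MdC.{u}) (_ : Fin n → M) => p) := by
  have h : U0 (fun (M : MdC.{u}) (_ : Fin n → M) => ∃ z : M, z = z) :=
    U0.ex (P := fun _ _ z => z = z) (U0.eq 0 0)
  by_cases hp : p
  · exact h.congr fun M v => ⟨fun _ => hp, fun _ => ⟨SigB.em, rfl⟩⟩
  · exact h.not.congr fun M v => ⟨fun h => (h ⟨SigB.em, rfl⟩).elim, fun h => (hp h).elim⟩

@[simp] theorem ut_cp {P : ∀ M : MdC.{u}, (Fin n → M) → M → Prop}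
    (h : U0 (fun (M : MdC.{u}) (w : Fin (n + 1) → M) => P M (fun i => w i.succ) (w 0))) :
    UT (fun (M : MdC.{u}) (v : Fin n → M) => cp (P M v)) := by
  have h2 : U0 (fun (M : MdC.{u}) (w : Fin (n + 1) → M) =>
      ∃ b : M, ∀ x, x ∈ b ↔ P M (fun i => w i.succ) x) := by
    refine U0.ex (P := fun (M : MdC.{u}) (w : Fin (n + 1) → M) b =>
      ∀ x, x ∈ b ↔ P M (fun i => w i.succ) x) ?_
    refine U0.all (P := fun (M : MdC.{u}) (w : Fin (n + 2) → M) x =>
      x ∈ w 0 ↔ P M (fun i => w i.succ.succ) x) ?_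
    refine U0.iff (by simp) ?_
    exact h.ren (m := n + 3) (Fin.cases 0 fun i => i.succ.succ.succ)
  have h3 : U0 (fun (M : MdC.{u}) (w : Fin (n + 1) → M) =>
      ∀ x, x ∈ w 0 ↔ P M (fun i => w i.succ) x) := by
    refine U0.all (P := fun (M : MdC.{u}) (w : Fin (n + 1) → M) x =>
      x ∈ w 0 ↔ P M (fun i => w i.succ) x) ?_
    refine U0.iff (by simp) ?_
    exact h.ren (m := n + 2) (Fin.cases 0 fun i => i.succ.succ)
  have h4 : U0 (fun (M : MdC.{u}) (w : Fin (n + 1) → M) => ∀ z : M, z ∉ w 0) :=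
    U0.all (P := fun (M : MdC.{u}) (w : Fin (n + 1) → M) z => z ∉ w 0)
      (U0.not (U0.mem 0 (Fin.succ 0)))
  exact (h3.or (h2.not.and h4)).congr fun M w => cp_eq_iff.symm

@[simp] theorem ut_sp {s : ∀ M : MdC.{u}, (Fin n → M) → M}
    {P : ∀ M : MdC.{u}, (Fin n → M) → M → Prop} (hs : UT s)
    (h : U0 (fun (M : MdC.{u}) (w : Fin (n + 1) → M) => P M (fun i => w i.succ) (w 0))) :
    UT (fun (M : MdC.{u}) (v : Fin n → M) => sp (s M v) (P M v)) := by
  unfold sp
  exact ut_cp (P := fun M v z => z ∈ s M v ∧ P M v z) (U0.and (u0_mem (UT.var 0) (hs.ren _)) h)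

/-! ### The basic notions -/

@[simp] theorem u0_Sb {s t : ∀ M : MdC.{u}, (Fin n → M) → M} (hs : UT s) (ht : UT t) :
    U0 (fun (M : MdC.{u}) (v : Fin n → M) => Sb (s M v) (t M v)) :=
  u2 (R := fun M x y => Sb x y) (by unfold Sb; simp (maxDischargeDepth := 50)) hs ht

@[simp] theorem ut_em : UT (fun (M : MdC.{u}) (_ : Fin n → M) => (SigB.em : M)) := by
  unfold SigB.em
  simp (maxDischargeDepth := 50)

@[simp] theorem ut_pr {s t : ∀ M : MdC.{u}, (Fin n → M) → M} (hs : UT s) (ht : UT t) :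
    UT (fun (M : MdC.{u}) (v : Fin n → M) => pr (s M v) (t M v)) :=
  ut2 (F := fun M x y => pr x y) (by unfold pr; simp (maxDischargeDepth := 50)) hs ht

@[simp] theorem ut_sU {s : ∀ M : MdC.{u}, (Fin n → M) → M} (hs : UT s) :
    UT (fun (M : MdC.{u}) (v : Fin n → M) => sU (s M v)) :=
  ut1 (F := fun M x => sU x) (by unfold sU; simp (maxDischargeDepth := 50)) hs

@[simp] theorem ut_pw {s : ∀ M : MdC.{u}, (Fin n → M) → M} (hs : UT s) :
    UT (fun (M : MdC.{u}) (v : Fin n → M) => pw (s M v)) :=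
  ut1 (F := fun M x => pw x) (by unfold pw; simp (maxDischargeDepth := 50)) hs

@[simp] theorem ut_op {s t : ∀ M : MdC.{u}, (Fin n → M) → M} (hs : UT s) (ht : UT t) :
    UT (fun (M : MdC.{u}) (v : Fin n → M) => op (s M v) (t M v)) :=
  ut2 (F := fun M x y => op x y) (by unfold op; simp (maxDischargeDepth := 50)) hs ht

@[simp] theorem ut_un {s t : ∀ M : MdC.{u}, (Fin n → M) → M} (hs : UT s) (ht : UT t) :
    UT (fun (M : MdC.{u}) (v : Fin n → M) => un (s M v) (t M v)) :=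
  ut2 (F := fun M x y => un x y) (by unfold un; simp (maxDischargeDepth := 50)) hs ht

@[simp] theorem ut_sc {s : ∀ M : MdC.{u}, (Fin n → M) → M} (hs : UT s) :
    UT (fun (M : MdC.{u}) (v : Fin n → M) => sc (s M v)) :=
  ut1 (F := fun M x => sc x) (by unfold sc; simp (maxDischargeDepth := 50)) hs

@[simp] theorem ut_pd {s t : ∀ M : MdC.{u}, (Fin n → M) → M} (hs : UT s) (ht : UT t) :
    UT (fun (M : MdC.{u}) (v : Fin n → M) => pd (s M v) (t M v)) :=
  ut2 (F := fun M x y => pd x y) (by unfold pd; simp (maxDischargeDepth := 50)) hs ht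

@[simp] theorem ut_ap {s t : ∀ M : MdC.{u}, (Fin n → M) → M} (hs : UT s) (ht : UT t) :
    UT (fun (M : MdC.{u}) (v : Fin n → M) => ap (s M v) (t M v)) :=
  ut2 (F := fun M x y => ap x y) (by unfold ap; simp (maxDischargeDepth := 50)) hs ht

@[simp] theorem u0_Fn {s t : ∀ M : MdC.{u}, (Fin n → M) → M} (hs : UT s) (ht : UT t) :
    U0 (fun (M : MdC.{u}) (v : Fin n → M) => Fn (s M v) (t M v)) :=
  u2 (R := fun M x y => Fn x y) (by unfold Fn; simp (maxDischargeDepth := 50)) hs ht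

@[simp] theorem ut_fs {s t : ∀ M : MdC.{u}, (Fin n → M) → M} (hs : UT s) (ht : UT t) :
    UT (fun (M : MdC.{u}) (v : Fin n → M) => fs (s M v) (t M v)) :=
  ut2 (F := fun M x y => fs x y) (by unfold fs; simp (maxDischargeDepth := 50)) hs ht

@[simp] theorem ut_rs {s t : ∀ M : MdC.{u}, (Fin n → M) → M} (hs : UT s) (ht : UT t) :
    UT (fun (M : MdC.{u}) (v : Fin n → M) => rs (s M v) (t M v)) :=
  ut2 (F := fun M x y => rs x y) (by unfold rs; simp (maxDischargeDepth := 50)) hs ht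

@[simp] theorem ut_om : UT (fun (M : MdC.{u}) (_ : Fin n → M) => (SigB.om : M)) := by
  unfold SigB.om
  refine ut_cp (P := fun M _ n => ∀ a : M, (SigB.em ∈ a ∧ ∀ x, x ∈ a → sc x ∈ a) → n ∈ a) ?_
  refine U0.all (P := fun M w a => (SigB.em ∈ a ∧ ∀ x, x ∈ a → sc x ∈ a) → w 0 ∈ a) ?_
  refine U0.imp (U0.and (by simp) ?_) (by simp)
  exact U0.all (P := fun M w x => x ∈ w 0 → sc x ∈ w 0) (by simp (maxDischargeDepth := 50))

@[simp] theorem u0_Tr {s : ∀ M : MdC.{u}, (Fin n → M) → M} (hs : UT s) :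
    U0 (fun (M : MdC.{u}) (v : Fin n → M) => SigB.Tr (s M v)) :=
  u1 (R := fun M x => SigB.Tr x) (by unfold SigB.Tr; simp (maxDischargeDepth := 50)) hs

@[simp] theorem u0_Ord {s : ∀ M : MdC.{u}, (Fin n → M) → M} (hs : UT s) :
    U0 (fun (M : MdC.{u}) (v : Fin n → M) => SigB.Ord (s M v)) :=
  u1 (R := fun M x => SigB.Ord x) (by unfold SigB.Ord; simp (maxDischargeDepth := 50)) hs

@[simp] theorem ut_qd {s t r q : ∀ M : MdC.{u}, (Fin n → M) → M} (hs : UT s) (ht : UT t)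
    (hr : UT r) (hq : UT q) :
    UT (fun (M : MdC.{u}) (v : Fin n → M) => qd (s M v) (t M v) (r M v) (q M v)) :=
  ut4 (F := fun M x y z o => qd x y z o) (by unfold qd; simp (maxDischargeDepth := 50)) hs ht hr hq

@[simp] theorem u0_SigT {s t : ∀ M : MdC.{u}, (Fin n → M) → M} (hs : UT s) (ht : UT t) :
    U0 (fun (M : MdC.{u}) (v : Fin n → M) => SigT (s M v) (t M v)) :=
  u2 (R := fun M x y => SigT x y) (by unfold SigT; simp (maxDischargeDepth := 50)) hs ht

/-! ### The forcing relation, uniformly in the poset -/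

section

variable {M : Type u} [Membership M M] [IsZFC M]

theorem dt_elim3 {n : ℕ} (s : Fin n ⊕ M) :
    DT (fun w : Fin (n + 3) → M => Sum.elim (fun i : Fin n => w i.succ.succ.succ) id s) := by
  rcases s with i | a
  · exact DT.var i.succ.succ.succ
  · exact DT.const a

theorem fc_dfn : ∀ {n : ℕ} (φ : Fml M n),
    Dfn (fun w : Fin (n + 3) → M => Fc (w 0) (w 1) φ (w 2) (fun i => w i.succ.succ.succ))
  | _, .mem s t => dfn_MemF (DT.var 0) (DT.var 1) (dt_elim3 s) (dt_elim3 t) (DT.var 2)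
  | _, .eq s t => dfn_EqF (DT.var 0) (DT.var 1) (dt_elim3 s) (dt_elim3 t) (DT.var 2)
  | n, .neg φ => by
    refine Dfn.and (by simp) ?_
    refine Dfn.all (P := fun (w : Fin (n + 3) → M) q =>
      op q (w 2) ∈ w 1 → ¬ Fc (w 0) (w 1) φ q (fun i => w i.succ.succ.succ)) ?_
    refine Dfn.imp (by simp (maxDischargeDepth := 50)) (Dfn.not ?_)
    exact (fc_dfn φ).ren (m := n + 4)
      (Fin.cases 1 (Fin.cases 2 (Fin.cases 0 fun i => i.succ.succ.succ.succ)))
  | _, .and φ ψ => (fc_dfn φ).and (fc_dfn ψ)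
  | n, .ex φ => by
    refine Dfn.and (by simp) ?_
    refine Dfn.all (P := fun (w : Fin (n + 3) → M) q => op q (w 2) ∈ w 1 →
      ∃ s, op s q ∈ w 1 ∧ ∃ x, Fc (w 0) (w 1) φ s (Fin.cons x fun i => w i.succ.succ.succ)) ?_
    refine Dfn.imp (by simp (maxDischargeDepth := 50)) ?_
    refine Dfn.ex (P := fun (w : Fin (n + 4) → M) s => op s (w 0) ∈ w 2 ∧
      ∃ x, Fc (w 1) (w 2) φ s (Fin.cons x fun i => w i.succ.succ.succ.succ)) ?_
    refine Dfn.and (by simp (maxDischargeDepth := 50)) ?_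
    refine Dfn.ex (P := fun (w : Fin (n + 5) → M) x =>
      Fc (w 2) (w 3) φ (w 0) (Fin.cons x fun i => w i.succ.succ.succ.succ.succ)) ?_
    have h := (fc_dfn φ).ren (m := n + 6)
      (Fin.cases 3 (Fin.cases 4 (Fin.cases 1 (Fin.cases 0
        fun i => i.succ.succ.succ.succ.succ.succ))))
    refine h.congr fun w => ?_
    have : (fun i : Fin (n + 1) => w ((Fin.cases 3 (Fin.cases 4 (Fin.cases 1 (Fin.cases 0
        fun i => i.succ.succ.succ.succ.succ.succ))) :
        Fin (n + 4) → Fin (n + 6)) i.succ.succ.succ)) =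
        Fin.cons (w 0) fun i => w i.succ.succ.succ.succ.succ.succ := by
      funext i
      refine Fin.cases ?_ (fun i => ?_) i <;> first | rfl | simp
    rw [this]
    rfl

theorem mapP_toM {A B : Type u} (f : A → B) : ∀ {n : ℕ} (φ : Fml PEmpty.{u + 1} n),
    mapP f (toM φ : Fml A n) = toM φ
  | _, .mem s t => by
    rcases s with s | s
    · rcases t with t | t
      · rfl
      · exact t.elim
    · exact s.elim
  | _, .eq s t => by
    rcases s with s | s
    · rcases t with t | t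
      · rfl
      · exact t.elim
    · exact s.elim
  | _, .neg φ => congrArg Fml.neg (mapP_toM f φ)
  | _, .and φ ψ => congrArg₂ Fml.and (mapP_toM f φ) (mapP_toM f ψ)
  | _, .ex φ => congrArg Fml.ex (mapP_toM f φ)

variable {P le one : M} {R : ∀ M : MdC.{u}, (Fin n → M) → Prop}

/-- `p ⊩ R(v)` for a predicate `R` which is given by a formula without parameters. -/
def FU (hR : U0 R) (P le p : M) (v : Fin n → M) : Prop := Fc P le (toM hR.choose) p v

theorem FU.dfn (hR : U0 R) : Dfn (fun w : Fin (n + 3) → M =>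
    FU hR (w 0) (w 1) (w 2) (fun i => w i.succ.succ.succ)) := fc_dfn (toM hR.choose)

theorem FU.mem {hR : U0 R} {p : M} {v : Fin n → M} (h : FU hR P le p v) : p ∈ P := frc_mem _ h

theorem FU.mono {hR : U0 R} (hP : PO P le one) {p q : M} {v : Fin n → M} (h : FU hR P le p v)
    (hq : op q p ∈ le) : FU hR P le q v := frc_mono hP _ h hq

theorem FU.dense {hR : U0 R} (hP : PO P le one) {p : M} {v : Fin n → M} (hp : p ∈ P)
    (h : ∀ q, op q p ∈ le → ∃ s, op s q ∈ le ∧ FU hR P le s v) : FU hR P le p v :=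
  frc_dense hP _ hp h

theorem FU.truth (hR : U0 R) {G : M → Prop} {N : MdC.{u}} {val : M → N}
    (hE : Ext P le one G val) (v : Fin n → M) :
    R N (fun i => val (v i)) ↔ ∃ p, G p ∧ FU hR P le p v := by
  unfold FU
  rw [hR.choose_spec, ← hE.truth, mapP_toM]

/-- A condition forces what is true in all extensions for which it is in the generic filter. -/
theorem FU.of_forall [Countable M] (hR : U0 R) (hP : PO P le one) {p : M} {v : Fin n → M}
    (hp : p ∈ P) (h : ∀ (G : M → Prop) (N : MdC.{u}) (val : M → N), Ext P le one G val → G p →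
      R N (fun i => val (v i))) : FU hR P le p v := by
  refine FU.dense hP hp fun q hq => ?_
  obtain ⟨G, hG, hGq⟩ := exists_gen hP (hP.sub _ _ hq).1
  obtain ⟨N, inst, val, hE⟩ := exists_ext hP hG
  have := hE.isZFC
  obtain ⟨r, hr, hr'⟩ := (FU.truth hR (N := ⟨N⟩) hE v).1
    (h G ⟨N⟩ val hE (hG.up _ _ hGq hq))
  obtain ⟨s, -, h1, h2⟩ := hG.dir r q hr hGq
  exact ⟨s, h2, hr'.mono hP h1⟩

/-- The forcing relation of a predicate which is given by a formula without parameters is definable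
uniformly in the poset. -/
theorem frc_uniform (hR : U0 R) (M : Type u)
    [Membership M M] [IsZFC M] : ∃ F : M → M → M → (Fin n → M) → Prop,
      Dfn (fun w : Fin (n + 3) → M => F (w 0) (w 1) (w 2) (fun i => w i.succ.succ.succ)) ∧
      (∀ P le p v, F P le p v → p ∈ P) ∧
      (∀ P le one, PO P le one → ∀ p q v, F P le p v → op q p ∈ le → F P le q v) ∧
      (∀ P le one, PO P le one → ∀ p v, p ∈ P →
        (∀ q, op q p ∈ le → ∃ s, op s q ∈ le ∧ F P le s v) → F P le p v) ∧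
      ∀ (P le one : M) (G : M → Prop) (N : MdC.{u}) (val : M → N), Ext P le one G val →
        ∀ v : Fin n → M, R N (fun i => val (v i)) ↔ ∃ p, G p ∧ F P le p v :=
  ⟨FU hR, FU.dfn hR, fun _ _ _ _ h => h.mem, fun _ _ _ hP _ _ _ h hq => h.mono hP hq,
    fun _ _ _ hP _ _ hp h => FU.dense hP hp h, fun _ _ _ _ _ _ hE v => FU.truth hR hE v⟩

/-! ### Unary and binary predicates -/

/-- `p ⊩ R(x)` -/
def FU1 {R : ∀ M : MdC.{u}, M → Prop} (hR : U0 (fun (M : MdC.{u}) (v : Fin 1 → M) => R M (v 0)))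
    (P le p x : M) : Prop := FU hR P le p ![x]

/-- `p ⊩ R(x, y)` -/
def FU2 {R : ∀ M : MdC.{u}, M → M → Prop}
    (hR : U0 (fun (M : MdC.{u}) (v : Fin 2 → M) => R M (v 0) (v 1))) (P le p x y : M) : Prop :=
  FU hR P le p ![x, y]

section

variable {R : ∀ M : MdC.{u}, M → Prop} {hR : U0 (fun (M : MdC.{u}) (v : Fin 1 → M) => R M (v 0))}

theorem FU1.dfn (hR : U0 (fun (M : MdC.{u}) (v : Fin 1 → M) => R M (v 0))) :
    Dfn (fun w : Fin 4 → M => FU1 hR (w 0) (w 1) (w 2) (w 3)) := by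
  refine (FU.dfn (M := M) hR).congr fun w => ?_
  have : (fun i : Fin 1 => w i.succ.succ.succ) = ![w 3] := by
    funext i; fin_cases i; rfl
  unfold FU1
  rw [this]

@[simp] theorem dfn_FU1 {n : ℕ} {a b c d : (Fin n → M) → M} (ha : DT a) (hb : DT b) (hc : DT c)
    (hd : DT d) : Dfn (fun v => FU1 hR (a v) (b v) (c v) (d v)) := dfn4 (FU1.dfn hR) ha hb hc hd

theorem FU1.mem {p x : M} (h : FU1 hR P le p x) : p ∈ P := FU.mem h

theorem FU1.mono (hP : PO P le one) {p q x : M} (h : FU1 hR P le p x) (hq : op q p ∈ le) :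
    FU1 hR P le q x := FU.mono hP h hq

theorem FU1.dense (hP : PO P le one) {p x : M} (hp : p ∈ P)
    (h : ∀ q, op q p ∈ le → ∃ s, op s q ∈ le ∧ FU1 hR P le s x) : FU1 hR P le p x :=
  FU.dense hP hp h

theorem FU1.truth (hR : U0 (fun (M : MdC.{u}) (v : Fin 1 → M) => R M (v 0))) {G : M → Prop}
    {N : MdC.{u}} {val : M → N} (hE : Ext P le one G val) (x : M) :
    R N (val x) ↔ ∃ p, G p ∧ FU1 hR P le p x := FU.truth hR hE ![x]

theorem FU1.of_forall [Countable M] (hP : PO P le one) {p x : M} (hp : p ∈ P)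
    (h : ∀ (G : M → Prop) (N : MdC.{u}) (val : M → N), Ext P le one G val → G p → R N (val x)) :
    FU1 hR P le p x := FU.of_forall hR hP hp h

end

section

variable {R : ∀ M : MdC.{u}, M → M → Prop}
  {hR : U0 (fun (M : MdC.{u}) (v : Fin 2 → M) => R M (v 0) (v 1))}

theorem FU2.dfn (hR : U0 (fun (M : MdC.{u}) (v : Fin 2 → M) => R M (v 0) (v 1))) :
    Dfn (fun w : Fin 5 → M => FU2 hR (w 0) (w 1) (w 2) (w 3) (w 4)) := by
  refine (FU.dfn (M := M) hR).congr fun w => ?_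
  have : (fun i : Fin 2 => w i.succ.succ.succ) = ![w 3, w 4] := by
    funext i; fin_cases i <;> rfl
  unfold FU2
  rw [this]

@[simp] theorem dfn_FU2 {n : ℕ} {a b c d e : (Fin n → M) → M} (ha : DT a) (hb : DT b) (hc : DT c)
    (hd : DT d) (he : DT e) : Dfn (fun v => FU2 hR (a v) (b v) (c v) (d v) (e v)) :=
  dfn5 (FU2.dfn hR) ha hb hc hd he

theorem FU2.mem {p x y : M} (h : FU2 hR P le p x y) : p ∈ P := FU.mem h

theorem FU2.mono (hP : PO P le one) {p q x y : M} (h : FU2 hR P le p x y) (hq : op q p ∈ le) :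
    FU2 hR P le q x y := FU.mono hP h hq

theorem FU2.dense (hP : PO P le one) {p x y : M} (hp : p ∈ P)
    (h : ∀ q, op q p ∈ le → ∃ s, op s q ∈ le ∧ FU2 hR P le s x y) : FU2 hR P le p x y :=
  FU.dense hP hp h

theorem FU2.truth (hR : U0 (fun (M : MdC.{u}) (v : Fin 2 → M) => R M (v 0) (v 1))) {G : M → Prop}
    {N : MdC.{u}} {val : M → N} (hE : Ext P le one G val) (x y : M) :
    R N (val x) (val y) ↔ ∃ p, G p ∧ FU2 hR P le p x y := FU.truth hR hE ![x, y]

theorem FU2.of_forall [Countable M] (hP : PO P le one) {p x y : M} (hp : p ∈ P)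
    (h : ∀ (G : M → Prop) (N : MdC.{u}) (val : M → N), Ext P le one G val → G p →
      R N (val x) (val y)) : FU2 hR P le p x y := FU.of_forall hR hP hp h

end

/-! ### `Σ¹₃` sets -/

theorem u0_SigT2 : U0 (fun (M : MdC.{u}) (v : Fin 2 → M) => SigT (v 0) (v 1)) :=
  u0_SigT (UT.var 0) (UT.var 1)

/-- `p` forces that `z` is in the `Σ¹₃` set given by `T`. -/
def FSig (P le p T z : M) : Prop := FU2 (R := fun _ T z => SigT T z) u0_SigT2 P le p T z

@[simp] theorem dfn_FSig {n : ℕ} {a b c d e : (Fin n → M) → M} (ha : DT a) (hb : DT b) (hc : DT c)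
    (hd : DT d) (he : DT e) : Dfn (fun v => FSig (a v) (b v) (c v) (d v) (e v)) :=
  dfn_FU2 ha hb hc hd he

theorem FSig.mem {p T z : M} (h : FSig P le p T z) : p ∈ P := FU2.mem h

theorem FSig.mono (hP : PO P le one) {p q T z : M} (h : FSig P le p T z) (hq : op q p ∈ le) :
    FSig P le q T z := FU2.mono hP h hq

theorem FSig.dense (hP : PO P le one) {p T z : M} (hp : p ∈ P)
    (h : ∀ q, op q p ∈ le → ∃ s, op s q ∈ le ∧ FSig P le s T z) : FSig P le p T z :=
  FU2.dense hP hp h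

theorem FSig.truth {G : M → Prop} {N : Type u} [Membership N N] [IsZFC N] {val : M → N}
    (hE : Ext P le one G val) (T z : M) : SigT (val T) (val z) ↔ ∃ p, G p ∧ FSig P le p T z :=
  FU2.truth (R := fun _ T z => SigT T z) u0_SigT2 (N := ⟨N⟩) hE T z

theorem FSig.of_forall [Countable M] (hP : PO P le one) {p T z : M} (hp : p ∈ P)
    (h : ∀ (G : M → Prop) (N : Type u) [Membership N N] [IsZFC N] (val : M → N),
      Ext P le one G val → G p → SigT (val T) (val z)) : FSig P le p T z :=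
  FU2.of_forall hP hp fun G N val hE hG => h G N val hE hG

end

end Pool.Agent.Sep
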