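import Pool.Agent.Sep.SigUp
import Pool.Agent.Sep.FrcU

/-!
Every set `z` is read as a real `x`: the value of `x` at `n` is the least `m` with `(n, m) ∈ z`, and
`0` if there is none. For a real `z` this is `z` itself. The `Σ¹₃` set given by a tree, for
arbitrary sets read as reals.
-/

universe u v

set_option linter.unusedSectionVars false

namespace Pool.Agent.Sep

open Pool.Agent.SigB

section one

variable {M : Type u} [Membership M M] [IsZFC M]

/-- The real `x` is the reading of the set `z`. -/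
def Rho (z x : M) : Prop := x ∈ fs (om : M) om ∧ ∀ n, n ∈ (om : M) →
  (op n (ap x n) ∈ z ∧ ∀ m, m ∈ ap x n → op n m ∉ z) ∨
  (ap x n = SigB.em ∧ ∀ m, m ∈ (om : M) → op n m ∉ z)

theorem Rho.dfn : Dfn (fun w : Fin 2 → M => Rho (w 0) (w 1)) := by
  unfold Rho; simp (maxDischargeDepth := 50)

@[simp] theorem dfn_Rho {n : ℕ} {s t : (Fin n → M) → M} (hs : DT s) (ht : DT t) :
    Dfn (fun v => Rho (s v) (t v)) := dfn2 Rho.dfn hs ht

theorem exists_rho (z : M) : ∃ x, Rho z x := by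
  classical
  obtain ⟨x, hx, h⟩ := choice' (a := (om : M)) (b := om)
    (P := fun n v => (op n v ∈ z ∧ ∀ m, m ∈ v → op n m ∉ z) ∨
      (v = SigB.em ∧ ∀ m, m ∈ (om : M) → op n m ∉ z)) (by simp (maxDischargeDepth := 50)) (by
      intro n _
      by_cases h : ∃ m, m ∈ (om : M) ∧ op n m ∈ z
      · obtain ⟨m, hm, hmz⟩ := h
        obtain ⟨v, hv, ⟨hvo, hvz⟩, hmin⟩ := Ord.exists_least
          (P := fun v => v ∈ (om : M) ∧ op n v ∈ z) (by simp (maxDischargeDepth := 50))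
          (om_ord.mem hm) ⟨hm, hmz⟩
        exact ⟨v, hvo, Or.inl ⟨hvz, fun k hk hkz => hmin k hk ⟨om_ord.trans hk hvo, hkz⟩⟩⟩
      · push Not at h
        exact ⟨SigB.em, em_mem_om, Or.inr ⟨rfl, h⟩⟩)
  exact ⟨x, hx, h⟩

theorem Rho.unique {z x x' : M} (h : Rho z x) (h' : Rho z x') : x = x' := by
  refine (mem_fs.1 h.1).1.ext (mem_fs.1 h'.1).1 fun n hn => ?_
  have hxo := (mem_fs.1 h.1).2 n hn
  have hxo' := (mem_fs.1 h'.1).2 n hn
  rcases h.2 n hn with ⟨h1, h2⟩ | ⟨h1, h2⟩ <;> rcases h'.2 n hn with ⟨h3, h4⟩ | ⟨h3, h4⟩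
  · rcases (om_ord.mem hxo).tri (om_ord.mem hxo') with h5 | h5 | h5
    · exact (h4 _ h5 h1).elim
    · exact h5
    · exact (h2 _ h5 h3).elim
  · exact (h4 _ hxo h1).elim
  · exact (h2 _ hxo' h3).elim
  · rw [h1, h3]

/-- A real is read as itself. -/
theorem rho_self {z : M} (h : z ∈ fs (om : M) om) : Rho z z := by
  refine ⟨h, fun n hn => Or.inl ⟨?_, fun m hm hmz => ?_⟩⟩
  · exact ((mem_fs.1 h).1.op_mem_iff hn).2 rfl
  · have := ((mem_fs.1 h).1.op_mem_iff hn).1 hmz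
    rw [← this] at hm
    exact not_mem_self _ hm

theorem rho_real_iff {z x : M} (h : z ∈ fs (om : M) om) : Rho z x ↔ x = z :=
  ⟨fun h' => h'.unique (rho_self h), fun e => by rw [e]; exact rho_self h⟩

/-- The set `z`, read as a real, belongs to the `Σ¹₃` set given by `T`. -/
def SigR (T z : M) : Prop := ∃ x, Rho z x ∧ SigT T x

theorem SigR.dfn : Dfn (fun w : Fin 2 → M => SigR (w 0) (w 1)) := by
  unfold SigR; simp (maxDischargeDepth := 50)

@[simp] theorem dfn_SigR {n : ℕ} {s t : (Fin n → M) → M} (hs : DT s) (ht : DT t) :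
    Dfn (fun v => SigR (s v) (t v)) := dfn2 SigR.dfn hs ht

theorem sigR_iff {T z : M} (h : z ∈ fs (om : M) om) : SigR T z ↔ SigT T z := by
  constructor
  · rintro ⟨x, hx, hx'⟩
    rwa [(rho_real_iff h).1 hx] at hx'
  · exact fun h' => ⟨z, rho_self h, h'⟩

theorem Rho.sigR_iff {T z x : M} (h : Rho z x) : SigR T z ↔ SigT T x := by
  constructor
  · rintro ⟨y, hy, hy'⟩
    rwa [hy.unique h] at hy'
  · exact fun h' => ⟨x, h, h'⟩

end one

section two

variable {M : Type u} {N : Type v} [Membership M M] [Membership N N] [IsZFC M] [IsZFC N]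
  {j : M → N}

theorem rho_emb (hj : GL.TrEmb j) {z x : M} : Rho (j z) (j x) ↔ Rho z x := by
  unfold Rho
  refine and_congr hj.s_real ⟨fun h n hn => ?_, fun h n hn => ?_⟩
  · rcases h (j n) (hj.s_mem_om.2 hn) with ⟨h1, h2⟩ | ⟨h1, h2⟩
    · rw [← hj.s_ap] at h1 h2
      exact Or.inl ⟨hj.s_op_mem.1 h1, fun m hm h3 => h2 (j m) (hj.mem_iff.2 hm)
        (hj.s_op_mem.2 h3)⟩
    · rw [← hj.s_ap, ← hj.s_em] at h1
      exact Or.inr ⟨hj.inj.1 h1, fun m hm h3 => h2 (j m) (hj.s_mem_om.2 hm)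
        (hj.s_op_mem.2 h3)⟩
  · obtain ⟨n, hn', rfl⟩ := hj.s_mem_om_lift hn
    rcases h n hn' with ⟨h1, h2⟩ | ⟨h1, h2⟩
    · rw [← hj.s_ap]
      refine Or.inl ⟨hj.s_op_mem.2 h1, fun m hm h3 => ?_⟩
      obtain ⟨m, hm', rfl⟩ := hj.tr hm
      exact h2 m hm' (hj.s_op_mem.1 h3)
    · rw [← hj.s_ap, h1, hj.s_em]
      refine Or.inr ⟨rfl, fun m hm h3 => ?_⟩
      obtain ⟨m, hm', rfl⟩ := hj.s_mem_om_lift hm
      exact h2 m hm' (hj.s_op_mem.1 h3)

/-- Upward absoluteness. -/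
theorem sigR_up (hj : GL.TrEmb j) {T z : M} (h : SigR T z) : SigR (j T) (j z) := by
  obtain ⟨x, hx, h⟩ := h
  exact ⟨j x, (rho_emb hj).2 hx, sigT_up hj h⟩

end two

/-! ### Forcing -/

theorem u0_Rho {n : ℕ} {s t : ∀ M : MdC.{u}, (Fin n → M) → M} (hs : UT s) (ht : UT t) :
    U0 (fun (M : MdC.{u}) (v : Fin n → M) => Rho (s M v) (t M v)) :=
  u2 (R := fun _ x y => Rho x y) (by unfold Rho; simp (maxDischargeDepth := 50)) hs ht

theorem u0_SigR {n : ℕ} {s t : ∀ M : MdC.{u}, (Fin n → M) → M} (hs : UT s) (ht : UT t) :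
    U0 (fun (M : MdC.{u}) (v : Fin n → M) => SigR (s M v) (t M v)) :=
  u2 (R := fun _ x y => SigR x y) (U0.ex (P := fun (M : MdC.{u}) (v : Fin 2 → M) x =>
    Rho (v 1) x ∧ SigT (v 0) x) (U0.and (u0_Rho (UT.var _) (UT.var _))
      (u0_SigT (UT.var _) (UT.var _)))) hs ht

theorem u0_SigR2 : U0 (fun (M : MdC.{u}) (v : Fin 2 → M) => SigR (v 0) (v 1)) :=
  u0_SigR (UT.var 0) (UT.var 1)

section

variable {M : Type u} [Membership M M] [IsZFC M] {P le one : M}

/-- `p` forces that `z`, read as a real, is in the `Σ¹₃` set given by `T`. -/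
def FSigR (P le p T z : M) : Prop := FU2 (R := fun _ T z => SigR T z) u0_SigR2 P le p T z

@[simp] theorem dfn_FSigR {n : ℕ} {a b c d e : (Fin n → M) → M} (ha : DT a) (hb : DT b)
    (hc : DT c) (hd : DT d) (he : DT e) :
    Dfn (fun v => FSigR (a v) (b v) (c v) (d v) (e v)) := dfn_FU2 ha hb hc hd he

theorem FSigR.mem {p T z : M} (h : FSigR P le p T z) : p ∈ P := FU2.mem h

theorem FSigR.mono (hP : Frc.PO P le one) {p q T z : M} (h : FSigR P le p T z)
    (hq : op q p ∈ le) : FSigR P le q T z := FU2.mono hP h hq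

theorem FSigR.dense (hP : Frc.PO P le one) {p T z : M} (hp : p ∈ P)
    (h : ∀ q, op q p ∈ le → ∃ s, op s q ∈ le ∧ FSigR P le s T z) : FSigR P le p T z :=
  FU2.dense hP hp h

theorem FSigR.truth {G : M → Prop} {N : Type u} [Membership N N] [IsZFC N] {val : M → N}
    (hE : Frc.Ext P le one G val) (T z : M) :
    SigR (val T) (val z) ↔ ∃ p, G p ∧ FSigR P le p T z :=
  FU2.truth (R := fun _ T z => SigR T z) u0_SigR2 (N := ⟨N⟩) hE T z

theorem FSigR.of_forall [Countable M] (hP : Frc.PO P le one) {p T z : M} (hp : p ∈ P)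
    (h : ∀ (G : M → Prop) (N : Type u) [Membership N N] [IsZFC N] (val : M → N),
      Frc.Ext P le one G val → G p → SigR (val T) (val z)) : FSigR P le p T z :=
  FU2.of_forall hP hp fun G N val hE hG => h G N val hE hG

end

end Pool.Agent.Sep
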