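import Pool.Agent.Sep.Rul
import Pool.Agent.Sep.Rho
import Pool.Agent.Sep.Nice
import Pool.Agent.Sep.Tree

/-!
The final system and the two separation properties in the extension by its poset.
-/

universe u

set_option linter.unusedSectionVars false

namespace Pool.Agent.Sep

open Pool.Agent.SigB Pool.Agent.Forc Pool.Agent.Frc

variable {M : Type u} [Membership M M] [IsZFC M]

/-- The name `z` is coded at the tag `t` of `X` below the condition `r`. -/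
def Cded (K : Cst M) (X t z r : M) : Prop :=
  ∃ k, k ∈ dm X ∧ IsCode X k ∧ cx X k = t ∧ Lq K r (cg X k) ∧ FE K X r (cz X k) z

theorem Cded.dfn (K : Cst M) : Dfn (fun w : Fin 4 → M => Cded K (w 0) (w 1) (w 2) (w 3)) := by
  unfold Cded; simp (maxDischargeDepth := 50)

@[simp] theorem dfn_Cded (K : Cst M) {n : ℕ} {s t r q : (Fin n → M) → M} (hs : DT s) (ht : DT t)
    (hr : DT r) (hq : DT q) : Dfn (fun v => Cded K (s v) (t v) (r v) (q v)) :=
  dfn4 (Cded.dfn K) hs ht hr hq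

/-- The properties of the final system `X` with the set `O` of its open tags. -/
structure FinSys (K : Frm M) (X O : M) : Prop where
  sys : IsSys K.toCst X
  sub : ∀ t, t ∈ O → t ∈ dm X ∧ IsTag X t
  ncz : ∀ k, k ∈ dm X → IsCode X k → NM K.toCst X (cz X k)
  gd : ∀ k, k ∈ dm X → IsCode X k → cg X k ∈ PX K.toCst X
  side : ∀ k, k ∈ dm X → IsCode X k → ci X k = (em : M) ∨ ci X k = sc (em : M)
  sig : ∀ a b q, NM K.toCst X a → NM K.toCst X b → q ∈ PX K.toCst X →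
    ∃ r, r ∈ PX K.toCst X ∧ Lq K.toCst r q ∧
      ((∃ z, NM K.toCst X z ∧ K.F X r a z ∧ K.F X r b z) ∨
        ∃ t, t ∈ O ∧ tk X t = sc (em : M) ∧ ta X t = a ∧ tb X t = b ∧ Lq K.toCst r (tg X t))
  pi : ∀ a b q, NM K.toCst X a → NM K.toCst X b → q ∈ PX K.toCst X →
    ∃ r, r ∈ PX K.toCst X ∧ Lq K.toCst r q ∧
      ((∃ z, NM K.toCst X z ∧ ∀ s, s ∈ PX K.toCst X → Lq K.toCst s r →
          ¬ K.F X s a z ∧ ¬ K.F X s b z) ∨
        ∃ t, t ∈ O ∧ tk X t = (em : M) ∧ ta X t = a ∧ tb X t = b ∧ Lq K.toCst r (tg X t))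
  cod : ∀ t z q, t ∈ O → NM K.toCst X z → q ∈ PX K.toCst X → Lq K.toCst q (tg X t) →
    ∃ r, r ∈ PX K.toCst X ∧ Lq K.toCst r q ∧ Cded K.toCst X t z r
  one : ∀ t k l q, t ∈ O → k ∈ dm X → l ∈ dm X → IsCode X k → IsCode X l → cx X k = t →
    cx X l = t → ci X k = (em : M) → ci X l = sc (em : M) → q ∈ PX K.toCst X →
    Lq K.toCst q (cg X k) → Lq K.toCst q (cg X l) → ¬ FE K.toCst X q (cz X k) (cz X l)
  sig_true : ∀ t l q, t ∈ O → tk X t = sc (em : M) → l ∈ dm X → IsCode X l → cx X l = t →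
    ci X l = sc (em : M) → q ∈ PX K.toCst X → Lq K.toCst q (cg X l) →
    ¬ K.F X q (ta X t) (cz X l)
  sig_false : ∀ t k q, t ∈ O → tk X t = sc (em : M) → k ∈ dm X → IsCode X k → cx X k = t →
    ci X k = (em : M) → q ∈ PX K.toCst X → Lq K.toCst q (cg X k) →
    ¬ K.F X q (tb X t) (cz X k)
  pi_false : ∀ t k q, t ∈ O → tk X t = (em : M) → k ∈ dm X → IsCode X k → cx X k = t →
    ci X k = (em : M) → q ∈ PX K.toCst X → Lq K.toCst q (cg X k) → K.F X q (ta X t) (cz X k)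
  pi_true : ∀ t l q, t ∈ O → tk X t = (em : M) → l ∈ dm X → IsCode X l → cx X l = t →
    ci X l = sc (em : M) → q ∈ PX K.toCst X → Lq K.toCst q (cg X l) → K.F X q (tb X t) (cz X l)

/-- What is used about the extension of `M` by a generic filter of the poset of the system `X`.
The predicate `Cod z e i` says that the triple `(z, e, i)` is coded. -/
structure Sem (K : Frm M) (X : M) (G : M → Prop) {N : Type u} [Membership N N] [IsZFC N]
    (val : M → N) (Cod : N → N → N → Prop) : Prop where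
  hE : Ext (PX K.toCst X) (LX K.toCst X) (em : M) G val
  /-- every real has a name -/
  name : ∀ z, z ∈ fs (om : N) om → ∃ S, NM K.toCst X S ∧ z = val (nm (em : M) S)
  /-- every tree has a name -/
  tree : ∀ T : N, ∃ S, NM K.toCst X S ∧ ∀ z, z ∈ fs (om : N) om →
    (SigT T z ↔ SigT (val (nm (em : M) S)) z)
  truthF : ∀ a z, NM K.toCst X a → NM K.toCst X z →
    (SigR (val (nm (em : M) a)) (val (nm (em : M) z)) ↔ ∃ q, G q ∧ K.F X q a z)
  monoF : ∀ a z q r, NM K.toCst X a → NM K.toCst X z → K.F X q a z → r ∈ PX K.toCst X →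
    Lq K.toCst r q → K.F X r a z
  truthE : ∀ z z', NM K.toCst X z → NM K.toCst X z' →
    (val (nm (em : M) z) = val (nm (em : M) z') ↔ ∃ q, G q ∧ FE K.toCst X q z z')
  /-- the codes at the tag `t` -/
  cod : ∀ t, t ∈ dm X → IsTag X t → ∃ e : N,
    (∀ z, z ∈ fs (om : N) om → (Cod z e em ↔ ∃ k, k ∈ dm X ∧ IsCode X k ∧ cx X k = t ∧
      ci X k = (em : M) ∧ G (cg X k) ∧ z = val (nm (em : M) (cz X k)))) ∧
    ∀ z, z ∈ fs (om : N) om → (Cod z e (sc em) ↔ ∃ k, k ∈ dm X ∧ IsCode X k ∧ cx X k = t ∧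
      ci X k = sc (em : M) ∧ G (cg X k) ∧ z = val (nm (em : M) (cz X k)))
  /-- the set of the codes is `Σ¹₃` -/
  sigma : ∀ e i : N, ∃ T : N, ∀ z, z ∈ fs (om : N) om → (Cod z e i ↔ SigT T z)

section

variable {K : Frm M} {X O : M} {G : M → Prop} {N : Type u} [Membership N N] [IsZFC N]
  {val : M → N} {Cod : N → N → N → Prop}

theorem Lq.trans_of {K : Cst M} {r q p : M} (h : Lq K r q) (h' : Lq K q p) : Lq K r p := by
  refine ⟨h'.1.trans h.1, fun j u a h1 h2 h3 => ?_⟩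
  by_cases h4 : nd j u ∈ q
  · exact h'.2 j u a h4 h2 h3
  · exact h.2 j u a h1 h4 (h'.1 _ h3)

theorem Lq.refl_of {K : Cst M} (p : M) : Lq K p p :=
  ⟨Sb.refl _, fun _ _ _ h1 h2 _ => (h2 h1).elim⟩

theorem FE.mono_of {K : Cst M} {X q r z z' : M} (h : FE K X q z z') (hr : Lq K r q) :
    FE K X r z z' := fun x hx s hs hsr => h x hx s hs (hsr.trans_of hr)


section

variable (hF : FinSys K X O) (hS : Sem K X G val Cod)

include hF hS

/-- Two conditions of the filter have a common extension in the filter. -/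
theorem Sem.dir {q r : M} (hq : G q) (hr : G r) : ∃ s, G s ∧ s ∈ PX K.toCst X ∧
    Lq K.toCst s q ∧ Lq K.toCst s r := by
  obtain ⟨s, hs, h1, h2⟩ := hS.hE.gen.dir q r hq hr
  exact ⟨s, hs, hS.hE.gen.mem s hs, (op_mem_LX.1 h1).2, (op_mem_LX.1 h2).2⟩

/-- A definable property which is dense below a condition of the filter. -/
theorem Sem.below {Q : M → Prop} (hQ : Dfn (fun w : Fin 1 → M => Q (w 0))) {p : M} (hp : G p)
    (h : ∀ q, q ∈ PX K.toCst X → Lq K.toCst q p → ∃ s, s ∈ PX K.toCst X ∧ Lq K.toCst s q ∧ Q s) :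
    ∃ s, G s ∧ Q s := by
  refine hS.hE.gen.below hS.hE.po hQ hp fun q hq => ?_
  obtain ⟨⟨h1, -⟩, h2⟩ := op_mem_LX.1 hq
  obtain ⟨s, hs, hsq, hQs⟩ := h q h1 h2
  exact ⟨s, op_mem_LX.2 ⟨⟨hs, h1⟩, hsq⟩, hQs⟩

/-- The condition `q` above a condition of the filter belongs to the filter. -/
theorem Sem.up {q r : M} (hr : G r) (hq : q ∈ PX K.toCst X) (h : Lq K.toCst r q) : G q :=
  hS.hE.gen.up r q hr (op_mem_LX.2 ⟨⟨hS.hE.gen.mem r hr, hq⟩, h⟩)

/-- At an open tag, with its guard in the filter, every real is coded on exactly one side. -/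
theorem Sem.sides {t : M} (ht : t ∈ O) {r : M} (hr : G r) (hrt : Lq K.toCst r (tg X t)) {e : N}
    (h0 : ∀ z, z ∈ fs (om : N) om → (Cod z e em ↔ ∃ k, k ∈ dm X ∧ IsCode X k ∧ cx X k = t ∧
      ci X k = (em : M) ∧ G (cg X k) ∧ z = val (nm (em : M) (cz X k))))
    (h1 : ∀ z, z ∈ fs (om : N) om → (Cod z e (sc em) ↔ ∃ k, k ∈ dm X ∧ IsCode X k ∧
      cx X k = t ∧ ci X k = sc (em : M) ∧ G (cg X k) ∧ z = val (nm (em : M) (cz X k)))) :
    ∀ z, z ∈ fs (om : N) om → (Cod z e em ↔ ¬ Cod z e (sc em)) := by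
  intro z hz
  constructor
  · intro h2 h3
    obtain ⟨k, hk, hkc, hkt, hki, hkg, hkz⟩ := (h0 z hz).1 h2
    obtain ⟨l, hl, hlc, hlt, hli, hlg, hlz⟩ := (h1 z hz).1 h3
    obtain ⟨q, hq, hfe⟩ := (hS.truthE _ _ (hF.ncz k hk hkc) (hF.ncz l hl hlc)).1
      (hkz.symm.trans hlz)
    obtain ⟨s, hs, -, hs1, hs2⟩ := Sem.dir hF hS hkg hlg
    obtain ⟨s', -, hs', h4, h5⟩ := Sem.dir hF hS hs hq
    exact hF.one t k l s' ht hk hl hkc hlc hkt hlt hki hli hs' (h4.trans_of hs1)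
      (h4.trans_of hs2) (hfe.mono_of h5)
  · intro h2
    obtain ⟨S, hSn, rfl⟩ := hS.name z hz
    obtain ⟨s, hs, k, hk, hkc, hkt, hkg, hfe⟩ := Sem.below hF hS
      (Q := fun s => Cded K.toCst X t S s) (by simp (maxDischargeDepth := 50)) hr
      fun q hq hqr => hF.cod t S q ht hSn hq (hqr.trans_of hrt)
    have hcg : G (cg X k) := Sem.up hF hS hs (hF.gd k hk hkc) hkg
    have hv : val (nm (em : M) (cz X k)) = val (nm (em : M) S) :=
      (hS.truthE _ _ (hF.ncz k hk hkc) hSn).2 ⟨s, hs, hfe⟩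
    rcases hF.side k hk hkc with hi | hi
    · exact (h0 _ hz).2 ⟨k, hk, hkc, hkt, hi, hcg, hv.symm⟩
    · exact (h2 ((h1 _ hz).2 ⟨k, hk, hkc, hkt, hi, hcg, hv.symm⟩)).elim

/-- The two separation properties hold in the extension. -/
theorem Sem.bothSep : SigmaSep N ∧ PiSep N := by
  refine bothSep_of Cod hS.sigma (fun S S' hd => ?_) fun S S' hd => ?_
  · obtain ⟨a, ha, haS⟩ := hS.tree S
    obtain ⟨b, hb, hbS⟩ := hS.tree S'
    obtain ⟨r, hr, h⟩ := Sem.below hF hS (p := em)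
      (Q := fun r => (∃ z, NM K.toCst X z ∧ K.F X r a z ∧ K.F X r b z) ∨
        ∃ t, t ∈ O ∧ tk X t = sc (em : M) ∧ ta X t = a ∧ tb X t = b ∧ Lq K.toCst r (tg X t))
      (by simp (maxDischargeDepth := 50)) hS.hE.gen.one
      fun q hq _ => hF.sig a b q ha hb hq
    rcases h with ⟨z, hz, h1, h2⟩ | ⟨t, ht, hk, rfl, rfl, hrt⟩
    · exfalso
      obtain ⟨x, hx, hx1⟩ := (hS.truthF _ _ ha hz).2 ⟨r, hr, h1⟩
      have hx2 := hx.sigR_iff.1 ((hS.truthF _ _ hb hz).2 ⟨r, hr, h2⟩)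
      exact hd x hx.1 ((haS x hx.1).2 hx1) ((hbS x hx.1).2 hx2)
    · obtain ⟨htX, htt⟩ := hF.sub t ht
      obtain ⟨e, h0, h1⟩ := hS.cod t htX htt
      have hsd := Sem.sides hF hS ht hr hrt h0 h1
      refine ⟨e, em, sc em, hsd, fun z hz hz' => ?_, fun z hz hz' => ?_⟩
      · by_contra hno
        have h3 : Cod z e (sc em) := by
          by_contra h4
          exact hno ((hsd z hz).2 h4)
        obtain ⟨l, hl, hlc, hlt, hli, hlg, rfl⟩ := (h1 z hz).1 h3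
        have hn := hF.ncz l hl hlc
        obtain ⟨q, hq, hf⟩ := (hS.truthF _ _ ha hn).1 ((sigR_iff hz).2 ((haS _ hz).1 hz'))
        obtain ⟨s, -, hs, hs1, hs2⟩ := Sem.dir hF hS hq hlg
        exact hF.sig_true t l s ht hk hl hlc hlt hli hs hs2 (hS.monoF _ _ _ _ ha hn hf hs hs1)
      · by_contra hno
        have h3 : Cod z e em := (hsd z hz).2 hno
        obtain ⟨l, hl, hlc, hlt, hli, hlg, rfl⟩ := (h0 z hz).1 h3
        have hn := hF.ncz l hl hlc
        obtain ⟨q, hq, hf⟩ := (hS.truthF _ _ hb hn).1 ((sigR_iff hz).2 ((hbS _ hz).1 hz'))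
        obtain ⟨s, -, hs, hs1, hs2⟩ := Sem.dir hF hS hq hlg
        exact hF.sig_false t l s ht hk hl hlc hlt hli hs hs2 (hS.monoF _ _ _ _ hb hn hf hs hs1)
  · obtain ⟨a, ha, haS⟩ := hS.tree S
    obtain ⟨b, hb, hbS⟩ := hS.tree S'
    obtain ⟨r, hr, h⟩ := Sem.below hF hS (p := em)
      (Q := fun r => (∃ z, NM K.toCst X z ∧ ∀ s, s ∈ PX K.toCst X → Lq K.toCst s r →
          ¬ K.F X s a z ∧ ¬ K.F X s b z) ∨
        ∃ t, t ∈ O ∧ tk X t = (em : M) ∧ ta X t = a ∧ tb X t = b ∧ Lq K.toCst r (tg X t))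
      (by simp (maxDischargeDepth := 50)) hS.hE.gen.one
      fun q hq _ => hF.pi a b q ha hb hq
    rcases h with ⟨z, hz, h1⟩ | ⟨t, ht, hk, rfl, rfl, hrt⟩
    · exfalso
      obtain ⟨x, hx⟩ := exists_rho (val (nm (em : M) z))
      rcases hd x hx.1 with h2 | h2
      · obtain ⟨q, hq, hf⟩ := (hS.truthF _ _ ha hz).1 (hx.sigR_iff.2 ((haS _ hx.1).1 h2))
        obtain ⟨s, -, hs, hs1, hs2⟩ := Sem.dir hF hS hq hr
        exact (h1 s hs hs2).1 (hS.monoF _ _ _ _ ha hz hf hs hs1)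
      · obtain ⟨q, hq, hf⟩ := (hS.truthF _ _ hb hz).1 (hx.sigR_iff.2 ((hbS _ hx.1).1 h2))
        obtain ⟨s, -, hs, hs1, hs2⟩ := Sem.dir hF hS hq hr
        exact (h1 s hs hs2).2 (hS.monoF _ _ _ _ hb hz hf hs hs1)
    · obtain ⟨htX, htt⟩ := hF.sub t ht
      obtain ⟨e, h0, h1⟩ := hS.cod t htX htt
      have hsd := Sem.sides hF hS ht hr hrt h0 h1
      refine ⟨e, em, sc em, hsd, fun z hz hz' => ?_, fun z hz hz' => ?_⟩
      · obtain ⟨l, hl, hlc, hlt, hli, hlg, rfl⟩ := (h0 z hz).1 hz'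
        have hn := hF.ncz l hl hlc
        have hf := hF.pi_false t l _ ht hk hl hlc hlt hli (hF.gd l hl hlc) (Lq.refl_of _)
        exact (haS _ hz).2 ((sigR_iff hz).1 ((hS.truthF _ _ ha hn).2 ⟨_, hlg, hf⟩))
      · obtain ⟨l, hl, hlc, hlt, hli, hlg, rfl⟩ := (h1 z hz).1 hz'
        have hn := hF.ncz l hl hlc
        have hf := hF.pi_true t l _ ht hk hl hlc hlt hli (hF.gd l hl hlc) (Lq.refl_of _)
        exact (hbS _ hz).2 ((sigR_iff hz).1 ((hS.truthF _ _ hb hn).2 ⟨_, hlg, hf⟩))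

end

end

end Pool.Agent.Sep
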