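import Pool.Agent.Sep.Names
import Pool.Agent.Sep.FrcU
import Pool.Agent.Sep.Rho

/-!
# Forcing relations and complete suborders

Statements which are preserved by transitive embeddings are forced upwards from a complete
suborder, in particular `Σ¹₃` statements.
-/

universe u

set_option linter.unusedSectionVars false

namespace Pool.Agent.Sep

open Pool.Agent.SigB Pool.Agent.Frc

section

variable {M : Type u} [Membership M M] [IsZFC M] {P le leP Q leQ one : M} {n m : ℕ}
  {R : ∀ M : MdC.{u}, (Fin n → M) → Prop} {R' : ∀ M : MdC.{u}, (Fin m → M) → Prop}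

theorem FU.of_mem {hR : U0 R} {p : M} {v : Fin n → M} (h : FU hR P le p v) {G : M → Prop}
    {N : MdC.{u}} {val : M → N} (hE : Ext P le one G val) (hp : G p) : R N fun i => val (v i) :=
  (FU.truth hR hE v).2 ⟨p, hp, h⟩

variable [Countable M]

/-- A condition forces `R` if and only if `R` holds in all extensions by generic filters which
contain it. -/
theorem FU.iff_forall (hR : U0 R) (hP : PO P le one) {v : Fin n → M} {q : M} :
    FU hR P le q v ↔ q ∈ P ∧ ∀ (G : M → Prop) (N : MdC.{u}) (val : M → N),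
      Ext P le one G val → G q → R N fun i => val (v i) :=
  ⟨fun hq => ⟨hq.mem, fun _ _ _ hE hGq => hq.of_mem hE hGq⟩, fun h => FU.of_forall hR hP h.1 h.2⟩

/-- Consequences of forced statements are forced. -/
theorem FU.imp {hR : U0 R} (hR' : U0 R') (hP : PO P le one) {v : Fin n → M} {w : Fin m → M}
    (h : ∀ (G : M → Prop) (N : MdC.{u}) (val : M → N),
      Ext P le one G val → (R N fun i => val (v i)) → R' N fun i => val (w i))
    {q : M} (hq : FU hR P le q v) : FU hR' P le q w :=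
  FU.of_forall hR' hP hq.mem fun G N val hE hGq => h G N val hE (hq.of_mem hE hGq)

/-- Statements which are preserved by transitive embeddings are forced upwards. -/
theorem FU.up {hR : U0 R}
    (hpr : ∀ (N₀ N₁ : MdC.{u}) (j : N₀ → N₁), GL.TrEmb j → ∀ v, R N₀ v → R N₁ (fun i => j (v i)))
    (h : CSub P leP Q leQ one) {v : Fin n → M} (hv : ∀ i, rn P (v i) = v i) {q : M}
    (hq : FU hR P leP q v) : FU hR Q leQ q v := by
  refine FU.of_forall hR h.po (h.sub _ hq.mem) fun G N₁ val₁ hE₁ hGq => ?_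
  obtain ⟨N₀, i₀, val₀, hE₀⟩ := exists_ext h.poP (h.gen hE₁.gen)
  have z₀ : IsZFC N₀ := hE₀.isZFC
  obtain ⟨j, hj, hjv, -, -⟩ := h.exists_trEmb_nm (N₁ := N₁) hE₀ hE₁
  have h2 := hpr ⟨N₀⟩ N₁ j hj _ (hq.of_mem (N := ⟨N₀⟩) hE₀ ⟨hq.mem, hGq⟩)
  have h3 : (fun i => j (val₀ (v i))) = fun i => val₁ (v i) := by
    funext i
    exact hjv _ (hv i)
  rw [← h3]
  exact h2

/-- Statements which are reflected by transitive embeddings are forced by the reductions. -/
theorem FU.down {hR : U0 R}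
    (hpr : ∀ (N₀ N₁ : MdC.{u}) (j : N₀ → N₁), GL.TrEmb j → ∀ v, R N₁ (fun i => j (v i)) → R N₀ v)
    (h : CSub P leP Q leQ one) {v : Fin n → M} (hv : ∀ i, rn P (v i) = v i) {p q : M}
    (hq : FU hR Q leQ q v) (hpq : Red P leP leQ p q) : FU hR P leP p v := by
  refine FU.dense h.poP hpq.1 fun p' hp' => ?_
  obtain ⟨s, hsp, hsq⟩ := hpq.2 p' hp'
  obtain ⟨G, hG, hGs⟩ := exists_gen h.po (p₀ := s) (h.po.sub _ _ hsp).1
  obtain ⟨N₁, i₁, val₁, hE₁⟩ := exists_ext h.po hG
  obtain ⟨N₀, i₀, val₀, hE₀⟩ := exists_ext h.poP (h.gen hG)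
  have z₁ : IsZFC N₁ := hE₁.isZFC
  have z₀ : IsZFC N₀ := hE₀.isZFC
  obtain ⟨j, hj, hjv, -, -⟩ := h.exists_trEmb_nm hE₀ hE₁
  have h1 := hq.of_mem (N := ⟨N₁⟩) hE₁ (hG.up _ _ hGs hsq)
  have h3 : (fun i => val₁ (v i)) = fun i => j (val₀ (v i)) := by
    funext i
    exact (hjv _ (hv i)).symm
  rw [h3] at h1
  obtain ⟨r, hr, hFr⟩ := (FU.truth hR (N := ⟨N₀⟩) hE₀ v).1 (hpr ⟨N₀⟩ ⟨N₁⟩ j hj _ h1)
  obtain ⟨t, ht, htr, htp⟩ := (h.gen hG).dir r p' hr ⟨(h.poP.sub _ _ hp').1, hG.up _ _ hGs hsp⟩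
  exact ⟨t, htp, hFr.mono h.poP htr⟩

end

/-! ### `Σ¹₃` sets -/

section

variable {M : Type u} [Membership M M] [IsZFC M] {P le leP Q leQ one : M}

/-- `q` forces that `z`, read as a real, is in the `Σ¹₃` set given by `T`, for names `T`, `z` given by sets of
pairs. -/
def FA (P le one q T z : M) : Prop := FSigR P le q (nm one T) (nm one z)

@[simp] theorem dfn_FA {n : ℕ} {a b c d e f : (Fin n → M) → M} (ha : DT a) (hb : DT b) (hc : DT c)
    (hd : DT d) (he : DT e) (hf : DT f) : Dfn (fun v => FA (a v) (b v) (c v) (d v) (e v) (f v)) := by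
  unfold FA
  simp (maxDischargeDepth := 50) [ha, hb, hc, hd, he, hf]

theorem FA.mem {q T z : M} (h : FA P le one q T z) : q ∈ P := FSigR.mem h

theorem FA.mono (hP : PO P le one) {p q T z : M} (h : FA P le one p T z) (hq : op q p ∈ le) :
    FA P le one q T z := FSigR.mono hP h hq

theorem FA.dense (hP : PO P le one) {p T z : M} (hp : p ∈ P)
    (h : ∀ q, op q p ∈ le → ∃ s, op s q ∈ le ∧ FA P le one s T z) : FA P le one p T z :=
  FSigR.dense hP hp h

theorem FA.truth {G : M → Prop} {N : Type u} [Membership N N] [IsZFC N] {val : M → N}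
    (hE : Ext P le one G val) (T z : M) :
    SigR (val (nm one T)) (val (nm one z)) ↔ ∃ p, G p ∧ FA P le one p T z :=
  FSigR.truth hE _ _

variable [Countable M]

theorem FA.of_forall (hP : PO P le one) {p T z : M} (hp : p ∈ P)
    (h : ∀ (G : M → Prop) (N : Type u) [Membership N N] [IsZFC N] (val : M → N),
      Ext P le one G val → G p → SigR (val (nm one T)) (val (nm one z))) : FA P le one p T z :=
  FSigR.of_forall hP hp h

/-- **Upward absoluteness** of `Σ¹₃` statements. -/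
theorem FA.up (h : CSub P leP Q leQ one) {A B T z : M} (hT : Sb T (pd A P)) (hz : Sb z (pd B P))
    {q : M} (hq : FA P leP one q T z) : FA Q leQ one q T z := by
  refine FA.of_forall h.po (h.sub _ hq.mem) fun G N₁ _ _ val₁ hE₁ hGq => ?_
  obtain ⟨N₀, i₀, val₀, hE₀⟩ := exists_ext h.poP (h.gen hE₁.gen)
  have z₀ : IsZFC N₀ := hE₀.isZFC
  obtain ⟨j, hj, -, -, hjn⟩ := h.exists_trEmb_nm hE₀ hE₁
  have h2 := sigR_up hj ((FA.truth hE₀ T z).2 ⟨q, ⟨hq.mem, hGq⟩, hq⟩)
  rwa [hjn A T hT, hjn B z hz] at h2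

/-- The value of `z` may be replaced. -/
theorem FA.congr (hP : PO P le one) {q T z z' : M} (hq : FA P le one q T z)
    (h : EqF P le (nm one z) (nm one z') q) : FA P le one q T z' := by
  refine FA.of_forall hP hq.mem fun G N _ _ val hE hGq => ?_
  rw [← (hE.eq_iff _ _).2 ⟨q, hGq, h⟩]
  exact (FA.truth hE T z).2 ⟨q, hGq, hq⟩

end

end Pool.Agent.Sep
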