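import Pool.Agent.Sep.RulA
import Pool.Agent.Sep.Size

/-!
# The tasks of the first use of the closing lemma

For a fixed set `O` of open tags: every real is coded at every open `Π`-tag.
-/

universe u

set_option linter.unusedSectionVars false

namespace Pool.Agent.Sep

open Pool.Agent.SigB Pool.Agent.Forc Pool.Agent.Frc

variable {M : Type u} [Membership M M] [IsZFC M]

/-- Below `q` it is possible that the real `z` is coded at the tag `x` of the system `B`. -/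
def Dc (K : Cst M) (B x z q : M) : Prop :=
  ∃ r, r ∈ PX K B ∧ Lq K r q ∧ ∃ l, l ∈ dm B ∧ IsCode B l ∧ cx B l = x ∧ Lq K r (cg B l) ∧
    FE K B r z (cz B l)

theorem Dc.dfn (K : Cst M) : Dfn (fun w : Fin 4 → M => Dc K (w 0) (w 1) (w 2) (w 3)) := by
  unfold Dc; simp (maxDischargeDepth := 50)

@[simp] theorem dfn_Dc (K : Cst M) {n : ℕ} {s t r q : (Fin n → M) → M} (hs : DT s) (ht : DT t)
    (hr : DT r) (hq : DT q) : Dfn (fun v => Dc K (s v) (t v) (r v) (q v)) :=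
  dfn4 (Dc.dfn K) hs ht hr hq

/-- The task `t = (k, (q, (u, z)))` to code the real `z` at the open `Π`-tag `u` below `q` is done at
the system `Y`. -/
def Dn1 (K : Cst M) (O Y t : M) : Prop :=
  ∀ k q u z, t = op k (op q (op u z)) → u ∈ O → tk Y u = (em : M) → Lq K q (tg Y u) →
    Dc K Y u z q

theorem Dn1.dfn (K : Cst M) : Dfn (fun w : Fin 3 → M => Dn1 K (w 0) (w 1) (w 2)) := by
  unfold Dn1; simp (maxDischargeDepth := 50)

@[simp] theorem dfn_Dn1 (K : Cst M) {n : ℕ} {s t r : (Fin n → M) → M} (hs : DT s) (ht : DT t)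
    (hr : DT r) : Dfn (fun v => Dn1 K (s v) (t v) (r v)) := dfn3 (Dn1.dfn K) hs ht hr

/-- The facts on systems which are used. -/
structure GH (K : Frm M) : Prop where
  /-- forcing equality is upward absolute -/
  fe_up : ∀ {X Y q z z' : M}, IsSys K.toCst X → IsSys K.toCst Y → Sb X Y → q ∈ PX K.toCst X →
    NM K.toCst X z → NM K.toCst X z' → FE K.toCst X q z z' → FE K.toCst Y q z z'
  /-- the real of a code is a name -/
  cz_mem : ∀ {X l : M}, IsSys K.toCst X → l ∈ dm X → IsCode X l → NM K.toCst X (cz X l)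
  /-- a real can be coded at an open `Π`-tag -/
  code : ∀ {X O x z q : M}, Pos K X O → x ∈ O → tk X x = (em : M) → NM K.toCst X z →
    q ∈ PX K.toCst X → Lq K.toCst q (tg X x) → ∃ Y, Pos K Y O ∧ LL K X O Y ∧ Dc K.toCst Y x z q

theorem LL.refl {K : Frm M} {X O : M} (h : Pos K X O) : LL K X O X :=
  ⟨h.1, Sb.refl _, fun _ hl hl' => (hl' hl).elim, h.2.1⟩

theorem Pos.sub {K : Frm M} {X O : M} (h : Pos K X O) : Sb O (dm X) := fun x hx => (h.2.2 x hx).1

/-- A coded real stays coded. -/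
theorem Dc.up {K : Frm M} (hK : GH K) {X Y x z q : M} (hX : IsSys K.toCst X)
    (hY : IsSys K.toCst Y) (h : Sb X Y) (hz : NM K.toCst X z) (hd : Dc K.toCst X x z q) :
    Dc K.toCst Y x z q := by
  obtain ⟨r, hr, hrq, l, hl, hc, hx, hg, he⟩ := hd
  have hs := hX.sf hY h
  refine ⟨r, hs.PX_sb r hr, hrq, l, hs.dm l hl, (hs.IsCode hl).1 hc, ?_, ?_, ?_⟩
  · rw [← hs.cx hl, hx]
  · rwa [← hs.cg hl]
  · rw [← hs.cz hl]
    exact hK.fe_up hX hY h hr hz (hK.cz_mem hX hl hc) he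

theorem Dn1.keep {K : Frm M} (hK : GH K) {X Y O t : M} (hX : Pos K X O) (hE : LL K X O Y)
    (ht : t ∈ tks K.toCst X) (hd : Dn1 K.toCst O X t) : Dn1 K.toCst O Y t := by
  rintro k q u z rfl hu hk hq
  have hs := hX.1.sf hE.1 hE.2.1
  have huX := hX.sub u hu
  obtain ⟨-, -, -, hz⟩ := op_mem_tks.1 ht
  rw [← hs.tk huX] at hk
  rw [← hs.tg huX] at hq
  exact (hd k q u z rfl hu hk hq).up hK hX.1 hE.1 hE.2.1 hz

theorem Dn1.able {K : Frm M} (hK : GH K) {X O t : M} (hX : Pos K X O)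
    (ht : t ∈ tks K.toCst X) : ∃ Y, Pos K Y O ∧ LL K X O Y ∧ Dn1 K.toCst O Y t := by
  obtain ⟨k, q, u, z, rfl⟩ := exists_of_mem_tks ht
  obtain ⟨-, hq, -, hz⟩ := op_mem_tks.1 ht
  by_cases hc : u ∈ O ∧ tk X u = (em : M) ∧ Lq K.toCst q (tg X u)
  · obtain ⟨hu, hk, hqu⟩ := hc
    obtain ⟨Y, h1, h2, h3⟩ := hK.code hX hu hk hz hq hqu
    refine ⟨Y, h1, h2, ?_⟩
    intro k' q' u' z' he _ _ _
    rw [op_inj, op_inj, op_inj] at he
    obtain ⟨-, rfl, rfl, rfl⟩ := he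
    exact h3
  · refine ⟨X, hX, LL.refl hX, ?_⟩
    intro k' q' u' z' he hu hk hqu
    rw [op_inj, op_inj, op_inj] at he
    obtain ⟨-, rfl, rfl, rfl⟩ := he
    exact (hc ⟨hu, hk, hqu⟩).elim

theorem tks_mono {K : Cst M} {X Y : M} (hs : Sf X Y) : Sb (tks K X) (tks K Y) := by
  intro t ht
  obtain ⟨k, q, u, z, rfl⟩ := exists_of_mem_tks ht
  obtain ⟨hk, hq, hu, hz⟩ := op_mem_tks.1 ht
  exact op_mem_tks.2 ⟨hk, hs.PX_sb q hq, hu.imp (fun h => hs.dm u h) fun h => hs.NM h, hs.NM hz⟩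

theorem LL.tks_mono {K : Frm M} {X O Y : M} (hX : IsSys K.toCst X) (h : LL K X O Y) :
    Sb (tks K.toCst X) (tks K.toCst Y) := Sep.tks_mono (hX.sf h.1 h.2.1)

theorem good_iff_Dc {K : Cst M} {B O : M} : Good K B O ↔ ∀ x, x ∈ O → tk B x = (em : M) → ∀ z,
    NM K B z → ∀ q, q ∈ PX K B → Lq K q (tg B x) → Dc K B x z q := Iff.rfl

/-- If all tasks are done, then the system is good. -/
theorem good_of {K : Frm M} {Y O : M} (hY : Pos K Y O)
    (h : ∀ t, t ∈ tks K.toCst Y → Dn1 K.toCst O Y t) : Good K.toCst Y O := by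
  rw [good_iff_Dc]
  intro x hx hk z hz q hq hqx
  refine h _ (op_mem_tks.2 ⟨?_, hq, Or.inl (hY.sub x hx), hz⟩) em q x z rfl hx hk hqx
  exact mem_sc.2 (Or.inl (mem_sc.2 (Or.inl (mem_sc.2 (Or.inl (mem_sc_self _))))))

end Pool.Agent.Sep
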