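import Pool.Agent.Sep.HcB

/-!
A set of reals defined by a bounded existential quantifier over the subsets of a hereditarily
countable set and a universal quantifier over the hereditarily countable sets, with a formula with
bounded quantifiers as the matrix, is a `Σ¹₃` set.
-/

universe u

set_option linter.unusedSectionVars false

namespace Pool.Agent.Sep

open Pool.Agent.SigB Pool.Agent.Forc

variable {M : Type u} [Membership M M] [IsZFC M]

theorem qz_iff {h z m : M} (hz : z ∈ (RR : M)) : Qz h z m ↔ ap h m ∈ z := by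
  unfold Qz
  rw [(mem_RR.1 hz).1.mem_iff]

/-- The subset of `B` coded by the real `r`. -/
noncomputable def rr (h B r : M) : M :=
  sp B fun x => ∃ j, j ∈ (SigB.om : M) ∧ (ap h j = x ∧ ap r j = SigB.em)

theorem mem_rr {h B r x : M} : x ∈ rr h B r ↔
    x ∈ B ∧ ∃ j, j ∈ (SigB.om : M) ∧ (ap h j = x ∧ ap r j = SigB.em) :=
  mem_sp (by simp (maxDischargeDepth := 50))

theorem qr_iff {h B r m : M} : Qr h B r m ↔ ap h m ∈ rr h B r := by
  rw [mem_rr]; rfl

theorem exists_rr {h s B r : M} (hE : En h s) (hB : Sb B s) (hr : Sb r B) :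
    ∃ x, x ∈ (RR : M) ∧ rr h B x = r := by
  obtain ⟨x, hx, hx'⟩ := exists_chr (P := fun j : M => ap h j ∈ r)
    (by simp (maxDischargeDepth := 50))
  refine ⟨x, hx, ext' fun z => ?_⟩
  rw [mem_rr]
  constructor
  · rintro ⟨-, j, hj, rfl, h2⟩
    exact (hx' j hj).1 h2
  · intro hz
    obtain ⟨j, hj, rfl⟩ := hE.on z (hB z (hr z hz))
    exact ⟨hr _ hz, j, hj, rfl, (hx' j hj).2 hz⟩

theorem pm_iff (psi : D0 4) {h s B c z r p : M} (hE : En h s) (hB : Sb B s)
    (hc : c ∈ (SigB.om : M)) (hp : ap h c = p) (hz : z ∈ (RR : M)) (hzs : Sb z s)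
    (hsc : Le s (SigB.om : M)) :
    (∀ y, y ∈ (RR : M) → Pm psi h B c z r y) ↔
      ∀ a, HCt a → psi.Holds ![a, rr h B r, z, p] := by
  have hrs : Sb (rr h B r) s := fun x hx => hB x (mem_rr.1 hx).1
  constructor
  · intro H b hb
    -- a countable transitive set
    obtain ⟨t, ht, hbt, htc⟩ := hb
    let T : M := un (un t s) (pr (rr h B r) z)
    have hsT : ∀ x, x ∈ s → x ∈ T := fun x hx => mem_un.2 (Or.inl (mem_un.2 (Or.inr hx)))
    have hT : Tr T := by
      intro x hx w hw
      rcases mem_un.1 hx with hx | hx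
      · rcases mem_un.1 hx with hx | hx
        · exact mem_un.2 (Or.inl (mem_un.2 (Or.inl (ht x hx w hw))))
        · exact hsT w (hE.tr x hx w hw)
      · rcases mem_pr.1 hx with rfl | rfl
        · exact hsT w (hrs w hw)
        · exact hsT w (hzs w hw)
    have hTc : Le T (SigB.om : M) := le_om_un (le_om_un htc hsc) (le_om_pr _ _)
    obtain ⟨y₀, c', g, hy₀, hCol, hg⟩ := exists_code hT hTc
    have hhT : ∀ n, n ∈ (SigB.om : M) → ap h n ∈ T := fun n hn => hsT _ ((mem_fs.1 hE.fs).2 n hn)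
    have hdt : DT (fun w : Fin 1 → M => ap g (ap h (w 0))) := by
      simp (maxDischargeDepth := 50)
    let a : M := lam SigB.om fun n => ap g (ap h n)
    have ha : a ∈ (RR : M) := lam_mem_fs hdt fun n hn => (mem_Xs.1 (hg _ (hhT n hn)).1).1
    have haa : ∀ n, n ∈ (SigB.om : M) → ap a n = ap g (ap h n) := fun n hn =>
      ap_lam (F := fun n => ap g (ap h n)) hdt hn
    have hN : ∀ n, n ∈ (SigB.om : M) → ap a n ∈ Xs y₀ ∧ ap c' (ap a n) = ap h n := by
      intro n hn
      rw [haa n hn]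
      exact hg _ (hhT n hn)
    obtain ⟨h1, h2, h3⟩ := enc2_spec hy₀ ha
    have hbT : b ∈ T := mem_un.2 (Or.inl (mem_un.2 (Or.inl hbt)))
    have hrT : rr h B r ∈ T := mem_un.2 (Or.inr (by simp))
    have hzT : z ∈ T := mem_un.2 (Or.inr (by simp))
    have H' := H _ h1 (ap g b) (mem_Xs.1 (hg b hbT).1).1 (ap g (rr h B r))
      (mem_Xs.1 (hg _ hrT).1).1 (ap g z) (mem_Xs.1 (hg z hzT).1).1
    rw [h2, h3] at H'
    have hS : Sat y₀ psi ![ap g b, ap g (rr h B r), ap g z, ap a c] := by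
      rcases H' with H' | H'
      · exact (H' hCol.wf).elim
      · refine H' ⟨hCol.xt, hCol.nh_of hE hN, ?_, ?_, (mem_Xs.1 (hg b hbT).1).2⟩
        · exact (hCol.rh_iff hE hN hrs (fun m _ => qr_iff) (mem_Xs.1 (hg _ hrT).1).1).2
            (hg _ hrT)
        · exact (hCol.rh_iff hE hN hzs (fun m _ => qz_iff hz) (mem_Xs.1 (hg z hzT).1).1).2
            (hg z hzT)
    have hS' := (hCol.sat_iff psi _ (fun i => by
      fin_cases i
      · exact (hg b hbT).1
      · exact (hg _ hrT).1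
      · exact (hg z hzT).1
      · exact (hN c hc).1)).1 hS
    have he : (fun i => ap c' ((![ap g b, ap g (rr h B r), ap g z, ap a c] : Fin 4 → M) i)) =
        ![b, rr h B r, z, p] := by
      funext i
      fin_cases i
      · exact (hg b hbT).2
      · exact (hg _ hrT).2
      · exact (hg z hzT).2
      · exact (hN c hc).2.trans hp
    rwa [he] at hS'
  · intro H y hy q₀ hq₀ q₁ hq₁ q₂ hq₂
    by_cases hw : Wf (Xs (dec y SigB.em)) (rl (dec y SigB.em))
    · refine Or.inr ?_
      rintro ⟨hX, hN, hr, hz', hD⟩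
      obtain ⟨c', hCol⟩ := exists_col hw hX
      have ha : dec y on ∈ (RR : M) := dec_mem hy on_mem
      have hN' := hCol.nh hE hN ha
      obtain ⟨hr1, hr2⟩ := (hCol.rh_iff hE hN' hrs (fun m _ => qr_iff) hq₁).1 hr
      obtain ⟨hz1, hz2⟩ := (hCol.rh_iff hE hN' hzs (fun m _ => qz_iff hz) hq₂).1 hz'
      have h0 : q₀ ∈ Xs (dec y SigB.em) := mem_Xs.2 ⟨hq₀, hD⟩
      refine (hCol.sat_iff psi _ (fun i => by
        fin_cases i
        · exact h0
        · exact hr1
        · exact hz1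
        · exact (hN' c hc).1)).2 ?_
      have he : (fun i => ap c' ((![q₀, q₁, q₂, ap (dec y on) c] : Fin 4 → M) i)) =
          ![ap c' q₀, rr h B r, z, p] := by
        funext i
        fin_cases i
        · rfl
        · exact hr2
        · exact hz2
        · exact (hN' c hc).2.trans hp
      rw [he]
      exact H _ (hCol.hct h0)
    · exact Or.inl hw

/-- The `Σ¹₃` form of a `Σ₂` statement over the hereditarily countable sets whose outer quantifier
is bounded by the subsets of a hereditarily countable set. -/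
theorem hc (psi : D0 4) {p B : M} (hp : HCt p) (hB : HCt B) :
    ∃ T : M, ∀ z, z ∈ fs (SigB.om : M) SigB.om → (SigT T z ↔
      ∃ r, Sb r B ∧ ∀ a, HCt a → psi.Holds ![a, r, z, p]) := by
  -- the countable transitive set
  obtain ⟨s, hs, hts, hsc⟩ := hp.pr (hB.pr (hct_om.pd hct_om))
  have hps : p ∈ s := hs _ hts p (by simp)
  have h1 : pr B (pd (SigB.om : M) SigB.om) ∈ s := hs _ hts _ (by simp)
  have hBs : Sb B s := hs _ (hs _ h1 B (by simp))
  have hos : Sb (pd (SigB.om : M) SigB.om) s := hs _ (hs _ h1 _ (by simp))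
  obtain ⟨h, hE⟩ := exists_en hs hsc hps
  obtain ⟨c, hc, hcp⟩ := hE.on p hps
  obtain ⟨T, hT⟩ := sigma3_of_an (an_Pm psi h B hc)
  refine ⟨T, fun z hz => ?_⟩
  have hzs : Sb z s := (real_sb (x := z) hz).trans hos
  rw [hT z hz]
  constructor
  · rintro ⟨r, hr, H⟩
    exact ⟨rr h B r, fun x hx => (mem_rr.1 hx).1,
      (pm_iff psi hE hBs hc hcp hz hzs hsc).1 H⟩
  · rintro ⟨r, hr, H⟩
    obtain ⟨x, hx, rfl⟩ := exists_rr hE hBs hr
    exact ⟨x, hx, (pm_iff psi hE hBs hc hcp hz hzs hsc).2 H⟩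

end Pool.Agent.Sep
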