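import Pool.Agent.Sep.Str
import Pool.Agent.Forc.LS1
import Pool.Agent.Frc.Atom

/-!
Hereditarily countable sets: closure properties, enumerations of countable transitive sets, and
structures coded by reals which collapse to a given countable transitive set.
-/

universe u

set_option linter.unusedSectionVars false

namespace Pool.Agent.Sep

open Pool.Agent.SigB Pool.Agent.Forc

variable {M : Type u} [Membership M M] [IsZFC M]

theorem HCt.of_mem {x : M} (h1 : Le x (SigB.om : M)) (h2 : ∀ y, y ∈ x → HCt y) : HCt x := by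
  obtain ⟨b, hb⟩ := Frc.collection (R := fun y s : M => Tr s ∧ y ∈ s ∧ Le s (SigB.om : M))
    (by simp (maxDischargeDepth := 50)) x
  obtain ⟨f, hf, hf'⟩ := choice' (a := x) (b := b)
    (P := fun y s : M => Tr s ∧ y ∈ s ∧ Le s (SigB.om : M))
    (by simp (maxDischargeDepth := 50)) (fun y hy => by
      obtain ⟨s, hs⟩ := h2 y hy
      exact hb y hy ⟨s, hs⟩)
  have hd : DT (fun w : Fin 1 → M => ap f (w 0)) := by simp (maxDischargeDepth := 50)
  refine ⟨un (sU (im x (ap f))) (pr x x), ?_, mem_un.2 (Or.inr (by simp)), ?_⟩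
  · intro y hy z hz
    rcases mem_un.1 hy with hy | hy
    · obtain ⟨u, hu, hyu⟩ := mem_sU.1 hy
      obtain ⟨v, hv, rfl⟩ := (mem_im hd).1 hu
      exact mem_un.2 (Or.inl (mem_sU.2 ⟨_, hu, (hf' v hv).1 y hyu z hz⟩))
    · have : y = x := by simpa using hy
      subst this
      exact mem_un.2 (Or.inl (mem_sU.2 ⟨ap f z, (mem_im hd).2 ⟨z, hz, rfl⟩, (hf' z hz).2.1⟩))
  · refine le_om_un (Le.union om_ord (Sb.refl _) (le_om_im h1 hd) fun u hu => ?_)
      (le_om_pr x x)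
    obtain ⟨v, hv, rfl⟩ := (mem_im hd).1 hu
    exact (hf' v hv).2.2

theorem HCt.mem {x y : M} (h : HCt x) (hy : y ∈ x) : HCt y := by
  obtain ⟨s, hs, hx, hc⟩ := h
  exact ⟨s, hs, hs x hx y hy, hc⟩

theorem HCt.le {x : M} (h : HCt x) : Le x (SigB.om : M) := by
  obtain ⟨s, hs, hx, hc⟩ := h
  exact hc.mono_left (hs x hx)

theorem HCt.sb {x y : M} (h : HCt x) (hy : Sb y x) : HCt y :=
  HCt.of_mem (h.le.mono_left hy) fun z hz => h.mem (hy z hz)

theorem hct_om : HCt (SigB.om : M) :=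
  HCt.of_mem (Le.refl _) fun _ hn => ⟨SigB.om, om_ord.1, hn, Le.refl _⟩

theorem hct_nat {n : M} (hn : n ∈ (SigB.om : M)) : HCt n := hct_om.mem hn

theorem HCt.pr {x y : M} (hx : HCt x) (hy : HCt y) : HCt (pr x y) :=
  HCt.of_mem (le_om_pr x y) fun z hz => by
    rcases mem_pr.1 hz with rfl | rfl
    · exact hx
    · exact hy

theorem HCt.op {x y : M} (hx : HCt x) (hy : HCt y) : HCt (op x y) := (hx.pr hx).pr (hx.pr hy)

theorem HCt.pd {x y : M} (hx : HCt x) (hy : HCt y) : HCt (pd x y) :=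
  HCt.of_mem (le_om_pd hx.le hy.le) fun z hz => by
    obtain ⟨a, ha, b, hb, rfl⟩ := mem_pd.1 hz
    exact (hx.mem ha).op (hy.mem hb)

theorem real_sb {x : M} (hx : x ∈ (RR : M)) : Sb x (pd (SigB.om : M) SigB.om) := by
  intro z hz
  obtain ⟨i, hi, rfl⟩ := (mem_RR.1 hx).1.mem_iff.1 hz
  exact op_mem_pd.2 ⟨hi, ap_mem hx hi⟩

theorem hct_real {x : M} (hx : x ∈ (RR : M)) : HCt x := (hct_om.pd hct_om).sb (real_sb hx)

/-- `h` enumerates the transitive set `s`. -/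
structure En (h s : M) : Prop where
  tr : Tr s
  fs : h ∈ fs (SigB.om : M) s
  on : ∀ x, x ∈ s → ∃ n, n ∈ (SigB.om : M) ∧ ap h n = x

theorem exists_en {s x₀ : M} (ht : Tr s) (hc : Le s (SigB.om : M)) (h0 : x₀ ∈ s) : ∃ h, En h s := by
  obtain ⟨g, hg, hgi⟩ := hc
  have hP : Dfn (fun w : Fin 2 → M => (∃ x', x' ∈ s ∧ ap g x' = w 0) → ap g (w 1) = w 0) := by
    simp (maxDischargeDepth := 50)
  obtain ⟨h, hh, hh'⟩ := choice' (a := (SigB.om : M)) (b := s)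
    (P := fun n x : M => (∃ x', x' ∈ s ∧ ap g x' = n) → ap g x = n) hP (fun n _ => by
      by_cases hn : ∃ x', x' ∈ s ∧ ap g x' = n
      · obtain ⟨x', hx', he⟩ := hn
        exact ⟨x', hx', fun _ => he⟩
      · exact ⟨x₀, h0, fun h => (hn h).elim⟩)
  refine ⟨h, ht, hh, fun x hx => ?_⟩
  have hn : ap g x ∈ (SigB.om : M) := (mem_fs.1 hg).2 x hx
  exact ⟨ap g x, hn, hgi _ _ ((mem_fs.1 hh).2 _ hn) hx (hh' _ hn ⟨x, hx, rfl⟩)⟩

/-- `q` is the node for the set of the sets `h m` with `Q m` in the structure coded by `y`, where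
`a m` is the node for `h m`. -/
def Rh (Q : M → Prop) (y a q : M) : Prop := Dm y q ∧ ∀ k, k ∈ (SigB.om : M) →
  (Er y k q ↔ ∃ m, m ∈ (SigB.om : M) ∧ (Q m ∧ k = ap a m))

/-- `a n` is the node for `h n` in the structure coded by `y`. -/
def Nh (h y a : M) : Prop := ∀ n, n ∈ (SigB.om : M) →
  Rh (fun m => ap h m ∈ ap h n) y a (ap a n)

section

variable {y c h s a : M} (hC : Col y c) (hE : En h s)

include hC hE

theorem Col.nh (hN : Nh h y a) (ha : a ∈ (RR : M)) : ∀ n, n ∈ (SigB.om : M) →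
    ap a n ∈ Xs y ∧ ap c (ap a n) = ap h n := by
  have hX : ∀ n, n ∈ (SigB.om : M) → ap a n ∈ Xs y := fun n hn =>
    mem_Xs.2 ⟨ap_mem ha hn, (hN n hn).1⟩
  have key : ∀ x : M, ∀ n, n ∈ (SigB.om : M) → ap h n = x → ap c (ap a n) = x := by
    refine Frc.mem_ind (by simp (maxDischargeDepth := 50)) ?_
    rintro x ih n hn rfl
    refine ext' fun z => ?_
    constructor
    · intro hz
      obtain ⟨k, hk, hEr, rfl⟩ := hC.lift (hX n hn) hz
      obtain ⟨m, hm, h1, rfl⟩ := ((hN n hn).2 k (mem_Xs.1 hk).1).1 hEr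
      rw [ih _ h1 m hm rfl]
      exact h1
    · intro hz
      obtain ⟨m, hm, rfl⟩ := hE.on z (hE.tr _ ((mem_fs.1 hE.fs).2 n hn) z hz)
      have h1 : Er y (ap a m) (ap a n) :=
        ((hN n hn).2 _ (ap_mem ha hm)).2 ⟨m, hm, hz, rfl⟩
      rw [← ih _ hz m hm rfl]
      exact (hC.er_iff (hX m hm) (hX n hn)).1 h1
  exact fun n hn => ⟨hX n hn, key _ n hn rfl⟩

theorem Col.rh_iff {Q : M → Prop} {w q : M}
    (hN : ∀ n, n ∈ (SigB.om : M) → ap a n ∈ Xs y ∧ ap c (ap a n) = ap h n) (hw : Sb w s)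
    (hQ : ∀ m, m ∈ (SigB.om : M) → (Q m ↔ ap h m ∈ w)) (hq : q ∈ (SigB.om : M)) :
    Rh Q y a q ↔ q ∈ Xs y ∧ ap c q = w := by
  constructor
  · rintro ⟨hD, h1⟩
    have hqX : q ∈ Xs y := mem_Xs.2 ⟨hq, hD⟩
    refine ⟨hqX, ext' fun z => ?_⟩
    constructor
    · intro hz
      obtain ⟨k, hk, hEr, rfl⟩ := hC.lift hqX hz
      obtain ⟨m, hm, h2, rfl⟩ := (h1 k (mem_Xs.1 hk).1).1 hEr
      rw [(hN m hm).2]
      exact (hQ m hm).1 h2
    · intro hz
      obtain ⟨m, hm, rfl⟩ := hE.on z (hw z hz)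
      rw [← (hN m hm).2]
      exact (hC.er_iff (hN m hm).1 hqX).1
        ((h1 _ (mem_Xs.1 (hN m hm).1).1).2 ⟨m, hm, (hQ m hm).2 hz, rfl⟩)
  · rintro ⟨hqX, he⟩
    refine ⟨(mem_Xs.1 hqX).2, fun k hk => ?_⟩
    constructor
    · intro hEr
      have hkX : k ∈ Xs y := mem_Xs.2 ⟨hk, hEr.1⟩
      have h1 := (hC.er_iff hkX hqX).1 hEr
      rw [he] at h1
      obtain ⟨m, hm, h2⟩ := hE.on _ (hw _ h1)
      refine ⟨m, hm, (hQ m hm).2 (by rw [h2]; exact h1), hC.inj k hkX _ (hN m hm).1 ?_⟩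
      rw [(hN m hm).2, h2]
    · rintro ⟨m, hm, h2, rfl⟩
      refine (hC.er_iff (hN m hm).1 hqX).2 ?_
      rw [(hN m hm).2, he]
      exact (hQ m hm).1 h2

theorem Col.nh_of (hN : ∀ n, n ∈ (SigB.om : M) → ap a n ∈ Xs y ∧ ap c (ap a n) = ap h n) :
    Nh h y a := fun n hn =>
  (hC.rh_iff hE hN (hE.tr _ ((mem_fs.1 hE.fs).2 n hn)) (fun _ _ => Iff.rfl)
    (mem_Xs.1 (hN n hn).1).1).2 (hN n hn)

end

/-- The characteristic real of a definable set of natural numbers. -/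
theorem exists_chr {P : M → Prop} (hP : Dfn (fun w : Fin 1 → M => P (w 0))) :
    ∃ x, x ∈ (RR : M) ∧ ∀ i, i ∈ (SigB.om : M) → (ap x i = SigB.em ↔ P i) := by
  classical
  have hF : DT (fun w : Fin 1 → M => if P (w 0) then (SigB.em : M) else on) :=
    DT.ite (P := fun w : Fin 1 → M => P (w 0)) hP (DT.const _) (DT.const _)
  refine ⟨lam SigB.om fun i => if P i then (SigB.em : M) else on, ?_, fun i hi => ?_⟩
  · refine lam_mem_fs hF fun i _ => ?_
    by_cases h : P i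
    · rw [if_pos h]; exact em_mem_om
    · rw [if_neg h]; exact on_mem
  · rw [ap_lam (F := fun i => if P i then (SigB.em : M) else on) hF hi]
    by_cases h : P i
    · rw [if_pos h]; exact ⟨fun _ => h, fun _ => rfl⟩
    · rw [if_neg h]; exact ⟨fun h' => (on_ne h').elim, fun h' => (h h').elim⟩

/-- A countable transitive set is the collapse of a structure coded by a real. -/
theorem exists_code {T : M} (hT : Tr T) (hc : Le T (SigB.om : M)) :
    ∃ y c g, y ∈ (RR : M) ∧ Col y c ∧ ∀ x, x ∈ T → ap g x ∈ Xs y ∧ ap c (ap g x) = x := by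
  obtain ⟨g, hg, hgi⟩ := hc
  have hgo : ∀ x, x ∈ T → ap g x ∈ (SigB.om : M) := (mem_fs.1 hg).2
  obtain ⟨D, hD, hD'⟩ := exists_chr (P := fun i : M => ∃ x, x ∈ T ∧ ap g x = i)
    (by simp (maxDischargeDepth := 50))
  obtain ⟨E, hE, hE'⟩ := exists_chr (P := fun t : M => ∃ x, x ∈ T ∧ ∃ x', x' ∈ T ∧ x ∈ x' ∧
    t = pn (ap g x) (ap g x')) (by simp (maxDischargeDepth := 50))
  obtain ⟨h1, h2, h3⟩ := enc2_spec hE hD
  let y : M := enc2 E D
  have hDm : ∀ i, i ∈ (SigB.om : M) → (Dm y i ↔ ∃ x, x ∈ T ∧ ap g x = i) := by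
    intro i hi
    show ap (dec (enc2 E D) on) i = SigB.em ↔ _
    rw [h3]
    exact hD' i hi
  have hX : ∀ i, i ∈ Xs y ↔ ∃ x, x ∈ T ∧ ap g x = i := by
    intro i
    rw [mem_Xs]
    constructor
    · rintro ⟨hi, h⟩
      exact (hDm i hi).1 h
    · rintro ⟨x, hx, rfl⟩
      exact ⟨hgo x hx, (hDm _ (hgo x hx)).2 ⟨x, hx, rfl⟩⟩
  have hEr : ∀ i j, i ∈ (SigB.om : M) → j ∈ (SigB.om : M) → (Er y i j ↔
      ∃ x, x ∈ T ∧ ∃ x', x' ∈ T ∧ x ∈ x' ∧ i = ap g x ∧ j = ap g x') := by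
    intro i j hi hj
    have h4 : ap (dec y SigB.em) (pn i j) = SigB.em ↔
        ∃ x, x ∈ T ∧ ∃ x', x' ∈ T ∧ x ∈ x' ∧ pn i j = pn (ap g x) (ap g x') := by
      show ap (dec (enc2 E D) SigB.em) (pn i j) = SigB.em ↔ _
      rw [h2]
      exact hE' _ (pn_mem hi hj)
    constructor
    · rintro ⟨-, -, h5⟩
      obtain ⟨x, hx, x', hx', hm, he⟩ := h4.1 h5
      obtain ⟨rfl, rfl⟩ := pn_inj hi hj (hgo x hx) (hgo x' hx') he
      exact ⟨x, hx, x', hx', hm, rfl, rfl⟩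
    · rintro ⟨x, hx, x', hx', hm, rfl, rfl⟩
      exact ⟨(hDm _ hi).2 ⟨x, hx, rfl⟩, (hDm _ hj).2 ⟨x', hx', rfl⟩,
        h4.2 ⟨x, hx, x', hx', hm, rfl⟩⟩
  have hEg : ∀ x x', x ∈ T → x' ∈ T → (Er y (ap g x) (ap g x') ↔ x ∈ x') := by
    intro x x' hx hx'
    rw [hEr _ _ (hgo x hx) (hgo x' hx')]
    constructor
    · rintro ⟨u, hu, u', hu', hm, he, he'⟩
      rwa [hgi _ _ hx hu he, hgi _ _ hx' hu' he']
    · exact fun hm => ⟨x, hx, x', hx', hm, rfl, rfl⟩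
  have hwf : Wf (Xs y) (rl y) := by
    intro S hS hne
    have hP : Dfn (fun w : Fin 1 → M => ap g (w 0) ∈ S) := by simp (maxDischargeDepth := 50)
    obtain ⟨i, hi⟩ := hne
    obtain ⟨x, hx, rfl⟩ := (hX i).1 (hS i hi)
    obtain ⟨m, hm, hmin⟩ := IsZFC.found (sp T fun u => ap g u ∈ S) ⟨x, (mem_sp hP).2 ⟨hx, hi⟩⟩
    obtain ⟨hmT, hmS⟩ := (mem_sp hP).1 hm
    refine ⟨ap g m, hmS, fun k hk hr => ?_⟩
    obtain ⟨u, hu, rfl⟩ := (hX k).1 (hS k hk)
    have h5 := (hEg u m hu hmT).1 (op_mem_rl.1 hr).2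
    exact hmin u h5 ((mem_sp hP).2 ⟨hu, hk⟩)
  have hxt : Xt y := by
    rintro i hi j hj ⟨hi', hj', he⟩
    obtain ⟨x, hx, rfl⟩ := (hDm i hi).1 hi'
    obtain ⟨x', hx', rfl⟩ := (hDm j hj).1 hj'
    have : x = x' := by
      refine ext' fun z => ?_
      constructor
      · intro hz
        have hzT := hT x hx z hz
        exact (hEg z x' hzT hx').1 ((he _ (hgo z hzT)).1 ((hEg z x hzT hx).2 hz))
      · intro hz
        have hzT := hT x' hx' z hz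
        exact (hEg z x hzT hx).1 ((he _ (hgo z hzT)).2 ((hEg z x' hzT hx').2 hz))
    rw [this]
  obtain ⟨c, hCol⟩ := exists_col hwf hxt
  refine ⟨y, c, g, h1, hCol, fun x hx => ⟨(hX _).2 ⟨x, hx, rfl⟩, ?_⟩⟩
  revert hx
  refine Frc.mem_ind (Q := fun x => x ∈ T → ap c (ap g x) = x)
    (by simp (maxDischargeDepth := 50)) ?_ x
  intro x ih hx
  refine ext' fun z => ?_
  constructor
  · intro hz
    obtain ⟨k, hk, hEk, rfl⟩ := hCol.lift ((hX _).2 ⟨x, hx, rfl⟩) hz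
    obtain ⟨u, hu, rfl⟩ := (hX k).1 hk
    have h5 := (hEg u x hu hx).1 hEk
    rw [ih u h5 hu]
    exact h5
  · intro hz
    have hzT := hT x hx z hz
    rw [← ih z hz hzT]
    exact (hCol.er_iff ((hX _).2 ⟨z, hzT, rfl⟩) ((hX _).2 ⟨x, hx, rfl⟩)).1
      ((hEg z x hzT hx).2 hz)

end Pool.Agent.Sep
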