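import Pool.Agent.Sep.HcA
import Pool.Agent.Sep.Tree

/-!
The matrix of the `Σ¹₃` definition, and `Σ¹₃` sets from analytic predicates.
-/

universe u

set_option linter.unusedSectionVars false

namespace Pool.Agent.Sep

open Pool.Agent.SigB Pool.Agent.Forc

variable {M : Type u} [Membership M M] [IsZFC M]

section

variable {n : ℕ} {τ : Fin n → Bool}

theorem rel1 {R : M → Prop} (hR : Dfn (fun w : Fin 1 → M => R (w 0)))
    {F : (Fin n → M) → M} (hF : Cn τ false F) : Bo τ fun v => R (F v) := by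
  have h : Bo (![false] : Fin 1 → Bool) fun v : Fin 1 → M => R (v 0) := by
    refine Bo.loc hR fun v hv => ⟨SigB.em, em_mem_om, fun v' hv' hn => ?_⟩
    have h0 : v 0 = v' 0 := hn 0
    rw [h0]
  exact bo1 h hF

theorem rel2 {R : M → M → Prop} (hR : Dfn (fun w : Fin 2 → M => R (w 0) (w 1)))
    {F G : (Fin n → M) → M} (hF : Cn τ false F) (hG : Cn τ false G) :
    Bo τ fun v => R (F v) (G v) := by
  have h : Bo (![false, false] : Fin 2 → Bool) fun v : Fin 2 → M => R (v 0) (v 1) := by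
    refine Bo.loc hR fun v hv => ⟨SigB.em, em_mem_om, fun v' hv' hn => ?_⟩
    have h0 : v 0 = v' 0 := hn 0
    have h1 : v 1 = v' 1 := hn 1
    rw [h0, h1]
  exact bo2 h hF hG

theorem rel3 {R : M → M → M → Prop} (hR : Dfn (fun w : Fin 3 → M => R (w 0) (w 1) (w 2)))
    {F G H : (Fin n → M) → M} (hF : Cn τ false F) (hG : Cn τ false G) (hH : Cn τ false H) :
    Bo τ fun v => R (F v) (G v) (H v) := by
  have h : Bo (![false, false, false] : Fin 3 → Bool) fun v : Fin 3 → M => R (v 0) (v 1) (v 2) := by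
    refine Bo.loc hR fun v hv => ⟨SigB.em, em_mem_om, fun v' hv' hn => ?_⟩
    have h0 : v 0 = v' 0 := hn 0
    have h1 : v 1 = v' 1 := hn 1
    have h2 : v 2 = v' 2 := hn 2
    rw [h0, h1, h2]
  exact bo3 h hF hG hH

theorem bo5 {b c d e f : Bool} {P : M → M → M → M → M → Prop}
    (h : Bo ![b, c, d, e, f] fun v : Fin 5 → M => P (v 0) (v 1) (v 2) (v 3) (v 4))
    {F G H K L : (Fin n → M) → M} (hF : Cn τ b F) (hG : Cn τ c G) (hH : Cn τ d H)
    (hK : Cn τ e K) (hL : Cn τ f L) : Bo τ fun v => P (F v) (G v) (H v) (K v) (L v) := by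
  refine Bo.sub (R := fun x v => P x (G v) (H v) (K v) (L v)) ?_ hF
  refine Bo.sub (R := fun y (w : Fin (n + 1) → M) => P (w 0) y (H fun i => w i.succ)
    (K fun i => w i.succ) (L fun i => w i.succ)) ?_
    (hG.ren (τ := Fin.cons b τ) Fin.succ fun i => by simp)
  refine Bo.sub (R := fun z (w : Fin (n + 2) → M) => P (w 1) (w 0) z
    (K fun i => w i.succ.succ) (L fun i => w i.succ.succ)) ?_
    (hH.ren (τ := Fin.cons c (Fin.cons b τ)) (fun i => i.succ.succ) fun i => by simp)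
  refine Bo.sub (R := fun u (w : Fin (n + 3) → M) => P (w 2) (w 1) (w 0) u
    (L fun i => w i.succ.succ.succ)) ?_
    (hK.ren (τ := Fin.cons d (Fin.cons c (Fin.cons b τ))) (fun i => i.succ.succ.succ)
      fun i => by simp)
  refine Bo.sub (R := fun u (w : Fin (n + 4) → M) => P (w 3) (w 2) (w 1) (w 0) u) ?_
    (hL.ren (τ := Fin.cons e (Fin.cons d (Fin.cons c (Fin.cons b τ))))
      (fun i => i.succ.succ.succ.succ) fun i => by simp)
  exact h.ren (τ := Fin.cons f (Fin.cons e (Fin.cons d (Fin.cons c (Fin.cons b τ)))))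
    (n := n + 5) ![4, 3, 2, 1, 0] fun i => by fin_cases i <;> rfl

theorem bo_Sat4 (psi : D0 4) {F G H K L : (Fin n → M) → M} (hF : Cn τ true F)
    (hG : Cn τ false G) (hH : Cn τ false H) (hK : Cn τ false K) (hL : Cn τ false L) :
    Bo τ fun v => Sat (F v) psi ![G v, H v, K v, L v] := by
  have h : Bo (![true, false, false, false, false] : Fin 5 → Bool)
      fun v : Fin 5 → M => Sat (v 0) psi ![v 1, v 2, v 3, v 4] := by
    have h1 := (bo_Sat (M := M) psi).ren (τ := ![true, false, false, false, false])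
      (fun i => i) (fun i => by fin_cases i <;> rfl)
    refine h1.congr fun v _ => ?_
    have h2 : (fun i : Fin 4 => v i.succ) = ![v 1, v 2, v 3, v 4] := by
      funext i; fin_cases i <;> rfl
    rw [h2]
  exact bo5 (P := fun y a b c d => Sat y psi ![a, b, c, d]) h hF hG hH hK hL

/-- The relation `Rh` with a parameter. -/
theorem bo_Rh {Q : (Fin n → M) → M → Prop}
    (hQ : Bo (Matrix.vecCons false τ) fun w : Fin (n + 1) → M => Q (fun i => w i.succ) (w 0))
    {F G H : (Fin n → M) → M} (hF : Cn τ true F) (hG : Cn τ true G) (hH : Cn τ false H) :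
    Bo τ fun v => Rh (Q v) (F v) (G v) (H v) := by
  unfold Rh
  refine Bo.and (bo_Dm hF hH) (Bo.all (R := fun v k => (Er (F v) k (H v) ↔
    ∃ m, m ∈ (SigB.om : M) ∧ (Q v m ∧ k = ap (G v) m))) ?_)
  refine Bo.iff ?_ ?_
  · exact bo_Er (hF.ren (τ := Matrix.vecCons false τ) Fin.succ fun i => by simp) (Cn.var (by simp))
      (hH.ren (τ := Matrix.vecCons false τ) Fin.succ fun i => by simp)
  · refine Bo.ex (R := fun (w : Fin (n + 1) → M) m => (Q (fun i => w i.succ) m ∧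
      w 0 = ap (G fun i => w i.succ) m)) (Bo.and ?_ ?_)
    · have h1 := hQ.ren (τ := (Matrix.vecCons false (Matrix.vecCons false τ) :
        Fin (n + 2) → Bool)) (Fin.cases 0 fun i => i.succ.succ) (fun i => by
          refine Fin.cases ?_ (fun i => ?_) i
          · rfl
          · simp)
      exact h1
    · refine Bo.eq (Cn.var (by simp)) (Cn.ap ?_ (Cn.var (by simp)))
      exact hG.ren (τ := (Matrix.vecCons false (Matrix.vecCons false τ) :
        Fin (n + 2) → Bool)) (fun i => i.succ.succ) fun i => by simp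

theorem bo_Nh (h : M) {F G : (Fin n → M) → M} (hF : Cn τ true F) (hG : Cn τ true G) :
    Bo τ fun v => Nh h (F v) (G v) := by
  have h1 : Bo (![true, true] : Fin 2 → Bool) fun v : Fin 2 → M => Nh h (v 0) (v 1) := by
    unfold Nh
    refine Bo.all (R := fun (v : Fin 2 → M) n => Rh (fun m => ap h m ∈ ap h n) (v 0) (v 1)
      (ap (v 1) n)) ?_
    refine bo_Rh (Q := fun (w : Fin 3 → M) m => ap h m ∈ ap h (w 0)) ?_ (Cn.var (by simp))
      (Cn.var (by simp)) (Cn.ap (Cn.var (by simp)) (Cn.var (by simp)))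
    exact rel2 (R := fun m n => ap h m ∈ ap h n) (by simp (maxDischargeDepth := 50))
      (Cn.var (by simp)) (Cn.var (by simp))
  exact bo2 h1 hF hG

end

/-- `h m` belongs to the real `z`. -/
def Qz (h z m : M) : Prop := ∃ j, j ∈ (SigB.om : M) ∧ ap h m = op j (ap z j)

/-- `h m` belongs to the subset of `B` coded by the real `r`. -/
def Qr (h B r m : M) : Prop :=
  ap h m ∈ B ∧ ∃ j, j ∈ (SigB.om : M) ∧ (ap h j = ap h m ∧ ap r j = SigB.em)

section

variable {n : ℕ} {τ : Fin n → Bool}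

theorem bo_Qz (h : M) {F G : (Fin n → M) → M} (hF : Cn τ true F) (hG : Cn τ false G) :
    Bo τ fun v => Qz h (F v) (G v) := by
  have h1 : Bo (![true, false] : Fin 2 → Bool) fun v : Fin 2 → M => Qz h (v 0) (v 1) := by
    unfold Qz
    refine Bo.ex (R := fun (v : Fin 2 → M) j => ap h (v 1) = op j (ap (v 0) j)) ?_
    exact rel3 (R := fun m j k => ap h m = op j k) (by simp (maxDischargeDepth := 50))
      (Cn.var (by simp)) (Cn.var (by simp)) (Cn.ap (Cn.var (by simp)) (Cn.var (by simp)))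
  exact bo2 h1 hF hG

theorem bo_Qr (h B : M) {F G : (Fin n → M) → M} (hF : Cn τ true F) (hG : Cn τ false G) :
    Bo τ fun v => Qr h B (F v) (G v) := by
  have h1 : Bo (![true, false] : Fin 2 → Bool) fun v : Fin 2 → M => Qr h B (v 0) (v 1) := by
    unfold Qr
    refine Bo.and (rel1 (R := fun m => ap h m ∈ B) (by simp (maxDischargeDepth := 50))
      (Cn.var (by simp))) (Bo.ex (R := fun (v : Fin 2 → M) j => (ap h j = ap h (v 1) ∧
        ap (v 0) j = SigB.em)) (Bo.and ?_ ?_))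
    · exact rel2 (R := fun j m => ap h j = ap h m) (by simp (maxDischargeDepth := 50))
        (Cn.var (by simp)) (Cn.var (by simp))
    · exact Bo.eq (Cn.ap (Cn.var (by simp)) (Cn.var (by simp))) Cn.zero
  exact bo2 h1 hF hG

end

theorem not_wf_iff {y : M} : ¬ Wf (Xs y) (rl y) ↔ ∃ u, u ∈ (RR : M) ∧
    ∀ n, n ∈ (SigB.om : M) → Er y (ap u (sc n)) (ap u n) := by
  constructor
  · intro h
    obtain ⟨f, hf, hf'⟩ := exists_desc h
    refine ⟨f, mem_RR.2 ⟨(mem_fs.1 hf).1, fun i hi => (mem_Xs.1 ((mem_fs.1 hf).2 i hi)).1⟩,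
      fun n hn => (op_mem_rl.1 (hf' n hn)).2⟩
  · rintro ⟨u, hu, h⟩ hw
    have hd : DT (fun w : Fin 1 → M => ap u (w 0)) := by simp (maxDischargeDepth := 50)
    obtain ⟨m, hm, hmin⟩ := hw (im SigB.om (ap u)) (fun z hz => by
      obtain ⟨n, hn, rfl⟩ := (mem_im hd).1 hz
      exact mem_Xs.2 ⟨ap_mem hu hn, (h n hn).2.1⟩) ⟨ap u SigB.em, (mem_im hd).2 ⟨_, em_mem_om, rfl⟩⟩
    obtain ⟨n, hn, rfl⟩ := (mem_im hd).1 hm
    exact hmin _ ((mem_im hd).2 ⟨sc n, sc_mem_om hn, rfl⟩)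
      (op_mem_rl.2 ⟨⟨ap_mem hu (sc_mem_om hn), ap_mem hu hn⟩, h n hn⟩)

theorem an_not_wf {n : ℕ} {τ : Fin n → Bool} {F : (Fin n → M) → M} (hF : Cn τ true F) :
    An τ fun v => ¬ Wf (Xs (F v)) (rl (F v)) := by
  have h : An τ fun v => ∃ u, u ∈ (RR : M) ∧
      ∀ n, n ∈ (SigB.om : M) → Er (F v) (ap u (sc n)) (ap u n) := by
    refine An.ex_real (R := fun u v => ∀ n, n ∈ (SigB.om : M) →
      Er (F v) (ap u (sc n)) (ap u n)) ?_
    have hF' : Cn (Fin.cons true τ : Fin (n + 1) → Bool) true fun w => F fun i => w i.succ :=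
      hF.ren Fin.succ fun i => by simp
    have h1 : Bo (Fin.cons true τ : Fin (n + 1) → Bool) fun w : Fin (n + 1) → M =>
        ∀ n, n ∈ (SigB.om : M) → Er (F fun i => w i.succ) (ap (w 0) (sc n)) (ap (w 0) n) := by
      refine Bo.all (R := fun (w : Fin (n + 1) → M) n =>
        Er (F fun i => w i.succ) (ap (w 0) (sc n)) (ap (w 0) n)) ?_
      refine bo_Er ?_ (Cn.ap (Cn.var (by simp)) (Cn.sc (Cn.var (by simp))))
        (Cn.ap (Cn.var (by simp)) (Cn.var (by simp)))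
      exact hF'.ren (τ := (Matrix.vecCons false (Fin.cons true τ) :
        Fin (n + 2) → Bool)) Fin.succ fun i => by simp
    exact h1.1
  exact h.congr fun v _ => not_wf_iff.symm

/-- The matrix. -/
def Pm (psi : D0 4) (h B c z r y : M) : Prop :=
  ∀ q₀, q₀ ∈ (SigB.om : M) → ∀ q₁, q₁ ∈ (SigB.om : M) → ∀ q₂, q₂ ∈ (SigB.om : M) →
    (¬ Wf (Xs (dec y SigB.em)) (rl (dec y SigB.em))) ∨
    ((Xt (dec y SigB.em) ∧ Nh h (dec y SigB.em) (dec y on) ∧
      Rh (Qr h B r) (dec y SigB.em) (dec y on) q₁ ∧ Rh (Qz h z) (dec y SigB.em) (dec y on) q₂ ∧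
      Dm (dec y SigB.em) q₀) → Sat (dec y SigB.em) psi ![q₀, q₁, q₂, ap (dec y on) c])

theorem an_Pm (psi : D0 4) (h B : M) {c : M} (hc : c ∈ (SigB.om : M)) :
    An (![true, true, true] : Fin 3 → Bool)
      fun v : Fin 3 → M => Pm psi h B c (v 0) (v 1) (v 2) := by
  unfold Pm
  refine An.all_om (R := fun q₀ (v : Fin 3 → M) => ∀ q₁, q₁ ∈ (SigB.om : M) →
    ∀ q₂, q₂ ∈ (SigB.om : M) →
    (¬ Wf (Xs (dec (v 2) SigB.em)) (rl (dec (v 2) SigB.em))) ∨
    ((Xt (dec (v 2) SigB.em) ∧ Nh h (dec (v 2) SigB.em) (dec (v 2) on) ∧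
      Rh (Qr h B (v 1)) (dec (v 2) SigB.em) (dec (v 2) on) q₁ ∧
      Rh (Qz h (v 0)) (dec (v 2) SigB.em) (dec (v 2) on) q₂ ∧
      Dm (dec (v 2) SigB.em) q₀) →
      Sat (dec (v 2) SigB.em) psi ![q₀, q₁, q₂, ap (dec (v 2) on) c])) ?_
  refine An.all_om (R := fun q₁ (v : Fin 4 → M) => ∀ q₂, q₂ ∈ (SigB.om : M) →
    (¬ Wf (Xs (dec (v 3) SigB.em)) (rl (dec (v 3) SigB.em))) ∨
    ((Xt (dec (v 3) SigB.em) ∧ Nh h (dec (v 3) SigB.em) (dec (v 3) on) ∧
      Rh (Qr h B (v 2)) (dec (v 3) SigB.em) (dec (v 3) on) q₁ ∧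
      Rh (Qz h (v 1)) (dec (v 3) SigB.em) (dec (v 3) on) q₂ ∧
      Dm (dec (v 3) SigB.em) (v 0)) →
      Sat (dec (v 3) SigB.em) psi ![v 0, q₁, q₂, ap (dec (v 3) on) c])) ?_
  refine An.all_om (R := fun q₂ (v : Fin 5 → M) =>
    (¬ Wf (Xs (dec (v 4) SigB.em)) (rl (dec (v 4) SigB.em))) ∨
    ((Xt (dec (v 4) SigB.em) ∧ Nh h (dec (v 4) SigB.em) (dec (v 4) on) ∧
      Rh (Qr h B (v 3)) (dec (v 4) SigB.em) (dec (v 4) on) (v 0) ∧
      Rh (Qz h (v 2)) (dec (v 4) SigB.em) (dec (v 4) on) q₂ ∧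
      Dm (dec (v 4) SigB.em) (v 1)) →
      Sat (dec (v 4) SigB.em) psi ![v 1, v 0, q₂, ap (dec (v 4) on) c])) ?_
  -- the context: `q₂, q₁, q₀, z, r, y`
  have e : (Fin.cons false (Fin.cons false (Fin.cons false ![true, true, true])) :
      Fin 6 → Bool) = ![false, false, false, true, true, true] := rfl
  show An (Fin.cons false (Fin.cons false (Fin.cons false ![true, true, true])) :
      Fin 6 → Bool) fun w : Fin 6 → M =>
    (¬ Wf (Xs (dec (w 5) SigB.em)) (rl (dec (w 5) SigB.em))) ∨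
    ((Xt (dec (w 5) SigB.em) ∧ Nh h (dec (w 5) SigB.em) (dec (w 5) on) ∧
      Rh (Qr h B (w 4)) (dec (w 5) SigB.em) (dec (w 5) on) (w 1) ∧
      Rh (Qz h (w 3)) (dec (w 5) SigB.em) (dec (w 5) on) (w 0) ∧
      Dm (dec (w 5) SigB.em) (w 2)) →
      Sat (dec (w 5) SigB.em) psi ![w 2, w 1, w 0, ap (dec (w 5) on) c])
  rw [e]
  have hy : Cn (![false, false, false, true, true, true] : Fin 6 → Bool) true
      fun w : Fin 6 → M => dec (w 5) SigB.em := Cn.dec (Cn.var rfl) Cn.zero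
  have ha : Cn (![false, false, false, true, true, true] : Fin 6 → Bool) true
      fun w : Fin 6 → M => dec (w 5) on := Cn.dec (Cn.var rfl) Cn.one
  have h0 : Cn (![false, false, false, true, true, true] : Fin 6 → Bool) false
      fun w : Fin 6 → M => w 0 := Cn.var rfl
  have h1 : Cn (![false, false, false, true, true, true] : Fin 6 → Bool) false
      fun w : Fin 6 → M => w 1 := Cn.var rfl
  have h2 : Cn (![false, false, false, true, true, true] : Fin 6 → Bool) false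
      fun w : Fin 6 → M => w 2 := Cn.var rfl
  refine An.or (an_not_wf hy) (Bo.imp (Bo.and (bo_Xt hy) (Bo.and (bo_Nh h hy ha)
    (Bo.and (bo_Rh (Q := fun w m => Qr h B (w 4) m) ?_ hy ha h1) (Bo.and
      (bo_Rh (Q := fun w m => Qz h (w 3) m) ?_ hy ha h0) (bo_Dm hy h2)))))
    (bo_Sat4 psi hy h2 h1 h0 (Cn.ap ha (Cn.con hc)))).1
  · exact bo_Qr h B (Cn.var rfl) (Cn.var rfl)
  · exact bo_Qz h (Cn.var rfl) (Cn.var rfl)

/-- The set of the reals `z` such that for some real `r` and for all reals `y` the analytic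
predicate `P` holds of `z, r, y` is a `Σ¹₃` set. -/
theorem sigma3_of_an {P : (Fin 3 → M) → Prop} (h : An (![true, true, true] : Fin 3 → Bool) P) :
    ∃ T : M, ∀ z, z ∈ fs (SigB.om : M) SigB.om → (SigT T z ↔
      ∃ r, r ∈ (RR : M) ∧ ∀ y, y ∈ (RR : M) → P ![z, r, y]) := by
  obtain ⟨C, hC, hP⟩ := h
  have hD : Dfn (fun w : Fin 4 → M => C (w 0) ![w 1, w 2, w 3]) := by
    refine hC.dfn.congr fun w => ?_
    have : (fun i : Fin 3 => w i.succ) = ![w 1, w 2, w 3] := by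
      funext i; fin_cases i <;> rfl
    rw [this]
  have hD' : ∀ {n : ℕ} {s t r q : (Fin n → M) → M}, DT s → DT t → DT r → DT q →
      Dfn fun v => C (s v) ![t v, r v, q v] := fun hs ht hr hq =>
    dfn4 (R := fun a b c d => C a ![b, c, d]) hD hs ht hr hq
  have hty : ∀ z r y : M, z ∈ (RR : M) → r ∈ (RR : M) → y ∈ (RR : M) →
      TyV (![true, true, true] : Fin 3 → Bool) ![z, r, y] := by
    intro z r y hz hr hy i
    fin_cases i
    · exact hz
    · exact hr
    · exact hy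
  let A : M := sp RR fun z => ∃ r, r ∈ (RR : M) ∧ ∀ y, y ∈ (RR : M) → ∃ u, u ∈ (RR : M) ∧
    C u ![z, r, y]
  have hA : ∀ z, z ∈ A ↔ z ∈ (RR : M) ∧ ∃ r, r ∈ (RR : M) ∧ ∀ y, y ∈ (RR : M) →
      ∃ u, u ∈ (RR : M) ∧ C u ![z, r, y] := by
    intro z
    exact mem_sp (by simp (maxDischargeDepth := 50) [hD'])
  let Q : M → Prop := fun t => ∃ z r y u, t = qd z r y u ∧ C u ![z, r, y]
  have hQ : Dfn (fun w : Fin 1 → M => Q (w 0)) := by
    simp (maxDischargeDepth := 50) [Q, hD']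
  have hC4 : ∀ z r y u : M, qd z r y u ∈ sp (pd RR (pd RR (pd RR RR))) Q ↔
      (z ∈ (RR : M) ∧ r ∈ (RR : M) ∧ y ∈ (RR : M) ∧ u ∈ (RR : M)) ∧ C u ![z, r, y] := by
    intro z r y u
    rw [mem_sp hQ]
    unfold qd
    rw [op_mem_pd, op_mem_pd, op_mem_pd]
    refine and_congr_right fun _ => ?_
    constructor
    · rintro ⟨z', r', y', u', h1, h2⟩
      have h3 : qd z r y u = qd z' r' y' u' := h1
      rw [qd_inj] at h3
      obtain ⟨rfl, rfl, rfl, rfl⟩ := h3
      exact h2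
    · exact fun h2 => ⟨z, r, y, u, rfl, h2⟩
  have hS : IsSigma3 A := by
    refine ⟨sp (pd RR (pd RR (pd RR RR))) Q, ⟨?_, ?_⟩, ?_⟩
    · intro t ht
      obtain ⟨z, r, y, u, rfl, -⟩ := ((mem_sp hQ).1 ht).2
      obtain ⟨⟨h1, h2, h3, h4⟩, -⟩ := (hC4 z r y u).1 ht
      exact ⟨z, r, y, u, isReal_iff.2 h1, isReal_iff.2 h2, isReal_iff.2 h3, isReal_iff.2 h4,
        isQuad_iff.2 rfl⟩
    · intro t x y z w hx hy hz hw ht hne
      rw [isReal_iff] at hx hy hz hw
      rw [isQuad_iff] at ht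
      subst ht
      have hne' : ¬ C w ![x, y, z] := fun h => hne ((hC4 x y z w).2 ⟨⟨hx, hy, hz, hw⟩, h⟩)
      obtain ⟨j, hj, h1⟩ := hC.cl w _ hw (hty x y z hx hy hz) hne'
      refine ⟨SigB.om, j, isOmega_iff.2 rfl, hj, fun t' x' y' z' w' ht' ax ay az aw hmem => ?_⟩
      rw [isQuad_iff] at ht'
      subst ht'
      obtain ⟨⟨hx', hy', hz', hw'⟩, h2⟩ := (hC4 _ _ _ _).1 hmem
      have key : ∀ p q : M, p ∈ (RR : M) → q ∈ (RR : M) → Agree p q j → Nr true j p q := by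
        intro p q hp hq hag i hi
        have hio : i ∈ (SigB.om : M) := om_ord.trans hi hj
        have h3 := (hag i (ap p i) hi).1
          (val_iff.2 (((mem_RR.1 hp).1.op_mem_iff hio).2 rfl))
        exact (((mem_RR.1 hq).1.op_mem_iff hio).1 (val_iff.1 h3)).symm
      refine h1 w' _ hw' (hty x' y' z' hx' hy' hz') (key w w' hw hw' aw) (fun i => ?_) h2
      fin_cases i
      · exact key x x' hx hx' ax
      · exact key y y' hy hy' ay
      · exact key z z' hz hz' az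
    · intro z
      rw [hA z, isReal_iff]
      refine and_congr_right fun hz => ?_
      constructor
      · rintro ⟨r, hr, h1⟩
        refine ⟨r, isReal_iff.2 hr, fun y hy => ?_⟩
        rw [isReal_iff] at hy
        obtain ⟨u, hu, h2⟩ := h1 y hy
        exact ⟨u, qd z r y u, isReal_iff.2 hu, isQuad_iff.2 rfl,
          (hC4 z r y u).2 ⟨⟨hz, hr, hy, hu⟩, h2⟩⟩
      · rintro ⟨r, hr, h1⟩
        rw [isReal_iff] at hr
        refine ⟨r, hr, fun y hy => ?_⟩
        obtain ⟨u, t, hu, ht, h2⟩ := h1 y (isReal_iff.2 hy)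
        rw [isReal_iff] at hu
        rw [isQuad_iff] at ht
        subst ht
        exact ⟨u, hu, ((hC4 _ _ _ _).1 h2).2⟩
  obtain ⟨T, hT⟩ := isSigma3_iff.1 hS
  refine ⟨T, fun z hz => ?_⟩
  have h1 : SigT T z ↔ z ∈ A := by rw [hT z]; exact ⟨fun h => ⟨hz, h⟩, fun h => h.2⟩
  rw [h1, hA z]
  constructor
  · rintro ⟨-, r, hr, h2⟩
    exact ⟨r, hr, fun y hy => (hP _ (hty z r y hz hr hy)).2 (h2 y hy)⟩
  · rintro ⟨r, hr, h2⟩
    exact ⟨hz, r, hr, fun y hy => (hP _ (hty z r y hz hr hy)).1 (h2 y hy)⟩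

end Pool.Agent.Sep
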