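import Pool.Agent.Work.MP_1b3f07_lc.LemOne

/-!
# No unwanted codes: the combinatorial core, form for labels

The second form of the combinatorial core: the information `Δ` on the real `w'` is any finite set of
decisions, and the decision `σ` on a coded real may contradict `Δ`.
-/

namespace Pool.Agent.Sep3

variable {C J T Pr Sq Inf Bd : Type*}

/-- The property of the index `π'` that some condition of `M` compatible with `q`, with the branch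
of `π₀` replaced by the branch of `π'`, puts a node `u` of the branch of `π'` with `hi m u` into
`r`. -/
def Wp (A : Atoms C J T Pr) {W : J → C → Sq → Prop} (c : Pr → Sq → Prop) (M : SubM A W)
    (R : C → T → Prop) (hi : Bd → T → Prop) (q : C) (π₀ : Pr) (m : Bd) (π' : Pr) : Prop :=
  ∃ u a t, hi m u ∧ A.on u π' ∧ R a u ∧ A.Ok W c t ∧ M.MC t ∧ A.Le t a ∧
    (∀ j v, A.nd q j v → M.MJ j → A.nd t j v) ∧
    (∀ j π, A.pr q j π → M.MJ j → M.low π → A.pr t j π) ∧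
    (∀ j v π, A.nd t j v → ¬ A.nd q j v → A.pr q j π → M.low π → ¬ A.on v π) ∧
    ∀ j v π, A.nd t j v → ¬ A.nd q j v → A.pr q j π → ¬ M.low π →
      (π = π₀ → ¬ A.on v π') ∧ (π ≠ π₀ → ¬ A.on v π)

variable {A : Atoms C J T Pr} {W : J → C → Sq → Prop} {c : Pr → Sq → Prop} {M : SubM A W}

/-- **No unwanted codes** (combinatorial core, form for labels): no condition `p` forces that `r`
codes `w'` and that `w'` is different from all coded reals. -/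
theorem no_unwanted_codes' (cl : Clo A M) {c0 : Pr → Inf → Prop}
    -- the name `r` of a set of nodes and the information on the real `w'`
    {R : C → T → Prop} (hR : ∀ a u, R a u → M.MC a)
    {W' : C → Inf → Prop}
    (hW' : ∀ q s Δ, W' q Δ → (∀ a, M.MC a → A.Le q a → A.Le s a) → W' s Δ)
    {rel : Sq → Inf → Prop} {good : Inf → Prop} {hi : Bd → T → Prop}
    {p : C} (hpM : M.MC p) {π₀ : Pr} (hπ : ¬ M.low π₀)
    -- some `q ≤ p` bounds the intersection of `r` with the branch of `π₀`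
    (F1 : ∃ q m, A.Ok W c q ∧ A.Le q p ∧ ∀ u, hi m u → A.on u π₀ → ¬ A.Pos W c R q u)
    -- `c_π(w') = 0` implies that the intersection with the branch of `π` is infinite
    (F2 : ∀ q π Δ, A.Ok W c q → A.Le q p → W' q Δ → c0 π Δ →
      ¬ ∃ m, ∀ u, hi m u → A.on u π → ¬ A.Pos W c R q u)
    -- `w'` is different from the coded reals
    (F3 : ∀ q, A.Ok W c q → A.Le q p → ∃ q' Δ, A.Ok W c q' ∧ A.Le q' q ∧ W' q' Δ ∧ good Δ ∧
      ∀ j, M.MJ j → A.pr q j π₀ → ∃ a σ, W j a σ ∧ A.Le q' a ∧ rel σ Δ)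
    -- genericity of the branch of `π₀`
    (G4 : ∀ q m, A.Ok W c q → ¬ Wp A c M R hi q π₀ m π₀ →
      ∃ τ, A.on τ π₀ ∧ ∀ π', A.on τ π' → ¬ Wp A c M R hi q π₀ m π')
    -- the labels
    (G5 : ∀ τ Δ, A.on τ π₀ → good Δ → ∃ π', A.on τ π' ∧
      (∀ σ, rel σ Δ → c π' σ) ∧ c0 π' Δ) : False := by
  obtain ⟨q1, m, hq1, hq1p, hq1m⟩ := F1
  obtain ⟨q2, Δ, hq2, hq21, hq2a, hgood, hq2j⟩ := F3 q1 hq1 hq1p
  obtain ⟨t, htM, ht⟩ := cl.trace q2
  obtain ⟨q, hq⟩ := cl.union t q1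
  -- the condition `q = t ∪ q1`
  obtain ⟨hqO, hqt, hqq⟩ := amalg hq1 (ok_trace hq2 ht) htM
    (fun j v h1 h2 => (ht.1 j v).2 ⟨hq21.nd j v h1, h2⟩)
    (fun j v π h1 h2 h3 => hq21.new j v π ((ht.1 j v).1 h1).1 h2 h3) hq
  have hqp : A.Le q p := hqq.trans hq1p
  have hqM : ∀ a, M.MC a → A.Le q2 a → A.Le q a := fun a ha h =>
    hqt.trans (le_of_trace ht ha h)
  have hqm : ∀ u, hi m u → A.on u π₀ → ¬ A.Pos W c R q u := by
    rintro u hl hu ⟨q', a, h1, h2, h3, h4⟩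
    exact hq1m u hl hu ⟨q', a, h1, h2.trans hqq, h3, h4⟩
  have hqj : ∀ j, M.MJ j → A.pr q j π₀ → ∃ a σ, W j a σ ∧ A.Le q a ∧ rel σ Δ := by
    intro j hj hp
    have h1 : A.pr q1 j π₀ := by
      rcases (hq.2 j π₀).1 hp with h | h
      · exact absurd ((ht.2 j π₀).1 h).2.2 hπ
      · exact h
    obtain ⟨a, σ, h2, h3, h4⟩ := hq2j j hj h1
    exact ⟨a, σ, h2, hqM a (M.name j a σ hj h2) h3, h4⟩
  have hqa : W' q Δ := hW' q2 q Δ hq2a hqM
  -- the branch of `π₀` is not in the open set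
  have hWo : ¬ Wp A c M R hi q π₀ m π₀ := by
    rintro ⟨u, a, s, hl, hu, hRa, hsO, hsM, hsa, h1, h2, h3, h4⟩
    obtain ⟨v, hv⟩ := cl.union s q
    obtain ⟨hvO, hvs, hvq⟩ := amalg hqO hsO hsM h1 (fun j v π h5 h6 h7 => by
      by_cases hlow : M.low π
      · exact h3 j v π h5 h6 h7 hlow
      · by_cases hπ0 : π = π₀
        · rw [hπ0]
          exact (h4 j v π h5 h6 h7 hlow).1 hπ0
        · exact (h4 j v π h5 h6 h7 hlow).2 hπ0) hv
    exact hqm u hl hu ⟨v, a, hvO, hvq, hRa, hvs.trans hsa⟩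
  obtain ⟨τ, hτ, hL⟩ := G4 q m hqO hWo
  obtain ⟨π', hsame, hπ1, hπ0⟩ := G5 τ Δ hτ hgood
  obtain ⟨s, hs⟩ := cl.swap q π₀ π'
  -- the condition `s`
  have hsM : ∀ a, M.MC a → A.Le q a → A.Le s a := by
    intro a ha h
    refine ⟨fun j u hu => (hs.1 j u).2 ⟨h.nd j u hu, M.nd a j u ha hu⟩, fun j π hp => ?_,
      fun j u π hu hn hp => h.new j u π ((hs.1 j u).1 hu).1 hn hp⟩
    refine (hs.2 j π).2 ⟨(M.pr a j π ha hp).1, Or.inl ⟨h.pr j π hp, ?_⟩⟩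
    rintro rfl
    exact hπ (M.pr a j _ ha hp).2
  have hsO : A.Ok W c s := by
    intro j π hp
    obtain ⟨hj, ⟨h1, -⟩ | ⟨h1, rfl⟩⟩ := (hs.2 j π).1 hp
    · obtain ⟨a, σ, h3, h4, h5⟩ := hqO j π h1
      exact ⟨a, σ, h3, hsM a (M.name j a σ hj h3) h4, h5⟩
    · obtain ⟨a, σ, h3, h4, h5⟩ := hqj j hj h1
      exact ⟨a, σ, h3, hsM a (M.name j a σ hj h3) h4, hπ1 σ h5⟩
  refine F2 s π' Δ hsO (hsM p hpM hqp) (hW' q s Δ hqa hsM) hπ0
    ⟨m, fun u hl hu hpos => ?_⟩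
  obtain ⟨q'', a, h1, h2, h3, h4⟩ := hpos
  obtain ⟨t', htM', ht'⟩ := cl.trace q''
  refine hL π' hsame ⟨u, a, t', hl, hu, h3, ok_trace h1 ht', htM',
    le_of_trace ht' (hR _ _ h3) h4, fun j v h5 h6 => ?_, fun j π h5 h6 h7 => ?_,
    fun j v π h5 h6 h7 h8 => ?_, fun j v π h5 h6 h7 h8 => ⟨fun h9 => ?_, fun h9 => ?_⟩⟩
  · exact (ht'.1 j v).2 ⟨h2.nd j v ((hs.1 j v).2 ⟨h5, h6⟩), h6⟩
  · refine (ht'.2 j π).2 ⟨h2.pr j π ((hs.2 j π).2 ⟨h6, Or.inl ⟨h5, ?_⟩⟩), h6, h7⟩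
    rintro rfl
    exact hπ h7
  · obtain ⟨h9, h10⟩ := (ht'.1 j v).1 h5
    refine h2.new j v π h9 (fun h11 => h6 ((hs.1 j v).1 h11).1)
      ((hs.2 j π).2 ⟨h10, Or.inl ⟨h7, ?_⟩⟩)
    rintro rfl
    exact hπ h8
  · obtain ⟨h10, h11⟩ := (ht'.1 j v).1 h5
    rw [h9] at h7
    exact h2.new j v π' h10 (fun h12 => h6 ((hs.1 j v).1 h12).1)
      ((hs.2 j π').2 ⟨h11, Or.inr ⟨h7, rfl⟩⟩)
  · obtain ⟨h10, h11⟩ := (ht'.1 j v).1 h5
    exact h2.new j v π h10 (fun h12 => h6 ((hs.1 j v).1 h12).1)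
      ((hs.2 j π).2 ⟨h11, Or.inl ⟨h7, h9⟩⟩)

end Pool.Agent.Sep3
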