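import Pool.Agent.Sep.LemOneA
import Pool.Agent.Sep.Kst

/-!
# No unwanted codes: preparations

Finite restrictions of branches, the finite sets of atoms as a type, and the dense sets of tuples of
nodes.
-/

universe u

set_option linter.unusedSectionVars false

namespace Pool.Agent.Sep

open Pool.Agent.SigB Pool.Agent.Forc Pool.Agent.Frc

variable {M : Type u} [Membership M M] [IsZFC M]

/-! ### Restrictions of branches -/

/-- The restriction of the branch `x` to `n`. -/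
noncomputable def cut (x n : M) : M := lam n fun i => ap x i

theorem cut.dt : DT (fun w : Fin 2 → M => cut (w 0) (w 1)) := by
  unfold cut; simp (maxDischargeDepth := 50)

@[simp] theorem dt_cut {n : ℕ} {s t : (Fin n → M) → M} (hs : DT s) (ht : DT t) :
    DT (fun v => cut (s v) (t v)) := dt2 cut.dt hs ht

/-- The sequences `v` and `x` have different values at some place. -/
def Off (v x : M) : Prop := ∃ i y z, op i y ∈ v ∧ op i z ∈ x ∧ y ≠ z

theorem Off.dfn : Dfn (fun w : Fin 2 → M => Off (w 0) (w 1)) := by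
  unfold Off; simp (maxDischargeDepth := 50)

@[simp] theorem dfn_Off {n : ℕ} {s t : (Fin n → M) → M} (hs : DT s) (ht : DT t) :
    Dfn (fun v => Off (s v) (t v)) := dfn2 Off.dfn hs ht

/-- The node `u` has length at least `m`. -/
def Hi (m u : M) : Prop := ¬ ∃ n, n ∈ m ∧ Fn u n

theorem Hi.dfn : Dfn (fun w : Fin 2 → M => Hi (w 0) (w 1)) := by
  unfold Hi; simp (maxDischargeDepth := 50)

@[simp] theorem dfn_Hi {n : ℕ} {s t : (Fin n → M) → M} (hs : DT s) (ht : DT t) :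
    Dfn (fun v => Hi (s v) (t v)) := dfn2 Hi.dfn hs ht

theorem dt_apx (x : M) : DT (fun w : Fin 1 → M => ap x (w 0)) := by
  simp (maxDischargeDepth := 50)

theorem op_mem_cut {x n i y : M} : op i y ∈ cut x n ↔ i ∈ n ∧ y = ap x i :=
  op_mem_lam (dt_apx x)

theorem cut_mem {x n : M} (hx : x ∈ fs (om : M) om) (hn : n ∈ (om : M)) : cut x n ∈ fs n om :=
  lam_mem_fs (dt_apx x) fun i hi => (mem_fs.1 hx).2 i (om_ord.trans hi hn)

theorem cut_mem_Sq {x n : M} (hx : x ∈ fs (om : M) om) (hn : n ∈ (om : M)) :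
    cut x n ∈ (Sq : M) := mem_Sq.2 ⟨n, hn, cut_mem hx hn⟩

theorem sb_cut {x n v l : M} (hx : x ∈ fs (om : M) om) (hn : n ∈ (om : M)) (hv : v ∈ fs l (om : M))
    (hl : Sb l n) (h : Sb v x) : Sb v (cut x n) := by
  intro z hz
  obtain ⟨i, hi, rfl⟩ := (mem_fs.1 hv).1.mem_iff.1 hz
  refine op_mem_cut.2 ⟨hl i hi, ?_⟩
  exact (((mem_fs.1 hx).1.op_mem_iff (om_ord.trans (hl i hi) hn)).1 (h _ hz)).symm

theorem off_cut {x n v l : M} (hx : x ∈ fs (om : M) om) (hn : n ∈ (om : M)) (hv : v ∈ fs l (om : M))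
    (hl : Sb l n) (h : ¬ Sb v x) : Off v (cut x n) := by
  classical
  by_contra hcon
  refine h fun z hz => ?_
  obtain ⟨i, hi, rfl⟩ := (mem_fs.1 hv).1.mem_iff.1 hz
  have h1 : ap v i = ap x i := by
    by_contra hne
    exact hcon ⟨i, _, _, hz, op_mem_cut.2 ⟨hl i hi, rfl⟩, hne⟩
  exact ((mem_fs.1 hx).1.op_mem_iff (om_ord.trans (hl i hi) hn)).2 h1.symm

theorem Off.not_sb {x v y : M} (h : Off v y) (hx : x ∈ fs (om : M) om) (hy : Sb y x) :
    ¬ Sb v x := by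
  rintro hv
  obtain ⟨i, a, b, h1, h2, h3⟩ := h
  obtain ⟨j, hj, he⟩ := (mem_fs.1 hx).1.mem_iff.1 (hv _ h1)
  obtain ⟨rfl, rfl⟩ := op_inj.1 he
  exact h3 (((mem_fs.1 hx).1.op_mem_iff hj).1 (hy _ h2))

/-- The lengths of the elements of a finite set of finite sequences are bounded. -/
theorem len_bdd {S : M} (hS : Fte S) (h : Sb S Sq) : ∃ n, n ∈ (om : M) ∧
    ∀ v, v ∈ S → ∃ l, v ∈ fs l (om : M) ∧ Sb l n := by
  refine fte_ind (P := fun S => Sb S Sq → ∃ n, n ∈ (om : M) ∧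
    ∀ v, v ∈ S → ∃ l, v ∈ fs l (om : M) ∧ Sb l n) (by simp (maxDischargeDepth := 50)) ?_ ?_ hS h
  · exact fun _ => ⟨SigB.em, em_mem_om, fun v hv => (not_mem_em _ hv).elim⟩
  · intro S a _ _ ih h
    obtain ⟨n, hn, h1⟩ := ih fun z hz => h z (mem_ins.2 (Or.inl hz))
    obtain ⟨l, hl, h2⟩ := mem_Sq.1 (h a (mem_ins.2 (Or.inr rfl)))
    refine ⟨un n l, un_mem_om hn hl, fun v hv => ?_⟩
    rcases mem_ins.1 hv with hv | rfl
    · obtain ⟨l', h3, h4⟩ := h1 v hv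
      exact ⟨l', h3, fun z hz => mem_un.2 (Or.inl (h4 z hz))⟩
    · exact ⟨l, h2, fun z hz => mem_un.2 (Or.inr hz)⟩

/-! ### Elements of good countable sets -/

theorem Fte.le_om' {x : M} (h : Fte x) : Forc.Le x (om : M) := by
  obtain ⟨n, hn, h⟩ := h
  exact h.mono_right (om_ord.sb hn)

theorem fte_pr (x y : M) : Fte (pr x y) := by
  have h : pr x y = ins (pr x x) y := ext' fun z => by
    rw [mem_ins, mem_pr, mem_pr, or_self]
  rw [h]
  exact (fte_single x).ins y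

namespace Hull

variable {H ξ : M} (h : Hull H ξ)

include h

theorem sub_fte {x : M} (hx : x ∈ H) (hf : Fte x) : Sb x H := h.sub x hx hf.le_om'

theorem op_mem {x y : M} : op x y ∈ H ↔ x ∈ H ∧ y ∈ H := by
  refine ⟨fun h1 => ?_, fun h1 => h.ad.op h1.1 h1.2⟩
  have h2 : Fte (op x y) := fte_pr _ _
  have h3 := h.sub_fte h1 h2
  have h4 : pr x x ∈ H := h3 _ (by unfold op; simp)
  have h5 : pr x y ∈ H := h3 _ (by unfold op; simp)
  exact ⟨h.sub_fte h4 (fte_pr _ _) x (by simp), h.sub_fte h5 (fte_pr _ _) y (by simp)⟩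

theorem mem_of_fte {x : M} (hx : Fte x) (hs : Sb x H) : x ∈ H :=
  Sep.mem_of_fte h.ad.1 (fun a b ha hb => h.ad.2 a b ha hb) hx hs

theorem om_sb : Sb (om : M) H := h.ad.om

theorem Sq_sb : Sb (Sq : M) H := h.ad.Sq

theorem nd_mem {j u : M} (hu : u ∈ (Sq : M)) : nd j u ∈ H ↔ j ∈ H := by
  unfold nd
  rw [h.op_mem]
  exact ⟨fun h1 => h1.1, fun h1 => ⟨h1, h.ad.op h.ad.1 (h.Sq_sb _ hu)⟩⟩

theorem pm_mem {j a : M} : pm j a ∈ H ↔ j ∈ H ∧ a ∈ H := by
  unfold pm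
  rw [h.op_mem, h.op_mem]
  exact ⟨fun h1 => ⟨h1.1, h1.2.2⟩, fun h1 => ⟨h1.1, h.om_sb _ (sc_mem_om em_mem_om), h1.2⟩⟩

end Hull

/-! ### The dense sets -/

/-- Some condition `t` of the set `P` below `s` and below a condition which puts into the name `r`
a node `u` of length at least `m` on the sequence `d i₀` adds only nodes which are not on the
sequences `d i` with `(j, i) ∈ pt`. -/
def Phi (K : Cst M) (P r s m pt i₀ d : M) : Prop :=
  ∃ t, t ∈ P ∧ Lq K t s ∧ (∃ u b, op u b ∈ r ∧ Hi m u ∧ u ∈ (Sq : M) ∧ Sb u (ap d i₀) ∧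
    Lq K t b) ∧ ∀ j v i, nd j v ∈ t → nd j v ∉ s → op j i ∈ pt → Off v (ap d i)

/-- The dense set given by `Phi`. -/
noncomputable def DPhi (K : Cst M) (P r s m pt i₀ k : M) : M :=
  sp (fs k Sq) fun d => Phi K P r s m pt i₀ d ∨
    ∀ d', d' ∈ fs k (Sq : M) → (∀ i, i ∈ k → Sb (ap d i) (ap d' i)) → ¬ Phi K P r s m pt i₀ d'

theorem mem_DPhi {K : Cst M} {P r s m pt i₀ k d : M} : d ∈ DPhi K P r s m pt i₀ k ↔
    d ∈ fs k (Sq : M) ∧ (Phi K P r s m pt i₀ d ∨ ∀ d', d' ∈ fs k (Sq : M) →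
      (∀ i, i ∈ k → Sb (ap d i) (ap d' i)) → ¬ Phi K P r s m pt i₀ d') := by
  unfold DPhi Phi
  exact mem_sp (by simp (maxDischargeDepth := 80))

theorem DPhi.dt (K : Cst M) (P r : M) : DT (fun w : Fin 2 → M =>
    DPhi K P r (fst (w 1)) (fst (snd (w 1))) (fst (snd (snd (w 1))))
      (fst (snd (snd (snd (w 1))))) (snd (snd (snd (snd (w 1)))))) := by
  unfold DPhi Phi
  simp (maxDischargeDepth := 100)

theorem dns_DPhi {K : Cst M} {P r s m pt i₀ k : M} : Dns k (DPhi K P r s m pt i₀ k) := by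
  classical
  intro t ht
  by_cases h : ∃ d', d' ∈ fs k (Sq : M) ∧ (∀ i, i ∈ k → Sb (ap t i) (ap d' i)) ∧
      Phi K P r s m pt i₀ d'
  · obtain ⟨d', h1, h2, h3⟩ := h
    exact ⟨d', mem_DPhi.2 ⟨h1, Or.inl h3⟩, h1, h2⟩
  · push Not at h
    exact ⟨t, mem_DPhi.2 ⟨ht, Or.inr fun d' h1 h2 => h d' h1 h2⟩, ht, fun i _ => Sb.refl _⟩

end Pool.Agent.Sep
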