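import Pool.Agent.Sep.LemOneB
import Pool.Agent.Sep.Codes
import Pool.Agent.Sep.Rul

/-!
# No unwanted codes: the theorem for systems

No condition forces that a name `r` codes a word which is different from the words of all steps.
-/

universe u

set_option linter.unusedSectionVars false

namespace Pool.Agent.Sep.L1

open Pool.Agent.SigB Pool.Agent.Forc Pool.Agent.Frc

variable {M : Type u} [Membership M M] [IsZFC M]

/-- `q` forces that the elements of `r` on the branch `a` are bounded by `m`. -/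
def NoC (K : Cst M) (X r q a m : M) : Prop :=
  ∀ q' u b, q' ∈ PX K X → Lq K q' q → op u b ∈ r → Lq K q' b → op u a ∈ K.on →
    ∃ n, n ∈ m ∧ Fn u n

/-- The condition `q` decides that the elements of `c` belong to the word `w` and that the elements of
`d` do not belong to `w`. -/
def Dcd (K : Cst M) (w q c d : M) : Prop :=
  (∀ y, y ∈ c → ∃ b, op (op y (sc SigB.em)) b ∈ w ∧ Lq K q b) ∧
    ∀ y, y ∈ d → ∃ b, op (op y SigB.em) b ∈ w ∧ Lq K q b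

/-- The condition `p` forces that `r` codes the word `w` and that `w` is different from the words of
the steps. -/
structure Bad (K : Cst M) (X r w p : M) : Prop where
  h1 : ∀ a, a ∈ K.ix → lb a = SigB.em → ∃ q m, q ∈ PX K X ∧ Lq K q p ∧ m ∈ (om : M) ∧
    NoC K X r q a m
  h2 : ∀ q a c d m, q ∈ PX K X → Lq K q p → a ∈ K.ix → lb a = op c d → m ∈ (om : M) →
    Dcd K w q c d → ¬ NoC K X r q a m
  h3 : ∀ q j σ b, q ∈ PX K X → Lq K q p → j ∈ dm X → op σ b ∈ fW X j → Lq K q b →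
    ∃ q' y e e' b b', q' ∈ PX K X ∧ Lq K q' q ∧ e ≠ e' ∧ op (op y e) b ∈ fW X j ∧ Lq K q' b ∧
      op (op y e') b' ∈ w ∧ Lq K q' b'

section order

variable {K : Cst M} {X p q r : M}

theorem lq_refl (K : Cst M) (p : M) : Lq K p p := ⟨Sb.refl p, fun _ _ _ h h' => absurd h h'⟩

theorem lq_trans (h : Lq K r q) (h' : Lq K q p) : Lq K r p := by
  classical
  refine ⟨h'.1.trans h.1, fun j u a h1 h2 h3 => ?_⟩
  by_cases h4 : nd j u ∈ q
  · exact h'.2 j u a h4 h2 h3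
  · exact h.2 j u a h1 h4 (h'.1 _ h3)

theorem mem_atm_nd {j u : M} : nd j u ∈ atm K ↔ j ∈ K.lab ∧ u ∈ K.T := by
  rw [mem_atm]
  constructor
  · rintro (⟨j', u', h1, h2, h3⟩ | ⟨j', a, h1, h2, h3⟩)
    · obtain ⟨rfl, rfl⟩ := nd_inj.1 h3
      exact ⟨h1, h2⟩
    · exact (nd_ne_pm h3).elim
  · exact fun h => Or.inl ⟨j, u, h.1, h.2, rfl⟩

theorem mem_atm_pm {j a : M} : pm j a ∈ atm K ↔ j ∈ K.lab ∧ a ∈ K.ix := by
  rw [mem_atm]
  constructor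
  · rintro (⟨j', u', h1, h2, h3⟩ | ⟨j', a, h1, h2, h3⟩)
    · exact (nd_ne_pm h3.symm).elim
    · obtain ⟨rfl, rfl⟩ := pm_inj.1 h3
      exact ⟨h1, h2⟩
  · exact fun h => Or.inr ⟨j, a, h.1, h.2, rfl⟩

end order

/-- The type of the finite sets of atoms with labels in `X`. -/
def Fa (K : Cst M) (X : M) : Type u :=
  {p : M // Sb p (atm K) ∧ Fte p ∧ ∀ z, z ∈ p → fst z ∈ dm X}

/-- The atoms. -/
def AA (K : Cst M) (X : M) : Sep3.Atoms (Fa K X) M M {a : M // a ∈ K.ix} where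
  nd p j u := nd j u ∈ p.1
  pr p j a := pm j a.1 ∈ p.1
  on u a := op u a.1 ∈ K.on

/-- The names of the words. -/
def WW (K : Cst M) (X : M) : M → Fa K X → M → Prop := fun j b σ => op σ b.1 ∈ fW X j ∧ j ∈ dm X

/-- The allowed promises. -/
def CK (K : Cst M) : {a : M // a ∈ K.ix} → M → Prop := fun a σ => op a.1 σ ∈ K.kl

section atoms

variable {K : Cst M} {X : M}

theorem le_iff {q p : Fa K X} : (AA K X).Le q p ↔ Lq K q.1 p.1 := by
  constructor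
  · intro h
    refine ⟨fun z hz => ?_, fun j u a h1 h2 h3 => ?_⟩
    · rcases mem_atm.1 (p.2.1 z hz) with ⟨j, u, -, -, rfl⟩ | ⟨j, a, -, ha, rfl⟩
      · exact h.nd j u hz
      · exact h.pr j ⟨a, ha⟩ hz
    · exact h.new j u ⟨a, (mem_atm_pm.1 (p.2.1 _ h3)).2⟩ h1 h2 h3
  · rintro ⟨h1, h2⟩
    exact ⟨fun j u h => h1 _ h, fun j a h => h1 _ h, fun j u a h3 h4 h5 => h2 j u a.1 h3 h4 h5⟩

theorem ok_iff (hX : IsSys K X) {p : Fa K X} :
    (AA K X).Ok (WW K X) (CK K) p ↔ p.1 ∈ PX K X := by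
  have key : ∀ j σ b, j ∈ dm X → op σ b ∈ fW X j → b ∈ PX K (rs X (fD X j)) := by
    intro j σ b hj h
    obtain ⟨y, e, b', -, -, h1, h2⟩ := (hX.2.2.2 j hj).2.2.2.1.2.1 _ h
    rw [(op_inj.1 h2).2]
    exact h1
  have hlab : ∀ j σ b, j ∈ dm X → op σ b ∈ fW X j → ∀ z, z ∈ b → fst z ∈ fD X j ∧ fst z ∈ dm X := by
    intro j σ b hj h z hz
    have h1 := (mem_PX.1 (key j σ b hj h)).2.1 z hz
    have hcl := hX.cl hj
    rw [dm_rs hX.fn hcl.1] at h1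
    exact ⟨h1, hcl.1 _ h1⟩
  have hrs : ∀ j b, (∀ z, z ∈ b → fst z ∈ fD X j) →
      (Lq K (rs p.1 (fD X j)) b ↔ Lq K p.1 b) := by
    intro j b hb
    have hm : ∀ z, z ∈ rs p.1 (fD X j) ↔ z ∈ p.1 ∧ fst z ∈ fD X j := by
      intro z
      constructor
      · intro hz
        unfold rs at hz
        obtain ⟨h1, x, hx, y, rfl⟩ := (mem_sp (by simp (maxDischargeDepth := 50))).1 hz
        rw [fst_op]
        exact ⟨h1, hx⟩
      · rintro ⟨h1, h2⟩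
        rcases mem_atm.1 (p.2.1 z h1) with ⟨j', u, -, -, rfl⟩ | ⟨j', a, -, -, rfl⟩
        · rw [fst_nd] at h2
          exact op_mem_rs.2 ⟨h1, h2⟩
        · rw [fst_pm] at h2
          exact op_mem_rs.2 ⟨h1, h2⟩
    constructor
    · rintro ⟨h1, h2⟩
      refine ⟨fun z hz => ((hm z).1 (h1 z hz)).1, fun i u a h3 h4 h5 => ?_⟩
      refine h2 i u a ((hm _).2 ⟨h3, ?_⟩) h4 h5
      have := hb _ h5
      rw [fst_pm] at this
      rwa [fst_nd]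
    · rintro ⟨h1, h2⟩
      exact ⟨fun z hz => (hm z).2 ⟨h1 z hz, hb z hz⟩, fun i u a h3 h4 h5 =>
        h2 i u a ((hm _).1 h3).1 h4 h5⟩
  rw [mem_PX]
  constructor
  · intro h
    refine ⟨⟨p.2.1, p.2.2.1⟩, p.2.2.2, fun j a hja => ?_⟩
    obtain ⟨b, σ, ⟨h1, h2⟩, h3, h4⟩ := h j ⟨a, (mem_atm_pm.1 (p.2.1 _ hja)).2⟩ hja
    exact ⟨σ, b.1, h1, (hrs j b.1 fun z hz => (hlab j σ b.1 h2 h1 z hz).1).2 (le_iff.1 h3), h4⟩
  · rintro ⟨-, -, h⟩ j a hja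
    obtain ⟨σ, b, h1, h2, h3⟩ := h j a.1 hja
    have hj : j ∈ dm X := by
      have := p.2.2.2 _ hja
      rwa [fst_pm] at this
    have hb := mem_PX.1 (key j σ b hj h1)
    refine ⟨⟨b, hb.1.1, hb.1.2, fun z hz => (hlab j σ b hj h1 z hz).2⟩, σ, ⟨h1, hj⟩, ?_, h3⟩
    exact le_iff.2 ((hrs j b fun z hz => (hlab j σ b hj h1 z hz).1).1 h2)

/-- A condition as a finite set of atoms. -/
def toFa {p : M} (hp : p ∈ PX K X) : Fa K X :=
  ⟨p, (mem_PX.1 hp).1.1, (mem_PX.1 hp).1.2, (mem_PX.1 hp).2.1⟩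

end atoms


/-! ### The countable set -/

section hull

variable {K : Cst M} {X H ξ : M}

/-- The part of the conditions in `H`. -/
def SM (hK : KS K) (h : Hull H ξ) (hW : ∀ j, j ∈ H → j ∈ dm X → Sb (fW X j) H) :
    Sep3.SubM (AA K X) (WW K X) where
  MJ j := j ∈ H
  low a := a.1 ∈ ξ
  MC a := a.1 ∈ H
  name := fun j a σ hj hw => (h.op_mem.1 (hW j hj hw.2 _ hw.1)).2
  nd := fun a j u ha hn => by
    have h1 := h.sub_fte ha a.2.2.1 _ hn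
    have h2 : u ∈ (Sq : M) := by rw [← hK.T]; exact (mem_atm_nd.1 (a.2.1 _ hn)).2
    exact (h.nd_mem h2).1 h1
  pr := fun a j c ha hn => by
    have h1 := h.pm_mem.1 (h.sub_fte ha a.2.2.1 _ hn)
    obtain ⟨h2, h3⟩ := hK.mem_ix.1 c.2
    exact ⟨h1.1, (h.mem_ξ _).2 ⟨h1.2, h2, h3⟩⟩

theorem mem_nd {p : Fa K X} (hK : KS K) {j u : M} (h : nd j u ∈ p.1) : u ∈ (Sq : M) := by
  rw [← hK.T]; exact (mem_atm_nd.1 (p.2.1 _ h)).2

theorem clo (hK : KS K) (h : Hull H ξ) (hW : ∀ j, j ∈ H → j ∈ dm X → Sb (fW X j) H) :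
    Sep3.Clo (AA K X) (SM hK h hW) where
  trace := fun q => by
    have hd : Dfn (fun w : Fin 1 → M => w 0 ∈ H) := by simp
    have hm : ∀ z, z ∈ sp q.1 (· ∈ H) ↔ z ∈ q.1 ∧ z ∈ H := fun z => mem_sp hd
    refine ⟨⟨sp q.1 (· ∈ H), fun z hz => q.2.1 z ((hm z).1 hz).1, q.2.2.1.sub fun z hz =>
      ((hm z).1 hz).1, fun z hz => q.2.2.2 z ((hm z).1 hz).1⟩, ?_, fun j u => ?_, fun j a => ?_⟩
    · exact h.mem_of_fte (q.2.2.1.sub fun z hz => ((hm z).1 hz).1) fun z hz => ((hm z).1 hz).2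
    · show nd j u ∈ sp q.1 (· ∈ H) ↔ nd j u ∈ q.1 ∧ j ∈ H
      rw [hm]
      exact and_congr_right fun h1 => h.nd_mem (mem_nd hK h1)
    · show pm j a.1 ∈ sp q.1 (· ∈ H) ↔ pm j a.1 ∈ q.1 ∧ j ∈ H ∧ a.1 ∈ ξ
      rw [hm, h.pm_mem]
      refine and_congr_right fun _ => and_congr_right fun _ => ?_
      obtain ⟨h2, h3⟩ := hK.mem_ix.1 a.2
      rw [h.mem_ξ]
      exact ⟨fun h4 => ⟨h4, h2, h3⟩, fun h4 => h4.1⟩
  union := fun t q => by
    refine ⟨⟨un t.1 q.1, fun z hz => ?_, t.2.2.1.un q.2.2.1, fun z hz => ?_⟩, fun j u => ?_,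
      fun j a => ?_⟩
    · exact (mem_un.1 hz).elim (t.2.1 z) (q.2.1 z)
    · exact (mem_un.1 hz).elim (t.2.2.2 z) (q.2.2.2 z)
    · exact mem_un
    · exact mem_un
  swap := fun q a a' => by
    -- the atoms which do not change and the atoms which change
    have hd1 : Dfn (fun w : Fin 1 → M => fst (w 0) ∈ H ∧ w 0 ≠ pm (fst (w 0)) a.1) := by
      simp (maxDischargeDepth := 50)
    have hd2 : Dfn (fun w : Fin 1 → M => fst (w 0) ∈ H ∧ w 0 = pm (fst (w 0)) a.1) := by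
      simp (maxDischargeDepth := 50)
    have hd3 : DT (fun w : Fin 1 → M => pm (fst (w 0)) a'.1) := by simp (maxDischargeDepth := 50)
    obtain ⟨s1, hs1⟩ : ∃ s1, s1 = sp q.1 fun z => fst z ∈ H ∧ z ≠ pm (fst z) a.1 := ⟨_, rfl⟩
    obtain ⟨s2, hs2⟩ : ∃ s2, s2 = im (sp q.1 fun z => fst z ∈ H ∧ z = pm (fst z) a.1)
      fun z => pm (fst z) a'.1 := ⟨_, rfl⟩
    have h1 : ∀ z, z ∈ s1 ↔ z ∈ q.1 ∧ fst z ∈ H ∧ z ≠ pm (fst z) a.1 := fun z => by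
      rw [hs1]; exact mem_sp hd1
    have h2 : ∀ z, z ∈ s2 ↔ ∃ j, pm j a.1 ∈ q.1 ∧ j ∈ H ∧ z = pm j a'.1 := fun z => by
      rw [hs2, mem_im hd3]
      constructor
      · rintro ⟨y, hy, rfl⟩
        obtain ⟨h3, h4, h5⟩ := (mem_sp hd2).1 hy
        exact ⟨fst y, by rw [← h5]; exact h3, h4, rfl⟩
      · rintro ⟨j, h3, h4, rfl⟩
        refine ⟨pm j a.1, (mem_sp hd2).2 ⟨h3, ?_, ?_⟩, ?_⟩
        · rw [fst_pm]; exact h4
        · rw [fst_pm]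
        · rw [fst_pm]
    have hf2 : Fte s2 := by
      rw [hs2]
      exact (q.2.2.1.sub fun z hz => ((mem_sp hd2).1 hz).1).im hd3
    refine ⟨⟨un s1 s2, fun z hz => ?_, (q.2.2.1.sub fun z hz => ((h1 z).1 hz).1).un hf2,
      fun z hz => ?_⟩, fun j u => ?_, fun j c => ?_⟩
    · rcases mem_un.1 hz with h3 | h3
      · exact q.2.1 z ((h1 z).1 h3).1
      · obtain ⟨j, h4, -, rfl⟩ := (h2 z).1 h3
        exact mem_atm_pm.2 ⟨(mem_atm_pm.1 (q.2.1 _ h4)).1, a'.2⟩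
    · rcases mem_un.1 hz with h3 | h3
      · exact q.2.2.2 z ((h1 z).1 h3).1
      · obtain ⟨j, h4, -, rfl⟩ := (h2 z).1 h3
        have := q.2.2.2 _ h4
        rw [fst_pm] at this ⊢
        exact this
    · show nd j u ∈ un s1 s2 ↔ nd j u ∈ q.1 ∧ j ∈ H
      rw [mem_un, h1, h2, fst_nd]
      constructor
      · rintro (h3 | ⟨j', -, -, h3⟩)
        · exact ⟨h3.1, h3.2.1⟩
        · exact (nd_ne_pm h3).elim
      · rintro ⟨h3, h4⟩
        exact Or.inl ⟨h3, h4, nd_ne_pm⟩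
    · show pm j c.1 ∈ un s1 s2 ↔ j ∈ H ∧ ((pm j c.1 ∈ q.1 ∧ c ≠ a) ∨ (pm j a.1 ∈ q.1 ∧ c = a'))
      rw [mem_un, h1, h2, fst_pm]
      constructor
      · rintro (⟨h3, h4, h5⟩ | ⟨j', h3, h4, h5⟩)
        · refine ⟨h4, Or.inl ⟨h3, fun h6 => h5 (by rw [h6])⟩⟩
        · obtain ⟨rfl, h6⟩ := pm_inj.1 h5
          exact ⟨h4, Or.inr ⟨h3, Subtype.ext h6⟩⟩
      · rintro ⟨h3, ⟨h4, h5⟩ | ⟨h4, rfl⟩⟩
        · exact Or.inl ⟨h4, h3, fun h6 => h5 (Subtype.ext (pm_inj.1 h6).2)⟩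
        · exact Or.inr ⟨j, h4, h3, rfl⟩

/-- Genericity: the branch of `a₀` is in the interior of the set of branches which do not have the
property `Wp`. -/
theorem gen4 (hL : GL.AllL M) (hK : KS K) (h : Hull H ξ) (hX : IsSys K X)
    (hW : ∀ j, j ∈ H → j ∈ dm X → Sb (fW X j) H) {r : M} (hr : Sb r H)
    (hrP : ∀ u b, op u b ∈ r → b ∈ PX K X)
    (hD : ∀ y, y ∈ H → DPhi K (PX K X) r (fst y) (fst (snd y)) (fst (snd (snd y)))
      (fst (snd (snd (snd y)))) (snd (snd (snd (snd y)))) ∈ H)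
    {a₀ : {a : M // a ∈ K.ix}} (ha₀ : a₀.1 ∉ ξ) (q : Fa K X) (m : {m : M // m ∈ (om : M)})
    (hn : ¬ Sep3.Wp (AA K X) (CK K) (SM hK h hW) (fun b u => op u b.1 ∈ r) (fun m u => Hi m.1 u)
      q a₀ m a₀) :
    ∃ τ, (AA K X).on τ a₀ ∧ ∀ a', (AA K X).on τ a' →
      ¬ Sep3.Wp (AA K X) (CK K) (SM hK h hW) (fun b u => op u b.1 ∈ r) (fun m u => Hi m.1 u)
        q a₀ m a' := by
  classical
  obtain ⟨s, hsH, hs1, hs2⟩ := (clo hK h hW).trace q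
  -- the high indices
  have hdh : Dfn (fun w : Fin 1 → M => w 0 ∈ K.ix ∧ w 0 ∉ ξ) :=
    Dfn.and (Dfn.mem (DT.var 0) (DT.const _)) (Dfn.not (Dfn.mem (DT.var 0) (DT.const _)))
  have hds : DT (fun w : Fin 1 → M => snd (snd (w 0))) := by simp
  obtain ⟨hi, hhi, hhf⟩ : ∃ hi, (∀ a, a ∈ hi ↔
      ((∃ z, z ∈ q.1 ∧ a = snd (snd z)) ∧ a ∈ K.ix ∧ a ∉ ξ) ∨ a = a₀.1) ∧ Fte hi := by
    refine ⟨ins (sp (im q.1 fun z => snd (snd z)) fun a => a ∈ K.ix ∧ a ∉ ξ) a₀.1, fun a => ?_, ?_⟩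
    · rw [mem_ins, mem_sp hdh, mem_im hds]
    · exact (((q.2.2.1.im hds).sub fun z hz => ((mem_sp hdh).1 hz).1)).ins _
  have hhix : ∀ a, a ∈ hi → a ∈ K.ix ∧ a ∉ ξ := by
    intro a ha
    rcases (hhi a).1 ha with h1 | rfl
    · exact h1.2
    · exact ⟨a₀.2, ha₀⟩
  obtain ⟨k, e, hk, he, hei, hes⟩ := fte_enum hhf
  obtain ⟨i₀, hi₀, hei₀⟩ := hes a₀.1 ((hhi _).2 (Or.inr rfl))
  have hee : ∀ i, i ∈ k → ap e i ∈ K.ix ∧ ap e i ∉ ξ := fun i hi =>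
    hhix _ ((mem_fs.1 he).2 i hi)
  -- the pattern
  obtain ⟨pt, hpt, hptf⟩ : ∃ pt, (∀ z, z ∈ pt ↔ ∃ j i, z = op j i ∧ j ∈ H ∧ i ∈ k ∧
      pm j (ap e i) ∈ q.1) ∧ Fte pt := by
    have hd1 : Dfn (fun w : Fin 1 → M => fst (w 0) ∈ H ∧ pm (fst (w 0)) (ap e (snd (w 0))) ∈ q.1) := by
      simp (maxDischargeDepth := 50)
    have hd2 : DT (fun w : Fin 1 → M => fst (w 0)) := by simp
    refine ⟨sp (pd (im q.1 fst) k) fun z => fst z ∈ H ∧ pm (fst z) (ap e (snd z)) ∈ q.1,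
      fun z => ?_, ?_⟩
    · rw [mem_sp hd1, mem_pd]
      constructor
      · rintro ⟨⟨j, -, i, hi, rfl⟩, h2, h3⟩
        rw [fst_op] at h2 h3
        rw [snd_op] at h3
        exact ⟨j, i, rfl, h2, hi, h3⟩
      · rintro ⟨j, i, rfl, h1, h2, h3⟩
        rw [fst_op, snd_op]
        refine ⟨⟨j, (mem_im hd2).2 ⟨_, h3, (fst_pm _ _).symm⟩, i, h2, rfl⟩, h1, h3⟩
    · exact ((q.2.2.1.im hd2).pd (fte_of_mem_om hk)).sub fun z hz => ((mem_sp hd1).1 hz).1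
  have hpt' : ∀ j i, op j i ∈ pt ↔ j ∈ H ∧ i ∈ k ∧ pm j (ap e i) ∈ q.1 := by
    intro j i
    rw [hpt]
    constructor
    · rintro ⟨j', i', h1, h2⟩
      obtain ⟨rfl, rfl⟩ := op_inj.1 h1
      exact h2
    · exact fun h1 => ⟨j, i, rfl, h1⟩
  have hkH : Sb k H := (om_ord.sb hk).trans h.om_sb
  have hptH : pt ∈ H := h.mem_of_fte hptf fun z hz => by
    obtain ⟨j, i, rfl, h1, h2, -⟩ := (hpt z).1 hz
    exact h.ad.op h1 (hkH i h2)
  have hDH := hD (op s.1 (op m.1 (op pt (op i₀ k)))) (h.ad.op hsH (h.ad.op (h.om_sb _ m.2)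
    (h.ad.op hptH (h.ad.op (hkH _ hi₀) (h.om_sb _ hk)))))
  simp only [fst_op, snd_op] at hDH
  obtain ⟨d, hd1, hd2, hd3⟩ := h.meet hL hk hDH (fun z hz => (mem_DPhi.1 hz).1) dns_DPhi
    (e := e) (fun i hi => by
      obtain ⟨h1, h2⟩ := hee i hi
      obtain ⟨h3, h4⟩ := hK.mem_ix.1 h1
      exact ⟨h3, h4, (Ord.not_mem_iff h3 h.ord).1 h2⟩) hei
  have hbr : ∀ a, a ∈ K.ix → br a ∈ fs (om : M) om := fun a ha =>
    br_mem hL (hK.mem_ix.1 ha).1 (hK.mem_ix.1 ha).2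
  rcases (mem_DPhi.1 hd1).2 with hph | hph
  · -- the sequences `d` have the property
    exfalso
    apply hn
    obtain ⟨t, htP, hts, ⟨u, b, hub, hmu, huS, hud, htb⟩, hoff⟩ := hph
    obtain ⟨t', ht'H, ht'1, ht'2⟩ := (clo hK h hW).trace (toFa htP)
    have hbP := hrP u b hub
    have hbH : b ∈ H := (h.op_mem.1 (hr _ hub)).2
    have hud' : Sb u (br a₀.1) := by
      have := hd3 i₀ hi₀
      rw [hei₀] at this
      exact hud.trans this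
    refine ⟨u, toFa hbP, t', hmu, (hK.on _ _).2 ⟨huS, a₀.2, hud'⟩, hub,
      Sep3.ok_trace ((ok_iff hX).2 htP) ⟨ht'1, ht'2⟩, ht'H,
      Sep3.le_of_trace ⟨ht'1, ht'2⟩ hbH (le_iff.2 htb), fun j v h1 h2 => ?_,
      fun j π h1 h2 h3 => ?_, fun j v π h1 h2 h3 h4 => ?_, fun j v π h1 h2 h3 h4 => ?_⟩
    · exact (ht'1 j v).2 ⟨hts.1 _ ((hs1 j v).2 ⟨h1, h2⟩), h2⟩
    · exact (ht'2 j π).2 ⟨hts.1 _ ((hs2 j π).2 ⟨h1, h2, h3⟩), h2, h3⟩
    · obtain ⟨h5, h6⟩ := (ht'1 j v).1 h1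
      exact hts.2 j v π.1 h5 (fun h7 => h2 ((hs1 j v).1 h7).1) ((hs2 j π).2 ⟨h3, h6, h4⟩)
    · obtain ⟨h5, h6⟩ := (ht'1 j v).1 h1
      have h7 : ¬ (AA K X).on v π := by
        obtain ⟨i, hik, hie⟩ := hes π.1 ((hhi _).2 (Or.inl ⟨⟨_, h3, by
          unfold pm; rw [snd_op, snd_op]⟩, π.2, h4⟩))
        have h8 := hoff j v i h5 (fun h9 => h2 ((hs1 j v).1 h9).1)
          ((hpt' j i).2 ⟨h6, hik, by rw [hie]; exact h3⟩)
        have h9 := hd3 i hik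
        rw [hie] at h9
        exact fun h10 => h8.not_sb (hbr _ π.2) h9 ((hK.on _ _).1 h10).2.2
      exact ⟨fun h8 => h8 ▸ h7, fun _ => h7⟩
  · -- no extension of the sequences `d` has the property
    have hd0 : Sb (ap d i₀) (br a₀.1) := by
      have := hd3 i₀ hi₀
      rwa [hei₀] at this
    refine ⟨ap d i₀, (hK.on _ _).2 ⟨(mem_fs.1 hd2).2 i₀ hi₀, a₀.2, hd0⟩, fun a' ha' hWp => ?_⟩
    obtain ⟨u, b, t, hmu, hu', hub, htO, htH, htb, hn1, hn2, hn3, hn4⟩ := hWp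
    have hda : Sb (ap d i₀) (br a'.1) := ((hK.on _ _).1 ha').2.2
    obtain ⟨huS, -, hua⟩ := (hK.on _ _).1 hu'
    -- the lengths
    have hdS : Dfn (fun w : Fin 1 → M => w 0 ∈ (Sq : M)) := by simp
    have hdd : DT (fun w : Fin 1 → M => ap d (w 0)) := dt_apx d
    obtain ⟨n, hn', hlen⟩ := len_bdd (S := ins (un (sp (im t.1 fun z => snd (snd z))
      (· ∈ (Sq : M))) (im k (ap d))) u)
      ((((t.2.2.1.im hds).sub fun z hz => ((mem_sp hdS).1 hz).1).un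
        ((fte_of_mem_om hk).im hdd)).ins u) (by
      intro z hz
      rcases mem_ins.1 hz with hz | rfl
      · rcases mem_un.1 hz with hz | hz
        · exact ((mem_sp hdS).1 hz).2
        · obtain ⟨i, hi', rfl⟩ := (mem_im hdd).1 hz
          exact (mem_fs.1 hd2).2 i hi'
      · exact huS)
    have hB : DT (fun w : Fin 1 → M => if w 0 = i₀ then br a'.1 else br (ap e (w 0))) :=
      DT.ite (P := fun w : Fin 1 → M => w 0 = i₀) (by simp) (by simp)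
        (by simp (maxDischargeDepth := 50))
    obtain ⟨B, hBd, hB0, hB1⟩ : ∃ B : M → M, DT (fun w : Fin 1 → M => B (w 0)) ∧
        B i₀ = br a'.1 ∧ ∀ i, i ≠ i₀ → B i = br (ap e i) :=
      ⟨fun i => if i = i₀ then br a'.1 else br (ap e i), hB, if_pos rfl, fun i hi' => if_neg hi'⟩
    have hBm : ∀ i, i ∈ k → B i ∈ fs (om : M) om := by
      intro i hik
      by_cases h1 : i = i₀
      · rw [h1, hB0]
        exact hbr _ a'.2
      · rw [hB1 i h1]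
        exact hbr _ (hee i hik).1
    have hBs : ∀ i, i ∈ k → Sb (ap d i) (B i) := by
      intro i hik
      by_cases h1 : i = i₀
      · rw [h1, hB0]
        exact hda
      · rw [hB1 i h1]
        exact hd3 i hik
    have hcd : DT (fun w : Fin 1 → M => cut (B (w 0)) n) := dt_cut hBd (DT.const n)
    have hap : ∀ i, i ∈ k → ap (lam k fun i => cut (B i) n) i = cut (B i) n := fun i hik =>
      ap_lam hcd hik
    refine hph (lam k fun i => cut (B i) n) (lam_mem_fs hcd fun i hik =>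
      cut_mem_Sq (hBm i hik) hn') (fun i hik => ?_) ⟨t.1, (ok_iff hX).1 htO, ?_,
      ⟨u, b.1, hub, hmu, huS, ?_, le_iff.1 htb⟩, fun j v i h1 h2 h3 => ?_⟩
    · rw [hap i hik]
      obtain ⟨l, h1, h2⟩ := hlen (ap d i) (mem_ins.2 (Or.inl (mem_un.2 (Or.inr
        ((mem_im hdd).2 ⟨i, hik, rfl⟩)))))
      exact sb_cut (hBm i hik) hn' h1 h2 (hBs i hik)
    · refine le_iff.1 ⟨fun j v h1 => ?_, fun j π h1 => ?_, fun j v π h1 h2 h3 => ?_⟩
      · obtain ⟨h4, h5⟩ := (hs1 j v).1 h1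
        exact hn1 j v h4 h5
      · obtain ⟨h4, h5, h6⟩ := (hs2 j π).1 h1
        exact hn2 j π h4 h5 h6
      · obtain ⟨h4, h5, h6⟩ := (hs2 j π).1 h3
        exact hn3 j v π h1 (fun h7 => h2 ((hs1 j v).2 ⟨h7, h5⟩)) h4 h6
    · rw [hap i₀ hi₀, hB0]
      obtain ⟨l, h1, h2⟩ := hlen u (mem_ins.2 (Or.inr rfl))
      exact sb_cut (hbr _ a'.2) hn' h1 h2 hua
    · obtain ⟨h4, h5, h6⟩ := (hpt' j i).1 h3
      obtain ⟨h7, h8⟩ := hee i h5
      rw [hap i h5]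
      have hv : v ∈ (Sq : M) := mem_nd hK h1
      obtain ⟨l, h9, h10⟩ := hlen v (mem_ins.2 (Or.inl (mem_un.2 (Or.inl ((mem_sp hdS).2
        ⟨(mem_im hds).2 ⟨_, h1, by unfold nd; rw [snd_op, snd_op]⟩, hv⟩)))))
      refine off_cut (hBm i h5) hn' h9 h10 ?_
      have h11 := hn4 j v ⟨ap e i, h7⟩ h1 (fun h12 => h2 ((hs1 j v).2 ⟨h12, h4⟩)) h6 h8
      by_cases h12 : i = i₀
      · rw [h12, hB0]
        refine fun h13 => h11.1 (Subtype.ext ?_) ((hK.on _ _).2 ⟨hv, a'.2, h13⟩)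
        show ap e i = a₀.1
        rw [h12, hei₀]
      · rw [hB1 i h12]
        refine fun h13 => h11.2 (fun h14 => h12 ?_) ((hK.on _ _).2 ⟨hv, h7, h13⟩)
        exact hei i i₀ h5 hi₀ (by rw [hei₀]; exact congrArg Subtype.val h14)

end hull

section main

variable {K : Cst M} {X r w p : M}

theorem two {e : M} (h : e ∈ sc (sc (SigB.em : M))) : e = SigB.em ∨ e = sc SigB.em := by
  rcases mem_sc.1 h with h | h
  · rcases mem_sc.1 h with h | h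
    · exact (not_mem_em _ h).elim
    · exact Or.inl h
  · exact Or.inr h

/-- Decisions which distinguish the word `w` from the words of finitely many steps. -/
theorem decide (hX : IsSys K X) (hwP : Sb w (pd (pd HF (sc (sc SigB.em))) (PX K X)))
    (hB : Bad K X r w p) {q a : M} (hq : q ∈ PX K X) (hqp : Lq K q p) {S : M}
    (hS : Fte S) (hS' : Sb S (dm X)) :
    ∃ q' c d, q' ∈ PX K X ∧ Lq K q' q ∧ Dcd K w q' c d ∧ (Fte c ∧ Fte d) ∧ (Sb c HF ∧ Sb d HF) ∧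
      ∀ j, j ∈ S → pm j a ∈ q → ∃ y e b, op (op y e) b ∈ fW X j ∧ Lq K q' b ∧
        ((e = SigB.em ∧ y ∈ c) ∨ (e = sc SigB.em ∧ y ∈ d)) := by
  classical
  refine fte_ind (P := fun S => Sb S (dm X) → ∃ q' c d, q' ∈ PX K X ∧ Lq K q' q ∧
    Dcd K w q' c d ∧ (Fte c ∧ Fte d) ∧ (Sb c HF ∧ Sb d HF) ∧
      ∀ j, j ∈ S → pm j a ∈ q → ∃ y e b, op (op y e) b ∈ fW X j ∧ Lq K q' b ∧
        ((e = SigB.em ∧ y ∈ c) ∨ (e = sc SigB.em ∧ y ∈ d)))
    (by unfold Dcd; simp (maxDischargeDepth := 80)) ?_ ?_ hS hS'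
  · intro _
    exact ⟨q, SigB.em, SigB.em, hq, lq_refl K q, ⟨fun y hy => (not_mem_em _ hy).elim,
      fun y hy => (not_mem_em _ hy).elim⟩, ⟨fte_em, fte_em⟩, ⟨fun y hy => (not_mem_em _ hy).elim,
      fun y hy => (not_mem_em _ hy).elim⟩, fun j hj => (not_mem_em _ hj).elim⟩
  · intro S j _ _ ih hSX
    obtain ⟨q', c, d, h1, h2, h3, h4, h5, h6⟩ := ih fun z hz => hSX z (mem_ins.2 (Or.inl hz))
    have hjX : j ∈ dm X := hSX j (mem_ins.2 (Or.inr rfl))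
    by_cases hja : pm j a ∈ q
    · -- the promise is justified
      have hok : ∃ σ b, op σ b ∈ fW X j ∧ Lq K q b := by
        obtain ⟨b, σ, h7, h8, -⟩ := (ok_iff hX (p := toFa hq)).2 hq j
          ⟨a, (mem_atm_pm.1 ((mem_PX.1 hq).1.1 _ hja)).2⟩ hja
        exact ⟨σ, b.1, h7.1, le_iff.1 h8⟩
      obtain ⟨σ, b, hσ, hb⟩ := hok
      obtain ⟨q'', y, e, e', b1, b2, g1, g2, g3, g4, g5, g6, g7⟩ := hB.h3 q' j σ b h1
        (lq_trans h2 hqp) hjX hσ (lq_trans h2 hb)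
      obtain ⟨hye, -⟩ := op_mem_pd.1 (hwP _ g6)
      obtain ⟨hy, he'⟩ := op_mem_pd.1 hye
      have he : e ∈ sc (sc (SigB.em : M)) := by
        obtain ⟨y', e1, b', -, k1, -, k2⟩ := (hX.2.2.2 j hjX).2.2.2.1.2.1 _ g4
        rw [(op_inj.1 (op_inj.1 k2).1).2]
        exact k1
      have hold : ∀ i, i ∈ S → pm i a ∈ q → ∃ y e b, op (op y e) b ∈ fW X i ∧ Lq K q'' b ∧
          ((e = SigB.em ∧ y ∈ c) ∨ (e = sc SigB.em ∧ y ∈ d)) := by
        intro i hi hia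
        obtain ⟨y, e, b, k1, k2, k3⟩ := h6 i hi hia
        exact ⟨y, e, b, k1, lq_trans g2 k2, k3⟩
      rcases two he' with he0 | he1
      · -- `y` is not in the word `w`
        have he2 : e = sc SigB.em := by
          rcases two he with k | k
          · exact absurd (k.trans he0.symm) g3
          · exact k
        refine ⟨q'', c, ins d y, g1, lq_trans g2 h2, ⟨fun z hz => ?_, fun z hz => ?_⟩,
          ⟨h4.1, h4.2.ins y⟩, ⟨h5.1, fun z hz => ?_⟩, fun i hi hia => ?_⟩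
        · obtain ⟨b', k1, k2⟩ := h3.1 z hz
          exact ⟨b', k1, lq_trans g2 k2⟩
        · rcases mem_ins.1 hz with hz | rfl
          · obtain ⟨b', k1, k2⟩ := h3.2 z hz
            exact ⟨b', k1, lq_trans g2 k2⟩
          · exact ⟨b2, he0 ▸ g6, g7⟩
        · rcases mem_ins.1 hz with hz | rfl
          · exact h5.2 z hz
          · exact hy
        · rcases mem_ins.1 hi with hi | rfl
          · obtain ⟨y', e1, b', k1, k2, k3⟩ := hold i hi hia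
            exact ⟨y', e1, b', k1, k2, k3.imp id fun k => ⟨k.1, mem_ins.2 (Or.inl k.2)⟩⟩
          · exact ⟨y, e, b1, g4, g5, Or.inr ⟨he2, mem_ins.2 (Or.inr rfl)⟩⟩
      · -- `y` is in the word `w`
        have he2 : e = SigB.em := by
          rcases two he with k | k
          · exact k
          · exact absurd (k.trans he1.symm) g3
        refine ⟨q'', ins c y, d, g1, lq_trans g2 h2, ⟨fun z hz => ?_, fun z hz => ?_⟩,
          ⟨h4.1.ins y, h4.2⟩, ⟨fun z hz => ?_, h5.2⟩, fun i hi hia => ?_⟩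
        · rcases mem_ins.1 hz with hz | rfl
          · obtain ⟨b', k1, k2⟩ := h3.1 z hz
            exact ⟨b', k1, lq_trans g2 k2⟩
          · exact ⟨b2, he1 ▸ g6, g7⟩
        · obtain ⟨b', k1, k2⟩ := h3.2 z hz
          exact ⟨b', k1, lq_trans g2 k2⟩
        · rcases mem_ins.1 hz with hz | rfl
          · exact h5.1 z hz
          · exact hy
        · rcases mem_ins.1 hi with hi | rfl
          · obtain ⟨y', e1, b', k1, k2, k3⟩ := hold i hi hia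
            exact ⟨y', e1, b', k1, k2, k3.imp (fun k => ⟨k.1, mem_ins.2 (Or.inl k.2)⟩) id⟩
          · exact ⟨y, e, b1, g4, g5, Or.inl ⟨he2, mem_ins.2 (Or.inr rfl)⟩⟩
    · refine ⟨q', c, d, h1, h2, h3, h4, h5, fun i hi hia => ?_⟩
      rcases mem_ins.1 hi with hi | rfl
      · exact h6 i hi hia
      · exact absurd hia hja

/-- **No unwanted codes.** -/
theorem not_bad (hL : GL.AllL M) (hK : KS K) (hX : IsSys K X) (hp : p ∈ PX K X) (hr : NM K X r)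
    (hw : Forc.Le w om) (hwP : Sb w (pd (pd HF (sc (sc SigB.em))) (PX K X))) :
    ¬ Bad K X r w p := by
  classical
  intro hB
  -- the countable set
  obtain ⟨H, ξ, h, hA, hf⟩ := exists_hull hL (ι := Bool) (fun i _ y => match i with
      | true => fW X y
      | false => DPhi K (PX K X) r (fst y) (fst (snd y)) (fst (snd (snd y)))
          (fst (snd (snd (snd y)))) (snd (snd (snd (snd y))))) (by
    intro i
    cases i
    · exact DPhi.dt K (PX K X) r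
    · exact dt_fW (DT.const X) (DT.var 1)) (A := ins (pr p r) w) ((fte_pr p r).ins w).le_om'
  have hpH : p ∈ H := hA p (mem_ins.2 (Or.inl (by simp)))
  have hrH : Sb r H := h.sub r (hA r (mem_ins.2 (Or.inl (by simp)))) hr.2
  have hwH : Sb w H := h.sub w (hA w (mem_ins.2 (Or.inr rfl))) hw
  have hW : ∀ j, j ∈ H → j ∈ dm X → Sb (fW X j) H := fun j hj hjX =>
    h.sub _ (hf true p j hpH hj) (hX.2.2.2 j hjX).2.2.2.1.1
  have hrP : ∀ u b, op u b ∈ r → b ∈ PX K X := fun u b hub => (op_mem_pd.1 (hr.1 _ hub)).2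
  obtain ⟨a₀, ha1, ha2, ha3, ha4, -⟩ := exists_label hL (b := (SigB.em : M)) (τ := (SigB.em : M))
    (sml_HF hL ad_HF.1) em_mem_Sq h.ord h.le_ξ
  have ha₀ : a₀ ∈ K.ix := hK.mem_ix.2 ⟨ha1, ha2⟩
  refine Sep3.no_unwanted_codes' (clo hK h hW) (c0 := fun a (Δ : M × M) => lb a.1 = op Δ.1 Δ.2)
    (R := fun b u => op u b.1 ∈ r) (fun a u hau => (h.op_mem.1 (hrH _ hau)).2)
    (W' := fun q Δ => Dcd K w q.1 Δ.1 Δ.2) ?_
    (rel := fun σ Δ => ∃ y, (σ = op y SigB.em ∧ y ∈ Δ.1) ∨ (σ = op y (sc SigB.em) ∧ y ∈ Δ.2))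
    (good := fun Δ => (Fte Δ.1 ∧ Fte Δ.2) ∧ Sb Δ.1 HF ∧ Sb Δ.2 HF)
    (hi := fun (m : {m : M // m ∈ (om : M)}) u => Hi m.1 u) (p := toFa hp) hpH
    (π₀ := ⟨a₀, ha₀⟩) (fun h1 => not_mem_mem ha3 h1) ?_ ?_ ?_ (fun q m _ hn => gen4 hL hK h hX hW
      hrH hrP (fun y hy => hf false p y hpH hy) (fun h1 => not_mem_mem ha3 h1) q m hn) ?_
  · -- transfer of decisions
    rintro q s ⟨c, d⟩ ⟨h1, h2⟩ h3
    have key : ∀ σ b, op σ b ∈ w → Lq K q.1 b → Lq K s.1 b := by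
      intro σ b h4 h5
      have hb := (op_mem_pd.1 (hwP _ h4)).2
      exact le_iff.1 (h3 (toFa hb) (h.op_mem.1 (hwH _ h4)).2 (le_iff.2 h5))
    exact ⟨fun y hy => (h1 y hy).imp fun b hb => ⟨hb.1, key _ b hb.1 hb.2⟩,
      fun y hy => (h2 y hy).imp fun b hb => ⟨hb.1, key _ b hb.1 hb.2⟩⟩
  · -- F1
    obtain ⟨q, m, h1, h2, h3, h4⟩ := hB.h1 a₀ ha₀ ha4
    refine ⟨toFa h1, ⟨m, h3⟩, (ok_iff hX).2 h1, le_iff.2 h2, ?_⟩
    rintro u hu hon ⟨q', b, h5, h6, h7, h8⟩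
    exact hu (h4 q'.1 u b.1 ((ok_iff hX).1 h5) (le_iff.1 h6) h7 (le_iff.1 h8) hon)
  · -- F2
    rintro q π ⟨c, d⟩ h1 h2 h3 h4 ⟨m, hm⟩
    refine hB.h2 q.1 π.1 c d m.1 ((ok_iff hX).1 h1) (le_iff.1 h2) π.2 h4 m.2 h3 ?_
    intro q' u b h5 h6 h7 h8 h9
    by_contra hcon
    exact hm u hcon h9 ⟨toFa h5, toFa (hrP u b h7), (ok_iff hX).2 h5, le_iff.2 h6, h7,
      le_iff.2 h8⟩
  · -- F3
    intro q h1 h2
    have hd : DT (fun w : Fin 1 → M => fst (w 0)) := by simp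
    obtain ⟨q', c, d, h3, h4, h5, h6, h7, h8⟩ := decide hX hwP hB (a := a₀) ((ok_iff hX).1 h1)
      (le_iff.1 h2) (q.2.2.1.im hd) (by
        intro z hz
        obtain ⟨y, hy, rfl⟩ := (mem_im hd).1 hz
        exact q.2.2.2 y hy)
    refine ⟨toFa h3, (c, d), (ok_iff hX).2 h3, le_iff.2 h4, h5, ⟨h6, h7⟩, fun j _ hj => ?_⟩
    have hjq : j ∈ im q.1 fst := (mem_im hd).2 ⟨_, hj, (fst_pm _ _).symm⟩
    have hjX : j ∈ dm X := by
      have := q.2.2.2 _ hj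
      rwa [fst_pm] at this
    obtain ⟨y, e, b, h9, h10, h11⟩ := h8 j hjq hj
    have hb : ∃ hb : Sb b (atm K) ∧ Fte b ∧ ∀ z, z ∈ b → fst z ∈ dm X, True := by
      obtain ⟨y', e1, b', -, -, k1, k2⟩ := (hX.2.2.2 j hjX).2.2.2.1.2.1 _ h9
      rw [(op_inj.1 k2).2]
      have k3 := mem_PX.1 k1
      refine ⟨⟨k3.1.1, k3.1.2, fun z hz => ?_⟩, trivial⟩
      have k4 := k3.2.1 z hz
      rw [dm_rs hX.fn (hX.cl hjX).1] at k4
      exact (hX.cl hjX).1 _ k4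
    obtain ⟨hb, -⟩ := hb
    refine ⟨⟨b, hb⟩, op y e, ⟨h9, hjX⟩, le_iff.2 h10, y, ?_⟩
    rcases h11 with ⟨rfl, h12⟩ | ⟨rfl, h12⟩
    · exact Or.inl ⟨rfl, h12⟩
    · exact Or.inr ⟨rfl, h12⟩
  · -- G5
    rintro τ ⟨c, d⟩ h1 ⟨⟨h2, h3⟩, h4, h5⟩
    obtain ⟨hτ, -, -⟩ := (hK.on _ _).1 h1
    have hc : c ∈ (HF : M) := mem_of_fte ad_HF.1 (fun a b ha hb => ad_HF.2 a b ha hb) h2 h4
    have hd : d ∈ (HF : M) := mem_of_fte ad_HF.1 (fun a b ha hb => ad_HF.2 a b ha hb) h3 h5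
    obtain ⟨a', g1, g2, -, g3, g4⟩ := exists_label hL (b := op c d) (τ := τ)
      (sml_HF hL (ad_HF.op hc hd)) hτ h.ord h.le_ξ
    have ha' : a' ∈ K.ix := hK.mem_ix.2 ⟨g1, g2⟩
    have g5 := lt_sb_br hL g1 g2
    rw [g4] at g5
    refine ⟨⟨a', ha'⟩, (hK.on _ _).2 ⟨hτ, ha', g5⟩, ?_, g3⟩
    rintro σ ⟨y, ⟨rfl, hy⟩ | ⟨rfl, hy⟩⟩
    · refine (hK.kl _ _ _).2 ⟨ha', h4 y hy, mem_sc.2 (Or.inl (mem_sc_self _)), ?_⟩
      intro c' d' g6 _
      obtain ⟨rfl, rfl⟩ := op_inj.1 (g3.symm.trans g6)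
      exact Or.inl ⟨hy, rfl⟩
    · refine (hK.kl _ _ _).2 ⟨ha', h5 y hy, mem_sc_self _, ?_⟩
      intro c' d' g6 _
      obtain ⟨rfl, rfl⟩ := op_inj.1 (g3.symm.trans g6)
      exact Or.inr ⟨hy, rfl⟩

end main

end Pool.Agent.Sep.L1
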