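import Pool.Agent.Sep.Amalg

/-!
# Posets of finite sets of atoms

An atom is a node atom `(k, u)` or a branch atom `(k, a)`, where `k` is a step. A condition is a
finite set of atoms in which every branch atom `(k, a)` is justified by the atoms at the steps in
`dep k`. The file is parametric in the notion of a finite set, in the relation `u` is a node of the
branch `a`, in the dependency sets and in the relation of justification.
-/

universe u

set_option linter.unusedSectionVars false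

namespace Pool.Agent.Sep

open Pool.Agent.SigB Pool.Agent.Frc

variable {M : Type u} [Membership M M] [IsZFC M]

/-- The node atom `(k, u)`. -/
noncomputable def na (k u : M) : M := op k (op em u)

/-- The branch atom `(k, a)`. -/
noncomputable def ba (k a : M) : M := op k (op (pr em em) a)

theorem na.dt : DT (fun w : Fin 2 → M => na (w 0) (w 1)) := by
  unfold na; simp (maxDischargeDepth := 50)

@[simp] theorem dt_na {n : ℕ} {s t : (Fin n → M) → M} (hs : DT s) (ht : DT t) :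
    DT (fun v => na (s v) (t v)) := dt2 na.dt hs ht

theorem ba.dt : DT (fun w : Fin 2 → M => ba (w 0) (w 1)) := by
  unfold ba; simp (maxDischargeDepth := 50)

@[simp] theorem dt_ba {n : ℕ} {s t : (Fin n → M) → M} (hs : DT s) (ht : DT t) :
    DT (fun v => ba (s v) (t v)) := dt2 ba.dt hs ht

theorem na_inj {k u k' u' : M} : na k u = na k' u' ↔ k = k' ∧ u = u' := by
  unfold na
  rw [op_inj, op_inj]
  simp

theorem ba_inj {k u k' u' : M} : ba k u = ba k' u' ↔ k = k' ∧ u = u' := by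
  unfold ba
  rw [op_inj, op_inj]
  simp

theorem em_ne_pr (x y : M) : (em : M) ≠ pr x y := by
  intro h
  have : x ∈ (em : M) := by rw [h]; simp
  exact not_mem_em x this

theorem na_ne_ba {k u k' a : M} : na k u ≠ ba k' a := by
  unfold na ba
  intro h
  exact em_ne_pr _ _ (op_inj.1 (op_inj.1 h).2).1

/-- The restriction of a set of atoms to the steps in `D`. -/
noncomputable def re (p D : M) : M := sp p fun z => ∃ k, k ∈ D ∧ ∃ x, z = op k x

theorem re.dt : DT (fun w : Fin 2 → M => re (w 0) (w 1)) := by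
  unfold re; simp (maxDischargeDepth := 50)

@[simp] theorem dt_re {n : ℕ} {s t : (Fin n → M) → M} (hs : DT s) (ht : DT t) :
    DT (fun v => re (s v) (t v)) := dt2 re.dt hs ht

theorem mem_re {p D z : M} : z ∈ re p D ↔ z ∈ p ∧ ∃ k, k ∈ D ∧ ∃ x, z = op k x :=
  mem_sp (by simp (maxDischargeDepth := 50))

theorem op_mem_re {p D k x : M} : op k x ∈ re p D ↔ op k x ∈ p ∧ k ∈ D := by
  rw [mem_re]
  refine and_congr_right fun _ => ⟨?_, fun h => ⟨k, h, x, rfl⟩⟩
  rintro ⟨k', hk, x', he⟩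
  rw [(op_inj.1 he).1]
  exact hk

@[simp] theorem na_mem_re {p D k u : M} : na k u ∈ re p D ↔ na k u ∈ p ∧ k ∈ D := op_mem_re

@[simp] theorem ba_mem_re {p D k u : M} : ba k u ∈ re p D ↔ ba k u ∈ p ∧ k ∈ D := op_mem_re

theorem re_sb {p D : M} : Sb (re p D) p := fun _ h => (mem_re.1 h).1

theorem re_re {p D E : M} (h : Sb E D) : re (re p D) E = re p E := by
  refine ext' fun z => ?_
  rw [mem_re, mem_re, mem_re]
  constructor
  · rintro ⟨⟨h1, -⟩, h2⟩
    exact ⟨h1, h2⟩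
  · rintro ⟨h1, k, hk, x, rfl⟩
    exact ⟨⟨h1, k, h k hk, x, rfl⟩, k, hk, x, rfl⟩

theorem re_un {p q D : M} : re (un p q) D = un (re p D) (re q D) := by
  refine ext' fun z => ?_
  rw [mem_un, mem_re, mem_re, mem_re, mem_un]
  exact or_and_right

/-- The order on the sets of atoms, for the relation `on`. -/
def AtLe (on : M → M → Prop) (q p : M) : Prop :=
  Sb p q ∧ ∀ k u a, na k u ∈ q → na k u ∉ p → ba k a ∈ p → ¬ on u a

section order

variable {on : M → M → Prop} {p q r s : M}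

theorem AtLe.refl (p : M) : AtLe on p p := ⟨Sb.refl p, fun _ _ _ h h' => absurd h h'⟩

theorem AtLe.trans (h : AtLe on r q) (h' : AtLe on q p) : AtLe on r p := by
  refine ⟨h'.1.trans h.1, fun k u a hu hn ha => ?_⟩
  by_cases hq : na k u ∈ q
  · exact h'.2 k u a hq hn ha
  · exact h.2 k u a hu hq (h'.1 _ ha)

theorem AtLe.antisymm (h : AtLe on q p) (h' : AtLe on p q) : p = q :=
  h.1.antisymm h'.1

theorem AtLe.res (h : AtLe on q p) (D : M) : AtLe on (re q D) (re p D) := by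
  refine ⟨fun z hz => ?_, fun k u a hu hn ha => ?_⟩
  · rw [mem_re] at hz ⊢
    exact ⟨h.1 z hz.1, hz.2⟩
  · rw [na_mem_re] at hu hn
    rw [ba_mem_re] at ha
    exact h.2 k u a hu.1 (fun h1 => hn ⟨h1, hu.2⟩) ha.1

theorem atLe_re (p D : M) : AtLe on p (Sep.re p D) := by
  refine ⟨re_sb, fun k u a hu hn ha => ?_⟩
  rw [ba_mem_re] at ha
  exact absurd (na_mem_re.2 ⟨hu, ha.2⟩) hn

theorem atLe_em (p : M) : AtLe on p em :=
  ⟨fun z hz => absurd hz (not_mem_em z), fun _ _ _ _ _ ha => absurd ha (not_mem_em _)⟩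

/-- The union is the greatest lower bound. -/
theorem AtLe.union (h : AtLe on s p) (h' : AtLe on s q) : AtLe on s (SigB.un p q) := by
  refine ⟨fun z hz => ?_, fun k u a hu hn ha => ?_⟩
  · rcases mem_un.1 hz with h1 | h1
    · exact h.1 z h1
    · exact h'.1 z h1
  · have hn1 : na k u ∉ p := fun h1 => hn (mem_un.2 (Or.inl h1))
    have hn2 : na k u ∉ q := fun h1 => hn (mem_un.2 (Or.inr h1))
    rcases mem_un.1 ha with h1 | h1
    · exact h.2 k u a hu hn1 h1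
    · exact h'.2 k u a hu hn2 h1

/-- A lower bound makes the union a lower bound. -/
theorem un_atLe_left (h : AtLe on s p) (h' : AtLe on s q) : AtLe on (SigB.un p q) p := by
  refine ⟨fun z hz => mem_un.2 (Or.inl hz), fun k u a hu hn ha => ?_⟩
  refine h.2 k u a ?_ hn ha
  rcases mem_un.1 hu with h1 | h1
  · exact absurd h1 hn
  · exact h'.1 _ h1

theorem un_atLe_right (h : AtLe on s p) (h' : AtLe on s q) : AtLe on (SigB.un p q) q := by
  refine ⟨fun z hz => mem_un.2 (Or.inr hz), fun k u a hu hn ha => ?_⟩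
  refine h'.2 k u a ?_ hn ha
  rcases mem_un.1 hu with h1 | h1
  · exact h.1 _ h1
  · exact absurd h1 hn

/-- Sets of atoms with the same node atoms at the common steps are compatible. -/
theorem un_atLe_of_eq {p q : M} (h : ∀ k u a, na k u ∈ q → ba k a ∈ p → on u a → na k u ∈ p) :
    AtLe on (SigB.un p q) p := by
  refine ⟨fun z hz => mem_un.2 (Or.inl hz), fun k u a hu hn ha hon => ?_⟩
  rcases mem_un.1 hu with h1 | h1
  · exact hn h1
  · exact hn (h k u a h1 ha hon)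

end order

/-- The parameters of the poset. -/
structure PD (M : Type u) [Membership M M] [IsZFC M] where
  /-- `x` is finite -/
  Fi : M → Prop
  /-- the set of the second coordinates of atoms -/
  X : M
  /-- `u` is a node of the branch `a` -/
  on : M → M → Prop
  /-- the dependencies of the step `k` -/
  dep : M → M
  /-- the branch atom `(k, a)` is justified by `q` -/
  J : M → M → M → Prop

/-- What is used about the parameters. -/
structure PD.Ok (S : PD M) : Prop where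
  dFi : Dfn (fun w : Fin 1 → M => S.Fi (w 0))
  don : Dfn (fun w : Fin 2 → M => S.on (w 0) (w 1))
  ddep : DT (fun w : Fin 1 → M => S.dep (w 0))
  dJ : Dfn (fun w : Fin 3 → M => S.J (w 0) (w 1) (w 2))
  fi_em : S.Fi em
  fi_un : ∀ x y, S.Fi x → S.Fi y → S.Fi (un x y)
  fi_sub : ∀ x y, S.Fi x → Sb y x → S.Fi y
  jmono : ∀ k a q q', S.J k a q → AtLe S.on q' q → S.J k a q'

/-- `p` is a condition at the steps in `D`. -/
def PD.Cd (S : PD M) (D p : M) : Prop :=
  Sb p (pd D S.X) ∧ S.Fi p ∧ ∀ k a, ba k a ∈ p → S.J k a (re p (S.dep k))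

/-- The set of the conditions. -/
noncomputable def PD.cn (S : PD M) (D : M) : M := sp (pw (pd D S.X)) fun p => S.Cd D p

/-- The order on the conditions. -/
noncomputable def PD.le (S : PD M) (D : M) : M :=
  sp (pd (S.cn D) (S.cn D)) fun z => ∃ q p, z = op q p ∧ AtLe S.on q p

/-- `D` is closed under dependencies. -/
def PD.Cl (S : PD M) (D : M) : Prop := ∀ k, k ∈ D → Sb (S.dep k) D

section

variable {S : PD M} (hS : S.Ok)

include hS

theorem PD.Ok.dfn_Fi {n : ℕ} {s : (Fin n → M) → M} (hs : DT s) : Dfn (fun v => S.Fi (s v)) :=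
  dfn1 hS.dFi hs

theorem PD.Ok.dfn_on {n : ℕ} {s t : (Fin n → M) → M} (hs : DT s) (ht : DT t) :
    Dfn (fun v => S.on (s v) (t v)) := dfn2 hS.don hs ht

theorem PD.Ok.dt_dep {n : ℕ} {s : (Fin n → M) → M} (hs : DT s) : DT (fun v => S.dep (s v)) :=
  dt1 hS.ddep hs

theorem PD.Ok.dfn_J {n : ℕ} {s t r : (Fin n → M) → M} (hs : DT s) (ht : DT t) (hr : DT r) :
    Dfn (fun v => S.J (s v) (t v) (r v)) := dfn3 hS.dJ hs ht hr

theorem PD.Ok.dfn_AtLe {n : ℕ} {s t : (Fin n → M) → M} (hs : DT s) (ht : DT t) :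
    Dfn (fun v => AtLe S.on (s v) (t v)) := by
  refine dfn2 (R := fun x y => AtLe S.on x y) ?_ hs ht
  unfold AtLe
  simp (maxDischargeDepth := 50) [hS.dfn_on]

theorem PD.Ok.dfn_Cd {n : ℕ} {s t : (Fin n → M) → M} (hs : DT s) (ht : DT t) :
    Dfn (fun v => S.Cd (s v) (t v)) := by
  refine dfn2 (R := fun x y => S.Cd x y) ?_ hs ht
  unfold PD.Cd
  simp (maxDischargeDepth := 50) [hS.dfn_Fi, hS.dt_dep, hS.dfn_J]

theorem PD.Ok.dt_cn {n : ℕ} {s : (Fin n → M) → M} (hs : DT s) : DT (fun v => S.cn (s v)) := by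
  refine dt1 (F := fun x => S.cn x) ?_ hs
  unfold PD.cn
  simp (maxDischargeDepth := 50) [hS.dfn_Cd]

theorem PD.Ok.dt_le {n : ℕ} {s : (Fin n → M) → M} (hs : DT s) : DT (fun v => S.le (s v)) := by
  refine dt1 (F := fun x => S.le x) ?_ hs
  unfold PD.le
  simp (maxDischargeDepth := 50) [hS.dt_cn, hS.dfn_AtLe]

theorem PD.Ok.dfn_Cl {n : ℕ} {s : (Fin n → M) → M} (hs : DT s) : Dfn (fun v => S.Cl (s v)) := by
  refine dfn1 (R := fun x => S.Cl x) ?_ hs
  unfold PD.Cl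
  simp (maxDischargeDepth := 50) [hS.dt_dep]

theorem PD.Ok.mem_cn {D p : M} : p ∈ S.cn D ↔ S.Cd D p := by
  have h1 : p ∈ S.cn D ↔ p ∈ pw (pd D S.X) ∧ S.Cd D p :=
    mem_sp (by simp (maxDischargeDepth := 50) [hS.dfn_Cd])
  rw [h1, mem_pw]
  exact ⟨fun h => h.2, fun h => ⟨h.1, h⟩⟩

theorem PD.Ok.op_mem_le {D q p : M} : op q p ∈ S.le D ↔ S.Cd D q ∧ S.Cd D p ∧ AtLe S.on q p := by
  have h1 : op q p ∈ S.le D ↔ op q p ∈ pd (S.cn D) (S.cn D) ∧
      ∃ q' p', op q p = op q' p' ∧ AtLe S.on q' p' :=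
    mem_sp (by simp (maxDischargeDepth := 50) [hS.dfn_AtLe])
  rw [h1, op_mem_pd, hS.mem_cn, hS.mem_cn, and_assoc]
  refine and_congr_right fun _ => and_congr_right fun _ => ⟨?_, fun h => ⟨q, p, rfl, h⟩⟩
  rintro ⟨q', p', he, h⟩
  obtain ⟨rfl, rfl⟩ := op_inj.1 he
  exact h

theorem PD.Ok.cd_em (D : M) : S.Cd D em :=
  ⟨fun z hz => absurd hz (not_mem_em z), hS.fi_em, fun _ _ h => absurd h (not_mem_em _)⟩

theorem PD.Ok.po (D : M) : PO (S.cn D) (S.le D) em where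
  sub p q h := by
    rw [hS.mem_cn, hS.mem_cn]
    exact ⟨(hS.op_mem_le.1 h).1, (hS.op_mem_le.1 h).2.1⟩
  refl p hp := hS.op_mem_le.2 ⟨hS.mem_cn.1 hp, hS.mem_cn.1 hp, AtLe.refl p⟩
  trans p q r h h' := hS.op_mem_le.2 ⟨(hS.op_mem_le.1 h).1, (hS.op_mem_le.1 h').2.1,
    (hS.op_mem_le.1 h).2.2.trans (hS.op_mem_le.1 h').2.2⟩
  one_mem := hS.mem_cn.2 (hS.cd_em D)
  top p hp := hS.op_mem_le.2 ⟨hS.mem_cn.1 hp, hS.cd_em D, atLe_em p⟩

/-- The conditions grow with the set of steps. -/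
theorem PD.Cd.mono {D E p : M} (h : S.Cd D p) (hDE : Sb D E) : S.Cd E p := by
  refine ⟨fun z hz => ?_, h.2.1, h.2.2⟩
  obtain ⟨x, hx, y, hy, rfl⟩ := mem_pd.1 (h.1 z hz)
  exact op_mem_pd.2 ⟨hDE x hx, hy⟩

/-- The restriction of a condition to a closed set. -/
theorem PD.Ok.cd_re {D E p : M} (h : S.Cd E p) (hD : S.Cl D) : S.Cd D (re p D) := by
  refine ⟨fun z hz => ?_, hS.fi_sub _ _ h.2.1 re_sb, fun k a ha => ?_⟩
  · obtain ⟨hz1, k, hk, x, rfl⟩ := mem_re.1 hz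
    exact op_mem_pd.2 ⟨hk, (op_mem_pd.1 (h.1 _ hz1)).2⟩
  · rw [ba_mem_re] at ha
    rw [re_re (hD k ha.2)]
    exact h.2.2 k a ha.1

theorem PD.Ok.op_re_mem_le {E p : M} (h : S.Cd E p) {D : M} (hD : S.Cl D) (hDE : Sb D E) :
    op p (re p D) ∈ S.le E :=
  hS.op_mem_le.2 ⟨h, PD.Cd.mono hS (hS.cd_re h hD) hDE, atLe_re p D⟩

/-- A union which is below both parts is a condition. -/
theorem PD.Ok.cd_un {D p q : M} (hp : S.Cd D p) (hq : S.Cd D q) (h1 : AtLe S.on (un p q) p)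
    (h2 : AtLe S.on (un p q) q) : S.Cd D (un p q) := by
  refine ⟨fun z hz => ?_, hS.fi_un _ _ hp.2.1 hq.2.1, fun k a ha => ?_⟩
  · rcases mem_un.1 hz with h | h
    · exact hp.1 z h
    · exact hq.1 z h
  · rcases mem_un.1 ha with h | h
    · exact hS.jmono _ _ _ _ (hp.2.2 k a h) (h1.res _)
    · exact hS.jmono _ _ _ _ (hq.2.2 k a h) (h2.res _)

/-- Compatible conditions: the union is the greatest lower bound. -/
theorem PD.Ok.un_glb {D p q : M} (hp : S.Cd D p) (hq : S.Cd D q)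
    (h : ∃ s, AtLe S.on s p ∧ AtLe S.on s q) :
    S.Cd D (un p q) ∧ AtLe S.on (un p q) p ∧ AtLe S.on (un p q) q := by
  obtain ⟨s, h1, h2⟩ := h
  exact ⟨hS.cd_un hp hq (un_atLe_left h1 h2) (un_atLe_right h1 h2), un_atLe_left h1 h2,
    un_atLe_right h1 h2⟩

omit hS in
/-- Amalgamation, the order part. -/
theorem PD.amalg_le {D p r : M} (hr : Sb r (pd D S.X)) (h : AtLe S.on r (re p D)) :
    AtLe S.on (un r p) r ∧ AtLe S.on (un r p) p := by
  have hrD : ∀ k x, op k x ∈ r → k ∈ D := fun k x h1 => (op_mem_pd.1 (hr _ h1)).1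
  constructor
  · refine ⟨fun z hz => mem_un.2 (Or.inl hz), fun k u a hu hn ha => ?_⟩
    rcases mem_un.1 hu with h1 | h1
    · exact absurd h1 hn
    · exact absurd (h.1 _ (na_mem_re.2 ⟨h1, hrD k _ ha⟩)) hn
  · refine ⟨fun z hz => mem_un.2 (Or.inr hz), fun k u a hu hn ha => ?_⟩
    rcases mem_un.1 hu with h1 | h1
    · have hk := hrD k _ h1
      exact h.2 k u a h1 (fun h2 => hn (na_mem_re.1 h2).1) (ba_mem_re.2 ⟨ha, hk⟩)
    · exact absurd h1 hn

/-- Amalgamation: a condition `p` and a condition `r` at the steps in `D` which is below the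
restriction of `p`. -/
theorem PD.Ok.amalg {D E p r : M} (hDE : Sb D E) (hp : S.Cd E p) (hr : S.Cd D r)
    (h : AtLe S.on r (re p D)) :
    S.Cd E (un r p) ∧ AtLe S.on (un r p) r ∧ AtLe S.on (un r p) p := by
  obtain ⟨h1, h2⟩ := PD.amalg_le hr.1 h
  exact ⟨hS.cd_un (PD.Cd.mono hS hr hDE) hp h1 h2, h1, h2⟩

omit hS in
theorem PD.amalg2_le {D E p q : M} (hp : Sb p (pd D S.X)) (hq : Sb q (pd E S.X))
    (h : re p E = re q D) : AtLe S.on (un p q) p ∧ AtLe S.on (un p q) q := by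
  have hpD : ∀ k x, op k x ∈ p → k ∈ D := fun k x h1 => (op_mem_pd.1 (hp _ h1)).1
  have hqE : ∀ k x, op k x ∈ q → k ∈ E := fun k x h1 => (op_mem_pd.1 (hq _ h1)).1
  constructor
  · refine ⟨fun z hz => mem_un.2 (Or.inl hz), fun k u a hu hn ha => ?_⟩
    rcases mem_un.1 hu with h1 | h1
    · exact absurd h1 hn
    · have h2 : na k u ∈ re q D := na_mem_re.2 ⟨h1, hpD k _ ha⟩
      rw [← h] at h2
      exact absurd (na_mem_re.1 h2).1 hn
  · refine ⟨fun z hz => mem_un.2 (Or.inr hz), fun k u a hu hn ha => ?_⟩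
    rcases mem_un.1 hu with h1 | h1
    · have h2 : na k u ∈ re p E := na_mem_re.2 ⟨h1, hqE k _ ha⟩
      rw [h] at h2
      exact absurd (na_mem_re.1 h2).1 hn
    · exact absurd h1 hn

/-- Two-sided amalgamation: conditions with the same restriction to the common steps. -/
theorem PD.Ok.amalg2 {D E p q : M} (hp : S.Cd D p) (hq : S.Cd E q) (h : re p E = re q D) :
    S.Cd (un D E) (un p q) ∧ AtLe S.on (un p q) p ∧ AtLe S.on (un p q) q := by
  obtain ⟨h1, h2⟩ := PD.amalg2_le hp.1 hq.1 h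
  exact ⟨hS.cd_un (PD.Cd.mono hS hp fun z hz => mem_un.2 (Or.inl hz))
    (PD.Cd.mono hS hq fun z hz => mem_un.2 (Or.inr hz)) h1 h2, h1, h2⟩

/-- Two-sided amalgamation over a condition `r` at the common steps. -/
theorem PD.Ok.amalg3 {D E p q r : M} (hp : S.Cd D p) (hq : S.Cd E q) (hr : S.Cd (it D E) r)
    (h : AtLe S.on r (re p (it D E))) (h' : AtLe S.on r (re q (it D E))) :
    S.Cd (un D E) (un (un r p) (un r q)) ∧ AtLe S.on (un (un r p) (un r q)) r ∧
      AtLe S.on (un (un r p) (un r q)) p ∧ AtLe S.on (un (un r p) (un r q)) q := by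
  have hD : Sb (it D E) D := fun z hz => (mem_it.1 hz).1
  have hE : Sb (it D E) E := fun z hz => (mem_it.1 hz).2
  obtain ⟨p1, p2, p3⟩ := hS.amalg hD hp hr h
  obtain ⟨q1, q2, q3⟩ := hS.amalg hE hq hr h'
  obtain ⟨h1, h2, h3⟩ := hS.amalg2 p1 q1 (by
    refine ext' fun z => ?_
    rw [mem_re, mem_re, mem_un, mem_un]
    constructor
    · rintro ⟨hz, k, hk, x, rfl⟩
      rcases hz with hz | hz
      · exact ⟨Or.inl hz, k, (mem_it.1 (op_mem_pd.1 (hr.1 _ hz)).1).1, x, rfl⟩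
      · have hkD := (op_mem_pd.1 (hp.1 _ hz)).1
        exact ⟨Or.inl (h.1 _ (op_mem_re.2 ⟨hz, mem_it.2 ⟨hkD, hk⟩⟩)), k, hkD, x, rfl⟩
    · rintro ⟨hz, k, hk, x, rfl⟩
      rcases hz with hz | hz
      · exact ⟨Or.inl hz, k, (mem_it.1 (op_mem_pd.1 (hr.1 _ hz)).1).2, x, rfl⟩
      · have hkE := (op_mem_pd.1 (hq.1 _ hz)).1
        exact ⟨Or.inl (h'.1 _ (op_mem_re.2 ⟨hz, mem_it.2 ⟨hk, hkE⟩⟩)), k, hkE, x, rfl⟩)
  exact ⟨h1, h2.trans p2, h2.trans p3, h3.trans q3⟩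

/-- The conditions at the steps in a closed set form a complete suborder. -/
theorem PD.Ok.csub {D E : M} (hD : S.Cl D) (hDE : Sb D E) :
    CSub (S.cn D) (S.le D) (S.cn E) (S.le E) em where
  po := hS.po E
  sub p hp := hS.mem_cn.2 (PD.Cd.mono hS (hS.mem_cn.1 hp) hDE)
  one_mem := hS.mem_cn.2 (hS.cd_em D)
  le_iff p q := by
    rw [hS.op_mem_le, hS.op_mem_le, hS.mem_cn, hS.mem_cn]
    constructor
    · rintro ⟨h1, h2, h3⟩
      exact ⟨h1, h2, PD.Cd.mono hS h1 hDE, PD.Cd.mono hS h2 hDE, h3⟩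
    · rintro ⟨h1, h2, -, -, h3⟩
      exact ⟨h1, h2, h3⟩
  comp p q hp hq h := by
    rw [hS.mem_cn] at hp hq
    obtain ⟨r, h1, h2⟩ := h
    obtain ⟨h3, h4, h5⟩ := hS.un_glb hp hq
      ⟨r, (hS.op_mem_le.1 h1).2.2, (hS.op_mem_le.1 h2).2.2⟩
    exact ⟨_, hS.op_mem_le.2 ⟨h3, hp, h4⟩, hS.op_mem_le.2 ⟨h3, hq, h5⟩⟩
  red u hu := by
    rw [hS.mem_cn] at hu
    refine ⟨re u D, hS.mem_cn.2 (hS.cd_re hu hD), fun p' hp' => ?_⟩
    obtain ⟨h1, -, h2⟩ := hS.op_mem_le.1 hp'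
    obtain ⟨h3, h4, h5⟩ := hS.amalg hDE hu h1 h2
    exact ⟨_, hS.op_mem_le.2 ⟨h3, PD.Cd.mono hS h1 hDE, h4⟩, hS.op_mem_le.2 ⟨h3, hu, h5⟩⟩

/-- The restriction is a reduction. -/
theorem PD.Ok.red_re {D E p : M} (hD : S.Cl D) (hDE : Sb D E) (hp : S.Cd E p) :
    Red (S.cn D) (S.le D) (S.le E) (re p D) p := by
  refine ⟨hS.mem_cn.2 (hS.cd_re hp hD), fun p' hp' => ?_⟩
  obtain ⟨h1, -, h2⟩ := hS.op_mem_le.1 hp'
  obtain ⟨h3, h4, h5⟩ := hS.amalg hDE hp h1 h2
  exact ⟨_, hS.op_mem_le.2 ⟨h3, PD.Cd.mono hS h1 hDE, h4⟩, hS.op_mem_le.2 ⟨h3, hp, h5⟩⟩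

/-- A condition at the steps in `D` is a reduction of `p` if and only if each of its extensions is
compatible with `p`; such a condition is compatible with the restriction of `p`. -/
theorem PD.Ok.red_comp {D E p r : M} (hD : S.Cl D) (hp : S.Cd E p)
    (h : Red (S.cn D) (S.le D) (S.le E) r p) :
    S.Cd D (un r (re p D)) ∧ AtLe S.on (un r (re p D)) r ∧ AtLe S.on (un r (re p D)) (re p D) := by
  have hr : S.Cd D r := hS.mem_cn.1 h.1
  obtain ⟨s, h1, h2⟩ := h.2 r ((hS.po D).refl _ h.1)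
  exact hS.un_glb hr (hS.cd_re hp hD)
    ⟨s, (hS.op_mem_le.1 h1).2.2, (hS.op_mem_le.1 h2).2.2.trans (atLe_re p D)⟩

theorem PD.Ok.cl_un {D E : M} (hD : S.Cl D) (hE : S.Cl E) : S.Cl (un D E) := by
  intro k hk z hz
  rcases mem_un.1 hk with h | h
  · exact mem_un.2 (Or.inl (hD k h z hz))
  · exact mem_un.2 (Or.inr (hE k h z hz))

theorem PD.Ok.cl_it {D E : M} (hD : S.Cl D) (hE : S.Cl E) : S.Cl (it D E) := by
  intro k hk z hz
  rw [mem_it] at hk ⊢
  exact ⟨hD k hk.1 z hz, hE k hk.2 z hz⟩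

/-- Two closed sets are amalgamated over their intersection. -/
theorem PD.Ok.amal {D E : M} (hD : S.Cl D) (hE : S.Cl E) :
    Amal (S.cn (it D E)) (S.le (it D E)) (S.cn D) (S.le D) (S.cn E) (S.le E)
      (S.cn (un D E)) (S.le (un D E)) em := by
  have h0D : Sb (it D E) D := fun z hz => (mem_it.1 hz).1
  have h0E : Sb (it D E) E := fun z hz => (mem_it.1 hz).2
  have hDu : Sb D (un D E) := fun z hz => mem_un.2 (Or.inl hz)
  have hEu : Sb E (un D E) := fun z hz => mem_un.2 (Or.inr hz)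
  have h0 := hS.cl_it hD hE
  refine ⟨hS.csub h0 (h0D.trans hDu), hS.csub hD hDu, hS.csub hE hEu, ?_, ?_⟩
  · intro r p q hp hq h1 h2
    rw [hS.mem_cn] at hp hq
    have hpu := PD.Cd.mono hS hp hDu
    have hqu := PD.Cd.mono hS hq hEu
    obtain ⟨p1, p2, p3⟩ := hS.red_comp h0 hpu h1
    -- an extension of `r` below the restriction of `p`
    have h2' : Red (S.cn (it D E)) (S.le (it D E)) (S.le (un D E)) (un r (re p (it D E))) q :=
      h2.mono (hS.csub h0 (h0D.trans hDu)) (hS.op_mem_le.2 ⟨p1, hS.mem_cn.1 h1.1, p2⟩)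
    obtain ⟨q1, q2, q3⟩ := hS.red_comp h0 hqu h2'
    obtain ⟨s1, -, s2, s3⟩ := hS.amalg3 hp hq q1 (q2.trans p3) q3
    exact ⟨_, hS.op_mem_le.2 ⟨s1, hpu, s2⟩, hS.op_mem_le.2 ⟨s1, hqu, s3⟩⟩
  · intro u hu
    rw [hS.mem_cn] at hu
    have h1 := hS.cd_re hu hD
    have h2 := hS.cd_re hu hE
    refine ⟨u, re u D, re u E, (hS.po _).refl _ (hS.mem_cn.2 hu), hS.mem_cn.2 h1,
      hS.mem_cn.2 h2, hS.op_re_mem_le hu hD hDu, hS.op_re_mem_le hu hE hEu, fun s h3 h4 => ?_⟩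
    have hs := (hS.op_mem_le.1 h3).1
    refine ⟨s, (hS.po _).refl _ (hS.mem_cn.2 hs), hS.op_mem_le.2 ⟨hs, hu, ?_⟩⟩
    have h5 := (hS.op_mem_le.1 h3).2.2.union (hS.op_mem_le.1 h4).2.2
    have h6 : un (re u D) (re u E) = u := by
      refine ext' fun z => ?_
      rw [mem_un]
      constructor
      · rintro (h | h)
        · exact re_sb z h
        · exact re_sb z h
      · intro hz
        obtain ⟨k, hk, x, -, rfl⟩ := mem_pd.1 (hu.1 z hz)
        rcases mem_un.1 hk with h | h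
        · exact Or.inl (op_mem_re.2 ⟨hz, h⟩)
        · exact Or.inr (op_mem_re.2 ⟨hz, h⟩)
    rwa [h6] at h5

end

/-- The conditions at the steps in `D` depend only on the data at the steps in `D`. -/
theorem PD.cd_congr {S S' : PD M} {D p : M} (hFi : ∀ x, S.Fi x ↔ S'.Fi x) (hX : S.X = S'.X)
    (hdep : ∀ k, k ∈ D → S.dep k = S'.dep k)
    (hJ : ∀ k a q, k ∈ D → (S.J k a q ↔ S'.J k a q)) : S.Cd D p ↔ S'.Cd D p := by
  have hk : Sb p (pd D S'.X) → ∀ k a, ba k a ∈ p → k ∈ D := fun h k a h1 =>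
    (op_mem_pd.1 (h _ h1)).1
  unfold PD.Cd
  rw [hX, hFi]
  refine and_congr_right fun h1 => and_congr_right fun _ => ?_
  refine forall_congr' fun k => forall_congr' fun a => imp_congr_right fun h2 => ?_
  have h3 := hk h1 k a h2
  rw [hJ k a _ h3, hdep k h3]

theorem PD.cn_congr {S S' : PD M} (hS : S.Ok) (hS' : S'.Ok) {D : M}
    (hFi : ∀ x, S.Fi x ↔ S'.Fi x) (hX : S.X = S'.X)
    (hdep : ∀ k, k ∈ D → S.dep k = S'.dep k)
    (hJ : ∀ k a q, k ∈ D → (S.J k a q ↔ S'.J k a q)) : S.cn D = S'.cn D := by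
  refine ext' fun p => ?_
  rw [hS.mem_cn, hS'.mem_cn]
  exact PD.cd_congr hFi hX hdep hJ

theorem PD.le_congr {S S' : PD M} (hS : S.Ok) (hS' : S'.Ok) {D : M}
    (hFi : ∀ x, S.Fi x ↔ S'.Fi x) (hX : S.X = S'.X) (hon : S.on = S'.on)
    (hdep : ∀ k, k ∈ D → S.dep k = S'.dep k)
    (hJ : ∀ k a q, k ∈ D → (S.J k a q ↔ S'.J k a q)) : S.le D = S'.le D := by
  refine ext' fun z => ?_
  have key : ∀ {T : PD M}, T.Ok → (z ∈ T.le D ↔ ∃ q p, z = op q p ∧ op q p ∈ T.le D) := by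
    intro T hT
    constructor
    · intro hz
      have h1 : z ∈ pd (T.cn D) (T.cn D) ∧ ∃ q' p', z = op q' p' ∧ AtLe T.on q' p' :=
        (mem_sp (by simp (maxDischargeDepth := 50) [hT.dfn_AtLe])).1 hz
      obtain ⟨-, q, p, rfl, -⟩ := h1
      exact ⟨q, p, rfl, hz⟩
    · rintro ⟨q, p, rfl, h⟩
      exact h
  rw [key hS, key hS']
  refine exists_congr fun q => exists_congr fun p => and_congr_right fun _ => ?_
  rw [hS.op_mem_le, hS'.op_mem_le, PD.cd_congr hFi hX hdep hJ, PD.cd_congr hFi hX hdep hJ, hon]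

end Pool.Agent.Sep
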