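import Pool.Agent.Sep.SeqU
import Pool.Agent.Sep.Codes
import Pool.Agent.Sep.HC
import Pool.Agent.Sep.SeqEmb

/-!
The coding relation is `Σ¹₃` in all extensions of a model of the axiom of constructibility which
have the same countable ordinals.
-/

universe u

set_option linter.unusedSectionVars false

namespace Pool.Agent.Sep

open Pool.Agent.SigB Pool.Agent.Forc
open scoped Pool.Agent.GL.ToSig

/-! ### The formula -/

section

open Pool.Agent.GL (IsZF)

variable {M : Type u} [Membership M M] [IsZF M]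

def IsOne (k : M) : Prop := ∃ t, t ∈ k ∧ t = GL.em ∧ k = GL.sc t

def IsTwo (k : M) : Prop := ∃ t, t ∈ k ∧ IsOne t ∧ k = GL.sc t

def IsThree (k : M) : Prop := ∃ t, t ∈ k ∧ IsTwo t ∧ k = GL.sc t

/-- `x` belongs to the word of `(z, e, i)`, for `p = (e, i)`. -/
def WdR (x z p : M) : Prop := ∃ k y, x = GL.op k y ∧ ((k = GL.em ∧ y ∈ z) ∨
  (IsThree k ∧ y = GL.em) ∨ ∃ e i, p = GL.op e i ∧ ((IsOne k ∧ y ∈ e) ∨ (IsTwo k ∧ y = i)))

/-- The word belongs to the basic open set with the label given by `c`. -/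
def InR (c z p : M) : Prop := ∃ p₁ r₁, c = GL.op p₁ r₁ ∧ ∃ b₁ t₁, p₁ = GL.op b₁ t₁ ∧
  ∃ c₁ d₁, b₁ = GL.op c₁ d₁ ∧ (∀ x, x ∈ c₁ → WdR x z p) ∧ ∀ x, x ∈ d₁ → ¬ WdR x z p

def BndR (o r x : M) : Prop := ∃ m, m ∈ o ∧ ∀ t, t ∈ r → GL.Sb t x → ∃ n, n ∈ m ∧ GL.Fn t n

/-- The coding condition at the index `α`. -/
def LocR (h g o α r z p : M) : Prop :=
  ∀ y, GL.op α y ∈ g → ∀ c, GL.op α c ∈ h → (BndR o r y ↔ ¬ InR c z p)

/-- The coding condition for the tables given by `a`. -/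
def PsiR (a r z p : M) : Prop := ¬ ∃ h a₁, a = GL.op h a₁ ∧ ∃ γ a₂, a₁ = GL.op γ a₂ ∧
  ∃ g a₃, a₂ = GL.op g a₃ ∧ ∃ o a₄, a₃ = GL.op o a₄ ∧ ∃ W a₅, a₄ = GL.op W a₅ ∧
  ∃ A α, a₅ = GL.op A α ∧ TabG h γ g o W A ∧ α ∈ A ∧ ¬ LocR h g o α r z p

end

variable {n : ℕ}

theorem b0_isOne (i : Fin n) : B0 (fun (M : Mdl.{u}) (v : Fin n → M) => IsOne (v i)) := by
  unfold IsOne
  repeat' (first
    | exact B0.mem _ _ | exact B0.eq _ _ | exact b0_opmem _ _ _ | exact b0_sb _ _ | exact b0_tr _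
    | exact b0_ord _ | exact b0_em _ | exact b0_om _ | exact b0_pr _ _ _ | exact b0_op _ _ _
    | exact b0_un _ _ _ | exact b0_sc _ _ | exact b0_fn _ _ | refine B0.and ?_ ?_
    | refine B0.or ?_ ?_ | refine B0.not ?_ | refine B0.imp ?_ ?_ | refine B0.iff ?_ ?_
    | (refine B0.bex _ ?_; beta_reduce) | (refine B0.ball _ ?_; beta_reduce)
    | (refine B0.exval _ _ ?_; beta_reduce) | (refine B0.allval _ _ ?_; beta_reduce)
    | (refine B0.exop _ ?_; beta_reduce))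

theorem b0_isTwo (i : Fin n) : B0 (fun (M : Mdl.{u}) (v : Fin n → M) => IsTwo (v i)) := by
  unfold IsTwo
  repeat' (first
    | exact b0_isOne _
    | exact B0.mem _ _ | exact B0.eq _ _ | exact b0_opmem _ _ _ | exact b0_sb _ _ | exact b0_tr _
    | exact b0_ord _ | exact b0_em _ | exact b0_om _ | exact b0_pr _ _ _ | exact b0_op _ _ _
    | exact b0_un _ _ _ | exact b0_sc _ _ | exact b0_fn _ _ | refine B0.and ?_ ?_
    | refine B0.or ?_ ?_ | refine B0.not ?_ | refine B0.imp ?_ ?_ | refine B0.iff ?_ ?_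
    | (refine B0.bex _ ?_; beta_reduce) | (refine B0.ball _ ?_; beta_reduce)
    | (refine B0.exval _ _ ?_; beta_reduce) | (refine B0.allval _ _ ?_; beta_reduce)
    | (refine B0.exop _ ?_; beta_reduce))

theorem b0_isThree (i : Fin n) : B0 (fun (M : Mdl.{u}) (v : Fin n → M) => IsThree (v i)) := by
  unfold IsThree
  repeat' (first
    | exact b0_isTwo _
    | exact B0.mem _ _ | exact B0.eq _ _ | exact b0_opmem _ _ _ | exact b0_sb _ _ | exact b0_tr _
    | exact b0_ord _ | exact b0_em _ | exact b0_om _ | exact b0_pr _ _ _ | exact b0_op _ _ _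
    | exact b0_un _ _ _ | exact b0_sc _ _ | exact b0_fn _ _ | refine B0.and ?_ ?_
    | refine B0.or ?_ ?_ | refine B0.not ?_ | refine B0.imp ?_ ?_ | refine B0.iff ?_ ?_
    | (refine B0.bex _ ?_; beta_reduce) | (refine B0.ball _ ?_; beta_reduce)
    | (refine B0.exval _ _ ?_; beta_reduce) | (refine B0.allval _ _ ?_; beta_reduce)
    | (refine B0.exop _ ?_; beta_reduce))

theorem b0_wdR (x z p : Fin n) : B0 (fun (M : Mdl.{u}) (v : Fin n → M) =>
    WdR (v x) (v z) (v p)) := by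
  unfold WdR
  repeat' (first
    | exact b0_isOne _ | exact b0_isTwo _ | exact b0_isThree _
    | exact B0.mem _ _ | exact B0.eq _ _ | exact b0_opmem _ _ _ | exact b0_sb _ _ | exact b0_tr _
    | exact b0_ord _ | exact b0_em _ | exact b0_om _ | exact b0_pr _ _ _ | exact b0_op _ _ _
    | exact b0_un _ _ _ | exact b0_sc _ _ | exact b0_fn _ _ | refine B0.and ?_ ?_
    | refine B0.or ?_ ?_ | refine B0.not ?_ | refine B0.imp ?_ ?_ | refine B0.iff ?_ ?_
    | (refine B0.bex _ ?_; beta_reduce) | (refine B0.ball _ ?_; beta_reduce)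
    | (refine B0.exval _ _ ?_; beta_reduce) | (refine B0.allval _ _ ?_; beta_reduce)
    | (refine B0.exop _ ?_; beta_reduce))

theorem b0_inR (c z p : Fin n) : B0 (fun (M : Mdl.{u}) (v : Fin n → M) =>
    InR (v c) (v z) (v p)) := by
  unfold InR
  repeat' (first
    | exact b0_wdR _ _ _
    | exact B0.mem _ _ | exact B0.eq _ _ | exact b0_opmem _ _ _ | exact b0_sb _ _ | exact b0_tr _
    | exact b0_ord _ | exact b0_em _ | exact b0_om _ | exact b0_pr _ _ _ | exact b0_op _ _ _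
    | exact b0_un _ _ _ | exact b0_sc _ _ | exact b0_fn _ _ | refine B0.and ?_ ?_
    | refine B0.or ?_ ?_ | refine B0.not ?_ | refine B0.imp ?_ ?_ | refine B0.iff ?_ ?_
    | (refine B0.bex _ ?_; beta_reduce) | (refine B0.ball _ ?_; beta_reduce)
    | (refine B0.exval _ _ ?_; beta_reduce) | (refine B0.allval _ _ ?_; beta_reduce)
    | (refine B0.exop _ ?_; beta_reduce))

theorem b0_bndR (o r x : Fin n) : B0 (fun (M : Mdl.{u}) (v : Fin n → M) =>
    BndR (v o) (v r) (v x)) := by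
  unfold BndR
  repeat' (first
    | exact B0.mem _ _ | exact B0.eq _ _ | exact b0_opmem _ _ _ | exact b0_sb _ _ | exact b0_tr _
    | exact b0_ord _ | exact b0_em _ | exact b0_om _ | exact b0_pr _ _ _ | exact b0_op _ _ _
    | exact b0_un _ _ _ | exact b0_sc _ _ | exact b0_fn _ _ | refine B0.and ?_ ?_
    | refine B0.or ?_ ?_ | refine B0.not ?_ | refine B0.imp ?_ ?_ | refine B0.iff ?_ ?_
    | (refine B0.bex _ ?_; beta_reduce) | (refine B0.ball _ ?_; beta_reduce)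
    | (refine B0.exval _ _ ?_; beta_reduce) | (refine B0.allval _ _ ?_; beta_reduce)
    | (refine B0.exop _ ?_; beta_reduce))

theorem b0_locR (h g o α r z p : Fin n) : B0 (fun (M : Mdl.{u}) (v : Fin n → M) =>
    LocR (v h) (v g) (v o) (v α) (v r) (v z) (v p)) := by
  unfold LocR
  repeat' (first
    | exact b0_bndR _ _ _ | exact b0_inR _ _ _
    | exact B0.mem _ _ | exact B0.eq _ _ | exact b0_opmem _ _ _ | exact b0_sb _ _ | exact b0_tr _
    | exact b0_ord _ | exact b0_em _ | exact b0_om _ | exact b0_pr _ _ _ | exact b0_op _ _ _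
    | exact b0_un _ _ _ | exact b0_sc _ _ | exact b0_fn _ _ | refine B0.and ?_ ?_
    | refine B0.or ?_ ?_ | refine B0.not ?_ | refine B0.imp ?_ ?_ | refine B0.iff ?_ ?_
    | (refine B0.bex _ ?_; beta_reduce) | (refine B0.ball _ ?_; beta_reduce)
    | (refine B0.exval _ _ ?_; beta_reduce) | (refine B0.allval _ _ ?_; beta_reduce)
    | (refine B0.exop _ ?_; beta_reduce))

theorem b0_psiR (a r z p : Fin n) : B0 (fun (M : Mdl.{u}) (v : Fin n → M) =>
    PsiR (v a) (v r) (v z) (v p)) := by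
  unfold PsiR
  repeat' (first
    | exact b0_tabG _ _ _ _ _ _ | exact b0_locR _ _ _ _ _ _ _
    | exact B0.mem _ _ | exact B0.eq _ _ | exact b0_opmem _ _ _ | exact b0_sb _ _ | exact b0_tr _
    | exact b0_ord _ | exact b0_em _ | exact b0_om _ | exact b0_pr _ _ _ | exact b0_op _ _ _
    | exact b0_un _ _ _ | exact b0_sc _ _ | exact b0_fn _ _ | refine B0.and ?_ ?_
    | refine B0.or ?_ ?_ | refine B0.not ?_ | refine B0.imp ?_ ?_ | refine B0.iff ?_ ?_
    | (refine B0.bex _ ?_; beta_reduce) | (refine B0.ball _ ?_; beta_reduce)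
    | (refine B0.exval _ _ ?_; beta_reduce) | (refine B0.allval _ _ ?_; beta_reduce)
    | (refine B0.exop _ ?_; beta_reduce))

/-! ### The meaning of the formula -/

section

variable {M : Type u} [Membership M M] [IsZFC M]

theorem isOne_iff {k : M} : IsOne k ↔ k = sc SigB.em := by
  constructor
  · rintro ⟨t, -, h1, h2⟩
    rw [h2, h1]; rfl
  · rintro rfl
    exact ⟨SigB.em, mem_sc_self _, rfl, rfl⟩

theorem isTwo_iff {k : M} : IsTwo k ↔ k = sc (sc SigB.em) := by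
  constructor
  · rintro ⟨t, -, h1, h2⟩
    rw [h2, isOne_iff.1 h1]; rfl
  · rintro rfl
    exact ⟨sc SigB.em, mem_sc_self _, isOne_iff.2 rfl, rfl⟩

theorem isThree_iff {k : M} : IsThree k ↔ k = sc (sc (sc SigB.em)) := by
  constructor
  · rintro ⟨t, -, h1, h2⟩
    rw [h2, isTwo_iff.1 h1]; rfl
  · rintro rfl
    exact ⟨sc (sc SigB.em), mem_sc_self _, isTwo_iff.2 rfl, rfl⟩

theorem wdR_iff {x z e i : M} : WdR x z (op e i) ↔ x ∈ wd z e i := by
  rw [mem_wd]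
  unfold WdR
  simp only [GL.toSig_op, GL.toSig_em, isOne_iff, isTwo_iff, isThree_iff]
  constructor
  · rintro ⟨k, y, rfl, h⟩
    rcases h with ⟨rfl, h⟩ | ⟨rfl, rfl⟩ | ⟨e', i', he, h⟩
    · exact Or.inl ⟨y, h, rfl⟩
    · exact Or.inr (Or.inr (Or.inr rfl))
    · obtain ⟨rfl, rfl⟩ := op_inj.1 he
      rcases h with ⟨rfl, h⟩ | ⟨rfl, rfl⟩
      · exact Or.inr (Or.inl ⟨y, h, rfl⟩)
      · exact Or.inr (Or.inr (Or.inl rfl))
  · rintro (⟨y, h, rfl⟩ | ⟨y, h, rfl⟩ | rfl | rfl)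
    · exact ⟨_, _, rfl, Or.inl ⟨rfl, h⟩⟩
    · exact ⟨_, _, rfl, Or.inr (Or.inr ⟨_, _, rfl, Or.inl ⟨rfl, h⟩⟩)⟩
    · exact ⟨_, _, rfl, Or.inr (Or.inr ⟨_, _, rfl, Or.inr ⟨rfl, rfl⟩⟩)⟩
    · exact ⟨_, _, rfl, Or.inr (Or.inl ⟨rfl, rfl⟩)⟩

theorem inR_iff {a z e i : M} : InR (GL.Fc a) z (op e i) ↔ InB (lb a) (wd z e i) := by
  unfold InR InB
  simp only [GL.toSig_op, wdR_iff]
  constructor
  · rintro ⟨p₁, r₁, h1, b₁, t₁, rfl, c₁, d₁, rfl, h2, h3⟩
    refine ⟨c₁, d₁, ?_, h2, h3⟩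
    unfold lb
    rw [h1, fst_op, fst_op]
  · rintro ⟨c, d, h1, h2, h3⟩
    unfold lb at h1
    by_cases h4 : ∃ p r, GL.Fc a = op p r
    · obtain ⟨p, r, h4⟩ := h4
      rw [h4, fst_op] at h1
      by_cases h5 : ∃ b t, p = op b t
      · obtain ⟨b, t, rfl⟩ := h5
        rw [fst_op] at h1
        exact ⟨_, _, h4, _, _, rfl, _, _, h1, h2, h3⟩
      · rw [fst_of_not h5] at h1
        exact (em_ne_op h1).elim
    · rw [fst_of_not h4, fst_em] at h1
      exact (em_ne_op h1).elim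

theorem locR_iff {h γ g W A α r z e i : M} (hT : TabG h γ g om W A) (hα : α ∈ A) :
    LocR h g om α r z (op e i) ↔ (Bnd r (br α) ↔ ¬ InB (lb α) (wd z e i)) := by
  have h1 := hT.eq α hα
  obtain ⟨hh, -, -, -, -, hAγ, hg, -⟩ := hT
  have hg : Fn g A := hg
  have hbnd : ∀ y, BndR om r y ↔ Bnd r y := fun y => Iff.rfl
  unfold LocR
  simp only [GL.toSig_op]
  constructor
  · intro h2
    have h3 := h2 _ ((hg.op_mem_iff hα).2 rfl) _ ((hh.mem_iff (hAγ α hα)).2 rfl)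
    rwa [h1, hbnd, inR_iff] at h3
  · intro h2 y hy c hc
    have hc : c = GL.Fc α := (hh.mem_iff (hAγ α hα)).1 hc
    rw [hg.op_mem_iff hα, h1] at hy
    subst hc hy
    rw [hbnd, inR_iff]
    exact h2

/-- All countable ordinals have countable tables of branches. -/
def Wit (M : Type u) [Membership M M] [IsZFC M] : Prop :=
  ∀ a : M, Ord a → Le a om → ∃ ξ W h g : M, Tr W ∧ Le W om ∧ Sb h W ∧ Sb ξ W ∧ Sb g W ∧
    Sb om W ∧ Sb (sc a) W ∧ TabG h ξ g om W (sc a)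

theorem HCt.of_tr {W : M} (h : Tr W) (hc : Le W om) : HCt W :=
  HCt.of_mem hc fun _ hy => ⟨W, h, hy, hc⟩

theorem HCt.of_op {x y : M} (h : HCt (SigB.op x y)) : HCt x ∧ HCt y := by
  have h1 : HCt (SigB.pr x y) := h.mem (by unfold SigB.op; simp)
  exact ⟨h1.mem (by simp), h1.mem (by simp)⟩

/-- The formula describes the coding relation. -/
theorem psiR_iff (hW : Wit M) {r z e i : M} :
    (∀ a, HCt a → PsiR a r z (op e i)) ↔ Codes r (wd z e i) := by
  constructor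
  · intro H α hα hαc
    obtain ⟨ξ, W, h, g, h1, h2, h3, h4, h5, h6, h7, h8⟩ := hW α hα hαc
    have hWc := HCt.of_tr h1 h2
    rw [← locR_iff h8 (mem_sc_self α)]
    by_contra hn
    refine H (op h (op ξ (op g (op om (op W (op (sc α) α)))))) ?_ ?_
    · exact (hWc.sb h3).op ((hWc.sb h4).op ((hWc.sb h5).op ((hWc.sb h6).op (hWc.op
        ((hWc.sb h7).op ((hWc.sb h7).mem (mem_sc_self α)))))))
    · exact ⟨_, _, rfl, _, _, rfl, _, _, rfl, _, _, rfl, _, _, rfl, _, _, rfl, h8,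
        mem_sc_self α, hn⟩
  · rintro H a ha ⟨h, a₁, rfl, γ, a₂, rfl, g, a₃, rfl, o, a₄, rfl, W, a₅, rfl, A, α, rfl, hT, hα,
      hn⟩
    have ha : HCt (op h (op γ (op g (op o (op W (op A α)))))) := ha
    have hA : HCt A := (ha.of_op.2.of_op.2.of_op.2.of_op.2.of_op.2).of_op.1
    have hOA : Ord A := hT.2.2.2.1
    have ho : o = om := hT.2.1
    subst ho
    exact hn ((locR_iff hT hα).2 (H α (hOA.mem hα) (hA.mem hα).le))

/-- The relation `z is coded with e, i`. -/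
def Cod (z e i : M) : Prop := ∃ r, Sb r Sq ∧ Codes r (wd z e i)

@[simp] theorem dfn_Cod {n : ℕ} {s t r : (Fin n → M) → M} (hs : DT s) (ht : DT t)
    (hr : DT r) : Dfn (fun v => Cod (s v) (t v) (r v)) :=
  dfn3 (R := Cod) (by unfold Cod; simp (maxDischargeDepth := 50)) hs ht hr

theorem hct_HF : HCt (HF : M) := HCt.of_tr tr_HF le_HF

theorem hct_Sq : HCt (Sq : M) := hct_HF.sb Sq_sb_HF

/-- The coding relation is `Σ¹₃`. -/
theorem exists_sigT_cod (hW : Wit M) {e i : M} (he : HCt e) (hi : HCt i) :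
    ∃ T : M, ∀ z, z ∈ fs (om : M) om → (Cod z e i ↔ SigT T z) := by
  obtain ⟨ψ, hψ⟩ := b0_psiR (n := 4) 0 1 2 3
  obtain ⟨T, hT⟩ := hc ψ (he.op hi) (hct_Sq (M := M))
  refine ⟨T, fun z hz => ?_⟩
  rw [hT z hz]
  unfold Cod
  refine exists_congr fun r => and_congr Iff.rfl ?_
  rw [← psiR_iff hW]
  exact forall_congr' fun a => imp_congr_right fun _ =>
    (hψ ⟨M⟩ ![a, r, z, op e i] : _ ↔ ψ.Holds ![a, r, z, op e i])

theorem wit_of_allL (hL : GL.AllL M) : Wit M := by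
  intro a ha hc
  obtain ⟨ξ, W, h1, h2, h3, h4, h5, h6, h7, h8⟩ := exists_tabG hL ha hc
  exact ⟨ξ, W, _, _, h1, h2, h3, h4, h5, h6, h7, h8⟩

end

/-! ### Extensions -/

section

variable {M N : Type u} [Membership M M] [Membership N N] [IsZFC M] [IsZFC N] {j : M → N}

theorem le_emb (hj : GL.TrEmb j) {x y : M} (h : Le x y) : Le (j x) (j y) := by
  obtain ⟨f, hf, hi⟩ := h
  refine ⟨j f, hj.s_mem_fs.2 hf, fun a' b' ha' hb' he => ?_⟩
  obtain ⟨a, ha, rfl⟩ := hj.mem.1 ha'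
  obtain ⟨b, hb, rfl⟩ := hj.mem.1 hb'
  rw [← hj.s_ap, ← hj.s_ap, hj.inj] at he
  rw [hi a b ha hb he]

theorem le_om_emb (hj : GL.TrEmb j) {x : M} (h : Le x om) : Le (j x) om := by
  have := le_emb hj h
  rwa [hj.s_om] at this

theorem tabG_emb (hj : GL.TrEmb j) {h γ g o W a : M} :
    TabG (j h) (j γ) (j g) (j o) (j W) (j a) ↔ TabG h γ g o W a := by
  have := (b0_tabG.{u} (n := 6) 0 1 2 3 4 5).emb (M := M) (N := N) (j := j)
    (fun x y h => hj.inj.1 h) (fun x y => hj.mem_iff) (fun y z hz => by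
      obtain ⟨x, -, rfl⟩ := hj.mem.1 hz
      exact ⟨x, rfl⟩) ![h, γ, g, o, W, a]
  simpa using this

theorem wit_emb (hj : GL.TrEmb j) (hM : Wit M)
    (hc : ∀ a : N, Ord a → Le a om → ∃ b : M, a = j b ∧ Le b om) : Wit N := by
  intro a ha hac
  obtain ⟨b, rfl, hb⟩ := hc a ha hac
  obtain ⟨ξ, W, h, g, h1, h2, h3, h4, h5, h6, h7, h8⟩ := hM b (hj.s_ord.1 ha) hb
  refine ⟨j ξ, j W, j h, j g, hj.s_tr.2 h1, le_om_emb hj h2, hj.s_sb.2 h3, hj.s_sb.2 h4,
    hj.s_sb.2 h5, ?_, ?_, ?_⟩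
  · rw [← hj.s_om]; exact hj.s_sb.2 h6
  · rw [← hj.s_sc]; exact hj.s_sb.2 h7
  · rw [← hj.s_om, ← hj.s_sc]; exact (tabG_emb hj).2 h8

end

end Pool.Agent.Sep
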