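import Pool.Agent.Sep.Rule

/-!
# The steps of the construction and the properties of the final system
-/

namespace Pool.Agent.Sep

namespace Api

variable {A : Api}

/-- The real `z` is coded at the tag `t` below the condition `q`. -/
def Coded (A : Api) (X : A.Sy) (t : A.Lb) (z : A.Nm) (q : A.Cn) : Prop :=
  ∃ l, A.At X t l ∧ A.le q (A.gd X l) ∧ A.FE X q (A.zn X l) z

/-- The real `z` is hopeless for the pair `a, b` below `q`. -/
def Hopeless (A : Api) (X : A.Sy) (O : Set A.Lb) (a b z : A.Nm) (q : A.Cn) : Prop :=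
  ∀ Y, A.L X O Y → ∀ r ∈ A.P Y, A.le r q → ¬ A.FA Y r a z ∧ ¬ A.FA Y r b z

section

variable (h : A.Laws)

include h

/-! ### Persistence -/

theorem Coded.up {X Y : A.Sy} (hXY : A.Sub X Y) {t : A.Lb} {z : A.Nm} {q r : A.Cn}
    (hz : z ∈ A.N X) (hq : q ∈ A.P X) (hr : r ∈ A.P Y) (hrq : A.le r q)
    (hc : A.Coded X t z q) : A.Coded Y t z r := by
  obtain ⟨l, hl, hg, he⟩ := hc
  refine ⟨l, h.at_mono hXY hl, ?_, ?_⟩
  · rw [h.gd_eq hXY hl.1]
    exact h.le_trans hrq hg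
  · rw [h.zn_eq hXY hl.1]
    exact h.fe_mono (h.P_mono hXY hq) hr (h.N_mono hXY (h.zn_mem' hl)) (h.N_mono hXY hz)
      (h.fe_up hXY hq (h.zn_mem' hl) hz he) hrq

theorem Hopeless.up {X Y : A.Sy} {O O' : Set A.Lb} {a b z : A.Nm} {q r : A.Cn}
    (hE : A.PExt X O Y O') (hrq : A.le r q) (hh : A.Hopeless X O a b z q) :
    A.Hopeless Y O' a b z r := by
  intro Z hZ s hs hsr
  exact hh Z (L.trans h hE.1 hZ hE.2) s hs (h.le_trans hsr hrq)

/-! ### The tasks -/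

/-- Task for a pair at tags of the first kind. -/
theorem Pos.task_sig {X : A.Sy} {O : Set A.Lb} (hP : A.Pos X O) {a b : A.Nm} {q : A.Cn}
    (ha : a ∈ A.N X) (hb : b ∈ A.N X) (hq : q ∈ A.P X) :
    ∃ Y O', A.Pos Y O' ∧ A.PExt X O Y O' ∧ ∃ r ∈ A.P Y, A.le r q ∧
      ((∃ z ∈ A.N Y, A.FA Y r a z ∧ A.FA Y r b z) ∨
        ∃ t ∈ O', ¬ A.PI Y t ∧ A.pa Y t = a ∧ A.pb Y t = b ∧ A.le r (A.gd Y t)) := by
  by_cases hk : ∃ Y, A.L X O Y ∧ ∃ r ∈ A.P Y, A.le r q ∧ ∃ z ∈ A.N Y,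
      A.FA Y r a z ∧ A.FA Y r b z
  · obtain ⟨Y, hY, r, hr, hrq, z, hz, hf⟩ := hk
    exact ⟨Y, O, Pos.of_L h hP hY, hP.pext hY, r, hr, hrq, Or.inl ⟨z, hz, hf⟩⟩
  · obtain ⟨Y, t, hXY, htX, hI, ht, hpi, hd, ho, hg, hpa, hpb⟩ :=
      h.add_tag (X := X) (O := O) (g := q) (a := a) (b := b) False hP.int hP.sub hP.tag hq ha hb
    have hnk : A.NoKill Y t := by
      intro B hB s hs hsq z hz hf
      unfold LL at hB
      rw [hd, ho] at hB
      rw [hpa, hpb] at hf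
      rw [hg] at hsq
      exact hk ⟨B, hB, s, hs, hsq, z, hz, hf⟩
    obtain ⟨h1, h2⟩ := Pos.add h hP hXY htX hI ht hd ho (fun _ => hnk) fun e => (hpi.1 e).elim
    refine ⟨Y, insert t O, h1, h2, q, h.P_mono hXY hq, h.le_refl q, Or.inr ⟨t, Or.inl rfl,
      fun e => hpi.1 e, hpa, hpb, ?_⟩⟩
    rw [hg]
    exact h.le_refl q

/-- Task for a pair at tags of the second kind. -/
theorem Pos.task_pi {X : A.Sy} {O : Set A.Lb} (hP : A.Pos X O) {a b : A.Nm} {q : A.Cn}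
    (ha : a ∈ A.N X) (hb : b ∈ A.N X) (hq : q ∈ A.P X) :
    ∃ Y O', A.Pos Y O' ∧ A.PExt X O Y O' ∧ ∃ r ∈ A.P Y, A.le r q ∧
      ((∃ z ∈ A.N Y, A.Hopeless Y O' a b z r) ∨
        ∃ t ∈ O', A.PI Y t ∧ A.pa Y t = a ∧ A.pb Y t = b ∧ A.le r (A.gd Y t)) := by
  by_cases hk : ∃ Y, A.L X O Y ∧ ∃ z ∈ A.N Y, ∃ r ∈ A.P Y, A.le r q ∧ A.Hopeless Y O a b z r
  · obtain ⟨Y, hY, z, hz, r, hr, hrq, hf⟩ := hk
    exact ⟨Y, O, Pos.of_L h hP hY, hP.pext hY, r, hr, hrq, Or.inl ⟨z, hz, hf⟩⟩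
  · obtain ⟨Y, t, hXY, htX, hI, ht, hpi, hd, ho, hg, hpa, hpb⟩ :=
      h.add_tag (X := X) (O := O) (g := q) (a := a) (b := b) True hP.int hP.sub hP.tag hq ha hb
    have hbb : A.BB Y t := by
      intro B hB z hz s hs hsq
      unfold LL at hB
      rw [hd, ho] at hB
      rw [hg] at hsq
      rw [hpa, hpb, ho]
      by_contra hno
      refine hk ⟨B, hB, z, hz, s, hs, hsq, fun Z hZ r hr hrs => ?_⟩
      constructor
      · exact fun e => hno ⟨Z, hZ, r, hr, hrs, Or.inl e⟩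
      · exact fun e => hno ⟨Z, hZ, r, hr, hrs, Or.inr e⟩
    obtain ⟨h1, h2⟩ := Pos.add h hP hXY htX hI ht hd ho (fun e => (e (hpi.2 trivial)).elim)
      fun _ => hbb
    refine ⟨Y, insert t O, h1, h2, q, h.P_mono hXY hq, h.le_refl q, Or.inr ⟨t, Or.inl rfl,
      hpi.2 trivial, hpa, hpb, ?_⟩⟩
    rw [hg]
    exact h.le_refl q

/-- A new code step which obeys the rule of its open tag and does not clash. -/
theorem Pos.add_code {X Y : A.Sy} {O : Set A.Lb} (hP : A.Pos X O) {t k : A.Lb}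
    (ht : t ∈ O) (hXY : A.Sub X Y) (hkX : k ∉ A.I X) (hI : A.I Y = insert k (A.I X))
    (hkt : ¬ A.Tag Y k) (htk : A.tg Y k = t) (hok : A.OK Y k)
    (hcl : A.PI X t → ∀ l, A.At X t l → ∀ q ∈ A.P Y, A.le q (A.gd Y k) → A.le q (A.gd Y l) →
      ¬ A.FE Y q (A.zn Y k) (A.zn Y l)) : A.L X O Y := by
  have hold : ∀ l, l ∈ A.I Y → l ≠ k → l ∈ A.I X := by
    intro l hl hlk
    rw [hI] at hl
    exact hl.resolve_left hlk
  refine ⟨hXY, ?_, ?_⟩
  · intro l hl hlX hlt htX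
    have : l = k := by
      by_contra hne
      exact hlX (hold l hl hne)
    rw [this, htk]
    exact ⟨ht, hok⟩
  · intro u hu hpi m l hm hl hb q hq hq1 hq2 he
    by_cases hmk : m = k
    · by_cases hlk : l = k
      · rw [hmk, hlk] at hb
        exact hb rfl
      · have hlX := hold l hl.1 hlk
        have hut : u = t := by rw [← hm.2.2, hmk, htk]
        rw [hut] at hl hpi
        rw [hmk] at he hq1
        exact hcl ((h.PI_eq hXY (hP.sub ht)).1 hpi) l (h.at_of hXY hlX hl) q hq hq1 hq2 he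
    · have hmX := hold m hm.1 hmk
      by_cases hlk : l = k
      · have hut : u = t := by rw [← hl.2.2, hlk, htk]
        rw [hut] at hm hpi
        have he' := h.fe_symm hq (h.zn_mem' hm) (h.zn_mem' (t := t) ⟨hl.1, hl.2.1, by
          rw [hlk, htk]⟩) he
        rw [hlk] at he' hq2
        exact hcl ((h.PI_eq hXY (hP.sub ht)).1 hpi) m (h.at_of hXY hmX hm) q hq hq2 hq1 he'
      · exact Cons.up h hXY hP.cons hu hpi hm hl hmX (hold l hl.1 hlk) hb hq hq1 hq2 he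

/-- At a position, an extension which only uses the tags open for an older tag is legal. -/
theorem Pos.L_of_op {X Z : A.Sy} {O : Set A.Lb} (hP : A.Pos X O) {t : A.Lb} (ht : t ∈ O)
    (hZ : A.L X (A.op X t) Z) : A.L X O Z := by
  have hop : A.op X t ⊆ O := by
    rw [hP.op t ht]
    exact Set.inter_subset_left
  refine ⟨hZ.1, fun k hk hkX hkt htX => ?_, ?_⟩
  · obtain ⟨h1, h2⟩ := hZ.2.1 k hk hkX hkt htX
    exact ⟨hop h1, h2⟩
  · intro u hu hpi k l hk hl hb q hq hq1 hq2 he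
    by_cases huo : u ∈ A.op X t
    · exact hZ.2.2 u huo hpi k l hk hl hb q hq hq1 hq2 he
    · have hnew : ∀ m, A.At Z u m → m ∈ A.I X := by
        intro m hm
        by_contra hmX
        refine huo ?_
        have := (hZ.2.1 m hm.1 hmX hm.2.1 (by rw [hm.2.2]; exact hP.sub hu)).1
        rwa [hm.2.2] at this
      exact Cons.up h hZ.1 hP.cons hu hpi hk hl (hnew k hk) (hnew l hl) hb hq hq1 hq2 he

/-- Task for a real at a tag of the second kind. -/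
theorem Pos.task_code_pi {X : A.Sy} {O : Set A.Lb} (hP : A.Pos X O) {t : A.Lb} (ht : t ∈ O)
    (hpi : A.PI X t) {z : A.Nm} {q : A.Cn} (hz : z ∈ A.N X) (hq : q ∈ A.P X)
    (hqt : A.le q (A.gd X t)) :
    ∃ Y, A.L X O Y ∧ ∃ r ∈ A.P Y, A.le r q ∧ A.Coded Y t z r := by
  obtain ⟨Z, hZ, r, hr, hrq, hf⟩ := hP.pi t ht hpi X (hP.ll t ht) z hz q hq hqt
  have hZ' := Pos.L_of_op h hP ht hZ
  have hPZ := Pos.of_L h hP hZ'
  have htX := hP.sub ht
  have htZ : t ∈ A.I Z := h.sub_I hZ.1 htX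
  have hzZ := h.N_mono hZ.1 hz
  by_cases hc : ∃ s ∈ A.P Z, A.le s r ∧ A.Coded Z t z s
  · obtain ⟨s, hs, hsr, hcs⟩ := hc
    exact ⟨Z, hZ', s, hs, h.le_trans hsr hrq, hcs⟩
  have hpiZ : A.PI Z t := (h.PI_eq hZ.1 htX).2 hpi
  have hrt : A.le r (A.gd Z t) := by
    rw [h.gd_eq hZ.1 htX]
    exact h.le_trans hrq hqt
  -- the side
  obtain ⟨i, hi⟩ : ∃ i : Bool, (i = false → A.FA Z r (A.pa Z t) z) ∧
      (i = true → A.FA Z r (A.pb Z t) z) := by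
    rw [h.pa_eq hZ.1 htX, h.pb_eq hZ.1 htX]
    rcases hf with hf | hf
    · exact ⟨false, fun _ => hf, fun e => by simp at e⟩
    · exact ⟨true, fun e => by simp at e, fun _ => hf⟩
  obtain ⟨Y, k, hZY, hkZ, hI, hkt, hd, htg, hbit, hg, he⟩ :=
    h.add_code (X := Z) (t := t) (g := r) (z := z) i htZ (hPZ.tag t ht) hr hrt hzZ
  have hkY : k ∈ A.I Y := by
    rw [hI]
    exact Or.inl rfl
  have hzk : A.zn Y k ∈ A.N Z := by
    have := h.zn_mem hkY hkt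
    rwa [hd] at this
  have hpaZ : A.pa Z t ∈ A.N Z := h.N_mono (h.dp_sub htZ) (h.pa_mem htZ (hPZ.tag t ht))
  have hpbZ : A.pb Z t ∈ A.N Z := h.N_mono (h.dp_sub htZ) (h.pb_mem htZ (hPZ.tag t ht))
  have hok : A.OK Y k := by
    rw [h.ok_iff hkY hkt, htg, hd, hbit, hg, h.pa_eq hZY htZ, h.pb_eq hZY htZ]
    refine ⟨fun _ => ⟨fun e => ?_, fun e => ?_⟩, fun e => ?_⟩
    · exact h.fa_congr hr hpaZ hzZ hzk (h.fe_symm hr hzk hzZ he) (hi.1 e)
    · exact h.fa_congr hr hpbZ hzZ hzk (h.fe_symm hr hzk hzZ he) (hi.2 e)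
    · exact (e ((h.PI_eq hZY htZ).2 hpiZ)).elim
  have hL : A.L Z O Y := by
    refine Pos.add_code h hPZ ht hZY hkZ hI hkt htg hok fun _ l hl s hs hs1 hs2 hse => ?_
    have hlY := h.at_mono hZY hl
    rw [hg] at hs1
    rw [h.zn_eq hZY hl.1] at hse
    have hsZ := h.rs_mem hZY hs
    have hfe := h.fe_down hZY hs hzk (h.zn_mem' hl) hse
    have hsr := h.rs_le hZY hs hr hs1
    refine hc ⟨A.rs Z s, hsZ, hsr, l, hl, h.rs_le_gd hZY hs hl.1 hs2, ?_⟩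
    exact h.fe_trans hsZ (h.zn_mem' hl) hzk hzZ (h.fe_symm hsZ hzk (h.zn_mem' hl) hfe)
      (h.fe_mono hr hsZ hzk hzZ he hsr)
  refine ⟨Y, L.trans h hZ' hL (Set.inter_eq_self_of_subset_left hP.sub), r, h.P_mono hZY hr, hrq,
    k, ⟨hkY, hkt, htg⟩, ?_, h.fe_up hZY hr hzk hzZ he⟩
  rw [hg]
  exact h.le_refl r

/-- Deciding the side of a real at a tag of the first kind, at a good position. -/
theorem Pos.decide {X : A.Sy} {O : Set A.Lb} (hP : A.Pos X O) (hG : A.Good X O) {t : A.Lb}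
    (ht : t ∈ O) {z : A.Nm} {q : A.Cn} (hz : z ∈ A.N X) (hq : q ∈ A.P X) :
    ∃ r ∈ A.P X, A.le r q ∧ ∃ i : Bool,
      (i = false → ∀ Y, A.LL X t Y → A.Sub X Y → ∀ s ∈ A.P Y, A.le s r →
        ∃ Z, A.LL X t Z ∧ A.Sub Y Z ∧ ∃ u ∈ A.P Z, A.le u s ∧ A.FA Z u (A.pa X t) z) ∧
      (i = true → ∀ Y, A.LL X t Y → A.Sub X Y → ∀ s ∈ A.P Y, A.le s r →
        ¬ A.FA Y s (A.pa X t) z) := by
  have htX := hP.sub ht
  by_cases hc : ∃ r ∈ A.P X, A.le r q ∧ ∀ Y, A.LL X t Y → A.Sub X Y → ∀ s ∈ A.P Y, A.le s r →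
      ¬ A.FA Y s (A.pa X t) z
  · obtain ⟨r, hr, hrq, hh⟩ := hc
    exact ⟨r, hr, hrq, true, fun e => by simp at e, fun _ => hh⟩
  refine ⟨q, hq, h.le_refl q, false, fun _ Y hY hXY s hs hsq => ?_, fun e => by simp at e⟩
  have hrs := h.rs_mem hXY hs
  have hrq := h.rs_le hXY hs hq hsq
  push Not at hc
  obtain ⟨B, hB, hXB, v, hv, hvs, hf⟩ := hc _ hrs hrq
  have hpa : A.pa X t ∈ A.N X := h.N_mono (h.dp_sub htX) (h.pa_mem htX (hP.tag t ht))
  obtain ⟨B', v', hXB', hI, hB', hv', hvv, hf'⟩ :=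
    h.copy (X := X) (B := B) (E := Y) (t := t) hXB hXY htX (hP.tag t ht) hB hv hpa hz hf
  rw [Set.inter_comm] at hI
  have hop : A.op X t ⊆ O := by
    rw [hP.op t ht]
    exact Set.inter_subset_left
  have hGt : A.Good X (A.op X t) := fun u hu => hG u (hop hu)
  have hU : A.LL X t (A.un Y B') :=
    product h (h.dp_sub htX) (h.op_sub htX (hP.tag t ht)) hGt hY hB' hXY hXB' hI
  have hle : A.le v' (A.rs X s) := by
    refine h.le_trans (h.le_rs hXB' hv') ?_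
    rw [hvv]
    exact h.rs_le hXB hv hrs hvs
  obtain ⟨u, hu, hus, huv⟩ := h.amalg hXY hXB' hI hs hv' hle
  have sB := h.un_right hXY hXB' hI
  refine ⟨_, hU, h.un_left hXY hXB' hI, u, hu, hus, ?_⟩
  exact h.fa_mono (h.P_mono sB hv') hu (h.N_mono (h.sub_trans hXB' sB) hpa)
    (h.N_mono (h.sub_trans hXB' sB) hz)
    (h.fa_up sB hv' (h.N_mono hXB' hpa) (h.N_mono hXB' hz) hf') huv

/-- Task for a real at a tag of the first kind, at a good position. -/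
theorem Pos.task_code_sig {X : A.Sy} {O : Set A.Lb} (hP : A.Pos X O) (hG : A.Good X O) {t : A.Lb}
    (ht : t ∈ O) (hpi : ¬ A.PI X t) {z : A.Nm} {q : A.Cn} (hz : z ∈ A.N X) (hq : q ∈ A.P X)
    (hqt : A.le q (A.gd X t)) :
    ∃ Y, A.L X O Y ∧ ∃ r ∈ A.P Y, A.le r q ∧ A.Coded Y t z r := by
  have htX := hP.sub ht
  obtain ⟨r, hr, hrq, i, hi0, hi1⟩ := Pos.decide h hP hG ht hz hq
  have hrt : A.le r (A.gd X t) := h.le_trans hrq hqt
  obtain ⟨Y, k, hXY, hkX, hI, hkt, hd, htg, hbit, hg, he⟩ :=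
    h.add_code (X := X) (t := t) (g := r) (z := z) i htX (hP.tag t ht) hr hrt hz
  have hkY : k ∈ A.I Y := by
    rw [hI]
    exact Or.inl rfl
  have hzk : A.zn Y k ∈ A.N X := by
    have := h.zn_mem hkY hkt
    rwa [hd] at this
  have hpa : A.pa X t ∈ A.N X := h.N_mono (h.dp_sub htX) (h.pa_mem htX (hP.tag t ht))
  -- transfer from `z` to the name used by the step
  have tr : ∀ {B : A.Sy} {s : A.Cn}, A.Sub X B → s ∈ A.P B → A.le s r →
      (A.FA B s (A.pa X t) z ↔ A.FA B s (A.pa X t) (A.zn Y k)) := by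
    intro B s hXB hs hsr
    have e1 : A.FE B s (A.zn Y k) z :=
      h.fe_mono (h.P_mono hXB hr) hs (h.N_mono hXB hzk) (h.N_mono hXB hz)
        (h.fe_up hXB hr hzk hz he) hsr
    exact ⟨h.fa_congr hs (h.N_mono hXB hpa) (h.N_mono hXB hz) (h.N_mono hXB hzk)
      (h.fe_symm hs (h.N_mono hXB hzk) (h.N_mono hXB hz) e1),
      h.fa_congr hs (h.N_mono hXB hpa) (h.N_mono hXB hzk) (h.N_mono hXB hz) e1⟩
  have hok : A.OK Y k := by
    rw [h.ok_iff hkY hkt, htg, hd, hbit, hg, h.pa_eq hXY htX]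
    refine ⟨fun e => (hpi ((h.PI_eq hXY htX).1 e)).elim, fun _ => ⟨fun e B hB hXB s hs hsr => ?_,
      fun e B hB hXB s hs hsr hf => ?_⟩⟩
    · rw [h.LL_eq hXY htX] at hB
      obtain ⟨Z, hZ, hBZ, u, hu, hus, hf⟩ := hi0 e B hB hXB s hs hsr
      refine ⟨Z, (h.LL_eq hXY htX Z).2 hZ, hBZ, u, hu, hus, ?_⟩
      exact (tr (h.sub_trans hXB hBZ) hu (h.le_trans hus hsr)).1 hf
    · rw [h.LL_eq hXY htX] at hB
      exact hi1 e B hB hXB s hs hsr ((tr hXB hs hsr).2 hf)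
  have hL : A.L X O Y :=
    Pos.add_code h hP ht hXY hkX hI hkt htg hok fun e => (hpi e).elim
  refine ⟨Y, hL, r, h.P_mono hXY hr, hrq, k, ⟨hkY, hkt, htg⟩, ?_, h.fe_up hXY hr hzk hz he⟩
  rw [hg]
  exact h.le_refl r

/-! ### The end -/

/-- A real is not coded on both sides at an open tag. -/
theorem Pos.one_side {X : A.Sy} {O : Set A.Lb} (hP : A.Pos X O) {t k l : A.Lb} (ht : t ∈ O)
    (hk : A.At X t k) (hl : A.At X t l) (hbk : A.bit X k = false) (hbl : A.bit X l = true)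
    {q : A.Cn} (hq : q ∈ A.P X) (hqk : A.le q (A.gd X k)) (hql : A.le q (A.gd X l)) :
    ¬ A.FE X q (A.zn X k) (A.zn X l) := by
  intro he
  by_cases hpi : A.PI X t
  · exact hP.cons t ht hpi k l hk hl (by rw [hbk, hbl]; simp) q hq hqk hql he
  have htX := hP.sub ht
  have ok := (h.ok_iff hk.1 hk.2.1).1 (hP.ok t ht k hk)
  have ol := (h.ok_iff hl.1 hl.2.1).1 (hP.ok t ht l hl)
  rw [hk.2.2] at ok
  rw [hl.2.2] at ol
  obtain ⟨Z, hZ, hXZ, r, hr, hrq, hf⟩ := (ok.2 hpi).1 hbk X (hP.ll t ht) (h.dp_sub hk.1) q hq hqk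
  refine (ol.2 hpi).2 hbl Z hZ (h.sub_trans (h.dp_sub hl.1) hXZ) r hr (h.le_trans hrq hql) ?_
  have hpa : A.pa X t ∈ A.N X := h.N_mono (h.dp_sub htX) (h.pa_mem htX (hP.tag t ht))
  exact h.fa_congr hr (h.N_mono hXZ hpa) (h.N_mono hXZ (h.zn_mem' hk))
    (h.N_mono hXZ (h.zn_mem' hl))
    (h.fe_mono (h.P_mono hXZ hq) hr (h.N_mono hXZ (h.zn_mem' hk)) (h.N_mono hXZ (h.zn_mem' hl))
      (h.fe_up hXZ hq (h.zn_mem' hk) (h.zn_mem' hl) he) hrq) hf

/-- At a tag of the first kind: the elements of the first set are not coded on the second side. -/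
theorem Pos.sig_true {X : A.Sy} {O : Set A.Lb} (hP : A.Pos X O) {t l : A.Lb} (ht : t ∈ O)
    (hpi : ¬ A.PI X t) (hl : A.At X t l) (hbl : A.bit X l = true) {q : A.Cn} (hq : q ∈ A.P X)
    (hql : A.le q (A.gd X l)) : ¬ A.FA X q (A.pa X t) (A.zn X l) := by
  have ol := (h.ok_iff hl.1 hl.2.1).1 (hP.ok t ht l hl)
  rw [hl.2.2] at ol
  exact (ol.2 hpi).2 hbl X (hP.ll t ht) (h.dp_sub hl.1) q hq hql

/-- At a tag of the first kind: the elements of the second set are not coded on the first side. -/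
theorem Pos.sig_false {X : A.Sy} {O : Set A.Lb} (hP : A.Pos X O) {t k : A.Lb} (ht : t ∈ O)
    (hpi : ¬ A.PI X t) (hk : A.At X t k) (hbk : A.bit X k = false) {q : A.Cn} (hq : q ∈ A.P X)
    (hqk : A.le q (A.gd X k)) : ¬ A.FA X q (A.pb X t) (A.zn X k) := by
  intro hf
  have htX := hP.sub ht
  have ok := (h.ok_iff hk.1 hk.2.1).1 (hP.ok t ht k hk)
  rw [hk.2.2] at ok
  obtain ⟨Z, hZ, hXZ, r, hr, hrq, hf'⟩ := (ok.2 hpi).1 hbk X (hP.ll t ht) (h.dp_sub hk.1) q hq hqk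
  have hpb : A.pb X t ∈ A.N X := h.N_mono (h.dp_sub htX) (h.pb_mem htX (hP.tag t ht))
  have hzk := h.zn_mem' hk
  refine hP.sig t ht hpi Z hZ r hr (h.le_trans hrq (h.le_trans hqk (h.gd_le hk))) (A.zn X k)
    (h.N_mono hXZ hzk) ⟨hf', ?_⟩
  exact h.fa_mono (h.P_mono hXZ hq) hr (h.N_mono hXZ hpb) (h.N_mono hXZ hzk)
    (h.fa_up hXZ hq hpb hzk hf) hrq

/-- At a tag of the second kind: a real coded on the first side is in the first set. -/
theorem Pos.pi_false {X : A.Sy} {O : Set A.Lb} (hP : A.Pos X O) {t k : A.Lb} (ht : t ∈ O)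
    (hpi : A.PI X t) (hk : A.At X t k) (hbk : A.bit X k = false) {q : A.Cn} (hq : q ∈ A.P X)
    (hqk : A.le q (A.gd X k)) : A.FA X q (A.pa X t) (A.zn X k) := by
  have htX := hP.sub ht
  have ok := (h.ok_iff hk.1 hk.2.1).1 (hP.ok t ht k hk)
  rw [hk.2.2] at ok
  have hf := (ok.1 hpi).1 hbk
  have htd := h.tg_mem' hk
  have hpa : A.pa X t ∈ A.N (A.dp X k) := by
    have e := h.pa_eq (h.dp_sub hk.1) htd
    rw [e]
    exact h.N_mono (h.dp_sub htd) (h.pa_mem htd ((h.Tag_eq (h.dp_sub hk.1) htd).1 (hP.tag t ht)))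
  have hzk := h.zn_mem hk.1 hk.2.1
  have hs := h.dp_sub hk.1
  exact h.fa_mono (h.P_mono hs (h.gd_mem hk.1)) hq (h.N_mono hs hpa) (h.N_mono hs hzk)
    (h.fa_up hs (h.gd_mem hk.1) hpa hzk hf) hqk

/-- At a tag of the second kind: a real coded on the second side is in the second set. -/
theorem Pos.pi_true {X : A.Sy} {O : Set A.Lb} (hP : A.Pos X O) {t k : A.Lb} (ht : t ∈ O)
    (hpi : A.PI X t) (hk : A.At X t k) (hbk : A.bit X k = true) {q : A.Cn} (hq : q ∈ A.P X)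
    (hqk : A.le q (A.gd X k)) : A.FA X q (A.pb X t) (A.zn X k) := by
  have htX := hP.sub ht
  have ok := (h.ok_iff hk.1 hk.2.1).1 (hP.ok t ht k hk)
  rw [hk.2.2] at ok
  have hf := (ok.1 hpi).2 hbk
  have htd := h.tg_mem' hk
  have hpb : A.pb X t ∈ A.N (A.dp X k) := by
    have e := h.pb_eq (h.dp_sub hk.1) htd
    rw [e]
    exact h.N_mono (h.dp_sub htd) (h.pb_mem htd ((h.Tag_eq (h.dp_sub hk.1) htd).1 (hP.tag t ht)))
  have hzk := h.zn_mem hk.1 hk.2.1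
  have hs := h.dp_sub hk.1
  exact h.fa_mono (h.P_mono hs (h.gd_mem hk.1)) hq (h.N_mono hs hpb) (h.N_mono hs hzk)
    (h.fa_up hs (h.gd_mem hk.1) hpb hzk hf) hqk

/-! ### Unions of chains of positions -/

/-- The union of a directed family of positions. -/
theorem Pos.union {ι : Type*} {X : ι → A.Sy} {O : ι → Set A.Lb} {Y : A.Sy}
    (hpos : ∀ i, A.Pos (X i) (O i))
    (hdir : ∀ i j, ∃ k, A.PExt (X i) (O i) (X k) (O k) ∧ A.PExt (X j) (O j) (X k) (O k))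
    (hsub : ∀ i, A.Sub (X i) Y) (hI : ∀ k ∈ A.I Y, ∃ i, k ∈ A.I (X i))
    (hint : A.Int (⋃ i, O i)) :
    A.Pos Y (⋃ i, O i) ∧ ∀ i, A.PExt (X i) (O i) Y (⋃ i, O i) := by
  have hOI : ∀ i, (⋃ i, O i) ∩ A.I (X i) = O i := by
    intro i
    ext u
    constructor
    · rintro ⟨hu, hui⟩
      obtain ⟨j, hj⟩ := Set.mem_iUnion.1 hu
      obtain ⟨k, hk1, hk2⟩ := hdir i j
      have : u ∈ O k := by
        rw [← hk2.2] at hj
        exact hj.1
      rw [← hk1.2]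
      exact ⟨this, hui⟩
    · intro hu
      exact ⟨Set.mem_iUnion.2 ⟨i, hu⟩, (hpos i).sub hu⟩
  have hL : ∀ i, A.L (X i) (O i) Y := by
    intro i
    refine ⟨hsub i, fun k hk hki hkt htX => ?_, ?_⟩
    · obtain ⟨j, hj⟩ := hI k hk
      obtain ⟨m, hm1, hm2⟩ := hdir i j
      have hkm := h.sub_I hm2.1.1 hj
      have hkt' : ¬ A.Tag (X m) k := fun e => hkt ((h.Tag_eq (hsub m) hkm).2 e)
      rw [h.tg_eq (hsub m) hkm] at htX ⊢
      obtain ⟨h1, h2⟩ := hm1.1.2.1 k hkm hki hkt' htX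
      exact ⟨h1, (h.OK_eq (hsub m) hkm hkt').2 h2⟩
    · intro t ht hpi k l hk hl hb q hq hq1 hq2 he
      obtain ⟨a, hka⟩ := hI k hk.1
      obtain ⟨b, hlb⟩ := hI l hl.1
      obtain ⟨m, hm1, hm2⟩ := hdir a b
      obtain ⟨n, hn1, hn2⟩ := hdir m i
      have hkn := h.sub_I hn1.1.1 (h.sub_I hm1.1.1 hka)
      have hln := h.sub_I hn1.1.1 (h.sub_I hm2.1.1 hlb)
      exact Cons.up h (hsub n) hn2.1.2.2 ht hpi hk hl hkn hln hb hq hq1 hq2 he
  refine ⟨⟨hint, ?_, ?_, ?_, ?_, ?_, ?_, ?_, ?_⟩, fun i => ⟨hL i, hOI i⟩⟩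
  · intro t ht
    obtain ⟨i, hi⟩ := Set.mem_iUnion.1 ht
    exact h.sub_I (hsub i) ((hpos i).sub hi)
  · intro t ht
    obtain ⟨i, hi⟩ := Set.mem_iUnion.1 ht
    exact (h.Tag_eq (hsub i) ((hpos i).sub hi)).2 ((hpos i).tag t hi)
  · intro t ht
    obtain ⟨i, hi⟩ := Set.mem_iUnion.1 ht
    have htX := (hpos i).sub hi
    have hdi : A.I (A.dp (X i) t) ⊆ A.I (X i) := h.sub_I (h.dp_sub htX)
    rw [h.op_eq (hsub i) htX, h.dp_eq (hsub i) htX, (hpos i).op t hi]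
    ext u
    constructor
    · rintro ⟨h1, h2⟩
      exact ⟨Set.mem_iUnion.2 ⟨i, h1⟩, h2⟩
    · rintro ⟨h1, h2⟩
      refine ⟨?_, h2⟩
      rw [← hOI i]
      exact ⟨h1, hdi h2⟩
  · intro t ht
    obtain ⟨i, hi⟩ := Set.mem_iUnion.1 ht
    exact (Pos.of_L h (hpos i) (hL i)).ll t hi
  · intro t ht k hk
    obtain ⟨i, hi⟩ := Set.mem_iUnion.1 ht
    exact (Pos.of_L h (hpos i) (hL i)).ok t hi k hk
  · intro t ht hpi k l hk hl hb q hq hq1 hq2 he
    obtain ⟨i, hi⟩ := Set.mem_iUnion.1 ht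
    exact (Pos.of_L h (hpos i) (hL i)).cons t hi hpi k l hk hl hb q hq hq1 hq2 he
  · intro t ht hpi
    obtain ⟨i, hi⟩ := Set.mem_iUnion.1 ht
    exact (Pos.of_L h (hpos i) (hL i)).sig t hi hpi
  · intro t ht hpi
    obtain ⟨i, hi⟩ := Set.mem_iUnion.1 ht
    exact (Pos.of_L h (hpos i) (hL i)).pi t hi hpi

end

end Api

end Pool.Agent.Sep
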