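import Pool.Agent.GL.Bridge
import Pool.Agent.GL.Gch
import Pool.Agent.FDia.Cond

/-!
The sequence of the coding reals in a model of the axiom of constructibility: definitions and
existence.
-/

universe u

set_option linter.unusedSectionVars false

namespace Pool.Agent.Sep

open Pool.Agent.SigB Pool.Agent.Forc

variable {M : Type u} [Membership M M] [IsZFC M]

/-- The set of the finite sequences of natural numbers. -/
noncomputable def Sq : M := Forc.Seq om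

theorem mem_Sq {s : M} : s ∈ (Sq : M) ↔ ∃ n, n ∈ (om : M) ∧ s ∈ fs n om := mem_Seq

/-- The label of the ordinal `a` which gives a clopen set. -/
noncomputable def lb (a : M) : M := fst (fst (GL.Fc a))

open Classical in
/-- The label of the ordinal `a` which gives an initial segment. -/
noncomputable def lt (a : M) : M := if snd (fst (GL.Fc a)) ∈ (Sq : M) then snd (fst (GL.Fc a)) else SigB.em

@[simp] theorem dt_lb {n : ℕ} {s : (Fin n → M) → M} (hs : DT s) : DT (fun v => lb (s v)) := by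
  unfold lb
  exact dt_fst (dt_fst (GL.dt_Fc hs))

@[simp] theorem dt_lt {n : ℕ} {s : (Fin n → M) → M} (hs : DT s) : DT (fun v => lt (s v)) := by
  classical
  unfold lt
  exact DT.ite (P := fun v : Fin n → M => snd (fst (GL.Fc (s v))) ∈ (Sq : M))
    (Dfn.mem (dt_snd (dt_fst (GL.dt_Fc hs))) (DT.const _)) (dt_snd (dt_fst (GL.dt_Fc hs)))
    (DT.const _)

theorem em_mem_Sq : (SigB.em : M) ∈ (Sq : M) := Frc.em_mem_colP om

theorem lt_mem (a : M) : lt a ∈ (Sq : M) := by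
  unfold lt
  split_ifs with h
  · exact h
  · exact em_mem_Sq

/-- The tuple `d` is compatible with the branches `h (u i)` for `u i ∈ a` and extends `s` at the
other coordinates, except `i₁`. -/
def Okk (h a d u s i₁ k : M) : Prop :=
  ∀ i, i ∈ k → (ap u i ∈ a → Sb (ap d i) (ap h (ap u i))) ∧
    (ap u i ∉ a → i ≠ i₁ → Sb (ap s i) (ap d i))

/-- The real `x` is a possible next branch after the branches `h c`, `c ∈ a`. -/
def Gb (h a x : M) : Prop :=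
  x ∈ fs (om : M) om ∧ Sb (lt a) x ∧ (∀ c, c ∈ a → x ≠ ap h c) ∧
  ∀ k D u i₁ s, k ∈ (om : M) → D ∈ GL.XX a → u ∈ fs k (sc a) → i₁ ∈ k → ap u i₁ ∉ a →
    s ∈ fs k (Sq : M) →
    (∀ t, t ∈ (Sq : M) → ∃ d, d ∈ D ∧ d ∈ fs k (Sq : M) ∧ Sb t (ap d i₁) ∧ Okk h a d u s i₁ k) →
    ∃ d, d ∈ D ∧ d ∈ fs k (Sq : M) ∧ Sb (ap d i₁) x ∧ Okk h a d u s i₁ k

theorem Gb.dfn : Dfn (fun w : Fin 3 → M => Gb (w 0) (w 1) (w 2)) := by
  unfold Gb Okk
  simp (maxDischargeDepth := 80)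

@[simp] theorem dfn_Gb {n : ℕ} {s t r : (Fin n → M) → M} (hs : DT s) (ht : DT t) (hr : DT r) :
    Dfn (fun v => Gb (s v) (t v) (r v)) := dfn3 Gb.dfn hs ht hr

/-- The first possible next branch. -/
noncomputable def nb (a h : M) : M := GL.Fc (GL.mu fun b => Gb h a (GL.Fc b))

theorem nb.dt : DT (fun w : Fin 2 → M => nb (w 0) (w 1)) := by
  unfold nb
  exact GL.dt_Fc (GL.dt_mu (P := fun (w : Fin 2 → M) b => Gb (w 1) (w 0) (GL.Fc b))
    (by simp (maxDischargeDepth := 50)))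

/-- The branches. -/
noncomputable def br (a : M) : M := GL.orec nb a

@[simp] theorem dt_br {n : ℕ} {s : (Fin n → M) → M} (hs : DT s) : DT (fun v => br (s v)) :=
  dt1 (F := br) (by
    unfold br
    exact GL.dt_orec (G := fun _ => nb) (dt2 nb.dt (DT.var 1) (DT.var 0)) (DT.var 0)) hs

/-! ### Existence -/

theorem un_mem_om {x y : M} (hx : x ∈ (om : M)) (hy : y ∈ (om : M)) : un x y ∈ (om : M) := by
  rcases Ord.sb_total (ord_of_mem_om hx) (ord_of_mem_om hy) with h | h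
  · have : un x y = y := ext' fun z => by
      rw [mem_un]
      exact ⟨fun hz => hz.elim (h z) id, Or.inr⟩
    rwa [this]
  · have : un x y = x := ext' fun z => by
      rw [mem_un]
      exact ⟨fun hz => hz.elim id (h z), Or.inl⟩
    rwa [this]

/-- The union of an increasing sequence of finite sequences. -/
theorem chain {f : M} (hf : f ∈ fs (om : M) (Sq : M))
    (hm : ∀ n, n ∈ (om : M) → Sb (ap f n) (ap f (sc n)))
    (hg : ∀ n, n ∈ (om : M) → ∃ v, op n v ∈ ap f (sc n)) :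
    sU (im om (ap f)) ∈ fs (om : M) om ∧
      ∀ n, n ∈ (om : M) → Sb (ap f n) (sU (im om (ap f))) := by
  have hd : DT (fun w : Fin 1 → M => ap f (w 0)) := by simp (maxDischargeDepth := 50)
  have hx : ∀ z, z ∈ sU (im (om : M) (ap f)) ↔ ∃ n, n ∈ (om : M) ∧ z ∈ ap f n := by
    intro z
    rw [mem_sU]
    constructor
    · rintro ⟨y, hy, hz⟩
      obtain ⟨n, hn, rfl⟩ := (mem_im hd).1 hy
      exact ⟨n, hn, hz⟩
    · rintro ⟨n, hn, hz⟩
      exact ⟨_, (mem_im hd).2 ⟨n, hn, rfl⟩, hz⟩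
  have hmono : ∀ n, n ∈ (om : M) → ∀ m, m ∈ sc n → Sb (ap f m) (ap f n) := by
    refine om_ind (P := fun n => ∀ m, m ∈ sc n → Sb (ap f m) (ap f n))
      (by simp (maxDischargeDepth := 50)) ?_ ?_
    · intro m hm'
      rcases mem_sc.1 hm' with h | rfl
      · exact (not_mem_em _ h).elim
      · exact Sb.refl _
    · intro n hn ih m hm'
      rcases mem_sc.1 hm' with h | rfl
      · exact (ih m h).trans (hm n hn)
      · exact Sb.refl _
  have hel : ∀ n z, n ∈ (om : M) → z ∈ ap f n → ∃ i v, i ∈ (om : M) ∧ v ∈ (om : M) ∧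
      z = op i v := by
    intro n z hn hz
    obtain ⟨m, hm', hfm⟩ := mem_Sq.1 ((mem_fs.1 hf).2 n hn)
    obtain ⟨i, hi, rfl⟩ := (mem_fs.1 hfm).1.mem_iff.1 hz
    exact ⟨i, _, om_ord.trans hi hm', (mem_fs.1 hfm).2 i hi, rfl⟩
  have huniq1 : ∀ n i v v', n ∈ (om : M) → op i v ∈ ap f n → op i v' ∈ ap f n → v = v' := by
    intro n i v v' hn h1 h2
    obtain ⟨m, hm', hfm⟩ := mem_Sq.1 ((mem_fs.1 hf).2 n hn)
    have h3 := (mem_fs.1 hfm).1
    obtain ⟨i', hi', he⟩ := h3.mem_iff.1 h1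
    have hi : i ∈ m := by rw [(op_inj.1 he).1]; exact hi'
    rw [← (h3.op_mem_iff hi).1 h1, ← (h3.op_mem_iff hi).1 h2]
  have huniq : ∀ n m i v v', n ∈ (om : M) → m ∈ (om : M) → op i v ∈ ap f n →
      op i v' ∈ ap f m → v = v' := by
    intro n m i v v' hn hm' h1 h2
    rcases (ord_of_mem_om hn).tri (ord_of_mem_om hm') with h | h | h
    · exact huniq1 m i v v' hm' (hmono m hm' n (mem_sc.2 (Or.inl h)) _ h1) h2
    · subst h
      exact huniq1 n i v v' hn h1 h2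
    · exact huniq1 n i v v' hn h1 (hmono n hn m (mem_sc.2 (Or.inl h)) _ h2)
  have hu : ∀ i v v', op i v ∈ sU (im (om : M) (ap f)) → op i v' ∈ sU (im (om : M) (ap f)) →
      v' = v := by
    intro i v v' h1 h2
    obtain ⟨n, hn, h3⟩ := (hx _).1 h1
    obtain ⟨m, hm', h4⟩ := (hx _).1 h2
    exact huniq m n i v' v hm' hn h4 h3
  refine ⟨mem_fs.2 ⟨⟨fun z hz => ?_, fun i hi => ?_⟩, fun i hi => ?_⟩, fun n hn z hz =>
    (hx z).2 ⟨n, hn, hz⟩⟩
  · obtain ⟨n, hn, hz⟩ := (hx z).1 hz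
    obtain ⟨i, v, hi, -, rfl⟩ := hel n z hn hz
    exact ⟨i, hi, v, rfl⟩
  · obtain ⟨v, hv⟩ := hg i hi
    have h1 : op i v ∈ sU (im (om : M) (ap f)) := (hx _).2 ⟨_, sc_mem_om hi, hv⟩
    exact ⟨v, h1, fun v' hv' => hu i v v' h1 hv'⟩
  · obtain ⟨v, hv⟩ := hg i hi
    have h1 : op i v ∈ sU (im (om : M) (ap f)) := (hx _).2 ⟨_, sc_mem_om hi, hv⟩
    rw [ap_eq h1 fun v' hv' => hu i v v' h1 hv']
    obtain ⟨i', v', -, hv', he⟩ := hel _ _ (sc_mem_om hi) hv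
    rw [(op_inj.1 he).2]
    exact hv'

/-- A longer sequence which is different from `y`. -/
theorem step_grow {q n : M} (hq : q ∈ (Sq : M)) (hn : n ∈ (om : M)) (y : M) :
    ∃ q', q' ∈ (Sq : M) ∧ Sb q q' ∧ (∃ v, op n v ∈ q') ∧ (y ∈ fs (om : M) om → ¬ Sb q' y) := by
  classical
  obtain ⟨b, hb, hqb⟩ := mem_Sq.1 hq
  have hN : un b n ∈ (om : M) := un_mem_om hb hn
  have hON : Ord (un b n) := ord_of_mem_om hN
  let F : M → M := fun i => if i ∈ b then ap q i else if ap y i = SigB.em then sc SigB.em else SigB.em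
  have hF : DT (fun w : Fin 1 → M => F (w 0)) := by
    refine DT.ite (P := fun w : Fin 1 → M => w 0 ∈ b) (by simp) (by simp (maxDischargeDepth := 50))
      ?_
    exact DT.ite (P := fun w : Fin 1 → M => ap y (w 0) = SigB.em) (by simp (maxDischargeDepth := 50))
      (by simp) (by simp)
  have hb' : ∀ i, i ∈ b → i ∈ sc (un b n) := fun i hi =>
    mem_sc.2 (Or.inl (mem_un.2 (Or.inl hi)))
  have hnot : un b n ∉ b := fun h => not_mem_self _ (mem_un.2 (Or.inl h) : un b n ∈ un b n)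
  refine ⟨lam (sc (un b n)) F, mem_Sq.2 ⟨_, sc_mem_om hN, lam_mem_fs hF fun i hi => ?_⟩,
    fun z hz => ?_, ⟨F n, (op_mem_lam hF).2 ⟨?_, rfl⟩⟩, fun hy hsb => ?_⟩
  · show (if i ∈ b then ap q i else if ap y i = SigB.em then sc SigB.em else SigB.em) ∈ (om : M)
    split_ifs with h1 h2
    · exact (mem_fs.1 hqb).2 i h1
    · exact sc_mem_om em_mem_om
    · exact em_mem_om
  · obtain ⟨i, hi, rfl⟩ := (mem_fs.1 hqb).1.mem_iff.1 hz
    refine (op_mem_lam hF).2 ⟨hb' i hi, ?_⟩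
    show ap q i = if i ∈ b then ap q i else if ap y i = SigB.em then sc SigB.em else SigB.em
    rw [if_pos hi]
  · exact (Ord.mem_sc_iff (ord_of_mem_om hn) hON).2 fun z hz => mem_un.2 (Or.inr hz)
  · have h1 : op (un b n) (F (un b n)) ∈ y :=
      hsb _ ((op_mem_lam hF).2 ⟨mem_sc_self _, rfl⟩)
    have h2 := ((mem_fs.1 hy).1.op_mem_iff hN).1 h1
    have h3 : F (un b n) = if ap y (un b n) = SigB.em then sc SigB.em else SigB.em := by
      show (if un b n ∈ b then ap q (un b n) else if ap y (un b n) = SigB.em then sc SigB.em else SigB.em) = _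
      rw [if_neg hnot]
    rw [h3] at h2
    split_ifs at h2 with h4
    · rw [h4] at h2
      exact sc_ne_em _ h2.symm
    · exact h4 h2

theorem le_sc_om {a : M} (h : Le a (om : M)) : Le (sc a) (om : M) :=
  (Le.insert h a).trans (le_sc (Sb.refl _))

theorem le_Sq : Le (Sq : M) om := Le.seq_le om_ord (Sb.refl _) (Le.refl om)

/-- After countably many branches there is a next one. -/
theorem exists_Gb {a : M} (hc : Le a (om : M)) (h : M) : ∃ x, Gb h a x := by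
  have hc' := hc
  obtain ⟨g, hg, hgi⟩ := hc
  have hXX : Le (GL.XX a) (om : M) :=
    Le.image om_ord hc' GL.Fc.dt fun y hy => GL.mem_XX.1 hy
  let Rq : M := pd om (pd (GL.XX a) (pd (Forc.Seq (sc a)) (pd om (Forc.Seq Sq))))
  have hRq : Le Rq (om : M) := le_om_pd (Le.refl _) (le_om_pd hXX (le_om_pd
    (Le.seq_le om_ord (Sb.refl _) (le_sc_om hc')) (le_om_pd (Le.refl _)
      (Le.seq_le om_ord (Sb.refl _) le_Sq))))
  obtain ⟨f, hf, hfi⟩ := hRq
  let If : M → M → M → M → M → Prop := fun k D u i₁ s => ∀ t, t ∈ (Sq : M) →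
    ∃ d, d ∈ D ∧ d ∈ fs k (Sq : M) ∧ Sb t (ap d i₁) ∧ Okk h a d u s i₁ k
  let T : M → M → M → Prop := fun n _ q' => (∃ v, op n v ∈ q') ∧
    (∀ c, c ∈ a → ap g c = n → ap h c ∈ fs (om : M) om → ¬ Sb q' (ap h c)) ∧
    ∀ k D u i₁ s, op k (op D (op u (op i₁ s))) ∈ Rq → ap f (op k (op D (op u (op i₁ s)))) = n →
      If k D u i₁ s → ∃ d, d ∈ D ∧ d ∈ fs k (Sq : M) ∧ Sb (ap d i₁) q' ∧ Okk h a d u s i₁ k
  have hT : Dfn (fun w : Fin 3 → M => T (w 0) (w 1) (w 2)) := by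
    simp (maxDischargeDepth := 80) [T, If, Okk]
  have hstep : ∀ n, n ∈ (om : M) → ∀ q, q ∈ (Sq : M) → ∃ q', op q' q ∈ Frc.colLe (om : M) ∧
      T n q q' := by
    intro n hn q hq
    -- the requirement
    obtain ⟨q₁, hq₁, hqq₁, h1⟩ : ∃ q₁, q₁ ∈ (Sq : M) ∧ Sb q q₁ ∧ ∀ k D u i₁ s,
        op k (op D (op u (op i₁ s))) ∈ Rq → ap f (op k (op D (op u (op i₁ s)))) = n →
        If k D u i₁ s →
        ∃ d, d ∈ D ∧ d ∈ fs k (Sq : M) ∧ Sb (ap d i₁) q₁ ∧ Okk h a d u s i₁ k := by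
      by_cases hex : ∃ k D u i₁ s, op k (op D (op u (op i₁ s))) ∈ Rq ∧ i₁ ∈ k ∧
          ap f (op k (op D (op u (op i₁ s)))) = n ∧ If k D u i₁ s
      · obtain ⟨k, D, u, i₁, s, h1, h2, h3, h4⟩ := hex
        obtain ⟨d, h5, h6, h7, h8⟩ := h4 q hq
        refine ⟨ap d i₁, (mem_fs.1 h6).2 _ h2, h7, fun k' D' u' i₁' s' h1' h3' _ => ?_⟩
        have he := hfi _ _ h1' h1 (h3'.trans h3.symm)
        rw [op_inj, op_inj, op_inj, op_inj] at he
        obtain ⟨rfl, rfl, rfl, rfl, rfl⟩ := he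
        exact ⟨d, h5, h6, Sb.refl _, h8⟩
      · refine ⟨q, hq, Sb.refl q, fun k D u i₁ s h1 h3 h4 => ?_⟩
        obtain ⟨d, h5, h6, h7, h8⟩ := h4 SigB.em em_mem_Sq
        refine ⟨d, h5, h6, ?_, h8⟩
        -- then `i₁` is not in `k`
        have h2 : i₁ ∉ k := fun h2 => hex ⟨k, D, u, i₁, s, h1, h2, h3, h4⟩
        intro z hz
        obtain ⟨y, hy, -⟩ := mem_ap.1 hz
        obtain ⟨x, hx, he⟩ := (mem_fs.1 h6).1.mem_iff.1 hy
        exact (h2 ((op_inj.1 he).1 ▸ hx)).elim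
    obtain ⟨y, hy⟩ : ∃ y, ∀ c, c ∈ a → ap g c = n → ap h c = y := by
      by_cases hex : ∃ c, c ∈ a ∧ ap g c = n
      · obtain ⟨c, hca, hcn⟩ := hex
        exact ⟨ap h c, fun c' hc' hcn' => by rw [hgi c' c hc' hca (hcn'.trans hcn.symm)]⟩
      · exact ⟨SigB.em, fun c hca hcn => (hex ⟨c, hca, hcn⟩).elim⟩
    obtain ⟨q', hq', hqq', h2, h3⟩ := step_grow hq₁ hn y
    refine ⟨q', Frc.op_mem_colLe.2 ⟨⟨hq', hq⟩, hqq₁.trans hqq'⟩, h2, fun c hca hcn hr => ?_, ?_⟩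
    · rw [hy c hca hcn] at hr ⊢
      exact h3 hr
    · intro k D u i₁ s h4 h5 h6
      obtain ⟨d, h7, h8, h9, h10⟩ := h1 k D u i₁ s h4 h5 h6
      exact ⟨d, h7, h8, h9.trans hqq', h10⟩
  obtain ⟨F, hF, hF0, hF1⟩ := FDia.exists_seq (P := (Sq : M)) (le := Frc.colLe (om : M))
    (fun p q hpq => (Frc.op_mem_colLe.1 hpq).1) hT hstep (lt_mem a)
  obtain ⟨hx, hx'⟩ := chain hF (fun n hn => (Frc.op_mem_colLe.1 (hF1 n hn).1).2)
    fun n hn => (hF1 n hn).2.1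
  refine ⟨sU (im om (ap F)), hx, ?_, fun c hca he => ?_, ?_⟩
  · have := hx' SigB.em em_mem_om
    rwa [hF0] at this
  · have hn := (mem_fs.1 hg).2 c hca
    exact (hF1 _ hn).2.2.1 c hca rfl (he ▸ hx) (he ▸ hx' _ (sc_mem_om hn))
  · intro k D u i₁ s hk hD hu hi₁ _ hs hIf
    have hr : op k (op D (op u (op i₁ s))) ∈ Rq :=
      op_mem_pd.2 ⟨hk, op_mem_pd.2 ⟨hD, op_mem_pd.2 ⟨mem_Seq.2 ⟨k, hk, hu⟩,
        op_mem_pd.2 ⟨om_ord.trans hi₁ hk, mem_Seq.2 ⟨k, hk, hs⟩⟩⟩⟩⟩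
    have hn := (mem_fs.1 hf).2 _ hr
    obtain ⟨d, h1, h2, h3, h4⟩ := (hF1 _ hn).2.2.2 k D u i₁ s hr rfl hIf
    exact ⟨d, h1, h2, h3.trans (hx' _ (sc_mem_om hn)), h4⟩

end Pool.Agent.Sep
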