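import Pool.Agent.Sep.Tab

/-!
The conditions on the coding sequence of branches, as formulas with bounded quantifiers.
-/

universe u

set_option linter.unusedSectionVars false

namespace Pool.Agent.Sep

open Pool.Agent.SigB
open Pool.Agent.GL (IsZF Fc)

variable {n : ℕ}

section

variable {M : Type u} [Membership M M] [IsZF M]

/-- `y` is a finite sequence of elements of `o`. -/
def SqR (o y : M) : Prop := ∃ n, n ∈ o ∧ GL.Fn y n ∧ ∀ i, i ∈ n → ∀ z, GL.op i z ∈ y → z ∈ o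

/-- `d` is a function on `k` whose values are finite sequences. -/
def SqsR (o k d : M) : Prop := GL.Fn d k ∧ ∀ i, i ∈ k → ∀ y, GL.op i y ∈ d → SqR o y

/-- The conditions on the values of `d` at the places different from `i1`. -/
def OkR (g a d t s i1 k : M) : Prop :=
  ∀ i, i ∈ k → ∀ c, GL.op i c ∈ t → ∀ e, GL.op i e ∈ d →
    (c ∈ a → ∀ b, GL.op c b ∈ g → GL.Sb e b) ∧
    (¬ c ∈ a → ¬ i = i1 → ∀ f, GL.op i f ∈ s → GL.Sb f e)

/-- `x` is a good candidate for the branch with index `a`. -/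
def GbR (h g o W a x : M) : Prop :=
  (GL.Fn x o ∧ ∀ i, i ∈ o → ∀ z, GL.op i z ∈ x → z ∈ o) ∧
  (∀ c, GL.op a c ∈ h → ¬ ∃ p r, c = GL.op p r ∧ ∃ b t, p = GL.op b t ∧ SqR o t ∧ ¬ GL.Sb t x) ∧
  (∀ c, c ∈ a → ∀ z, GL.op c z ∈ g → ¬ x = z) ∧
  ∀ δ, δ ∈ a → ∀ D, GL.op δ D ∈ h → ∀ k, k ∈ o → ∀ t, t ∈ W → GL.Fn t k →
    (∀ i, i ∈ k → ∀ c, GL.op i c ∈ t → c ∈ a ∨ c = a) → ∀ i1, i1 ∈ k →
    (∀ c, GL.op i1 c ∈ t → ¬ c ∈ a) → ∀ s, s ∈ W → SqsR o k s →
    (∀ q, q ∈ W → SqR o q → ∃ d, d ∈ D ∧ SqsR o k d ∧ (∀ e, GL.op i1 e ∈ d → GL.Sb q e) ∧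
      OkR g a d t s i1 k) →
    ∃ d, d ∈ D ∧ SqsR o k d ∧ (∀ e, GL.op i1 e ∈ d → GL.Sb e x) ∧ OkR g a d t s i1 k

/-- `g` is the table of the branches with indices below `a`. -/
def TabG (h γ g o W a : M) : Prop :=
  TabF h γ ∧ o = GL.om ∧ Wcl W ∧ GL.Ord a ∧ GL.Sb a W ∧ GL.Sb a γ ∧ GL.Fn g a ∧
  ∀ β, β ∈ a → ∀ y, GL.op β y ∈ g → ∃ ν, ν ∈ γ ∧ GL.op ν y ∈ h ∧ GbR h g o W β y ∧
    ∀ μ, μ ∈ ν → ∀ z, GL.op μ z ∈ h → ¬ GbR h g o W β z

end

@[simp] theorem b0_sqR (o y : Fin n) : B0 (fun (M : Mdl.{u}) (v : Fin n → M) =>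
    SqR (v o) (v y)) := by
  unfold SqR
  repeat' (first
    | exact B0.mem _ _ | exact B0.eq _ _ | exact b0_opmem _ _ _ | exact b0_sb _ _ | exact b0_tr _
    | exact b0_ord _ | exact b0_em _ | exact b0_om _ | exact b0_pr _ _ _ | exact b0_op _ _ _
    | exact b0_un _ _ _ | exact b0_sc _ _ | exact b0_fn _ _ | refine B0.and ?_ ?_
    | refine B0.or ?_ ?_ | refine B0.not ?_ | refine B0.imp ?_ ?_ | refine B0.iff ?_ ?_
    | (refine B0.bex _ ?_; beta_reduce) | (refine B0.ball _ ?_; beta_reduce)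
    | (refine B0.exval _ _ ?_; beta_reduce) | (refine B0.allval _ _ ?_; beta_reduce)
    | (refine B0.exop _ ?_; beta_reduce))

@[simp] theorem b0_sqsR (o k d : Fin n) : B0 (fun (M : Mdl.{u}) (v : Fin n → M) =>
    SqsR (v o) (v k) (v d)) := by
  unfold SqsR
  repeat' (first
    | exact b0_sqR _ _
    | exact B0.mem _ _ | exact B0.eq _ _ | exact b0_opmem _ _ _ | exact b0_sb _ _ | exact b0_tr _
    | exact b0_ord _ | exact b0_em _ | exact b0_om _ | exact b0_pr _ _ _ | exact b0_op _ _ _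
    | exact b0_un _ _ _ | exact b0_sc _ _ | exact b0_fn _ _ | refine B0.and ?_ ?_
    | refine B0.or ?_ ?_ | refine B0.not ?_ | refine B0.imp ?_ ?_ | refine B0.iff ?_ ?_
    | (refine B0.bex _ ?_; beta_reduce) | (refine B0.ball _ ?_; beta_reduce)
    | (refine B0.exval _ _ ?_; beta_reduce) | (refine B0.allval _ _ ?_; beta_reduce)
    | (refine B0.exop _ ?_; beta_reduce))

@[simp] theorem b0_okR (g a d t s i1 k : Fin n) : B0 (fun (M : Mdl.{u}) (v : Fin n → M) =>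
    OkR (v g) (v a) (v d) (v t) (v s) (v i1) (v k)) := by
  unfold OkR
  repeat' (first
    | exact B0.mem _ _ | exact B0.eq _ _ | exact b0_opmem _ _ _ | exact b0_sb _ _ | exact b0_tr _
    | exact b0_ord _ | exact b0_em _ | exact b0_om _ | exact b0_pr _ _ _ | exact b0_op _ _ _
    | exact b0_un _ _ _ | exact b0_sc _ _ | exact b0_fn _ _ | refine B0.and ?_ ?_
    | refine B0.or ?_ ?_ | refine B0.not ?_ | refine B0.imp ?_ ?_ | refine B0.iff ?_ ?_
    | (refine B0.bex _ ?_; beta_reduce) | (refine B0.ball _ ?_; beta_reduce)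
    | (refine B0.exval _ _ ?_; beta_reduce) | (refine B0.allval _ _ ?_; beta_reduce)
    | (refine B0.exop _ ?_; beta_reduce))

@[simp] theorem b0_gbR (h g o W a x : Fin n) : B0 (fun (M : Mdl.{u}) (v : Fin n → M) =>
    GbR (v h) (v g) (v o) (v W) (v a) (v x)) := by
  unfold GbR
  repeat' (first
    | exact b0_sqR _ _ | exact b0_sqsR _ _ _ | exact b0_okR _ _ _ _ _ _ _
    | exact B0.mem _ _ | exact B0.eq _ _ | exact b0_opmem _ _ _ | exact b0_sb _ _ | exact b0_tr _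
    | exact b0_ord _ | exact b0_em _ | exact b0_om _ | exact b0_pr _ _ _ | exact b0_op _ _ _
    | exact b0_un _ _ _ | exact b0_sc _ _ | exact b0_fn _ _ | refine B0.and ?_ ?_
    | refine B0.or ?_ ?_ | refine B0.not ?_ | refine B0.imp ?_ ?_ | refine B0.iff ?_ ?_
    | (refine B0.bex _ ?_; beta_reduce) | (refine B0.ball _ ?_; beta_reduce)
    | (refine B0.exval _ _ ?_; beta_reduce) | (refine B0.allval _ _ ?_; beta_reduce)
    | (refine B0.exop _ ?_; beta_reduce))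

@[simp] theorem b0_tabG (h γ g o W a : Fin n) : B0 (fun (M : Mdl.{u}) (v : Fin n → M) =>
    TabG (v h) (v γ) (v g) (v o) (v W) (v a)) := by
  unfold TabG
  repeat' (first
    | exact b0_gbR _ _ _ _ _ _ | exact b0_tabF _ _ | exact b0_wcl _
    | exact B0.mem _ _ | exact B0.eq _ _ | exact b0_opmem _ _ _ | exact b0_sb _ _ | exact b0_tr _
    | exact b0_ord _ | exact b0_em _ | exact b0_om _ | exact b0_pr _ _ _ | exact b0_op _ _ _
    | exact b0_un _ _ _ | exact b0_sc _ _ | exact b0_fn _ _ | refine B0.and ?_ ?_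
    | refine B0.or ?_ ?_ | refine B0.not ?_ | refine B0.imp ?_ ?_ | refine B0.iff ?_ ?_
    | (refine B0.bex _ ?_; beta_reduce) | (refine B0.ball _ ?_; beta_reduce)
    | (refine B0.exval _ _ ?_; beta_reduce) | (refine B0.allval _ _ ?_; beta_reduce)
    | (refine B0.exop _ ?_; beta_reduce))

end Pool.Agent.Sep
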