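import Pool.Agent.Sep.SeqR
import Pool.Agent.Sep.SeqC

/-!
The table of the branches is unique, and in a model of the axiom of constructibility the table of
the branches with countable indices is hereditarily countable.
-/

universe u

set_option linter.unusedSectionVars false

namespace Pool.Agent.Sep

open Pool.Agent.SigB Pool.Agent.Forc
open scoped Pool.Agent.GL.ToSig

variable {M : Type u} [Membership M M] [IsZFC M]

theorem sqR_iff {y : M} : SqR om y ↔ y ∈ (Sq : M) := by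
  rw [mem_Sq]
  unfold SqR
  simp only [GL.toSig_Fn, GL.toSig_op]
  constructor
  · rintro ⟨n, hn, hf, h⟩
    exact ⟨n, hn, mem_fs.2 ⟨hf, fun i hi => h i hi _ ((hf.op_mem_iff hi).2 rfl)⟩⟩
  · rintro ⟨n, hn, h⟩
    obtain ⟨hf, h⟩ := mem_fs.1 h
    exact ⟨n, hn, hf, fun i hi z hz => (hf.op_mem_iff hi).1 hz ▸ h i hi⟩

theorem sqsR_iff {k d : M} : SqsR om k d ↔ d ∈ fs k (Sq : M) := by
  rw [mem_fs]
  unfold SqsR
  simp only [GL.toSig_Fn, GL.toSig_op]
  constructor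
  · rintro ⟨hf, h⟩
    exact ⟨hf, fun i hi => sqR_iff.1 (h i hi _ ((hf.op_mem_iff hi).2 rfl))⟩
  · rintro ⟨hf, h⟩
    exact ⟨hf, fun i hi y hy => sqR_iff.2 ((hf.op_mem_iff hi).1 hy ▸ h i hi)⟩

theorem okR_iff {g a a' d t s i1 k : M} (ht : Fn t k) (hd : Fn d k) (hs : Fn s k)
    (hg : Fn g a') (ha : Sb a a') : OkR g a d t s i1 k ↔ Okk g a d t s i1 k := by
  unfold OkR Okk
  simp only [GL.toSig_Sb, GL.toSig_op]
  constructor
  · intro h i hi
    have h1 := h i hi _ ((ht.op_mem_iff hi).2 rfl) _ ((hd.op_mem_iff hi).2 rfl)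
    exact ⟨fun hc => h1.1 hc _ ((hg.op_mem_iff (ha _ hc)).2 rfl),
      fun hc hi1 => h1.2 hc hi1 _ ((hs.op_mem_iff hi).2 rfl)⟩
  · intro h i hi c hc e he
    rw [ht.op_mem_iff hi] at hc
    rw [hd.op_mem_iff hi] at he
    subst hc he
    refine ⟨fun hc b hb => ?_, fun hc hi1 f hf => ?_⟩
    · rw [hg.op_mem_iff (ha _ hc)] at hb
      subst hb
      exact (h i hi).1 hc
    · rw [hs.op_mem_iff hi] at hf
      subst hf
      exact (h i hi).2 hc hi1

theorem fst_of_not {z : M} (h : ¬ ∃ x y, z = op x y) : fst z = (SigB.em : M) := by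
  unfold Forc.fst
  refine ext' fun w => ?_
  rw [mem_cp ⟨SigB.em, fun z' => ?_⟩]
  · constructor
    · rintro ⟨x, y, h1, _⟩
      exact (h ⟨x, y, h1⟩).elim
    · intro h1
      exact (not_mem_em _ h1).elim
  · constructor
    · intro h1
      exact (not_mem_em _ h1).elim
    · rintro ⟨x, y, h1, _⟩
      exact (h ⟨x, y, h1⟩).elim

theorem snd_of_not {z : M} (h : ¬ ∃ x y, z = op x y) : snd z = (SigB.em : M) := by
  unfold Forc.snd
  refine ext' fun w => ?_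
  rw [mem_cp ⟨SigB.em, fun z' => ?_⟩]
  · constructor
    · rintro ⟨x, y, h1, _⟩
      exact (h ⟨x, y, h1⟩).elim
    · intro h1
      exact (not_mem_em _ h1).elim
  · constructor
    · intro h1
      exact (not_mem_em _ h1).elim
    · rintro ⟨x, y, h1, _⟩
      exact (h ⟨x, y, h1⟩).elim

theorem em_ne_op {x y : M} : (SigB.em : M) ≠ op x y := by
  intro h
  have : pr x x ∈ (SigB.em : M) := by rw [h]; exact mem_pr.2 (Or.inl rfl)
  exact not_mem_em _ this

theorem snd_em : snd (SigB.em : M) = SigB.em :=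
  snd_of_not fun ⟨_, _, h⟩ => em_ne_op h

theorem fst_em : fst (SigB.em : M) = SigB.em :=
  fst_of_not fun ⟨_, _, h⟩ => em_ne_op h

theorem lt_sb_iff {a x : M} : Sb (lt a) x ↔
    ¬ ∃ p r, GL.Fc a = op p r ∧ ∃ b t, p = op b t ∧ t ∈ (Sq : M) ∧ ¬ Sb t x := by
  have h0 : ∀ {p r : M}, GL.Fc a = op p r → fst (GL.Fc a) = p := fun h => by rw [h, fst_op]
  have h1 : ∀ {p b t : M}, p = op b t → snd p = t := fun h => by rw [h, snd_op]
  have h2 : ∀ z : M, z ∉ (SigB.em : M) := not_mem_em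
  unfold lt
  split_ifs with h
  · constructor
    · rintro h3 ⟨p, r, h4, b, t, h5, h6, h7⟩
      rw [h0 h4, h1 h5] at h3
      exact h7 h3
    · intro h3
      by_cases h4 : ∃ p r, GL.Fc a = op p r
      · obtain ⟨p, r, h4⟩ := h4
        rw [h0 h4] at h ⊢
        by_cases h5 : ∃ b t, p = op b t
        · obtain ⟨b, t, h5⟩ := h5
          rw [h1 h5] at h ⊢
          by_contra h6
          exact h3 ⟨p, r, h4, b, t, h5, h, h6⟩
        · rw [snd_of_not h5]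
          exact fun z hz => (h2 z hz).elim
      · rw [fst_of_not h4, snd_em]
        exact fun z hz => (h2 z hz).elim
  · constructor
    · rintro - ⟨p, r, h4, b, t, h5, h6, h7⟩
      rw [h0 h4, h1 h5] at h
      exact h h6
    · intro _ z hz
      exact (h2 z hz).elim

theorem gbR_iff {h γ g W a a' x : M} (hh : TabF h γ) (hW : Wcl W) (haγ : a ∈ γ)
    (haW : Sb (sc a) W) (hg : Fn g a') (ha : Sb a a') :
    GbR h g om W a x ↔ Gb g a x := by
  have hfs : x ∈ fs (om : M) om ↔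
      (Fn x om ∧ ∀ i, i ∈ (om : M) → ∀ z, op i z ∈ x → z ∈ (om : M)) := by
    rw [mem_fs]
    constructor
    · rintro ⟨hf, h⟩
      exact ⟨hf, fun i hi z hz => (hf.op_mem_iff hi).1 hz ▸ h i hi⟩
    · rintro ⟨hf, h⟩
      exact ⟨hf, fun i hi => h i hi _ ((hf.op_mem_iff hi).2 rfl)⟩
  have hSqW : Sb (Sq : M) W := fun y hy => by
    obtain ⟨n, hn, hy⟩ := mem_Sq.1 hy
    exact hW.fs hW.om n hn y hy
  unfold GbR Gb
  rw [hfs]
  simp only [GL.toSig_Sb, GL.toSig_op, GL.toSig_Fn]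
  refine and_congr Iff.rfl (and_congr ?_ (and_congr ?_ ?_))
  · rw [lt_sb_iff]
    constructor
    · rintro h1 ⟨p, r, h2, b, t, h3, h4, h5⟩
      exact h1 _ ((hh.mem_iff haγ).2 rfl) ⟨p, r, h2, b, t, h3, sqR_iff.2 h4, h5⟩
    · rintro h1 c hc ⟨p, r, h2, b, t, h3, h4, h5⟩
      have hc := (hh.mem_iff haγ).1 hc
      exact h1 ⟨p, r, by rw [← hc]; exact h2, b, t, h3, sqR_iff.1 h4, h5⟩
  · constructor
    · intro h1 c hc
      exact h1 c hc _ ((hg.op_mem_iff (ha c hc)).2 rfl)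
    · intro h1 c hc z hz
      rw [hg.op_mem_iff (ha c hc)] at hz
      subst hz
      exact h1 c hc
  · have key : ∀ {k t s i1 D : M} {P P' : M → Prop}, Fn t k → Fn s k → i1 ∈ k →
        (∀ e, P e ↔ P' e) →
        ((∃ d, d ∈ D ∧ SqsR om k d ∧ (∀ e, op i1 e ∈ d → P e) ∧ OkR g a d t s i1 k) ↔
        ∃ d, d ∈ D ∧ d ∈ fs k (Sq : M) ∧ P' (ap d i1) ∧ Okk g a d t s i1 k) := by
      intro k t s i1 D P P' ht hs hi1 hP
      refine exists_congr fun d => and_congr Iff.rfl ?_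
      rw [sqsR_iff]
      constructor
      · rintro ⟨h1, h2, h3⟩
        have hd := (mem_fs.1 h1).1
        exact ⟨h1, (hP _).1 (h2 _ ((hd.op_mem_iff hi1).2 rfl)), (okR_iff ht hd hs hg ha).1 h3⟩
      · rintro ⟨h1, h2, h3⟩
        have hd := (mem_fs.1 h1).1
        refine ⟨h1, fun e he => ?_, (okR_iff ht hd hs hg ha).2 h3⟩
        rw [hd.op_mem_iff hi1] at he
        exact he ▸ (hP _).2 h2
    constructor
    · intro h1 k D t i1 s hk hD ht hi1 htn hs hex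
      obtain ⟨δ, hδ, rfl⟩ := GL.mem_XX.1 hD
      obtain ⟨htf, htv⟩ := mem_fs.1 ht
      obtain ⟨hsf, hsv⟩ := mem_fs.1 hs
      refine (key htf hsf hi1 fun e => Iff.rfl).1 (h1 δ hδ _ ((hh.mem_iff (hh.1.trans hδ haγ)).2 rfl)
        k hk t (hW.fs haW k hk t ht) htf ?_ i1 hi1 ?_ s (hW.fs hSqW k hk s hs)
        (sqsR_iff.2 hs) ?_)
      · intro i hi c hc
        rw [htf.op_mem_iff hi] at hc
        subst hc
        exact mem_sc.1 (htv i hi)
      · intro c hc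
        rw [htf.op_mem_iff hi1] at hc
        subst hc
        exact htn
      · intro q hq hq'
        exact (key htf hsf hi1 fun e => Iff.rfl).2 (hex q (sqR_iff.1 hq'))
    · intro h1 δ hδ D hD k hk t ht htf htv i1 hi1 htn s hs hs' hex
      have hD := (hh.mem_iff (hh.1.trans hδ haγ)).1 hD
      subst hD
      have hsf := (mem_fs.1 (sqsR_iff.1 hs')).1
      refine (key htf hsf hi1 fun e => Iff.rfl).2 (h1 k _ t i1 s hk (GL.mem_XX.2 ⟨δ, hδ, rfl⟩)
        (mem_fs.2 ⟨htf, fun i hi => mem_sc.2 (htv i hi _ ((htf.op_mem_iff hi).2 rfl))⟩)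
        hi1 (htn _ ((htf.op_mem_iff hi1).2 rfl)) (sqsR_iff.1 hs') ?_)
      intro q hq
      exact (key htf hsf hi1 fun e => Iff.rfl).1 (hex q (hSqW q hq) (sqR_iff.2 hq))

/-! ### Uniqueness -/

theorem Gb.congr {h h' a x : M} (he : ∀ c, c ∈ a → ap h c = ap h' c) (hg : Gb h a x) :
    Gb h' a x := by
  have hO : ∀ {h h' d u s i₁ k : M}, (∀ c, c ∈ a → ap h c = ap h' c) → Okk h a d u s i₁ k →
      Okk h' a d u s i₁ k := by
    intro h h' d u s i₁ k he hk i hi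
    refine ⟨fun hc => ?_, (hk i hi).2⟩
    rw [← he _ hc]
    exact (hk i hi).1 hc
  obtain ⟨h1, h2, h3, h4⟩ := hg
  refine ⟨h1, h2, fun c hc => by rw [← he c hc]; exact h3 c hc, ?_⟩
  intro k D u i₁ s hk hD hu hi hn hs hex
  obtain ⟨d, h5, h6, h7, h8⟩ := h4 k D u i₁ s hk hD hu hi hn hs fun t ht => by
    obtain ⟨d, h5, h6, h7, h8⟩ := hex t ht
    exact ⟨d, h5, h6, h7, hO (fun c hc => (he c hc).symm) h8⟩
  exact ⟨d, h5, h6, h7, hO he h8⟩

/-- The table of the branches is unique. -/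
theorem TabG.eq {h γ g o W a : M} (hT : TabG h γ g o W a) : ∀ β, β ∈ a → ap g β = br β := by
  obtain ⟨hh, ho, hW, ha, haW, haγ, hg, hs⟩ := hT
  have ho : o = (om : M) := ho
  have ha : Ord a := ha
  have hg : Fn g a := hg
  subst ho
  refine ha.ind (P := fun β => ap g β = br β) (by simp (maxDischargeDepth := 50)) ?_
  intro β hβ ih
  have hOβ : Ord β := ha.mem hβ
  obtain ⟨ν, hν, h1, h2, h3⟩ := hs β hβ _ ((hg.op_mem_iff hβ).2 rfl)
  have hOν : Ord ν := hh.1.mem hν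
  have hscW : Sb (sc β) W := fun z hz => by
    rcases mem_sc.1 hz with h4 | rfl
    · exact haW z (ha.trans h4 hβ)
    · exact haW z hβ
  have hsb : Sb β a := ha.sb hβ
  have hiff : ∀ x, GbR h g om W β x ↔ Gb (lam β br) β x := by
    intro x
    rw [gbR_iff hh hW (haγ β hβ) hscW hg hsb]
    exact ⟨Gb.congr fun c hc => by rw [ap_lam_br hc, ih c hc],
      Gb.congr fun c hc => by rw [ap_lam_br hc, ih c hc]⟩
  have hy : ap g β = GL.Fc ν := (hh.mem_iff hν).1 h1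
  rw [hy] at h2 ⊢
  rw [hiff] at h2
  have h4 : ∀ μ, μ ∈ ν → ¬ Gb (lam β br) β (GL.Fc μ) := fun μ hμ => by
    rw [← hiff]
    exact h3 μ hμ _ ((hh.mem_iff (hh.1.trans hμ hν)).2 rfl)
  rw [br_eq hOβ]
  unfold nb
  obtain ⟨h5, h6, h7⟩ := GL.mu_spec (P := fun b => Gb (lam β br) β (GL.Fc b))
    (by simp (maxDischargeDepth := 50)) ⟨ν, hOν, h2⟩
  have h8 : (GL.mu fun b => Gb (lam β br) β (GL.Fc b)) = ν := by
    rcases Ord.tri h5 hOν with h9 | h9 | h9
    · exact (h4 _ h9 h6).elim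
    · exact h9
    · exact (h7 _ h9 h2).elim
  rw [h8]

/-! ### Existence of countable tables -/

theorem Ad.wcl {X : M} (h : Ad X) : Wcl X := ⟨h.1, fun x hx y hy => h.2 x y hx hy⟩

/-- A countable table of the branches with indices at most `a`. -/
theorem exists_tabG (hL : GL.AllL M) {a : M} (ha : Ord a) (hc : Le a om) :
    ∃ ξ W : M, Tr W ∧ Le W om ∧ Sb (lam ξ GL.Fc) W ∧ Sb ξ W ∧ Sb (lam (sc a) br) W ∧ Sb om W ∧
      Sb (sc a) W ∧ TabG (lam ξ GL.Fc) ξ (lam (sc a) br) om W (sc a) := by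
  have hdbr : DT (fun w : Fin 1 → M => br (w 0)) := dt_br (DT.var 0)
  obtain ⟨H, ξ, hH, hA, hcl⟩ := exists_hull hL (ι := Unit) (fun _ x _ => br x)
    (fun _ => dt_br (DT.var 0)) (A := pr a a) (le_om_pr a a)
  have haH : a ∈ H := hA a (by simp)
  have haξ : a ∈ ξ := (hH.mem_ξ a).2 ⟨haH, ha, hc⟩
  have hOξ := hH.ord
  have hsc : Sb (sc a) ξ := fun z hz => by
    rcases mem_sc.1 hz with h1 | rfl
    · exact hOξ.trans h1 haξ
    · exact haξ
  have hξW : Sb ξ (GL.XX ξ) := fun z hz => hH.mem_XX z hz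
  have homW : Sb om (GL.XX ξ) := hH.adX.om
  have hbr : ∀ β, β ∈ ξ → br β ∈ GL.XX ξ := by
    intro β hβ
    obtain ⟨h1, h2, h3⟩ := (hH.mem_ξ β).1 hβ
    have h4 := mem_fs.1 (br_mem hL h2 h3)
    refine hH.small _ (hcl () β β h1 h1) fun z hz => ?_
    obtain ⟨i, hi, rfl⟩ := h4.1.mem_iff.1 hz
    exact hH.adX.op (homW i hi) (homW _ (h4.2 i hi))
  have hcW : Le (GL.XX ξ) om := hH.le.mono_left hH.XX_sb
  refine ⟨ξ, GL.XX ξ, GL.tr_XX hOξ, hcW, fun z hz => ?_, hξW, fun z hz => ?_, homW,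
    hsc.trans hξW, ?_⟩
  · obtain ⟨i, hi, rfl⟩ := (fn_lam GL.Fc.dt).mem_iff.1 hz
    rw [ap_lam GL.Fc.dt hi]
    exact hH.adX.op (hξW i hi) (GL.mem_XX.2 ⟨i, hi, rfl⟩)
  · obtain ⟨i, hi, rfl⟩ := (fn_lam hdbr).mem_iff.1 hz
    rw [ap_lam hdbr hi]
    exact hH.adX.op (hξW i (hsc i hi)) (hbr i (hsc i hi))
  · have hT : TabF (lam ξ GL.Fc) ξ := tabF_lam hOξ
    have hg : Fn (lam (sc a) br) (sc a) := fn_lam hdbr
    refine ⟨hT, rfl, hH.adX.wcl, ord_sc ha, hsc.trans hξW, hsc, hg, fun β hβ y hy => ?_⟩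
    have hOβ : Ord β := (ord_sc ha).mem hβ
    have hβξ := hsc β hβ
    obtain ⟨hβH, -, hβc⟩ := (hH.mem_ξ β).1 hβξ
    have hy : y = br β := by
      have := (hg.op_mem_iff hβ).1 hy
      rw [← this, ap_lam hdbr hβ]
    subst hy
    have hscW : Sb (sc β) (GL.XX ξ) := fun z hz => by
      rcases mem_sc.1 hz with h4 | rfl
      · exact hξW z (hOξ.trans h4 hβξ)
      · exact hξW z hβξ
    have hiff : ∀ x, GbR (lam ξ GL.Fc) (lam (sc a) br) om (GL.XX ξ) β x ↔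
        Gb (lam β br) β x := by
      intro x
      rw [gbR_iff hT hH.adX.wcl hβξ hscW hg ((ord_sc ha).sb hβ)]
      exact ⟨Gb.congr fun c hc => by rw [ap_lam_br hc, ap_lam_br ((ord_sc ha).trans hc hβ)],
        Gb.congr fun c hc => by rw [ap_lam_br hc, ap_lam_br ((ord_sc ha).trans hc hβ)]⟩
    obtain ⟨h5, h6, h7⟩ := GL.mu_spec (P := fun b => Gb (lam β br) β (GL.Fc b))
      (by simp (maxDischargeDepth := 50)) (by
        obtain ⟨b, hb, hbe⟩ := hL (br β)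
        exact ⟨b, hb, by rw [← hbe]; exact br_spec hL hOβ hβc⟩)
    have h8 : br β = GL.Fc (GL.mu fun b => Gb (lam β br) β (GL.Fc b)) := br_eq hOβ
    obtain ⟨ν, hν, hν2⟩ := GL.mem_XX.1 (hbr β hβξ)
    have hOν : Ord ν := hOξ.mem hν
    have h9 : ν = GL.mu fun b => Gb (lam β br) β (GL.Fc b) :=
      GL.Fc_inj hOν h5 (hν2.symm.trans h8)
    refine ⟨ν, hν, (hT.mem_iff hν).2 hν2, ?_, fun μ hμ z hz => ?_⟩
    · rw [hiff]
      exact br_spec hL hOβ hβc
    · have hz := (hT.mem_iff (hOξ.trans hμ hν)).1 hz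
      subst hz
      rw [hiff]
      rw [h9] at hμ
      exact h7 μ hμ

end Pool.Agent.Sep
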