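import Pool.Agent.Sep.TreeBr

/-!
Shoenfield's absoluteness theorem for transitive embeddings with the same ordinals.
-/

universe u v

set_option linter.unusedSectionVars false

namespace Pool.Agent.Sep

open Pool.Agent.SigB

section one

variable {M : Type u} [Membership M M] [IsZFC M]

/-- A well-founded relation has a rank function. -/
theorem exists_rank {X r : M} (h : Wf X r) : ∃ ρ κ : M, Ord κ ∧ ρ ∈ fs X κ ∧
    ∀ s t, s ∈ X → t ∈ X → op t s ∈ r → ap ρ t ∈ ap ρ s := by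
  obtain ⟨c, hc, hc'⟩ := exists_collapse h
  have hP : ∀ x : M, Dfn (fun w : Fin 1 → M => Sb (ap c x) (Frc.VV (w 0))) := fun x => by
    simp (maxDischargeDepth := 50)
  have hex : ∀ x : M, ∃ α : M, Ord α ∧ Sb (ap c x) (Frc.VV α) := fun x => by
    obtain ⟨α, hα, h⟩ := Frc.exists_VV (ap c x)
    obtain ⟨β, hβ, h'⟩ := (Frc.mem_VV hα).1 h
    exact ⟨β, hα.mem hβ, h'⟩
  have hd : DT (fun w : Fin 1 → M => Frc.mu fun α => Sb (ap c (w 0)) (Frc.VV α)) :=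
    Frc.dt_mu (P := fun (v : Fin 1 → M) α => Sb (ap c (v 0)) (Frc.VV α))
      (by simp (maxDischargeDepth := 50))
  obtain ⟨κ, hκ, hκ'⟩ := Frc.exists_sup (a := X) hd fun x _ => (Frc.mu_spec (hP x) (hex x)).1
  refine ⟨lam X fun x => Frc.mu fun α => Sb (ap c x) (Frc.VV α), κ, hκ, lam_mem_fs hd hκ', ?_⟩
  intro s t hs ht hst
  rw [ap_lam hd hs, ap_lam hd ht]
  obtain ⟨h1, h2, -⟩ := Frc.mu_spec (hP s) (hex s)
  obtain ⟨h3, h4, h5⟩ := Frc.mu_spec (hP t) (hex t)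
  have h6 : ap c t ∈ ap c s := (hc' s hs _).2 ⟨t, ht, hst, rfl⟩
  obtain ⟨β, hβ, h7⟩ := (Frc.mem_VV h1).1 (h2 _ h6)
  have hβO : Ord β := h1.mem hβ
  rcases h3.tri hβO with h8 | h8 | h8
  · exact h1.trans h8 hβ
  · rw [h8]; exact hβ
  · exact (h5 β h8 h7).elim

/-- The statement of the projective class `Π¹₂` given by `A`. -/
def PiA (A : M) : Prop := ∀ x, x ∈ fs (om : M) om → ∃ w, w ∈ fs (om : M) om ∧
  ∀ n, n ∈ (om : M) → op (rs x n) (rs w n) ∈ A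

/-- The section of `A` at `x`. -/
noncomputable def Px (A x : M) : M := sp (Forc.Seq om) fun v =>
  ∃ n, n ∈ (om : M) ∧ Fn v n ∧ op (rs x n) v ∈ A

theorem mem_Px {A x v : M} : v ∈ Px A x ↔ v ∈ Forc.Seq (om : M) ∧
    ∃ n, n ∈ (om : M) ∧ Fn v n ∧ op (rs x n) v ∈ A := by
  unfold Px
  exact mem_sp (by simp (maxDischargeDepth := 50))

theorem brc_px {A x w : M} : Brc om (Px A x) w ↔ w ∈ fs (om : M) om ∧
    ∀ n, n ∈ (om : M) → op (rs x n) (rs w n) ∈ A := by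
  refine and_congr_right fun hw => forall_congr' fun n => imp_congr_right fun hn => ?_
  rw [mem_Px]
  have h1 := fs_rs hw hn
  constructor
  · rintro ⟨-, m, hm, h2, h3⟩
    obtain rfl := fn_dom h2 (mem_fs.1 h1).1
    exact h3
  · intro h
    exact ⟨Forc.mem_Seq.2 ⟨n, hn, h1⟩, n, hn, (mem_fs.1 h1).1, h⟩

/-- The condition on the attempts to build a real and a rank function. -/
def Att (A i u : M) : Prop := ∀ s t m, s ∈ Forc.Seq (om : M) → t ∈ Forc.Seq (om : M) →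
  m ∈ (om : M) → Fn s m → Fn t (sc m) → rs t m = s →
  (∀ k, k ∈ sc (sc m) → ∃ v, v ∈ Forc.Seq (om : M) ∧ Fn v k ∧
    (∀ l, l ∈ k → ∃ g, op l (op (ap v l) g) ∈ u) ∧ op v (rs t k) ∈ A) →
  ∀ g g' p q, op (ap i s) (op p g) ∈ u → op (ap i t) (op q g') ∈ u → g' ∈ g

@[simp] theorem dfn_Att {n : ℕ} {s t r : (Fin n → M) → M} (hs : DT s) (ht : DT t) (hr : DT r) :
    Dfn (fun v => Att (s v) (t v) (r v)) :=
  dfn3 (R := Att) (by unfold Att; simp (maxDischargeDepth := 50)) hs ht hr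

theorem le_bound {a b c : M} (ha : a ∈ (om : M)) (hb : b ∈ (om : M)) (hc : c ∈ (om : M)) :
    ∃ n, n ∈ (om : M) ∧ a ∈ n ∧ b ∈ n ∧ Sb c n := by
  have key : ∀ {x y : M}, x ∈ (om : M) → y ∈ (om : M) → ∃ n, n ∈ (om : M) ∧ Sb x n ∧ Sb y n := by
    intro x y hx hy
    rcases om_le_total hx hy with h | h
    · exact ⟨y, hy, h, Sb.refl _⟩
    · exact ⟨x, hx, Sb.refl _, h⟩
  obtain ⟨n, hn, h1, h2⟩ := key (sc_mem_om ha) (sc_mem_om hb)
  obtain ⟨m, hm, h3, h4⟩ := key hn hc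
  exact ⟨m, hm, h3 _ (h1 _ (mem_sc_self a)), h3 _ (h2 _ (mem_sc_self b)), h4⟩

/-- An infinite attempt gives a counterexample to the statement. -/
theorem not_piA_of_att {A i κ b : M} (hi : i ∈ fs (Forc.Seq (om : M)) om)
    (hb : b ∈ fs (om : M) (pd om κ)) (hA : ∀ n, n ∈ (om : M) → Att A i (rs b n)) : ¬ PiA A := by
  intro hPi
  obtain ⟨hb1, hb2⟩ := mem_fs.1 hb
  have hbv : ∀ k, k ∈ (om : M) → ∃ p g, p ∈ (om : M) ∧ ap b k = op p g := by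
    intro k hk
    obtain ⟨p, hp, g, -, h⟩ := mem_pd.1 (hb2 k hk)
    exact ⟨p, g, hp, h⟩
  have hbo : ∀ k, k ∈ (om : M) → op k (op (Forc.fst (ap b k)) (Forc.snd (ap b k))) ∈ b := by
    intro k hk
    obtain ⟨p, g, -, h⟩ := hbv k hk
    refine (hb1.op_mem_iff hk).2 ?_
    rw [h, Forc.fst_op, Forc.snd_op]
  have hxd : DT (fun w : Fin 1 → M => Forc.fst (ap b (w 0))) := by
    simp (maxDischargeDepth := 50)
  let x : M := lam om fun k => Forc.fst (ap b k)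
  have hx : x ∈ fs (om : M) om := lam_mem_fs hxd fun k hk => by
    obtain ⟨p, g, hp, h⟩ := hbv k hk
    rw [h, Forc.fst_op]
    exact hp
  obtain ⟨w, hw, hwA⟩ := hPi x hx
  obtain ⟨hi1, hi2⟩ := mem_fs.1 hi
  have hwS : ∀ n, n ∈ (om : M) → rs w n ∈ Forc.Seq (om : M) := fun n hn =>
    Forc.mem_Seq.2 ⟨n, hn, fs_rs hw hn⟩
  have hgd : DT (fun v : Fin 1 → M => Forc.snd (ap b (ap i (rs w (v 0))))) := by
    simp (maxDischargeDepth := 50)
  refine no_desc (lam om fun n => Forc.snd (ap b (ap i (rs w n)))) fun n hn => ?_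
  rw [ap_lam hgd hn, ap_lam hgd (sc_mem_om hn)]
  have his := hi2 _ (hwS n hn)
  have hit := hi2 _ (hwS _ (sc_mem_om hn))
  obtain ⟨N, hN, h1, h2, h3⟩ := le_bound his hit (sc_mem_om (sc_mem_om hn))
  refine hA N hN (rs w n) (rs w (sc n)) n (hwS n hn) (hwS _ (sc_mem_om hn)) hn
    (mem_fs.1 (fs_rs hw hn)).1 (mem_fs.1 (fs_rs hw (sc_mem_om hn))).1 (rs_rs_sb (sb_sc n)) ?_
    _ _ _ _ (op_mem_rs.2 ⟨hbo _ his, h1⟩) (op_mem_rs.2 ⟨hbo _ hit, h2⟩)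
  intro k hk
  have hko : k ∈ (om : M) := om_ord.trans hk (sc_mem_om (sc_mem_om hn))
  refine ⟨rs x k, Forc.mem_Seq.2 ⟨k, hko, fs_rs hx hko⟩, (mem_fs.1 (fs_rs hx hko)).1, ?_, ?_⟩
  · intro l hl
    have hlo : l ∈ (om : M) := om_ord.trans hl hko
    refine ⟨Forc.snd (ap b l), op_mem_rs.2 ⟨?_, h3 l ?_⟩⟩
    · rw [ap_rs (mem_fs.1 hx).1 (om_ord.sb hko) hl, ap_lam hxd hlo]
      exact hbo l hlo
    · exact (ord_of_mem_om (sc_mem_om (sc_mem_om hn))).trans hl hk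
  · have hks : Sb k (sc n) := by
      rcases mem_sc.1 hk with h | h
      · exact (ord_of_mem_om (sc_mem_om hn)).sb h
      · rw [h]; exact Sb.refl _
    rw [rs_rs_sb hks]
    exact hwA k hko

end one

section two

variable {M : Type u} {N : Type v} [Membership M M] [Membership N N] [IsZFC M] [IsZFC N]
  {j : M → N}

theorem trx_emb (hj : GL.TrEmb j) (K Φ : M) : j (Trx K Φ) = Trx (j K) (j Φ) := by
  have h1 : ∀ z : M, z ∈ Trx K Φ ↔ j z ∈ Trx (j K) (j Φ) := by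
    intro z
    rw [mem_Trx, mem_Trx, ← seq_emb hj, hj.mem_iff]
    refine and_congr_right fun _ => ⟨fun h n hn => ?_, fun h n hn => ?_⟩
    · obtain ⟨n, hn', rfl⟩ := hj.s_mem_om_lift hn
      rw [← hj.s_rs, hj.mem_iff]
      exact h n hn'
    · rw [← hj.mem_iff, hj.s_rs]
      exact h _ (hj.s_mem_om.2 hn)
  refine hj.eq_of h1 fun z hz => ?_
  have h2 := (mem_Trx.1 hz).1
  rw [← seq_emb hj] at h2
  obtain ⟨x, -, hx⟩ := hj.tr h2
  exact ⟨x, hx⟩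

theorem trr_emb (hj : GL.TrEmb j) (K Φ : M) : j (Trr K Φ) = Trr (j K) (j Φ) := by
  have h1 : ∀ s t : M, op t s ∈ Trr K Φ ↔ op (j t) (j s) ∈ Trr (j K) (j Φ) := by
    intro s t
    rw [op_mem_Trr, op_mem_Trr, ← trx_emb hj, hj.mem_iff, hj.mem_iff]
    refine and_congr_right fun _ => ⟨?_, ?_⟩
    · rintro ⟨n, hn, h1, h2, h3⟩
      exact ⟨j n, hj.s_mem_om.2 hn, hj.s_fn.2 h1, by rw [← hj.s_sc]; exact hj.s_fn.2 h2,
        by rw [← hj.s_rs, h3]⟩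
    · rintro ⟨n, hn, h1, h2, h3⟩
      obtain ⟨n, hn', rfl⟩ := hj.s_mem_om_lift hn
      rw [← hj.s_sc] at h2
      rw [← hj.s_rs] at h3
      exact ⟨n, hn', hj.s_fn.1 h1, hj.s_fn.1 h2, hj.inj.1 h3⟩
  have hpr : ∀ {K Φ : M} {z : M}, z ∈ Trr K Φ → ∃ s t, z = op t s := by
    intro K Φ z hz
    unfold Trr at hz
    rw [mem_sp (by simp (maxDischargeDepth := 50))] at hz
    obtain ⟨-, s, t, n, h, -⟩ := hz
    exact ⟨s, t, h⟩
  have hpr' : ∀ {K Φ : N} {z : N}, z ∈ Trr K Φ → ∃ s t, z = op t s := by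
    intro K Φ z hz
    unfold Trr at hz
    rw [mem_sp (by simp (maxDischargeDepth := 50))] at hz
    obtain ⟨-, s, t, n, h, -⟩ := hz
    exact ⟨s, t, h⟩
  refine hj.eq_of (fun z => ⟨fun hz => ?_, fun hz => ?_⟩) fun z hz => ?_
  · obtain ⟨s, t, rfl⟩ := hpr hz
    rw [hj.s_op]
    exact (h1 s t).1 hz
  · obtain ⟨s, t, h⟩ := hpr' hz
    obtain ⟨t', s', rfl, rfl, rfl⟩ := hj.s_of_op h
    rw [hj.s_op] at hz
    exact (h1 _ _).2 hz
  · obtain ⟨s, t, rfl⟩ := hpr' hz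
    obtain ⟨⟨h2, h3⟩, -⟩ := op_mem_Trr.1 hz
    rw [← trx_emb hj] at h2 h3
    obtain ⟨t, -, rfl⟩ := hj.tr h2
    obtain ⟨s, -, rfl⟩ := hj.tr h3
    exact ⟨op t s, (hj.s_op t s).symm⟩

/-- The existence of an infinite branch is absolute. -/
theorem brc_emb (hj : GL.TrEmb j) {K Φ : M} :
    (∃ b, Brc (j K) (j Φ) b) ↔ ∃ b, Brc K Φ b := by
  rw [← not_iff_not, ← wf_tree_iff, ← wf_tree_iff, ← trx_emb hj, ← trr_emb hj, wf_emb hj]

theorem px_emb (hj : GL.TrEmb j) (A x : M) : j (Px A x) = Px (j A) (j x) := by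
  have h1 : ∀ z : M, z ∈ Px A x ↔ j z ∈ Px (j A) (j x) := by
    intro z
    rw [mem_Px, mem_Px, ← hj.s_om, ← seq_emb hj, hj.mem_iff]
    refine and_congr_right fun _ => ⟨?_, ?_⟩
    · rintro ⟨n, hn, h1, h2⟩
      exact ⟨j n, hj.mem_iff.2 hn, hj.s_fn.2 h1, by rw [← hj.s_rs, hj.s_op_mem]; exact h2⟩
    · rintro ⟨n, hn, h1, h2⟩
      obtain ⟨n, hn', rfl⟩ := hj.tr hn
      rw [← hj.s_rs, hj.s_op_mem] at h2
      exact ⟨n, hn', hj.s_fn.1 h1, h2⟩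
  refine hj.eq_of h1 fun z hz => ?_
  have h2 := (mem_Px.1 hz).1
  rw [← hj.s_om, ← seq_emb hj] at h2
  obtain ⟨x, -, hx⟩ := hj.tr h2
  exact ⟨x, hx⟩

theorem att_of_emb (hj : GL.TrEmb j) {A i u : M} (h : Att (j A) (j i) (j u)) : Att A i u := by
  have hS : ∀ {s : M}, s ∈ Forc.Seq (om : M) → j s ∈ Forc.Seq (om : N) := by
    intro s hs
    rw [← hj.s_om, ← seq_emb hj, hj.mem_iff]
    exact hs
  intro s t m hs ht hm hsm htm hst hk g g' p q h1 h2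
  rw [← hj.mem_iff]
  refine h (j s) (j t) (j m) (hS hs) (hS ht) (hj.s_mem_om.2 hm) (hj.s_fn.2 hsm)
    (by rw [← hj.s_sc]; exact hj.s_fn.2 htm) (by rw [← hj.s_rs, hst]) ?_ (j g) (j g') (j p) (j q)
    (by rw [← hj.s_ap, ← hj.s_op, hj.s_op_mem]; exact h1)
    (by rw [← hj.s_ap, ← hj.s_op, hj.s_op_mem]; exact h2)
  intro k hkm
  rw [← hj.s_sc, ← hj.s_sc] at hkm
  obtain ⟨k, hk', rfl⟩ := hj.tr hkm
  obtain ⟨v, hv, hv1, hv2, hv3⟩ := hk k hk'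
  refine ⟨j v, hS hv, hj.s_fn.2 hv1, fun l hl => ?_, by rw [← hj.s_rs, hj.s_op_mem]; exact hv3⟩
  obtain ⟨l, hl', rfl⟩ := hj.tr hl
  obtain ⟨g, hg⟩ := hv2 l hl'
  exact ⟨j g, by rw [← hj.s_ap, ← hj.s_op, hj.s_op_mem]; exact hg⟩

/-- Downward absoluteness. -/
theorem piA_down (hj : GL.TrEmb j) {A : M} (h : PiA (j A)) : PiA A := by
  intro x hx
  obtain ⟨w, hw⟩ := h (j x) (hj.s_real.2 hx)
  have h1 : ∃ b, Brc (j (om : M)) (j (Px A x)) b := ⟨w, by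
    rw [px_emb hj, hj.s_om]; exact brc_px.2 hw⟩
  obtain ⟨b, hb⟩ := (brc_emb hj).1 h1
  exact ⟨b, brc_px.1 hb⟩

/-- Shoenfield's theorem. -/
theorem piA_up (hj : GL.TrEmb j) {A : M} (h : PiA A) : PiA (j A) := by
  classical
  intro x hx
  by_contra hno
  have hwf : Wf (Trx om (Px (j A) x)) (Trr om (Px (j A) x)) := by
    rw [wf_tree_iff]
    rintro ⟨b, hb⟩
    exact hno ⟨b, brc_px.1 hb⟩
  obtain ⟨ρ, κ, hκ, hρ, hρ'⟩ := exists_rank hwf
  obtain ⟨κ, hκ', rfl⟩ := hj.s_ord_lift hκ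
  obtain ⟨i, hi, hinj⟩ := Forc.Le.seq_le (M := M) om_ord (Sb.refl _) (Forc.Le.refl om)
  obtain ⟨hρ1, hρ2⟩ := mem_fs.1 hρ
  -- the attempt in the larger model
  set X := Trx om (Px (j A) x) with hX
  have hji : ∀ s t, s ∈ Forc.Seq (om : N) → t ∈ Forc.Seq (om : N) → ap (j i) s = ap (j i) t →
      s = t := by
    intro s t hs ht he
    rw [← hj.s_om, ← seq_emb hj] at hs ht
    obtain ⟨s, hs', rfl⟩ := hj.tr hs
    obtain ⟨t, ht', rfl⟩ := hj.tr ht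
    rw [← hj.s_ap, ← hj.s_ap, hj.inj] at he
    rw [hinj s t hs' ht' he]
  let γ : N → N := fun k => sU (im (sp X fun s => ap (j i) s = k) (ap ρ))
  have hapd : ∀ f : N, DT (fun w : Fin 1 → N => ap f (w 0)) := fun f => by
    simp (maxDischargeDepth := 50)
  have hγd : DT (fun w : Fin 1 → N => γ (w 0)) := by
    refine dt_sU (dt_im (F := fun (w : Fin 1 → N) y => ap ρ y) (dt_sp (DT.const X)
      (P := fun (w : Fin 1 → N) s => ap (j i) s = w 0) ?_) ?_) <;>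
    simp (maxDischargeDepth := 50)
  have hspd : ∀ k : N, Dfn (fun w : Fin 1 → N => ap (j i) (w 0) = k) := fun k => by
    simp (maxDischargeDepth := 50)
  have hXS : ∀ s, s ∈ X → s ∈ Forc.Seq (om : N) := fun s hs => (mem_Trx.1 hs).1
  have hγ1 : ∀ s, s ∈ X → γ (ap (j i) s) = ap ρ s := by
    intro s hs
    refine ext' fun z => ?_
    show z ∈ sU (im (sp X fun s' => ap (j i) s' = ap (j i) s) (ap ρ)) ↔ _
    rw [mem_sU]
    constructor
    · rintro ⟨y, hy, hz⟩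
      obtain ⟨s', hs', rfl⟩ := (mem_im (hapd ρ)).1 hy
      obtain ⟨hs1, hs2⟩ := (mem_sp (hspd _)).1 hs'
      rwa [hji s' s (hXS s' hs1) (hXS s hs) hs2] at hz
    · intro hz
      exact ⟨_, (mem_im (hapd ρ)).2 ⟨s, (mem_sp (hspd _)).2 ⟨hs, rfl⟩, rfl⟩, hz⟩
  have hOjκ : Ord (j κ) := hj.s_ord.2 hκ'
  have hγ2 : ∀ k, k ∈ (om : N) → γ k ∈ sc (j κ) := by
    intro k _
    by_cases hs : ∃ s, s ∈ X ∧ ap (j i) s = k
    · obtain ⟨s, hs, rfl⟩ := hs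
      rw [hγ1 s hs]
      exact mem_sc.2 (Or.inl (hρ2 s hs))
    · have h1 : γ k = SigB.em := by
        refine ext' fun z => ⟨fun hz => ?_, fun hz => (not_mem_em z hz).elim⟩
        obtain ⟨y, hy, -⟩ := mem_sU.1 hz
        obtain ⟨s, hs', rfl⟩ := (mem_im (hapd ρ)).1 hy
        exact (hs ⟨s, (mem_sp (hspd _)).1 hs'⟩).elim
      rw [h1, ord_em.mem_sc_iff hOjκ]
      exact fun z hz => (not_mem_em z hz).elim
  obtain ⟨hx1, hx2⟩ := mem_fs.1 hx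
  have hbd : DT (fun w : Fin 1 → N => op (ap x (w 0)) (γ (w 0))) :=
    dt_op (hapd x) hγd
  let b : N := lam om fun k => op (ap x k) (γ k)
  have hb : b ∈ fs om (pd om (sc (j κ))) := lam_mem_fs hbd fun k hk =>
    op_mem_pd.2 ⟨hx2 k hk, hγ2 k hk⟩
  have hbm : ∀ k p g n, op k (op p g) ∈ rs b n → k ∈ (om : N) ∧ p = ap x k ∧ g = γ k := by
    intro k p g n h1
    obtain ⟨h2, h3⟩ := (op_mem_lam hbd).1 (op_mem_rs.1 h1).1
    obtain ⟨h4, h5⟩ := op_inj.1 h3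
    exact ⟨h2, h4, h5⟩
  have hatt : ∀ n, n ∈ (om : N) → Att (j A) (j i) (rs b n) := by
    intro n hn s t m hs ht hm hsm htm hst hk g g' p q h1 h2
    have hk' : ∀ k, k ∈ sc (sc m) → op (rs x k) (rs t k) ∈ j A := by
      intro k hkm
      have hko : k ∈ (om : N) := om_ord.trans hkm (sc_mem_om (sc_mem_om hm))
      obtain ⟨v, -, hv1, hv2, hv3⟩ := hk k hkm
      have : v = rs x k := hv1.ext (fn_rs hx1 (om_ord.sb hko)) fun l hl => by
        obtain ⟨g, hg⟩ := hv2 l hl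
        rw [(hbm _ _ _ _ hg).2.1, ap_rs hx1 (om_ord.sb hko) hl]
      rwa [← this]
    have hOm : Ord m := ord_of_mem_om hm
    have hrt : ∀ k, k ∈ (om : N) → rs t k ∈ Px (j A) x := by
      intro k hko
      obtain ⟨l, hl, htl⟩ := Forc.mem_Seq.1 ht
      obtain rfl := fn_dom (mem_fs.1 htl).1 htm
      have hsmall : ∀ k, Sb k (sc m) → k ∈ (om : N) → rs t k ∈ Px (j A) x := by
        intro k hks hko
        have h3 : rs t k ∈ fs k om := mem_fs.2 ⟨fn_rs htm hks, fun y hy => by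
          rw [ap_rs htm hks hy]
          exact (mem_fs.1 htl).2 y (hks y hy)⟩
        refine mem_Px.2 ⟨Forc.mem_Seq.2 ⟨k, hko, h3⟩, k, hko, fn_rs htm hks, hk' k ?_⟩
        rw [(ord_of_mem_om hko).mem_sc_iff (ord_sc hOm)]
        exact hks
      rcases om_le_total hko (sc_mem_om hm) with h3 | h3
      · exact hsmall k h3 hko
      · rw [rs_self htm h3, ← rs_self htm (Sb.refl (sc m))]
        exact hsmall _ (Sb.refl _) (sc_mem_om hm)
    have htX : t ∈ X := mem_Trx.2 ⟨ht, hrt⟩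
    have hsX : s ∈ X := by
      refine mem_Trx.2 ⟨hs, fun k hko => ?_⟩
      rw [← hst]
      rcases om_le_total hm hko with h3 | h3
      · rw [rs_rs' h3]; exact hrt m hm
      · rw [rs_rs_sb h3]; exact hrt k hko
    have h3 : ap ρ t ∈ ap ρ s := hρ' s t hsX htX
      (op_mem_Trr.2 ⟨⟨htX, hsX⟩, m, hm, hsm, htm, hst⟩)
    rw [(hbm _ _ _ _ h1).2.2, (hbm _ _ _ _ h2).2.2, hγ1 s hsX, hγ1 t htX]
    exact h3
  -- the tree of the attempts
  let K : M := pd om (sc κ)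
  let Ψ : M := sp (Forc.Seq K) fun u => Att A i u
  have hΨ : ∀ u, u ∈ Ψ ↔ u ∈ Forc.Seq K ∧ Att A i u := fun u =>
    mem_sp (by simp (maxDischargeDepth := 50))
  have hjK : j K = pd om (sc (j κ)) := by
    show j (pd om (sc κ)) = _
    rw [hj.s_pd, hj.s_om, hj.s_sc]
  have hbr : Brc (j K) (j Ψ) b := by
    refine ⟨by rw [hjK]; exact hb, fun n hn => ?_⟩
    have h1 : rs b n ∈ Forc.Seq (j K) := by
      rw [hjK]
      exact Forc.mem_Seq.2 ⟨n, hn, fs_rs hb hn⟩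
    rw [← seq_emb hj] at h1
    obtain ⟨u, hu, hu'⟩ := hj.tr h1
    rw [hu', hj.mem_iff, hΨ]
    refine ⟨hu, att_of_emb hj ?_⟩
    rw [← hu']
    exact hatt n hn
  obtain ⟨b', hb'⟩ := (brc_emb hj).1 ⟨b, hbr⟩
  exact not_piA_of_att hi hb'.1 (fun n hn => ((hΨ _).1 (hb'.2 n hn)).2) h

theorem piA_iff (hj : GL.TrEmb j) {A : M} : PiA (j A) ↔ PiA A :=
  ⟨piA_down hj, piA_up hj⟩

end two

end Pool.Agent.Sep
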