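import Pool.Agent.Sep.Shoen
import Pool.Agent.GL.EmbExt

/-!
The statements of the projective class `Σ¹₃` are upward absolute, and those of the class `Π¹₂` are
absolute, for transitive embeddings with the same ordinals, in particular for generic extensions.
-/

universe u v

set_option linter.unusedSectionVars false

namespace Pool.Agent.Sep

open Pool.Agent.SigB

section one

variable {M : Type u} [Membership M M] [IsZFC M]

/-- The `Π¹₂` part of the statement `SigT`. -/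
def PiT (T z y : M) : Prop := ∀ x, x ∈ fs (om : M) om → ∃ w, w ∈ fs (om : M) om ∧
    ∀ n, n ∈ (om : M) → qd (rs z n) (rs y n) (rs x n) (rs w n) ∈ T

theorem sigT_iff {T z : M} : SigT T z ↔ ∃ y, y ∈ fs (om : M) om ∧ PiT T z y := Iff.rfl

@[simp] theorem dfn_PiT {n : ℕ} {s t r : (Fin n → M) → M} (hs : DT s) (ht : DT t) (hr : DT r) :
    Dfn (fun v => PiT (s v) (t v) (r v)) :=
  dfn3 (R := PiT) (by unfold PiT; simp (maxDischargeDepth := 50)) hs ht hr

/-- The set of pairs of finite sequences of the same length which give with `z` and `y` an element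
of `T`. -/
noncomputable def Azy (T z y : M) : M := sp (pd (Forc.Seq om) (Forc.Seq om)) fun p =>
  ∃ n u v, n ∈ (om : M) ∧ Fn u n ∧ Fn v n ∧ p = op u v ∧ qd (rs z n) (rs y n) u v ∈ T

theorem mem_Azy {T z y u v : M} : op u v ∈ Azy T z y ↔ (u ∈ Forc.Seq (om : M) ∧
    v ∈ Forc.Seq (om : M)) ∧ ∃ n, n ∈ (om : M) ∧ Fn u n ∧ Fn v n ∧
      qd (rs z n) (rs y n) u v ∈ T := by
  unfold Azy
  rw [mem_sp (by simp (maxDischargeDepth := 50)), op_mem_pd]
  refine and_congr_right fun _ => ?_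
  constructor
  · rintro ⟨n, u', v', hn, hu, hv, h, h'⟩
    obtain ⟨rfl, rfl⟩ := op_inj.1 h
    exact ⟨n, hn, hu, hv, h'⟩
  · rintro ⟨n, hn, hu, hv, h'⟩
    exact ⟨n, u, v, hn, hu, hv, rfl, h'⟩

theorem piA_azy {T z y : M} : PiA (Azy T z y) ↔ PiT T z y := by
  refine forall_congr' fun x => imp_congr_right fun hx => exists_congr fun w =>
    and_congr_right fun hw => forall_congr' fun n => imp_congr_right fun hn => ?_
  rw [mem_Azy]
  have h1 := fs_rs hx hn
  have h2 := fs_rs hw hn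
  constructor
  · rintro ⟨-, m, hm, h3, -, h4⟩
    obtain rfl := fn_dom h3 (mem_fs.1 h1).1
    exact h4
  · intro h
    exact ⟨⟨Forc.mem_Seq.2 ⟨n, hn, h1⟩, Forc.mem_Seq.2 ⟨n, hn, h2⟩⟩, n, hn, (mem_fs.1 h1).1,
      (mem_fs.1 h2).1, h⟩

end one

section two

variable {M : Type u} {N : Type v} [Membership M M] [Membership N N] [IsZFC M] [IsZFC N]
  {j : M → N}

theorem qd_emb (hj : GL.TrEmb j) (x y z w : M) :
    j (qd x y z w) = qd (j x) (j y) (j z) (j w) := by
  unfold qd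
  rw [hj.s_op, hj.s_op, hj.s_op]

theorem azy_emb (hj : GL.TrEmb j) (T z y : M) : j (Azy T z y) = Azy (j T) (j z) (j y) := by
  have hS : ∀ {s : M}, j s ∈ Forc.Seq (om : N) ↔ s ∈ Forc.Seq (om : M) := by
    intro s
    rw [← hj.s_om, ← seq_emb hj, hj.mem_iff]
  have hS' : ∀ {s : N}, s ∈ Forc.Seq (om : N) → ∃ t, s = j t := by
    intro s hs
    rw [← hj.s_om, ← seq_emb hj] at hs
    obtain ⟨t, -, ht⟩ := hj.tr hs
    exact ⟨t, ht⟩
  have h1 : ∀ u v : M, op u v ∈ Azy T z y ↔ op (j u) (j v) ∈ Azy (j T) (j z) (j y) := by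
    intro u v
    rw [mem_Azy, mem_Azy, hS, hS]
    refine and_congr_right fun _ => ⟨?_, ?_⟩
    · rintro ⟨n, hn, h1, h2, h3⟩
      exact ⟨j n, hj.s_mem_om.2 hn, hj.s_fn.2 h1, hj.s_fn.2 h2, by
        rw [← hj.s_rs, ← hj.s_rs, ← qd_emb hj, hj.mem_iff]; exact h3⟩
    · rintro ⟨n, hn, h1, h2, h3⟩
      obtain ⟨n, hn', rfl⟩ := hj.s_mem_om_lift hn
      rw [← hj.s_rs, ← hj.s_rs, ← qd_emb hj, hj.mem_iff] at h3
      exact ⟨n, hn', hj.s_fn.1 h1, hj.s_fn.1 h2, h3⟩
  have hpr : ∀ {K : Type v} [Membership K K] [IsZFC K] {T z y p : K}, p ∈ Azy T z y →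
      ∃ u v, p = op u v := by
    intro K _ _ T z y p hp
    unfold Azy at hp
    rw [mem_sp (by simp (maxDischargeDepth := 50))] at hp
    obtain ⟨-, n, u, v, -, -, -, h, -⟩ := hp
    exact ⟨u, v, h⟩
  have hpr' : ∀ {T z y p : M}, p ∈ Azy T z y → ∃ u v, p = op u v := by
    intro T z y p hp
    unfold Azy at hp
    rw [mem_sp (by simp (maxDischargeDepth := 50))] at hp
    obtain ⟨-, n, u, v, -, -, -, h, -⟩ := hp
    exact ⟨u, v, h⟩
  refine hj.eq_of (fun p => ⟨fun hp => ?_, fun hp => ?_⟩) fun p hp => ?_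
  · obtain ⟨u, v, rfl⟩ := hpr' hp
    rw [hj.s_op]
    exact (h1 u v).1 hp
  · obtain ⟨u, v, h⟩ := hpr hp
    obtain ⟨u', v', rfl, rfl, rfl⟩ := hj.s_of_op h
    rw [hj.s_op] at hp
    exact (h1 _ _).2 hp
  · obtain ⟨u, v, rfl⟩ := hpr hp
    obtain ⟨⟨h2, h3⟩, -⟩ := mem_Azy.1 hp
    obtain ⟨u, rfl⟩ := hS' h2
    obtain ⟨v, rfl⟩ := hS' h3
    exact ⟨op u v, (hj.s_op u v).symm⟩

/-- The statements of the class `Π¹₂` are absolute. -/
theorem piT_iff (hj : GL.TrEmb j) {T z y : M} : PiT (j T) (j z) (j y) ↔ PiT T z y := by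
  rw [← piA_azy, ← piA_azy, ← azy_emb hj, piA_iff hj]

/-- The statements of the class `Σ¹₃` are upward absolute. -/
theorem sigT_up (hj : GL.TrEmb j) {T z : M} (h : SigT T z) : SigT (j T) (j z) := by
  obtain ⟨y, hy, h⟩ := h
  exact ⟨j y, hj.s_real.2 hy, (piT_iff hj).2 h⟩

end two

/-- Generic extensions. -/
theorem piT_ext {M : Type u} [Membership M M] [IsZFC M] {P le one : M} {G : M → Prop}
    {N : Type u} [Membership N N] [IsZFC N] {val : M → N} (hE : Frc.Ext P le one G val)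
    {T z y : M} : PiT (val (Frc.ck one T)) (val (Frc.ck one z)) (val (Frc.ck one y)) ↔
      PiT T z y := piT_iff (GL.trEmb_ext hE)

theorem sigT_ext {M : Type u} [Membership M M] [IsZFC M] {P le one : M} {G : M → Prop}
    {N : Type u} [Membership N N] [IsZFC N] {val : M → N} (hE : Frc.Ext P le one G val)
    {T z : M} (h : SigT T z) : SigT (val (Frc.ck one T)) (val (Frc.ck one z)) :=
  sigT_up (GL.trEmb_ext hE) h

end Pool.Agent.Sep
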