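import Pool.Agent.Sep.Cal
import Pool.Agent.GL.Clos
import Pool.Agent.GL.Bridge

/-!
Structures coded by reals and their transitive collapse.
-/

universe u

set_option linter.unusedSectionVars false

namespace Pool.Agent.Sep

open Pool.Agent.SigB Pool.Agent.Forc

variable {M : Type u} [Membership M M] [IsZFC M]

/-- `a` belongs to a countable transitive set. -/
def HCt (a : M) : Prop := ∃ s, Tr s ∧ a ∈ s ∧ Le s (SigB.om : M)

@[simp] theorem dfn_HCt {n : ℕ} {s : (Fin n → M) → M} (hs : DT s) : Dfn (fun v => HCt (s v)) :=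
  dfn1 (R := HCt) (by unfold HCt; simp (maxDischargeDepth := 50)) hs

theorem dfn_Dm {n : ℕ} {s t : (Fin n → M) → M} (hs : DT s) (ht : DT t) :
    Dfn (fun v => Dm (s v) (t v)) :=
  dfn2 (R := Dm) (by unfold Dm; simp (maxDischargeDepth := 50)) hs ht

attribute [simp] dfn_Dm

@[simp] theorem dfn_Er {n : ℕ} {s t r : (Fin n → M) → M} (hs : DT s) (ht : DT t) (hr : DT r) :
    Dfn (fun v => Er (s v) (t v) (r v)) :=
  dfn3 (R := Er) (by unfold Er; simp (maxDischargeDepth := 50)) hs ht hr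

/-- The domain of the coded structure. -/
noncomputable def Xs (y : M) : M := sp SigB.om fun i => Dm y i

/-- The relation of the coded structure. -/
noncomputable def rl (y : M) : M :=
  sp (pd SigB.om SigB.om) fun t => ∃ i, ∃ j, t = op i j ∧ Er y i j

theorem mem_Xs {y i : M} : i ∈ Xs y ↔ i ∈ (SigB.om : M) ∧ Dm y i :=
  mem_sp (by simp (maxDischargeDepth := 50))

theorem op_mem_rl {y i j : M} :
    op i j ∈ rl y ↔ (i ∈ (SigB.om : M) ∧ j ∈ (SigB.om : M)) ∧ Er y i j := by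
  unfold rl
  rw [mem_sp (by simp (maxDischargeDepth := 50)), op_mem_pd]
  refine and_congr_right fun _ => ?_
  constructor
  · rintro ⟨i', j', h, h'⟩
    obtain ⟨rfl, rfl⟩ := op_inj.1 h
    exact h'
  · exact fun h => ⟨i, j, rfl, h⟩

@[simp] theorem dt_Xs {n : ℕ} {s : (Fin n → M) → M} (hs : DT s) : DT (fun v => Xs (s v)) :=
  dt1 (F := Xs) (by unfold Xs; simp (maxDischargeDepth := 50)) hs

@[simp] theorem dt_rl {n : ℕ} {s : (Fin n → M) → M} (hs : DT s) : DT (fun v => rl (s v)) :=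
  dt1 (F := rl) (by unfold rl; simp (maxDischargeDepth := 50)) hs

/-- `y` codes a well-founded extensional structure with the collapse `c`. -/
structure Col (y c : M) : Prop where
  wf : Wf (Xs y) (rl y)
  xt : Xt y
  fn : Fn c (Xs y)
  eq : ∀ x, x ∈ Xs y → ∀ z, z ∈ ap c x ↔ ∃ k, k ∈ (SigB.om : M) ∧ Er y k x ∧ z = ap c k

theorem exists_col {y : M} (h1 : Wf (Xs y) (rl y)) (h2 : Xt y) : ∃ c, Col y c := by
  obtain ⟨c, hc, h⟩ := exists_collapse h1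
  refine ⟨c, h1, h2, hc, fun x hx z => ?_⟩
  rw [h x hx]
  refine exists_congr fun k => ?_
  rw [op_mem_rl, mem_Xs]
  constructor
  · rintro ⟨⟨hk, -⟩, ⟨-, hE⟩, rfl⟩
    exact ⟨hk, hE, rfl⟩
  · rintro ⟨hk, hE, rfl⟩
    exact ⟨⟨hk, hE.1⟩, ⟨⟨hk, (mem_Xs.1 hx).1⟩, hE⟩, rfl⟩

section

variable {y c : M} (h : Col y c)

include h

theorem Col.inj : ∀ x, x ∈ Xs y → ∀ x', x' ∈ Xs y → ap c x = ap c x' → x = x' := by
  refine h.wf.ind (P := fun x => ∀ x', x' ∈ Xs y → ap c x = ap c x' → x = x')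
    (by simp (maxDischargeDepth := 50)) ?_
  intro x hx ih x' hx' he
  obtain ⟨hxo, hxD⟩ := mem_Xs.1 hx
  obtain ⟨hxo', hxD'⟩ := mem_Xs.1 hx'
  refine h.xt x hxo x' hxo' ⟨hxD, hxD', fun k hk => ?_⟩
  constructor
  · intro hE
    have h1 : ap c k ∈ ap c x := (h.eq x hx _).2 ⟨k, hk, hE, rfl⟩
    rw [he] at h1
    obtain ⟨k', hk', hE', h2⟩ := (h.eq x' hx' _).1 h1
    have h3 : k = k' := ih k (mem_Xs.2 ⟨hk, hE.1⟩) (op_mem_rl.2 ⟨⟨hk, hxo⟩, hE⟩) k'
      (mem_Xs.2 ⟨hk', hE'.1⟩) h2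
    rw [h3]; exact hE'
  · intro hE
    have h1 : ap c k ∈ ap c x' := (h.eq x' hx' _).2 ⟨k, hk, hE, rfl⟩
    rw [← he] at h1
    obtain ⟨k', hk', hE', h2⟩ := (h.eq x hx _).1 h1
    have h3 : k' = k := ih k' (mem_Xs.2 ⟨hk', hE'.1⟩) (op_mem_rl.2 ⟨⟨hk', hxo⟩, hE'⟩) k
      (mem_Xs.2 ⟨hk, hE.1⟩) h2.symm
    rw [← h3]; exact hE'

theorem Col.er_iff {k x : M} (hk : k ∈ Xs y) (hx : x ∈ Xs y) : Er y k x ↔ ap c k ∈ ap c x := by
  constructor
  · exact fun hE => (h.eq x hx _).2 ⟨k, (mem_Xs.1 hk).1, hE, rfl⟩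
  · intro hm
    obtain ⟨k', hk', hE, he⟩ := (h.eq x hx _).1 hm
    rw [h.inj k hk k' (mem_Xs.2 ⟨hk', hE.1⟩) he]
    exact hE

/-- Elements of the collapse of a node come from nodes. -/
theorem Col.lift {x z : M} (hx : x ∈ Xs y) (hz : z ∈ ap c x) :
    ∃ k, k ∈ Xs y ∧ Er y k x ∧ z = ap c k := by
  obtain ⟨k, hk, hE, he⟩ := (h.eq x hx _).1 hz
  exact ⟨k, mem_Xs.2 ⟨hk, hE.1⟩, hE, he⟩

theorem Col.sat_iff : ∀ {n : ℕ} (φ : D0 n) (v : Fin n → M), (∀ i, v i ∈ Xs y) →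
    (Sat y φ v ↔ φ.Holds fun i => ap c (v i))
  | _, .mem i j, v, hv => h.er_iff (hv i) (hv j)
  | _, .eq i j, v, hv => ⟨fun he => congrArg (ap c) he, fun he => h.inj _ (hv i) _ (hv j) he⟩
  | _, .neg φ, v, hv => not_congr (Col.sat_iff φ v hv)
  | _, .and φ ψ, v, hv => and_congr (Col.sat_iff φ v hv) (Col.sat_iff ψ v hv)
  | n, .bex i φ, v, hv => by
    show (∃ k, k ∈ (SigB.om : M) ∧ (Er y k (v i) ∧ Sat y φ (Fin.cons k v))) ↔
      ∃ z : M, z ∈ ap c (v i) ∧ φ.Holds (Fin.cons z fun i => ap c (v i))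
    have hc : ∀ k, k ∈ Xs y → (Sat y φ (Fin.cons k v) ↔
        φ.Holds (Fin.cons (ap c k) fun i => ap c (v i))) := by
      intro k hk
      rw [Col.sat_iff φ (Fin.cons k v) (fun j => by
        refine Fin.cases ?_ (fun j => ?_) j
        · exact hk
        · simpa using hv j)]
      have : (fun j : Fin (n + 1) => ap c ((Fin.cons k v : Fin (n + 1) → M) j)) =
          Fin.cons (ap c k) fun i => ap c (v i) := by
        funext j
        refine Fin.cases ?_ (fun j => ?_) j <;> simp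
      rw [this]
    constructor
    · rintro ⟨k, hk, hE, hs⟩
      have hkX : k ∈ Xs y := mem_Xs.2 ⟨hk, hE.1⟩
      exact ⟨ap c k, (h.er_iff hkX (hv i)).1 hE, (hc k hkX).1 hs⟩
    · rintro ⟨z, hz, hs⟩
      obtain ⟨k, hkX, hE, rfl⟩ := h.lift (hv i) hz
      exact ⟨k, (mem_Xs.1 hkX).1, hE, (hc k hkX).2 hs⟩

/-- The set of the values of the collapse is transitive and countable. -/
theorem Col.hct {x : M} (hx : x ∈ Xs y) : HCt (ap c x) := by
  have hd : DT (fun w : Fin 1 → M => ap c (w 0)) := by simp (maxDischargeDepth := 50)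
  refine ⟨im (Xs y) (ap c), ?_, (mem_im hd).2 ⟨x, hx, rfl⟩, ?_⟩
  · intro z hz u hu
    obtain ⟨k, hk, rfl⟩ := (mem_im hd).1 hz
    obtain ⟨l, hl, -, rfl⟩ := h.lift hk hu
    exact (mem_im hd).2 ⟨l, hl, rfl⟩
  · exact Le.image om_ord (Le.of_sb fun i hi => (mem_Xs.1 hi).1) hd
      fun z hz => (mem_im hd).1 hz

theorem Col.nm {a : M} (hN : Nm y a) (ha : a ∈ (RR : M)) : ∀ n, n ∈ (SigB.om : M) →
    ap a n ∈ Xs y ∧ ap c (ap a n) = n := by
  have hX : ∀ n, n ∈ (SigB.om : M) → ap a n ∈ Xs y := fun n hn =>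
    mem_Xs.2 ⟨ap_mem ha hn, hN.1.1 n hn⟩
  have h2 : ∀ n, n ∈ (SigB.om : M) → ap c (ap a n) = n := by
    refine om_ind (P := fun n => ap c (ap a n) = n) (by simp (maxDischargeDepth := 50)) ?_ ?_
    · refine ext' fun z => ⟨fun hz => ?_, fun hz => (not_mem_em z hz).elim⟩
      obtain ⟨k, hk, hE, -⟩ := h.lift (hX _ em_mem_om) hz
      exact (hN.1.2 k (mem_Xs.1 hk).1 hE).elim
    · intro n hn ih
      refine ext' fun z => ?_
      rw [mem_sc]
      constructor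
      · intro hz
        obtain ⟨k, hk, hE, rfl⟩ := h.lift (hX _ (sc_mem_om hn)) hz
        rcases (hN.2 n hn k (mem_Xs.1 hk).1).1 hE with h1 | h1
        · left
          have := (h.er_iff hk (hX n hn)).1 h1
          rwa [ih] at this
        · right
          rw [h1, ih]
      · rintro (hz | rfl)
        · have hz' : z ∈ ap c (ap a n) := by rw [ih]; exact hz
          obtain ⟨k, hk, hE, rfl⟩ := h.lift (hX n hn) hz'
          exact (h.er_iff hk (hX _ (sc_mem_om hn))).1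
            ((hN.2 n hn k (mem_Xs.1 hk).1).2 (Or.inl hE))
        · have h1 := (h.er_iff (hX z hn) (hX _ (sc_mem_om hn))).1
            ((hN.2 z hn _ (mem_Xs.1 (hX z hn)).1).2 (Or.inr rfl))
          rwa [ih] at h1
  exact fun n hn => ⟨hX n hn, h2 n hn⟩

theorem Col.nm_of {a : M} (hN : ∀ n, n ∈ (SigB.om : M) → ap a n ∈ Xs y ∧ ap c (ap a n) = n) :
    Nm y a := by
  refine ⟨⟨fun n hn => (mem_Xs.1 (hN n hn).1).2, fun k hk hE => ?_⟩, fun n hn k hk => ?_⟩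
  · have hkX : k ∈ Xs y := mem_Xs.2 ⟨hk, hE.1⟩
    have h1 := (h.er_iff hkX (hN _ em_mem_om).1).1 hE
    rw [(hN _ em_mem_om).2] at h1
    exact not_mem_em _ h1
  · constructor
    · intro hE
      have hkX : k ∈ Xs y := mem_Xs.2 ⟨hk, hE.1⟩
      have h1 := (h.er_iff hkX (hN _ (sc_mem_om hn)).1).1 hE
      rw [(hN _ (sc_mem_om hn)).2, mem_sc] at h1
      rcases h1 with h1 | h1
      · left
        refine (h.er_iff hkX (hN n hn).1).2 ?_
        rw [(hN n hn).2]; exact h1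
      · right
        refine h.inj k hkX _ (hN n hn).1 ?_
        rw [(hN n hn).2]; exact h1
    · rintro (hE | rfl)
      · have hkX : k ∈ Xs y := mem_Xs.2 ⟨hk, hE.1⟩
        refine (h.er_iff hkX (hN _ (sc_mem_om hn)).1).2 ?_
        rw [(hN _ (sc_mem_om hn)).2, mem_sc]
        left
        have h1 := (h.er_iff hkX (hN n hn).1).1 hE
        rwa [(hN n hn).2] at h1
      · refine (h.er_iff (hN n hn).1 (hN _ (sc_mem_om hn)).1).2 ?_
        rw [(hN _ (sc_mem_om hn)).2, (hN n hn).2]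
        exact mem_sc_self n

theorem Col.pe_iff {k i j : M} (hk : k ∈ (SigB.om : M)) (hi : i ∈ Xs y) (hj : j ∈ Xs y) :
    Pe y k i j ↔ k ∈ Xs y ∧ ap c k = pr (ap c i) (ap c j) := by
  constructor
  · rintro ⟨hD, hP⟩
    have hkX : k ∈ Xs y := mem_Xs.2 ⟨hk, hD⟩
    refine ⟨hkX, ext' fun z => ?_⟩
    rw [mem_pr]
    constructor
    · intro hz
      obtain ⟨l, hl, hE, rfl⟩ := h.lift hkX hz
      rcases (hP l (mem_Xs.1 hl).1).1 hE with rfl | rfl
      · exact Or.inl rfl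
      · exact Or.inr rfl
    · rintro (rfl | rfl)
      · exact (h.er_iff hi hkX).1 ((hP i (mem_Xs.1 hi).1).2 (Or.inl rfl))
      · exact (h.er_iff hj hkX).1 ((hP j (mem_Xs.1 hj).1).2 (Or.inr rfl))
  · rintro ⟨hkX, he⟩
    refine ⟨(mem_Xs.1 hkX).2, fun l hl => ?_⟩
    constructor
    · intro hE
      have hlX : l ∈ Xs y := mem_Xs.2 ⟨hl, hE.1⟩
      have h1 := (h.er_iff hlX hkX).1 hE
      rw [he, mem_pr] at h1
      rcases h1 with h1 | h1
      · exact Or.inl (h.inj l hlX i hi h1)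
      · exact Or.inr (h.inj l hlX j hj h1)
    · rintro (rfl | rfl)
      · exact (h.er_iff hi hkX).2 (by rw [he]; simp)
      · exact (h.er_iff hj hkX).2 (by rw [he]; simp)

theorem Col.oe_iff {k i j : M} (hk : k ∈ (SigB.om : M)) (hi : i ∈ Xs y) (hj : j ∈ Xs y) :
    Oe y k i j ↔ k ∈ Xs y ∧ ap c k = op (ap c i) (ap c j) := by
  constructor
  · rintro ⟨s, hs, t, ht, h1, h2, h3⟩
    obtain ⟨hsX, h1⟩ := (h.pe_iff hs hi hi).1 h1
    obtain ⟨htX, h2⟩ := (h.pe_iff ht hi hj).1 h2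
    obtain ⟨hkX, h3⟩ := (h.pe_iff hk hsX htX).1 h3
    refine ⟨hkX, ?_⟩
    rw [h3, h1, h2]; rfl
  · rintro ⟨hkX, he⟩
    have h1 : pr (ap c i) (ap c i) ∈ ap c k := by rw [he]; unfold op; simp
    have h2 : pr (ap c i) (ap c j) ∈ ap c k := by rw [he]; unfold op; simp
    obtain ⟨s, hs, -, hse⟩ := h.lift hkX h1
    obtain ⟨t, ht, -, hte⟩ := h.lift hkX h2
    refine ⟨s, (mem_Xs.1 hs).1, t, (mem_Xs.1 ht).1,
      (h.pe_iff (mem_Xs.1 hs).1 hi hi).2 ⟨hs, hse.symm⟩,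
      (h.pe_iff (mem_Xs.1 ht).1 hi hj).2 ⟨ht, hte.symm⟩,
      (h.pe_iff hk hs ht).2 ⟨hkX, ?_⟩⟩
    rw [he, ← hse, ← hte]; rfl

theorem Col.rp_iff {a p z : M} (hN : ∀ n, n ∈ (SigB.om : M) → ap a n ∈ Xs y ∧ ap c (ap a n) = n)
    (hp : p ∈ (SigB.om : M)) (hz : z ∈ (RR : M)) :
    Rp y a p z ↔ p ∈ Xs y ∧ ap c p = z := by
  have hO : ∀ k n, k ∈ (SigB.om : M) → n ∈ (SigB.om : M) →
      (Oe y k (ap a n) (ap a (ap z n)) ↔ k ∈ Xs y ∧ ap c k = op n (ap z n)) := by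
    intro k n hk hn
    rw [h.oe_iff hk (hN n hn).1 (hN _ (ap_mem hz hn)).1, (hN n hn).2, (hN _ (ap_mem hz hn)).2]
  have hzf := (mem_RR.1 hz).1
  constructor
  · rintro ⟨hD, h1, h2⟩
    have hpX : p ∈ Xs y := mem_Xs.2 ⟨hp, hD⟩
    refine ⟨hpX, ext' fun x => ?_⟩
    rw [hzf.mem_iff]
    constructor
    · intro hx
      obtain ⟨k, hk, hE, rfl⟩ := h.lift hpX hx
      obtain ⟨n, hn, hO'⟩ := (h1 k (mem_Xs.1 hk).1).1 hE
      exact ⟨n, hn, ((hO k n (mem_Xs.1 hk).1 hn).1 hO').2⟩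
    · rintro ⟨n, hn, rfl⟩
      obtain ⟨k, hk, hO'⟩ := h2 n hn
      have h3 := (hO k n hk hn).1 hO'
      rw [← h3.2]
      exact (h.er_iff h3.1 hpX).1 ((h1 k hk).2 ⟨n, hn, hO'⟩)
  · rintro ⟨hpX, he⟩
    refine ⟨(mem_Xs.1 hpX).2, fun k hk => ?_, fun n hn => ?_⟩
    · constructor
      · intro hE
        have hkX : k ∈ Xs y := mem_Xs.2 ⟨hk, hE.1⟩
        have h1 := (h.er_iff hkX hpX).1 hE
        rw [he] at h1
        obtain ⟨n, hn, h2⟩ := hzf.mem_iff.1 h1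
        exact ⟨n, hn, (hO k n hk hn).2 ⟨hkX, h2⟩⟩
      · rintro ⟨n, hn, hO'⟩
        obtain ⟨hkX, h2⟩ := (hO k n hk hn).1 hO'
        refine (h.er_iff hkX hpX).2 ?_
        rw [he, h2]
        exact hzf.mem_iff.2 ⟨n, hn, rfl⟩
    · have h1 : op n (ap z n) ∈ ap c p := by rw [he]; exact hzf.mem_iff.2 ⟨n, hn, rfl⟩
      obtain ⟨k, hk, -, hke⟩ := h.lift hpX h1
      exact ⟨k, (mem_Xs.1 hk).1, (hO k n (mem_Xs.1 hk).1 hn).2 ⟨hk, hke.symm⟩⟩

end

end Pool.Agent.Sep
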