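import Pool.Agent.Frc.Check

/-!
# Complete suborders and extensions

`P` is a complete suborder of `Q`: a generic filter for `Q` gives one for `P`, and the extension by
`P` embeds in the extension by `Q`.
-/

universe u

set_option linter.unusedSectionVars false

namespace Pool.Agent.Sep

open Pool.Agent.SigB Pool.Agent.Frc

section model

variable {M : Type u} [Membership M M] [IsZFC M]

/-! ### Restriction of names -/

/-- `f` computes the restriction of names to `P` on the transitive set `t`. -/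
def IsRn (P f t : M) : Prop :=
  Fn f t ∧ ∀ x, x ∈ t → ∀ z, z ∈ ap f x ↔ ∃ y r, op y r ∈ x ∧ r ∈ P ∧ z = op (ap f y) r

theorem IsRn.dfn : Dfn (fun w : Fin 3 → M => IsRn (w 0) (w 1) (w 2)) := by
  unfold IsRn; simp (maxDischargeDepth := 50)

@[simp] theorem dfn_IsRn {n : ℕ} {s t r : (Fin n → M) → M} (hs : DT s) (ht : DT t) (hr : DT r) :
    Dfn (fun v => IsRn (s v) (t v) (r v)) := dfn3 IsRn.dfn hs ht hr

theorem exists_isRn (P : M) {t : M} (ht : Tr t) : ∃ f, IsRn P f t := by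
  let r : M := sp (pd t t) fun z => ∃ x y, z = op y x ∧ ∃ p, op y p ∈ x
  have hr : ∀ x y, op y x ∈ r ↔ (y ∈ t ∧ x ∈ t) ∧ ∃ p, op y p ∈ x := by
    intro x y
    show op y x ∈ sp (pd t t) (fun z => ∃ x y, z = op y x ∧ ∃ p, op y p ∈ x) ↔ _
    rw [mem_sp (by simp (maxDischargeDepth := 50)), op_mem_pd]
    refine and_congr_right fun _ => ?_
    constructor
    · rintro ⟨x', y', h, h'⟩
      obtain ⟨rfl, rfl⟩ := op_inj.1 h
      exact h'
    · intro h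
      exact ⟨x, y, rfl, h⟩
  have hwf : Wf t r := by
    intro S hS hne
    by_contra hno
    push Not at hno
    have key : ∀ x, x ∉ S := by
      refine name_ind (Q := fun x => x ∉ S) (by simp (maxDischargeDepth := 50)) ?_
      intro x ih hx
      obtain ⟨y, hy, hyr⟩ := hno _ hx
      obtain ⟨-, p, hp⟩ := (hr x y).1 hyr
      exact ih y p hp hy
    obtain ⟨x, hx⟩ := hne
    exact key x hx
  let G : M → M → M := fun x h => sp (pd (im (sU (sU x)) (ap h)) P)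
    fun z => ∃ y r, op y r ∈ x ∧ r ∈ P ∧ z = op (ap h y) r
  have hG : DT (fun w : Fin 2 → M => G (w 0) (w 1)) := by
    simp (maxDischargeDepth := 50) [G]
  obtain ⟨f, hf, hfr⟩ := recursion hwf hG
  refine ⟨f, hf, fun x hx z => ?_⟩
  have hd : DT (fun w : Fin 1 → M => ap (rs f (prd t r x)) (w 0)) := by
    simp (maxDischargeDepth := 50)
  have hres : ∀ y p, op y p ∈ x → ap (rs f (prd t r x)) y = ap f y := by
    intro y p h
    refine ap_rs hf (fun u hu => (mem_prd.1 hu).1) ?_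
    exact mem_prd.2 ⟨mem_of_op_mem ht hx h, (hr x y).2 ⟨⟨mem_of_op_mem ht hx h, hx⟩, p, h⟩⟩
  rw [hfr x hx]
  show z ∈ sp (pd (im (sU (sU x)) (ap (rs f (prd t r x)))) P)
    (fun z => ∃ y r', op y r' ∈ x ∧ r' ∈ P ∧ z = op (ap (rs f (prd t r x)) y) r') ↔ _
  rw [mem_sp (by simp (maxDischargeDepth := 50))]
  constructor
  · rintro ⟨-, y, p, h1, h2, rfl⟩
    exact ⟨y, p, h1, h2, by rw [hres y p h1]⟩
  · rintro ⟨y, p, h1, h2, rfl⟩
    refine ⟨op_mem_pd.2 ⟨(mem_im hd).2 ⟨y, ?_, (hres y p h1).symm⟩, h2⟩, y, p, h1, h2, ?_⟩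
    · refine mem_sU.2 ⟨pr y y, mem_sU.2 ⟨op y p, h1, ?_⟩, by simp⟩
      unfold op
      simp
    · rw [hres y p h1]

theorem IsRn.agree {P f g t s : M} (ht : Tr t) (hs : Tr s) (hf : IsRn P f t)
    (hg : IsRn P g s) (x : M) : x ∈ t → x ∈ s → ap f x = ap g x := by
  refine name_ind (Q := fun x => x ∈ t → x ∈ s → ap f x = ap g x)
    (by simp (maxDischargeDepth := 50)) (fun x ih hxt hxs => ?_) x
  refine ext' fun z => ?_
  rw [hf.2 x hxt, hg.2 x hxs]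
  refine exists_congr fun y => exists_congr fun p => and_congr_right fun hy => ?_
  rw [ih y p hy (mem_of_op_mem ht hxt hy) (mem_of_op_mem hs hxs hy)]

/-- The restriction of a name to `P`. -/
noncomputable def rn (P x : M) : M :=
  cp fun z => ∃ f t, Tr t ∧ x ∈ t ∧ IsRn P f t ∧ z ∈ ap f x

theorem rn.dt : DT (fun w : Fin 2 → M => rn (w 0) (w 1)) := by
  unfold rn; simp (maxDischargeDepth := 50)

@[simp] theorem dt_rn {n : ℕ} {s t : (Fin n → M) → M} (hs : DT s) (ht : DT t) :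
    DT (fun v => rn (s v) (t v)) := dt2 rn.dt hs ht

theorem rn_eq {P f t x : M} (ht : Tr t) (hx : x ∈ t) (hf : IsRn P f t) : rn P x = ap f x := by
  have h1 : ∀ z, z ∈ ap f x ↔ ∃ f t, Tr t ∧ x ∈ t ∧ IsRn P f t ∧ z ∈ ap f x := by
    intro z
    constructor
    · exact fun hz => ⟨f, t, ht, hx, hf, hz⟩
    · rintro ⟨g, s, hs, hxs, hg, hz⟩
      rwa [hf.agree ht hs hg x hx hxs]
  refine ext' fun z => ?_
  unfold rn
  rw [mem_cp ⟨ap f x, h1⟩, ← h1]

theorem mem_rn {P x z : M} : z ∈ rn P x ↔ ∃ y r, op y r ∈ x ∧ r ∈ P ∧ z = op (rn P y) r := by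
  obtain ⟨t, ht, hx⟩ := exists_tr x
  obtain ⟨f, hf⟩ := exists_isRn P ht
  rw [rn_eq ht hx hf, hf.2 x hx]
  refine exists_congr fun y => exists_congr fun p => and_congr_right fun hy => ?_
  rw [rn_eq ht (mem_of_op_mem ht hx hy) hf]

theorem op_mem_rn {P x w r : M} : op w r ∈ rn P x ↔ r ∈ P ∧ ∃ y, op y r ∈ x ∧ w = rn P y := by
  rw [mem_rn]
  constructor
  · rintro ⟨y, r', h1, h2, h3⟩
    obtain ⟨rfl, rfl⟩ := op_inj.1 h3
    exact ⟨h2, y, h1, rfl⟩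
  · rintro ⟨h1, y, h2, rfl⟩
    exact ⟨y, r, h2, h1, rfl⟩

/-- A name all of whose elements are pairs `(y, r)` with `r ∈ P` and `rn P y = y` is unchanged. -/
theorem rn_eq_self {P x : M} (h : ∀ z, z ∈ x → ∃ y r, z = op y r ∧ r ∈ P ∧ rn P y = y) :
    rn P x = x := by
  refine ext' fun z => ?_
  rw [mem_rn]
  constructor
  · rintro ⟨y, r, h1, -, rfl⟩
    obtain ⟨y', r', h2, -, h3⟩ := h _ h1
    obtain ⟨rfl, rfl⟩ := op_inj.1 h2
    rwa [h3]
  · intro hz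
    obtain ⟨y, r, rfl, h1, h2⟩ := h z hz
    exact ⟨y, r, hz, h1, by rw [h2]⟩

theorem rn_ck {P one : M} (h : one ∈ P) (x : M) : rn P (ck one x) = ck one x := by
  refine mem_ind (Q := fun x => rn P (ck one x) = ck one x) (by simp (maxDischargeDepth := 50))
    (fun x ih => ?_) x
  refine rn_eq_self fun z hz => ?_
  obtain ⟨y, hy, rfl⟩ := mem_ck.1 hz
  exact ⟨_, _, rfl, h, ih y hy⟩

theorem rn_rn {P P' : M} (h : Sb P P') (x : M) : rn P' (rn P x) = rn P x := by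
  refine name_ind (Q := fun x => rn P' (rn P x) = rn P x) (by simp (maxDischargeDepth := 50))
    (fun x ih => ?_) x
  refine rn_eq_self fun z hz => ?_
  obtain ⟨y, r, h1, h2, rfl⟩ := mem_rn.1 hz
  exact ⟨_, _, rfl, h r h2, ih y r h1⟩

theorem rn_rn' {P P' : M} (h : Sb P P') (x : M) : rn P (rn P' x) = rn P x := by
  refine name_ind (Q := fun x => rn P (rn P' x) = rn P x) (by simp (maxDischargeDepth := 50))
    (fun x ih => ?_) x
  refine ext' fun z => ?_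
  rw [mem_rn, mem_rn]
  constructor
  · rintro ⟨y, r, h1, h2, rfl⟩
    obtain ⟨-, w, h3, rfl⟩ := op_mem_rn.1 h1
    exact ⟨w, r, h3, h2, by rw [ih w r h3]⟩
  · rintro ⟨y, r, h1, h2, rfl⟩
    exact ⟨rn P' y, r, op_mem_rn.2 ⟨h r h2, y, h1, rfl⟩, h2, by rw [ih y r h1]⟩

/-! ### Complete suborders -/

/-- `p` is a reduction of `u` to `P`: every extension of `p` in `P` is compatible with `u`. -/
def Red (P leP leQ p u : M) : Prop :=
  p ∈ P ∧ ∀ p', op p' p ∈ leP → ∃ s, op s p' ∈ leQ ∧ op s u ∈ leQ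

theorem Red.dfn : Dfn (fun w : Fin 5 → M => Red (w 0) (w 1) (w 2) (w 3) (w 4)) := by
  unfold Red; simp (maxDischargeDepth := 50)

@[simp] theorem dfn_Red {n : ℕ} {a b c d e : (Fin n → M) → M} (ha : DT a) (hb : DT b) (hc : DT c)
    (hd : DT d) (he : DT e) : Dfn (fun v => Red (a v) (b v) (c v) (d v) (e v)) :=
  dfn5 Red.dfn ha hb hc hd he

/-- The preorder `(P, leP)` is a complete suborder of the preorder `(Q, leQ)`. -/
structure CSub (P leP Q leQ one : M) : Prop where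
  po : PO Q leQ one
  sub : Sb P Q
  one_mem : one ∈ P
  le_iff : ∀ p q, op p q ∈ leP ↔ p ∈ P ∧ q ∈ P ∧ op p q ∈ leQ
  comp : ∀ p q, p ∈ P → q ∈ P → (∃ r, op r p ∈ leQ ∧ op r q ∈ leQ) →
    ∃ r, op r p ∈ leP ∧ op r q ∈ leP
  red : ∀ u, u ∈ Q → ∃ p, Red P leP leQ p u

variable {P leP Q leQ one : M}

theorem CSub.poP (h : CSub P leP Q leQ one) : PO P leP one where
  sub p q hpq := ⟨((h.le_iff p q).1 hpq).1, ((h.le_iff p q).1 hpq).2.1⟩
  refl p hp := (h.le_iff p p).2 ⟨hp, hp, h.po.refl p (h.sub p hp)⟩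
  trans p q r h1 h2 := by
    obtain ⟨hp, -, h3⟩ := (h.le_iff p q).1 h1
    obtain ⟨-, hr, h4⟩ := (h.le_iff q r).1 h2
    exact (h.le_iff p r).2 ⟨hp, hr, h.po.trans p q r h3 h4⟩
  one_mem := h.one_mem
  top p hp := (h.le_iff p one).2 ⟨hp, h.one_mem, h.po.top p (h.sub p hp)⟩

theorem CSub.lift_le (h : CSub P leP Q leQ one) {p q : M} (hpq : op p q ∈ leP) : op p q ∈ leQ :=
  ((h.le_iff p q).1 hpq).2.2

theorem Red.mono (h : CSub P leP Q leQ one) {p q u : M} (hr : Red P leP leQ p u)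
    (hq : op q p ∈ leP) : Red P leP leQ q u :=
  ⟨(h.poP.sub _ _ hq).1, fun _ hp' => hr.2 _ (h.poP.trans _ _ _ hp' hq)⟩

theorem Red.up (h : CSub P leP Q leQ one) {p u u' : M} (hr : Red P leP leQ p u)
    (hu : op u u' ∈ leQ) : Red P leP leQ p u' :=
  ⟨hr.1, fun p' hp' => by
    obtain ⟨s, h1, h2⟩ := hr.2 p' hp'
    exact ⟨s, h1, h.po.trans _ _ _ h2 hu⟩⟩

theorem CSub.red_self (h : CSub P leP Q leQ one) {p : M} (hp : p ∈ P) : Red P leP leQ p p :=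
  ⟨hp, fun p' hp' => ⟨p', h.po.refl _ (h.sub _ (h.poP.sub _ _ hp').1), h.lift_le hp'⟩⟩

/-- A reduction below a given condition. -/
theorem CSub.red_below (h : CSub P leP Q leQ one) {u p a : M} (hr : Red P leP leQ p u)
    (ha : a ∈ P) (hu : op u a ∈ leQ) : ∃ q, Red P leP leQ q u ∧ op q p ∈ leP ∧ op q a ∈ leP := by
  obtain ⟨s, h1, h2⟩ := hr.2 p (h.poP.refl _ hr.1)
  obtain ⟨q, h3, h4⟩ := h.comp p a hr.1 ha ⟨s, h1, h.po.trans _ _ _ h2 hu⟩
  exact ⟨q, hr.mono h h3, h3, h4⟩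

/-- A reduction of `u` below two conditions which are above `u`. -/
theorem CSub.red_two (h : CSub P leP Q leQ one) {u a b : M} (ha : a ∈ P) (hb : b ∈ P)
    (hua : op u a ∈ leQ) (hub : op u b ∈ leQ) :
    ∃ q, Red P leP leQ q u ∧ op q a ∈ leP ∧ op q b ∈ leP := by
  obtain ⟨p, hp⟩ := h.red u (h.po.sub _ _ hua).1
  obtain ⟨q, hq, -, h1⟩ := h.red_below hp ha hua
  obtain ⟨r, hr, h2, h3⟩ := h.red_below hq hb hub
  exact ⟨r, hr, h.poP.trans _ _ _ h2 h1, h3⟩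

/-- The restriction of a generic filter. -/
theorem CSub.gen (h : CSub P leP Q leQ one) {G : M → Prop} (hG : Gen Q leQ one G) :
    Gen P leP one (fun p => p ∈ P ∧ G p) where
  mem p hp := hp.1
  one := ⟨h.one_mem, hG.one⟩
  up p q hp hpq := ⟨(h.poP.sub _ _ hpq).2, hG.up _ _ hp.2 (h.lift_le hpq)⟩
  dir p q hp hq := by
    obtain ⟨u, hu, hup, huq⟩ := hG.dir p q hp.2 hq.2
    obtain ⟨s, hs, t, hst, htp, htq⟩ := hG.below h.po
      (Q := fun s => ∃ t, op s t ∈ leQ ∧ op t p ∈ leP ∧ op t q ∈ leP)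
      (by simp (maxDischargeDepth := 50)) hu fun v hv => by
        obtain ⟨t, ht, h1, h2⟩ := h.red_two hp.1 hq.1 (h.po.trans _ _ _ hv hup)
          (h.po.trans _ _ _ hv huq)
        obtain ⟨s, h3, h4⟩ := ht.2 t (h.poP.refl _ ht.1)
        exact ⟨s, h4, t, h3, h1, h2⟩
    exact ⟨t, ⟨(h.poP.sub _ _ htp).1, hG.up _ _ hs hst⟩, htp, htq⟩
  gen D hD := by
    obtain ⟨s, hs, t, hst, htP, htD⟩ := hG.below h.po
      (Q := fun s => ∃ t, op s t ∈ leQ ∧ t ∈ P ∧ t ∈ D)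
      (by simp (maxDischargeDepth := 50)) hG.one fun v hv => by
        obtain ⟨t, ht⟩ := h.red v (h.po.sub _ _ hv).1
        obtain ⟨d, hdt, hd⟩ := hD t ht.1
        obtain ⟨s, h3, h4⟩ := ht.2 d hdt
        exact ⟨s, h4, d, h3, (h.poP.sub _ _ hdt).1, hd⟩
    exact ⟨t, ⟨htP, hG.up _ _ hs hst⟩, htD⟩

/-- A condition which forces the equality of the restrictions has reductions which force the
equality. -/
theorem CSub.eqF_red (h : CSub P leP Q leQ one) (x : M) : ∀ y u p,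
    EqF Q leQ (rn P x) (rn P y) u → Red P leP leQ p u → EqF P leP x y p := by
  refine name_ind (Q := fun x => ∀ y u p,
    EqF Q leQ (rn P x) (rn P y) u → Red P leP leQ p u → EqF P leP x y p)
    (by simp (maxDischargeDepth := 50)) (fun x ih y u p he hr => ?_) x
  -- one half, for `x` and `y` with `x` the name for which the induction hypothesis is used
  rw [eqF_iff h.poP hr.1]
  have he' := he
  rw [eqF_iff h.po he.mem] at he'
  constructor
  · intro z r hz q hqp hqr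
    obtain ⟨-, hrP⟩ := h.poP.sub _ _ hqr
    obtain ⟨v, hvq, hvu⟩ := hr.2 q hqp
    obtain ⟨s, hsv, w', t, hw', hst, hEq⟩ := he'.1 (rn P z) r
      (op_mem_rn.2 ⟨hrP, z, hz, rfl⟩) v hvu (h.po.trans _ _ _ hvq (h.lift_le hqr))
    obtain ⟨htP, w, hw, rfl⟩ := op_mem_rn.1 hw'
    obtain ⟨a, ha, h1, h2⟩ := h.red_two (h.poP.sub _ _ hqp).1 htP
      (h.po.trans _ _ _ hsv hvq) hst
    exact ⟨a, h1, w, t, hw, h2, ih z r hz w s a hEq ha⟩
  · intro w t hw q hqp hqt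
    obtain ⟨-, htP⟩ := h.poP.sub _ _ hqt
    obtain ⟨v, hvq, hvu⟩ := hr.2 q hqp
    obtain ⟨s, hsv, z', r, hz', hsr, hEq⟩ := he'.2 (rn P w) t
      (op_mem_rn.2 ⟨htP, w, hw, rfl⟩) v hvu (h.po.trans _ _ _ hvq (h.lift_le hqt))
    obtain ⟨hrP, z, hz, rfl⟩ := op_mem_rn.1 hz'
    obtain ⟨a, ha, h1, h2⟩ := h.red_two (h.poP.sub _ _ hqp).1 hrP
      (h.po.trans _ _ _ hsv hvq) hsr
    exact ⟨a, h1, z, r, hz, h2, ih z r hz w s a hEq ha⟩

/-- Forced equality for `P` is forced equality of the restrictions for `Q`. -/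
theorem CSub.eqF_lift (h : CSub P leP Q leQ one) (x : M) : ∀ y p,
    EqF P leP x y p → EqF Q leQ (rn P x) (rn P y) p := by
  refine name_ind (Q := fun x => ∀ y p, EqF P leP x y p → EqF Q leQ (rn P x) (rn P y) p)
    (by simp (maxDischargeDepth := 50)) (fun x ih y p he => ?_) x
  have hp := he.mem
  have he' := he
  rw [eqF_iff h.poP hp] at he'
  rw [eqF_iff h.po (h.sub _ hp)]
  constructor
  · intro z' r hz' q hqp hqr
    obtain ⟨hrP, z, hz, rfl⟩ := op_mem_rn.1 hz'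
    obtain ⟨a, ha, h1, h2⟩ := h.red_two hp hrP hqp hqr
    obtain ⟨s, hsa, w, t, hw, hst, hEq⟩ := he'.1 z r hz a h1 h2
    obtain ⟨b, hbs, hbq⟩ := ha.2 s hsa
    exact ⟨b, hbq, rn P w, t, op_mem_rn.2 ⟨(h.poP.sub _ _ hst).2, w, hw, rfl⟩,
      h.po.trans _ _ _ hbs (h.lift_le hst), (ih z r hz w s hEq).mono h.po hbs⟩
  · intro w' t hw' q hqp hqt
    obtain ⟨htP, w, hw, rfl⟩ := op_mem_rn.1 hw'
    obtain ⟨a, ha, h1, h2⟩ := h.red_two hp htP hqp hqt
    obtain ⟨s, hsa, z, r, hz, hsr, hEq⟩ := he'.2 w t hw a h1 h2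
    obtain ⟨b, hbs, hbq⟩ := ha.2 s hsa
    exact ⟨b, hbq, rn P z, r, op_mem_rn.2 ⟨(h.poP.sub _ _ hsr).2, z, hz, rfl⟩,
      h.po.trans _ _ _ hbs (h.lift_le hsr), (ih z r hz w s hEq).mono h.po hbs⟩

theorem CSub.memF_red (h : CSub P leP Q leQ one) {x y u p : M}
    (he : MemF Q leQ (rn P x) (rn P y) u) (hr : Red P leP leQ p u) : MemF P leP x y p := by
  refine ⟨hr.1, fun q hqp => ?_⟩
  obtain ⟨v, hvq, hvu⟩ := hr.2 q hqp
  obtain ⟨s, hsv, w', t, hw', hst, hEq⟩ := he.2 v hvu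
  obtain ⟨htP, w, hw, rfl⟩ := op_mem_rn.1 hw'
  obtain ⟨a, ha, h1, h2⟩ := h.red_two (h.poP.sub _ _ hqp).1 htP
    (h.po.trans _ _ _ hsv hvq) hst
  exact ⟨a, h1, w, t, hw, h2, h.eqF_red x w s a hEq ha⟩

theorem CSub.memF_lift (h : CSub P leP Q leQ one) {x y p : M} (he : MemF P leP x y p) :
    MemF Q leQ (rn P x) (rn P y) p := by
  refine ⟨h.sub _ he.1, fun q hqp => ?_⟩
  obtain ⟨a, ha, h1, -⟩ := h.red_two he.1 he.1 hqp hqp
  obtain ⟨s, hsa, w, t, hw, hst, hEq⟩ := he.2 a h1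
  obtain ⟨b, hbs, hbq⟩ := ha.2 s hsa
  exact ⟨b, hbq, rn P w, t, op_mem_rn.2 ⟨(h.poP.sub _ _ hst).2, w, hw, rfl⟩,
    h.po.trans _ _ _ hbs (h.lift_le hst), (h.eqF_lift x w s hEq).mono h.po hbs⟩

/-- For a member `u` of the generic filter, a member of its restriction is a reduction of `u`. -/
theorem CSub.exists_red (h : CSub P leP Q leQ one) {G : M → Prop} (hG : Gen Q leQ one G) {u : M}
    (hu : G u) : ∃ p, (p ∈ P ∧ G p) ∧ Red P leP leQ p u := by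
  obtain ⟨s, hs, p, hsp, hp⟩ := hG.below h.po
    (Q := fun s => ∃ p, op s p ∈ leQ ∧ Red P leP leQ p u)
    (by simp (maxDischargeDepth := 50)) hu fun v hv => by
      obtain ⟨p, hp⟩ := h.red v (h.po.sub _ _ hv).1
      obtain ⟨s, h3, h4⟩ := hp.2 p (h.poP.refl _ hp.1)
      exact ⟨s, h4, p, h3, hp.up h hv⟩
  exact ⟨p, ⟨hp.1, hG.up _ _ hs hsp⟩, hp⟩

end model

/-! ### The embedding of the extensions -/

section ext

variable {M : Type u} [Membership M M] [IsZFC M] {P leP Q leQ one : M} {G : M → Prop}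
  {N₀ : Type u} [Membership N₀ N₀] {val₀ : M → N₀} {N₁ : Type u} [Membership N₁ N₁] {val₁ : M → N₁}

/-- Equality of values in the two extensions. -/
theorem CSub.val_eq_iff (h : CSub P leP Q leQ one)
    (h₀ : Ext P leP one (fun p => p ∈ P ∧ G p) val₀) (h₁ : Ext Q leQ one G val₁) (x y : M) :
    val₀ x = val₀ y ↔ val₁ (rn P x) = val₁ (rn P y) := by
  rw [h₀.eq_iff, h₁.eq_iff]
  constructor
  · rintro ⟨p, hp, he⟩
    exact ⟨p, hp.2, h.eqF_lift x y p he⟩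
  · rintro ⟨u, hu, he⟩
    obtain ⟨p, hp, hr⟩ := h.exists_red h₁.gen hu
    exact ⟨p, hp, h.eqF_red x y u p he hr⟩

theorem CSub.val_mem_iff (h : CSub P leP Q leQ one)
    (h₀ : Ext P leP one (fun p => p ∈ P ∧ G p) val₀) (h₁ : Ext Q leQ one G val₁) (x y : M) :
    val₀ x ∈ val₀ y ↔ val₁ (rn P x) ∈ val₁ (rn P y) := by
  rw [h₀.mem_iff, h₁.mem_iff]
  constructor
  · rintro ⟨p, hp, he⟩
    exact ⟨p, hp.2, h.memF_lift he⟩
  · rintro ⟨u, hu, he⟩
    obtain ⟨p, hp, hr⟩ := h.exists_red h₁.gen hu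
    exact ⟨p, hp, h.memF_red he hr⟩

/-- The embedding of the extension by the complete suborder `P` in the extension by `Q`. -/
theorem CSub.exists_emb (h : CSub P leP Q leQ one)
    (h₀ : Ext P leP one (fun p => p ∈ P ∧ G p) val₀) (h₁ : Ext Q leQ one G val₁) :
    ∃ j : N₀ → N₁, (∀ x, j (val₀ x) = val₁ (rn P x)) ∧ (∀ x y, j x ∈ j y ↔ x ∈ y) ∧
      (∀ x y, j x = j y ↔ x = y) ∧ (∀ y z, z ∈ j y → ∃ x, x ∈ y ∧ z = j x) ∧
      ∀ x, j (val₀ (ck one x)) = val₁ (ck one x) := by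
  let j : N₀ → N₁ := fun x => val₁ (rn P (h₀.surj x).choose)
  have hj : ∀ x, j (val₀ x) = val₁ (rn P x) := fun x =>
    (h.val_eq_iff h₀ h₁ _ _).1 (h₀.surj (val₀ x)).choose_spec
  refine ⟨j, hj, fun x y => ?_, fun x y => ?_, fun y z hz => ?_, fun x => ?_⟩
  · obtain ⟨x, rfl⟩ := h₀.surj x
    obtain ⟨y, rfl⟩ := h₀.surj y
    rw [hj, hj]
    exact (h.val_mem_iff h₀ h₁ x y).symm
  · obtain ⟨x, rfl⟩ := h₀.surj x
    obtain ⟨y, rfl⟩ := h₀.surj y
    rw [hj, hj]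
    exact (h.val_eq_iff h₀ h₁ x y).symm
  · obtain ⟨y, rfl⟩ := h₀.surj y
    rw [hj, h₁.mem_val] at hz
    obtain ⟨w', t, hw', ht, rfl⟩ := hz
    obtain ⟨htP, w, hw, rfl⟩ := op_mem_rn.1 hw'
    exact ⟨val₀ w, h₀.mem_val.2 ⟨w, t, hw, ⟨htP, ht⟩, rfl⟩, (hj w).symm⟩
  · rw [hj, rn_ck h.one_mem]

end ext

end Pool.Agent.Sep
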