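import Pool.Agent.Sep.B0F

/-!
Tables of the enumeration of the constructible sets, and sets closed under adding one element to
an element.
-/

universe u

set_option linter.unusedSectionVars false

namespace Pool.Agent.Sep

open Pool.Agent.SigB
open Pool.Agent.GL (IsZF Ix Gf Qx Lt3 Step Fc)

variable {n : ℕ}

section

variable {M : Type u} [Membership M M] [IsZF M]

/-- `h` is the table of the first `γ` constructible sets. -/
def TabF (h γ : M) : Prop :=
  GL.Ord γ ∧ GL.Fn h γ ∧ ∀ α, α ∈ γ → ∀ y, GL.op α y ∈ h → StepR h α y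

theorem TabF.eq {h γ : M} (ht : TabF h γ) : ∀ α, α ∈ γ → GL.ap h α = Fc α := by
  obtain ⟨hγ, hf, hs⟩ := ht
  refine hγ.ind (P := fun α => GL.ap h α = Fc α) (by simp (maxDischargeDepth := 50)) ?_
  intro α hα ih
  have h1 := hs α hα _ ((hf.op_mem_iff hα).2 rfl)
  rw [stepR_iff hf (hγ.sb hα)] at h1
  exact Step.unique (hγ.mem hα) (Step.congr' ih h1) (GL.step_Fc (hγ.mem hα))

theorem TabF.mem_iff {h γ : M} (ht : TabF h γ) {α y : M} (hα : α ∈ γ) :
    GL.op α y ∈ h ↔ y = Fc α := by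
  rw [ht.2.1.op_mem_iff hα, ht.eq α hα]
  exact eq_comm

theorem tabF_lam {γ : M} (hγ : GL.Ord γ) : TabF (GL.lam γ Fc) γ := by
  have hf : GL.Fn (GL.lam γ Fc) γ := GL.fn_lam GL.Fc.dt
  refine ⟨hγ, hf, fun α hα y hy => ?_⟩
  rw [stepR_iff hf (hγ.sb hα)]
  have h1 := (GL.op_mem_lam GL.Fc.dt).1 hy
  rw [h1.2]
  refine Step.congr' (fun x hx => ?_) (GL.step_Fc (hγ.mem hα))
  exact (GL.ap_lam GL.Fc.dt (hγ.trans hx hα)).symm

/-- `W` contains the empty set and is closed under adding an element to an element. -/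
def Wcl (W : M) : Prop := GL.em ∈ W ∧ ∀ x, x ∈ W → ∀ y, y ∈ W → GL.un x (GL.pr y y) ∈ W

theorem Wcl.pr {W x y : M} (h : Wcl W) (hx : x ∈ W) (hy : y ∈ W) : GL.pr x y ∈ W := by
  have h1 := h.2 _ (h.2 _ h.1 x hx) y hy
  have h2 : GL.un (GL.un GL.em (GL.pr x x)) (GL.pr y y) = GL.pr x y :=
    GL.ext' fun z => by simp
  rwa [h2] at h1

theorem Wcl.op {W x y : M} (h : Wcl W) (hx : x ∈ W) (hy : y ∈ W) : GL.op x y ∈ W :=
  h.pr (h.pr hx hx) (h.pr hx hy)

theorem Wcl.om {W : M} (h : Wcl W) : GL.Sb GL.om W :=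
  GL.om_ind (P := fun x => x ∈ W) (by simp) h.1 fun x _ hx => h.2 x hx x hx

/-- Finite functions with values in `W` are elements of `W`. -/
theorem Wcl.fs {W B : M} (h : Wcl W) (hB : GL.Sb B W) :
    ∀ k, k ∈ (GL.om : M) → ∀ u, u ∈ GL.fs k B → u ∈ W := by
  refine GL.om_ind (P := fun k => ∀ u, u ∈ GL.fs k B → u ∈ W)
    (by simp (maxDischargeDepth := 50)) ?_ ?_
  · intro u hu
    have : u = GL.em := GL.ext' fun z => by
      constructor
      · intro hz
        obtain ⟨x, hx, _⟩ := (GL.mem_fs.1 hu).1.mem_iff.1 hz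
        exact (GL.not_mem_em _ hx).elim
      · intro hz
        exact (GL.not_mem_em _ hz).elim
    rw [this]
    exact h.1
  · intro k hk ih u hu
    obtain ⟨hf, hv⟩ := GL.mem_fs.1 hu
    have hsub : GL.Sb k (GL.sc k) := fun z hz => GL.mem_sc.2 (Or.inl hz)
    have hr : GL.rs u k ∈ GL.fs k B := GL.mem_fs.2 ⟨GL.fn_rs hf hsub, fun x hx => by
      rw [GL.ap_rs hf hsub hx]
      exact hv x (hsub x hx)⟩
    have hk' : k ∈ GL.sc k := GL.mem_sc_self k
    have h2 : u = GL.un (GL.rs u k) (GL.pr (GL.op k (GL.ap u k)) (GL.op k (GL.ap u k))) := by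
      refine GL.ext' fun z => ?_
      rw [GL.mem_un, GL.mem_pr, or_self]
      constructor
      · intro hz
        obtain ⟨x, hx, rfl⟩ := hf.mem_iff.1 hz
        rcases GL.mem_sc.1 hx with h3 | rfl
        · exact Or.inl (GL.op_mem_rs.2 ⟨hz, h3⟩)
        · exact Or.inr rfl
      · rintro (hz | rfl)
        · obtain ⟨x, hx, rfl⟩ := (GL.fn_rs hf hsub).mem_iff.1 hz
          exact (GL.op_mem_rs.1 hz).1
        · exact hf.mem_iff.2 ⟨k, hk', rfl⟩
    rw [h2]
    exact h.2 _ (ih _ hr) _ (h.op (h.om k hk) (hB _ (hv k hk')))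

end

@[simp] theorem b0_tabF (i j : Fin n) :
    B0 (fun (M : Mdl.{u}) (v : Fin n → M) => TabF (v i) (v j)) := by
  unfold TabF
  refine B0.and (b0_ord _) (B0.and (b0_fn _ _) (B0.ball (P := fun (M : Mdl.{u}) (v : Fin n → M) α =>
    ∀ y, GL.op α y ∈ v i → StepR (v i) α y) j ?_))
  refine B0.allval (P := fun (M : Mdl.{u}) (w : Fin (n + 1) → M) y => StepR (w i.succ) (w 0) y)
    i.succ 0 ?_
  exact b0_stepR _ _ _

@[simp] theorem b0_unpr (i j k : Fin n) : B0 (fun (M : Mdl.{u}) (v : Fin n → M) =>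
    v i = GL.un (v j) (GL.pr (v k) (v k))) := by
  refine B0.congr (P := fun M v => (∀ z, z ∈ v i → z ∈ v j ∨ z = v k) ∧
    (∀ z, z ∈ v j → z ∈ v i) ∧ v k ∈ v i) ?_ fun M v => ?_
  · exact B0.and (B0.ball (P := fun M v z => z ∈ v j ∨ z = v k) i (by simp))
      (B0.and (B0.ball (P := fun M v z => z ∈ v i) j (by simp)) (B0.mem k i))
  · constructor
    · rintro ⟨h1, h2, h3⟩
      refine GL.ext' fun z => ?_
      rw [GL.mem_un, GL.mem_pr, or_self]
      refine ⟨h1 z, ?_⟩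
      rintro (h | rfl)
      · exact h2 z h
      · exact h3
    · intro h
      rw [h]
      refine ⟨fun z hz => ?_, fun z hz => ?_, ?_⟩
      · simpa using hz
      · exact GL.mem_un.2 (Or.inl hz)
      · simp

@[simp] theorem b0_wcl (i : Fin n) :
    B0 (fun (M : Mdl.{u}) (v : Fin n → M) => Wcl (v i)) := by
  refine B0.congr (P := fun M v => (∃ e, e ∈ v i ∧ e = GL.em) ∧
    ∀ x, x ∈ v i → ∀ y, y ∈ v i → ∃ z, z ∈ v i ∧ z = GL.un x (GL.pr y y)) ?_ fun M v => ?_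
  · refine B0.and (B0.bex (P := fun M v e => e = GL.em) i (b0_em _)) ?_
    refine B0.ball (P := fun M v x => ∀ y, y ∈ v i → ∃ z, z ∈ v i ∧ z = GL.un x (GL.pr y y)) i ?_
    refine B0.ball (P := fun (M : Mdl.{u}) (w : Fin (n + 1) → M) y => ∃ z, z ∈ w i.succ ∧
      z = GL.un (w 0) (GL.pr y y)) i.succ ?_
    exact B0.bex (P := fun (M : Mdl.{u}) (w : Fin (n + 2) → M) z =>
      z = GL.un (w 1) (GL.pr (w 0) (w 0))) i.succ.succ (b0_unpr _ _ _)
  · constructor
    · rintro ⟨⟨e, he, rfl⟩, h⟩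
      refine ⟨he, fun x hx y hy => ?_⟩
      obtain ⟨z, hz, rfl⟩ := h x hx y hy
      exact hz
    · rintro ⟨h1, h2⟩
      exact ⟨⟨_, h1, rfl⟩, fun x hx y hy => ⟨_, h2 x hx y hy, rfl⟩⟩

end Pool.Agent.Sep
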