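import Pool.Agent.Sep.RulA
import Pool.Agent.Sep.Size
import Pool.Agent.Sep.Close

/-!
# The tasks at a position, inside the model
-/

universe u

set_option linter.unusedSectionVars false

namespace Pool.Agent.Sep

open Pool.Agent.SigB Pool.Agent.Forc Pool.Agent.Frc
open Pool.Agent.FDia (W1)

variable {M : Type u} [Membership M M] [IsZFC M]

/-! ### The predicates -/

/-- The real `z` is coded at the tag `t` below the condition `q`. -/
def CodedI (K : Cst M) (X t z q : M) : Prop :=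
  ∃ l, (l ∈ dm X ∧ IsCode X l ∧ cx X l = t) ∧ Lq K q (cg X l) ∧ FE K X q (cz X l) z

@[simp] theorem dfn_CodedI (K : Cst M) {n : ℕ} {s t r q : (Fin n → M) → M} (hs : DT s) (ht : DT t)
    (hr : DT r) (hq : DT q) : Dfn (fun v => CodedI K (s v) (t v) (r v) (q v)) :=
  dfn4 (R := CodedI K) (by unfold CodedI; simp (maxDischargeDepth := 50)) hs ht hr hq

/-- The real `z` is hopeless for the pair `a, b` below `q`. -/
def HopI (K : Frm M) (X O a b z q : M) : Prop :=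
  ∀ Y, LL K X O Y → ∀ r, r ∈ PX K.toCst Y → Lq K.toCst r q → ¬ K.F Y r a z ∧ ¬ K.F Y r b z

@[simp] theorem dfn_HopI (K : Frm M) {n : ℕ} {s t r q p o : (Fin n → M) → M} (hs : DT s)
    (ht : DT t) (hr : DT r) (hq : DT q) (hp : DT p) (ho : DT o) :
    Dfn (fun v => HopI K (s v) (t v) (r v) (q v) (p v) (o v)) :=
  dfn6 (R := HopI K) (by unfold HopI; simp (maxDischargeDepth := 50)) hs ht hr hq hp ho

/-- The pair `a, b` has been treated at tags of the first kind, below some condition below `q`. -/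
def DSigI (K : Frm M) (X O a b q : M) : Prop :=
  ∃ r, r ∈ PX K.toCst X ∧ Lq K.toCst r q ∧
    ((∃ z, NM K.toCst X z ∧ K.F X r a z ∧ K.F X r b z) ∨
      ∃ t, t ∈ O ∧ ¬ tk X t = (em : M) ∧ ta X t = a ∧ tb X t = b ∧ Lq K.toCst r (tg X t))

@[simp] theorem dfn_DSigI (K : Frm M) {n : ℕ} {s t r q p : (Fin n → M) → M} (hs : DT s)
    (ht : DT t) (hr : DT r) (hq : DT q) (hp : DT p) :
    Dfn (fun v => DSigI K (s v) (t v) (r v) (q v) (p v)) :=
  dfn5 (R := DSigI K) (by unfold DSigI; simp (maxDischargeDepth := 50)) hs ht hr hq hp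

/-- The pair `a, b` has been treated at tags of the second kind, below some condition below `q`. -/
def DPiI (K : Frm M) (X O a b q : M) : Prop :=
  ∃ r, r ∈ PX K.toCst X ∧ Lq K.toCst r q ∧
    ((∃ z, NM K.toCst X z ∧ HopI K X O a b z r) ∨
      ∃ t, t ∈ O ∧ tk X t = (em : M) ∧ ta X t = a ∧ tb X t = b ∧ Lq K.toCst r (tg X t))

@[simp] theorem dfn_DPiI (K : Frm M) {n : ℕ} {s t r q p : (Fin n → M) → M} (hs : DT s)
    (ht : DT t) (hr : DT r) (hq : DT q) (hp : DT p) :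
    Dfn (fun v => DPiI K (s v) (t v) (r v) (q v) (p v)) :=
  dfn5 (R := DPiI K) (by unfold DPiI; simp (maxDischargeDepth := 50)) hs ht hr hq hp

/-- The real `z` is coded at the tag `t` below some condition below `q`. -/
def DCodeI (K : Cst M) (X t z q : M) : Prop :=
  ∃ r, r ∈ PX K X ∧ Lq K r q ∧ CodedI K X t z r

@[simp] theorem dfn_DCodeI (K : Cst M) {n : ℕ} {s t r q : (Fin n → M) → M} (hs : DT s) (ht : DT t)
    (hr : DT r) (hq : DT q) : Dfn (fun v => DCodeI K (s v) (t v) (r v) (q v)) :=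
  dfn4 (R := DCodeI K) (by unfold DCodeI; simp (maxDischargeDepth := 50)) hs ht hr hq

/-- Complete positions. -/
def CmpI (K : Frm M) (X O : M) : Prop :=
  Pos K X O ∧
  (∀ a, NM K.toCst X a → ∀ b, NM K.toCst X b → ∀ q, q ∈ PX K.toCst X → DSigI K X O a b q) ∧
  (∀ a, NM K.toCst X a → ∀ b, NM K.toCst X b → ∀ q, q ∈ PX K.toCst X → DPiI K X O a b q) ∧
  ∀ t, t ∈ O → ∀ z, NM K.toCst X z → ∀ q, q ∈ PX K.toCst X → Lq K.toCst q (tg X t) →
    DCodeI K.toCst X t z q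

/-! ### The set of the tasks -/

/-- The tasks at the system `X`: `(0, (q, (a, b)))`, `(1, (q, (a, b)))` for names `a`, `b` and
`(2, (q, (t, z)))` for a label `t` and a name `z`. -/
noncomputable def tsk (K : Cst M) (X : M) : M :=
  sp (tks K X) fun t => ∀ k q u z, t = op k (op q (op u z)) →
    ((k = (em : M) ∨ k = sc (em : M)) → NM K X u) ∧ (k = sc (sc (em : M)) → u ∈ dm X)

theorem tsk.dt (K : Cst M) : DT (fun w : Fin 1 → M => tsk K (w 0)) := by
  unfold tsk; simp (maxDischargeDepth := 50)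

@[simp] theorem dt_tsk (K : Cst M) {n : ℕ} {s : (Fin n → M) → M} (hs : DT s) :
    DT (fun v => tsk K (s v)) := dt1 (tsk.dt K) hs

theorem mem_tsk {K : Cst M} {X k q u z : M} : op k (op q (op u z)) ∈ tsk K X ↔
    op k (op q (op u z)) ∈ tks K X ∧ ((k = (em : M) ∨ k = sc (em : M)) → NM K X u) ∧
      (k = sc (sc (em : M)) → u ∈ dm X) := by
  unfold tsk
  rw [mem_sp (by simp (maxDischargeDepth := 50))]
  refine and_congr_right fun _ => ⟨fun h => h k q u z rfl, ?_⟩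
  rintro h k' q' u' z' he
  obtain ⟨rfl, h2⟩ := op_inj.1 he
  obtain ⟨rfl, h3⟩ := op_inj.1 h2
  obtain ⟨rfl, rfl⟩ := op_inj.1 h3
  exact h

theorem tsk_sb {K : Cst M} {X : M} : Sb (tsk K X) (tks K X) := fun t ht => by
  unfold tsk at ht
  exact ((mem_sp (by simp (maxDischargeDepth := 50))).1 ht).1

theorem tsk_mono {K : Cst M} {X Y : M} (h : Sf X Y) : Sb (tsk K X) (tsk K Y) := by
  intro t ht
  obtain ⟨k, q, u, z, rfl⟩ := exists_of_mem_tks (tsk_sb t ht)
  obtain ⟨h1, h2, h3⟩ := mem_tsk.1 ht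
  obtain ⟨a1, a2, a3, a4⟩ := op_mem_tks.1 h1
  refine mem_tsk.2 ⟨op_mem_tks.2 ⟨a1, h.PX_sb _ a2, ?_, h.NM a4⟩, fun e => h.NM (h2 e),
    fun e => h.dm _ (h3 e)⟩
  rcases a3 with a3 | a3
  · exact Or.inl (h.dm _ a3)
  · exact Or.inr (h.NM a3)

/-- A task of the union of an increasing sequence is a task of a member. -/
theorem Inc.tsk {K : Cst M} {w : M} {S : M → M} (h : Inc w S) (hw : W1 w) {t : M}
    (ht : t ∈ Sep.tsk K (sU (im w S))) : ∃ a, a ∈ w ∧ t ∈ Sep.tsk K (S a) := by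
  obtain ⟨k, q, u, z, rfl⟩ := exists_of_mem_tks (tsk_sb t ht)
  obtain ⟨h1, h2, h3⟩ := mem_tsk.1 ht
  obtain ⟨a, ha, hta⟩ := h.tks hw h1
  by_cases hk : k = (em : M) ∨ k = sc (em : M)
  · obtain ⟨b, hb, hub⟩ := h.NM hw (h2 hk)
    obtain ⟨c, hc, hac, hbc⟩ := h.dir ha hb
    obtain ⟨a1, a2, a3, a4⟩ := op_mem_tks.1 hta
    refine ⟨c, hc, mem_tsk.2 ⟨op_mem_tks.2 ⟨a1, hac.PX_sb _ a2, Or.inr (hbc.NM hub),
      hac.NM a4⟩, fun _ => hbc.NM hub, fun e => ?_⟩⟩
    rcases hk with hk | hk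
    · rw [hk] at e
      exact (sc_ne_em _ e.symm).elim
    · rw [hk] at e
      exact (sc_ne_em _ (sc_inj e).symm).elim
  · by_cases hk2 : k = sc (sc (em : M))
    · obtain ⟨b, hb, hub⟩ := h.mem_dm.1 (h3 hk2)
      obtain ⟨c, hc, hac, hbc⟩ := h.dir ha hb
      obtain ⟨a1, a2, a3, a4⟩ := op_mem_tks.1 hta
      exact ⟨c, hc, mem_tsk.2 ⟨op_mem_tks.2 ⟨a1, hac.PX_sb _ a2, Or.inl (hbc.dm _ hub),
        hac.NM a4⟩, fun e => (hk e).elim, fun _ => hbc.dm _ hub⟩⟩
    · exact ⟨a, ha, mem_tsk.2 ⟨hta, fun e => (hk e).elim, fun e => (hk2 e).elim⟩⟩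

/-! ### Done tasks -/

/-- The task `t` is done at the position `P`. -/
def DnP (K : Frm M) (P t : M) : Prop :=
  ∀ k q u z, t = op k (op q (op u z)) →
    (k = (em : M) → DSigI K (fst P) (snd P) u z q) ∧
    (k = sc (em : M) → DPiI K (fst P) (snd P) u z q) ∧
    (k = sc (sc (em : M)) → u ∈ snd P → Lq K.toCst q (tg (fst P) u) →
      DCodeI K.toCst (fst P) u z q)

@[simp] theorem dfn_DnP (K : Frm M) {n : ℕ} {s t : (Fin n → M) → M} (hs : DT s) (ht : DT t) :
    Dfn (fun v => DnP K (s v) (t v)) :=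
  dfn2 (R := DnP K) (by unfold DnP; simp (maxDischargeDepth := 50)) hs ht

theorem DnP_iff {K : Frm M} {P k q u z : M} : DnP K P (op k (op q (op u z))) ↔
    (k = (em : M) → DSigI K (fst P) (snd P) u z q) ∧
    (k = sc (em : M) → DPiI K (fst P) (snd P) u z q) ∧
    (k = sc (sc (em : M)) → u ∈ snd P → Lq K.toCst q (tg (fst P) u) →
      DCodeI K.toCst (fst P) u z q) := by
  unfold DnP
  refine ⟨fun h => h k q u z rfl, ?_⟩
  rintro h k' q' u' z' he
  obtain ⟨rfl, h2⟩ := op_inj.1 he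
  obtain ⟨rfl, h3⟩ := op_inj.1 h2
  obtain ⟨rfl, rfl⟩ := op_inj.1 h3
  exact h

/-- The task `t` of the first closing is done at the system `X`: it is only about codes at open
tags of the second kind. -/
def DnG (K : Frm M) (O X t : M) : Prop :=
  ∀ k q u z, t = op k (op q (op u z)) → k = sc (sc (em : M)) → u ∈ O → tk X u = (em : M) →
    Lq K.toCst q (tg X u) → DCodeI K.toCst X u z q

@[simp] theorem dfn_DnG (K : Frm M) {n : ℕ} {s t r : (Fin n → M) → M} (hs : DT s) (ht : DT t)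
    (hr : DT r) : Dfn (fun v => DnG K (s v) (t v) (r v)) :=
  dfn3 (R := DnG K) (by unfold DnG; simp (maxDischargeDepth := 50)) hs ht hr

theorem DnG_iff {K : Frm M} {O X k q u z : M} : DnG K O X (op k (op q (op u z))) ↔
    (k = sc (sc (em : M)) → u ∈ O → tk X u = (em : M) → Lq K.toCst q (tg X u) →
      DCodeI K.toCst X u z q) := by
  unfold DnG
  refine ⟨fun h => h k q u z rfl, ?_⟩
  rintro h k' q' u' z' he
  obtain ⟨rfl, h2⟩ := op_inj.1 he
  obtain ⟨rfl, h3⟩ := op_inj.1 h2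
  obtain ⟨rfl, rfl⟩ := op_inj.1 h3
  exact h

end Pool.Agent.Sep
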