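import Pool.Agent.Sep.Emb
import Pool.Agent.Sep.Tree

/-!
Trees of finite sequences: a tree is well-founded if and only if it has no infinite branch.
-/

universe u v

set_option linter.unusedSectionVars false

namespace Pool.Agent.Sep

open Pool.Agent.SigB

section tree

variable {M : Type u} [Membership M M] [IsZFC M]

/-! ### Trees of finite sequences -/

/-- The tree of the finite sequences in `K` all of whose restrictions belong to `Φ`. -/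
noncomputable def Trx (K Φ : M) : M := sp (Forc.Seq K) fun s => ∀ n, n ∈ (om : M) → rs s n ∈ Φ

theorem mem_Trx {K Φ s : M} :
    s ∈ Trx K Φ ↔ s ∈ Forc.Seq K ∧ ∀ n, n ∈ (om : M) → rs s n ∈ Φ := by
  unfold Trx
  exact mem_sp (by simp (maxDischargeDepth := 50))

/-- The relation of the tree. -/
noncomputable def Trr (K Φ : M) : M := sp (pd (Trx K Φ) (Trx K Φ)) fun z =>
  ∃ s t n, z = op t s ∧ n ∈ (om : M) ∧ Fn s n ∧ Fn t (sc n) ∧ rs t n = s

theorem op_mem_Trr {K Φ s t : M} : op t s ∈ Trr K Φ ↔ (t ∈ Trx K Φ ∧ s ∈ Trx K Φ) ∧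
    ∃ n, n ∈ (om : M) ∧ Fn s n ∧ Fn t (sc n) ∧ rs t n = s := by
  unfold Trr
  rw [mem_sp (by simp (maxDischargeDepth := 50)), op_mem_pd]
  refine and_congr_right fun _ => ?_
  constructor
  · rintro ⟨s', t', n, h, h'⟩
    obtain ⟨rfl, rfl⟩ := op_inj.1 h
    exact ⟨n, h'⟩
  · rintro ⟨n, h⟩
    exact ⟨s, t, n, rfl, h⟩

/-- An infinite branch. -/
def Brc (K Φ b : M) : Prop := b ∈ fs om K ∧ ∀ n, n ∈ (om : M) → rs b n ∈ Φ

theorem om_le_total {n m : M} (hn : n ∈ (om : M)) (hm : m ∈ (om : M)) : Sb n m ∨ Sb m n :=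
  (ord_of_mem_om hn).sb_total (ord_of_mem_om hm)

theorem rs_rs_sb {f n m : M} (h : Sb m n) : rs (rs f n) m = rs f m := by
  have hm : ∀ {f a z : M}, z ∈ rs f a ↔ z ∈ f ∧ ∃ x, x ∈ a ∧ ∃ y, z = op x y := fun {f a z} =>
    GL.mem_rs
  refine ext' fun z => ?_
  rw [hm, hm, hm]
  constructor
  · rintro ⟨⟨h1, -⟩, h2⟩
    exact ⟨h1, h2⟩
  · rintro ⟨h1, x, hx, y, rfl⟩
    exact ⟨⟨h1, x, h x hx, y, rfl⟩, x, hx, y, rfl⟩

theorem rs_rs' {f n m : M} (h : Sb n m) : rs (rs f n) m = rs f n := by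
  have hm : ∀ {f a z : M}, z ∈ rs f a ↔ z ∈ f ∧ ∃ x, x ∈ a ∧ ∃ y, z = op x y := fun {f a z} =>
    GL.mem_rs
  refine ext' fun z => ?_
  rw [hm, hm]
  constructor
  · rintro ⟨h1, -⟩
    exact h1
  · rintro ⟨h1, x, hx, y, rfl⟩
    exact ⟨⟨h1, x, hx, y, rfl⟩, x, h x hx, y, rfl⟩

theorem rs_self {f n m : M} (hf : Fn f n) (h : Sb n m) : rs f m = f := by
  have hm : ∀ {f a z : M}, z ∈ rs f a ↔ z ∈ f ∧ ∃ x, x ∈ a ∧ ∃ y, z = op x y := fun {f a z} =>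
    GL.mem_rs
  refine ext' fun z => ?_
  rw [hm]
  constructor
  · rintro ⟨h1, -⟩
    exact h1
  · intro hz
    obtain ⟨x, hx, y, rfl⟩ := hf.1 z hz
    exact ⟨hz, x, h x hx, y, rfl⟩

theorem fs_rs {b K n : M} (hb : b ∈ fs om K) (hn : n ∈ (om : M)) : rs b n ∈ fs n K := by
  obtain ⟨h1, h2⟩ := mem_fs.1 hb
  have hs : Sb n om := om_ord.sb hn
  exact mem_fs.2 ⟨fn_rs h1 hs, fun x hx => by rw [ap_rs h1 hs hx]; exact h2 x (hs x hx)⟩

theorem Brc.trx {K Φ b n : M} (h : Brc K Φ b) (hn : n ∈ (om : M)) : rs b n ∈ Trx K Φ := by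
  refine mem_Trx.2 ⟨Forc.mem_Seq.2 ⟨n, hn, fs_rs h.1 hn⟩, fun m hm => ?_⟩
  rcases om_le_total hn hm with h' | h'
  · rw [rs_rs' h']
    exact h.2 n hn
  · rw [rs_rs_sb h']
    exact h.2 m hm

theorem sb_sc (n : M) : Sb n (sc n) := fun _ hz => mem_sc.2 (Or.inl hz)

theorem Brc.trr {K Φ b n : M} (h : Brc K Φ b) (hn : n ∈ (om : M)) :
    op (rs b (sc n)) (rs b n) ∈ Trr K Φ := by
  refine op_mem_Trr.2 ⟨⟨h.trx (sc_mem_om hn), h.trx hn⟩, n, hn,
    (mem_fs.1 (fs_rs h.1 hn)).1, (mem_fs.1 (fs_rs h.1 (sc_mem_om hn))).1, rs_rs_sb (sb_sc n)⟩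

/-- A tree with an infinite branch is not well-founded. -/
theorem not_wf_of_brc {K Φ b : M} (h : Brc K Φ b) : ¬ Wf (Trx K Φ) (Trr K Φ) := by
  intro hwf
  have hd : DT (fun w : Fin 1 → M => rs b (w 0)) := by simp (maxDischargeDepth := 50)
  obtain ⟨m, hm, hmin⟩ := hwf (im om fun n => rs b n) (fun z hz => by
    obtain ⟨n, hn, rfl⟩ := (mem_im hd).1 hz
    exact h.trx hn) ⟨rs b em, (mem_im hd).2 ⟨em, em_mem_om, rfl⟩⟩
  obtain ⟨n, hn, rfl⟩ := (mem_im hd).1 hm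
  exact hmin _ ((mem_im hd).2 ⟨sc n, sc_mem_om hn, rfl⟩) (h.trr hn)

/-- A tree which is not well-founded has an infinite branch. -/
theorem exists_brc {K Φ : M} (h : ¬ Wf (Trx K Φ) (Trr K Φ)) : ∃ b, Brc K Φ b := by
  unfold Wf at h
  push Not at h
  obtain ⟨S, hS, ⟨s₀, hs₀⟩, hmin⟩ := h
  -- close `S` under restrictions
  let S' : M := sp (Trx K Φ) fun s => ∃ t, t ∈ S ∧ ∃ n, n ∈ (om : M) ∧ s = rs t n
  have hS' : ∀ s, s ∈ S' ↔ s ∈ Trx K Φ ∧ ∃ t, t ∈ S ∧ ∃ n, n ∈ (om : M) ∧ s = rs t n := fun s =>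
    mem_sp (by simp (maxDischargeDepth := 50))
  have hcl : ∀ s, s ∈ Trx K Φ → ∀ n, n ∈ (om : M) → rs s n ∈ Trx K Φ := by
    intro s hs n hn
    obtain ⟨h1, h2⟩ := mem_Trx.1 hs
    obtain ⟨k, hk, h1⟩ := Forc.mem_Seq.1 h1
    obtain ⟨h3, h4⟩ := mem_fs.1 h1
    refine mem_Trx.2 ⟨?_, fun m hm => ?_⟩
    · rcases om_le_total hn hk with h' | h'
      · exact Forc.mem_Seq.2 ⟨n, hn, mem_fs.2 ⟨fn_rs h3 h', fun x hx => by
          rw [ap_rs h3 h' hx]; exact h4 x (h' x hx)⟩⟩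
      · rw [rs_self h3 h']
        exact Forc.mem_Seq.2 ⟨k, hk, h1⟩
    · rcases om_le_total hn hm with h' | h'
      · rw [rs_rs' h']; exact h2 n hn
      · rw [rs_rs_sb h']; exact h2 m hm
  have hmin' : ∀ s, s ∈ S' → ∃ t, t ∈ S' ∧ op t s ∈ Trr K Φ := by
    intro s hs
    obtain ⟨hs1, t, ht, n, hn, rfl⟩ := (hS' s).1 hs
    obtain ⟨k, hk, h1⟩ := Forc.mem_Seq.1 (mem_Trx.1 (hS t ht)).1
    obtain ⟨h3, h4⟩ := mem_fs.1 h1
    rcases (ord_of_mem_om hn).tri (ord_of_mem_om hk) with h' | h' | h'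
    · have hsc : Sb (sc n) k := (Ord.sc_sb_iff (ord_of_mem_om hk)).2 h'
      have hm : rs t (sc n) ∈ Trx K Φ := hcl t (hS t ht) _ (sc_mem_om hn)
      refine ⟨rs t (sc n), (hS' _).2 ⟨hm, t, ht, _, sc_mem_om hn, rfl⟩,
        op_mem_Trr.2 ⟨⟨hm, hs1⟩, n, hn, fn_rs h3 ((ord_of_mem_om hk).sb h'), fn_rs h3 hsc,
          rs_rs_sb (sb_sc n)⟩⟩
    · subst h'
      rw [rs_self h3 (Sb.refl n)]
      obtain ⟨y, hy, hy'⟩ := hmin t ht
      obtain ⟨n', hn', h5, h6, h7⟩ := (op_mem_Trr.1 hy').2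
      refine ⟨y, (hS' _).2 ⟨hS y hy, y, hy, _, sc_mem_om hn', ?_⟩, hy'⟩
      rw [rs_self h6 (Sb.refl _)]
    · rw [rs_self h3 ((ord_of_mem_om hn).sb h')]
      obtain ⟨y, hy, hy'⟩ := hmin t ht
      obtain ⟨n', hn', h5, h6, h7⟩ := (op_mem_Trr.1 hy').2
      refine ⟨y, (hS' _).2 ⟨hS y hy, y, hy, _, sc_mem_om hn', ?_⟩, hy'⟩
      rw [rs_self h6 (Sb.refl _)]
  obtain ⟨g, hg, hg'⟩ := choice' (a := S') (b := S') (P := fun s t => op t s ∈ Trr K Φ)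
    (by simp (maxDischargeDepth := 50)) hmin'
  obtain ⟨f, hf, hf0, hfs⟩ := om_recursion (SigB.em : M) (G := ap g)
    (by simp (maxDischargeDepth := 50))
  -- the values are an increasing chain
  have hem : (SigB.em : M) ∈ S' := by
    have h1 : rs s₀ SigB.em = (SigB.em : M) := by
      have hm : ∀ {f a z : M}, z ∈ rs f a ↔ z ∈ f ∧ ∃ x, x ∈ a ∧ ∃ y, z = op x y := fun {f a z} =>
        GL.mem_rs
      refine ext' fun z => ?_
      rw [hm]
      constructor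
      · rintro ⟨-, x, hx, -⟩
        exact (not_mem_em x hx).elim
      · intro hz
        exact (not_mem_em z hz).elim
    have h2 := hcl s₀ (hS _ hs₀) _ em_mem_om
    refine (hS' _).2 ⟨?_, s₀, hs₀, SigB.em, em_mem_om, h1.symm⟩
    rwa [h1] at h2
  have hfS : ∀ n, n ∈ (om : M) → ap f n ∈ S' ∧ Fn (ap f n) n := by
    refine om_ind (P := fun n => ap f n ∈ S' ∧ Fn (ap f n) n) (by simp (maxDischargeDepth := 50))
      ?_ ?_
    · rw [hf0]
      exact ⟨hem, fn_em_iff.2 rfl⟩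
    · rintro n hn ⟨h1, h2⟩
      rw [hfs n hn]
      obtain ⟨-, n', hn', h3, h4, -⟩ := op_mem_Trr.1 (hg' _ h1)
      obtain rfl := fn_dom h2 h3
      exact ⟨(mem_fs.1 hg).2 _ h1, h4⟩
  have hstep : ∀ n, n ∈ (om : M) → rs (ap f (sc n)) n = ap f n := by
    intro n hn
    obtain ⟨h1, h2⟩ := hfS n hn
    obtain ⟨-, n', hn', h3, h4, h5⟩ := op_mem_Trr.1 (hg' _ h1)
    obtain rfl := fn_dom h2 h3
    rw [hfs n hn]
    exact h5
  have hmono : ∀ m, m ∈ (om : M) → ∀ n, n ∈ (om : M) → Sb n m → rs (ap f m) n = ap f n := by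
    refine om_ind (P := fun m => ∀ n, n ∈ (om : M) → Sb n m → rs (ap f m) n = ap f n)
      (by simp (maxDischargeDepth := 50)) ?_ ?_
    · intro n hn hs
      have : n = SigB.em := ext' fun z => ⟨fun hz => hs z hz, fun hz => (not_mem_em z hz).elim⟩
      subst this
      exact rs_self (hfS _ em_mem_om).2 (Sb.refl _)
    · intro m hm ih n hn hs
      rcases (Ord.sb_iff (ord_of_mem_om hn) (ord_sc (ord_of_mem_om hm))).1 hs with h' | h'
      · have hnm : Sb n m := by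
          rcases mem_sc.1 h' with h' | h'
          · exact (ord_of_mem_om hm).sb h'
          · rw [h']; exact Sb.refl _
        rw [← rs_rs_sb (n := m) hnm, hstep m hm]
        exact ih n hn hnm
      · subst h'
        exact rs_self (hfS _ hn).2 (Sb.refl _)
  -- the branch
  let b : M := lam om fun n => ap (ap f (sc n)) n
  have hbd : DT (fun w : Fin 1 → M => ap (ap f (sc (w 0))) (w 0)) := by
    simp (maxDischargeDepth := 50)
  have hb : Fn b om := fn_lam hbd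
  have hbv : ∀ n, n ∈ (om : M) → ap b n = ap (ap f (sc n)) n := fun n hn => ap_lam hbd hn
  have hbr : ∀ n, n ∈ (om : M) → rs b n = ap f n := by
    intro n hn
    refine (fn_rs hb (om_ord.sb hn)).ext (hfS n hn).2 fun x hx => ?_
    have hxo : x ∈ (om : M) := om_ord.trans hx hn
    have hxs : Sb (sc x) n := (Ord.sc_sb_iff (ord_of_mem_om hn)).2 hx
    rw [ap_rs hb (om_ord.sb hn) hx, hbv x hxo, ← hmono n hn (sc x) (sc_mem_om hxo) hxs,
      ap_rs (hfS n hn).2 hxs (mem_sc_self x)]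
  refine ⟨b, lam_mem_fs hbd fun n hn => ?_, fun n hn => ?_⟩
  · have h1 := (mem_Trx.1 ((hS' _).1 (hfS _ (sc_mem_om hn)).1).1).1
    obtain ⟨k, hk, h1⟩ := Forc.mem_Seq.1 h1
    obtain ⟨h3, h4⟩ := mem_fs.1 h1
    obtain rfl := fn_dom h3 (hfS _ (sc_mem_om hn)).2
    exact h4 n (mem_sc_self n)
  · rw [hbr n hn]
    have h1 := (mem_Trx.1 ((hS' _).1 (hfS _ hn).1).1).2 n hn
    rwa [rs_self (hfS n hn).2 (Sb.refl n)] at h1

theorem wf_tree_iff {K Φ : M} : Wf (Trx K Φ) (Trr K Φ) ↔ ¬ ∃ b, Brc K Φ b := by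
  constructor
  · rintro h ⟨b, hb⟩
    exact not_wf_of_brc hb h
  · intro h
    by_contra hn
    exact h (exists_brc hn)

end tree

end Pool.Agent.Sep
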