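import Pool.Agent.Sep.EndC
import Pool.Agent.Sep.Om1
import Pool.Agent.GL.EmbExt

/-!
Extensions of models of the axiom of constructibility by posets with the countable chain
condition have countable tables of branches.
-/

universe u

set_option linter.unusedSectionVars false

namespace Pool.Agent.Sep

open Pool.Agent.SigB Pool.Agent.Forc Pool.Agent.Frc

variable {M : Type u} [Membership M M] [IsZFC M] {P le one : M} {G : M → Prop} {N : Type u}
  [Membership N N] [IsZFC N] {val : M → N}

/-- An extension by a poset with the countable chain condition has countable tables of branches. -/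
theorem wit_ext (hE : Ext P le one G val) (hc : CCC P le) (hL : GL.AllL M) : Wit N := by
  refine wit_emb (GL.trEmb_ext hE) (wit_of_allL hL) fun a ha hac => ?_
  obtain ⟨b, h1, h2, h3⟩ := w1_lift hE hc ha hac
  exact ⟨b, h3, h2⟩

end Pool.Agent.Sep
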